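import Pool.Agent.Bellows.Core

/-!
# Double boundary and closedness
-/

namespace Bellows

theorem face_face {n N : ℕ} (a : Fin (n + 2) ↪o Fin N) (j : Fin (n + 2)) (k : Fin (n + 1)) :
    face (face a (j.succAbove k)) (k.predAbove j) = face (face a j) k := by
  ext x
  simp only [face, RelEmbedding.coe_trans, Function.comp_apply, Fin.succAboveOrderEmb_apply]
  rw [Fin.succAbove_succAbove_succAbove_predAbove]

/-- `∂∂ = 0`. -/
theorem double_boundary {R : Type*} [CommRing R] {n N : ℕ} (a : Fin (n + 2) ↪o Fin N)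
    (Ψ : (Fin n ↪o Fin N) → R) :
    ∑ j : Fin (n + 2), ∑ k : Fin (n + 1), (-1) ^ (j : ℕ) * (-1) ^ (k : ℕ) * Ψ (face (face a j) k) = 0 := by
  rw [← Finset.sum_product']
  refine Finset.sum_involution (fun p _ => (p.1.succAbove p.2, p.2.predAbove p.1)) ?_ ?_ ?_ ?_
  · rintro ⟨j, k⟩ _
    have := Fin.neg_one_pow_succAbove_add_predAbove (R := R) j k
    simp only
    rw [face_face, ← add_mul, ← pow_add, ← pow_add, this]
    ring
  · rintro ⟨j, k⟩ _ _ h
    simp only [Prod.mk.injEq] at h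
    exact Fin.succAbove_ne _ _ h.1
  · intros; simp
  · rintro ⟨j, k⟩ _
    simp only [Prod.mk.injEq]
    exact ⟨Fin.succAbove_succAbove_predAbove _ _, Fin.predAbove_predAbove_succAbove _ _⟩

/-- Closedness, summed against a function of the faces. -/
theorem Cycle.sum_eq_zero {R : Type*} [CommRing R] {r N : ℕ} (K : Cycle r N)
    (Φ : (Fin r ↪o Fin N) → R) :
    ∑ a ∈ K.facets, ∑ j : Fin (r + 1), (K.coeff a : R) * (-1) ^ (j : ℕ) * Φ (face a j) = 0 := by
  classical
  set T : Finset (Fin r ↪o Fin N) :=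
    (K.facets ×ˢ (Finset.univ : Finset (Fin (r + 1)))).image fun p => face p.1 p.2 with hT
  have h1 : ∀ a ∈ K.facets, ∀ j : Fin (r + 1),
      (K.coeff a : R) * (-1) ^ (j : ℕ) * Φ (face a j) =
      ∑ F ∈ T, (((if face a j = F then (-1) ^ (j : ℕ) * K.coeff a else 0 : ℤ)) : R) * Φ F := by
    intro a ha j
    rw [Finset.sum_eq_single (face a j)]
    · simp; ring
    · intro F _ hF
      simp [hF.symm]
    · intro h
      exact absurd (Finset.mem_image.mpr ⟨(a, j), by simp [ha], rfl⟩) h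
  rw [Finset.sum_congr rfl fun a ha => Finset.sum_congr rfl fun j _ => h1 a ha j]
  rw [Finset.sum_congr rfl fun a ha => Finset.sum_comm, Finset.sum_comm]
  refine Finset.sum_eq_zero fun F _ => ?_
  have h2 := K.closed F
  have h3 : ((∑ a ∈ K.facets, ∑ i : Fin (r + 1),
      (if face a i = F then (-1) ^ (i : ℕ) * K.coeff a else 0) : ℤ) : R) * Φ F = 0 := by
    rw [h2]; simp
  rw [← h3]
  simp only [Int.cast_sum, Finset.sum_mul]

/-- Closedness, version with terms which are the same for all facets at a face. -/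
theorem Cycle.sum_eq_zero' {R : Type*} [CommRing R] {r N : ℕ} (K : Cycle r N)
    (Φ : (Fin (r + 1) ↪o Fin N) → Fin (r + 1) → R)
    (hΦ : ∀ a ∈ K.facets, ∀ b ∈ K.facets, ∀ i j, face a i = face b j → Φ a i = Φ b j) :
    ∑ a ∈ K.facets, ∑ j : Fin (r + 1), (K.coeff a : R) * (-1) ^ (j : ℕ) * Φ a j = 0 := by
  classical
  set Ψ : (Fin r ↪o Fin N) → R := fun F =>
    if h : ∃ p : (Fin (r + 1) ↪o Fin N) × Fin (r + 1), p.1 ∈ K.facets ∧ face p.1 p.2 = F then
      Φ h.choose.1 h.choose.2 else 0 with hΨ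
  rw [← K.sum_eq_zero Ψ]
  refine Finset.sum_congr rfl fun a ha => Finset.sum_congr rfl fun j _ => ?_
  congr 1
  have h : ∃ p : (Fin (r + 1) ↪o Fin N) × Fin (r + 1), p.1 ∈ K.facets ∧ face p.1 p.2 = face a j :=
    ⟨(a, j), ha, rfl⟩
  simp only [hΨ, dif_pos h]
  exact hΦ a ha _ h.choose_spec.1 _ _ h.choose_spec.2.symm

end Bellows
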