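import Pool.Agent.Bellows.Plate
import Pool.Agent.Bellows.Boundary

/-!
# The arithmetic key lemma in dimensions at least four
-/

namespace Bellows

open Matrix DOrd HFrame

attribute [local irreducible] DOrd.instFieldK

variable {K : Type*} [Field K] [Algebra ℂ K] {v : DOrd K} {m : ℕ}

theorem fc_coords {d r : ℕ} {C : Fin (r + 1) → Fin (d + 1) → ℝ} (hC0 : FT (C 0))
    (hC : ∀ k l, lf (C k) (C l) = if k = l then sgn ℝ k else 0)
    (c : Fin (r + 1) → ℝ) (hx : FC (∑ k, c k • C k)) :
    FC c := by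
  have h1 : ∀ c' : Fin (r + 1) → ℝ, lf (∑ k, c k • C k) (∑ k, c' k • C k) = lf c c' := by
    intro c'
    rw [lf_sum_left, lf_eq_sum_sgn]
    refine Finset.sum_congr rfl fun i _ => ?_
    rw [lf_sum_right, Finset.sum_eq_single i]
    · rw [lf_smul_left, lf_smul_right, hC, if_pos rfl]; ring
    · intro j _ hj
      rw [lf_smul_left, lf_smul_right, hC, if_neg hj.symm]; ring
    · simp
  refine ⟨by rw [← h1]; exact hx.1, ?_⟩
  have h2 := hC0.lf_neg hx
  have h3 : C 0 = ∑ k, (Pi.single 0 1 : Fin (r + 1) → ℝ) k • C k := by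
    rw [Finset.sum_eq_single 0] <;> simp +contextual
  rw [lf_comm, h3, h1, lf_comm, lf_single_left, if_pos rfl] at h2
  linarith

theorem lf_coords {R : Type*} [CommRing R] {d r : ℕ} {C : Fin (r + 1) → Fin (d + 1) → R}
    (hC : ∀ k l, lf (C k) (C l) = if k = l then sgn R k else 0) (c c' : Fin (r + 1) → R) :
    lf (∑ k, c k • C k) (∑ k, c' k • C k) = lf c c' := by
  rw [lf_sum_left, lf_eq_sum_sgn]
  refine Finset.sum_congr rfl fun i _ => ?_
  rw [lf_sum_right, Finset.sum_eq_single i]
  · rw [lf_smul_left, lf_smul_right, hC, if_pos rfl]; ring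
  · intro j _ hj
    rw [lf_smul_left, lf_smul_right, hC, if_neg hj.symm]; ring
  · simp

theorem red_two_ii_ne : v.red (2 * ii K) ≠ 0 := by
  apply red_ne_zero
  · intro h
    rcases mul_eq_zero.mp h with h | h
    · exact two_ne K h
    · have := ii_sq (K := K); rw [h, zero_mul] at this
      have h4 : (1 : K) = 0 := by linear_combination this
      exact one_ne_zero h4
  · have : (2 * ii K : K) = algebraMap ℂ K (2 * Complex.I) := by
      rw [map_mul, map_ofNat]; rfl
    rw [this, v.const]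
    simp

section edge

variable (B : HFrame K m) (ρ : v.k →+ ℝ) (ε : ℝ)

open Classical in
/-- The cochain attached to an edge, on the vertices `X` of a simplex of dimension `m`. -/
noncomputable def Psi (X : Fin (m + 1) → Fin (m + 3 + 1) → K) : ℝ :=
  if ∀ i, B.In v 0 0 (X i) ∧ B.In v (-1) 0 (X i) then
    Theta ρ (rc v.k ε) (fun i => B.ub v (X i)) else 0

/-- The real-form representation of a family of vectors. -/
theorem psi_sum (hm : 1 ≤ m) (hρ : ∀ x y, ρ (rc v.k x * y) = x * ρ y)
    (hρ1 : ρ 1 = 1) (X : Fin (m + 1 + 1) → Fin (m + 3 + 1) → K)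
    (hX : ∀ i, B.In v 0 0 (X i) ∧ B.In v (-1) 0 (X i))
    {T : Matrix (Fin (m + 1 + 1)) (Fin (m + 1 + 1)) v.k} (hT : IsLor T)
    (c : Fin (m + 1 + 1) → Fin (m + 1 + 1) → ℝ) (hc : ∀ i, FC (c i))
    (hXT : ∀ i, B.ub v (X i) = T.mulVec (toR (c i))) :
    ∑ j : Fin (m + 1 + 1), (-1) ^ (j : ℕ) * Psi B ρ ε (fun i => X (j.succAbove i)) =
      ρ (rc v.k ε * T.det * rc v.k (Matrix.of c).det) * J (gram c) := by
  have h := theta_cocycle hm ρ hρ hρ1 (rc v.k ε) hT c hc
  rw [det_of_mulVec, det_of_toR, ← mul_assoc] at h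
  rw [← h]
  refine Finset.sum_congr rfl fun j _ => ?_
  congr 1
  unfold Psi
  rw [if_pos fun i => hX _]
  simp only [hXT]

/-- Dependent faces: the sum vanishes. -/
theorem psi_sum_dep (hm : 1 ≤ m) (hρ : ∀ x y, ρ (rc v.k x * y) = x * ρ y)
    (hρ1 : ρ 1 = 1) (g : Matrix (Fin (m + 3 + 1)) (Fin (m + 3 + 1)) K) (hg : IsLor g)
    (x : Fin (m + 1 + 1) → Fin (m + 3 + 1) → ℝ) (hx : ∀ i, FC (x i))
    (hdep : ¬ LinearIndependent ℝ x) :
    ∑ j : Fin (m + 1 + 1), (-1) ^ (j : ℕ) *
      Psi B ρ ε (fun i => g.mulVec (toR (x (j.succAbove i)))) = 0 := by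
  by_cases hex : ∃ j0 : Fin (m + 1 + 1), LinearIndependent ℝ (fun i => x (j0.succAbove i)) ∧
      ∀ i, B.In v 0 0 (g.mulVec (toR (x (j0.succAbove i)))) ∧
        B.In v (-1) 0 (g.mulVec (toR (x (j0.succAbove i))))
  · obtain ⟨j0, hli, hmem⟩ := hex
    obtain ⟨A⟩ := exists_aframe (d := m + 3) (by omega) (by omega) _ (fun i => hx (j0.succAbove i)) hli
    -- frame vectors
    set C : Fin (m + 1) → Fin (m + 3 + 1) → ℝ := fun k => A.C.mulVec (Pi.single (Fin.castLE (by omega) k) 1)
      with hC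
    have hCC : ∀ k l, lf (C k) (C l) = if k = l then sgn ℝ k else 0 := by
      intro k l
      rw [hC]; simp only
      rw [A.lor, lf_single_single]
      by_cases h : k = l
      · subst h; rw [if_pos rfl, if_pos rfl]; unfold sgn; simp only [Fin.ext_iff]; rfl
      · rw [if_neg h, if_neg (fun h' => h (Fin.castLE_injective _ h'))]
    have hC0 : FT (C 0) := by
      have : C 0 = A.C.mulVec (Pi.single 0 1) := by rw [hC]; rfl
      rw [this]; exact A.lor.ft A.fut FT.single
    have hxC : ∀ w, x (j0.succAbove w) = ∑ k, A.c w k • C k := by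
      intro w; funext i
      rw [A.hx w i, Finset.sum_apply]
      refine Finset.sum_congr rfl fun k _ => ?_
      simp only [hC, Pi.smul_apply, smul_eq_mul, Matrix.mulVec_single_one, Matrix.col_apply]
    have hcu : IsUnit A.c.det := isUnit_iff_ne_zero.mpr A.cdet.ne'
    have hCx : ∀ k, C k = ∑ w, A.c⁻¹ k w • x (j0.succAbove w) := by
      intro k
      simp only [hxC, Finset.smul_sum, smul_smul]
      rw [Finset.sum_comm]
      simp only [← Finset.sum_smul]
      rw [Finset.sum_eq_single k]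
      · have : ∑ w, A.c⁻¹ k w * A.c w k = (A.c⁻¹ * A.c) k k := by rw [Matrix.mul_apply]
        rw [this, Matrix.nonsing_inv_mul _ hcu, Matrix.one_apply_eq, one_smul]
      · intro l _ hl
        have : ∑ w, A.c⁻¹ k w * A.c w l = (A.c⁻¹ * A.c) k l := by rw [Matrix.mul_apply]
        rw [this, Matrix.nonsing_inv_mul _ hcu, Matrix.one_apply_ne hl.symm, zero_smul]
      · simp
    -- coefficients of all vectors
    have hall : ∀ i, ∃ c' : Fin (m + 1) → ℝ, x i = ∑ k, c' k • C k := by
      intro i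
      by_cases hi : i = j0
      · subst hi
        -- dependence
        rw [Fintype.not_linearIndependent_iff] at hdep
        obtain ⟨l, hl, i', hl'⟩ := hdep
        rw [Fin.sum_univ_succAbove _ i] at hl
        have hli0 : l i ≠ 0 := by
          intro h0
          rw [h0, zero_smul, zero_add] at hl
          have h1 := Fintype.linearIndependent_iff.mp hli _ hl
          rcases Fin.eq_self_or_eq_succAbove i i' with h2 | ⟨w, h2⟩
          · exact hl' (by rw [h2, h0])
          · exact hl' (by rw [h2]; exact h1 w)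
        refine ⟨fun k => ∑ w, (-(l i)⁻¹ * l (i.succAbove w)) * A.c w k, ?_⟩
        have h3 : x i = ∑ w, (-(l i)⁻¹ * l (i.succAbove w)) • x (i.succAbove w) := by
          have h4 : x i = -(l i)⁻¹ • ∑ w, l (i.succAbove w) • x (i.succAbove w) := by
            rw [eq_neg_of_add_eq_zero_right hl, smul_neg, neg_smul, neg_neg, smul_smul,
              inv_mul_cancel₀ hli0, one_smul]
          rw [h4, Finset.smul_sum]
          refine Finset.sum_congr rfl fun w _ => ?_
          rw [smul_smul]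
        rw [h3]
        simp only [hxC, Finset.smul_sum, smul_smul, Finset.sum_smul]
        exact Finset.sum_comm
      · obtain ⟨w, hw⟩ := Fin.exists_succAbove_eq hi
        exact ⟨A.c w, by rw [← hw]; exact hxC w⟩
    choose c' hc' using hall
    -- the frame vectors in the plate
    set b : Fin (m + 1) → Fin (m + 3 + 1) → K := fun k => g.mulVec (toR (C k)) with hb
    have hbx : ∀ k, b k = ∑ w, rc K (A.c⁻¹ k w) • g.mulVec (toR (x (j0.succAbove w))) := by
      intro k
      simp only [hb]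
      conv_lhs => rw [hCx k]
      rw [toR_sum, Matrix.mulVec_sum]
      refine Finset.sum_congr rfl fun w _ => ?_
      rw [toR_smul, Matrix.mulVec_smul]
    have hbm : ∀ k, B.In v 0 0 (b k) ∧ B.In v (-1) 0 (b k) := by
      intro k
      rw [hbx]
      exact ⟨In.real_comb B _ _ _ fun i _ => (hmem i).1, In.real_comb B _ _ _ fun i _ => (hmem i).2⟩
    have hXb : ∀ i, g.mulVec (toR (x i)) = ∑ k, rc K (c' i k) • b k := by
      intro i
      conv_lhs => rw [hc' i]
      rw [toR_sum, Matrix.mulVec_sum]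
      refine Finset.sum_congr rfl fun w _ => ?_
      rw [toR_smul, Matrix.mulVec_smul]
    have hXm : ∀ i, B.In v 0 0 (g.mulVec (toR (x i))) ∧ B.In v (-1) 0 (g.mulVec (toR (x i))) := by
      intro i
      rw [hXb]
      exact ⟨In.real_comb B _ _ _ fun i _ => (hbm i).1, In.real_comb B _ _ _ fun i _ => (hbm i).2⟩
    have hON : ON (fun k => B.ub v (b k)) := by
      intro k l
      rw [lf_ub_of_mem B (hbm k).1 (hbm l).1 (hbm k).2 (hbm l).2]
      simp only [hb]
      rw [hg, lf_toR, hCC, red_rc]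
      split_ifs
      · rw [rc_sgn]
      · simp
    obtain ⟨T, hT, hTb⟩ := hON.exists_lor
    rw [psi_sum B ρ ε hm hρ hρ1 _ hXm hT (fun i => Fin.snoc (c' i) 0) ?_ ?_]
    · have : (Matrix.of fun i => (Fin.snoc (c' i) 0 : Fin (m + 1 + 1) → ℝ)).det = 0 := by
        apply Matrix.det_eq_zero_of_column_eq_zero (Fin.last _)
        intro i; simp
      rw [this, map_zero, mul_zero, map_zero, zero_mul]
    · intro i
      have h1 : FC (c' i) := fc_coords hC0 hCC (c' i) (by rw [← hc']; exact hx i)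
      refine ⟨?_, ?_⟩
      · have h2 := h1.1
        rw [lf_eq_sum_sgn] at h2 ⊢
        rw [Fin.sum_univ_castSucc]
        simp only [Fin.snoc_castSucc, Fin.snoc_last, mul_zero, add_zero]
        have h3 : ∀ k : Fin (m + 1), sgn ℝ k.castSucc = sgn ℝ k := by
          intro k; unfold sgn; simp only [Fin.castSucc_eq_zero_iff]
        simpa only [h3] using h2
      · have : (0 : Fin (m + 1 + 1)) = Fin.castSucc 0 := rfl
        rw [this, Fin.snoc_castSucc]
        exact h1.2
    · intro i
      rw [hXb, ub_real_comb B _ _ _ fun k _ => (hbm k).1]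
      have h1 : (toR (Fin.snoc (c' i) 0 : Fin (m + 1 + 1) → ℝ) : Fin (m + 1 + 1) → v.k) =
          ∑ k : Fin (m + 1), rc v.k (c' i k) • (Pi.single k.castSucc 1 : Fin (m + 1 + 1) → v.k) := by
        funext j
        rw [Finset.sum_apply, toR_apply]
        refine Fin.lastCases ?_ (fun j => ?_) j
        · rw [Fin.snoc_last, map_zero, Finset.sum_eq_zero]
          intro k _
          simp [(Fin.castSucc_lt_last k).ne']
        · rw [Fin.snoc_castSucc, Finset.sum_eq_single j]
          · simp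
          · intro l _ hl
            rw [Pi.smul_apply, Pi.single_apply, if_neg, smul_zero]
            exact fun h => hl (Fin.castSucc_injective _ h).symm
          · simp
      rw [h1, Matrix.mulVec_sum]
      refine Finset.sum_congr rfl fun k _ => ?_
      rw [Matrix.mulVec_smul, hTb]
  · push Not at hex
    refine Finset.sum_eq_zero fun j _ => ?_
    suffices h : Psi B ρ ε (fun i => g.mulVec (toR (x (j.succAbove i)))) = 0 by rw [h, mul_zero]
    unfold Psi
    split_ifs with hmem
    · -- the vectors are dependent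
      have hli : ¬ LinearIndependent ℝ (fun i => x (j.succAbove i)) := by
        intro hli
        obtain ⟨i, hi⟩ := hex j hli
        exact hi (hmem i).1 (hmem i).2
      unfold Theta
      rw [if_neg]
      rintro ⟨o, T', c', z', hT', hc', hli', hz', h, rfl⟩
      apply hli
      rw [Fintype.linearIndependent_iff] at hli' ⊢
      intro l hl
      apply hli'
      apply toR_injective (k := v.k)
      rw [toR_zero, toR_sum]
      have h1 : T'.mulVec (∑ i, toR (l i • c' i)) = 0 := by
        rw [Matrix.mulVec_sum]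
        have : ∀ i, T'.mulVec (toR (l i • c' i)) = rc v.k (l i) • B.ub v (g.mulVec (toR (x (j.succAbove i)))) := by
          intro i
          rw [toR_smul, Matrix.mulVec_smul, ← h]
        simp only [this]
        rw [← ub_real_comb B _ _ _ fun i _ => (hmem i).1]
        have h2 : ∑ i, rc K (l i) • g.mulVec (toR (x (j.succAbove i))) = 0 := by
          simp only [← Matrix.mulVec_smul, ← toR_smul]
          rw [← Matrix.mulVec_sum, ← toR_sum, hl, toR_zero, Matrix.mulVec_zero]
        rw [h2]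
        funext k
        unfold ub
        rw [lf_zero_left, red_zero, mul_zero]; rfl
      have h2 := congrArg (fun y => T'⁻¹.mulVec y) h1
      simp only [hT'.inv_mulVec, Matrix.mulVec_zero] at h2
      exact h2
    · rfl

/-- Independent faces on the line of the edge. -/
theorem psi_sum_line (hm : 1 ≤ m) (hρ : ∀ x y, ρ (rc v.k x * y) = x * ρ y)
    (hρ1 : ρ 1 = 1) (BF : HFrame K m) (hD : v.red B.D * rc v.k ε = v.red (2 * ii K))
    (hε : ε * ε = 1) (δ : ℝ) (hBF : v.red BF.D = rc v.k δ * v.red (2 * ii K))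
    (h0 : B.L v 0 = BF.L v 0) (h1 : B.L v (-1) = BF.L v (-1))
    (g : Matrix (Fin (m + 3 + 1)) (Fin (m + 3 + 1)) K)
    (x : Fin (m + 2) → Fin (m + 3 + 1) → ℝ) (hx : ∀ i, FC (x i))
    (A : AFrame (show m + 2 ≤ m + 3 + 1 by omega) x)
    (he : ∀ k, BF.e k = g.mulVec (A.eK K k)) :
    ∑ j : Fin (m + 1 + 1), (-1) ^ (j : ℕ) *
      Psi B ρ ε (fun i => g.mulVec (toR (x (j.succAbove i)))) = δ * A.wt := by
  have hX : ∀ i : Fin (m + 1 + 1), g.mulVec (toR (x i)) = ∑ k : Fin (m + 1 + 1), rc K (A.c i k) • BF.e k := by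
    intro i
    rw [A.toR_x_eq, Matrix.mulVec_sum]
    refine Finset.sum_congr rfl fun k _ => ?_
    rw [Matrix.mulVec_smul, he]
  have hem : ∀ k, B.In v 0 0 (BF.e k) ∧ B.In v (-1) 0 (BF.e k) := by
    intro k
    have e0 : BF.e k ∈ B.L v 0 := by rw [h0]; exact in_e BF k 0
    have e1 : BF.e k ∈ B.L v (-1) := by rw [h1]; exact in_e BF k (-1)
    exact ⟨e0, e1⟩
  have hXm : ∀ i, B.In v 0 0 (g.mulVec (toR (x i))) ∧ B.In v (-1) 0 (g.mulVec (toR (x i))) := by
    intro i
    rw [hX]
    exact ⟨In.real_comb B _ _ _ fun i _ => (hem i).1, In.real_comb B _ _ _ fun i _ => (hem i).2⟩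
  have hee : ∀ k l, lf (B.ub v (BF.e k)) (B.ub v (BF.e l)) = if k = l then sgn v.k k else 0 := by
    intro k l
    rw [lf_ub_of_mem B (hem k).1 (hem l).1 (hem k).2 (hem l).2, BF.ee]
    split_ifs
    · rw [red_sgn]
    · rw [red_zero]
  set T : Matrix (Fin (m + 1 + 1)) (Fin (m + 1 + 1)) v.k :=
    (Matrix.of fun k : Fin (m + 1 + 1) => B.ub v (BF.e k))ᵀ with hT
  have hTe : ∀ c : Fin (m + 1 + 1) → v.k, T.mulVec c = ∑ k, c k • B.ub v (BF.e k) := by
    intro c
    funext j
    rw [hT, Finset.sum_apply, Matrix.mulVec, dotProduct]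
    refine Finset.sum_congr rfl fun k _ => ?_
    rw [Matrix.transpose_apply, Matrix.of_apply, mul_comm]; rfl
  have hTL : IsLor T := by
    intro c c'
    rw [hTe, hTe, lf_coords hee]
  have hTdet : rc v.k ε * T.det = rc v.k δ := by
    have h2 := orient B BF (v := v) (by
      -- integrality of the determinant
      by_contra hc
      have hz : v.red B.D = 0 := by unfold DOrd.red; rw [dif_neg hc]
      rw [hz, zero_mul] at hD
      exact red_two_ii_ne hD.symm) h0 h1
    have hT2 : (Matrix.of fun k : Fin (m + 1 + 1) => B.ub v (BF.e k)).det = T.det := by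
      rw [hT, Matrix.det_transpose]
    rw [hT2, hBF] at h2
    have h3 : v.red (2 * ii K) ≠ 0 := red_two_ii_ne
    have hεε : rc v.k ε * rc v.k ε = 1 := by rw [← map_mul, hε, map_one]
    apply mul_right_cancel₀ h3
    have h4 : T.det * v.red (2 * ii K) = rc v.k ε * (rc v.k δ * v.red (2 * ii K)) := by
      rw [h2, ← hD]; ring
    rw [mul_assoc, h4, ← mul_assoc, hεε, one_mul]
  -- coordinates
  have hcC : ∀ w, x w = ∑ k : Fin (m + 1 + 1), A.c w k •
      A.C.mulVec (Pi.single (Fin.castLE (by omega) k) 1) := by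
    intro w; funext i
    rw [A.hx w i, Finset.sum_apply]
    refine Finset.sum_congr rfl fun k _ => ?_
    simp only [Pi.smul_apply, smul_eq_mul, Matrix.mulVec_single_one, Matrix.col_apply]
  have hCC : ∀ k l : Fin (m + 1 + 1), lf (A.C.mulVec (Pi.single (Fin.castLE (by omega) k) 1))
      (A.C.mulVec (Pi.single (Fin.castLE (by omega) l) 1)) = if k = l then sgn ℝ k else 0 := by
    intro k l
    rw [A.lor, lf_single_single]
    by_cases h : k = l
    · subst h; rw [if_pos rfl, if_pos rfl]; unfold sgn; simp only [Fin.ext_iff]; rfl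
    · rw [if_neg h, if_neg (fun h' => h (Fin.castLE_injective _ h'))]
  have hC0 : FT (A.C.mulVec (Pi.single (Fin.castLE (by omega) (0 : Fin (m + 1 + 1))) 1)) :=
    A.lor.ft A.fut FT.single
  have hcfc : ∀ w : Fin (m + 1 + 1), FC (A.c w) := by
    intro w
    exact fc_coords (C := fun k : Fin (m + 1 + 1) =>
      A.C.mulVec (Pi.single (Fin.castLE (by omega) k) 1)) hC0 hCC (A.c w) (by
        have h := hx w
        rw [hcC w] at h; exact h)
  rw [psi_sum B ρ ε hm hρ hρ1 _ hXm hTL (fun w => A.c w) hcfc (by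
    intro i
    rw [hX, ub_real_comb B _ _ _ fun k _ => (hem k).1, hTe]; rfl)]
  rw [hTdet]
  have hρr : ∀ x, ρ (rc v.k x) = x := by
    intro x
    have := hρ x 1
    rw [mul_one, hρ1, mul_one] at this; exact this
  rw [← map_mul, hρr]
  have hgram : gram (fun w => A.c w) = gram x := by
    ext i j
    change lf (A.c i) (A.c j) = lf (x i) (x j)
    conv_rhs => rw [hcC i, hcC j]
    rw [lf_coords (C := fun k : Fin (m + 1 + 1) =>
      A.C.mulVec (Pi.single (Fin.castLE (by omega) k) 1)) hCC]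
  rw [hgram]
  unfold AFrame.wt Jr
  rw [if_neg (by omega)]
  have : (Matrix.of fun w => A.c w) = A.c := rfl
  rw [this]; ring

end edge

/-- The polyhedron data over the field. -/
structure Data (K : Type*) [Field K] [Algebra ℂ K] (m N : ℕ) where
  Kc : Cycle (m + 2) N
  ξ : Fin N → Fin (m + 3 + 1) → ℝ
  hξ : ∀ i, FC (ξ i)
  Fr : ∀ F : Fin (m + 2) ↪o Fin N, LinearIndependent ℝ (fun k => ξ (F k)) →
      AFrame (show m + 2 ≤ m + 3 + 1 by omega) (fun k => ξ (F k))
  g : (Fin (m + 3) ↪o Fin N) → Matrix (Fin (m + 3 + 1)) (Fin (m + 3 + 1)) K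
  hg : ∀ a ∈ Kc.facets, IsLor (g a)
  BF : (Fin (m + 2) ↪o Fin N) → HFrame K m
  hBe : ∀ a ∈ Kc.facets, ∀ j, ∀ h : LinearIndependent ℝ (fun k => ξ (face a j k)),
    ∀ k, (BF (face a j)).e k = (g a).mulVec ((Fr _ h).eK K k)
  hBD : ∀ a ∈ Kc.facets, ∀ j, LinearIndependent ℝ (fun k => ξ (face a j k)) →
    (BF (face a j)).D = 2 * ii K

variable {N : ℕ} (𝔇 : Data K m N)

open Classical in
/-- Position of an edge with respect to the line of a face. -/
noncomputable def orr (v : DOrd K) (L L' : Set (Fin (m + 3 + 1) → K)) (B : HFrame K m) : ℝ :=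
  if ∃ n, L = B.L v n ∧ L' = B.L v (n - 1) then 1
  else if ∃ n, L = B.L v n ∧ L' = B.L v (n + 1) then -1 else 0

theorem face_indep {n N : ℕ} {V : Type*} [AddCommGroup V] [Module ℝ V] (x : Fin N → V)
    (F : Fin (n + 1) ↪o Fin N) (h : LinearIndependent ℝ (fun k => x (F k))) (j : Fin (n + 1)) :
    LinearIndependent ℝ (fun k => x (face F j k)) :=
  h.comp (fun k => j.succAbove k) Fin.succAbove_right_injective

/-- An edge which is not on the line of an independent face, but meets the span of a face of it: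
all the plates are on the same side. -/
theorem sig_const (B BF : HFrame K m) (x : Fin (m + 2) → Fin (m + 3 + 1) → ℝ)
    (hx : ∀ i, FC (x i)) (hm : 1 ≤ m)
    (A : AFrame (show m + 2 ≤ m + 3 + 1 by omega) x)
    (g : Matrix (Fin (m + 3 + 1)) (Fin (m + 3 + 1)) K)
    (he : ∀ k, BF.e k = g.mulVec (A.eK K k)) (j : Fin (m + 1 + 1))
    (hmem : ∀ i, B.In v 0 0 (g.mulVec (toR (x (j.succAbove i)))) ∧
      B.In v (-1) 0 (g.mulVec (toR (x (j.succAbove i)))))
    (hor : orr v (B.L v 0) (B.L v (-1)) BF = 0) (i i' : ℤ) :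
    sig v (B.L v 0) (B.L v (-1)) (BF.L v i) ↔ sig v (B.L v 0) (B.L v (-1)) (BF.L v i') := by
  -- an adapted rotation
  have hcC : ∀ w, x w = ∑ k : Fin (m + 1 + 1), A.c w k •
      A.C.mulVec (Pi.single (Fin.castLE (by omega) k) 1) := by
    intro w; funext i
    rw [A.hx w i, Finset.sum_apply]
    refine Finset.sum_congr rfl fun k _ => ?_
    simp only [Pi.smul_apply, smul_eq_mul, Matrix.mulVec_single_one, Matrix.col_apply]
  have hCC : ∀ k l : Fin (m + 1 + 1), lf (A.C.mulVec (Pi.single (Fin.castLE (by omega) k) 1))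
      (A.C.mulVec (Pi.single (Fin.castLE (by omega) l) 1)) = if k = l then sgn ℝ k else 0 := by
    intro k l
    rw [A.lor, lf_single_single]
    by_cases h : k = l
    · subst h; rw [if_pos rfl, if_pos rfl]; unfold sgn; simp only [Fin.ext_iff]; rfl
    · rw [if_neg h, if_neg (fun h' => h (Fin.castLE_injective _ h'))]
  have hC0 : FT (A.C.mulVec (Pi.single (Fin.castLE (by omega) (0 : Fin (m + 1 + 1))) 1)) :=
    A.lor.ft A.fut FT.single
  have hcfc : ∀ w : Fin (m + 1 + 1), FC (A.c w) := by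
    intro w
    exact fc_coords (C := fun k : Fin (m + 1 + 1) =>
      A.C.mulVec (Pi.single (Fin.castLE (by omega) k) 1)) hC0 hCC (A.c w) (by
        have h := hx w
        rw [hcC w] at h; exact h)
  have hcli : LinearIndependent ℝ (fun w : Fin (m + 1 + 1) => A.c w) :=
    Matrix.linearIndependent_rows_of_det_ne_zero A.cdet.ne'
  have hcli2 : LinearIndependent ℝ (fun w : Fin (m + 1) => A.c (j.succAbove w)) :=
    hcli.comp (fun k => j.succAbove k) Fin.succAbove_right_injective
  obtain ⟨A2⟩ := exists_aframe (d := m + 1) (r := m + 1) (by omega) le_rfl _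
    (fun w => hcfc (j.succAbove w)) hcli2
  -- the rotated frame
  set B2 := BF.rot A2.C A2.lor with hB2
  have hu : IsUnit A2.c.det := isUnit_iff_ne_zero.mpr A2.cdet.ne'
  have hX : ∀ i : Fin (m + 1 + 1), g.mulVec (toR (x i)) =
      ∑ k : Fin (m + 1 + 1), rc K (A.c i k) • BF.e k := by
    intro i
    rw [A.toR_x_eq, Matrix.mulVec_sum]
    refine Finset.sum_congr rfl fun k _ => ?_
    rw [Matrix.mulVec_smul, he]
  have hcol : ∀ (k : Fin (m + 1)) (l : Fin (m + 1 + 1)),
      A2.C l k.castSucc = ∑ w, A2.c⁻¹ k w * A.c (j.succAbove w) l := by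
    intro k l
    simp only [A2.hx _ l, Finset.mul_sum, ← mul_assoc]
    rw [Finset.sum_comm]
    simp only [← Finset.sum_mul]
    rw [Finset.sum_eq_single k]
    · have : ∑ w, A2.c⁻¹ k w * A2.c w k = (A2.c⁻¹ * A2.c) k k := by rw [Matrix.mul_apply]
      rw [this, Matrix.nonsing_inv_mul _ hu, Matrix.one_apply_eq, one_mul]; rfl
    · intro i _ hi
      have : ∑ w, A2.c⁻¹ k w * A2.c w i = (A2.c⁻¹ * A2.c) k i := by rw [Matrix.mul_apply]
      rw [this, Matrix.nonsing_inv_mul _ hu, Matrix.one_apply_ne hi.symm, zero_mul]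
    · simp
  have hB2e : ∀ k : Fin (m + 1), B2.e k.castSucc =
      ∑ w, rc K (A2.c⁻¹ k w) • g.mulVec (toR (x (j.succAbove w))) := by
    intro k
    change ∑ l, rc K (A2.C l k.castSucc) • BF.e l = _
    simp only [hX, Finset.smul_sum, smul_smul, hcol, map_sum, Finset.sum_smul, map_mul]
    exact Finset.sum_comm
  have hb0 : ∀ k : Fin (m + 1), B.In v 0 0 (B2.e k.castSucc) := by
    intro k; rw [hB2e]; exact In.real_comb B _ _ _ fun i _ => (hmem i).1
  have hb1 : ∀ k : Fin (m + 1), B.In v (-1) 0 (B2.e k.castSucc) := by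
    intro k; rw [hB2e]; exact In.real_comb B _ _ _ fun i _ => (hmem i).2
  have hL : ∀ i, B2.L v i = BF.L v i := fun i => L_rot BF A2.C A2.lor i
  rcases tree B B2 hb0 hb1 with h | ⟨n, h1, h2⟩ | ⟨n, h1, h2⟩
  · have := h i i'
    rwa [hL, hL] at this
  · rw [hL] at h1 h2
    unfold orr at hor
    rw [if_pos ⟨n, h1, h2⟩] at hor
    exact absurd hor one_ne_zero
  · rw [hL] at h1 h2
    unfold orr at hor
    split_ifs at hor with h3 h4
    · exact absurd hor one_ne_zero
    · exact absurd hor (by norm_num)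
    · exact absurd ⟨n, h1, h2⟩ h4

open Classical in
/-- The identity attached to an edge. -/
theorem edge_identity (hm : 1 ≤ m) (B : HFrame K m) (ε : ℝ) (hε : ε * ε = 1)
    (hD : v.red B.D * rc v.k ε = v.red (2 * ii K)) (n : (Fin (m + 3) ↪o Fin N) → Fin (m + 3) → ℤ)
    (hn : ∀ a ∈ 𝔇.Kc.facets, ∀ j, LinearIndependent ℝ (fun k => 𝔇.ξ (face a j k)) →
      Lat v (𝔇.g a) = (𝔇.BF (face a j)).L v (n a j)) :
    ∑ a ∈ 𝔇.Kc.facets, ∑ j : Fin (m + 3), (𝔇.Kc.coeff a : ℝ) * (-1) ^ (j : ℕ) *
      (if h : LinearIndependent ℝ (fun k => 𝔇.ξ (face a j k)) then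
        (𝔇.Fr (face a j) h).wt * (orr v (B.L v 0) (B.L v (-1)) (𝔇.BF (face a j)) *
          if sig v (B.L v 0) (B.L v (-1)) (Lat v (𝔇.g a)) then 1 else 0)
      else 0) = 0 := by
  obtain ⟨ρ, hρ, hρ1⟩ := exists_rho v.k
  -- the cochains of the plates
  set σ : (Fin (m + 3) ↪o Fin N) → ℝ := fun a =>
    if sig v (B.L v 0) (B.L v (-1)) (Lat v (𝔇.g a)) then 1 else 0 with hσ
  set Ψ : (Fin (m + 3) ↪o Fin N) → (Fin (m + 1) ↪o Fin N) → ℝ := fun a H =>
    Psi B ρ ε (fun i => (𝔇.g a).mulVec (toR (𝔇.ξ (H i)))) with hΨ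
  set G : (Fin (m + 3) ↪o Fin N) → Fin (m + 3) → ℝ := fun a j =>
    ∑ k : Fin (m + 1 + 1), (-1) ^ (k : ℕ) * Ψ a (face (face a j) k) with hG
  have h1 : ∀ a, ∑ j : Fin (m + 3), (-1) ^ (j : ℕ) * G a j = 0 := by
    intro a
    rw [← double_boundary a (Ψ a)]
    refine Finset.sum_congr rfl fun j _ => ?_
    rw [hG, Finset.mul_sum]
    refine Finset.sum_congr rfl fun k _ => ?_
    ring
  have h2 : ∑ a ∈ 𝔇.Kc.facets, ∑ j : Fin (m + 3), (𝔇.Kc.coeff a : ℝ) * (-1) ^ (j : ℕ) *
      (σ a * G a j) = 0 := by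
    refine Finset.sum_eq_zero fun a _ => ?_
    have : ∑ j : Fin (m + 3), (𝔇.Kc.coeff a : ℝ) * (-1) ^ (j : ℕ) * (σ a * G a j) =
        (𝔇.Kc.coeff a : ℝ) * σ a * ∑ j : Fin (m + 3), (-1) ^ (j : ℕ) * G a j := by
      rw [Finset.mul_sum]
      exact Finset.sum_congr rfl fun j _ => by ring
    rw [this, h1, mul_zero]
  -- the difference is constant on faces
  have h3 := 𝔇.Kc.sum_eq_zero' (R := ℝ) (fun a j => σ a * G a j -
    (if h : LinearIndependent ℝ (fun k => 𝔇.ξ (face a j k)) then
        (𝔇.Fr (face a j) h).wt * (orr v (B.L v 0) (B.L v (-1)) (𝔇.BF (face a j)) * σ a)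
      else 0)) (by
    intro a ha b hb i j hij
    -- the faces of the plate `a`
    have hGa : ∀ a ∈ 𝔇.Kc.facets, ∀ i, ¬ LinearIndependent ℝ (fun k => 𝔇.ξ (face a i k)) →
        G a i = 0 := by
      intro a ha i hi
      have h := psi_sum_dep B ρ ε hm hρ hρ1 (𝔇.g a) (𝔇.hg a ha) (fun k => 𝔇.ξ (face a i k))
        (fun k => 𝔇.hξ _) hi
      exact h
    have hGo : ∀ a ∈ 𝔇.Kc.facets, ∀ i, ∀ h : LinearIndependent ℝ (fun k => 𝔇.ξ (face a i k)),
        orr v (B.L v 0) (B.L v (-1)) (𝔇.BF (face a i)) ≠ 0 →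
        G a i = orr v (B.L v 0) (B.L v (-1)) (𝔇.BF (face a i)) * (𝔇.Fr (face a i) h).wt := by
      intro a ha i h ho
      set BB := 𝔇.BF (face a i) with hBB
      have hBBe := 𝔇.hBe a ha i h
      have hBBD := 𝔇.hBD a ha i h
      rw [← hBB] at hBBe hBBD
      unfold orr at ho ⊢
      split_ifs at ho ⊢ with c1 c2
      · obtain ⟨n, e1, e2⟩ := c1
        exact psi_sum_line B ρ ε hm hρ hρ1 (BB.shift v n) hD hε 1
          (by rw [D_shift, hBBD, map_one, one_mul]) (by rw [L_shift, zero_add]; exact e1)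
          (by rw [L_shift]; rw [e2]; congr 1; ring) (𝔇.g a) (fun k => 𝔇.ξ (face a i k))
          (fun k => 𝔇.hξ _) (𝔇.Fr (face a i) h) hBBe
      · obtain ⟨n, e1, e2⟩ := c2
        exact psi_sum_line B ρ ε hm hρ hρ1 (BB.swap.shift v (-n)) hD hε (-1)
          (by rw [D_shift, D_swap, hBBD, map_neg, map_one, neg_one_mul, red_neg]
              have : (2 * ii K : K) = algebraMap ℂ K (2 * Complex.I) := by
                rw [map_mul, map_ofNat]; rfl
              rw [this]; exact Ge.const _)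
          (by rw [L_shift, L_swap]; rw [e1]; congr 1; ring)
          (by rw [L_shift, L_swap]; rw [e2]; congr 1; ring) (𝔇.g a) (fun k => 𝔇.ξ (face a i k))
          (fun k => 𝔇.hξ _) (𝔇.Fr (face a i) h) hBBe
      · exact absurd rfl ho
    by_cases hli : LinearIndependent ℝ (fun k => 𝔇.ξ (face a i k))
    · have hlj : LinearIndependent ℝ (fun k => 𝔇.ξ (face b j k)) := by rw [← hij]; exact hli
      rw [dif_pos hli, dif_pos hlj]
      by_cases ho : orr v (B.L v 0) (B.L v (-1)) (𝔇.BF (face a i)) = 0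
      · have ho' : orr v (B.L v 0) (B.L v (-1)) (𝔇.BF (face b j)) = 0 := by rw [← hij]; exact ho
        rw [ho, ho', zero_mul, mul_zero, sub_zero, zero_mul, mul_zero, sub_zero]
        -- the vertices of the face agree
        have hX : ∀ k, (𝔇.g a).mulVec (toR (𝔇.ξ (face a i k))) =
            (𝔇.g b).mulVec (toR (𝔇.ξ (face a i k))) := by
          intro k
          have key : ∀ (c : Fin (m + 3) ↪o Fin N), c ∈ 𝔇.Kc.facets → ∀ l, face c l = face a i →
              (𝔇.g c).mulVec (toR (𝔇.ξ (face a i k))) =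
              ∑ w : Fin (m + 1 + 1), rc K ((𝔇.Fr (face a i) hli).c k w) • (𝔇.BF (face a i)).e w := by
            intro c hc l hl
            have h5 : ∀ F, face c l = F → ∀ h : LinearIndependent ℝ (fun k => 𝔇.ξ (F k)),
                (𝔇.g c).mulVec (toR (𝔇.ξ (F k))) =
                ∑ w : Fin (m + 1 + 1), rc K ((𝔇.Fr F h).c k w) • (𝔇.BF F).e w := by
              rintro F rfl h
              rw [AFrame.toR_x_eq (𝔇.Fr (face c l) h) k, Matrix.mulVec_sum]
              refine Finset.sum_congr rfl fun w _ => ?_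
              rw [Matrix.mulVec_smul, 𝔇.hBe c hc l h]
            exact h5 _ hl hli
          rw [key a ha i rfl, key b hb j hij.symm]
        have hGG : G a i = G b j := by
          simp only [hG, hΨ]
          rw [← hij]
          refine Finset.sum_congr rfl fun k _ => ?_
          congr 2
          funext w
          exact hX _
        rw [hGG]
        by_cases hz : G b j = 0
        · rw [hz, mul_zero, mul_zero]
        · congr 1
          -- some face of the face has its vertices in both lattices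
          obtain ⟨k, hk⟩ : ∃ k : Fin (m + 1 + 1), ∀ w : Fin (m + 1),
              B.In v 0 0 ((𝔇.g a).mulVec (toR (𝔇.ξ (face a i (k.succAbove w))))) ∧
              B.In v (-1) 0 ((𝔇.g a).mulVec (toR (𝔇.ξ (face a i (k.succAbove w))))) := by
            by_contra hc
            push Not at hc
            apply hz
            rw [← hGG]
            simp only [hG, hΨ]
            refine Finset.sum_eq_zero fun k _ => ?_
            suffices h : Psi B ρ ε (fun w => (𝔇.g a).mulVec (toR (𝔇.ξ (face (face a i) k w)))) = 0 by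
              rw [h, mul_zero]
            unfold Psi
            rw [if_neg]
            intro h6
            obtain ⟨w, hw⟩ := hc k
            exact hw (h6 w).1 (h6 w).2
          have h7 := sig_const B (𝔇.BF (face a i)) (fun k => 𝔇.ξ (face a i k)) (fun k => 𝔇.hξ _) hm
            (𝔇.Fr (face a i) hli) (𝔇.g a) (𝔇.hBe a ha i hli) k hk ho (n a i) (n b j)
          simp only [hσ]
          rw [hn a ha i hli, hn b hb j hlj, ← hij]
          simp only [h7]
      · have ho' : orr v (B.L v 0) (B.L v (-1)) (𝔇.BF (face b j)) ≠ 0 := by rw [← hij]; exact ho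
        rw [hGo a ha i hli ho, hGo b hb j hlj ho']
        ring
    · have hlj : ¬ LinearIndependent ℝ (fun k => 𝔇.ξ (face b j k)) := by rw [← hij]; exact hli
      rw [dif_neg hli, dif_neg hlj, hGa a ha i hli, hGa b hb j hlj, mul_zero, mul_zero])
  have h4 : ∑ a ∈ 𝔇.Kc.facets, ∑ j : Fin (m + 3), (𝔇.Kc.coeff a : ℝ) * (-1) ^ (j : ℕ) *
      (if h : LinearIndependent ℝ (fun k => 𝔇.ξ (face a j k)) then
        (𝔇.Fr (face a j) h).wt * (orr v (B.L v 0) (B.L v (-1)) (𝔇.BF (face a j)) * σ a)
      else 0) = (∑ a ∈ 𝔇.Kc.facets, ∑ j : Fin (m + 3), (𝔇.Kc.coeff a : ℝ) * (-1) ^ (j : ℕ) *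
      (σ a * G a j)) - ∑ a ∈ 𝔇.Kc.facets, ∑ j : Fin (m + 3),
      (𝔇.Kc.coeff a : ℝ) * (-1) ^ (j : ℕ) * (σ a * G a j -
      (if h : LinearIndependent ℝ (fun k => 𝔇.ξ (face a j k)) then
        (𝔇.Fr (face a j) h).wt * (orr v (B.L v 0) (B.L v (-1)) (𝔇.BF (face a j)) * σ a)
      else 0)) := by
    rw [← Finset.sum_sub_distrib]
    refine Finset.sum_congr rfl fun a _ => ?_
    rw [← Finset.sum_sub_distrib]
    refine Finset.sum_congr rfl fun j _ => ?_
    ring
  rw [h4, h2, h3, sub_zero]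

end Bellows
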