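import Pool.Agent.Bellows.ATn

/-!
# The arithmetic key lemma in dimensions at least four: summation over the edges
-/

namespace Bellows

open Matrix DOrd HFrame

attribute [local irreducible] DOrd.instFieldK

variable {K : Type*} [Field K] [Algebra ℂ K] {v : DOrd K} {m N : ℕ}

open Classical in
/-- The contribution of an edge to the sum over the line of a face. -/
noncomputable def hs (v : DOrd K) (B : HFrame K m)
    (s : Set (Fin (m + 3 + 1) → K) × Set (Fin (m + 3 + 1) → K)) (n : ℤ) : ℝ :=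
  orr v s.1 s.2 B * if sig v s.1 s.2 (B.L v n) then 1 else 0

open Classical in
theorem hs_sub (B : HFrame K m)
    (s : Set (Fin (m + 3 + 1) → K) × Set (Fin (m + 3 + 1) → K)) (n : ℤ) :
    hs v B s n - hs v B s (n - 1) =
      - (if s = (B.L v n, B.L v (n - 1)) then 1 else 0) -
        (if s = (B.L v (n - 1), B.L v n) then 1 else 0) := by
  unfold hs
  by_cases h1 : ∃ p, s.1 = B.L v p ∧ s.2 = B.L v (p - 1)
  · obtain ⟨p, hp1, hp2⟩ := h1
    have ho : orr v s.1 s.2 B = 1 := by unfold orr; rw [if_pos ⟨p, hp1, hp2⟩]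
    rw [ho, hp1, hp2]
    simp only [sig_down, one_mul]
    have e1 : s = (B.L v n, B.L v (n - 1)) ↔ n = p := by
      constructor
      · intro h
        have := congrArg Prod.fst h
        rw [hp1] at this
        exact (L_injective B this).symm
      · rintro rfl; exact Prod.ext hp1 hp2
    have e2 : ¬ s = (B.L v (n - 1), B.L v n) := by
      intro h
      have h3 := congrArg Prod.fst h
      have h4 := congrArg Prod.snd h
      rw [hp1] at h3
      rw [hp2] at h4
      have := L_injective B h3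
      have := L_injective B h4
      omega
    rw [if_neg e2]
    simp only [e1]
    split_ifs <;> first | (exfalso; omega) | norm_num
  · by_cases h2 : ∃ p, s.1 = B.L v p ∧ s.2 = B.L v (p + 1)
    · obtain ⟨p, hp1, hp2⟩ := h2
      have ho : orr v s.1 s.2 B = -1 := by
        unfold orr; rw [if_neg h1, if_pos ⟨p, hp1, hp2⟩]
      rw [ho, hp1, hp2]
      simp only [sig_up]
      have e1 : s = (B.L v (n - 1), B.L v n) ↔ n - 1 = p := by
        constructor
        · intro h
          have := congrArg Prod.fst h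
          rw [hp1] at this
          exact (L_injective B this).symm
        · rintro rfl
          refine Prod.ext hp1 ?_
          rw [hp2]; congr 1; ring
      have e2 : ¬ s = (B.L v n, B.L v (n - 1)) := by
        intro h
        exact h1 ⟨n, congrArg Prod.fst h, congrArg Prod.snd h⟩
      rw [if_neg e2]
      simp only [e1]
      split_ifs <;> first | (exfalso; omega) | norm_num
    · have ho : orr v s.1 s.2 B = 0 := by unfold orr; rw [if_neg h1, if_neg h2]
      rw [ho, zero_mul, zero_mul, if_neg, if_neg]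
      · norm_num
      · intro h
        refine h2 ⟨n - 1, congrArg Prod.fst h, ?_⟩
        rw [congrArg Prod.snd h, sub_add_cancel]
      · intro h
        exact h1 ⟨n, congrArg Prod.fst h, congrArg Prod.snd h⟩

theorem sum_hs (B : HFrame K m)
    (S : Finset (Set (Fin (m + 3 + 1) → K) × Set (Fin (m + 3 + 1) → K))) (R : ℕ)
    (hS : ∀ n : ℤ, -(R : ℤ) ≤ n → n ≤ R → (B.L v n, B.L v (n - 1)) ∈ S ∧ (B.L v (n - 1), B.L v n) ∈ S)
    (n : ℤ) (h1 : -(R : ℤ) ≤ n) (h2 : n ≤ R) :
    ∑ s ∈ S, hs v B s n = ∑ s ∈ S, hs v B s (-(R : ℤ)) - 2 * (n + R) := by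
  classical
  have step : ∀ n : ℤ, -(R : ℤ) ≤ n → n ≤ R →
      ∑ s ∈ S, hs v B s n - ∑ s ∈ S, hs v B s (n - 1) = -2 := by
    intro n h1 h2
    rw [← Finset.sum_sub_distrib]
    simp only [hs_sub]
    rw [Finset.sum_sub_distrib, Finset.sum_neg_distrib, Finset.sum_ite_eq_of_mem', Finset.sum_ite_eq_of_mem']
    · norm_num
    · exact (hS n h1 h2).2
    · exact (hS n h1 h2).1
  have key : ∀ k : ℕ, -(R : ℤ) + k ≤ R →
      ∑ s ∈ S, hs v B s (-(R : ℤ) + k) = ∑ s ∈ S, hs v B s (-(R : ℤ)) - 2 * k := by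
    intro k
    induction k with
    | zero => intro _; simp
    | succ k ih =>
      intro hk
      push_cast at hk ⊢
      have h3 := step (-(R : ℤ) + (k + 1)) (by omega) (by omega)
      have h4 : -(R : ℤ) + (k + 1) - 1 = -(R : ℤ) + k := by ring
      rw [h4, ih (by omega)] at h3
      linarith
  have h3 := key (n + R).toNat (by rw [Int.toNat_of_nonneg (by omega)]; omega)
  rw [Int.toNat_of_nonneg (by omega)] at h3
  have h4 : -(R : ℤ) + (n + R) = n := by ring
  rw [h4] at h3
  rw [h3]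
  have h5 : (((n + R).toNat : ℕ) : ℝ) = (n : ℝ) + R := by
    have : (((n + R).toNat : ℤ) : ℝ) = ((n + R : ℤ) : ℝ) := by
      rw [Int.toNat_of_nonneg (by omega)]
    push_cast at this
    exact_mod_cast this
  rw [h5]

open Classical in
/-- The arithmetic key lemma for `m ≥ 1` (dimension at least four). -/
theorem AT_n (hm : 1 ≤ m) (Kc : Cycle (m + 2) N)
    (ξ : Fin N → Fin (m + 4) → ℝ) (hξ : ∀ i, FC (d := m + 3) (ξ i))
    (Fr : ∀ F : Fin (m + 2) ↪o Fin N, LinearIndependent ℝ (fun k => ξ (F k)) →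
      AFrame (show m + 2 ≤ m + 3 + 1 by omega) (fun k => ξ (F k)))
    (g : (Fin (m + 3) ↪o Fin N) → Matrix (Fin (m + 4)) (Fin (m + 4)) K)
    (hg : ∀ a ∈ Kc.facets, IsLor (d := m + 3) (g a) ∧ (g a).det = 1)
    (hag : ∀ a ∈ Kc.facets, ∀ b ∈ Kc.facets, ∀ i j, face a i = face b j →
      LinearIndependent ℝ (fun k => ξ (face a i k)) →
      ∀ k, (g a).mulVec (toR (ξ (face a i k))) = (g b).mulVec (toR (ξ (face a i k))))
    (I : (Fin (m + 2) ↪o Fin N) → Fin (m + 4) → K)
    (f : (Fin (m + 3) ↪o Fin N) → Fin (m + 3) → K)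
    (hf : ∀ a ∈ Kc.facets, ∀ j, ∀ h : LinearIndependent ℝ (fun k => ξ (face a j k)),
      f a j ≠ 0 ∧ (g a).mulVec ((Fr _ h).iK K) = f a j • I (face a j)) (v : DOrd K) :
    ∑ a ∈ Kc.facets, ∑ j : Fin (m + 3),
      (if h : LinearIndependent ℝ (fun k => ξ (face a j k)) then
        (Kc.coeff a : ℝ) * (-1) ^ (j : ℕ) * (Fr (face a j) h).wt * (v.ord (f a j) : ℝ)
      else 0) = 0 := by
  obtain ⟨BF, c, hBF⟩ := exists_BF (v := v) Kc ξ Fr g hg hag I f hf
  set 𝔇 : Data K m N := ⟨Kc, ξ, hξ, Fr, g, fun a ha => (hg a ha).1, BF,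
    fun a ha j h => (hBF a ha j h).1, fun a ha j h => (hBF a ha j h).2.1⟩ with h𝔇
  set n : (Fin (m + 3) ↪o Fin N) → Fin (m + 3) → ℤ := fun a j => v.ord (f a j) - c (face a j) with hn
  -- a bound for the positions
  obtain ⟨R, hR⟩ : ∃ R : ℕ, ∀ a ∈ Kc.facets, ∀ j, |n a j| ≤ R := by
    refine ⟨∑ a ∈ Kc.facets, ∑ j : Fin (m + 3), (n a j).natAbs, fun a ha j => ?_⟩
    have h1 : (n a j).natAbs ≤ ∑ j : Fin (m + 3), (n a j).natAbs :=
      Finset.single_le_sum (f := fun j => (n a j).natAbs) (fun _ _ => Nat.zero_le _) (Finset.mem_univ j)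
    have h2 : ∑ j : Fin (m + 3), (n a j).natAbs ≤ ∑ a ∈ Kc.facets, ∑ j : Fin (m + 3), (n a j).natAbs :=
      Finset.single_le_sum (f := fun a => ∑ j : Fin (m + 3), (n a j).natAbs)
        (fun _ _ => Nat.zero_le _) ha
    rw [← Int.natCast_natAbs]
    exact_mod_cast h1.trans h2
  -- the finite set of edges
  set T : Finset ((Fin (m + 3) ↪o Fin N) × Fin (m + 3)) :=
    (Kc.facets ×ˢ Finset.univ).filter fun p => LinearIndependent ℝ (fun k => ξ (face p.1 p.2 k)) with hT
  set S : Finset (Set (Fin (m + 3 + 1) → K) × Set (Fin (m + 3 + 1) → K)) :=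
    ((T ×ˢ Finset.Icc (-(R : ℤ)) R).image fun p =>
      ((BF (face p.1.1 p.1.2)).L v p.2, (BF (face p.1.1 p.1.2)).L v (p.2 - 1))) ∪
    ((T ×ˢ Finset.Icc (-(R : ℤ)) R).image fun p =>
      ((BF (face p.1.1 p.1.2)).L v (p.2 - 1), (BF (face p.1.1 p.1.2)).L v p.2)) with hS
  have hedge : ∀ s ∈ S, ∑ a ∈ Kc.facets, ∑ j : Fin (m + 3), (Kc.coeff a : ℝ) * (-1) ^ (j : ℕ) *
      (if h : LinearIndependent ℝ (fun k => ξ (face a j k)) then
        (Fr (face a j) h).wt * hs v (BF (face a j)) s (n a j) else 0) = 0 := by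
    intro s hs'
    have main : ∀ (B : HFrame K m) (ε : ℝ), ε * ε = 1 → v.red B.D * rc v.k ε = v.red (2 * ii K) →
        s = (B.L v 0, B.L v (-1)) → ∑ a ∈ Kc.facets, ∑ j : Fin (m + 3),
        (Kc.coeff a : ℝ) * (-1) ^ (j : ℕ) *
      (if h : LinearIndependent ℝ (fun k => ξ (face a j k)) then
        (Fr (face a j) h).wt * hs v (BF (face a j)) s (n a j) else 0) = 0 := by
      intro B ε hε hD hsB
      have h := edge_identity 𝔇 hm B ε hε hD n (fun a ha j h => (hBF a ha j h).2.2)
      refine Eq.trans ?_ h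
      refine Finset.sum_congr rfl fun a ha => Finset.sum_congr rfl fun j _ => ?_
      congr 1
      by_cases hli : LinearIndependent ℝ (fun k => ξ (face a j k))
      · have hli' : LinearIndependent ℝ (fun k => 𝔇.ξ (face a j k)) := hli
        rw [dif_pos hli, dif_pos hli']
        congr 1
        rw [hsB]
        unfold hs
        congr 2
        rw [← (hBF a ha j hli).2.2]
      · have hli' : ¬ LinearIndependent ℝ (fun k => 𝔇.ξ (face a j k)) := hli
        rw [dif_neg hli, dif_neg hli']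
    have h2i : v.Ge 0 (2 * ii K) := by
      have : (2 * ii K : K) = algebraMap ℂ K (2 * Complex.I) := by
        rw [map_mul, map_ofNat]; rfl
      rw [this]; exact Ge.const _
    rw [hS, Finset.mem_union, Finset.mem_image, Finset.mem_image] at hs'
    rcases hs' with ⟨⟨⟨a, j⟩, k⟩, hp, rfl⟩ | ⟨⟨⟨a, j⟩, k⟩, hp, rfl⟩
    · rw [Finset.mem_product, hT, Finset.mem_filter, Finset.mem_product] at hp
      have hD := (hBF a hp.1.1.1 j hp.1.2).2.1
      refine main ((BF (face a j)).shift v k) 1 (by norm_num) ?_ ?_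
      · rw [D_shift, hD, map_one, mul_one]
      · rw [L_shift, L_shift]
        refine Prod.ext ?_ ?_
        · simp
        · simp only; congr 1; ring
    · rw [Finset.mem_product, hT, Finset.mem_filter, Finset.mem_product] at hp
      have hD := (hBF a hp.1.1.1 j hp.1.2).2.1
      refine main ((BF (face a j)).swap.shift v (-(k - 1))) (-1) (by norm_num) ?_ ?_
      · rw [D_shift, D_swap, hD, red_neg h2i, map_neg, map_one]; ring
      · rw [L_shift, L_shift, L_swap, L_swap]
        refine Prod.ext ?_ ?_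
        · simp only; congr 1; ring
        · simp only; congr 1; ring
  -- sum over the edges
  have hsum : ∑ a ∈ Kc.facets, ∑ j : Fin (m + 3), (Kc.coeff a : ℝ) * (-1) ^ (j : ℕ) *
      (if h : LinearIndependent ℝ (fun k => ξ (face a j k)) then
        (Fr (face a j) h).wt * ∑ s ∈ S, hs v (BF (face a j)) s (n a j) else 0) = 0 := by
    refine Eq.trans ?_ (Finset.sum_eq_zero hedge)
    rw [Finset.sum_comm (s := S)]
    refine Finset.sum_congr rfl fun a _ => ?_
    rw [Finset.sum_comm]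
    refine Finset.sum_congr rfl fun j _ => ?_
    rw [← Finset.mul_sum]
    congr 1
    split_ifs
    · rw [← Finset.mul_sum]
    · rw [Finset.sum_const_zero]
  have hpos : ∀ a ∈ Kc.facets, ∀ j, LinearIndependent ℝ (fun k => ξ (face a j k)) →
      ∑ s ∈ S, hs v (BF (face a j)) s (n a j) =
        ∑ s ∈ S, hs v (BF (face a j)) s (-(R : ℤ)) - 2 * (n a j + R) := by
    intro a ha j hli
    have hb := abs_le.mp (hR a ha j)
    refine sum_hs (BF (face a j)) S R (fun k h1 h2 => ?_) (n a j) hb.1 hb.2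
    have hmem : ((a, j), k) ∈ T ×ˢ Finset.Icc (-(R : ℤ)) R := by
      rw [Finset.mem_product, hT, Finset.mem_filter, Finset.mem_product, Finset.mem_Icc]
      exact ⟨⟨⟨ha, Finset.mem_univ _⟩, hli⟩, h1, h2⟩
    rw [hS, Finset.mem_union, Finset.mem_union]
    exact ⟨Or.inl (Finset.mem_image.mpr ⟨_, hmem, rfl⟩), Or.inr (Finset.mem_image.mpr ⟨_, hmem, rfl⟩)⟩
  -- the part which depends on the face only
  have hcl := Kc.sum_eq_zero (R := ℝ) (fun F =>
    if h : LinearIndependent ℝ (fun k => ξ (F k)) then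
        (Fr F h).wt * (∑ s ∈ S, hs v (BF F) s (-(R : ℤ)) - 2 * R + 2 * c F) else 0)
  have hfin : ∑ a ∈ Kc.facets, ∑ j : Fin (m + 3),
      (if h : LinearIndependent ℝ (fun k => ξ (face a j k)) then
        (Kc.coeff a : ℝ) * (-1) ^ (j : ℕ) * (Fr (face a j) h).wt * (v.ord (f a j) : ℝ)
      else 0) = (1 / 2) * ((∑ a ∈ Kc.facets, ∑ j : Fin (m + 2 + 1), (Kc.coeff a : ℝ) *
        (-1) ^ (j : ℕ) * (if h : LinearIndependent ℝ (fun k => ξ (face a j k)) then
        (Fr (face a j) h).wt * (∑ s ∈ S, hs v (BF (face a j)) s (-(R : ℤ)) - 2 * R +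
          2 * c (face a j)) else 0)) -
      ∑ a ∈ Kc.facets, ∑ j : Fin (m + 3), (Kc.coeff a : ℝ) * (-1) ^ (j : ℕ) *
      (if h : LinearIndependent ℝ (fun k => ξ (face a j k)) then
        (Fr (face a j) h).wt * ∑ s ∈ S, hs v (BF (face a j)) s (n a j) else 0)) := by
    rw [← Finset.sum_sub_distrib, Finset.mul_sum]
    refine Finset.sum_congr rfl fun a ha => ?_
    rw [← Finset.sum_sub_distrib, Finset.mul_sum]
    refine Finset.sum_congr rfl fun j _ => ?_
    split_ifs with hli
    · rw [hpos a ha j hli]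
      simp only [hn]
      push_cast
      ring
    · ring
  rw [hfin, hcl, hsum]; ring

end Bellows
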