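import Pool.Agent.Bellows.Lf

/-!
# Bellows: basic definitions (orthant integrals of Gaussian type)
-/

namespace Bellows

/-- The open positive orthant. -/
def orth (r : ℕ) : Set (Fin r → ℝ) := {y | ∀ i, 0 < y i}

/-- The quadratic form of a matrix. -/
def qf {r : ℕ} (G : Matrix (Fin r) (Fin r) ℝ) (y : Fin r → ℝ) : ℝ :=
  ∑ i, ∑ j, y i * G i j * y j

/-- The integral of `exp (½ yᵀ G y)` over the positive orthant. -/
noncomputable def J {r : ℕ} (G : Matrix (Fin r) (Fin r) ℝ) : ℝ :=
  ∫ y in orth r, Real.exp ((1 / 2) * qf G y)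

/-- The first moment in the variable `y 0`. -/
noncomputable def M0 {r : ℕ} (G : Matrix (Fin (r + 1)) (Fin (r + 1)) ℝ) : ℝ :=
  ∫ y in orth (r + 1), y 0 * Real.exp ((1 / 2) * qf G y)

/-- Gram matrix of a tuple of vectors. -/
def gram {R : Type*} [CommRing R] {d r : ℕ} (x : Fin r → Fin (d + 1) → R) :
    Matrix (Fin r) (Fin r) R :=
  Matrix.of fun i j => lf (x i) (x j)

end Bellows
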