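import Pool.Agent.Bellows.Core

/-!
# Elementary facts on the Lorentz form and on the future cone
-/

namespace Bellows

open Matrix

section ring

variable {R : Type*} [CommRing R] {d : ℕ}

theorem lf_comm (x y : Fin (d + 1) → R) : lf x y = lf y x := by
  unfold lf
  rw [mul_comm (x 0)]
  congr 1
  exact Finset.sum_congr rfl fun i _ => mul_comm _ _

theorem lf_add_left (x y z : Fin (d + 1) → R) : lf (x + y) z = lf x z + lf y z := by
  unfold lf
  simp only [Pi.add_apply, add_mul, Finset.sum_add_distrib]; ring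

theorem lf_add_right (x y z : Fin (d + 1) → R) : lf x (y + z) = lf x y + lf x z := by
  rw [lf_comm, lf_add_left, lf_comm y, lf_comm z]

theorem lf_smul_left (c : R) (x y : Fin (d + 1) → R) : lf (c • x) y = c * lf x y := by
  unfold lf
  simp only [Pi.smul_apply, smul_eq_mul, mul_add, Finset.mul_sum, mul_assoc]
  ring

theorem lf_smul_right (c : R) (x y : Fin (d + 1) → R) : lf x (c • y) = c * lf x y := by
  rw [lf_comm, lf_smul_left, lf_comm]

theorem lf_neg_left (x y : Fin (d + 1) → R) : lf (-x) y = - lf x y := by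
  have := lf_smul_left (-1) x y
  simpa using this

theorem lf_neg_right (x y : Fin (d + 1) → R) : lf x (-y) = - lf x y := by
  rw [lf_comm, lf_neg_left, lf_comm]

theorem lf_sub_left (x y z : Fin (d + 1) → R) : lf (x - y) z = lf x z - lf y z := by
  rw [sub_eq_add_neg, lf_add_left, lf_neg_left, sub_eq_add_neg]

theorem lf_sub_right (x y z : Fin (d + 1) → R) : lf x (y - z) = lf x y - lf x z := by
  rw [sub_eq_add_neg, lf_add_right, lf_neg_right, sub_eq_add_neg]

theorem lf_zero_left (y : Fin (d + 1) → R) : lf 0 y = 0 := by simp [lf]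

theorem lf_zero_right (y : Fin (d + 1) → R) : lf y 0 = 0 := by simp [lf]

theorem lf_sum_left {ι : Type*} (s : Finset ι) (f : ι → Fin (d + 1) → R) (y : Fin (d + 1) → R) :
    lf (∑ i ∈ s, f i) y = ∑ i ∈ s, lf (f i) y := by
  classical
  induction s using Finset.induction_on with
  | empty => simp [lf_zero_left]
  | insert a s ha ih => rw [Finset.sum_insert ha, Finset.sum_insert ha, lf_add_left, ih]

theorem lf_sum_right {ι : Type*} (s : Finset ι) (f : ι → Fin (d + 1) → R) (y : Fin (d + 1) → R) :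
    lf y (∑ i ∈ s, f i) = ∑ i ∈ s, lf y (f i) := by
  rw [lf_comm, lf_sum_left]
  exact Finset.sum_congr rfl fun i _ => lf_comm _ _

/-- the diagonal matrix of the Lorentz form -/
def eta (R : Type*) [CommRing R] (d : ℕ) : Matrix (Fin (d + 1)) (Fin (d + 1)) R :=
  Matrix.diagonal fun i => if i = 0 then -1 else 1

theorem eta_mul_eta : eta R d * eta R d = 1 := by
  rw [eta, Matrix.diagonal_mul_diagonal, ← Matrix.diagonal_one]
  congr 1; funext i; split_ifs <;> simp

theorem det_eta : (eta R d).det = -1 := by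
  rw [eta, Matrix.det_diagonal, Fin.prod_univ_succ]
  simp [Fin.succ_ne_zero]

theorem lf_eq_dotProduct (x y : Fin (d + 1) → R) : lf x y = x ⬝ᵥ (eta R d).mulVec y := by
  rw [eta, dotProduct, Fin.sum_univ_succ]
  simp only [Matrix.mulVec_diagonal, if_true, Fin.succ_ne_zero, if_false]
  unfold lf
  simp

theorem lf_single_left (i : Fin (d + 1)) (y : Fin (d + 1) → R) :
    lf (Pi.single i 1) y = (if i = 0 then -1 else 1) * y i := by
  rw [lf_eq_dotProduct, single_one_dotProduct, eta, Matrix.mulVec_diagonal]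

/-- nondegeneracy -/
theorem eq_of_lf_eq (x y : Fin (d + 1) → R) (h : ∀ z, lf z x = lf z y) : x = y := by
  funext i
  have := h (Pi.single i 1)
  rw [lf_single_left, lf_single_left] at this
  split_ifs at this with hi
  · simpa using this
  · simpa using this

theorem IsLor.transpose_mul {g : Matrix (Fin (d + 1)) (Fin (d + 1)) R} (hg : IsLor g) :
    gᵀ * eta R d * g = eta R d := by
  ext i j
  have h := hg (Pi.single i 1) (Pi.single j 1)
  have h2 : ∀ A : Matrix (Fin (d + 1)) (Fin (d + 1)) R,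
      A i j = (Pi.single i 1 : Fin (d + 1) → R) ⬝ᵥ A.mulVec (Pi.single j 1) := by
    intro A; simp
  rw [h2 (gᵀ * eta R d * g), h2 (eta R d), ← lf_eq_dotProduct (Pi.single i 1), ← h,
    lf_eq_dotProduct]
  rw [← Matrix.mulVec_mulVec, ← Matrix.mulVec_mulVec, Matrix.dotProduct_mulVec,
    Matrix.vecMul_transpose]

theorem isLor_iff {g : Matrix (Fin (d + 1)) (Fin (d + 1)) R} :
    IsLor g ↔ gᵀ * eta R d * g = eta R d := by
  refine ⟨fun h => h.transpose_mul, fun h x y => ?_⟩
  have h2 : x ⬝ᵥ (gᵀ * eta R d * g).mulVec y = g.mulVec x ⬝ᵥ (eta R d).mulVec (g.mulVec y) := by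
    rw [← Matrix.mulVec_mulVec, ← Matrix.mulVec_mulVec, Matrix.dotProduct_mulVec x,
      Matrix.vecMul_transpose]
  rw [lf_eq_dotProduct, lf_eq_dotProduct, ← h2, h]

theorem IsLor.mul {g h : Matrix (Fin (d + 1)) (Fin (d + 1)) R} (hg : IsLor g) (hh : IsLor h) :
    IsLor (g * h) := by
  intro x y
  rw [← Matrix.mulVec_mulVec, ← Matrix.mulVec_mulVec, hg, hh]

/-- the explicit inverse -/
theorem IsLor.inv_mul {g : Matrix (Fin (d + 1)) (Fin (d + 1)) R} (hg : IsLor g) :
    (eta R d * gᵀ * eta R d) * g = 1 := by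
  rw [Matrix.mul_assoc, Matrix.mul_assoc, ← Matrix.mul_assoc gᵀ, hg.transpose_mul, eta_mul_eta]

theorem IsLor.mul_inv {g : Matrix (Fin (d + 1)) (Fin (d + 1)) R} (hg : IsLor g) :
    g * (eta R d * gᵀ * eta R d) = 1 :=
  mul_eq_one_comm.mp hg.inv_mul

theorem IsLor.inv_eq {g : Matrix (Fin (d + 1)) (Fin (d + 1)) R} (hg : IsLor g) :
    g⁻¹ = eta R d * gᵀ * eta R d :=
  Matrix.inv_eq_left_inv hg.inv_mul

theorem IsLor.inv {g : Matrix (Fin (d + 1)) (Fin (d + 1)) R} (hg : IsLor g) : IsLor g⁻¹ := by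
  intro x y
  have h1 : ∀ x, g.mulVec (g⁻¹.mulVec x) = x := by
    intro x
    rw [Matrix.mulVec_mulVec, hg.inv_eq, hg.mul_inv, Matrix.one_mulVec]
  rw [← hg, h1, h1]

theorem IsLor.mulVec_inv {g : Matrix (Fin (d + 1)) (Fin (d + 1)) R} (hg : IsLor g)
    (x : Fin (d + 1) → R) : g.mulVec (g⁻¹.mulVec x) = x := by
  rw [Matrix.mulVec_mulVec, hg.inv_eq, hg.mul_inv, Matrix.one_mulVec]

theorem IsLor.inv_mulVec {g : Matrix (Fin (d + 1)) (Fin (d + 1)) R} (hg : IsLor g)
    (x : Fin (d + 1) → R) : g⁻¹.mulVec (g.mulVec x) = x := by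
  rw [Matrix.mulVec_mulVec, hg.inv_eq, hg.inv_mul, Matrix.one_mulVec]

end ring

section real

variable {d : ℕ}

theorem key_nonneg (x y : Fin (d + 1) → ℝ) :
    y 0 ^ 2 * lf x x + x 0 ^ 2 * lf y y - 2 * (x 0 * y 0) * lf x y =
      ∑ i : Fin d, (y 0 * x i.succ - x 0 * y i.succ) ^ 2 := by
  unfold lf
  have : ∀ i : Fin d, (y 0 * x i.succ - x 0 * y i.succ) ^ 2 =
      y 0 ^ 2 * (x i.succ * x i.succ) + x 0 ^ 2 * (y i.succ * y i.succ) -
        2 * (x 0 * y 0) * (x i.succ * y i.succ) := fun i => by ring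
  simp only [this, Finset.sum_sub_distrib, Finset.sum_add_distrib, ← Finset.mul_sum]
  ring

theorem FT.fc {x : Fin (d + 1) → ℝ} (h : FT x) : FC x := ⟨h.1.le, h.2⟩

theorem FC.lf_nonpos {x y : Fin (d + 1) → ℝ} (hx : FC x) (hy : FC y) : lf x y ≤ 0 := by
  have h := key_nonneg x y
  have h1 : 0 ≤ ∑ i : Fin d, (y 0 * x i.succ - x 0 * y i.succ) ^ 2 :=
    Finset.sum_nonneg fun i _ => sq_nonneg _
  have h2 : 0 < x 0 * y 0 := mul_pos hx.2 hy.2
  have h3 : y 0 ^ 2 * lf x x ≤ 0 := mul_nonpos_of_nonneg_of_nonpos (sq_nonneg _) hx.1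
  have h4 : x 0 ^ 2 * lf y y ≤ 0 := mul_nonpos_of_nonneg_of_nonpos (sq_nonneg _) hy.1
  by_contra hc
  push Not at hc
  have := mul_pos h2 hc
  linarith

theorem FT.lf_neg {x y : Fin (d + 1) → ℝ} (hx : FT x) (hy : FC y) : lf x y < 0 := by
  have h := key_nonneg x y
  have h1 : 0 ≤ ∑ i : Fin d, (y 0 * x i.succ - x 0 * y i.succ) ^ 2 :=
    Finset.sum_nonneg fun i _ => sq_nonneg _
  have h2 : 0 < x 0 * y 0 := mul_pos hx.2 hy.2
  have h3 : y 0 ^ 2 * lf x x < 0 := mul_neg_of_pos_of_neg (pow_pos hy.2 _) hx.1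
  have h4 : x 0 ^ 2 * lf y y ≤ 0 := mul_nonpos_of_nonneg_of_nonpos (sq_nonneg _) hy.1
  by_contra hc
  push Not at hc
  have := mul_nonneg h2.le hc
  linarith

theorem FC.parallel {x y : Fin (d + 1) → ℝ} (hx : FC x) (hy : FC y) (h0 : lf x y = 0) :
    y 0 • x = x 0 • y := by
  have h := key_nonneg x y
  have h3 : y 0 ^ 2 * lf x x ≤ 0 := mul_nonpos_of_nonneg_of_nonpos (sq_nonneg _) hx.1
  have h4 : x 0 ^ 2 * lf y y ≤ 0 := mul_nonpos_of_nonneg_of_nonpos (sq_nonneg _) hy.1
  have h5 : ∑ i : Fin d, (y 0 * x i.succ - x 0 * y i.succ) ^ 2 = 0 := by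
    apply le_antisymm
    · rw [← h, h0]; linarith
    · exact Finset.sum_nonneg fun i _ => sq_nonneg _
  rw [Finset.sum_eq_zero_iff_of_nonneg fun i _ => sq_nonneg _] at h5
  funext i
  refine Fin.cases ?_ (fun i => ?_) i
  · simp [mul_comm]
  · have := h5 i (Finset.mem_univ _)
    simp only [Pi.smul_apply, smul_eq_mul]
    have := pow_eq_zero_iff (two_ne_zero) |>.mp this
    linarith

theorem FC.smul {x : Fin (d + 1) → ℝ} (hx : FC x) {c : ℝ} (hc : 0 < c) : FC (c • x) := by
  refine ⟨?_, ?_⟩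
  · rw [lf_smul_left, lf_smul_right]
    nlinarith [hx.1, mul_pos hc hc]
  · simpa using mul_pos hc hx.2

theorem FT.smul {x : Fin (d + 1) → ℝ} (hx : FT x) {c : ℝ} (hc : 0 < c) : FT (c • x) := by
  refine ⟨?_, ?_⟩
  · rw [lf_smul_left, lf_smul_right]
    nlinarith [hx.1, mul_pos hc hc, mul_pos (mul_pos hc hc) (neg_pos.mpr hx.1)]
  · simpa using mul_pos hc hx.2

theorem FC.add {x y : Fin (d + 1) → ℝ} (hx : FC x) (hy : FC y) : FC (x + y) := by
  refine ⟨?_, by simpa using add_pos hx.2 hy.2⟩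
  rw [lf_add_left, lf_add_right, lf_add_right, lf_comm y x]
  linarith [hx.1, hy.1, hx.lf_nonpos hy]

theorem FC.add_ft {x y : Fin (d + 1) → ℝ} (hx : FC x) (hy : FT y) : FT (x + y) := by
  refine ⟨?_, by simpa using add_pos hx.2 hy.2⟩
  rw [lf_add_left, lf_add_right, lf_add_right, lf_comm y x]
  linarith [hx.1, hy.1, hx.lf_nonpos hy.fc]

theorem FC.add_of_indep {x y : Fin (d + 1) → ℝ} (hx : FC x) (hy : FC y)
    (h : y 0 • x ≠ x 0 • y) : FT (x + y) := by
  refine ⟨?_, by simpa using add_pos hx.2 hy.2⟩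
  rw [lf_add_left, lf_add_right, lf_add_right, lf_comm y x]
  have h1 : lf x y < 0 := lt_of_le_of_ne (hx.lf_nonpos hy) fun h0 => h (hx.parallel hy h0)
  linarith [hx.1, hy.1]

theorem FC.sum {ι : Type*} {s : Finset ι} {f : ι → Fin (d + 1) → ℝ} (hs : s.Nonempty)
    (hf : ∀ i ∈ s, FC (f i)) : FC (∑ i ∈ s, f i) := by
  classical
  induction hs using Finset.Nonempty.cons_induction with
  | singleton a => simpa using hf a (by simp)
  | cons a s ha hs ih =>
    rw [Finset.sum_cons]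
    exact (hf a (by simp)).add (ih fun i hi => hf i (by simp [hi]))

/-- the vector `(1, 0, …, 0)` -/
theorem FT.single : FT (Pi.single 0 1 : Fin (d + 1) → ℝ) := by
  refine ⟨?_, by simp⟩
  rw [lf_single_left]; simp

/-- the positive functional `- lf o`. -/
noncomputable def posFun (o : Fin (d + 1) → ℝ) : (Fin (d + 1) → ℝ) →ₗ[ℝ] ℝ where
  toFun x := - lf o x
  map_add' x y := by rw [lf_add_right]; ring
  map_smul' c x := by rw [lf_smul_right]; simp

theorem posFun_pos {o x : Fin (d + 1) → ℝ} (ho : FT o) (hx : FC x) : 0 < posFun o x := by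
  have := ho.lf_neg hx
  simp only [posFun, LinearMap.coe_mk, AddHom.coe_mk]
  linarith

theorem indep_lf_neg {r : ℕ} {x : Fin r → Fin (d + 1) → ℝ} (hx : ∀ i, FC (x i))
    (hli : LinearIndependent ℝ x) (i j : Fin r) (hij : i ≠ j) : lf (x i) (x j) < 0 := by
  refine lt_of_le_of_ne ((hx i).lf_nonpos (hx j)) fun h0 => ?_
  have h := (hx i).parallel (hx j) h0
  have h2 := Fintype.linearIndependent_iff.mp hli
    (fun k => if k = i then x j 0 else if k = j then - x i 0 else 0) ?_ i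
  · simp at h2; exact absurd h2 (hx j).2.ne'
  · rw [Finset.sum_eq_add i j hij]
    · simp [hij.symm, h]
    · rintro k _ ⟨h1, h2⟩; simp [h1, h2]
    · simp
    · simp

theorem gram_adm {r : ℕ} {x : Fin r → Fin (d + 1) → ℝ} (hx : ∀ i, FC (x i))
    (hli : LinearIndependent ℝ x) : Adm (gram x) where
  symm i j := lf_comm _ _
  diag i := (hx i).1
  off i j hij := indep_lf_neg hx hli i j hij

/-- Gram matrices with one timelike vector in front. -/
theorem gram_cons_adm {r : ℕ} {z : Fin (d + 1) → ℝ} (hz : FT z) {x : Fin r → Fin (d + 1) → ℝ}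
    (hx : ∀ i, FC (x i)) (hli : LinearIndependent ℝ x) :
    Adm (gram (Fin.cons z x : Fin (r + 1) → Fin (d + 1) → ℝ)) where
  symm i j := lf_comm _ _
  diag i := by
    refine Fin.cases ?_ (fun i => ?_) i
    · exact hz.1.le
    · exact (hx i).1
  off i j := by
    refine Fin.cases ?_ (fun i => ?_) i
    · refine Fin.cases ?_ (fun j => ?_) j
      · intro h; exact absurd rfl h
      · intro _; exact hz.lf_neg (hx j)
    · refine Fin.cases ?_ (fun j => ?_) j
      · intro _
        change lf (x i) z < 0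
        rw [lf_comm]; exact hz.lf_neg (hx i)
      · intro h
        exact indep_lf_neg hx hli i j fun h' => h (by rw [h'])

theorem qf_gram {r : ℕ} (x : Fin r → Fin (d + 1) → ℝ) (y : Fin r → ℝ) :
    qf (gram x) y = lf (∑ i, y i • x i) (∑ i, y i • x i) := by
  unfold qf gram
  rw [lf_sum_left]
  refine Finset.sum_congr rfl fun i _ => ?_
  rw [lf_sum_right]
  refine Finset.sum_congr rfl fun j _ => ?_
  rw [lf_smul_left, lf_smul_right]
  simp only [Matrix.of_apply]; ring

theorem J_gram_eq {r : ℕ} (x : Fin r → Fin (d + 1) → ℝ) :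
    J (gram x) = ∫ y in orth r, Real.exp ((1 / 2) * lf (∑ i, y i • x i) (∑ i, y i • x i)) := by
  unfold J
  simp only [qf_gram]

/-- Lorentz matrices which preserve the future preserve `FC` and `FT`. -/
theorem IsLor.fc {g : Matrix (Fin (d + 1)) (Fin (d + 1)) ℝ} (hg : IsLor g) (h0 : 0 < g 0 0)
    {x : Fin (d + 1) → ℝ} (hx : FC x) : FC (g.mulVec x) := by
  have h1 : FT (g.mulVec (Pi.single 0 1)) := by
    refine ⟨?_, by simpa using h0⟩
    rw [hg]; exact FT.single.1
  have h2 : lf (g.mulVec (Pi.single 0 1)) (g.mulVec x) < 0 := by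
    rw [hg]; exact FT.single.lf_neg hx
  have h3 : lf (g.mulVec x) (g.mulVec x) ≤ 0 := by rw [hg]; exact hx.1
  refine ⟨h3, ?_⟩
  by_contra hc
  push Not at hc
  rcases hc.lt_or_eq with hc | hc
  · have h4 : FC (-(g.mulVec x)) := ⟨by rw [lf_neg_left, lf_neg_right, neg_neg]; exact h3,
      by simpa using hc⟩
    have := h1.lf_neg h4
    rw [lf_neg_right] at this
    linarith
  · -- the zeroth coordinate vanishes, so the vector vanishes
    have h5 : g.mulVec x = 0 := by
      have h6 : lf (g.mulVec x) (g.mulVec x) = ∑ i : Fin d, (g.mulVec x) i.succ ^ 2 := by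
        unfold lf; rw [hc]; simp [sq]
      rw [h6] at h3
      have h7 := (Finset.sum_eq_zero_iff_of_nonneg fun i _ => sq_nonneg _).mp
        (le_antisymm h3 (Finset.sum_nonneg fun i _ => sq_nonneg _))
      funext i
      refine Fin.cases hc (fun i => ?_) i
      exact pow_eq_zero_iff two_ne_zero |>.mp (h7 i (Finset.mem_univ _))
    rw [h5, lf_zero_right] at h2
    exact absurd h2 (lt_irrefl _)

theorem IsLor.ft {g : Matrix (Fin (d + 1)) (Fin (d + 1)) ℝ} (hg : IsLor g) (h0 : 0 < g 0 0)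
    {x : Fin (d + 1) → ℝ} (hx : FT x) : FT (g.mulVec x) :=
  ⟨by rw [hg]; exact hx.1, (hg.fc h0 hx.fc).2⟩

theorem IsLor.fut_of_ft {g : Matrix (Fin (d + 1)) (Fin (d + 1)) ℝ} (hg : IsLor g)
    {x : Fin (d + 1) → ℝ} (hx : FC x) (h : FC (g.mulVec x)) : 0 < g 0 0 := by
  -- `g e₀` is timelike; its product with `g x` is negative
  have h1 : lf (g.mulVec (Pi.single 0 1)) (g.mulVec x) < 0 := by
    rw [hg]; exact FT.single.lf_neg hx
  have h2 : lf (g.mulVec (Pi.single 0 1)) (g.mulVec (Pi.single 0 1)) < 0 := by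
    rw [hg]; exact (FT.single (d := d)).1
  have h3 : g 0 0 = (g.mulVec (Pi.single 0 1)) 0 := by simp
  rw [h3]
  by_contra hc
  push Not at hc
  rcases hc.lt_or_eq with hc | hc
  · have h4 : FT (-(g.mulVec (Pi.single 0 1))) := ⟨by rw [lf_neg_left, lf_neg_right, neg_neg]; exact h2,
      by simpa using hc⟩
    have := h4.lf_neg h
    rw [lf_neg_left] at this
    linarith
  · have h6 : lf (g.mulVec (Pi.single 0 1)) (g.mulVec (Pi.single 0 1)) =
        ∑ i : Fin d, (g.mulVec (Pi.single 0 1)) i.succ ^ 2 := by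
      unfold lf; rw [hc]; simp [sq]
    rw [h6] at h2
    exact absurd h2 (not_lt.mpr (Finset.sum_nonneg fun i _ => sq_nonneg _))

end real

end Bellows
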