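import Pool.Agent.Bellows.Defs
import Pool.Agent.Bellows.Basic

/-!
# Bellows: common definitions for the proof
-/

/-- A normalised discrete valuation on a field extension of `ℂ`, trivial on `ℂ`
(`ord` has a junk value at `0`). -/
structure DOrd (K : Type*) [Field K] [Algebra ℂ K] where
  ord : K → ℤ
  mul : ∀ x y, x ≠ 0 → y ≠ 0 → ord (x * y) = ord x + ord y
  add : ∀ x y, x ≠ 0 → y ≠ 0 → x + y ≠ 0 → min (ord x) (ord y) ≤ ord (x + y)
  const : ∀ c : ℂ, c ≠ 0 → ord (algebraMap ℂ K c) = 0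
  unif : ∃ τ : K, τ ≠ 0 ∧ ord τ = 1

namespace Bellows

open Matrix

/-- `S(v) = det(v) ∫_{y > 0} exp(½ ⟨∑ yᵢ vᵢ, ∑ yᵢ vᵢ⟩) dy`: up to a constant, the signed volume of
the hyperbolic simplex with vertices in the directions `v`. -/
noncomputable def S {d : ℕ} (v : Fin (d + 1) → Fin (d + 1) → ℝ) : ℝ :=
  (Matrix.of v).det * J (gram v)

/-- A matrix which looks like the Gram matrix of distinct points of closed hyperbolic space. -/
structure Adm {r : ℕ} (G : Matrix (Fin r) (Fin r) ℝ) : Prop where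
  symm : ∀ i j, G i j = G j i
  diag : ∀ i, G i i ≤ 0
  off : ∀ i j, i ≠ j → G i j < 0

/-- The regularised integral over the two dimensional orthant; note `Real.log 0 = 0`. -/
noncomputable def Jreg (G : Matrix (Fin 2) (Fin 2) ℝ) : ℝ :=
  (Real.log (-G 0 1 + Real.sqrt (G 0 1 ^ 2 - G 0 0 * G 1 1)) - (1 / 2) * Real.log (-G 0 0)
    - (1 / 2) * Real.log (-G 1 1)) / Real.sqrt (G 0 1 ^ 2 - G 0 0 * G 1 1)

/-- `J` for matrices of size at least three, `Jreg` for matrices of size two. -/
noncomputable def Jr {m : ℕ} (G : Matrix (Fin (m + 2)) (Fin (m + 2)) ℝ) : ℝ :=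
  if m = 0 then Jreg (G.submatrix ![0, 1] ![0, 1]) else J G

/-- Nonzero vectors in the closed future cone. -/
def FC {d : ℕ} (x : Fin (d + 1) → ℝ) : Prop := lf x x ≤ 0 ∧ 0 < x 0

/-- Vectors in the open future cone. -/
def FT {d : ℕ} (x : Fin (d + 1) → ℝ) : Prop := lf x x < 0 ∧ 0 < x 0

/-- Matrices preserving the Lorentz form, over any ring. -/
def IsLor {R : Type*} [CommRing R] {d : ℕ} (g : Matrix (Fin (d + 1)) (Fin (d + 1)) R) : Prop :=
  ∀ x y, lf (g.mulVec x) (g.mulVec y) = lf x y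

/-- An orthonormal frame adapted to `r` vectors of `R^{d+1}`: the first `r` columns of `C`
span the space containing the `x v`, with coefficients `c`. -/
structure AFrame {r d : ℕ} (h : r ≤ d + 1) (x : Fin r → Fin (d + 1) → ℝ) where
  C : Matrix (Fin (d + 1)) (Fin (d + 1)) ℝ
  lor : IsLor C
  fut : 0 < C 0 0
  det : C.det = 1
  c : Matrix (Fin r) (Fin r) ℝ
  hx : ∀ v i, x v i = ∑ k, c v k * C i (Fin.castLE h k)
  cdet : 0 < c.det

/-- The first normal vector of a frame of a face of codimension two. -/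
def AFrame.n1 {m : ℕ} {h : m + 2 ≤ m + 3 + 1} {x : Fin (m + 2) → Fin (m + 3 + 1) → ℝ}
    (A : AFrame h x) : Fin (m + 4) → ℝ := fun i => A.C i ⟨m + 2, by omega⟩

/-- The second normal vector of a frame of a face of codimension two. -/
def AFrame.n2 {m : ℕ} {h : m + 2 ≤ m + 3 + 1} {x : Fin (m + 2) → Fin (m + 3 + 1) → ℝ}
    (A : AFrame h x) : Fin (m + 4) → ℝ := fun i => A.C i ⟨m + 3, by omega⟩

/-- The weight of a face of codimension two: its volume (up to a constant), resp. its truncated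
length for `m = 0`. -/
noncomputable def AFrame.wt {m : ℕ} {h : m + 2 ≤ m + 3 + 1} {x : Fin (m + 2) → Fin (m + 3 + 1) → ℝ}
    (A : AFrame h x) : ℝ := A.c.det * Jr (gram x)

/-- The normalised vector of a point of the closed ball: on the hyperboloid, or on the light cone. -/
noncomputable def nv {n : ℕ} (p : E n) : Fin (n + 1) → ℝ :=
  if ‖p‖ < 1 then (Real.sqrt (1 - ‖p‖ ^ 2))⁻¹ • lift p else lift p

end Bellows
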