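import Pool.Agent.Bellows.Plate

/-!
# Plates at a common face differ by a rotation
-/

namespace Bellows

open Matrix HFrame

variable {K : Type*} [Field K] [Algebra ℂ K] {m : ℕ}

/-- Two Lorentz matrices with the same determinant which agree on the first vectors of the standard
frame: the isotropic vectors are multiplied by `r` and `r⁻¹`. -/
theorem rotation (G G0 : Matrix (Fin (m + 3 + 1)) (Fin (m + 3 + 1)) K) (hG : IsLor G)
    (hG0 : IsLor G0) (hdet : G.det = G0.det)
    (he : ∀ k, G.mulVec ((std K m).e k) = G0.mulVec ((std K m).e k)) :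
    2⁻¹ * lf (G.mulVec (std K m).P) (G0.mulVec (std K m).Q) ≠ 0 ∧
    G.mulVec (std K m).P = (2⁻¹ * lf (G.mulVec (std K m).P) (G0.mulVec (std K m).Q)) •
      G0.mulVec (std K m).P ∧
    G0.mulVec (std K m).Q = (2⁻¹ * lf (G.mulVec (std K m).P) (G0.mulVec (std K m).Q)) •
      G.mulVec (std K m).Q := by
  set B0 := (std K m).map G0 hG0 with hB0
  set B1 := (std K m).map G hG with hB1
  have he' : ∀ k, B1.e k = B0.e k := he
  have h2 := mul_inv_cancel₀ (two_ne K)
  -- expansions
  set α := 2⁻¹ * lf B1.P B0.Q with hα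
  set β := 2⁻¹ * lf B1.P B0.P with hβ
  set α' := 2⁻¹ * lf B1.Q B0.Q with hα'
  set β' := 2⁻¹ * lf B1.Q B0.P with hβ'
  have hP : B1.P = α • B0.P + β • B0.Q := by
    have h1 := B0.exp B1.P
    rw [Finset.sum_eq_zero fun k _ => by
      rw [← he', lf_comm, B1.eP, mul_zero, zero_smul], zero_add] at h1
    exact h1
  have hQ : B1.Q = α' • B0.P + β' • B0.Q := by
    have h1 := B0.exp B1.Q
    rw [Finset.sum_eq_zero fun k _ => by
      rw [← he', lf_comm, B1.eQ, mul_zero, zero_smul], zero_add] at h1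
    exact h1
  have e1 : α * β = 0 := by
    have h1 := B1.PP
    rw [hP, lf_add_left, lf_add_right, lf_add_right] at h1
    simp only [lf_smul_left, lf_smul_right, B0.PP, B0.QQ, lf_comm B0.Q B0.P, B0.PQ] at h1
    linear_combination (2⁻¹ * 2⁻¹) * h1 - α * β * (2⁻¹ * 2 + 1) * h2
  have e2 : α' * β' = 0 := by
    have h1 := B1.QQ
    rw [hQ, lf_add_left, lf_add_right, lf_add_right] at h1
    simp only [lf_smul_left, lf_smul_right, B0.PP, B0.QQ, lf_comm B0.Q B0.P, B0.PQ] at h1
    linear_combination (2⁻¹ * 2⁻¹) * h1 - α' * β' * (2⁻¹ * 2 + 1) * h2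
  have e3 : α * β' + β * α' = 1 := by
    have h1 := B1.PQ
    rw [hP, hQ, lf_add_left, lf_add_right, lf_add_right] at h1
    simp only [lf_smul_left, lf_smul_right, B0.PP, B0.QQ, lf_comm B0.Q B0.P, B0.PQ] at h1
    linear_combination 2⁻¹ * h1 - (α * β' + β * α' - 1) * h2
  have e4 : α * β' - β * α' = 1 := by
    have h1 : B1.D = B0.D := by rw [hB1, hB0, D_map, D_map, hdet]
    have h3 : B1.D = (α * β' - β * α') * B0.D := by
      rw [D_eq, D_eq]
      have h4 : B1.e = B0.e := funext he'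
      rw [h4, hP, hQ, Phi_add_left, Phi_add_right, Phi_add_right]
      simp only [Phi_smul_left, Phi_smul_right, Phi_self]
      rw [Phi_swap _ B0.P B0.Q]
      ring
    have h5 : B0.D ≠ 0 := by
      rw [hB0, D_map, D_std]
      refine mul_ne_zero ?_ (mul_ne_zero (two_ne K) ?_)
      · intro h
        have h6 := congrArg Matrix.det hG0.inv_mul
        rw [Matrix.det_mul, h, mul_zero, Matrix.det_one] at h6
        exact zero_ne_one h6
      · intro h
        have := ii_sq (K := K); rw [h, zero_mul] at this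
        have h4 : (1 : K) = 0 := by linear_combination this
        exact one_ne_zero h4
    apply mul_right_cancel₀ h5
    rw [← h3, h1, one_mul]
  have e5 : α * β' = 1 := by linear_combination 2⁻¹ * e3 + 2⁻¹ * e4 - (α * β' - 1) * h2
  have e6 : β * α' = 0 := by linear_combination e3 - e5
  have hα0 : α ≠ 0 := left_ne_zero_of_mul_eq_one e5
  have hβ'0 : β' ≠ 0 := right_ne_zero_of_mul_eq_one e5
  have hβ0 : β = 0 := by
    rcases mul_eq_zero.mp e1 with h | h
    · exact absurd h hα0
    · exact h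
  have hα'0 : α' = 0 := by
    rcases mul_eq_zero.mp e2 with h | h
    · exact h
    · exact absurd h hβ'0
  refine ⟨hα0, ?_, ?_⟩
  · change B1.P = α • B0.P
    rw [hP, hβ0, zero_smul, add_zero]
  · change B0.Q = α • B1.Q
    rw [hQ, hα'0, zero_smul, zero_add, smul_smul, e5, one_smul]

/-- The same for the frame of a face. -/
theorem rotation_face (g g0 : Matrix (Fin (m + 3 + 1)) (Fin (m + 3 + 1)) K) (hg : IsLor g)
    (hg0 : IsLor g0) (hdet : g.det = g0.det)
    {x : Fin (m + 2) → Fin (m + 3 + 1) → ℝ} (A : AFrame (show m + 2 ≤ m + 3 + 1 by omega) x)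
    (he : ∀ k, g.mulVec (toR (x k)) = g0.mulVec (toR (x k))) :
    2⁻¹ * lf (g.mulVec (A.iK K)) (g0.mulVec ((A.C.map (rc K)).mulVec (std K m).Q)) ≠ 0 ∧
    g.mulVec (A.iK K) = (2⁻¹ * lf (g.mulVec (A.iK K))
      (g0.mulVec ((A.C.map (rc K)).mulVec (std K m).Q))) • g0.mulVec (A.iK K) ∧
    g0.mulVec ((A.C.map (rc K)).mulVec (std K m).Q) = (2⁻¹ * lf (g.mulVec (A.iK K))
      (g0.mulVec ((A.C.map (rc K)).mulVec (std K m).Q))) •
        g.mulVec ((A.C.map (rc K)).mulVec (std K m).Q) := by
  have h := rotation (g * A.C.map (rc K)) (g0 * A.C.map (rc K))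
    (hg.mul (isLor_map.mpr A.lor)) (hg0.mul (isLor_map.mpr A.lor))
    (by rw [Matrix.det_mul, Matrix.det_mul, hdet]) (by
      intro k
      rw [← Matrix.mulVec_mulVec, ← Matrix.mulVec_mulVec, AFrame.map_e, AFrame.toR_e_eq,
        Matrix.mulVec_sum, Matrix.mulVec_sum]
      refine Finset.sum_congr rfl fun w _ => ?_
      rw [Matrix.mulVec_smul, Matrix.mulVec_smul, he])
  simp only [← Matrix.mulVec_mulVec, AFrame.map_P] at h
  exact h

end Bellows
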