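import Pool.Agent.Bellows.M2
open Topology

/-!
# Bellows, M10: the field of an analytic curve
-/

namespace Bellows.CF

open MvPolynomial

variable {ι : Type} (u : ι → ℝ → ℂ)

/-- the value of a polynomial along the curve -/
noncomputable def evt (p : MvPolynomial ι ℂ) (t : ℝ) : ℂ := MvPolynomial.aeval (fun i => u i t) p

theorem evt_add (p q : MvPolynomial ι ℂ) (t : ℝ) : evt u (p + q) t = evt u p t + evt u q t := by
  simp [evt]

theorem evt_mul (p q : MvPolynomial ι ℂ) (t : ℝ) : evt u (p * q) t = evt u p t * evt u q t := by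
  simp [evt]

theorem evt_analytic (hu : ∀ i, AnalyticAt ℝ (u i) 0) (p : MvPolynomial ι ℂ) :
    AnalyticAt ℝ (evt u p) 0 := by
  induction p using MvPolynomial.induction_on with
  | C a =>
    have : evt u (C a) = fun _ => a := by
      funext t; simp [evt]
    rw [this]; exact analyticAt_const
  | add p q hp hq =>
    have : evt u (p + q) = fun t => evt u p t + evt u q t := by
      funext t; exact evt_add u p q t
    rw [this]; exact hp.add hq
  | mul_X p i hp =>
    have : evt u (p * X i) = fun t => evt u p t * u i t := by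
      funext t; rw [evt_mul]; simp [evt]
    rw [this]; exact hp.mul (hu i)

/-- the ideal of polynomials vanishing along the curve near `0` -/
def cIdeal : Ideal (MvPolynomial ι ℂ) where
  carrier := {p | ∀ᶠ t in 𝓝 (0 : ℝ), evt u p t = 0}
  add_mem' := by
    intro a b ha hb
    filter_upwards [ha, hb] with t h1 h2
    rw [evt_add, h1, h2, add_zero]
  zero_mem' := by
    refine Filter.Eventually.of_forall fun t => ?_
    simp [evt]
  smul_mem' := by
    intro c x hx
    filter_upwards [hx] with t h1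
    rw [smul_eq_mul, evt_mul, h1, mul_zero]

theorem mem_cIdeal (p : MvPolynomial ι ℂ) : p ∈ cIdeal u ↔ ∀ᶠ t in 𝓝 (0 : ℝ), evt u p t = 0 :=
  Iff.rfl

theorem cIdeal_prime (hu : ∀ i, AnalyticAt ℝ (u i) 0) : (cIdeal u).IsPrime := by
  refine Ideal.isPrime_iff.mpr ⟨?_, ?_⟩
  · rw [Ne, Ideal.eq_top_iff_one, mem_cIdeal]
    intro h
    have := h.self_of_nhds
    simp [evt] at this
  · intro p q hpq
    rcases (evt_analytic u hu p).eventually_eq_zero_or_eventually_ne_zero with h | h
    · exact Or.inl h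
    · right
      rcases (evt_analytic u hu q).eventually_eq_zero_or_eventually_ne_zero with h' | h'
      · exact h'
      · exfalso
        rw [mem_cIdeal] at hpq
        have h1 : ∀ᶠ t in 𝓝[≠] (0 : ℝ), False := by
          filter_upwards [h, h', hpq.filter_mono nhdsWithin_le_nhds] with t a b c
          rw [evt_mul] at c
          exact (mul_ne_zero a b) c
        exact h1.exists.choose_spec

theorem evt_pow (p : MvPolynomial ι ℂ) (n : ℕ) (t : ℝ) : evt u (p ^ n) t = evt u p t ^ n := by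
  simp [evt]

theorem evt_prod {P : Type*} (s : Finset P) (φ : P → MvPolynomial ι ℂ) (t : ℝ) :
    evt u (∏ p ∈ s, φ p) t = ∏ p ∈ s, evt u (φ p) t := by
  simp [evt]

theorem evt_C_mul (c : ℂ) (p : MvPolynomial ι ℂ) (t : ℝ) : evt u (C c * p) t = c * evt u p t := by
  simp [evt]

theorem logDeriv_evt_prod (hu : ∀ i, AnalyticAt ℝ (u i) 0) {P : Type} [Fintype P]
    (φ : P → MvPolynomial ι ℂ) (n : P → ℕ) (h0 : ∀ p, evt u (φ p) 0 ≠ 0) :
    logDeriv (evt u (∏ p, φ p ^ n p)) 0 = ∑ p, (n p : ℂ) * logDeriv (evt u (φ p)) 0 := by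
  have h1 : evt u (∏ p, φ p ^ n p) = fun t => ∏ p, (evt u (φ p) t) ^ n p := by
    funext t
    rw [evt_prod]
    simp only [evt_pow]
  have hd : ∀ p, DifferentiableAt ℝ (evt u (φ p)) 0 := fun p =>
    (evt_analytic u hu (φ p)).differentiableAt
  rw [h1, logDeriv_prod (s := Finset.univ) (f := fun p t => evt u (φ p) t ^ n p)
    (fun p _ => pow_ne_zero _ (h0 p)) (fun p _ => (hd p).fun_pow _)]
  refine Finset.sum_congr rfl fun p _ => ?_
  rw [logDeriv_fun_pow (hd p)]

/-- ord of a product of integral powers -/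
theorem ord_prod_zpow {K : Type*} [Field K] [Algebra ℂ K] (v : DOrd K) {P : Type*} (s : Finset P)
    (f : P → K) (hf : ∀ p, f p ≠ 0) (n : P → ℤ) :
    v.ord (∏ p ∈ s, f p ^ n p) = ∑ p ∈ s, n p * v.ord (f p) := by
  classical
  have h1 : v.ord 1 = 0 := by
    have := v.const 1 one_ne_zero
    rwa [map_one] at this
  have hnat : ∀ (x : K), x ≠ 0 → ∀ k : ℕ, v.ord (x ^ k) = k * v.ord x := by
    intro x hx k
    induction k with
    | zero => simp [h1]
    | succ k ih =>
      rw [pow_succ, v.mul _ _ (pow_ne_zero _ hx) hx, ih]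
      push_cast
      ring
  have hinv : ∀ (x : K), x ≠ 0 → v.ord x⁻¹ = - v.ord x := by
    intro x hx
    have := v.mul x x⁻¹ hx (inv_ne_zero hx)
    rw [mul_inv_cancel₀ hx, h1] at this
    linarith
  have hz : ∀ (x : K), x ≠ 0 → ∀ k : ℤ, v.ord (x ^ k) = k * v.ord x := by
    intro x hx k
    rcases k with k | k
    · simp only [Int.ofNat_eq_natCast, zpow_natCast]
      rw [hnat x hx]
    · rw [zpow_negSucc, hinv _ (pow_ne_zero _ hx), hnat x hx]
      rw [Int.negSucc_eq]
      push_cast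
      ring
  induction s using Finset.induction_on with
  | empty => simp [h1]
  | insert a s ha ih =>
    rw [Finset.prod_insert ha, Finset.sum_insert ha,
      v.mul _ _ (zpow_ne_zero _ (hf a)) (Finset.prod_ne_zero_iff.mpr fun p _ => zpow_ne_zero _ (hf p)),
      hz _ (hf a), ih]

theorem exists_curve_field_aux
    (hM2 : ∀ (K : Type) [Field K] [Algebra ℂ K] (S : Finset K),
      IntermediateField.adjoin ℂ (S : Set K) = ⊤ → ∀ g : K, g ∉ Set.range (algebraMap ℂ K) →
      ∃ v : DOrd K, v.ord g ≠ 0)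
    [Fintype ι] (hu : ∀ i, AnalyticAt ℝ (u i) 0) :
    ∃ (𝕂 : Type) (_ : Field 𝕂) (_ : Algebra ℂ 𝕂) (ev : MvPolynomial ι ℂ →ₐ[ℂ] 𝕂),
      (∀ p, ev p = 0 ↔ ∀ᶠ t in 𝓝 (0 : ℝ), MvPolynomial.aeval (fun i => u i t) p = 0) ∧
      ∀ (P : Type) [Fintype P] (φ : P → MvPolynomial ι ℂ) (w : P → ℝ),
        (∀ p, MvPolynomial.aeval (fun i => u i 0) (φ p) ≠ 0) →
        (∀ v : DOrd 𝕂, ∑ p, w p * (v.ord (ev (φ p)) : ℝ) = 0) →
        ∑ p, (w p : ℂ) * (deriv (fun t => MvPolynomial.aeval (fun i => u i t) (φ p)) 0 /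
          MvPolynomial.aeval (fun i => u i 0) (φ p)) = 0 := by
  classical
  have hprime : (cIdeal u).IsPrime := cIdeal_prime u hu
  set 𝕂 := FractionRing (MvPolynomial ι ℂ ⧸ cIdeal u) with h𝕂
  set ev : MvPolynomial ι ℂ →ₐ[ℂ] 𝕂 :=
    (IsScalarTower.toAlgHom ℂ (MvPolynomial ι ℂ ⧸ cIdeal u) 𝕂).comp (Ideal.Quotient.mkₐ ℂ (cIdeal u)) with hev
  have hevapp : ∀ p, ev p = algebraMap (MvPolynomial ι ℂ ⧸ cIdeal u) 𝕂 (Ideal.Quotient.mk _ p) := by
    intro p; rfl
  have hev0 : ∀ p, ev p = 0 ↔ ∀ᶠ t in 𝓝 (0 : ℝ), evt u p t = 0 := by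
    intro p
    rw [hevapp, map_eq_zero_iff _ (IsFractionRing.injective (MvPolynomial ι ℂ ⧸ cIdeal u) 𝕂),
      Ideal.Quotient.eq_zero_iff_mem, mem_cIdeal]
  refine ⟨𝕂, inferInstance, inferInstance, ev, hev0, ?_⟩
  intro P _ φ w h0 hord
  change ∀ p, evt u (φ p) 0 ≠ 0 at h0
  -- the field is generated by the variables
  set S : Finset 𝕂 := Finset.univ.image fun i => ev (X i) with hS
  have hgen : IntermediateField.adjoin ℂ (S : Set 𝕂) = ⊤ := by
    rw [eq_top_iff]
    intro z _
    have hpoly : ∀ p, ev p ∈ IntermediateField.adjoin ℂ (S : Set 𝕂) := by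
      intro p
      induction p using MvPolynomial.induction_on with
      | C a =>
        have : ev (C a) = algebraMap ℂ 𝕂 a := by
          rw [← MvPolynomial.algebraMap_eq, AlgHom.commutes]
        rw [this]
        exact IntermediateField.algebraMap_mem _ _
      | add p q hp hq => rw [map_add]; exact add_mem hp hq
      | mul_X p i hp =>
        rw [map_mul]
        refine mul_mem hp (IntermediateField.subset_adjoin _ _ ?_)
        simp [hS]
    obtain ⟨a, b, hb, rfl⟩ := IsFractionRing.div_surjective (A := MvPolynomial ι ℂ ⧸ cIdeal u) z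
    obtain ⟨a, rfl⟩ := Ideal.Quotient.mk_surjective a
    obtain ⟨b, rfl⟩ := Ideal.Quotient.mk_surjective b
    exact div_mem (hpoly a) (hpoly b)
  have hne : ∀ p, ev (φ p) ≠ 0 := by
    intro p hp
    rw [hev0] at hp
    exact h0 p hp.self_of_nhds
  -- integral relations
  have hint : ∀ n : P → ℤ, (∀ v : DOrd 𝕂, ∑ p, n p * v.ord (ev (φ p)) = 0) →
      ∑ p, (n p : ℂ) * logDeriv (evt u (φ p)) 0 = 0 := by
    intro n hn
    set g : 𝕂 := ∏ p, ev (φ p) ^ n p with hg
    have hg0 : g ≠ 0 := Finset.prod_ne_zero_iff.mpr fun p _ => zpow_ne_zero _ (hne p)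
    have hgc : g ∈ Set.range (algebraMap ℂ 𝕂) := by
      by_contra hcon
      obtain ⟨v, hv⟩ := hM2 𝕂 S hgen g hcon
      apply hv
      rw [hg, ord_prod_zpow v _ _ hne, hn v]
    obtain ⟨c, hc⟩ := hgc
    have hc0 : c ≠ 0 := by
      rintro rfl
      rw [map_zero] at hc
      exact hg0 hc.symm
    set A := ∏ p, φ p ^ (n p).toNat with hA
    set B := ∏ p, φ p ^ (-(n p)).toNat with hB
    have hAB : ev A = algebraMap ℂ 𝕂 c * ev B := by
      rw [hc, hg, hA, hB, map_prod, map_prod, ← Finset.prod_mul_distrib]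
      refine Finset.prod_congr rfl fun p _ => ?_
      rw [map_pow, map_pow, ← zpow_natCast, ← zpow_natCast, ← zpow_add₀ (hne p)]
      congr 1
      have := Int.toNat_sub_toNat_neg (n p)
      linarith
    have h1 : ev (A - C c * B) = 0 := by
      rw [map_sub, map_mul, hAB, ← MvPolynomial.algebraMap_eq, AlgHom.commutes, sub_self]
    rw [hev0] at h1
    have h2 : evt u A =ᶠ[𝓝 0] fun t => c * evt u B t := by
      filter_upwards [h1] with t ht
      have : evt u (A - C c * B) t = evt u A t - c * evt u B t := by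
        simp [evt]
      rw [this] at ht
      exact sub_eq_zero.mp ht
    have h3 := logDeriv_congr_nhds h2
    have h4 : logDeriv (evt u A) 0 = logDeriv (fun t => c * evt u B t) 0 := h3.self_of_nhds
    rw [logDeriv_const_mul _ _ hc0, hA, hB, logDeriv_evt_prod u hu φ _ h0,
      logDeriv_evt_prod u hu φ _ h0] at h4
    rw [← sub_eq_zero, ← Finset.sum_sub_distrib] at h4
    rw [← h4]
    refine Finset.sum_congr rfl fun p _ => ?_
    have h5 := Int.toNat_sub_toNat_neg (n p)
    have h6 : (n p : ℂ) = ((n p).toNat : ℂ) - ((-(n p)).toNat : ℂ) := by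
      exact_mod_cast h5.symm
    rw [h6]
    ring
  -- rational relations
  have hrat : ∀ q : P → ℚ, (∀ v : DOrd 𝕂, ∑ p, q p * (v.ord (ev (φ p)) : ℚ) = 0) →
      ∑ p, (q p : ℂ) * logDeriv (evt u (φ p)) 0 = 0 := by
    intro q hq
    set D : ℤ := ∏ p, ((q p).den : ℤ) with hD
    have hD0 : D ≠ 0 := Finset.prod_ne_zero_iff.mpr fun p _ => by exact_mod_cast (q p).den_nz
    have hn : ∀ p, ∃ n : ℤ, (n : ℚ) = D * q p := by
      intro p
      refine ⟨(∏ p' ∈ Finset.univ.erase p, ((q p').den : ℤ)) * (q p).num, ?_⟩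
      rw [hD, ← Finset.mul_prod_erase _ _ (Finset.mem_univ p)]
      push_cast
      have : ((q p).den : ℚ) * q p = (q p).num := by
        rw [mul_comm]; exact Rat.mul_den_eq_num _
      rw [← this]
      ring
    choose n hn using hn
    have h1 := hint n (by
      intro v
      have h2 : ((∑ p, n p * v.ord (ev (φ p)) : ℤ) : ℚ) = D * ∑ p, q p * (v.ord (ev (φ p)) : ℚ) := by
        push_cast
        rw [Finset.mul_sum]
        refine Finset.sum_congr rfl fun p _ => ?_
        rw [hn]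
        ring
      rw [hq v, mul_zero] at h2
      exact_mod_cast h2)
    have h3 : (D : ℂ) * ∑ p, (q p : ℂ) * logDeriv (evt u (φ p)) 0 = 0 := by
      rw [← h1, Finset.mul_sum]
      refine Finset.sum_congr rfl fun p _ => ?_
      have : (n p : ℂ) = D * q p := by
        have := hn p
        exact_mod_cast congrArg (fun x : ℚ => (x : ℂ)) this
      rw [this]
      ring
    rcases mul_eq_zero.mp h3 with h | h
    · exact absurd h (by exact_mod_cast hD0)
    · exact h
  -- real relations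
  set b := Module.Basis.ofVectorSpace ℚ ℝ with hb
  set T : Finset _ := Finset.univ.biUnion fun p => (b.repr (w p)).support with hT
  have hw : ∀ p, w p = ∑ l ∈ T, ((b.repr (w p) l : ℚ) : ℝ) * b l := by
    intro p
    have h1 := b.linearCombination_repr (w p)
    rw [Finsupp.linearCombination_apply, Finsupp.sum_of_support_subset _ (s := T)] at h1
    · simp only [Rat.smul_def] at h1
      exact h1.symm
    · intro l hl
      exact Finset.mem_biUnion.mpr ⟨p, Finset.mem_univ _, hl⟩
    · simp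
  have hl : ∀ l, ∑ p, ((b.repr (w p) l : ℚ) : ℂ) * logDeriv (evt u (φ p)) 0 = 0 := by
    intro l
    apply hrat
    intro v
    have h1 := congrArg (fun x => b.repr x l) (hord v)
    simp only [map_zero, Finsupp.zero_apply, map_sum, Finsupp.coe_finsetSum, Finset.sum_apply] at h1
    rw [← h1]
    refine Finset.sum_congr rfl fun p _ => ?_
    have h2 : w p * (v.ord (ev (φ p)) : ℝ) = (v.ord (ev (φ p)) : ℚ) • w p := by
      rw [Rat.smul_def]
      push_cast
      ring
    rw [h2, map_smul, Finsupp.smul_apply, smul_eq_mul, mul_comm]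
  change ∑ p, (w p : ℂ) * logDeriv (evt u (φ p)) 0 = 0
  have h5 : ∀ p, (w p : ℂ) = ∑ l ∈ T, ((b.repr (w p) l : ℚ) : ℂ) * ((b l : ℝ) : ℂ) := by
    intro p
    conv_lhs => rw [hw p]
    push_cast
    rfl
  simp only [h5, Finset.sum_mul]
  rw [Finset.sum_comm]
  refine Finset.sum_eq_zero fun l _ => ?_
  have h6 : ∑ p, ((b.repr (w p) l : ℚ) : ℂ) * ((b l : ℝ) : ℂ) * logDeriv (evt u (φ p)) 0 =
      ((b l : ℝ) : ℂ) * ∑ p, ((b.repr (w p) l : ℚ) : ℂ) * logDeriv (evt u (φ p)) 0 := by
    rw [Finset.mul_sum]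
    refine Finset.sum_congr rfl fun p _ => ?_
    ring
  rw [h6, hl l, mul_zero]

end Bellows.CF

open Topology in
/-- M10: the field of an analytic curve, and logarithmic derivatives. -/
theorem exists_curve_field {ι : Type} [Fintype ι] (u : ι → ℝ → ℂ)
    (hu : ∀ i, AnalyticAt ℝ (u i) 0) :
    ∃ (𝕂 : Type) (_ : Field 𝕂) (_ : Algebra ℂ 𝕂) (ev : MvPolynomial ι ℂ →ₐ[ℂ] 𝕂),
      (∀ p, ev p = 0 ↔ ∀ᶠ t in 𝓝 (0 : ℝ), MvPolynomial.aeval (fun i => u i t) p = 0) ∧
      ∀ (P : Type) [Fintype P] (φ : P → MvPolynomial ι ℂ) (w : P → ℝ),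
        (∀ p, MvPolynomial.aeval (fun i => u i 0) (φ p) ≠ 0) →
        (∀ v : DOrd 𝕂, ∑ p, w p * (v.ord (ev (φ p)) : ℝ) = 0) →
        ∑ p, (w p : ℂ) * (deriv (fun t => MvPolynomial.aeval (fun i => u i t) (φ p)) 0 /
          MvPolynomial.aeval (fun i => u i 0) (φ p)) = 0 :=
  Bellows.CF.exists_curve_field_aux u (fun K _ _ S hS g hg => exists_dord S hS g hg) hu
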