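import Pool.Agent.Bellows.Curve1
import Pool.Agent.Bellows.Boundary
import Pool.Agent.Bellows.M10

/-!
# The curve theorem: reduction to the arithmetic key lemma
-/

namespace Bellows

open Matrix HFrame Topology

theorem map_lf {R S : Type*} [CommRing R] [CommRing S] (f : R →+* S) {d : ℕ}
    (x y : Fin (d + 1) → R) : f (lf x y) = lf (fun i => f (x i)) (fun i => f (y i)) := by
  unfold lf; simp

theorem map_mulVec' {R S : Type*} [CommRing R] [CommRing S] (f : R →+* S) {n : ℕ}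
    (A : Matrix (Fin n) (Fin n) R) (x : Fin n → R) :
    (fun i => f (A.mulVec x i)) = (A.map f).mulVec (fun i => f (x i)) := by
  funext i; simp [Matrix.mulVec, dotProduct]

/-- The second isotropic vector of a frame. -/
noncomputable def AFrame.qK (K : Type*) [Field K] [Algebra ℂ K] {m : ℕ} {h : m + 2 ≤ m + 3 + 1}
    {x : Fin (m + 2) → Fin (m + 3 + 1) → ℝ} (A : AFrame h x) : Fin (m + 3 + 1) → K :=
  fun i => algebraMap ℂ K (A.n1 i + Complex.I * A.n2 i)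

theorem AFrame.map_Q {K : Type*} [Field K] [Algebra ℂ K] {m : ℕ} {h : m + 2 ≤ m + 3 + 1}
    {x : Fin (m + 2) → Fin (m + 3 + 1) → ℝ} (A : AFrame h x) :
    (A.C.map (rc K)).mulVec (std K m).Q = A.qK K := by
  change (A.C.map (rc K)).mulVec (b1 K m + ii K • b2 K m) = _
  rw [Matrix.mulVec_add, Matrix.mulVec_smul]
  unfold b1 b2
  rw [Matrix.mulVec_single_one, Matrix.mulVec_single_one]
  funext i
  unfold AFrame.qK AFrame.n1 AFrame.n2 ii
  rw [map_add, map_mul]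
  rfl

theorem rcC (x : ℝ) : rc ℂ x = (x : ℂ) := rfl

section deriv

theorem hasDerivAt_lfC {d : ℕ} {x y : ℝ → Fin (d + 1) → ℂ} {x' y' : Fin (d + 1) → ℂ}
    (hx : ∀ i, HasDerivAt (fun t => x t i) (x' i) 0) (hy : ∀ i, HasDerivAt (fun t => y t i) (y' i) 0) :
    HasDerivAt (fun t => lf (x t) (y t)) (lf x' (y 0) + lf (x 0) y') 0 := by
  have h : ∀ i, HasDerivAt (fun t => x t i * y t i) (x' i * y 0 i + x 0 i * y' i) 0 :=
    fun i => (hx i).mul (hy i)
  have h2 : HasDerivAt (fun t => -(x t 0 * y t 0) + ∑ i : Fin d, x t i.succ * y t i.succ)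
      (-(x' 0 * y 0 0 + x 0 0 * y' 0) + ∑ i : Fin d, (x' i.succ * y 0 i.succ + x 0 i.succ * y' i.succ)) 0 :=
    (h 0).fun_neg.fun_add (HasDerivAt.fun_sum (u := Finset.univ) fun (i : Fin d) _ => h i.succ)
  refine h2.congr_deriv ?_
  unfold lf
  rw [Finset.sum_add_distrib]
  ring

theorem hasDerivAt_mulVecC {n : ℕ} {g : ℝ → Matrix (Fin n) (Fin n) ℝ} {g' : Matrix (Fin n) (Fin n) ℝ}
    (hg : ∀ i j, HasDerivAt (fun t => g t i j) (g' i j) 0) (P : Fin n → ℂ) (i : Fin n) :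
    HasDerivAt (fun t => ((g t).map (rc ℂ)).mulVec P i) ((g'.map (rc ℂ)).mulVec P i) 0 := by
  simp only [Matrix.mulVec, dotProduct, Matrix.map_apply, rcC]
  refine HasDerivAt.fun_sum fun j _ => ?_
  exact ((hg i j).ofReal_comp).mul_const (P j)

/-- derivative of the Lorentz relation -/
theorem lor_derivC {d : ℕ} {g : ℝ → Matrix (Fin (d + 1)) (Fin (d + 1)) ℝ}
    {g' : Matrix (Fin (d + 1)) (Fin (d + 1)) ℝ}
    (hg : ∀ i j, HasDerivAt (fun t => g t i j) (g' i j) 0) (hL : ∀ᶠ t in 𝓝 (0 : ℝ), IsLor (g t))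
    (P Q : Fin (d + 1) → ℂ) :
    lf ((g'.map (rc ℂ)).mulVec P) (((g 0).map (rc ℂ)).mulVec Q) +
      lf (((g 0).map (rc ℂ)).mulVec P) ((g'.map (rc ℂ)).mulVec Q) = 0 := by
  have h1 := hasDerivAt_lfC (hasDerivAt_mulVecC hg P) (hasDerivAt_mulVecC hg Q)
  have h2 : (fun t => lf (((g t).map (rc ℂ)).mulVec P) (((g t).map (rc ℂ)).mulVec Q)) =ᶠ[𝓝 0]
      fun _ => lf P Q := by
    filter_upwards [hL] with t ht
    exact (isLor_map (k := ℂ)).mpr ht P Q
  have h3 := (h1.congr_of_eventuallyEq h2.symm).unique (hasDerivAt_const (0 : ℝ) (lf P Q))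
  exact h3

theorem lf_ofReal {d : ℕ} (x y : Fin (d + 1) → ℝ) :
    lf (fun i => ((x i : ℝ) : ℂ)) (fun i => ((y i : ℝ) : ℂ)) = ((lf x y : ℝ) : ℂ) := by
  unfold lf; push_cast; rfl

theorem mulVec_ofReal {n : ℕ} (A : Matrix (Fin n) (Fin n) ℝ) (x : Fin n → ℝ) :
    (A.map (rc ℂ)).mulVec (fun i => ((x i : ℝ) : ℂ)) = fun i => ((A.mulVec x i : ℝ) : ℂ) := by
  funext i; simp [Matrix.mulVec, dotProduct, rcC]

/-- `lf (g' P) (g Q) = 2 i ω`. -/
theorem omega_eq {m : ℕ} {g : ℝ → Matrix (Fin (m + 3 + 1)) (Fin (m + 3 + 1)) ℝ}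
    {g' : Matrix (Fin (m + 3 + 1)) (Fin (m + 3 + 1)) ℝ}
    (hg : ∀ i j, HasDerivAt (fun t => g t i j) (g' i j) 0) (hL : ∀ᶠ t in 𝓝 (0 : ℝ), IsLor (g t))
    {x : Fin (m + 2) → Fin (m + 3 + 1) → ℝ} (A : AFrame (show m + 2 ≤ m + 3 + 1 by omega) x) :
    lf ((g'.map (rc ℂ)).mulVec (A.iK ℂ)) (((g 0).map (rc ℂ)).mulVec (A.qK ℂ)) =
      2 * Complex.I * ((lf (g'.mulVec A.n1) ((g 0).mulVec A.n2) : ℝ) : ℂ) := by
  set p : Fin (m + 3 + 1) → ℂ := fun i => ((A.n1 i : ℝ) : ℂ) with hp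
  set q : Fin (m + 3 + 1) → ℂ := fun i => ((A.n2 i : ℝ) : ℂ) with hq
  have e1 : A.iK ℂ = p - Complex.I • q := by
    funext i; simp [AFrame.iK, hp, hq]
  have e2 : A.qK ℂ = p + Complex.I • q := by
    funext i; simp [AFrame.qK, hp, hq]
  have h11 := lor_derivC hg hL p p
  have h22 := lor_derivC hg hL q q
  have h12 := lor_derivC hg hL q p
  have h11' : lf ((g'.map (rc ℂ)).mulVec p) (((g 0).map (rc ℂ)).mulVec p) = 0 := by
    rw [lf_comm (((g 0).map (rc ℂ)).mulVec p)] at h11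
    have : (2 : ℂ) * lf ((g'.map (rc ℂ)).mulVec p) (((g 0).map (rc ℂ)).mulVec p) = 0 := by
      linear_combination h11
    simpa using this
  have h22' : lf ((g'.map (rc ℂ)).mulVec q) (((g 0).map (rc ℂ)).mulVec q) = 0 := by
    rw [lf_comm (((g 0).map (rc ℂ)).mulVec q)] at h22
    have : (2 : ℂ) * lf ((g'.map (rc ℂ)).mulVec q) (((g 0).map (rc ℂ)).mulVec q) = 0 := by
      linear_combination h22
    simpa using this
  rw [lf_comm (((g 0).map (rc ℂ)).mulVec q)] at h12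
  have h3 : lf ((g'.map (rc ℂ)).mulVec p) (((g 0).map (rc ℂ)).mulVec q) =
      ((lf (g'.mulVec A.n1) ((g 0).mulVec A.n2) : ℝ) : ℂ) := by
    rw [hp, hq, mulVec_ofReal, mulVec_ofReal, lf_ofReal]
  rw [e1, e2, Matrix.mulVec_sub, Matrix.mulVec_add, Matrix.mulVec_smul, Matrix.mulVec_smul,
    lf_sub_left, lf_add_right, lf_add_right, lf_smul_left, lf_smul_left, lf_smul_right,
    lf_smul_right, h11', h22', h3]
  rw [h3] at h12
  linear_combination (-Complex.I) * h12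

end deriv

end Bellows
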