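import Pool.Agent.Bellows.M8d

/-!
# Bellows M8: Schläfli's formula
-/

open MeasureTheory Matrix Topology Filter

namespace Bellows

/-- The rotation speed at a face, in terms of the moved frame. -/
theorem angle_move {m : ℕ} {x : Fin (m + 2) → Fin (m + 3 + 1) → ℝ} {hr : m + 2 ≤ m + 3 + 1}
    (A : AFrame hr x) {g g' : Matrix (Fin (m + 4)) (Fin (m + 4)) ℝ} (hg : IsLor g)
    (hdet : g.det = 1) (hfut : 0 < g 0 0) :
    lf ((g' * g⁻¹).mulVec (A.move g hg hdet hfut).n1) (A.move g hg hdet hfut).n2 =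
      lf (g'.mulVec A.n1) (g.mulVec A.n2) := by
  rw [A.move_n1, A.move_n2, ← Matrix.mulVec_mulVec, hg.inv_mulVec]

theorem li_mulVec {r d : ℕ} {g : Matrix (Fin (d + 1)) (Fin (d + 1)) ℝ} (hg : IsLor g)
    (x : Fin r → Fin (d + 1) → ℝ) :
    LinearIndependent ℝ (fun i => g.mulVec (x i)) ↔ LinearIndependent ℝ x := by
  constructor
  · intro h
    exact LinearIndependent.of_comp (Matrix.mulVecLin g) h
  · intro h
    apply LinearIndependent.of_comp (Matrix.mulVecLin g⁻¹)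
    have : (Matrix.mulVecLin g⁻¹ ∘ fun i => g.mulVec (x i)) = x := by
      funext i
      simp only [Function.comp_apply, Matrix.mulVecLin_apply]
      exact hg.inv_mulVec _
    rw [this]
    exact h

/-- The logarithmic derivative of a curve of Lorentz matrices is antisymmetric. -/
theorem anti_log {d : ℕ} {g : ℝ → Matrix (Fin (d + 1)) (Fin (d + 1)) ℝ}
    {g' : Matrix (Fin (d + 1)) (Fin (d + 1)) ℝ}
    (hg' : HasDerivAt g g' 0) (hg : ∀ᶠ t in 𝓝 (0 : ℝ), IsLor (g t)) : Anti (g' * (g 0)⁻¹) := by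
  have h0 := hg.self_of_nhds
  have key : ∀ u v : Fin (d + 1) → ℝ,
      lf (g'.mulVec u) ((g 0).mulVec v) + lf ((g 0).mulVec u) (g'.mulVec v) = 0 := by
    intro u v
    have h1 := hasDerivAt_pi.mp (hasDerivAt_mulVec hg' u)
    have h2 := hasDerivAt_pi.mp (hasDerivAt_mulVec hg' v)
    have h3 : HasDerivAt (fun t => lf ((g t).mulVec u) ((g t).mulVec v))
        (lf (g'.mulVec u) ((g 0).mulVec v) + lf ((g 0).mulVec u) (g'.mulVec v)) 0 := by
      have h4 := ((h1 0).mul (h2 0)).neg.add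
        (HasDerivAt.fun_sum (u := Finset.univ) fun (i : Fin d) (_ : i ∈ Finset.univ) =>
          (h1 i.succ).mul (h2 i.succ))
      have e : lf (g'.mulVec u) ((g 0).mulVec v) + lf ((g 0).mulVec u) (g'.mulVec v) =
          -((g'.mulVec u) 0 * ((g 0).mulVec v) 0 + ((g 0).mulVec u) 0 * (g'.mulVec v) 0) +
          ∑ i : Fin d, ((g'.mulVec u) i.succ * ((g 0).mulVec v) i.succ +
            ((g 0).mulVec u) i.succ * (g'.mulVec v) i.succ) := by
        unfold lf
        rw [Finset.sum_add_distrib]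
        ring
      rw [e]
      exact h4
    have h5 : HasDerivAt (fun t => lf ((g t).mulVec u) ((g t).mulVec v)) 0 0 := by
      refine HasDerivAt.congr_of_eventuallyEq (hasDerivAt_const (0 : ℝ) (lf u v)) ?_
      filter_upwards [hg] with t ht
      exact ht u v
    exact h3.unique h5
  intro u v
  have h1 := key ((g 0)⁻¹.mulVec u) ((g 0)⁻¹.mulVec v)
  rw [h0.mulVec_inv, h0.mulVec_inv] at h1
  rw [← Matrix.mulVec_mulVec, ← Matrix.mulVec_mulVec]
  linarith

/-- The terms at a common face of two facets. -/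
theorem common_face {m : ℕ} {x : Fin (m + 2) → Fin (m + 4) → ℝ} (hx : ∀ i, FC (x i))
    (hli : LinearIndependent ℝ x) (A : AFrame (show m + 2 ≤ m + 3 + 1 by omega) x)
    (o : Fin (m + 4) → ℝ) (ho : FT o)
    {g h : ℝ → Matrix (Fin (m + 4)) (Fin (m + 4)) ℝ}
    {g' h' : Matrix (Fin (m + 4)) (Fin (m + 4)) ℝ}
    (hg' : HasDerivAt g g' 0)
    (hg : ∀ᶠ t in 𝓝 (0 : ℝ), IsLor (g t) ∧ (g t).det = 1 ∧ 0 < g t 0 0)
    (hh' : HasDerivAt h h' 0)
    (hh : ∀ᶠ t in 𝓝 (0 : ℝ), IsLor (h t) ∧ (h t).det = 1 ∧ 0 < h t 0 0)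
    (hag : ∀ᶠ t in 𝓝 (0 : ℝ), ∀ k, (g t).mulVec (x k) = (h t).mulVec (x k)) :
    TT (g' * (g 0)⁻¹).mulVec o (fun k => (g 0).mulVec (x k)) -
      lf (g'.mulVec A.n1) ((g 0).mulVec A.n2) * A.wt =
    TT (h' * (h 0)⁻¹).mulVec o (fun k => (h 0).mulVec (x k)) -
      lf (h'.mulVec A.n1) ((h 0).mulVec A.n2) * A.wt := by
  obtain ⟨hlg, hdg, hfg⟩ := hg.self_of_nhds
  obtain ⟨hlh, hdh, hfh⟩ := hh.self_of_nhds
  have hXe : (fun k => (h 0).mulVec (x k)) = (fun k => (g 0).mulVec (x k)) := by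
    funext k
    exact (hag.self_of_nhds k).symm
  have hd : ∀ k, g'.mulVec (x k) = h'.mulVec (x k) := by
    intro k
    have h1 := hasDerivAt_mulVec hg' (x k)
    have h2 := hasDerivAt_mulVec hh' (x k)
    refine h1.unique (h2.congr_of_eventuallyEq ?_)
    filter_upwards [hag] with t ht
    exact ht k
  have hZ1 := anti_log hg' (hg.mono fun t ht => ht.1)
  have hZ2 := anti_log hh' (hh.mono fun t ht => ht.1)
  have hZ : Anti (g' * (g 0)⁻¹ - h' * (h 0)⁻¹) := by
    intro u v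
    rw [Matrix.sub_mulVec, Matrix.sub_mulVec, lf_sub_left, lf_sub_right, hZ1, hZ2]
    ring
  have hkill : ∀ k, (g' * (g 0)⁻¹ - h' * (h 0)⁻¹).mulVec ((g 0).mulVec (x k)) = 0 := by
    intro k
    rw [Matrix.sub_mulVec, ← Matrix.mulVec_mulVec, ← Matrix.mulVec_mulVec, hlg.inv_mulVec]
    have : (g 0).mulVec (x k) = (h 0).mulVec (x k) := hag.self_of_nhds k
    rw [this, hlh.inv_mulVec, hd, sub_self]
  set B := A.move (g 0) hlg hdg hfg with hB
  have hC : ∀ Y : Fin (m + 2) → Fin (m + 3 + 1) → ℝ, (fun k => (h 0).mulVec (x k)) = Y →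
      ∃ C : AFrame (show m + 2 ≤ m + 3 + 1 by omega) Y,
      C.c.det = A.c.det ∧ lf ((h' * (h 0)⁻¹).mulVec C.n1) C.n2 =
        lf (h'.mulVec A.n1) ((h 0).mulVec A.n2) := by
    rintro _ rfl
    exact ⟨A.move (h 0) hlh hdh hfh, rfl, angle_move A hlh hdh hfh⟩
  obtain ⟨C, hC1, hC2⟩ := hC _ hXe
  have hZrot := B.anti_eq hZ hkill
  have hang : lf ((g' * (g 0)⁻¹ - h' * (h 0)⁻¹).mulVec B.n1) B.n2 =
      lf (g'.mulVec A.n1) ((g 0).mulVec A.n2) - lf (h'.mulVec A.n1) ((h 0).mulVec A.n2) := by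
    rw [Matrix.sub_mulVec, lf_sub_left, angle_move A hlg hdg hfg, ← hC2, C.angle_eq B hC1 hZ2]
  have hT := TT_sub (g' * (g 0)⁻¹).mulVec (h' * (h 0)⁻¹).mulVec B.rot
    (lf ((g' * (g 0)⁻¹ - h' * (h 0)⁻¹).mulVec B.n1) B.n2) (fun y => by
      rw [← Matrix.sub_mulVec]
      exact hZrot y) o (fun k => (g 0).mulVec (x k))
  rw [TT_rot B (fun i => hlg.fc hfg (hx i)) ((li_mulVec hlg x).mpr hli) o ho, hang] at hT
  have hw : B.wt = A.wt := by
    unfold AFrame.wt
    rw [gram_mulVec hlg x]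
    rfl
  rw [hw] at hT
  rw [hXe]
  linarith

open Classical in
/-- M8: the derivative of the volume of a moving polyhedron (Schläfli's formula). -/
theorem hasDerivAt_volume {m N : ℕ} (K : Cycle (m + 2) N) (ξ : Fin N → Fin (m + 4) → ℝ)
    (hξ : ∀ v, FC (ξ v)) (hpar : ∀ v w, (ξ w) 0 • ξ v = (ξ v) 0 • ξ w → ξ v = ξ w)
    (o : Fin (m + 4) → ℝ) (ho : FT o)
    (Fr : ∀ F : Fin (m + 2) ↪o Fin N, LinearIndependent ℝ (fun k => ξ (F k)) →
      AFrame (show m + 2 ≤ m + 3 + 1 by omega) (fun k => ξ (F k)))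
    (g : (Fin (m + 3) ↪o Fin N) → ℝ → Matrix (Fin (m + 4)) (Fin (m + 4)) ℝ)
    (g' : (Fin (m + 3) ↪o Fin N) → Matrix (Fin (m + 4)) (Fin (m + 4)) ℝ)
    (hg' : ∀ a ∈ K.facets, HasDerivAt (g a) (g' a) 0)
    (hg : ∀ᶠ t in 𝓝 (0 : ℝ), ∀ a ∈ K.facets, IsLor (g a t) ∧ (g a t).det = 1 ∧ 0 < g a t 0 0)
    (hag : ∀ᶠ t in 𝓝 (0 : ℝ), ∀ a ∈ K.facets, ∀ b ∈ K.facets, ∀ i j, face a i = face b j →
      LinearIndependent ℝ (fun k => ξ (face a i k)) →
      ∀ k, (g a t).mulVec (ξ (face a i k)) = (g b t).mulVec (ξ (face a i k))) :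
    HasDerivAt (fun t => ∑ a ∈ K.facets, (K.coeff a : ℝ) *
        S (d := m + 3) (Fin.cons ((g a t)⁻¹.mulVec o) (fun i => ξ (a i))))
      (- ∑ a ∈ K.facets, ∑ j : Fin (m + 3),
        if h : LinearIndependent ℝ (fun k => ξ (face a j k)) then
          (K.coeff a : ℝ) * (-1) ^ (j : ℕ) * (Fr (face a j) h).wt *
            lf ((g' a).mulVec (Fr (face a j) h).n1) ((g a 0).mulVec (Fr (face a j) h).n2)
        else 0) 0 := by
  have hga : ∀ a ∈ K.facets, ∀ᶠ t in 𝓝 (0 : ℝ), IsLor (g a t) ∧ (g a t).det = 1 ∧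
      0 < g a t 0 0 := fun a ha => hg.mono fun t ht => ht a ha
  -- the derivative, facet by facet
  have h1 : HasDerivAt (fun t => ∑ a ∈ K.facets, (K.coeff a : ℝ) *
        S (d := m + 3) (Fin.cons ((g a t)⁻¹.mulVec o) (fun i => ξ (a i))))
      (∑ a ∈ K.facets, (K.coeff a : ℝ) * (- ∑ j : Fin (m + 3), (-1) ^ (j : ℕ) *
        (if LinearIndependent ℝ (fun k => ξ (face a j k)) then
          TT ((g' a) * (g a 0)⁻¹).mulVec o (fun k => (g a 0).mulVec (ξ (face a j k))) else 0)))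
      0 := by
    refine HasDerivAt.fun_sum fun a ha => HasDerivAt.const_mul _ ?_
    obtain ⟨hl, hd, hf⟩ := (hga a ha).self_of_nhds
    have h2 := facet_deriv (fun i => ξ (a i)) (fun i => hξ _) o ho (hg' a ha) (hga a ha)
    have h3 := facet_sum (fun v => (g a 0).mulVec (ξ v)) (fun v => hl.fc hf (hξ v)) (by
      intro v w hvw
      have h4 : ((g a 0).mulVec (ξ w)) 0 • ξ v = ((g a 0).mulVec (ξ v)) 0 • ξ w := by
        have h5 := congrArg (fun u => (g a 0)⁻¹.mulVec u) hvw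
        simp only [Matrix.mulVec_smul, hl.inv_mulVec] at h5
        exact h5
      have h5 : ξ v = ξ w := by
        apply hpar
        have h6 := congrFun h4 0
        simp only [Pi.smul_apply, smul_eq_mul] at h6
        have h7 := (hl.fc hf (hξ w)).2
        funext i
        have h8 := congrFun h4 i
        simp only [Pi.smul_apply, smul_eq_mul] at h8 ⊢
        apply mul_left_cancel₀ h7.ne'
        linear_combination (ξ w 0) * h8 - (ξ w i) * h6
      rw [h5]) o ho ((g' a) * (g a 0)⁻¹).mulVec a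
    have e1 : ∀ j : Fin (m + 3), (LinearIndependent ℝ (fun k => (g a 0).mulVec (ξ (face a j k)))) =
        (LinearIndependent ℝ (fun k => ξ (face a j k))) := fun j =>
      propext (li_mulVec hl (fun k => ξ (face a j k)))
    rw [← Matrix.mulVec_mulVec] at h3
    have e2 : ∑ j : Fin (m + 3), (-1 : ℝ) ^ (j : ℕ) *
        (if LinearIndependent ℝ (fun k => ξ (face a j k)) then
          TT ((g' a) * (g a 0)⁻¹).mulVec o (fun k => (g a 0).mulVec (ξ (face a j k))) else 0) =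
        ∑ j : Fin (m + 3), (-1 : ℝ) ^ (j : ℕ) *
        (if LinearIndependent ℝ (fun k => (g a 0).mulVec (ξ (face a j k))) then
          TT ((g' a) * (g a 0)⁻¹).mulVec o (fun k => (g a 0).mulVec (ξ (face a j k))) else 0) := by
      refine Finset.sum_congr rfl fun j _ => ?_
      simp only [e1]
    rw [e2, ← h3]
    exact h2
  refine (congrArg (fun r => HasDerivAt (fun t => ∑ a ∈ K.facets, (K.coeff a : ℝ) *
        S (d := m + 3) (Fin.cons ((g a t)⁻¹.mulVec o) (fun i => ξ (a i)))) r 0) ?_).mp h1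
  symm
  -- closedness
  set Φ : (Fin (m + 3) ↪o Fin N) → Fin (m + 3) → ℝ := fun a j =>
    if h : LinearIndependent ℝ (fun k => ξ (face a j k)) then
      TT ((g' a) * (g a 0)⁻¹).mulVec o (fun k => (g a 0).mulVec (ξ (face a j k))) -
        lf ((g' a).mulVec (Fr (face a j) h).n1) ((g a 0).mulVec (Fr (face a j) h).n2) *
        (Fr (face a j) h).wt
    else 0 with hΦ
  have hΦeq : ∀ a ∈ K.facets, ∀ b ∈ K.facets, ∀ i j, face a i = face b j → Φ a i = Φ b j := by
    intro a ha b hb i j hij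
    simp only [hΦ]
    rw [← hij]
    split_ifs with hli
    · exact common_face (fun i => hξ _) hli (Fr (face a i) hli) o ho (hg' a ha) (hga a ha)
        (hg' b hb) (hga b hb) (hag.mono fun t ht => ht a ha b hb i j hij hli)
    · rfl
  have h2 := K.sum_eq_zero' Φ hΦeq
  have h3 : ∀ a ∈ K.facets, ∑ j : Fin (m + 3), (K.coeff a : ℝ) * (-1) ^ (j : ℕ) * Φ a j =
      (K.coeff a : ℝ) * (∑ j : Fin (m + 3), (-1) ^ (j : ℕ) *
        (if LinearIndependent ℝ (fun k => ξ (face a j k)) then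
          TT ((g' a) * (g a 0)⁻¹).mulVec o (fun k => (g a 0).mulVec (ξ (face a j k))) else 0)) -
      ∑ j : Fin (m + 3), (if h : LinearIndependent ℝ (fun k => ξ (face a j k)) then
          (K.coeff a : ℝ) * (-1) ^ (j : ℕ) * (Fr (face a j) h).wt *
            lf ((g' a).mulVec (Fr (face a j) h).n1) ((g a 0).mulVec (Fr (face a j) h).n2)
        else 0) := by
    intro a ha
    rw [Finset.mul_sum, ← Finset.sum_sub_distrib]
    refine Finset.sum_congr rfl fun j _ => ?_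
    simp only [hΦ]
    split_ifs with hli
    · ring
    · ring
  rw [Finset.sum_congr rfl h3, Finset.sum_sub_distrib, sub_eq_zero] at h2
  rw [← h2, ← Finset.sum_neg_distrib]
  exact Finset.sum_congr rfl fun a _ => by ring

end Bellows
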