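import Pool.Agent.Bellows.Curve2
import Pool.Agent.Bellows.M8

/-!
# The curve theorem: zero derivative of the volume along analytic curves
-/

namespace Bellows

open Matrix HFrame Topology

variable {m N : ℕ}

/-- HasDerivAt for matrices, entrywise. -/
theorem hasDerivAt_entries {n : ℕ} {g : ℝ → Matrix (Fin n) (Fin n) ℝ}
    {g' : Matrix (Fin n) (Fin n) ℝ} (h : ∀ i j, HasDerivAt (fun t => g t i j) (g' i j) 0) :
    HasDerivAt g g' 0 :=
  hasDerivAt_pi.mpr fun i => hasDerivAt_pi.mpr fun j => h i j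

theorem eta_map {R S : Type*} [CommRing R] [CommRing S] (f : R →+* S) (d : ℕ) :
    (eta R d).map f = eta S d := by
  ext i j
  rw [Matrix.map_apply, eta, eta, Matrix.diagonal_apply, Matrix.diagonal_apply]
  split_ifs <;> simp

theorem isLor_map_iff {R S : Type*} [CommRing R] [CommRing S] (f : R →+* S) {d : ℕ}
    (A : Matrix (Fin (d + 1)) (Fin (d + 1)) R) :
    IsLor (A.map f) ↔ ∀ i j, f ((Aᵀ * eta R d * A - eta R d) i j) = 0 := by
  rw [isLor_iff, ← eta_map f d, ← Matrix.transpose_map, ← Matrix.map_mul, ← Matrix.map_mul]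
  constructor
  · intro h i j
    have := congrFun (congrFun h i) j
    simp only [Matrix.map_apply] at this
    rw [Matrix.sub_apply, map_sub, this, sub_self]
  · intro h
    ext i j
    have := h i j
    rw [Matrix.sub_apply, map_sub, sub_eq_zero] at this
    exact this

theorem det_map_iff {R S : Type*} [CommRing R] [CommRing S] (f : R →+* S) {n : ℕ}
    (A : Matrix (Fin n) (Fin n) R) : (A.map f).det = 1 ↔ f (A.det - 1) = 0 := by
  have : (A.map f).det = f A.det := (f.map_det A).symm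
  rw [this, map_sub, map_one, sub_eq_zero]

section

variable {ι : Type} (u : ι → ℝ → ℂ)

/-- Evaluation along the curve as a ring homomorphism. -/
noncomputable def evr (t : ℝ) : MvPolynomial ι ℂ →+* ℂ :=
  ((MvPolynomial.aeval (fun i => u i t) : MvPolynomial ι ℂ →ₐ[ℂ] ℂ) : MvPolynomial ι ℂ →+* ℂ)

theorem evr_C (t : ℝ) (c : ℂ) : evr u t (MvPolynomial.C c) = c := by
  unfold evr; simp

variable {𝕂 : Type} [Field 𝕂] [Algebra ℂ 𝕂] (ev : MvPolynomial ι ℂ →ₐ[ℂ] 𝕂)

theorem ev_C (c : ℂ) : ev (MvPolynomial.C c) = algebraMap ℂ 𝕂 c := by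
  rw [← MvPolynomial.algebraMap_eq, ev.commutes]

variable (hev : ∀ q, ev q = 0 ↔ ∀ᶠ t in 𝓝 (0 : ℝ), MvPolynomial.aeval (fun i => u i t) q = 0)
include hev

theorem transfer_lor {d : ℕ} {g : ℝ → Matrix (Fin (d + 1)) (Fin (d + 1)) ℝ}
    {p : Matrix (Fin (d + 1)) (Fin (d + 1)) (MvPolynomial ι ℂ)}
    (hp : ∀ᶠ t in 𝓝 (0 : ℝ), p.map (evr u t) = (g t).map (rc ℂ))
    (hg : ∀ᶠ t in 𝓝 (0 : ℝ), IsLor (g t)) : IsLor (p.map ev) := by
  change IsLor (p.map (ev : MvPolynomial ι ℂ →+* 𝕂))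
  rw [isLor_map_iff]
  intro i j
  change ev _ = 0
  rw [hev]
  filter_upwards [hp, hg] with t h1 h2
  have h3 : IsLor (p.map (evr u t)) := by rw [h1]; exact isLor_map.mpr h2
  exact (isLor_map_iff (evr u t) p).mp h3 i j

theorem transfer_det {n : ℕ} {g : ℝ → Matrix (Fin n) (Fin n) ℝ}
    {p : Matrix (Fin n) (Fin n) (MvPolynomial ι ℂ)}
    (hp : ∀ᶠ t in 𝓝 (0 : ℝ), p.map (evr u t) = (g t).map (rc ℂ))
    (hg : ∀ᶠ t in 𝓝 (0 : ℝ), (g t).det = 1) : (p.map ev).det = 1 := by
  change (p.map (ev : MvPolynomial ι ℂ →+* 𝕂)).det = 1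
  rw [det_map_iff]
  change ev _ = 0
  rw [hev]
  filter_upwards [hp, hg] with t h1 h2
  have h3 : (p.map (evr u t)).det = 1 := by
    rw [h1]
    have := (rc ℂ).map_det (g t)
    rw [h2, map_one] at this
    exact this.symm
  exact (det_map_iff (evr u t) p).mp h3

theorem transfer_vec {n : ℕ} {g h : ℝ → Matrix (Fin n) (Fin n) ℝ}
    {p q : Matrix (Fin n) (Fin n) (MvPolynomial ι ℂ)}
    (hp : ∀ᶠ t in 𝓝 (0 : ℝ), p.map (evr u t) = (g t).map (rc ℂ))
    (hq : ∀ᶠ t in 𝓝 (0 : ℝ), q.map (evr u t) = (h t).map (rc ℂ))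
    (x : Fin n → ℝ) (hgh : ∀ᶠ t in 𝓝 (0 : ℝ), (g t).mulVec x = (h t).mulVec x) :
    (p.map ev).mulVec (toR x) = (q.map ev).mulVec (toR x) := by
  set X : Fin n → MvPolynomial ι ℂ := fun i => MvPolynomial.C ((x i : ℝ) : ℂ) with hX
  have e1 : (toR x : Fin n → 𝕂) = fun i => (ev : MvPolynomial ι ℂ →+* 𝕂) (X i) := by
    funext i; exact (ev_C ev _).symm
  have e2 : ∀ t, (fun i => evr u t (X i)) = fun i => ((x i : ℝ) : ℂ) := by
    intro t; funext i; exact evr_C u t _
  have e3 : ∀ r : Matrix (Fin n) (Fin n) (MvPolynomial ι ℂ), (r.map ev).mulVec (toR x) =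
      fun i => (ev : MvPolynomial ι ℂ →+* 𝕂) (r.mulVec X i) := by
    intro r
    rw [e1, map_mulVec']; rfl
  rw [e3, e3]
  funext i
  have h1 : ev (p.mulVec X i - q.mulVec X i) = 0 := by
    rw [hev]
    filter_upwards [hp, hq, hgh] with t h1 h2 h3
    change evr u t _ = 0
    rw [map_sub, sub_eq_zero]
    have h4 := congrFun (map_mulVec' (evr u t) p X) i
    have h5 := congrFun (map_mulVec' (evr u t) q X) i
    rw [h4, h5, h1, h2, e2, mulVec_ofReal, mulVec_ofReal, h3]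
  rw [map_sub, sub_eq_zero] at h1
  exact h1

end

open Classical in
/-- The curve theorem, reduced to the arithmetic key lemma for the field of the curve. -/
theorem curve_core (Kc : Cycle (m + 2) N) (ξ : Fin N → Fin (m + 4) → ℝ)
    (hξ : ∀ v, FC (d := m + 3) (ξ v))
    (hpar : ∀ v w, (ξ w) 0 • ξ v = (ξ v) 0 • ξ w → ξ v = ξ w)
    (o : Fin (m + 4) → ℝ) (ho : FT (d := m + 3) o)
    (Fr : ∀ F : Fin (m + 2) ↪o Fin N, LinearIndependent ℝ (fun k => ξ (F k)) →
      AFrame (show m + 2 ≤ m + 3 + 1 by omega) (fun k => ξ (F k)))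
    (g : (Fin (m + 3) ↪o Fin N) → ℝ → Matrix (Fin (m + 4)) (Fin (m + 4)) ℝ)
    {ι : Type} [Fintype ι] (u : ι → ℝ → ℂ) (hu : ∀ i, AnalyticAt ℝ (u i) 0)
    (p : (Fin (m + 3) ↪o Fin N) → Matrix (Fin (m + 4)) (Fin (m + 4)) (MvPolynomial ι ℂ))
    (hp : ∀ a ∈ Kc.facets, ∀ᶠ t in 𝓝 (0 : ℝ), ∀ i j,
      ((g a t i j : ℝ) : ℂ) = MvPolynomial.aeval (fun i => u i t) (p a i j))
    (hg : ∀ᶠ t in 𝓝 (0 : ℝ), ∀ a ∈ Kc.facets, IsLor (d := m + 3) (g a t) ∧ (g a t).det = 1 ∧
      0 < g a t 0 0)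
    (hag : ∀ᶠ t in 𝓝 (0 : ℝ), ∀ a ∈ Kc.facets, ∀ b ∈ Kc.facets, ∀ i j, face a i = face b j →
      LinearIndependent ℝ (fun k => ξ (face a i k)) →
      ∀ k, (g a t).mulVec (ξ (face a i k)) = (g b t).mulVec (ξ (face a i k)))
    (hAT : ∀ (𝕂 : Type) [Field 𝕂] [Algebra ℂ 𝕂] (ev : MvPolynomial ι ℂ →ₐ[ℂ] 𝕂),
      (∀ q, ev q = 0 ↔ ∀ᶠ t in 𝓝 (0 : ℝ), MvPolynomial.aeval (fun i => u i t) q = 0) →
      ∀ (v : DOrd 𝕂) (I : (Fin (m + 2) ↪o Fin N) → Fin (m + 4) → 𝕂)
      (f : (Fin (m + 3) ↪o Fin N) → Fin (m + 3) → 𝕂),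
      (∀ a ∈ Kc.facets, IsLor (d := m + 3) ((p a).map ev) ∧ ((p a).map ev).det = 1) →
      (∀ a ∈ Kc.facets, ∀ b ∈ Kc.facets, ∀ i j, face a i = face b j →
        LinearIndependent ℝ (fun k => ξ (face a i k)) →
        ∀ k, ((p a).map ev).mulVec (toR (ξ (face a i k))) =
          ((p b).map ev).mulVec (toR (ξ (face a i k)))) →
      (∀ a ∈ Kc.facets, ∀ j, ∀ h : LinearIndependent ℝ (fun k => ξ (face a j k)),
        f a j ≠ 0 ∧ ((p a).map ev).mulVec ((Fr _ h).iK 𝕂) = f a j • I (face a j)) →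
      ∑ a ∈ Kc.facets, ∑ j : Fin (m + 3),
        (if h : LinearIndependent ℝ (fun k => ξ (face a j k)) then
          (Kc.coeff a : ℝ) * (-1) ^ (j : ℕ) * (Fr (face a j) h).wt * (v.ord (f a j) : ℝ)
        else 0) = 0) :
    HasDerivAt (fun t => ∑ a ∈ Kc.facets, (Kc.coeff a : ℝ) *
        S (d := m + 3) (Fin.cons ((g a t)⁻¹.mulVec o) (fun i => ξ (a i)))) 0 0 := by
  obtain ⟨𝕂, hF, hA, ev, hev, hlog⟩ := exists_curve_field u hu
  -- trivial case
  by_cases hne : Kc.facets = ∅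
  · simp only [hne, Finset.sum_empty]
    exact hasDerivAt_const _ _
  obtain ⟨a00, ha00⟩ := Finset.nonempty_iff_ne_empty.mpr hne
  -- derivative of the matrices
  have hdiff : ∀ a ∈ Kc.facets, ∀ i j, ∃ g' : ℝ, HasDerivAt (fun t => g a t i j) g' 0 := by
    intro a ha i j
    have h1 : AnalyticAt ℝ (fun t => MvPolynomial.aeval (fun i => u i t) (p a i j)) 0 :=
      CF.evt_analytic u hu (p a i j)
    have h2 : (fun t => ((g a t i j : ℝ) : ℂ)) =ᶠ[𝓝 0]
        fun t => MvPolynomial.aeval (fun i => u i t) (p a i j) := by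
      filter_upwards [hp a ha] with t ht using ht i j
    have h3 := h1.differentiableAt.hasDerivAt.congr_of_eventuallyEq h2
    exact ⟨_, Complex.reCLM.hasFDerivAt.comp_hasDerivAt (0 : ℝ) h3⟩
  have hdiff' : ∀ a ∈ Kc.facets, ∃ G : Matrix (Fin (m + 4)) (Fin (m + 4)) ℝ,
      ∀ i j, HasDerivAt (fun t => g a t i j) (G i j) 0 := by
    intro a ha
    choose G hG using hdiff a ha
    exact ⟨Matrix.of G, hG⟩
  choose! g' hg' using hdiff'
  have hLor : ∀ a ∈ Kc.facets, ∀ᶠ t in 𝓝 (0 : ℝ), IsLor (d := m + 3) (g a t) := by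
    intro a ha
    filter_upwards [hg] with t ht using (ht a ha).1
  have h0g := hg.self_of_nhds
  have h0ag := hag.self_of_nhds
  -- evaluation of the polynomial matrices
  have hmap : ∀ a ∈ Kc.facets, ∀ᶠ t in 𝓝 (0 : ℝ),
      (p a).map (evr u t) = (g a t).map (rc ℂ) := by
    intro a ha
    filter_upwards [hp a ha] with t ht
    ext i j
    simp only [Matrix.map_apply]
    exact (ht i j).symm
  -- transfer of identities
  have hLK : ∀ a ∈ Kc.facets, IsLor (d := m + 3) ((p a).map ev) ∧ ((p a).map ev).det = 1 := by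
    intro a ha
    exact ⟨transfer_lor u ev hev (hmap a ha) (hLor a ha),
      transfer_det u ev hev (hmap a ha) (by filter_upwards [hg] with t ht using (ht a ha).2.1)⟩
  have hagK : ∀ a ∈ Kc.facets, ∀ b ∈ Kc.facets, ∀ i j, face a i = face b j →
        LinearIndependent ℝ (fun k => ξ (face a i k)) →
        ∀ k, ((p a).map ev).mulVec (toR (ξ (face a i k))) =
          ((p b).map ev).mulVec (toR (ξ (face a i k))) := by
    intro a ha b hb i j hij hli k
    exact transfer_vec u ev hev (hmap a ha) (hmap b hb) _ (by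
      filter_upwards [hag] with t ht using ht a ha b hb i j hij hli k)
  -- reference plates
  set ref : (Fin (m + 2) ↪o Fin N) → (Fin (m + 3) ↪o Fin N) := fun F =>
    if h : ∃ q : (Fin (m + 3) ↪o Fin N) × Fin (m + 3), q.1 ∈ Kc.facets ∧ face q.1 q.2 = F then
      h.choose.1 else a00 with href
  have hrefm : ∀ F, ref F ∈ Kc.facets := by
    intro F
    simp only [href]
    split_ifs with h
    · exact h.choose_spec.1
    · exact ha00
  have hreff : ∀ a ∈ Kc.facets, ∀ j, ∃ j0, face (ref (face a j)) j0 = face a j := by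
    intro a ha j
    have h : ∃ q : (Fin (m + 3) ↪o Fin N) × Fin (m + 3), q.1 ∈ Kc.facets ∧ face q.1 q.2 = face a j :=
      ⟨(a, j), ha, rfl⟩
    refine ⟨h.choose.2, ?_⟩
    simp only [href, dif_pos h]
    exact h.choose_spec.2
  -- the polynomials representing the rotations
  set φ : (Fin (m + 3) ↪o Fin N) → Fin (m + 3) → MvPolynomial ι ℂ := fun a j =>
    if h : LinearIndependent ℝ (fun k => ξ (face a j k)) then
      MvPolynomial.C 2⁻¹ * lf (d := m + 3) ((p a).mulVec fun i => MvPolynomial.C ((Fr _ h).iK ℂ i))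
        ((p (ref (face a j))).mulVec fun i => MvPolynomial.C ((Fr _ h).qK ℂ i)) else 1 with hφ
  -- its images
  have himg : ∀ a j, ∀ h : LinearIndependent ℝ (fun k => ξ (face a j k)), ev (φ a j) =
      2⁻¹ * lf (d := m + 3) (((p a).map ev).mulVec ((Fr _ h).iK 𝕂))
        (((p (ref (face a j))).map ev).mulVec (((Fr _ h).C.map (rc 𝕂)).mulVec (std 𝕂 m).Q)) := by
    intro a j h
    simp only [hφ, dif_pos h]
    rw [map_mul, ev_C, map_inv₀, map_ofNat]
    congr 1
    change (ev : MvPolynomial ι ℂ →+* 𝕂) _ = _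
    rw [map_lf, map_mulVec', map_mulVec', AFrame.map_Q]
    congr 2
    · funext i; exact ev_C ev _
    · funext i; exact ev_C ev _
  have hevt : ∀ a ∈ Kc.facets, ∀ j, ∀ h : LinearIndependent ℝ (fun k => ξ (face a j k)),
      ∀ᶠ t in 𝓝 (0 : ℝ), evr u t (φ a j) =
      2⁻¹ * lf (d := m + 3) (((g a t).map (rc ℂ)).mulVec ((Fr _ h).iK ℂ))
        (((g (ref (face a j)) t).map (rc ℂ)).mulVec ((Fr _ h).qK ℂ)) := by
    intro a ha j h
    filter_upwards [hmap a ha, hmap _ (hrefm (face a j))] with t h1 h2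
    simp only [hφ, dif_pos h]
    rw [map_mul, evr_C, map_lf, map_mulVec', map_mulVec', h1, h2]
    congr 3
    · funext i; exact evr_C u t _
    · funext i; exact evr_C u t _
  -- the rotation at time zero
  have hrot0 : ∀ a ∈ Kc.facets, ∀ j, ∀ h : LinearIndependent ℝ (fun k => ξ (face a j k)),
      evr u 0 (φ a j) ≠ 0 ∧
      ((g a 0).map (rc ℂ)).mulVec ((Fr _ h).iK ℂ) = evr u 0 (φ a j) •
        ((g (ref (face a j)) 0).map (rc ℂ)).mulVec ((Fr _ h).iK ℂ) ∧
      ((g (ref (face a j)) 0).map (rc ℂ)).mulVec ((Fr _ h).qK ℂ) = evr u 0 (φ a j) •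
        ((g a 0).map (rc ℂ)).mulVec ((Fr _ h).qK ℂ) := by
    intro a ha j h
    obtain ⟨j0, hj0⟩ := hreff a ha j
    have hr := hrefm (face a j)
    have h1 := rotation_face ((g a 0).map (rc ℂ)) ((g (ref (face a j)) 0).map (rc ℂ))
      (isLor_map.mpr (h0g a ha).1) (isLor_map.mpr (h0g _ hr).1)
      (by
        have e1 := (rc ℂ).map_det (g a 0)
        have e2 := (rc ℂ).map_det (g (ref (face a j)) 0)
        rw [(h0g a ha).2.1] at e1
        rw [(h0g _ hr).2.1] at e2
        exact e1.symm.trans e2) (Fr _ h) (fun k => by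
        rw [← toR_mulVec, ← toR_mulVec, h0ag a ha _ hr j j0 hj0.symm h k])
    rw [AFrame.map_Q, ← (hevt a ha j h).self_of_nhds] at h1
    exact h1
  -- the derivative of the rotation
  have hder : ∀ a ∈ Kc.facets, ∀ j, ∀ h : LinearIndependent ℝ (fun k => ξ (face a j k)),
      deriv (fun t => evr u t (φ a j)) 0 / evr u 0 (φ a j) = Complex.I *
        (((lf (d := m + 3) ((g' a).mulVec (Fr _ h).n1) ((g a 0).mulVec (Fr _ h).n2) : ℝ) : ℂ) -
        ((lf (d := m + 3) ((g' (ref (face a j))).mulVec (Fr _ h).n1)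
          ((g (ref (face a j)) 0).mulVec (Fr _ h).n2) : ℝ) : ℂ)) := by
    intro a ha j h
    have hr := hrefm (face a j)
    have h1 := (hasDerivAt_lfC (hasDerivAt_mulVecC (hg' a ha) ((Fr _ h).iK ℂ))
      (hasDerivAt_mulVecC (hg' _ hr) ((Fr _ h).qK ℂ))).const_mul (2⁻¹ : ℂ)
    have h2 := h1.congr_of_eventuallyEq (hevt a ha j h)
    rw [h2.deriv]
    obtain ⟨hne0, hP, hQ⟩ := hrot0 a ha j h
    have h3 := omega_eq (hg' a ha) (hLor a ha) (Fr _ h)
    have h4 := omega_eq (hg' _ hr) (hLor _ hr) (Fr _ h)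
    have h5 := lor_derivC (hg' _ hr) (hLor _ hr) ((Fr _ h).iK ℂ) ((Fr _ h).qK ℂ)
    rw [hQ, lf_smul_right, h3, hP, lf_smul_left]
    rw [h4] at h5
    rw [eq_neg_of_add_eq_zero_right h5]
    field_simp
    ring
  -- arithmetic
  set w : (Fin (m + 3) ↪o Fin N) → Fin (m + 3) → ℝ := fun a j =>
    if h : LinearIndependent ℝ (fun k => ξ (face a j k)) then
      (Kc.coeff a : ℝ) * (-1) ^ (j : ℕ) * (Fr (face a j) h).wt else 0 with hw
  have hlog' := hlog ({a // a ∈ Kc.facets} × Fin (m + 3)) (fun q => φ q.1.1 q.2)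
    (fun q => w q.1.1 q.2) (by
      rintro ⟨⟨a, ha⟩, j⟩
      change evr u 0 (φ a j) ≠ 0
      by_cases h : LinearIndependent ℝ (fun k => ξ (face a j k))
      · exact (hrot0 a ha j h).1
      · simp only [hφ, dif_neg h, map_one]; exact one_ne_zero) (by
      intro v
      have h1 := hAT 𝕂 ev hev v (fun F => if h : LinearIndependent ℝ (fun k => ξ (F k)) then
        ((p (ref F)).map ev).mulVec ((Fr F h).iK 𝕂) else 0) (fun a j => ev (φ a j)) hLK hagK (by
          intro a ha j h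
          obtain ⟨j0, hj0⟩ := hreff a ha j
          have hr := hrefm (face a j)
          have h2 := rotation_face ((p a).map ev) ((p (ref (face a j))).map ev)
            (hLK a ha).1 (hLK _ hr).1 ((hLK a ha).2.trans (hLK _ hr).2.symm) (Fr _ h)
            (hagK a ha _ hr j j0 hj0.symm h)
          rw [← himg a j h] at h2
          refine ⟨h2.1, ?_⟩
          rw [dif_pos h]
          exact h2.2.1)
      rw [← h1, Fintype.sum_prod_type, ← Finset.sum_coe_sort Kc.facets]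
      refine Finset.sum_congr rfl fun a _ => Finset.sum_congr rfl fun j _ => ?_
      simp only [hw]
      split_ifs
      · rfl
      · ring)
  -- the sum of the angular velocities
  set ω : (Fin (m + 3) ↪o Fin N) → (Fin (m + 2) ↪o Fin N) → ℝ := fun b F =>
    if h : LinearIndependent ℝ (fun k => ξ (F k)) then
      lf (d := m + 3) ((g' b).mulVec (Fr F h).n1) ((g b 0).mulVec (Fr F h).n2) else 0 with hω
  have hsum : ∑ a ∈ Kc.facets, ∑ j : Fin (m + 3),
      w a j * (ω a (face a j) - ω (ref (face a j)) (face a j)) = 0 := by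
    have h1 : ∀ q : {a // a ∈ Kc.facets} × Fin (m + 3),
        ((w q.1.1 q.2 : ℝ) : ℂ) * (deriv (fun t => MvPolynomial.aeval (fun i => u i t) (φ q.1.1 q.2)) 0 /
          MvPolynomial.aeval (fun i => u i 0) (φ q.1.1 q.2)) =
        Complex.I * ((w q.1.1 q.2 * (ω q.1.1 (face q.1.1 q.2) -
          ω (ref (face q.1.1 q.2)) (face q.1.1 q.2)) : ℝ) : ℂ) := by
      rintro ⟨⟨a, ha⟩, j⟩
      by_cases h : LinearIndependent ℝ (fun k => ξ (face a j k))
      · have h2 := hder a ha j h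
        change ((w a j : ℝ) : ℂ) * (deriv (fun t => evr u t (φ a j)) 0 / evr u 0 (φ a j)) = _
        rw [h2]
        simp only [hω, dif_pos h]
        push_cast
        ring
      · simp only [hw, dif_neg h]
        simp
    rw [Finset.sum_congr rfl fun q _ => h1 q, ← Finset.mul_sum] at hlog'
    have h2 := (mul_eq_zero.mp hlog').resolve_left Complex.I_ne_zero
    rw [← Complex.ofReal_sum, Complex.ofReal_eq_zero] at h2
    rw [← h2, Fintype.sum_prod_type, ← Finset.sum_coe_sort Kc.facets]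
  have hcl : ∑ a ∈ Kc.facets, ∑ j : Fin (m + 3), w a j * ω (ref (face a j)) (face a j) = 0 := by
    have h1 := Kc.sum_eq_zero (R := ℝ) (fun F =>
      if h : LinearIndependent ℝ (fun k => ξ (F k)) then (Fr F h).wt * ω (ref F) F else 0)
    rw [← h1]
    refine Finset.sum_congr rfl fun a _ => Finset.sum_congr rfl fun j _ => ?_
    simp only [hw]
    split_ifs
    · ring
    · ring
  have hfin : ∑ a ∈ Kc.facets, ∑ j : Fin (m + 3), w a j * ω a (face a j) = 0 := by
    have : ∑ a ∈ Kc.facets, ∑ j : Fin (m + 3), w a j * ω a (face a j) =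
        (∑ a ∈ Kc.facets, ∑ j : Fin (m + 3),
          w a j * (ω a (face a j) - ω (ref (face a j)) (face a j))) +
        ∑ a ∈ Kc.facets, ∑ j : Fin (m + 3), w a j * ω (ref (face a j)) (face a j) := by
      rw [← Finset.sum_add_distrib]
      refine Finset.sum_congr rfl fun a _ => ?_
      rw [← Finset.sum_add_distrib]
      exact Finset.sum_congr rfl fun j _ => by ring
    rw [this, hsum, hcl, add_zero]
  -- Schläfli's formula
  have hmain := hasDerivAt_volume Kc ξ hξ hpar o ho Fr g g'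
    (fun a ha => hasDerivAt_entries (hg' a ha)) hg hag
  refine hmain.congr_deriv ?_
  refine neg_eq_zero.mpr (Eq.trans ?_ hfin)
  refine Finset.sum_congr rfl fun a _ => Finset.sum_congr rfl fun j _ => ?_
  simp only [hw, hω]
  split_ifs
  · rfl
  · ring

end Bellows
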