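import Pool.Agent.Bellows.Lf

/-!
# Flexible polyhedra in hyperbolic spaces: definitions

Hyperbolic space `Λⁿ` is used in the projective (Klein) model: its points are the points of the
open unit ball of `ℝⁿ`, the absolute is the unit sphere, geodesic simplices are Euclidean simplices,
isometries are given by Lorentz matrices and the volume element is
`(1 - ‖x‖²)^{-(n+1)/2} dx`. The dimension is `n = m + 3`.
-/

open MeasureTheory

namespace Bellows

/-- Euclidean space containing the projective model of `Λⁿ`. -/
abbrev E (n : ℕ) := EuclideanSpace ℝ (Fin n)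

/-- The vector `(1, p)` of Minkowski space. -/
def lift {n : ℕ} (p : E n) : Fin (n + 1) → ℝ := Fin.cons 1 (fun i => p i)

/-- A Lorentz matrix preserving the future cone: an isometry of `Λⁿ`. -/
structure IsLorentz {n : ℕ} (g : Matrix (Fin (n + 1)) (Fin (n + 1)) ℝ) : Prop where
  form : ∀ x y, lf (g.mulVec x) (g.mulVec y) = lf x y
  future : 0 < g 0 0

/-- The isometry `g` maps the point `p` of the closed ball to the point `q`. -/
def MapsPt {n : ℕ} (g : Matrix (Fin (n + 1)) (Fin (n + 1)) ℝ) (p q : E n) : Prop :=
  ∃ c : ℝ, g.mulVec (lift p) = c • lift q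

/-- The `i`-th face of an ordered simplex. -/
def face {r N : ℕ} (a : Fin (r + 1) ↪o Fin N) (i : Fin (r + 1)) : Fin r ↪o Fin N :=
  (Fin.succAboveOrderEmb i).trans a

/-- A finite simplicial cycle of dimension `r` with integer coefficients. -/
structure Cycle (r N : ℕ) where
  facets : Finset (Fin (r + 1) ↪o Fin N)
  coeff : (Fin (r + 1) ↪o Fin N) → ℤ
  closed : ∀ F : Fin r ↪o Fin N,
    ∑ a ∈ facets, ∑ i : Fin (r + 1), (if face a i = F then (-1) ^ (i : ℕ) * coeff a else 0) = 0

/-- The ray from `x` in direction `d` meets the open simplex with vertices `p`. -/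
def Meets {r : ℕ} (x d : E (r + 1)) (p : Fin (r + 1) → E (r + 1)) : Prop :=
  ∃ s : ℝ, 0 < s ∧ ∃ y : Fin (r + 1) → ℝ, (∀ i, 0 < y i) ∧ ∑ i, y i = 1 ∧
    x + s • d = ∑ i, y i • p i

open Classical in
/-- The intersection index of the ray from `x` in direction `d` with the oriented simplex `p`. -/
noncomputable def index {r : ℕ} (x d : E (r + 1)) (p : Fin (r + 1) → E (r + 1)) : ℤ :=
  if Meets x d p then
    (SignType.sign (Matrix.of (Fin.cons (fun k => d k)
      (fun i : Fin r => fun k => p i.succ k - p 0 k) :
        Fin (r + 1) → Fin (r + 1) → ℝ)).det : ℤ)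
  else 0

/-- The ray from `x` in direction `d ≠ 0` is generic: it misses all faces of codimension two. -/
def Generic {r N : ℕ} (K : Cycle r N) (P : Fin N → E (r + 1)) (x d : E (r + 1)) : Prop :=
  d ≠ 0 ∧ ∀ a ∈ K.facets, ∀ i, ∀ s : ℝ, 0 ≤ s →
    x + s • d ∉ convexHull ℝ (Set.range fun j => P (face a i j))

open Classical in
/-- The algebraic intersection number of a generic ray from `x` with the cycle `P(K)`. -/
noncomputable def lam {r N : ℕ} (K : Cycle r N) (P : Fin N → E (r + 1)) (x : E (r + 1)) : ℤ :=
  if h : ∃ d, Generic K P x d then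
    ∑ a ∈ K.facets, K.coeff a * index x h.choose (fun i => P (a i))
  else 0

/-- The generalised oriented volume of `P(K)`. -/
noncomputable def vol {r N : ℕ} (K : Cycle r N) (P : Fin N → E (r + 1)) : ℝ :=
  ∫ x in Metric.ball (0 : E (r + 1)) 1,
    (lam K P x : ℝ) * (1 - ‖x‖ ^ 2) ^ (-((r : ℝ) + 2) / 2)

/-- A flexion of a polyhedron `P 0` (with vertices in the closed ball, combinatorics given by the
cycle `K`): a continuous family of polyhedra such that every facet stays congruent to itself, i.e.
is moved by an isometry which maps the vertices `P 0 v` to the vertices `P t v`. In dimension three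
(`r = 2`) the facets are moreover hinged along their common edges: if both ends of an edge are
ideal, the isometries of two triangles with this common edge agree on the points of the edge. (This
excludes sliding along such an edge; it is automatic for edges with a finite end. In higher
dimensions it follows for all nondegenerate common faces, and no condition is imposed.) -/
structure IsFlexion {r N : ℕ} (K : Cycle r N) (P : ℝ → Fin N → E (r + 1)) : Prop where
  cont : ∀ v, ContinuousOn (fun t => P t v) (Set.Icc 0 1)
  mem : ∀ t ∈ Set.Icc (0 : ℝ) 1, ∀ v, ‖P t v‖ ≤ 1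
  rigid : ∀ t ∈ Set.Icc (0 : ℝ) 1, ∃ g : (Fin (r + 1) ↪o Fin N) →
      Matrix (Fin (r + 1 + 1)) (Fin (r + 1 + 1)) ℝ,
    (∀ a ∈ K.facets, IsLorentz (g a) ∧ ∀ i, MapsPt (g a) (P 0 (a i)) (P t (a i))) ∧
    (r = 2 → ∀ a ∈ K.facets, ∀ b ∈ K.facets, ∀ i j, face a i = face b j →
      (∀ k, ‖P 0 (face a i k)‖ = 1) →
      ∀ x ∈ convexHull ℝ (Set.range fun k => P 0 (face a i k)), ∀ y,
        MapsPt (g a) x y ↔ MapsPt (g b) x y)

end Bellows
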