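import Pool.Agent.Bellows.Lat

/-!
# Orthonormal families of codimension one over a field
-/

namespace Bellows

open Matrix

theorem lf_eq_sum_sgn {R : Type*} [CommRing R] {d : ℕ} (x y : Fin (d + 1) → R) :
    lf x y = ∑ k, sgn R k * (x k * y k) := by
  rw [Fin.sum_univ_succ]
  unfold lf sgn
  simp [Fin.succ_ne_zero]

/-- the Gram matrix as a product -/
theorem gram_eq_mul {R : Type*} [CommRing R] {d r : ℕ} (x : Fin r → Fin (d + 1) → R) :
    gram x = Matrix.of x * eta R d * (Matrix.of x)ᵀ := by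
  ext i j
  rw [gram, Matrix.of_apply, lf_eq_dotProduct, Matrix.mul_assoc, Matrix.mul_apply, dotProduct]
  refine Finset.sum_congr rfl fun k _ => ?_
  rw [Matrix.of_apply]
  congr 1

variable {k : Type*} [Field k] {m : ℕ}

/-- Orthonormality (Lorentzian) of `m+1` vectors in `k^{m+2}`. -/
def ON (b : Fin (m + 1) → Fin (m + 1 + 1) → k) : Prop :=
  ∀ i j, lf (b i) (b j) = if i = j then sgn k i else 0

theorem det_gram_snoc {b : Fin (m + 1) → Fin (m + 1 + 1) → k} (hb : ON b)
    {y : Fin (m + 1 + 1) → k} (hy : ∀ i, lf (b i) y = 0) :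
    (Matrix.of (Fin.snoc b y : Fin (m + 1 + 1) → Fin (m + 1 + 1) → k)).det ^ 2 = lf y y := by
  have h1 := congrArg Matrix.det (gram_eq_mul (Fin.snoc b y : Fin (m + 1 + 1) → Fin (m + 1 + 1) → k))
  rw [Matrix.det_mul, Matrix.det_mul, Matrix.det_transpose, det_eta] at h1
  have h2 : gram (Fin.snoc b y : Fin (m + 1 + 1) → Fin (m + 1 + 1) → k) =
      Matrix.diagonal (Fin.snoc (fun i : Fin (m + 1) => sgn k i) (lf y y) : Fin (m + 1 + 1) → k) := by
    ext i j
    rw [gram, Matrix.of_apply]
    refine Fin.lastCases ?_ (fun i => ?_) i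
    · refine Fin.lastCases ?_ (fun j => ?_) j
      · simp
      · rw [Fin.snoc_last, Fin.snoc_castSucc, lf_comm, hy, Matrix.diagonal_apply_ne]
        exact (Fin.castSucc_lt_last j).ne'
    · refine Fin.lastCases ?_ (fun j => ?_) j
      · rw [Fin.snoc_last, Fin.snoc_castSucc, hy, Matrix.diagonal_apply_ne]
        exact (Fin.castSucc_lt_last i).ne
      · rw [Fin.snoc_castSucc, Fin.snoc_castSucc, hb]
        by_cases hij : i = j
        · subst hij; simp
        · rw [if_neg hij, Matrix.diagonal_apply_ne]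
          exact fun h => hij (Fin.castSucc_injective _ h)
  rw [h2, Matrix.det_diagonal, Fin.prod_univ_castSucc] at h1
  simp only [Fin.snoc_castSucc, Fin.snoc_last] at h1
  have h3 : ∏ i : Fin (m + 1), sgn k i = -1 := by
    rw [Fin.prod_univ_succ]; unfold sgn; simp [Fin.succ_ne_zero]
  rw [h3] at h1
  linear_combination h1

theorem ON.eq_zero {b : Fin (m + 1) → Fin (m + 1 + 1) → k} (hb : ON b)
    {y : Fin (m + 1 + 1) → k} (hy : ∀ i, lf (b i) y = 0) (hyy : lf y y = 0) : y = 0 := by
  have h1 := det_gram_snoc hb hy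
  rw [hyy] at h1
  have h2 := pow_eq_zero_iff (two_ne_zero) |>.mp h1
  obtain ⟨w, hw0, hw⟩ := Matrix.exists_vecMul_eq_zero_iff.mpr h2
  have h3 : ∑ i : Fin (m + 1), w i.castSucc • b i + w (Fin.last _) • y = 0 := by
    have : Matrix.vecMul w (Matrix.of (Fin.snoc b y : Fin (m + 1 + 1) → Fin (m + 1 + 1) → k)) =
        ∑ i : Fin (m + 1 + 1), w i • (Fin.snoc b y : Fin (m + 1 + 1) → Fin (m + 1 + 1) → k) i := by
      funext j
      simp [Matrix.vecMul, dotProduct, Finset.sum_apply]
    rw [hw, Fin.sum_univ_castSucc] at this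
    simp only [Fin.snoc_castSucc, Fin.snoc_last] at this
    exact this.symm
  have h4 : ∀ j : Fin (m + 1), w j.castSucc = 0 := by
    intro j
    have := congrArg (fun z => lf (b j) z) h3
    simp only [lf_add_right, lf_sum_right, lf_smul_right, hy, mul_zero, add_zero, lf_zero_right] at this
    rw [Finset.sum_eq_single j] at this
    · rw [hb, if_pos rfl] at this
      have h5 := congrArg (fun z => sgn k j * z) this
      simp only [mul_zero] at h5
      rw [mul_comm (w _), ← mul_assoc, sgn_mul_sgn, one_mul] at h5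
      exact h5
    · intro i _ hij
      rw [hb, if_neg (Ne.symm hij), mul_zero]
    · simp
  have h5 : w (Fin.last _) ≠ 0 := by
    intro h
    apply hw0
    funext i
    exact Fin.lastCases h h4 i
  simp only [h4, zero_smul, Finset.sum_const_zero, zero_add] at h3
  exact (smul_eq_zero.mp h3).resolve_left h5

/-- A unit normal vector. -/
theorem ON.exists_normal {b : Fin (m + 1) → Fin (m + 1 + 1) → k} (hb : ON b) :
    ∃ ν : Fin (m + 1 + 1) → k, (∀ i, lf (b i) ν = 0) ∧ lf ν ν = 1 := by
  -- a nonzero normal vector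
  have h0 : (Matrix.of (Fin.snoc b 0 : Fin (m + 1 + 1) → Fin (m + 1 + 1) → k) * eta k (m + 1)).det = 0 := by
    rw [Matrix.det_mul, Matrix.det_eq_zero_of_row_eq_zero (Fin.last _), zero_mul]
    intro j; simp
  obtain ⟨y, hy0, hy⟩ := Matrix.exists_mulVec_eq_zero_iff.mpr h0
  have h1 : ∀ i, lf (b i) y = 0 := by
    intro i
    have := congrFun hy i.castSucc
    rw [← Matrix.mulVec_mulVec] at this
    rw [lf_eq_dotProduct]
    simpa [Matrix.mulVec, dotProduct] using this
  have h2 := det_gram_snoc hb h1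
  set δ := (Matrix.of (Fin.snoc b y : Fin (m + 1 + 1) → Fin (m + 1 + 1) → k)).det with hδ
  have h3 : δ ≠ 0 := by
    intro h
    rw [h] at h2
    exact hy0 (hb.eq_zero h1 (by rw [← h2]; ring))
  refine ⟨δ⁻¹ • y, fun i => by rw [lf_smul_right, h1, mul_zero], ?_⟩
  rw [lf_smul_left, lf_smul_right, ← h2]
  field_simp

/-- Completion to a Lorentz matrix. -/
theorem ON.exists_lor {b : Fin (m + 1) → Fin (m + 1 + 1) → k} (hb : ON b) :
    ∃ T : Matrix (Fin (m + 1 + 1)) (Fin (m + 1 + 1)) k, IsLor T ∧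
      ∀ i : Fin (m + 1), T.mulVec (Pi.single i.castSucc 1) = b i := by
  obtain ⟨ν, h1, h2⟩ := hb.exists_normal
  refine ⟨(Matrix.of (Fin.snoc b ν : Fin (m + 1 + 1) → Fin (m + 1 + 1) → k))ᵀ, ?_, fun i => ?_⟩
  · rw [isLor_iff, Matrix.transpose_transpose, ← gram_eq_mul]
    ext i j
    rw [gram, Matrix.of_apply, eta]
    refine Fin.lastCases ?_ (fun i => ?_) i
    · refine Fin.lastCases ?_ (fun j => ?_) j
      · rw [Fin.snoc_last, h2, Matrix.diagonal_apply_eq, if_neg (Fin.last_pos.ne')]
      · rw [Fin.snoc_last, Fin.snoc_castSucc, lf_comm, h1, Matrix.diagonal_apply_ne]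
        exact (Fin.castSucc_lt_last j).ne'
    · refine Fin.lastCases ?_ (fun j => ?_) j
      · rw [Fin.snoc_last, Fin.snoc_castSucc, h1, Matrix.diagonal_apply_ne]
        exact (Fin.castSucc_lt_last i).ne
      · rw [Fin.snoc_castSucc, Fin.snoc_castSucc, hb]
        by_cases hij : i = j
        · subst hij
          rw [if_pos rfl, Matrix.diagonal_apply_eq]
          unfold sgn
          simp only [Fin.castSucc_eq_zero_iff]
        · rw [if_neg hij, Matrix.diagonal_apply_ne]
          exact fun h => hij (Fin.castSucc_injective _ h)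
  · funext j
    simp

end Bellows
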