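import Mathlib

/-!
# M1: countable range of a function on an analytic set
-/

open Topology Filter Set

namespace Bellows.M1

theorem eventually_zero_of_iteratedFDeriv {E : Type*} [NormedAddCommGroup E] [NormedSpace ℝ E]
    {f : E → ℝ} {x : E} (hf : AnalyticAt ℝ f x) (h0 : ∀ n, iteratedFDeriv ℝ n f x = 0) :
    f =ᶠ[𝓝 x] 0 := by
  obtain ⟨p, r, hp⟩ := hf
  have hmem : Metric.eball x r ∈ 𝓝 x := Metric.eball_mem_nhds x hp.r_pos
  filter_upwards [hmem] with y hy
  have hy' : y - x ∈ Metric.eball (0 : E) r := by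
    simpa [Metric.mem_eball, edist_eq_enorm_sub] using hy
  have hs := hp.hasSum_iteratedFDeriv hy'
  simp only [h0, _root_.zero_apply, smul_zero, add_sub_cancel] at hs
  simpa using (hs.unique hasSum_zero)

/-- the family of iterated derivatives along basis vectors -/
noncomputable def der {E : Type*} [NormedAddCommGroup E] [NormedSpace ℝ E] {κ : Type*}
    (b : κ → E) (f : E → ℝ) (p : Σ n : ℕ, (Fin n → κ)) : E → ℝ :=
  fun y => iteratedFDeriv ℝ p.1 f y (fun j => b (p.2 j))

theorem exists_der {E : Type*} [NormedAddCommGroup E] [NormedSpace ℝ E] {κ : Type*} [Finite κ]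
    (b : Module.Basis κ ℝ E) {f : E → ℝ} {B : Set E} (hB : IsOpen B)
    (hBc : IsPreconnected B) (hf : AnalyticOnNhd ℝ f B) {y0 : E} (hy0 : y0 ∈ B) (hfy0 : f y0 ≠ 0)
    {x : E} (hx : x ∈ B) (hfx : f x = 0) :
    ∃ p, der b f p x = 0 ∧ fderiv ℝ (der b f p) x ≠ 0 := by
  classical
  have h1 : ¬ (∀ n, iteratedFDeriv ℝ n f x = 0) := by
    intro h
    have := hf.eqOn_zero_of_preconnected_of_eventuallyEq_zero hBc hx
      (eventually_zero_of_iteratedFDeriv (hf x hx) h)
    exact hfy0 (this hy0)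
  push Not at h1
  let n := Nat.find h1
  have hn : iteratedFDeriv ℝ n f x ≠ 0 := Nat.find_spec h1
  have hlt : ∀ m < n, iteratedFDeriv ℝ m f x = 0 := fun m hm => by
    simpa using Nat.find_min h1 hm
  have hn0 : n ≠ 0 := by
    intro h
    apply hn
    rw [h]
    ext v
    simpa using hfx
  obtain ⟨k, hk⟩ := Nat.exists_eq_succ_of_ne_zero hn0
  rw [hk] at hn
  have hex : ∃ m : Fin (k+1) → κ, iteratedFDeriv ℝ (k+1) f x (fun j => b (m j)) ≠ 0 := by
    by_contra hcon
    push Not at hcon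
    apply hn
    have : (iteratedFDeriv ℝ (k+1) f x).toMultilinearMap = 0 := by
      refine Module.Basis.ext_multilinear (fun _ => b) ?_
      intro v
      simpa using hcon v
    ext v
    have := congrArg (fun g => g v) this
    simpa using this
  obtain ⟨m, hm⟩ := hex
  refine ⟨⟨k, fun j => m j.succ⟩, ?_, ?_⟩
  · simp only [der]
    rw [hlt k (by omega)]
    simp
  · intro hzero
    apply hm
    rw [iteratedFDeriv_succ_apply_left]
    have hd : DifferentiableAt ℝ (iteratedFDeriv ℝ k f) x :=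
      ((hf.iteratedFDeriv_of_isOpen hB k) x hx).differentiableAt
    have h2 : fderiv ℝ (der b f ⟨k, fun j => m j.succ⟩) x (b (m 0)) = 0 := by
      rw [hzero]; simp
    have h3 : HasFDerivAt (der b f ⟨k, fun j => m j.succ⟩)
        ((ContinuousMultilinearMap.apply ℝ (fun _ : Fin k => E) ℝ
          (fun j => b (m j.succ))).comp (fderiv ℝ (iteratedFDeriv ℝ k f) x)) x := by
      exact ((ContinuousMultilinearMap.apply ℝ (fun _ : Fin k => E) ℝ
          (fun j => b (m j.succ))).hasFDerivAt.comp x hd.hasFDerivAt)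
    rw [h3.fderiv] at h2
    exact h2

theorem analytic_der {E : Type*} [NormedAddCommGroup E] [NormedSpace ℝ E] {κ : Type*}
    (b : κ → E) {f : E → ℝ} {B : Set E} (hB : IsOpen B)
    (hf : AnalyticOnNhd ℝ f B) (p : Σ n : ℕ, (Fin n → κ)) : AnalyticOnNhd ℝ (der b f p) B := by
  intro x hx
  have h1 := (hf.iteratedFDeriv_of_isOpen hB p.1) x hx
  exact (ContinuousLinearMap.analyticAt (ContinuousMultilinearMap.apply ℝ (fun _ : Fin p.1 => E) ℝ
          (fun j => b (p.2 j))) _).comp h1

theorem exists_chart {E : Type*} [NormedAddCommGroup E] [NormedSpace ℝ E]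
    [FiniteDimensional ℝ E] {h : E → ℝ} {x : E} (hh : AnalyticAt ℝ h x) (hx : h x = 0)
    (hd : fderiv ℝ h x ≠ 0) {B : Set E} (hB : IsOpen B) (hxB : x ∈ B) :
    ∃ (W : Set (LinearMap.ker (fderiv ℝ h x : E →ₗ[ℝ] ℝ)))
      (φ : LinearMap.ker (fderiv ℝ h x : E →ₗ[ℝ] ℝ) → E),
      IsOpen W ∧ AnalyticOnNhd ℝ φ W ∧ MapsTo φ W B ∧
      ∃ V ∈ 𝓝 x, ∀ y ∈ V, h y = 0 → ∃ k ∈ W, φ k = y := by
  set L : E →L[ℝ] ℝ := fderiv ℝ h x with hL
  obtain ⟨v, hv⟩ : ∃ v, L v ≠ 0 := by
    by_contra hcon
    push Not at hcon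
    exact hd (ContinuousLinearMap.ext (by simpa using hcon))
  let K := LinearMap.ker (L : E →ₗ[ℝ] ℝ)
  let c := L v
  let p0 : E →L[ℝ] E := ContinuousLinearMap.id ℝ E -
    (ContinuousLinearMap.toSpanSingleton ℝ v).comp (c⁻¹ • L)
  have hp0 : ∀ w, p0 w = w - (c⁻¹ * L w) • v := fun w => by simp [p0, mul_smul]
  let π : E →L[ℝ] K := p0.codRestrict K (by
    intro w
    simp only [K, LinearMap.mem_ker, ContinuousLinearMap.coe_coe, hp0, map_sub, map_smul,
      smul_eq_mul]
    have : c⁻¹ * L w * L v = L w := by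
      show (L v)⁻¹ * L w * L v = L w
      field_simp
    rw [this, sub_self])
  have hπ : ∀ w, ((π w : K) : E) = w - (c⁻¹ * L w) • v := fun w => hp0 w
  let inv : ℝ × K →L[ℝ] E := K.subtypeL.comp (ContinuousLinearMap.snd ℝ ℝ K) +
    (ContinuousLinearMap.toSpanSingleton ℝ v).comp (c⁻¹ • ContinuousLinearMap.fst ℝ ℝ K)
  have hinv : ∀ z : ℝ × K, inv z = (z.2 : E) + (c⁻¹ * z.1) • v := fun z => by simp [inv, mul_smul]
  have hl : Function.LeftInverse inv (L.prod π) := by
    intro w
    rw [hinv]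
    simp only [ContinuousLinearMap.prod_apply, hπ]
    abel
  have hr : Function.RightInverse inv (L.prod π) := by
    intro z
    have hz : L (z.2 : E) = 0 := by
      have := z.2.2
      simpa [K] using this
    have hLv : L (inv z) = z.1 := by
      rw [hinv, map_add, hz, map_smul, smul_eq_mul, zero_add]
      show (L v)⁻¹ * z.1 * L v = z.1
      field_simp
    ext
    · exact hLv
    · simp only [ContinuousLinearMap.prod_apply, hπ, hLv]
      rw [hinv]
      abel
  let e : E ≃L[ℝ] ℝ × K := ContinuousLinearEquiv.equivOfInverse (L.prod π) inv hl hr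
  let G : E → ℝ × K := fun y => (h y, π (y - x))
  have hGa : AnalyticAt ℝ G x := by
    refine hh.prod ?_
    exact (π.analyticAt _).comp (analyticAt_id.sub analyticAt_const)
  have hG : HasStrictFDerivAt G (e : E →L[ℝ] ℝ × K) x := by
    have h1 : HasStrictFDerivAt h L x := hh.hasStrictFDerivAt
    have h2 : HasStrictFDerivAt (fun y => π (y - x)) π x := by
      have h3 : HasStrictFDerivAt (fun y : E => y - x) (ContinuousLinearMap.id ℝ E) x :=
        (hasStrictFDerivAt_id x).sub_const x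
      have := π.hasStrictFDerivAt.comp x h3
      simpa using this
    exact h1.prodMk h2
  let Ψ := hG.toOpenPartialHomeomorph G
  have hΨ : (Ψ : E → ℝ × K) = G := hG.toOpenPartialHomeomorph_coe
  have hxs : x ∈ Ψ.source := hG.mem_toOpenPartialHomeomorph_source
  have hGx : G x = 0 := by
    simp [G, hx]
  have hsa : AnalyticAt ℝ Ψ.symm (G x) := by
    have := Ψ.analyticAt_symm' (a := x) (i := e) hxs (by rw [hΨ]; exact hGa)
      (by rw [hΨ]; exact hG.hasFDerivAt.fderiv)
    rwa [hΨ] at this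
  have hev : ∀ᶠ z in 𝓝 (G x), AnalyticAt ℝ Ψ.symm z ∧ Ψ.symm z ∈ B := by
    refine hsa.eventually_analyticAt.and ?_
    have : ContinuousAt Ψ.symm (G x) := hsa.continuousAt
    apply this.preimage_mem_nhds
    have h4 : Ψ.symm (G x) = x := by
      rw [← hΨ]; exact Ψ.left_inv hxs
    rw [h4]
    exact hB.mem_nhds hxB
  obtain ⟨Ω, hΩ1, hΩo, hΩx⟩ := mem_nhds_iff.mp hev
  refine ⟨(fun k : K => ((0 : ℝ), k)) ⁻¹' Ω, fun k => Ψ.symm (0, k), ?_, ?_, ?_, ?_⟩
  · exact hΩo.preimage (by fun_prop)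
  · intro k hk
    exact (hΩ1 hk).1.comp (g := Ψ.symm) (f := fun k : K => ((0 : ℝ), k))
      (analyticAt_const.prod analyticAt_id)
  · intro k hk
    exact (hΩ1 hk).2
  · refine ⟨Ψ.source ∩ G ⁻¹' Ω, ?_, ?_⟩
    · refine inter_mem (Ψ.open_source.mem_nhds hxs) ?_
      exact hGa.continuousAt.preimage_mem_nhds (hΩo.mem_nhds hΩx)
    · intro y hy hy0
      have hGy : G y = (0, π (y - x)) := by simp [G, hy0]
      refine ⟨π (y - x), ?_, ?_⟩
      · show (0, π (y - x)) ∈ Ω
        rw [← hGy]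
        exact hy.2
      · show Ψ.symm (0, π (y - x)) = y
        rw [← hGy, ← hΨ]
        exact Ψ.left_inv hy.1

theorem countable_image_of_local {E β : Type*} [TopologicalSpace E] [SecondCountableTopology E]
    {X : Set E} {F : E → β} (h : ∀ x ∈ X, ∃ V ∈ 𝓝 x, (F '' (X ∩ V)).Countable) :
    (F '' X).Countable := by
  classical
  choose! V hV hc using h
  obtain ⟨t, htX, htc, hcov⟩ := TopologicalSpace.countable_cover_nhdsWithin (f := V) (s := X)
    (fun x hx => mem_nhdsWithin_of_mem_nhds (hV x hx))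
  have : F '' X ⊆ ⋃ x ∈ t, F '' (X ∩ V x) := by
    rintro _ ⟨y, hy, rfl⟩
    obtain ⟨x, hx, hyx⟩ := mem_iUnion₂.mp (hcov hy)
    exact mem_iUnion₂.mpr ⟨x, hx, ⟨y, ⟨hy, hyx⟩, rfl⟩⟩
  exact (htc.biUnion (fun x hx => hc x (htX hx))).mono this

universe u v

theorem main (n : ℕ) : ∀ (E : Type u) [NormedAddCommGroup E] [NormedSpace ℝ E]
    [FiniteDimensional ℝ E] (ι : Type v) (_ : Module.finrank ℝ E = n)
    (U : Set E) (_ : IsOpen U) (f : ι → E → ℝ)
    (_ : ∀ i, AnalyticOnNhd ℝ (f i) U) (F : E → ℝ) (_ : DifferentiableOn ℝ F U)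
    (_ : ∀ γ : ℝ → E, AnalyticAt ℝ γ 0 → (∀ᶠ t in 𝓝 (0 : ℝ), γ t ∈ U ∧ ∀ i, f i (γ t) = 0) →
      deriv (fun t => F (γ t)) 0 = 0),
    (F '' {x ∈ U | ∀ i, f i x = 0}).Countable := by
  induction n with
  | zero =>
    intro E _ _ _ ι hn U hU f hf F hF hcurve
    have : Subsingleton E := Module.finrank_zero_iff.mp hn
    exact (Set.subsingleton_of_subsingleton.image F).countable
  | succ n ih =>
    intro E _ _ _ ι hn U hU f hf F hF hcurve
    set X := {x ∈ U | ∀ i, f i x = 0} with hX
    apply countable_image_of_local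
    intro x0 hx0
    obtain ⟨r, hr, hrU⟩ := Metric.isOpen_iff.mp hU x0 hx0.1
    set B := Metric.ball x0 r with hB
    have hBo : IsOpen B := Metric.isOpen_ball
    refine ⟨B, Metric.ball_mem_nhds x0 hr, ?_⟩
    by_cases hall : ∀ i, ∀ y ∈ B, f i y = 0
    · -- F is constant on B
      have hder : ∀ y ∈ B, fderiv ℝ F y = 0 := by
        intro y hy
        ext w
        have hd : DifferentiableAt ℝ F y := (hF y (hrU hy)).differentiableAt (hU.mem_nhds (hrU hy))
        have hγ : AnalyticAt ℝ (fun t : ℝ => y + t • w) 0 := by fun_prop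
        have hc0 : ContinuousAt (fun t : ℝ => y + t • w) 0 := hγ.continuousAt
        have hev : ∀ᶠ t in 𝓝 (0 : ℝ), y + t • w ∈ B := by
          apply hc0.preimage_mem_nhds
          simpa using hBo.mem_nhds hy
        have h1 := hcurve (fun t => y + t • w) hγ (hev.mono (fun t ht =>
          ⟨hrU ht, fun i => hall i _ ht⟩))
        have h2 : HasDerivAt (fun t : ℝ => F (y + t • w)) (fderiv ℝ F y w) 0 := by
          have h3 : HasDerivAt (fun t : ℝ => y + t • w) w 0 := by
            simpa using ((hasDerivAt_id (0 : ℝ)).smul_const w).const_add y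
          have h4 : HasFDerivAt F (fderiv ℝ F y) (y + (0 : ℝ) • w) := by
            simpa using hd.hasFDerivAt
          exact h4.comp_hasDerivAt (0 : ℝ) h3
        rw [h2.deriv] at h1
        simpa using h1
      have hconst : ∀ y ∈ B, F y = F x0 := by
        intro y hy
        exact hBo.is_const_of_fderiv_eq_zero (convex_ball x0 r).isPreconnected
          (hF.mono hrU) (fun z hz => hder z hz) hy (Metric.mem_ball_self hr)
      refine (Set.countable_singleton (F x0)).mono ?_
      rintro _ ⟨y, hy, rfl⟩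
      exact hconst y hy.2
    · push Not at hall
      obtain ⟨i, y0, hy0, hfy0⟩ := hall
      let b := Module.finBasis ℝ E
      have hfi : AnalyticOnNhd ℝ (f i) B := (hf i).mono hrU
      have hsub : F '' (X ∩ B) ⊆ ⋃ p : (Σ n : ℕ, (Fin n → Fin (Module.finrank ℝ E))),
          F '' {x | (x ∈ X ∧ x ∈ B) ∧ der b (f i) p x = 0 ∧ fderiv ℝ (der b (f i) p) x ≠ 0} := by
        rintro _ ⟨y, hy, rfl⟩
        obtain ⟨p, hp1, hp2⟩ := exists_der b hBo (convex_ball x0 r).isPreconnected hfi hy0 hfy0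
          hy.2 (hy.1.2 i)
        exact mem_iUnion.mpr ⟨p, ⟨y, ⟨hy, hp1, hp2⟩, rfl⟩⟩
      refine (Set.countable_iUnion (fun p => ?_)).mono hsub
      apply countable_image_of_local
      rintro x ⟨⟨hxX, hxB⟩, hhx, hdx⟩
      have hha := analytic_der (fun j => b j) hBo hfi p x hxB
      obtain ⟨W, φ, hWo, hφ, hφB, V, hV, hVφ⟩ := exists_chart hha hhx hdx hBo hxB
      refine ⟨V, hV, ?_⟩
      have hrank : Module.finrank ℝ
          (LinearMap.ker (fderiv ℝ (der b (f i) p) x : E →ₗ[ℝ] ℝ)) = n := by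
        have h1 := LinearMap.finrank_range_add_finrank_ker
          (fderiv ℝ (der b (f i) p) x : E →ₗ[ℝ] ℝ)
        have h2 : LinearMap.range (fderiv ℝ (der b (f i) p) x : E →ₗ[ℝ] ℝ) = ⊤ := by
          apply LinearMap.range_eq_top.mpr
          apply LinearMap.surjective
          intro h3
          apply hdx
          ext w
          exact congrArg (fun g => g w) h3
        rw [h2, finrank_top, Module.finrank_self] at h1
        have h4 := h1.trans hn
        omega
      have key := ih (LinearMap.ker (fderiv ℝ (der b (f i) p) x : E →ₗ[ℝ] ℝ)) ι hrank W hWo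
        (fun j k => f j (φ k))
        (fun j k hk => ((hf j) (φ k) (hrU (hφB hk))).comp (hφ k hk))
        (fun k => F (φ k))
        (by
          intro k hk
          have h1 : DifferentiableAt ℝ F (φ k) :=
            (hF _ (hrU (hφB hk))).differentiableAt (hU.mem_nhds (hrU (hφB hk)))
          exact (h1.comp k (hφ k hk).differentiableAt).differentiableWithinAt)
        (by
          intro γ hγ hev
          have h0 : γ 0 ∈ W := (hev.self_of_nhds).1
          refine hcurve (fun t => φ (γ t)) ((hφ _ h0).comp hγ) ?_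
          filter_upwards [hev] with t ht
          exact ⟨hrU (hφB ht.1), ht.2⟩)
      refine key.mono ?_
      rintro _ ⟨y, ⟨⟨⟨hyX, hyB⟩, hy0', -⟩, hyV⟩, rfl⟩
      obtain ⟨k, hk, hky⟩ := hVφ y hyV hy0'
      refine ⟨k, ⟨hk, ?_⟩, ?_⟩
      · intro j
        show f j (φ k) = 0
        rw [hky]
        exact hyX.2 j
      · show F (φ k) = F y
        rw [hky]

end Bellows.M1

/-- M1: a differentiable function which has zero derivative along all analytic curves in an
analytic set takes only countably many values on it. -/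
theorem countable_image_analytic_set {E : Type*} [NormedAddCommGroup E] [NormedSpace ℝ E]
    [FiniteDimensional ℝ E] {ι : Type*} (U : Set E) (hU : IsOpen U) (f : ι → E → ℝ)
    (hf : ∀ i, AnalyticOnNhd ℝ (f i) U) (F : E → ℝ) (hF : DifferentiableOn ℝ F U)
    (hcurve : ∀ γ : ℝ → E, AnalyticAt ℝ γ 0 → (∀ᶠ t in 𝓝 (0 : ℝ), γ t ∈ U ∧ ∀ i, f i (γ t) = 0) →
      deriv (fun t => F (γ t)) 0 = 0) :
    (F '' {x ∈ U | ∀ i, f i x = 0}).Countable :=
  Bellows.M1.main (Module.finrank ℝ E) E ι rfl U hU f hf F hF hcurve
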