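import Pool.Agent.Bellows.M11d
import Pool.Agent.Bellows.M1
import Pool.Agent.Bellows.M8

/-!
# From curves to constancy of the volume
-/

namespace Bellows

open Matrix MeasureTheory Topology

variable {m N : ℕ}

theorem IsLor.inv_zero {d : ℕ} {g : Matrix (Fin (d + 1)) (Fin (d + 1)) ℝ} (hg : IsLor g) :
    g⁻¹ 0 0 = g 0 0 := by
  rw [hg.inv_eq, eta, Matrix.mul_diagonal, Matrix.diagonal_mul]
  simp

/-- The general scheme: a parametrisation of the configurations by an analytic set. -/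
theorem final_core (K : Cycle (m + 2) N) (P : ℝ → Fin N → E (m + 3)) (hP : IsFlexion K P)
    {E' : Type} [NormedAddCommGroup E'] [NormedSpace ℝ E'] [FiniteDimensional ℝ E'] {ι' : Type}
    (f : ι' → E' → ℝ) (hf : ∀ i, AnalyticOnNhd ℝ (f i) Set.univ)
    (G : {a // a ∈ K.facets} → E' → Matrix (Fin (m + 4)) (Fin (m + 4)) ℝ)
    (hG : ∀ a i j, Differentiable ℝ (fun A => G a A i j))
    (hlor : ∀ A, (∀ i, f i A = 0) → ∀ a, IsLor (d := m + 3) (G a A))
    (hcurve : ∀ γ : ℝ → E', AnalyticAt ℝ γ 0 →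
      (∀ᶠ t in 𝓝 (0 : ℝ), (∀ i, f i (γ t) = 0) ∧ ∀ a, 0 < G a (γ t) 0 0) →
      HasDerivAt (fun t => ∑ a : {a // a ∈ K.facets}, (K.coeff a : ℝ) *
        S (d := m + 3) (Fin.cons ((G a (γ t))⁻¹.mulVec (Pi.single 0 1))
          (fun i => nv (P 0 (a.1 i))))) 0 0)
    (hsurj : ∀ t ∈ Set.Icc (0 : ℝ) 1, ∃ A, (∀ i, f i A = 0) ∧ ∀ a : {a // a ∈ K.facets},
      (G a A).det = 1 ∧ 0 < G a A 0 0 ∧
      ∀ i, ∃ c : ℝ, 0 < c ∧ (G a A).mulVec (nv (P 0 (a.1 i))) = c • lift (P t (a.1 i))) :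
    ∀ t ∈ Set.Icc (0 : ℝ) 1, vol K (P t) = vol K (P 0) := by
  classical
  set o : Fin (m + 3 + 1) → ℝ := Pi.single 0 1 with ho
  have hoT : FT o := FT.single
  have h01 : (0 : ℝ) ∈ Set.Icc (0 : ℝ) 1 := ⟨le_rfl, zero_le_one⟩
  have hFC : ∀ v, FC (d := m + 3) (nv (P 0 v)) := fun v => nv_FC _ (hP.mem 0 h01 v)
  -- the point moved by the inverse isometry
  set zf : {a // a ∈ K.facets} → E' → Fin (m + 3 + 1) → ℝ := fun a A =>
    (eta ℝ (m + 3) * (G a A)ᵀ * eta ℝ (m + 3)).mulVec o with hzf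
  have hzd : ∀ a, Differentiable ℝ (zf a) := by
    intro a
    rw [differentiable_pi]
    intro i
    have : (fun A => zf a A i) = fun A => (if i = 0 then (-1 : ℝ) else 1) * G a A 0 i * (-1) := by
      funext A
      simp only [hzf, ho, Matrix.mulVec_single_one, Matrix.col_apply, eta, Matrix.mul_diagonal,
        Matrix.diagonal_mul, Matrix.transpose_apply, if_true]
    rw [this]
    exact ((hG a 0 i).const_mul _).mul_const _
  have hzinv : ∀ A, (∀ i, f i A = 0) → ∀ a, zf a A = (G a A)⁻¹.mulVec o := by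
    intro A hA a
    rw [(hlor A hA a).inv_eq]
  set U : Set E' := {A | ∀ a, FT (zf a A)} with hU
  have hUo : IsOpen U := by
    have : U = ⋂ a, zf a ⁻¹' {z | FT z} := by ext A; simp [hU]
    rw [this]
    exact isOpen_iInter_of_finite fun a => (isOpen_FT8 (d := m + 3)).preimage (hzd a).continuous
  set F : E' → ℝ := fun A => ∑ a : {a // a ∈ K.facets}, (K.coeff a : ℝ) *
    S (d := m + 3) (Fin.cons (zf a A) (fun i => nv (P 0 (a.1 i)))) with hF
  have hFd : DifferentiableOn ℝ F U := by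
    intro A hA
    apply DifferentiableAt.differentiableWithinAt
    refine DifferentiableAt.fun_sum fun a _ => DifferentiableAt.const_mul ?_ _
    by_cases hli : LinearIndependent ℝ (fun i => (nv (P 0 (a.1 i)) : Fin (m + 4) → ℝ))
    · obtain ⟨L, hL, -⟩ := hasFDerivAt_S (m := m) (fun i => nv (P 0 (a.1 i))) hli
        (fun i => hFC _) (zf a A) (hA a)
      exact hL.differentiableAt.comp A (hzd a A)
    · have : (fun A => S (d := m + 3) (Fin.cons (zf a A) (fun i => nv (P 0 (a.1 i))))) =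
          fun _ => 0 := by
        funext A'
        unfold S
        have h0 : (Matrix.of (Fin.cons (zf a A') (fun i => nv (P 0 (a.1 i))) :
            Fin (m + 3 + 1) → Fin (m + 3 + 1) → ℝ)).det = 0 := by
          by_contra hd
          have h1 := Matrix.linearIndependent_rows_of_det_ne_zero hd
          exact hli (h1.comp Fin.succ (Fin.succ_injective _))
        rw [h0, zero_mul]
      rw [this]; exact differentiableAt_const _
  have hcount := countable_image_analytic_set U hUo f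
    (fun i => (hf i).mono (Set.subset_univ _)) F hFd (by
    intro γ hγ hev
    have hev2 : ∀ᶠ t in 𝓝 (0 : ℝ), (∀ i, f i (γ t) = 0) ∧ ∀ a, 0 < G a (γ t) 0 0 := by
      filter_upwards [hev] with t ht
      refine ⟨ht.2, fun a => ?_⟩
      have h1 := hlor _ ht.2 a
      have h2 : FT (zf a (γ t)) := ht.1 a
      rw [hzinv _ ht.2 a] at h2
      have h3 := h1.inv.fut_of_ft (x := o) hoT.fc h2.fc
      rwa [h1.inv_zero] at h3
    have h1 := hcurve γ hγ hev2
    have h2 : (fun t => F (γ t)) =ᶠ[𝓝 0] fun t => ∑ a : {a // a ∈ K.facets}, (K.coeff a : ℝ) *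
        S (d := m + 3) (Fin.cons ((G a (γ t))⁻¹.mulVec (Pi.single 0 1))
          (fun i => nv (P 0 (a.1 i)))) := by
      filter_upwards [hev] with t ht
      simp only [hF]
      refine Finset.sum_congr rfl fun a _ => ?_
      rw [hzinv _ ht.2 a]
    exact (h1.congr_of_eventuallyEq h2).deriv)
  -- the values of the volume
  have hval : ∀ t ∈ Set.Icc (0 : ℝ) 1, Cn (m + 2) * vol K (P t) ∈ F '' {x ∈ U | ∀ i, f i x = 0} := by
    intro t ht
    obtain ⟨A, hA, hA2⟩ := hsurj t ht
    have hl := hlor A hA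
    refine ⟨A, ⟨fun a => ?_, hA⟩, ?_⟩
    · rw [hzinv A hA a]
      exact (hl a).inv.ft (by rw [(hl a).inv_zero]; exact (hA2 a).2.1) hoT
    · have h1 := vol_config K P hP t ht o hoT
        (fun a => if h : a ∈ K.facets then G ⟨a, h⟩ A else 1) (by
          intro a ha
          simp only [dif_pos ha]
          exact ⟨hl _, (hA2 ⟨a, ha⟩).1, (hA2 ⟨a, ha⟩).2.1, (hA2 ⟨a, ha⟩).2.2⟩)
      rw [h1, hF, ← Finset.sum_coe_sort K.facets]
      refine Finset.sum_congr rfl fun a _ => ?_
      rw [hzinv A hA a]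
      simp only [dif_pos a.2]
  -- continuity
  have hcont := continuousOn_vol K P hP
  have hsub : ((fun t => Cn (m + 2) * vol K (P t)) '' Set.Icc (0 : ℝ) 1).Countable :=
    hcount.mono (by rintro _ ⟨t, ht, rfl⟩; exact hval t ht)
  have hpre : IsPreconnected ((fun t => Cn (m + 2) * vol K (P t)) '' Set.Icc (0 : ℝ) 1) :=
    isPreconnected_Icc.image _ (continuousOn_const.mul hcont)
  intro t ht
  have h2 := hsub.isTotallyDisconnected _ subset_rfl hpre ⟨t, ht, rfl⟩ ⟨0, h01, rfl⟩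
  exact mul_left_cancel₀ (Cn_pos _).ne' h2

end Bellows
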