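import Pool.Agent.Bellows.Core
import Pool.Agent.Bellows.Causal

/-!
# Bellows: reflections and adapted Lorentz frames
-/

open Matrix

namespace Bellows

variable {d : ℕ}

/-- The Lorentz reflection in the hyperplane orthogonal to `w`. -/
noncomputable def refl (w : Fin (d + 1) → ℝ) : Matrix (Fin (d + 1)) (Fin (d + 1)) ℝ :=
  1 - (2 / lf w w) • vecMulVec w ((eta ℝ d).mulVec w)

theorem refl_mulVec (w x : Fin (d + 1) → ℝ) :
    (refl w).mulVec x = x - (2 / lf w w * lf w x) • w := by
  rw [refl, Matrix.sub_mulVec, Matrix.one_mulVec, Matrix.smul_mulVec, Matrix.vecMulVec_mulVec]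
  have h : (eta ℝ d).mulVec w ⬝ᵥ x = lf w x := by
    rw [dotProduct_comm, ← lf_eq_dotProduct, lf_comm]
  rw [h]
  funext i
  simp
  ring

theorem refl_isLor {w : Fin (d + 1) → ℝ} (hw : lf w w ≠ 0) : IsLor (refl w) := by
  intro x y
  rw [refl_mulVec, refl_mulVec]
  simp only [lf_sub_left, lf_sub_right, lf_smul_left, lf_smul_right, lf_comm x w]
  field_simp
  ring

theorem refl_det {w : Fin (d + 1) → ℝ} (hw : lf w w ≠ 0) : (refl w).det = -1 := by
  have h : refl w = 1 + Matrix.replicateCol Unit (-(2 / lf w w) • w) *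
      Matrix.replicateRow Unit ((eta ℝ d).mulVec w) := by
    ext i j
    simp [refl, Matrix.mul_apply, vecMulVec_apply, Matrix.replicateCol_apply,
      Matrix.replicateRow_apply]
    ring
  rw [h, Matrix.det_one_add_replicateCol_mul_replicateRow]
  have h2 : (eta ℝ d).mulVec w ⬝ᵥ (-(2 / lf w w) • w) = -2 := by
    rw [dotProduct_comm, ← lf_eq_dotProduct, lf_smul_left]
    field_simp
  rw [h2]; norm_num

theorem refl_fix {w x : Fin (d + 1) → ℝ} (hx : lf w x = 0) : (refl w).mulVec x = x := by
  rw [refl_mulVec, hx]; simp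

/-- a nonzero vector orthogonal to a timelike vector is spacelike -/
theorem spacelike_of_orth {o w : Fin (d + 1) → ℝ} (ho : FT o) (hw : w ≠ 0) (h : lf o w = 0) :
    0 < lf w w := by
  by_contra hc
  push Not at hc
  rcases lt_trichotomy (w 0) 0 with h0 | h0 | h0
  · have h4 : FC (-w) := ⟨by rw [lf_neg_left, lf_neg_right, neg_neg]; exact hc, by simpa using h0⟩
    have := ho.lf_neg h4
    rw [lf_neg_right, h] at this
    simp at this
  · apply hw
    have h6 : lf w w = ∑ i : Fin d, w i.succ ^ 2 := by
      unfold lf; rw [h0]; simp [sq]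
    rw [h6] at hc
    have h7 := (Finset.sum_eq_zero_iff_of_nonneg fun i _ => sq_nonneg _).mp
      (le_antisymm hc (Finset.sum_nonneg fun i _ => sq_nonneg _))
    funext i
    refine Fin.cases h0 (fun i => ?_) i
    exact pow_eq_zero_iff two_ne_zero |>.mp (h7 i (Finset.mem_univ _))
  · have := ho.lf_neg (y := w) ⟨hc, h0⟩
    rw [h] at this
    exact absurd this (lt_irrefl _)

/-- `d` vectors have a nonzero common orthogonal vector -/
theorem exists_orth (x : Fin d → Fin (d + 1) → ℝ) :
    ∃ w : Fin (d + 1) → ℝ, w ≠ 0 ∧ ∀ i, lf w (x i) = 0 := by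
  let L : (Fin (d + 1) → ℝ) →ₗ[ℝ] (Fin d → ℝ) :=
    { toFun := fun w i => lf w (x i)
      map_add' := fun a b => by funext i; simp [lf_add_left]
      map_smul' := fun c a => by funext i; simp [lf_smul_left] }
  have h : LinearMap.ker L ≠ ⊥ := LinearMap.ker_ne_bot_of_finrank_lt (by simp)
  obtain ⟨w, hw, hw0⟩ := (Submodule.ne_bot_iff _).mp h
  refine ⟨w, hw0, fun i => ?_⟩
  exact congrFun (LinearMap.mem_ker.mp hw) i

/-- M9b: a reflection fixing `d` vectors of the closed future cone. -/
theorem exists_reflection {d : ℕ} (hd : 2 ≤ d) (x : Fin d → Fin (d + 1) → ℝ) (hx : ∀ i, FC (x i)) :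
    ∃ g : Matrix (Fin (d + 1)) (Fin (d + 1)) ℝ, IsLor g ∧ g.det = -1 ∧ 0 < g 0 0 ∧
      ∀ i, g.mulVec (x i) = x i := by
  -- a spacelike vector orthogonal to all `x i`
  obtain ⟨w, hw, hwx⟩ : ∃ w : Fin (d + 1) → ℝ, 0 < lf w w ∧ ∀ i, lf w (x i) = 0 := by
    by_cases hli : LinearIndependent ℝ x
    · obtain ⟨w, hw0, hw⟩ := exists_orth x
      refine ⟨w, ?_, hw⟩
      have h01 : (⟨0, by omega⟩ : Fin d) ≠ ⟨1, by omega⟩ := by simp [Fin.ext_iff]
      have hneg := indep_lf_neg hx hli _ _ h01
      have ho : FT (x ⟨0, by omega⟩ + x ⟨1, by omega⟩) := by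
        refine ⟨?_, ?_⟩
        · rw [lf_add_left, lf_add_right, lf_add_right, lf_comm (x ⟨1, by omega⟩)]
          have h1 := (hx ⟨0, by omega⟩).1
          have h2 := (hx ⟨1, by omega⟩).1
          linarith
        · exact add_pos (hx _).2 (hx _).2
      refine spacelike_of_orth ho hw0 ?_
      rw [lf_add_left, lf_comm _ w, lf_comm _ w, hw, hw, add_zero]
    · -- some vector is a combination of the others
      rw [Fintype.linearIndependent_iff] at hli
      push Not at hli
      obtain ⟨g, hg, i, hi⟩ := hli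
      obtain ⟨w, hw0, hw⟩ := exists_orth (Function.update x i (Pi.single 0 1))
      have hwe : lf (Pi.single 0 1) w = 0 := by
        have := hw i
        rw [Function.update_self] at this
        rw [lf_comm]; exact this
      have hwj : ∀ j, j ≠ i → lf w (x j) = 0 := by
        intro j hj
        have := hw j
        rwa [Function.update_of_ne hj] at this
      refine ⟨w, spacelike_of_orth FT.single hw0 hwe, fun j => ?_⟩
      by_cases hj : j = i
      · subst hj
        have h1 : lf w (∑ k, g k • x k) = g j * lf w (x j) := by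
          rw [lf_sum_right, Finset.sum_eq_single j]
          · rw [lf_smul_right]
          · intro k _ hk
            rw [lf_smul_right, hwj k hk, mul_zero]
          · simp
        rw [hg, lf_zero_right] at h1
        rcases mul_eq_zero.mp h1.symm with h | h
        · exact absurd h hi
        · exact h
      · exact hwj j hj
  refine ⟨refl w, refl_isLor hw.ne', refl_det hw.ne', ?_, fun i => refl_fix (hwx i)⟩
  have h0 := hx ⟨0, by omega⟩
  refine (refl_isLor hw.ne').fut_of_ft h0 ?_
  rw [refl_fix (hwx _)]; exact h0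

/-- a Lorentz matrix moving a timelike vector to the time axis -/
theorem exists_boost {o : Fin (d + 1) → ℝ} (ho : FT o) :
    ∃ g : Matrix (Fin (d + 1)) (Fin (d + 1)) ℝ, IsLor g ∧ 0 < g 0 0 ∧
      ∀ i : Fin d, g.mulVec o i.succ = 0 := by
  set s := Real.sqrt (-lf o o) with hs
  have hs0 : 0 < s := Real.sqrt_pos.mpr (by linarith [ho.1])
  have hs2 : s ^ 2 = -lf o o := Real.sq_sqrt (by linarith [ho.1])
  have he : lf (Pi.single 0 1 : Fin (d + 1) → ℝ) (Pi.single 0 1) = -1 := by
    rw [lf_single_left]; simp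
  have heo : lf (Pi.single 0 1 : Fin (d + 1) → ℝ) o = - o 0 := by
    rw [lf_single_left]; simp
  by_cases hw : o = s • (Pi.single 0 1 : Fin (d + 1) → ℝ)
  · refine ⟨1, ?_, by simp, fun i => ?_⟩
    · intro x y; rw [Matrix.one_mulVec, Matrix.one_mulVec]
    · rw [Matrix.one_mulVec, hw]
      simp
  · -- `w = o - s e₀` is not null
    set w := o - s • (Pi.single 0 1 : Fin (d + 1) → ℝ) with hwd
    have hw0 : w ≠ 0 := fun h => hw (sub_eq_zero.mp h)
    have hww : lf w w = 2 * s * (o 0 - s) := by
      rw [hwd]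
      simp only [lf_sub_left, lf_sub_right, lf_smul_left, lf_smul_right, he, heo,
        lf_comm o (Pi.single 0 1)]
      have : lf o o = - s ^ 2 := by linarith
      rw [this]; ring
    have hwo : lf w o = s * (o 0 - s) := by
      rw [hwd]
      simp only [lf_sub_left, lf_smul_left, heo]
      have : lf o o = - s ^ 2 := by linarith
      rw [this]; ring
    have hos : o 0 - s ≠ 0 := by
      intro h
      apply hw0
      -- the spatial part vanishes
      have h1 : lf o o = - (o 0) ^ 2 + ∑ i : Fin d, o i.succ ^ 2 := by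
        unfold lf; simp [sq]
      have h2 : ∑ i : Fin d, o i.succ ^ 2 = 0 := by
        have : o 0 = s := by linarith
        rw [this, hs2] at h1
        linarith
      have h7 := (Finset.sum_eq_zero_iff_of_nonneg fun i _ => sq_nonneg _).mp h2
      funext i
      refine Fin.cases ?_ (fun i => ?_) i
      · simp [hwd, h]
      · have := pow_eq_zero_iff two_ne_zero |>.mp (h7 i (Finset.mem_univ _))
        simp [hwd, this]
    have hww0 : lf w w ≠ 0 := by
      rw [hww]; exact mul_ne_zero (mul_ne_zero two_ne_zero hs0.ne') hos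
    have himg : (refl w).mulVec o = s • (Pi.single 0 1 : Fin (d + 1) → ℝ) := by
      rw [refl_mulVec]
      have : 2 / lf w w * lf w o = 1 := by
        rw [hww, hwo]; field_simp
      rw [this, one_smul, hwd]; abel
    refine ⟨refl w, refl_isLor hww0, ?_, fun i => ?_⟩
    · refine (refl_isLor hww0).fut_of_ft ho.fc ?_
      rw [himg]
      exact FT.single.fc.smul hs0
    · rw [himg]; simp

/-- extension of a `d × d` matrix to a Lorentz matrix -/
def blk (U : Fin d → Fin d → ℝ) : Matrix (Fin (d + 1)) (Fin (d + 1)) ℝ :=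
  Matrix.of (Fin.cons (Fin.cons 1 (fun _ => 0)) (fun i => Fin.cons 0 (fun j => U i j)))

theorem blk_mulVec_zero (U : Fin d → Fin d → ℝ) (x : Fin (d + 1) → ℝ) :
    (blk U).mulVec x 0 = x 0 := by
  simp [Matrix.mulVec, dotProduct, Fin.sum_univ_succ, blk]

theorem blk_mulVec_succ (U : Fin d → Fin d → ℝ) (x : Fin (d + 1) → ℝ) (i : Fin d) :
    (blk U).mulVec x i.succ = ∑ j : Fin d, U i j * x j.succ := by
  simp [Matrix.mulVec, dotProduct, Fin.sum_univ_succ, blk]

theorem blk_isLor (b : OrthonormalBasis (Fin d) ℝ (EuclideanSpace ℝ (Fin d))) :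
    IsLor (blk fun i j => b j i) := by
  intro x y
  unfold lf
  rw [blk_mulVec_zero, blk_mulVec_zero]
  congr 1
  simp only [blk_mulVec_succ]
  have h : ∀ x : Fin (d + 1) → ℝ, ∀ i : Fin d,
      (∑ j : Fin d, b j i * x j.succ) = (∑ j : Fin d, x j.succ • b j) i := by
    intro x i
    simp [mul_comm]
  have h2 : ∑ i : Fin d, (∑ j : Fin d, b j i * x j.succ) * (∑ j : Fin d, b j i * y j.succ) =
      inner ℝ (∑ j : Fin d, x j.succ • b j) (∑ j : Fin d, y j.succ • b j) := by
    rw [PiLp.inner_apply]
    refine Finset.sum_congr rfl fun i _ => ?_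
    rw [h, h]
    simp [mul_comm]
  rw [h2]
  rw [sum_inner]
  refine Finset.sum_congr rfl fun i _ => ?_
  rw [inner_sum, Finset.sum_eq_single i]
  · simp [inner_smul_left, inner_smul_right, mul_comm]
  · intro j _ hj
    rw [inner_smul_left, inner_smul_right, b.inner_eq_zero (Ne.symm hj)]
    simp
  · simp

theorem diag_isLor {ε : Fin (d + 1) → ℝ} (hε : ∀ i, ε i ^ 2 = 1) : IsLor (Matrix.diagonal ε) := by
  intro x y
  unfold lf
  simp only [Matrix.mulVec_diagonal]
  have : ∀ i, ε i * x i * (ε i * y i) = x i * y i := by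
    intro i
    have := hε i
    calc ε i * x i * (ε i * y i) = ε i ^ 2 * (x i * y i) := by ring
      _ = x i * y i := by rw [this, one_mul]
  simp [this]

theorem IsLor.det_sq {C : Matrix (Fin (d + 1)) (Fin (d + 1)) ℝ} (hC : IsLor C) : C.det ^ 2 = 1 := by
  have h := congrArg Matrix.det hC.transpose_mul
  rw [Matrix.det_mul, Matrix.det_mul, Matrix.det_transpose, det_eta] at h
  nlinarith

/-- Frames without the normalisation of the signs. -/
theorem exists_frame0 {r d : ℕ} (hr : 2 ≤ r) (hrd : r ≤ d) (x : Fin r → Fin (d + 1) → ℝ)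
    (hx : ∀ i, FC (x i)) (hli : LinearIndependent ℝ x) :
    ∃ C : Matrix (Fin (d + 1)) (Fin (d + 1)) ℝ, IsLor C ∧ 0 < C 0 0 ∧
      ∃ c : Fin r → Fin (d + 1) → ℝ, (∀ v, C.mulVec (c v) = x v) ∧
        ∀ v (k : Fin (d + 1)), r ≤ (k : ℕ) → c v k = 0 := by
  have h01 : (⟨0, by omega⟩ : Fin r) ≠ ⟨1, by omega⟩ := by simp [Fin.ext_iff]
  have hneg := indep_lf_neg hx hli _ _ h01
  have ho : FT (x ⟨0, by omega⟩ + x ⟨1, by omega⟩) := by
    refine ⟨?_, ?_⟩
    · rw [lf_add_left, lf_add_right, lf_add_right, lf_comm (x ⟨1, by omega⟩)]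
      have h1 := (hx ⟨0, by omega⟩).1
      have h2 := (hx ⟨1, by omega⟩).1
      linarith
    · exact add_pos (hx _).2 (hx _).2
  obtain ⟨g, hg, hg0, hgo⟩ := exists_boost ho
  -- spatial parts
  let sp : (Fin (d + 1) → ℝ) → EuclideanSpace ℝ (Fin d) := fun y => WithLp.toLp 2 fun i => y i.succ
  let f : Fin d → EuclideanSpace ℝ (Fin d) := fun i =>
    if h : (i : ℕ) + 1 < r then sp (g.mulVec (x ⟨i + 1, h⟩)) else 0
  have hfin : Module.finrank ℝ (EuclideanSpace ℝ (Fin d)) = Fintype.card (Fin d) := by simp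
  let b := InnerProductSpace.gramSchmidtOrthonormalBasis hfin f
  have hspan : ∀ v : Fin r, ∀ k : Fin d, r ≤ (k : ℕ) + 1 →
      b.repr (sp (g.mulVec (x v))) k = 0 := by
    -- first for `v ≥ 1`
    have h1 : ∀ v : Fin r, (v : ℕ) ≠ 0 → ∀ k : Fin d, r ≤ (k : ℕ) + 1 →
        b.repr (sp (g.mulVec (x v))) k = 0 := by
      intro v hv k hk
      have hv' : ((⟨(v : ℕ) - 1, by omega⟩ : Fin d) : ℕ) + 1 < r := by
        simp only; omega
      have h2 : f ⟨(v : ℕ) - 1, by omega⟩ = sp (g.mulVec (x v)) := by
        simp only [f]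
        rw [dif_pos hv']
        congr 3
        apply Fin.ext
        simp only; omega
      rw [← h2]
      apply InnerProductSpace.gramSchmidtOrthonormalBasis_inv_triangular'
      rw [Fin.lt_def]
      simp only; omega
    intro v k hk
    by_cases hv : (v : ℕ) = 0
    · have hv0 : v = ⟨0, by omega⟩ := Fin.ext hv
      have h3 : sp (g.mulVec (x v)) = - sp (g.mulVec (x ⟨1, by omega⟩)) := by
        rw [hv0]
        ext i
        have := hgo i
        rw [Matrix.mulVec_add, Pi.add_apply] at this
        simp only [sp, PiLp.neg_apply]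
        linarith
      rw [h3, map_neg, PiLp.neg_apply, h1 ⟨1, by omega⟩ (by simp) k hk, neg_zero]
    · exact h1 v hv k hk
  refine ⟨g⁻¹ * blk (fun i j => b j i), hg.inv.mul (blk_isLor b), ?_,
    fun v => Fin.cons (g.mulVec (x v) 0) (fun j => b.repr (sp (g.mulVec (x v))) j), ?_, ?_⟩
  · have h1 : (g⁻¹ * blk (fun i j => b j i)) 0 0 = g⁻¹ 0 0 := by
      rw [Matrix.mul_apply, Fin.sum_univ_succ]
      simp [blk]
    rw [h1]
    refine hg.inv.fut_of_ft (x := g.mulVec (x ⟨0, by omega⟩)) (hg.fc hg0 (hx _)) ?_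
    rw [hg.inv_mulVec]
    exact hx _
  · intro v
    rw [← Matrix.mulVec_mulVec]
    have h1 : (blk (fun i j => b j i)).mulVec
        (Fin.cons (g.mulVec (x v) 0) (fun j => b.repr (sp (g.mulVec (x v))) j)) =
        g.mulVec (x v) := by
      funext i
      refine Fin.cases ?_ (fun i => ?_) i
      · rw [blk_mulVec_zero]; simp
      · rw [blk_mulVec_succ]
        have h2 := congrArg (fun z : EuclideanSpace ℝ (Fin d) => z i)
          (b.sum_repr (sp (g.mulVec (x v))))
        simp only [Fin.cons_succ]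
        simp only [WithLp.ofLp_sum, WithLp.ofLp_smul, Finset.sum_apply, Pi.smul_apply,
          smul_eq_mul] at h2
        calc ∑ j : Fin d, b j i * b.repr (sp (g.mulVec (x v))) j =
            ∑ j : Fin d, b.repr (sp (g.mulVec (x v))) j * b j i :=
              Finset.sum_congr rfl fun j _ => mul_comm _ _
          _ = g.mulVec (x v) i.succ := h2
    rw [h1, hg.inv_mulVec]
  · intro v k hk
    revert hk
    refine Fin.cases ?_ (fun k => ?_) k
    · intro hk; simp at hk; omega
    · intro hk
      simp only [Fin.cons_succ]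
      exact hspan v k (by simpa using hk)

/-- M9a: Gram-Schmidt: adapted Lorentz frames exist (note `r ≤ d`, one column is left to fix the
signs of the determinants). -/
theorem exists_aframe {r d : ℕ} (hr : 2 ≤ r) (hrd : r ≤ d) (x : Fin r → Fin (d + 1) → ℝ)
    (hx : ∀ i, FC (x i)) (hli : LinearIndependent ℝ x) :
    Nonempty (AFrame (show r ≤ d + 1 by omega) x) := by
  obtain ⟨C, hC, hC0, cf, hcf, hcf0⟩ := exists_frame0 hr hrd x hx hli
  have hle : r ≤ d + 1 := by omega
  let c : Matrix (Fin r) (Fin r) ℝ := Matrix.of fun v k => cf v (Fin.castLE hle k)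
  -- expansions
  have hexp : ∀ v i, x v i = ∑ k : Fin r, c v k * C i (Fin.castLE hle k) := by
    intro v i
    rw [← hcf v, Matrix.mulVec, dotProduct]
    have h1 : ∑ k : Fin (d + 1), C i k * cf v k =
        ∑ k ∈ Finset.univ.image (Fin.castLE hle), C i k * cf v k := by
      symm
      apply Finset.sum_subset (Finset.subset_univ _)
      intro k _ hk
      have : r ≤ (k : ℕ) := by
        by_contra hc
        push Not at hc
        apply hk
        rw [Finset.mem_image]
        exact ⟨⟨k, hc⟩, Finset.mem_univ _, by apply Fin.ext; simp⟩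
      rw [hcf0 v k this, mul_zero]
    rw [h1, Finset.sum_image (fun a _ b _ h => Fin.castLE_injective hle h)]
    exact Finset.sum_congr rfl fun k _ => mul_comm _ _
  have hcdet : c.det ≠ 0 := by
    intro h0
    obtain ⟨w, hw0, hw⟩ := Matrix.exists_vecMul_eq_zero_iff.mpr h0
    apply hw0
    have h1 : ∑ v, w v • x v = 0 := by
      funext i
      rw [Finset.sum_apply]
      simp only [Pi.smul_apply, smul_eq_mul, hexp, Finset.mul_sum]
      rw [Finset.sum_comm]
      apply Finset.sum_eq_zero
      intro k _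
      have := congrFun hw k
      simp only [Matrix.vecMul, dotProduct, Pi.zero_apply] at this
      have h2 : ∑ v, w v * (c v k * C i (Fin.castLE hle k)) =
          (∑ v, w v * c v k) * C i (Fin.castLE hle k) := by
        rw [Finset.sum_mul]
        exact Finset.sum_congr rfl fun v _ => by ring
      rw [h2, this, zero_mul]
    funext v
    exact Fintype.linearIndependent_iff.mp hli w h1 v
  -- signs
  obtain ⟨s, hs2, hs⟩ : ∃ s : ℝ, s ^ 2 = 1 ∧ 0 < c.det * s := by
    rcases lt_or_gt_of_ne hcdet with h | h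
    · exact ⟨-1, by norm_num, by linarith⟩
    · exact ⟨1, by norm_num, by linarith⟩
  have hCd := hC.det_sq
  let i1 : Fin (d + 1) := ⟨1, by omega⟩
  let id : Fin (d + 1) := ⟨d, by omega⟩
  have hne : i1 ≠ id := by
    intro h
    have := congrArg Fin.val h
    simp only [i1, id] at this
    omega
  let ε : Fin (d + 1) → ℝ := fun k => if k = i1 then s else if k = id then s * C.det else 1
  have hε : ∀ i, ε i ^ 2 = 1 := by
    intro i
    simp only [ε]
    split_ifs
    · exact hs2
    · rw [mul_pow, hs2, hCd, one_mul]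
    · norm_num
  have hprod : ∏ i, ε i = C.det := by
    have h1 : ∀ i, ε i = (if i = i1 then s else 1) * (if i = id then s * C.det else 1) := by
      intro i
      simp only [ε]
      split_ifs with h1 h2 h2
      · exact absurd (h1.symm.trans h2) hne
      · ring
      · ring
      · ring
    simp only [h1, Finset.prod_mul_distrib, Finset.prod_ite_eq', Finset.mem_univ, if_true]
    calc s * (s * C.det) = s ^ 2 * C.det := by ring
      _ = C.det := by rw [hs2, one_mul]
  let k1 : Fin r := ⟨1, by omega⟩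
  have hεc : ∀ k : Fin r, ε (Fin.castLE hle k) = if k = k1 then s else 1 := by
    intro k
    have h1 : (Fin.castLE hle k = i1) ↔ k = k1 := by
      simp [Fin.ext_iff, i1, k1]
    have h2 : ¬ (Fin.castLE hle k = id) := by
      simp only [Fin.ext_iff, id, Fin.val_castLE]
      omega
    simp only [ε]
    rw [if_neg h2]
    by_cases h : k = k1
    · rw [if_pos (h1.mpr h), if_pos h]
    · rw [if_neg (fun h' => h (h1.mp h')), if_neg h]
  refine ⟨⟨C * Matrix.diagonal ε, hC.mul (diag_isLor hε), ?_, ?_,
    c * Matrix.diagonal (fun k => ε (Fin.castLE hle k)), ?_, ?_⟩⟩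
  · rw [Matrix.mul_diagonal]
    have : ε 0 = 1 := by
      have h1 : (0 : Fin (d + 1)) ≠ i1 := by
        intro h
        have := congrArg Fin.val h
        simp [i1] at this
      have h2 : (0 : Fin (d + 1)) ≠ id := by
        intro h
        have := congrArg Fin.val h
        simp [id] at this
        omega
      simp only [ε]
      rw [if_neg h1, if_neg h2]
    rw [this, mul_one]; exact hC0
  · rw [Matrix.det_mul, Matrix.det_diagonal, hprod, ← sq, hCd]
  · intro v i
    rw [hexp]
    refine Finset.sum_congr rfl fun k _ => ?_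
    rw [Matrix.mul_diagonal, Matrix.mul_diagonal]
    have := hε (Fin.castLE hle k)
    calc c v k * C i (Fin.castLE hle k) =
        (ε (Fin.castLE hle k)) ^ 2 * (c v k * C i (Fin.castLE hle k)) := by rw [this, one_mul]
      _ = _ := by ring
  · rw [Matrix.det_mul, Matrix.det_diagonal]
    have : ∏ k : Fin r, ε (Fin.castLE hle k) = s := by
      simp only [hεc, Finset.prod_ite_eq', Finset.mem_univ, if_true]
    rw [this]; exact hs

end Bellows
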