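import Pool.Agent.Bellows.Final1
import Pool.Agent.Bellows.Curve3
import Pool.Agent.Bellows.ATn2
import Pool.Agent.Bellows.M9a

/-!
# Constancy of the volume in dimension at least four
-/

namespace Bellows

open Matrix MeasureTheory Topology

variable {m N : ℕ}

theorem nv_par {n : ℕ} (p q : E n) (hp : ‖p‖ ≤ 1) (hq : ‖q‖ ≤ 1)
    (h : (nv q) 0 • nv p = (nv p) 0 • nv q) : nv p = nv q := by
  have hp0 := (nv_FC p hp).2
  have hq0 := (nv_FC q hq).2
  have h1 : (nv q) 0 * ((nv q) 0 * lf (nv p) (nv p)) = (nv p) 0 * ((nv p) 0 * lf (nv q) (nv q)) := by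
    rw [← lf_smul_right, ← lf_smul_left, ← lf_smul_right, ← lf_smul_left, h]
  have key : (nv q) 0 = (nv p) 0 := by
    rcases nv_norm p hp with h2 | ⟨h2, h2'⟩ <;> rcases nv_norm q hq with h3 | ⟨h3, h3'⟩
    · rw [h2, h3] at h1
      nlinarith
    · rw [h2, h3] at h1
      nlinarith
    · rw [h2, h3] at h1
      nlinarith
    · rw [h2', h3']
  rw [key] at h
  exact smul_right_injective _ hp0.ne' h

section analytic

variable {E' : Type} [NormedAddCommGroup E'] [NormedSpace ℝ E']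

/-- Matrices with analytic entries. -/
def AnMat {d : ℕ} (M : E' → Matrix (Fin d) (Fin d) ℝ) : Prop :=
  ∀ i j, AnalyticOnNhd ℝ (fun A => M A i j) Set.univ

theorem AnMat.const {d : ℕ} (M : Matrix (Fin d) (Fin d) ℝ) : AnMat (fun _ : E' => M) :=
  fun _ _ => analyticOnNhd_const

theorem AnMat.mul {d : ℕ} {M M' : E' → Matrix (Fin d) (Fin d) ℝ} (h : AnMat M) (h' : AnMat M') :
    AnMat (fun A => M A * M' A) := by
  intro i j
  simp only [Matrix.mul_apply]
  exact Finset.analyticOnNhd_fun_sum _ fun k _ => (h i k).mul (h' k j)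

theorem AnMat.transpose {d : ℕ} {M : E' → Matrix (Fin d) (Fin d) ℝ} (h : AnMat M) :
    AnMat (fun A => (M A)ᵀ) := fun i j => h j i

theorem AnMat.sub {d : ℕ} {M M' : E' → Matrix (Fin d) (Fin d) ℝ} (h : AnMat M) (h' : AnMat M') :
    AnMat (fun A => M A - M' A) := fun i j => (h i j).sub (h' i j)

theorem AnMat.det {d : ℕ} {M : E' → Matrix (Fin d) (Fin d) ℝ} (h : AnMat M) :
    AnalyticOnNhd ℝ (fun A => (M A).det) Set.univ := by
  simp only [Matrix.det_apply']
  exact Finset.analyticOnNhd_fun_sum _ fun σ _ => analyticOnNhd_const.mul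
    (Finset.analyticOnNhd_fun_prod _ fun k _ => h _ _)

theorem AnMat.mulVec {d : ℕ} {M : E' → Matrix (Fin d) (Fin d) ℝ} (h : AnMat M) (x : Fin d → ℝ)
    (i : Fin d) : AnalyticOnNhd ℝ (fun A => (M A).mulVec x i) Set.univ := by
  simp only [Matrix.mulVec, dotProduct]
  exact Finset.analyticOnNhd_fun_sum _ fun k _ => (h i k).mul analyticOnNhd_const

end analytic

theorem volume_const_n (hm : 1 ≤ m) (K : Cycle (m + 2) N) (P : ℝ → Fin N → E (m + 3))
    (hP : IsFlexion K P) : ∀ t ∈ Set.Icc (0 : ℝ) 1, vol K (P t) = vol K (P 0) := by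
  classical
  have h01 : (0 : ℝ) ∈ Set.Icc (0 : ℝ) 1 := ⟨le_rfl, zero_le_one⟩
  set ξ : Fin N → Fin (m + 4) → ℝ := fun v => nv (P 0 v) with hξd
  have hξ : ∀ v, FC (d := m + 3) (ξ v) := fun v => nv_FC _ (hP.mem 0 h01 v)
  have hpar : ∀ v w, (ξ w) 0 • ξ v = (ξ v) 0 • ξ w → ξ v = ξ w := fun v w h =>
    nv_par _ _ (hP.mem 0 h01 v) (hP.mem 0 h01 w) h
  have Fr : ∀ F : Fin (m + 2) ↪o Fin N, LinearIndependent ℝ (fun k => ξ (F k)) →
      AFrame (show m + 2 ≤ m + 3 + 1 by omega) (fun k => ξ (F k)) := fun F h =>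
    (exists_aframe (by omega) (by omega) (fun k => ξ (F k)) (fun k => hξ _) h).some
  -- the parameter space
  set G : {a // a ∈ K.facets} → ({a // a ∈ K.facets} → Fin (m + 4) → Fin (m + 4) → ℝ) →
      Matrix (Fin (m + 4)) (Fin (m + 4)) ℝ := fun a A => Matrix.of (A a) with hG
  set L : {a // a ∈ K.facets} → Fin (m + 4) → Fin (m + 4) →
      ({a // a ∈ K.facets} → Fin (m + 4) → Fin (m + 4) → ℝ) →L[ℝ] ℝ := fun a i j =>
    (ContinuousLinearMap.proj (R := ℝ) (φ := fun _ : Fin (m + 4) => ℝ) j).comp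
      ((ContinuousLinearMap.proj (R := ℝ) (φ := fun _ : Fin (m + 4) => Fin (m + 4) → ℝ) i).comp
      (ContinuousLinearMap.proj (R := ℝ)
        (φ := fun _ : {a // a ∈ K.facets} => Fin (m + 4) → Fin (m + 4) → ℝ) a)) with hL
  have hLa : ∀ a i j A, L a i j A = A a i j := fun _ _ _ _ => rfl
  have hGan : ∀ a, AnMat (G a) := fun a i j => (L a i j).analyticOnNhd _
  set f : (({a // a ∈ K.facets} × Fin (m + 4) × Fin (m + 4)) ⊕ ({a // a ∈ K.facets} ⊕
      (({a // a ∈ K.facets} × {a // a ∈ K.facets}) × (Fin (m + 3) × Fin (m + 3)) ×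
        Fin (m + 2) × Fin (m + 4)))) →
      ({a // a ∈ K.facets} → Fin (m + 4) → Fin (m + 4) → ℝ) → ℝ :=
    Sum.elim (fun x A => ((G x.1 A)ᵀ * eta ℝ (m + 3) * G x.1 A - eta ℝ (m + 3)) x.2.1 x.2.2)
      (Sum.elim (fun a A => (G a A).det - 1)
        (fun x A => if face x.1.1.1 x.2.1.1 = face x.1.2.1 x.2.1.2 ∧
            LinearIndependent ℝ (fun k => ξ (face x.1.1.1 x.2.1.1 k)) then
          (G x.1.1 A).mulVec (ξ (face x.1.1.1 x.2.1.1 x.2.2.1)) x.2.2.2 -
          (G x.1.2 A).mulVec (ξ (face x.1.1.1 x.2.1.1 x.2.2.1)) x.2.2.2 else 0)) with hf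
  have hfan : ∀ i, AnalyticOnNhd ℝ (f i) Set.univ := by
    rintro (x | a | x)
    · exact (((hGan x.1).transpose.mul (AnMat.const _)).mul (hGan x.1)).sub (AnMat.const _) _ _
    · exact (hGan a).det.sub analyticOnNhd_const
    · simp only [hf, Sum.elim_inr]
      by_cases hc : face x.1.1.1 x.2.1.1 = face x.1.2.1 x.2.1.2 ∧
            LinearIndependent ℝ (fun k => ξ (face x.1.1.1 x.2.1.1 k))
      · simp only [if_pos hc]
        exact ((hGan _).mulVec _ _).sub ((hGan _).mulVec _ _)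
      · simp only [if_neg hc]
        exact analyticOnNhd_const
  -- meaning of the constraints
  have hflor : ∀ A, (∀ i, f i A = 0) → ∀ a, IsLor (d := m + 3) (G a A) := by
    intro A hA a
    rw [isLor_iff]
    ext i j
    have := hA (Sum.inl (a, i, j))
    simp only [hf, Sum.elim_inl, Matrix.sub_apply] at this
    linarith
  have hfdet : ∀ A, (∀ i, f i A = 0) → ∀ a, (G a A).det = 1 := by
    intro A hA a
    have := hA (Sum.inr (Sum.inl a))
    simp only [hf, Sum.elim_inl, Sum.elim_inr] at this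
    linarith
  have hfag : ∀ A, (∀ i, f i A = 0) → ∀ a b : {a // a ∈ K.facets}, ∀ i j,
      face a.1 i = face b.1 j → LinearIndependent ℝ (fun k => ξ (face a.1 i k)) →
      ∀ k, (G a A).mulVec (ξ (face a.1 i k)) = (G b A).mulVec (ξ (face a.1 i k)) := by
    intro A hA a b i j hij hli k
    funext l
    have := hA (Sum.inr (Sum.inr ((a, b), (i, j), k, l)))
    simp only [hf, Sum.elim_inr] at this
    rw [if_pos ⟨hij, hli⟩] at this
    linarith
  refine final_core K P hP f hfan G (fun a i j => (L a i j).differentiable) hflor ?_ ?_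
  · -- curves
    intro γ hγ hev
    have hγa : ∀ a i j, AnalyticAt ℝ (fun t => γ t a i j) 0 := fun a i j =>
      ((L a i j).analyticAt (γ 0)).comp hγ
    have h1 := curve_core K ξ hξ hpar (Pi.single 0 1) FT.single Fr
      (fun a t => if h : a ∈ K.facets then G ⟨a, h⟩ (γ t) else 1)
      (ι := {a // a ∈ K.facets} × Fin (m + 4) × Fin (m + 4))
      (fun i t => ((γ t i.1 i.2.1 i.2.2 : ℝ) : ℂ))
      (fun i => (Complex.ofRealCLM.analyticAt _).comp (hγa i.1 i.2.1 i.2.2))
      (fun a => if h : a ∈ K.facets then Matrix.of (fun i j => MvPolynomial.X (⟨a, h⟩, i, j)) else 1)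
      (by
        intro a ha
        refine Filter.Eventually.of_forall fun t i j => ?_
        simp only [dif_pos ha, Matrix.of_apply, MvPolynomial.aeval_X]
        rfl)
      (by
        filter_upwards [hev] with t ht a ha
        simp only [dif_pos ha]
        exact ⟨hflor _ ht.1 _, hfdet _ ht.1 _, ht.2 _⟩)
      (by
        filter_upwards [hev] with t ht a ha b hb i j hij hli k
        simp only [dif_pos ha, dif_pos hb]
        exact hfag _ ht.1 ⟨a, ha⟩ ⟨b, hb⟩ i j hij hli k)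
      (by
        intro 𝕂 _ _ ev _ v I f h1 h2 h3
        exact AT_n hm K ξ hξ Fr _ h1 h2 I f h3 v)
    have h2 : (fun t => ∑ a : {a // a ∈ K.facets}, (K.coeff a : ℝ) *
        S (d := m + 3) (Fin.cons ((G a (γ t))⁻¹.mulVec (Pi.single 0 1))
          (fun i => nv (P 0 (a.1 i))))) = fun t => ∑ a ∈ K.facets, (K.coeff a : ℝ) *
        S (d := m + 3) (Fin.cons
          ((if h : a ∈ K.facets then G ⟨a, h⟩ (γ t) else 1)⁻¹.mulVec (Pi.single 0 1))
          (fun i => ξ (a i))) := by
      funext t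
      rw [← Finset.sum_coe_sort K.facets]
      refine Finset.sum_congr rfl fun a _ => ?_
      simp only [dif_pos a.2]
      rfl
    rw [h2]
    exact h1
  · -- surjectivity
    intro t ht
    obtain ⟨g, hg, hag⟩ := exists_config K P hP t ht
    refine ⟨fun a i j => g a.1 i j, ?_, fun a => ?_⟩
    · rintro (x | a | x)
      · have h := (isLor_iff.mp (hg x.1.1 x.1.2).1)
        simp only [hf, Sum.elim_inl, Matrix.sub_apply, sub_eq_zero]
        exact congrFun (congrFun h _) _
      · simp only [hf, Sum.elim_inr, Sum.elim_inl, sub_eq_zero]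
        exact (hg a.1 a.2).2.1
      · simp only [hf, Sum.elim_inr]
        split_ifs with hc
        · rw [sub_eq_zero]
          exact congrFun (hag _ x.1.1.2 _ x.1.2.2 _ _ hc.1 hc.2 x.2.2.1) x.2.2.2
        · rfl
    · exact ⟨(hg a.1 a.2).2.1, (hg a.1 a.2).2.2.1, (hg a.1 a.2).2.2.2⟩

end Bellows
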