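import Pool.Agent.Bellows.M5d
import Pool.Agent.Bellows.Boundary

/-!
# M5: the key identity (AT) for `n = 3`
-/

namespace Bellows.M5

open Matrix ComplexConjugate DOrd

variable {K : Type*} [Field K] [Algebra ℂ K]

theorem herm_map (c : Fin 4 → ℂ) (i j : Fin 2) :
    (herm (fun i => algebraMap ℂ K (c i)) : Matrix (Fin 2) (Fin 2) K) i j =
      algebraMap ℂ K (herm c i j) := by
  fin_cases i <;> fin_cases j <;> simp [herm]

/-- The row vector `(1, t) A`. -/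
def rowt (t : ℂ) (A : Matrix (Fin 2) (Fin 2) K) : Fin 2 → K :=
  fun j => A 0 j + algebraMap ℂ K t * A 1 j

theorem rho_eq (t : ℂ) (A B : Matrix (Fin 2) (Fin 2) K) (x : Fin 4 → ℝ) (j : Fin 2) :
    rowt t (A * herm (toR x) * Bᵀ) j =
      rm (rowt t A) (HH x) 0 * B j 0 + rm (rowt t A) (HH x) 1 * B j 1 := by
  unfold rowt rm
  simp only [Matrix.mul_apply, Fin.sum_univ_two, Matrix.transpose_apply, herm_toR]
  ring

theorem dd_rho (t : ℂ) (A B : Matrix (Fin 2) (Fin 2) K) (hB : B.det = 1) (x y : Fin 4 → ℝ) :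
    dd (rowt t (A * herm (toR x) * Bᵀ)) (rowt t (A * herm (toR y) * Bᵀ)) =
      om (rowt t A) x y := by
  rw [show dd (rowt t (A * herm (toR x) * Bᵀ)) (rowt t (A * herm (toR y) * Bᵀ)) =
    rowt t (A * herm (toR x) * Bᵀ) 0 * rowt t (A * herm (toR y) * Bᵀ) 1 -
    rowt t (A * herm (toR x) * Bᵀ) 1 * rowt t (A * herm (toR y) * Bᵀ) 0 from rfl]
  rw [rho_eq, rho_eq, rho_eq, rho_eq]
  unfold om dd
  rw [Matrix.det_fin_two] at hB
  linear_combination (rm (rowt t A) (HH x) 0 * rm (rowt t A) (HH y) 1 -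
    rm (rowt t A) (HH x) 1 * rm (rowt t A) (HH y) 0) * hB

open Classical in
/-- The difference of the two contributions of a pair of points. -/
noncomputable def Sf (v : DOrd K) (η q : Fin 2 → K) (ρ : (Fin 4 → ℝ) → Fin 2 → K)
    (x y : Fin 4 → ℝ) : ℝ :=
  if h : Nonempty (LD x y) then cyc v q (ρ x) (ρ y) - La v η h.some else 0

theorem Sf_eq (v : DOrd K) {η : Fin 2 → K} (q : Fin 2 → K) (ρ : (Fin 4 → ℝ) → Fin 2 → K)
    {x y : Fin 4 → ℝ} {L : LD x y} (h : NV η L) :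
    Sf v η q ρ x y = cyc v q (ρ x) (ρ y) - La v η L := by
  unfold Sf
  rw [dif_pos ⟨L⟩, La_unique v h]

theorem Sf_self (v : DOrd K) (η q : Fin 2 → K) (ρ : (Fin 4 → ℝ) → Fin 2 → K) (x : Fin 4 → ℝ) :
    Sf v η q ρ x x = 0 := by
  unfold Sf
  rw [dif_neg]
  rintro ⟨L⟩
  exact L.irrefl

theorem rho_ne {η : Fin 2 → K} {ρ : (Fin 4 → ℝ) → Fin 2 → K}
    (hρ : ∀ x y, dd (ρ x) (ρ y) = om η x y) {x y : Fin 4 → ℝ} {L : LD x y} (h : NV η L) :
    ρ x ≠ 0 ∧ ρ y ≠ 0 := by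
  have h1 := om_ne h
  rw [← hρ] at h1
  constructor
  · intro h0
    apply h1
    rw [h0]
    simp [dd]
  · intro h0
    apply h1
    rw [h0]
    simp [dd]

theorem Sf_swap (v : DOrd K) {η q : Fin 2 → K} {ρ : (Fin 4 → ℝ) → Fin 2 → K}
    (hρ : ∀ x y, dd (ρ x) (ρ y) = om η x y) {x y : Fin 4 → ℝ}
    (hx : ρ x ≠ 0 → dd q (ρ x) ≠ 0) (hy : ρ y ≠ 0 → dd q (ρ y) ≠ 0)
    {L : LD x y} (h : NV η L) : Sf v η q ρ y x = - Sf v η q ρ x y := by
  rw [Sf_eq v q ρ h, Sf_eq v q ρ h.symm, La_symm]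
  obtain ⟨g1, g2⟩ := rho_ne hρ h
  have k1 := hx g1
  have k2 := hy g2
  have k3 : dd (ρ x) (ρ y) ≠ 0 := by rw [hρ]; exact om_ne h
  have k4 : dd (ρ y) q ≠ 0 := by rw [dd_swap]; exact neg_ne_zero.mpr k2
  rw [cyc_swap v k1 k3 k4]
  ring

theorem facet_id (v : DOrd K) {η q : Fin 2 → K} {ρ : (Fin 4 → ℝ) → Fin 2 → K}
    (hρ : ∀ x y, dd (ρ x) (ρ y) = om η x y) {x y z : Fin 4 → ℝ}
    (hx : ρ x ≠ 0 → dd q (ρ x) ≠ 0) (hy : ρ y ≠ 0 → dd q (ρ y) ≠ 0)
    (hz : ρ z ≠ 0 → dd q (ρ z) ≠ 0)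
    (hxy : x = y ∨ ∃ L : LD x y, NV η L) (hyz : y = z ∨ ∃ L : LD y z, NV η L)
    (hxz : x = z ∨ ∃ L : LD x z, NV η L) :
    Sf v η q ρ y z - Sf v η q ρ x z + Sf v η q ρ x y = 0 := by
  rcases hxy with rfl | ⟨L1, h1⟩
  · rw [Sf_self]
    ring
  rcases hyz with rfl | ⟨L2, h2⟩
  · rw [Sf_self]
    ring
  rcases hxz with rfl | ⟨L3, h3⟩
  · rw [Sf_self, Sf_swap v hρ hx hy h1]
    ring
  have k := loc v h1 h2 h3.symm
  rw [La_symm, ← hρ, ← hρ, ← hρ] at k
  obtain ⟨g1, g2⟩ := rho_ne hρ h1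
  obtain ⟨-, g3⟩ := rho_ne hρ h3
  have q1 := hx g1
  have q2 := hy g2
  have q3 := hz g3
  have r1 : dd (ρ x) (ρ y) ≠ 0 := by rw [hρ]; exact om_ne h1
  have r2 : dd (ρ y) (ρ z) ≠ 0 := by rw [hρ]; exact om_ne h2
  have r3 : dd (ρ z) (ρ x) ≠ 0 := by rw [hρ]; exact om_ne h3.symm
  have k2 := cyc_cocycle v q1 q2 q3 r1 r2 r3
  have k3 := Sf_swap v hρ hx hz h3
  have k4 := Sf_eq v q ρ h3.symm
  rw [La_symm] at k4
  rw [Sf_eq v q ρ h1, Sf_eq v q ρ h2]
  have k5 : cyc v (ρ x) (ρ y) (ρ z) = tri v (dd (ρ x) (ρ y)) (dd (ρ y) (ρ z)) (dd (ρ z) (ρ x)) :=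
    rfl
  linarith

theorem pr_rowt (t : ℂ) (A : Matrix (Fin 2) (Fin 2) K) (Q : Fin 2 → ℂ) :
    pr (rowt t A) Q = (A 0 0 * algebraMap ℂ K (Q 0) + A 0 1 * algebraMap ℂ K (Q 1)) +
      algebraMap ℂ K t * (A 1 0 * algebraMap ℂ K (Q 0) + A 1 1 * algebraMap ℂ K (Q 1)) := by
  unfold pr rowt
  ring

/-- the product of a matrix with a constant column -/
def mv (A : Matrix (Fin 2) (Fin 2) K) (Q : Fin 2 → ℂ) : Fin 2 → K :=
  fun i => A i 0 * algebraMap ℂ K (Q 0) + A i 1 * algebraMap ℂ K (Q 1)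

theorem mv_ne {A : Matrix (Fin 2) (Fin 2) K} (hA : A.det = 1) {Q : Fin 2 → ℂ} (hQ : Q ≠ 0) :
    mv A Q ≠ 0 := by
  intro h
  have h0 := congrFun h 0
  have h1 := congrFun h 1
  simp only [mv, Pi.zero_apply] at h0 h1
  rw [Matrix.det_fin_two] at hA
  apply hQ
  funext i
  have e0 : algebraMap ℂ K (Q 0) = 0 := by
    linear_combination A 1 1 * h0 - A 0 1 * h1 - algebraMap ℂ K (Q 0) * hA
  have e1 : algebraMap ℂ K (Q 1) = 0 := by
    linear_combination A 0 0 * h1 - A 1 0 * h0 - algebraMap ℂ K (Q 1) * hA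
  fin_cases i
  · exact (map_eq_zero _).mp e0
  · exact (map_eq_zero _).mp e1

theorem conj_ne {Q : Fin 2 → ℂ} (hQ : Q ≠ 0) : (fun i => conj (Q i)) ≠ 0 := by
  intro h
  apply hQ
  funext i
  have := congrFun h i
  simpa using this

/-- Two normalised vectors of the cone are equal or independent. -/
theorem eq_or_indep {x : Fin 2 → Fin 4 → ℝ} (hx : ∀ k, FC (d := 3) (x k))
    (hn : ∀ i, lf (d := 3) (x i) (x i) = -1 ∨ (lf (d := 3) (x i) (x i) = 0 ∧ x i 0 = 1))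
    (h : ¬ LinearIndependent ℝ x) : x 0 = x 1 := by
  have hx0 : x 0 ≠ 0 := by
    intro h0
    have := (hx 0).2
    rw [h0] at this
    exact lt_irrefl _ this
  have he : x = ![x 0, x 1] := by
    funext i
    fin_cases i <;> rfl
  rw [he, LinearIndependent.pair_iff' hx0] at h
  push Not at h
  obtain ⟨c, hc⟩ := h
  have hc0 : 0 < c := by
    have h1 := (hx 1).2
    rw [← hc] at h1
    simp only [Pi.smul_apply, smul_eq_mul] at h1
    exact (pos_iff_pos_of_mul_pos h1).mpr (hx 0).2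
  have hl : lf (d := 3) (x 1) (x 1) = c ^ 2 * lf (d := 3) (x 0) (x 0) := by
    rw [← hc, lf_smul_left, lf_smul_right]
    ring
  have hc1 : c = 1 := by
    rcases hn 0 with h0 | ⟨h0, h0'⟩
    · rcases hn 1 with h1 | ⟨h1, -⟩
      · rw [h0, h1] at hl
        nlinarith
      · rw [h0, h1] at hl
        nlinarith [pow_pos hc0 2]
    · rcases hn 1 with h1 | ⟨-, h1'⟩
      · rw [h0, h1] at hl
        linarith
      · rw [← hc] at h1'
        simpa [h0'] using h1'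
  rw [← hc, hc1, one_smul]

theorem ord_ratio (v : DOrd K) {m m' p p' f f' σ : K} {R R' J : Fin 2 → K} (hR : R ≠ 0)
    (hσ : σ ≠ 0) (hm : m ≠ 0) (hm' : m' ≠ 0) (hp : p ≠ 0) (hp' : p' ≠ 0) (hf : f ≠ 0) (hf' : f' ≠ 0)
    (E1 : ∀ j, σ * m * R j = f * J j) (E1' : ∀ j, σ * m' * R' j = f' * J j)
    (E2 : ∀ j, p * R j = p' * R' j) :
    v.ord f - (v.ord m - v.ord p) = v.ord f' - (v.ord m' - v.ord p') := by
  obtain ⟨j, hj⟩ : ∃ j, R j ≠ 0 := by
    by_contra hcon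
    push Not at hcon
    exact hR (funext hcon)
  have hj' : R' j ≠ 0 := by
    intro h0
    have := E2 j
    rw [h0, mul_zero] at this
    exact mul_ne_zero hp hj this
  have hJ : J j ≠ 0 := by
    intro h0
    have := E1 j
    rw [h0, mul_zero] at this
    exact mul_ne_zero (mul_ne_zero hσ hm) hj this
  have o1 := congrArg v.ord (E1 j)
  have o2 := congrArg v.ord (E1' j)
  have o3 := congrArg v.ord (E2 j)
  rw [v.mul _ _ (mul_ne_zero hσ hm) hj, v.mul _ _ hσ hm, v.mul _ _ hf hJ] at o1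
  rw [v.mul _ _ (mul_ne_zero hσ hm') hj', v.mul _ _ hσ hm', v.mul _ _ hf' hJ] at o2
  rw [v.mul _ _ hp hj, v.mul _ _ hp' hj'] at o3
  omega

/-- The order of the normal vector of a face, corrected by the contribution of the line, does not
depend on the facet. -/
theorem face_indep (v : DOrd K) {x y : Fin 4 → ℝ} (L : LD x y) (t : ℂ)
    {A B A' B' : Matrix (Fin 2) (Fin 2) K} (hB : B.det = 1)
    (h1 : NV (rowt t A) L) (h2 : NV (rowt t A') L)
    (hx : A * herm (toR x) * Bᵀ = A' * herm (toR x) * B'ᵀ)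
    (hy : A * herm (toR y) * Bᵀ = A' * herm (toR y) * B'ᵀ)
    {s : ℂ} (hs0 : s ≠ 0) {c : Fin 4 → ℂ} (hs : ∀ i j, herm c i j = s * (L.m i * conj (L.p j)))
    {I : Matrix (Fin 2) (Fin 2) K} {f f' : K} (hf : f ≠ 0) (hf' : f' ≠ 0)
    (e : A * herm (fun i => algebraMap ℂ K (c i)) * Bᵀ = f • I)
    (e' : A' * herm (fun i => algebraMap ℂ K (c i)) * B'ᵀ = f' • I) :
    v.ord f - (v.ord (pr (rowt t A) L.m) - v.ord (pr (rowt t A) L.p)) =
      v.ord f' - (v.ord (pr (rowt t A') L.m) - v.ord (pr (rowt t A') L.p)) := by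
  have gen : ∀ (A B : Matrix (Fin 2) (Fin 2) K) (M : Matrix (Fin 2) (Fin 2) K) (j : Fin 2),
      rowt t (A * M * Bᵀ) j = (rowt t A 0 * M 0 0 + rowt t A 1 * M 1 0) * B j 0 +
        (rowt t A 0 * M 0 1 + rowt t A 1 * M 1 1) * B j 1 := by
    intro A B M j
    unfold rowt
    simp only [Matrix.mul_apply, Fin.sum_univ_two, Matrix.transpose_apply]
    ring
  have hc : ∀ i j, (herm (fun i => algebraMap ℂ K (c i)) : Matrix (Fin 2) (Fin 2) K) i j =
      algebraMap ℂ K s * (algebraMap ℂ K (L.m i) * algebraMap ℂ K (conj (L.p j))) := by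
    intro i j
    rw [herm_map, hs, map_mul, map_mul]
  have key : ∀ (A B : Matrix (Fin 2) (Fin 2) K) (f : K),
      A * herm (fun i => algebraMap ℂ K (c i)) * Bᵀ = f • I → ∀ j,
      algebraMap ℂ K s * pr (rowt t A) L.m * mv B (fun i => conj (L.p i)) j = f * rowt t I j := by
    intro A B f e j
    have g := congrArg (fun M => rowt t M j) e
    rw [gen] at g
    simp only [hc] at g
    have g2 : rowt t (f • I) j = f * rowt t I j := by
      unfold rowt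
      simp only [Matrix.smul_apply, smul_eq_mul]
      ring
    rw [g2] at g
    rw [← g]
    unfold pr mv
    ring
  have hori : algebraMap ℂ K ((L.a0 * L.b1 - L.b0 * L.a1 : ℝ) : ℂ) ≠ 0 := by
    refine (map_ne_zero (algebraMap ℂ K)).mpr ?_
    have := L.ori
    exact_mod_cast (by linarith : 0 < L.a0 * L.b1 - L.b0 * L.a1).ne'
  have key2 : ∀ j, pr (rowt t A) L.p * mv B (fun i => conj (L.p i)) j =
      pr (rowt t A') L.p * mv B' (fun i => conj (L.p i)) j := by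
    intro j
    have gx := congrArg (fun M => rowt t M j) hx
    have gy := congrArg (fun M => rowt t M j) hy
    rw [gen, gen] at gx gy
    simp only [herm_toR, L.hx, L.hy, map_add, map_mul] at gx gy
    apply mul_left_cancel₀ hori
    unfold pr mv
    simp only [Complex.ofReal_sub, Complex.ofReal_mul, map_sub, map_mul]
    linear_combination algebraMap ℂ K (L.a0 : ℂ) * gy - algebraMap ℂ K (L.a1 : ℂ) * gx
  exact ord_ratio v (mv_ne hB (conj_ne L.p_ne)) ((map_ne_zero (algebraMap ℂ K)).mpr hs0)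
    h1.1 h2.1 h1.2 h2.2 hf hf' (key A B f e) (key A' B' f' e') key2

end Bellows.M5

namespace Bellows

open Matrix ComplexConjugate DOrd Bellows.M5

open Classical in
/-- M5: (AT) for `n = 3`. -/
theorem AT_three {N : ℕ} (K : Cycle (0 + 2) N) {𝕂 : Type*} [Field 𝕂] [Algebra ℂ 𝕂] (v : DOrd 𝕂)
    (ξ : Fin N → Fin (0 + 4) → ℝ) (hξ : ∀ i, FC (ξ i))
    (hn : ∀ i, lf (ξ i) (ξ i) = -1 ∨ (lf (ξ i) (ξ i) = 0 ∧ ξ i 0 = 1))
    (Fr : ∀ F : Fin (0 + 2) ↪o Fin N, LinearIndependent ℝ (fun k => ξ (F k)) →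
      AFrame (show 0 + 2 ≤ 0 + 3 + 1 by omega) (fun k => ξ (F k)))
    (A B : (Fin (0 + 3) ↪o Fin N) → Matrix (Fin 2) (Fin 2) 𝕂)
    (hA : ∀ a ∈ K.facets, (A a).det = 1 ∧ (B a).det = 1)
    (hag : ∀ a ∈ K.facets, ∀ b ∈ K.facets, ∀ i j, face a i = face b j →
      LinearIndependent ℝ (fun k => ξ (face a i k)) →
      ∀ k, A a * herm (toR (ξ (face a i k))) * (B a)ᵀ = A b * herm (toR (ξ (face a i k))) * (B b)ᵀ)
    (I : (Fin (0 + 2) ↪o Fin N) → Matrix (Fin 2) (Fin 2) 𝕂)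
    (f : (Fin (0 + 3) ↪o Fin N) → Fin (0 + 3) → 𝕂)
    (hf : ∀ a ∈ K.facets, ∀ j, ∀ h : LinearIndependent ℝ (fun k => ξ (face a j k)),
      f a j ≠ 0 ∧
      A a * herm (fun i => algebraMap ℂ 𝕂 ((Fr _ h).n1 i - Complex.I * (Fr _ h).n2 i)) * (B a)ᵀ =
        f a j • I (face a j)) :
    ∑ a ∈ K.facets, ∑ j : Fin (0 + 3),
      (if h : LinearIndependent ℝ (fun k => ξ (face a j k)) then
        (K.coeff a : ℝ) * (-1) ^ (j : ℕ) * (Fr (face a j) h).wt * (v.ord (f a j) : ℝ)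
      else 0) = 0 := by
  classical
  -- the lines of the nondegenerate faces
  have hL : ∀ (F : Fin (0 + 2) ↪o Fin N) (h : LinearIndependent ℝ (fun k => ξ (F k))),
      ∃ L : LD (ξ (F 0)) (ξ (F 1)), (Fr F h).wt = L.w ∧ ∃ s : ℂ, s ≠ 0 ∧
        ∀ i j, herm (fun i => (((Fr F h).n1 i : ℂ) - Complex.I * (Fr F h).n2 i)) i j =
          s * (L.m i * conj (L.p j)) := by
    intro F h
    refine exists_LD (fun k => ξ (F k)) (Fr F h) (fun k => hξ _) (fun k => ?_)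
    rcases hn (F k) with h | h
    · exact Or.inl h
    · exact Or.inr h.1
  choose L hLw s hs0 hs using hL
  -- the generic row vector
  obtain ⟨t, ht⟩ : ∃ t : ℂ, ∀ a ∈ K.facets, ∀ j,
      ∀ h : LinearIndependent ℝ (fun k => ξ (face a j k)), NV (rowt t (A a)) (L _ h) := by
    let ι := K.facets × Fin (0 + 3) × Bool
    let w : ι → Fin 2 → 𝕂 := fun p =>
      if h : LinearIndependent ℝ (fun k => ξ (face p.1.1 p.2.1 k)) then
        mv (A p.1.1) (if p.2.2 then (L _ h).m else (L _ h).p) else 0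
    obtain ⟨t, ht⟩ := exists_generic w
    refine ⟨t, fun a ha j h => ⟨?_, ?_⟩⟩
    · have h1 := ht (⟨a, ha⟩, j, true)
      simp only [w, dif_pos h] at h1
      have h2 := h1 (mv_ne (hA a ha).1 (L _ h).m_ne)
      rw [pr_rowt]
      exact h2
    · have h1 := ht (⟨a, ha⟩, j, false)
      simp only [w, dif_pos h] at h1
      have h2 := h1 (mv_ne (hA a ha).1 (L _ h).p_ne)
      rw [pr_rowt]
      exact h2
  -- the rows of the points
  obtain ⟨ρ, hρ⟩ : ∃ ρ : (Fin (0 + 3) ↪o Fin N) → (Fin 4 → ℝ) → Fin 2 → 𝕂, ρ = fun a x =>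
    rowt t (A a * herm (toR x) * (B a)ᵀ) := ⟨_, rfl⟩
  have hρo : ∀ a ∈ K.facets, ∀ x y, dd (ρ a x) (ρ a y) = om (rowt t (A a)) x y := by
    intro a ha x y
    rw [hρ]
    exact dd_rho t (A a) (B a) (hA a ha).2 x y
  obtain ⟨q, hq⟩ : ∃ q : Fin 2 → 𝕂, ∀ a ∈ K.facets, ∀ i, ρ a (ξ (a i)) ≠ 0 →
      dd q (ρ a (ξ (a i))) ≠ 0 := by
    let w : K.facets × Fin (0 + 3) → Fin 2 → 𝕂 := fun p => ρ p.1.1 (ξ (p.1.1 p.2))
    obtain ⟨u, hu⟩ := exists_generic w
    refine ⟨![-algebraMap ℂ 𝕂 u, 1], fun a ha i h => ?_⟩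
    have h1 := hu (⟨a, ha⟩, i) h
    intro h0
    apply h1
    simp only [dd, Matrix.cons_val_zero, Matrix.cons_val_one] at h0
    show ρ a (ξ (a i)) 0 + algebraMap ℂ 𝕂 u * ρ a (ξ (a i)) 1 = 0
    linear_combination -h0
  -- the three functions
  let Φ1 : (Fin (0 + 3) ↪o Fin N) → Fin (0 + 3) → ℝ := fun a j =>
    if h : LinearIndependent ℝ (fun k => ξ (face a j k)) then
      (L _ h).w * ((v.ord (f a j) : ℝ) - ((v.ord (pr (rowt t (A a)) (L _ h).m) : ℝ) -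
        v.ord (pr (rowt t (A a)) (L _ h).p)))
    else 0
  let Φ2 : (Fin (0 + 3) ↪o Fin N) → Fin (0 + 3) → ℝ := fun a j =>
    if LinearIndependent ℝ (fun k => ξ (face a j k)) then
      cyc v q (ρ a (ξ (face a j 0))) (ρ a (ξ (face a j 1)))
    else 0
  let Φ3 : (Fin (0 + 3) ↪o Fin N) → Fin (0 + 3) → ℝ := fun a j =>
    Sf v (rowt t (A a)) q (ρ a) (ξ (face a j 0)) (ξ (face a j 1))
  have hsplit : ∀ a ∈ K.facets, ∀ j : Fin (0 + 3),
      (if h : LinearIndependent ℝ (fun k => ξ (face a j k)) then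
        (K.coeff a : ℝ) * (-1) ^ (j : ℕ) * (Fr (face a j) h).wt * (v.ord (f a j) : ℝ)
      else 0) = (K.coeff a : ℝ) * (-1) ^ (j : ℕ) * Φ1 a j + (K.coeff a : ℝ) * (-1) ^ (j : ℕ) * Φ2 a j
        - (K.coeff a : ℝ) * (-1) ^ (j : ℕ) * Φ3 a j := by
    intro a ha j
    by_cases h : LinearIndependent ℝ (fun k => ξ (face a j k))
    · simp only [Φ1, Φ2, Φ3, dif_pos h, if_pos h]
      rw [Sf_eq v q (ρ a) (ht a ha j h), hLw]
      unfold La
      ring
    · simp only [Φ1, Φ2, Φ3, dif_neg h, if_neg h]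
      have h1 : ξ (face a j 0) = ξ (face a j 1) :=
        eq_or_indep (x := fun k => ξ (face a j k)) (fun k => hξ _) (fun k => hn _) h
      rw [h1, Sf_self]
      ring
  rw [Finset.sum_congr rfl fun a ha => Finset.sum_congr rfl fun j _ => hsplit a ha j]
  simp only [Finset.sum_sub_distrib, Finset.sum_add_distrib]
  -- the first function
  have S1 : ∑ a ∈ K.facets, ∑ j : Fin (0 + 3), (K.coeff a : ℝ) * (-1) ^ (j : ℕ) * Φ1 a j = 0 := by
    refine K.sum_eq_zero' Φ1 fun a ha b hb i j hij => ?_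
    have hfb : ∀ F : Fin (0 + 2) ↪o Fin N, face b j = F →
        ∀ h : LinearIndependent ℝ (fun k => ξ (F k)), f b j ≠ 0 ∧
        A b * herm (fun i => algebraMap ℂ 𝕂 ((Fr _ h).n1 i - Complex.I * (Fr _ h).n2 i)) *
          (B b)ᵀ = f b j • I F ∧ NV (rowt t (A b)) (L _ h) := by
      rintro _ rfl h
      exact ⟨(hf b hb j h).1, (hf b hb j h).2, ht b hb j h⟩
    have hΦb : ∀ F : Fin (0 + 2) ↪o Fin N, face b j = F → Φ1 b j =
        if h : LinearIndependent ℝ (fun k => ξ (F k)) then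
          (L _ h).w * ((v.ord (f b j) : ℝ) - ((v.ord (pr (rowt t (A b)) (L _ h).m) : ℝ) -
            v.ord (pr (rowt t (A b)) (L _ h).p)))
        else 0 := by
      rintro _ rfl
      rfl
    rw [hΦb _ hij.symm]
    simp only [Φ1]
    split_ifs with h
    · obtain ⟨f1, f2⟩ := hf a ha i h
      obtain ⟨g1, g2, g3⟩ := hfb _ hij.symm h
      have h0 := hag a ha b hb i j hij h 0
      have h1 := hag a ha b hb i j hij h 1
      have k := face_indep v (L _ h) t (hA a ha).2 (ht a ha i h) g3 h0 h1 (hs0 _ h) (hs _ h)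
        f1 g1 f2 g2
      congr 1
      exact_mod_cast k
    · rfl
  -- the second function
  have S2 : ∑ a ∈ K.facets, ∑ j : Fin (0 + 3), (K.coeff a : ℝ) * (-1) ^ (j : ℕ) * Φ2 a j = 0 := by
    refine K.sum_eq_zero' Φ2 fun a ha b hb i j hij => ?_
    simp only [Φ2]
    rw [← hij]
    split_ifs with h
    · have h0 := hag a ha b hb i j hij h 0
      have h1 := hag a ha b hb i j hij h 1
      have r0 : ρ a (ξ (face a i 0)) = ρ b (ξ (face a i 0)) := by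
        rw [hρ]
        exact congrArg (rowt t) h0
      have r1 : ρ a (ξ (face a i 1)) = ρ b (ξ (face a i 1)) := by
        rw [hρ]
        exact congrArg (rowt t) h1
      rw [r0, r1]
    · rfl
  -- the third function
  have S3 : ∑ a ∈ K.facets, ∑ j : Fin (0 + 3), (K.coeff a : ℝ) * (-1) ^ (j : ℕ) * Φ3 a j = 0 := by
    refine Finset.sum_eq_zero fun a ha => ?_
    have hpt : ∀ j : Fin (0 + 3), ξ (face a j 0) = ξ (face a j 1) ∨
        ∃ L : LD (ξ (face a j 0)) (ξ (face a j 1)), NV (rowt t (A a)) L := by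
      intro j
      by_cases h : LinearIndependent ℝ (fun k => ξ (face a j k))
      · exact Or.inr ⟨L _ h, ht a ha j h⟩
      · exact Or.inl (eq_or_indep (x := fun k => ξ (face a j k)) (fun k => hξ _) (fun k => hn _) h)
    have k := facet_id v (hρo a ha) (x := ξ (a 0)) (y := ξ (a 1)) (z := ξ (a 2))
      (hq a ha 0) (hq a ha 1) (hq a ha 2) (hpt 2) (hpt 0) (hpt 1)
    rw [Fin.sum_univ_three]
    have e0 : Φ3 a 0 = Sf v (rowt t (A a)) q (ρ a) (ξ (a 1)) (ξ (a 2)) := rfl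
    have e1 : Φ3 a 1 = Sf v (rowt t (A a)) q (ρ a) (ξ (a 0)) (ξ (a 2)) := rfl
    have e2 : Φ3 a 2 = Sf v (rowt t (A a)) q (ρ a) (ξ (a 0)) (ξ (a 1)) := rfl
    rw [e0, e1, e2]
    simp only [Fin.val_zero, Fin.val_one, Fin.val_two]
    linear_combination (K.coeff a : ℝ) * k
  rw [S1, S2, S3]
  ring

end Bellows
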