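import Pool.Agent.Bellows.M5b

/-!
# M9c, M9d: the Lorentz group of `R^4` and `SL₂(ℂ)`
-/

namespace Bellows

open Matrix ComplexConjugate Kronecker

section
variable {R : Type*} [CommRing R] [Algebra ℂ R]

theorem algI : algebraMap ℂ R Complex.I * algebraMap ℂ R Complex.I = -1 := by
  rw [← map_mul, Complex.I_mul_I, map_neg, map_one]

theorem alg_half : algebraMap ℂ R (1 / 2) + algebraMap ℂ R (1 / 2) = 1 := by
  rw [← map_add]
  norm_num

theorem herm_coord (M : Matrix (Fin 2) (Fin 2) R) :
    herm (fun k : Fin 4 => algebraMap ℂ R (1 / 2) *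
      Matrix.trace (herm (Pi.single k (1 : R)) * M)) = M := by
  have h1 := alg_half (R := R)
  have h2 := algI (R := R)
  generalize algebraMap ℂ R (1 / 2) = h at h1 ⊢
  ext i j
  fin_cases i <;> fin_cases j <;>
    simp only [herm, Matrix.trace_fin_two, Matrix.mul_apply, Fin.sum_univ_two, Fin.zero_eta,
      Fin.mk_one, Matrix.of_apply, Matrix.cons_val', Matrix.cons_val_zero, Matrix.cons_val_one,
      Matrix.cons_val_fin_one]
  · simp
    linear_combination M 0 0 * h1
  · simp
    linear_combination M 0 1 * h1 + h * (M 0 1 - M 1 0) * (-1) * h2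
  · simp
    linear_combination M 1 0 * h1 + h * (M 1 0 - M 0 1) * (-1) * h2
  · simp
    linear_combination M 1 1 * h1

theorem herm_lin (y : Fin 4 → R) (a b : Fin 2) :
    herm y a b = ∑ k, herm (Pi.single k (1 : R)) a b * y k := by
  rw [Fin.sum_univ_four]
  fin_cases a <;> fin_cases b <;> simp [herm] <;> ring

theorem herm_gOf (A B : Matrix (Fin 2) (Fin 2) R)
    (x : Fin 4 → R) : herm ((gOf A B).mulVec x) = A * herm x * Bᵀ := by
  have h : (gOf A B).mulVec x = fun k : Fin 4 => algebraMap ℂ R (1 / 2) *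
      Matrix.trace (herm (Pi.single k (1 : R)) * (A * herm x * Bᵀ)) := by
    funext k
    have h1 : A * herm x * Bᵀ = ∑ j, x j • (A * herm (Pi.single j (1 : R)) * Bᵀ) := by
      ext a b
      rw [Matrix.sum_apply]
      simp only [Matrix.smul_apply, Matrix.mul_apply, Fin.sum_univ_two, Fin.sum_univ_four,
        Matrix.transpose_apply, smul_eq_mul]
      rw [herm_lin x 0 0, herm_lin x 0 1, herm_lin x 1 0, herm_lin x 1 1]
      simp only [Fin.sum_univ_four]
      ring
    rw [h1, Matrix.mul_sum, Matrix.trace_sum, Finset.mul_sum]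
    simp only [Matrix.mulVec, dotProduct]
    refine Finset.sum_congr rfl fun j _ => ?_
    rw [Matrix.mul_smul, Matrix.trace_smul, smul_eq_mul]
    unfold gOf
    rw [Matrix.of_apply]
    ring
  rw [h, herm_coord]

theorem herm_injective :
    Function.Injective (herm : (Fin 4 → R) → Matrix (Fin 2) (Fin 2) R) := by
  intro x y h
  have e00 := congrFun (congrFun h 0) 0
  have e01 := congrFun (congrFun h 0) 1
  have e10 := congrFun (congrFun h 1) 0
  have e11 := congrFun (congrFun h 1) 1
  simp only [herm, Matrix.of_apply, Matrix.cons_val', Matrix.cons_val_zero, Matrix.cons_val_one,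
    Matrix.cons_val_fin_one] at e00 e01 e10 e11
  have h1 := alg_half (R := R)
  have h2 := algI (R := R)
  funext k
  fin_cases k
  · show x 0 = y 0
    linear_combination algebraMap ℂ R (1 / 2) * (e00 + e11) - (x 0 - y 0) * h1
  · show x 1 = y 1
    linear_combination algebraMap ℂ R (1 / 2) * (e01 + e10) - (x 1 - y 1) * h1
  · show x 2 = y 2
    linear_combination algebraMap ℂ R (1 / 2) * algebraMap ℂ R Complex.I * (e01 - e10) -
      (x 2 - y 2) * h1 + 2 * (algebraMap ℂ R (1 / 2)) * (x 2 - y 2) * h2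
  · show x 3 = y 3
    linear_combination algebraMap ℂ R (1 / 2) * (e00 - e11) - (x 3 - y 3) * h1

end

theorem det_P : (Matrix.of ![(![1, 0, 0, 1] : Fin 4 → ℂ), ![0, 1, -Complex.I, 0],
    ![0, 1, Complex.I, 0], ![1, 0, 0, -1]]).det ≠ 0 := by
  rw [M5.det4]
  simp
  intro h
  apply Complex.I_ne_zero
  linear_combination (-1 / 4) * h

theorem det_gOf (A B : Matrix (Fin 2) (Fin 2) ℂ) : (gOf A B).det = A.det ^ 2 * B.det ^ 2 := by
  let P : Matrix (Fin 2 × Fin 2) (Fin 4) ℂ :=
    Matrix.of fun p j => herm (Pi.single j (1 : ℂ)) p.1 p.2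
  have h1 : P * gOf A B = (A ⊗ₖ B) * P := by
    ext p j
    have h2 := congrFun (congrFun (herm_gOf A B (Pi.single j (1 : ℂ))) p.1) p.2
    rw [herm_lin] at h2
    have h3 : (P * gOf A B) p j = ∑ k, herm (Pi.single k (1 : ℂ)) p.1 p.2 * gOf A B k j := rfl
    rw [h3]
    simp only [Matrix.mulVec_single_one, Matrix.col_apply] at h2
    rw [h2]
    simp only [Matrix.mul_apply, Fintype.sum_prod_type, Fin.sum_univ_two, Matrix.kroneckerMap_apply,
      Matrix.transpose_apply, P, Matrix.of_apply]
    ring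
  let e : Fin 2 × Fin 2 ≃ Fin 4 := finProdFinEquiv
  have h2 : P.submatrix e.symm id * gOf A B =
      (A ⊗ₖ B).submatrix e.symm e.symm * P.submatrix e.symm id := by
    rw [Matrix.submatrix_mul_equiv, ← h1]
    rfl
  have h3 : P.submatrix e.symm id = Matrix.of ![(![1, 0, 0, 1] : Fin 4 → ℂ),
      ![0, 1, -Complex.I, 0], ![0, 1, Complex.I, 0], ![1, 0, 0, -1]] := by
    ext i j
    fin_cases i <;> fin_cases j <;> simp [P, e, finProdFinEquiv, herm, Fin.divNat, Fin.modNat]
  have h4 := congrArg Matrix.det h2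
  rw [Matrix.det_mul, Matrix.det_mul, Matrix.det_submatrix_equiv_self, Matrix.det_kronecker, h3,
    Fintype.card_fin] at h4
  apply mul_left_cancel₀ det_P
  rw [h4]
  ring

theorem herm_mul_real {H M : Matrix (Fin 2) (Fin 2) ℂ} (hH : ∀ i j, conj (H i j) = H j i)
    (hM : ∀ i j, conj (M i j) = M j i) : conj (Matrix.trace (H * M)) = Matrix.trace (H * M) := by
  simp only [Matrix.trace_fin_two, Matrix.mul_apply, Fin.sum_univ_two, map_add, map_mul, hH, hM]
  ring

theorem herm_conj_mul {A H : Matrix (Fin 2) (Fin 2) ℂ} (hH : ∀ i j, conj (H i j) = H j i)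
    (i j : Fin 2) : conj ((A * H * (A.map (starRingEnd ℂ))ᵀ) i j) =
      (A * H * (A.map (starRingEnd ℂ))ᵀ) j i := by
  simp only [Matrix.mul_apply, Fin.sum_univ_two, map_add, map_mul, hH, Matrix.transpose_apply,
    Matrix.map_apply, Complex.conj_conj]
  ring

theorem herm_single_conj (k : Fin 4) (i j : Fin 2) :
    conj (herm (Pi.single k (1 : ℂ)) i j) = herm (Pi.single k (1 : ℂ)) j i := by
  have h := M5.HH_conj (Pi.single k 1) i j
  have h2 : M5.HH (Pi.single k 1) = herm (Pi.single k (1 : ℂ)) := by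
    unfold M5.HH
    congr 1
    funext l
    by_cases hl : l = k
    · subst hl
      simp
    · simp [Pi.single_eq_of_ne hl]
  rw [h2] at h
  exact h

/-- M9d: `gR A` is a proper orthochronous Lorentz matrix, and all of them arise. -/
theorem gR_map (A : Matrix (Fin 2) (Fin 2) ℂ) :
    (gR A).map (fun x : ℝ => (x : ℂ)) = gOf A (A.map (starRingEnd ℂ)) := by
  ext i j
  simp only [gR, Matrix.map_apply]
  apply Complex.conj_eq_iff_re.1
  unfold gOf
  rw [Matrix.of_apply, map_mul, herm_mul_real (herm_single_conj i)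
    (fun a b => herm_conj_mul (herm_single_conj j) a b)]
  congr 1
  rw [show algebraMap ℂ ℂ (1 / 2) = ((1 / 2 : ℝ) : ℂ) by push_cast; rfl, Complex.conj_ofReal]

theorem HH_gR (A : Matrix (Fin 2) (Fin 2) ℂ) (x : Fin 4 → ℝ) :
    M5.HH ((gR A).mulVec x) = A * M5.HH x * (A.map (starRingEnd ℂ))ᵀ := by
  unfold M5.HH
  rw [← herm_gOf, ← gR_map]
  congr 1
  funext i
  simp only [Matrix.mulVec, dotProduct, Matrix.map_apply]
  push_cast
  rfl

theorem HH_injective : Function.Injective M5.HH := by
  intro x y h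
  have := herm_injective h
  funext i
  exact_mod_cast congrFun this i

theorem gR_isLor (A : Matrix (Fin 2) (Fin 2) ℂ) (hA : A.det = 1) :
    IsLor (d := 3) (gR A) ∧ (gR A).det = 1 ∧ 0 < gR A 0 0 := by
  refine ⟨?_, ?_, ?_⟩
  · intro x y
    have h1 := M5.pol_lf ((gR A).mulVec x) ((gR A).mulVec y)
    have h2 := M5.pol_lf x y
    rw [HH_gR, HH_gR] at h1
    rw [Matrix.det_fin_two] at hA
    have hA' : conj (A 0 0) * conj (A 1 1) - conj (A 0 1) * conj (A 1 0) = 1 := by
      rw [← map_mul, ← map_mul, ← map_sub, hA, map_one]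
    have h3 : ((-2 * lf (d := 3) ((gR A).mulVec x) ((gR A).mulVec y) : ℝ) : ℂ) =
        ((-2 * lf (d := 3) x y : ℝ) : ℂ) := by
      rw [← h1, ← h2]
      simp only [Matrix.mul_apply, Fin.sum_univ_two, Matrix.transpose_apply, Matrix.map_apply]
      generalize M5.HH x 0 0 = x00
      generalize M5.HH x 0 1 = x01
      generalize M5.HH x 1 0 = x10
      generalize M5.HH x 1 1 = x11
      generalize M5.HH y 0 0 = y00
      generalize M5.HH y 0 1 = y01
      generalize M5.HH y 1 0 = y10
      generalize M5.HH y 1 1 = y11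
      generalize conj (A 0 0) = b00 at hA' ⊢
      generalize conj (A 0 1) = b01 at hA' ⊢
      generalize conj (A 1 0) = b10 at hA' ⊢
      generalize conj (A 1 1) = b11 at hA' ⊢
      generalize A 0 0 = a00 at hA ⊢
      generalize A 0 1 = a01 at hA ⊢
      generalize A 1 0 = a10 at hA ⊢
      generalize A 1 1 = a11 at hA ⊢
      linear_combination (x00 * y11 + x11 * y00 - x01 * y10 - x10 * y01) *
        ((b00 * b11 - b01 * b10) * hA + hA')
    have h4 : -2 * lf (d := 3) ((gR A).mulVec x) ((gR A).mulVec y) = -2 * lf (d := 3) x y := by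
      exact_mod_cast h3
    linarith
  · have h1 : (((gR A).det : ℝ) : ℂ) = 1 := by
      have h2 : (((gR A).det : ℝ) : ℂ) = ((gR A).map (fun x : ℝ => (x : ℂ))).det := by
        rw [show ((gR A).map (fun x : ℝ => (x : ℂ))) = Complex.ofRealHom.mapMatrix (gR A) from rfl,
          ← RingHom.map_det]
        rfl
      rw [h2, gR_map, det_gOf, hA]
      have h3 : (A.map (starRingEnd ℂ)).det = 1 := by
        rw [show A.map (starRingEnd ℂ) = (starRingEnd ℂ).mapMatrix A from rfl, ← RingHom.map_det,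
          hA, map_one]
      rw [h3]
      norm_num
    exact_mod_cast h1
  · have h1 : ((gR A 0 0 : ℝ) : ℂ) = (((1 / 2) * (Complex.normSq (A 0 0) + Complex.normSq (A 0 1) +
        Complex.normSq (A 1 0) + Complex.normSq (A 1 1)) : ℝ) : ℂ) := by
      have h2 := congrFun (congrFun (gR_map A) 0) 0
      rw [Matrix.map_apply] at h2
      rw [h2]
      have h3 : herm (Pi.single (0 : Fin 4) (1 : ℂ)) = 1 := by
        ext i j
        fin_cases i <;> fin_cases j <;> simp [herm]
      unfold gOf
      rw [Matrix.of_apply, h3, Matrix.one_mul, Matrix.mul_one,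
        show algebraMap ℂ ℂ (1 / 2) = 1 / 2 from rfl]
      push_cast
      rw [← Complex.mul_conj, ← Complex.mul_conj, ← Complex.mul_conj, ← Complex.mul_conj]
      simp only [Matrix.trace_fin_two, Matrix.mul_apply, Fin.sum_univ_two, Matrix.transpose_apply,
        Matrix.map_apply]
      ring
    have h2 : gR A 0 0 = (1 / 2) * (Complex.normSq (A 0 0) + Complex.normSq (A 0 1) +
        Complex.normSq (A 1 0) + Complex.normSq (A 1 1)) := by
      exact_mod_cast h1
    rw [h2]
    have n0 := Complex.normSq_nonneg (A 0 0)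
    have n1 := Complex.normSq_nonneg (A 0 1)
    have n2 := Complex.normSq_nonneg (A 1 0)
    have n3 := Complex.normSq_nonneg (A 1 1)
    by_contra hc
    push Not at hc
    have z0 : A 0 0 = 0 := Complex.normSq_eq_zero.1 (by linarith)
    have z1 : A 0 1 = 0 := Complex.normSq_eq_zero.1 (by linarith)
    rw [Matrix.det_fin_two, z0, z1] at hA
    simp at hA

theorem frame_spinor (e0 e1 e2 e3 : Fin 4 → ℝ)
    (h00 : lf (d := 3) e0 e0 = -1) (h01 : lf (d := 3) e0 e1 = 0) (h02 : lf (d := 3) e0 e2 = 0)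
    (h03 : lf (d := 3) e0 e3 = 0) (h11 : lf (d := 3) e1 e1 = 1) (h12 : lf (d := 3) e1 e2 = 0)
    (h13 : lf (d := 3) e1 e3 = 0) (h22 : lf (d := 3) e2 e2 = 1) (h23 : lf (d := 3) e2 e3 = 0)
    (h33 : lf (d := 3) e3 e3 = 1) (hfut : 0 < e0 0)
    (hdet : (Matrix.of ![e0, e1, e2, e3]).det = 1) :
    ∃ m p : Fin 2 → ℂ, ∃ s : ℂ, M5.dd m p * conj (M5.dd m p) = 1 ∧ s * conj s = 4 ∧
      (∀ i j, M5.HH ((1 / 2 : ℝ) • (e0 - e1)) i j = m i * conj (m j)) ∧
      (∀ i j, M5.HH ((1 / 2 : ℝ) • (e0 + e1)) i j = p i * conj (p j)) ∧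
      ∀ i j, M5.HH e2 i j - Complex.I * M5.HH e3 i j = s * (m i * conj (p j)) := by
  set cm : Fin 4 → ℝ := (1 / 2 : ℝ) • (e0 - e1) with hcm
  set cp : Fin 4 → ℝ := (1 / 2 : ℝ) • (e0 + e1) with hcp
  have h10 : lf (d := 3) e1 e0 = 0 := by rw [lf_comm, h01]
  have hmm : lf (d := 3) cm cm = 0 := by
    rw [hcm, lf_smul_left, lf_smul_right, lf_sub_left, lf_sub_right, lf_sub_right, h00, h01, h10,
      h11]; norm_num
  have hpp : lf (d := 3) cp cp = 0 := by
    rw [hcp, lf_smul_left, lf_smul_right, lf_add_left, lf_add_right, lf_add_right, h00, h01, h10,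
      h11]; norm_num
  have hmp : lf (d := 3) cm cp = -1 / 2 := by
    rw [hcm, hcp, lf_smul_left, lf_smul_right, lf_sub_left, lf_add_right, lf_add_right, h00, h01,
      h10, h11]; norm_num
  have h0m : lf (d := 3) e0 cm = -1 / 2 := by
    rw [hcm, lf_smul_right, lf_sub_right, h00, h01]; norm_num
  have h0p : lf (d := 3) e0 cp = -1 / 2 := by
    rw [hcp, lf_smul_right, lf_add_right, h00, h01]; norm_num
  have hcm0 : 0 < cm 0 := M5.lightlike_future h00 hfut hmm (by rw [h0m]; norm_num)
  have hcp0 : 0 < cp 0 := M5.lightlike_future h00 hfut hpp (by rw [h0p]; norm_num)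
  obtain ⟨m, hm⟩ := M5.exists_spinor cm hmm hcm0
  obtain ⟨p, hp⟩ := M5.exists_spinor cp hpp hcp0
  have hnorm : M5.dd m p * conj (M5.dd m p) = 1 := by
    have h1 := M5.pol_lf cm cp
    rw [hmp] at h1
    simp only [hm, hp] at h1
    simp only [M5.dd, map_sub, map_mul]
    push_cast at h1
    linear_combination h1
  have hcm2 : lf (d := 3) cm e2 = 0 := by
    rw [hcm, lf_smul_left, lf_sub_left, h02, h12]; norm_num
  have hcm3 : lf (d := 3) cm e3 = 0 := by
    rw [hcm, lf_smul_left, lf_sub_left, h03, h13]; norm_num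
  have hcp2 : lf (d := 3) cp e2 = 0 := by
    rw [hcp, lf_smul_left, lf_add_left, h02, h12]; norm_num
  have hcp3 : lf (d := 3) cp e3 = 0 := by
    rw [hcp, lf_smul_left, lf_add_left, h03, h13]; norm_num
  have hdetf : (Matrix.of ![cm, cp, e2, e3]).det = 1 / 2 := by
    rw [M5.det4] at hdet ⊢
    simp only [hcm, hcp, Pi.smul_apply, Pi.sub_apply, Pi.add_apply, smul_eq_mul]
    linear_combination (1 / 2) * hdet
  clear_value cm cp
  set M : Matrix (Fin 2) (Fin 2) ℂ := Matrix.of fun i j => M5.HH e2 i j - Complex.I * M5.HH e3 i j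
    with hM
  have hMe : ∀ i j, M i j = M5.HH e2 i j - Complex.I * M5.HH e3 i j := fun i j => rfl
  have hpolp : M5.npol p M = 0 := by
    have q2 := M5.pol_lf cp e2
    have q3 := M5.pol_lf cp e3
    rw [hcp2] at q2
    rw [hcp3] at q3
    simp only [hp] at q2 q3
    unfold M5.npol
    simp only [hMe]
    push_cast at q2 q3
    linear_combination q2 - Complex.I * q3
  have hpolm : M5.npol m M = 0 := by
    have q2 := M5.pol_lf cm e2
    have q3 := M5.pol_lf cm e3
    rw [hcm2] at q2
    rw [hcm3] at q3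
    simp only [hm] at q2 q3
    unfold M5.npol
    simp only [hMe]
    push_cast at q2 q3
    linear_combination q2 - Complex.I * q3
  have hdM : M 0 0 * M 1 1 - M 0 1 * M 1 0 = 0 := by
    have q2 := M5.pol_lf e2 e2
    have q3 := M5.pol_lf e3 e3
    have q4 := M5.pol_lf e2 e3
    rw [h22] at q2
    rw [h33] at q3
    rw [h23] at q4
    simp only [hMe]
    push_cast at q2 q3 q4
    linear_combination (1 / 2) * q2 + (Complex.I ^ 2 / 2) * q3 - Complex.I * q4 +
      (-1) * Complex.I_sq
  have hprod : M5.n01 m p M * M5.n10 m p M = 0 := by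
    have := M5.det_expand m p hnorm M
    rw [hdM, hpolp, hpolm] at this
    linear_combination this
  have hor := M5.orient cm cp e2 e3 m p hm hp M hMe
  rw [hdetf] at hor
  have hn10 : M5.n10 m p M = 0 := by
    rcases mul_eq_zero.mp hprod with h | h
    · exfalso
      rw [h, zero_mul, zero_sub, Complex.mul_conj] at hor
      have h1 : -(Complex.normSq (M5.n10 m p M)) = 8 * (1 / 2 : ℝ) := by exact_mod_cast hor
      have h2 := Complex.normSq_nonneg (M5.n10 m p M)
      linarith
    · exact h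
  refine ⟨m, p, M5.n01 m p M, hnorm, ?_, hm, hp, ?_⟩
  · rw [hn10, zero_mul, sub_zero] at hor
    rw [hor]
    norm_num
  · intro i j
    have := M5.expand m p hnorm M i j
    rw [hpolp, hpolm, hn10] at this
    rw [← hMe, this]
    ring

theorem HH_smul_add (a b : ℝ) (x y : Fin 4 → ℝ) (i j : Fin 2) :
    M5.HH (a • x + b • y) i j = a * M5.HH x i j + b * M5.HH y i j :=
  M5.HH_lin (fun k => by simp) i j

theorem exists_gR (g : Matrix (Fin (3 + 1)) (Fin (3 + 1)) ℝ) (hg : IsLor g) (hd : g.det = 1)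
    (h0 : 0 < g 0 0) : ∃ A : Matrix (Fin 2) (Fin 2) ℂ, A.det = 1 ∧ gR A = g := by
  have hcol : ∀ i j : Fin 4, lf (d := 3) (fun k => g k i) (fun k => g k j) =
      (if i = 0 then -1 else 1) * (Pi.single j (1 : ℝ) : Fin 4 → ℝ) i := by
    intro i j
    rw [M5.col_lf hg, lf_single_left]
  set e0 : Fin 4 → ℝ := fun k => g k 0 with he0
  set e1 : Fin 4 → ℝ := fun k => g k 3 with he1
  set e2 : Fin 4 → ℝ := fun k => g k 1 with he2
  set e3 : Fin 4 → ℝ := fun k => g k 2 with he3
  have hdet : (Matrix.of ![e0, e1, e2, e3]).det = 1 := by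
    have h1 : Matrix.of ![e0, e2, e3, e1] = gᵀ := by
      ext i j
      fin_cases i <;> rfl
    have h2 : (Matrix.of ![e0, e2, e3, e1]).det = 1 := by
      rw [h1, Matrix.det_transpose]; exact hd
    rw [M5.det4] at h2 ⊢
    linear_combination h2
  obtain ⟨m, p, s, hn, hs, hm, hp, hmp⟩ := frame_spinor e0 e1 e2 e3 (by rw [hcol]; simp)
    (by rw [hcol]; simp) (by rw [hcol]; simp) (by rw [hcol]; simp) (by rw [hcol]; simp)
    (by rw [hcol]; simp) (by rw [hcol]; simp) (by rw [hcol]; simp) (by rw [hcol]; simp)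
    (by rw [hcol]; simp) h0 hdet
  -- the adjoint relation
  have hmp' : ∀ i j, M5.HH e2 i j + Complex.I * M5.HH e3 i j = conj s * (p i * conj (m j)) := by
    intro i j
    have h1 := congrArg (starRingEnd ℂ) (hmp j i)
    simp only [map_sub, map_mul, M5.HH_conj, Complex.conj_I, Complex.conj_conj] at h1
    linear_combination h1
  -- the phases
  set δ : ℂ := - conj (M5.dd m p) with hδ
  obtain ⟨α, hα⟩ : ∃ α : ℂ, α ^ 2 = δ * (conj s / 2) := by
    obtain ⟨α, hα⟩ := IsAlgClosed.exists_pow_nat_eq (δ * (conj s / 2)) (n := 2) (by norm_num)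
    exact ⟨α, hα⟩
  have hs2 : (s / 2) * (conj s / 2) = 1 := by linear_combination (1 / 4) * hs
  have hδ1 : δ * conj δ = 1 := by
    rw [hδ]
    simp only [map_neg, Complex.conj_conj]
    linear_combination hn
  have hα1 : α * conj α = 1 := by
    have h1 : (α * conj α) ^ 2 = 1 := by
      have h2 := congrArg (starRingEnd ℂ) hα
      simp only [map_pow, map_mul, map_div₀, Complex.conj_conj, map_ofNat] at h2
      calc (α * conj α) ^ 2 = α ^ 2 * (conj α) ^ 2 := by ring
        _ = (δ * (conj s / 2)) * (conj δ * (s / 2)) := by rw [hα, h2]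
        _ = (δ * conj δ) * ((s / 2) * (conj s / 2)) := by ring
        _ = 1 := by rw [hδ1, hs2]; ring
    rw [Complex.mul_conj] at h1 ⊢
    have h2 : Complex.normSq α ^ 2 = 1 := by exact_mod_cast h1
    have h3 := Complex.normSq_nonneg α
    have h4 : Complex.normSq α = 1 := by nlinarith
    rw [h4]
    norm_num
  set β : ℂ := (s / 2) * α with hβ
  have hβ1 : β * conj β = 1 := by
    rw [hβ]
    simp only [map_mul, map_div₀, map_ofNat]
    linear_combination (s / 2 * (conj s / 2)) * hα1 + hs2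
  have hβα : 2 * (β * conj α) = s := by
    rw [hβ]
    linear_combination s * hα1
  have hαβ : α * β = δ := by
    rw [hβ]
    linear_combination (s / 2) * hα + δ * hs2
  refine ⟨!![α * p 0, β * m 0; α * p 1, β * m 1], ?_, ?_⟩
  · rw [Matrix.det_fin_two_of]
    have h1 : α * p 0 * (β * m 1) - β * m 0 * (α * p 1) = -(α * β) * M5.dd m p := by
      unfold M5.dd; ring
    rw [h1, hαβ, hδ]
    linear_combination hn
  · set A : Matrix (Fin 2) (Fin 2) ℂ := !![α * p 0, β * m 0; α * p 1, β * m 1] with hA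
    have hA0 : ∀ i, A i 0 = α * p i := by
      intro i
      fin_cases i <;> rfl
    have hA1 : ∀ i, A i 1 = β * m i := by
      intro i
      fin_cases i <;> rfl
    have key : ∀ (x : Fin 4 → ℝ) (i j : Fin 2), M5.HH ((gR A).mulVec x) i j =
        (p i * conj (p j)) * M5.HH x 0 0 + (conj s / 2 * (p i * conj (m j))) * M5.HH x 0 1 +
        (s / 2 * (m i * conj (p j))) * M5.HH x 1 0 + (m i * conj (m j)) * M5.HH x 1 1 := by
      intro x i j
      rw [HH_gR]
      simp only [Matrix.mul_apply, Fin.sum_univ_two, Matrix.transpose_apply, Matrix.map_apply,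
        hA0, hA1, map_mul]
      have hβα' : 2 * (conj β * α) = conj s := by
        rw [← hβα]
        simp only [map_mul, Complex.conj_conj, map_ofNat]
      linear_combination (p i * conj (p j) * M5.HH x 0 0) * hα1 +
        (m i * conj (m j) * M5.HH x 1 1) * hβ1 + (1 / 2 * (m i * conj (p j)) * M5.HH x 1 0) * hβα +
        (1 / 2 * (p i * conj (m j)) * M5.HH x 0 1) * hβα'
    have hcm : ∀ i j, (1 / 2 : ℂ) * M5.HH e0 i j - (1 / 2 : ℂ) * M5.HH e1 i j =
        m i * conj (m j) := by
      intro i j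
      rw [← hm, show (1 / 2 : ℝ) • (e0 - e1) = (1 / 2 : ℝ) • e0 + (-(1 / 2) : ℝ) • e1 by
        rw [smul_sub, neg_smul, sub_eq_add_neg], HH_smul_add]
      push_cast
      ring
    have hcp : ∀ i j, (1 / 2 : ℂ) * M5.HH e0 i j + (1 / 2 : ℂ) * M5.HH e1 i j =
        p i * conj (p j) := by
      intro i j
      rw [← hp, smul_add, HH_smul_add]
      push_cast
      ring
    have hgcol : ∀ k : Fin 4, (gR A).mulVec (Pi.single k 1) = fun i => g i k := by
      intro k
      apply HH_injective
      ext i j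
      rw [key]
      fin_cases k
      · simp only [M5.HH00, M5.HH01, M5.HH10, M5.HH11]
        show _ = M5.HH e0 i j
        simp
        linear_combination -(hcm i j) - hcp i j
      · simp only [M5.HH00, M5.HH01, M5.HH10, M5.HH11]
        show _ = M5.HH e2 i j
        simp
        linear_combination -(1 / 2) * (hmp i j) - (1 / 2) * hmp' i j
      · simp only [M5.HH00, M5.HH01, M5.HH10, M5.HH11]
        show _ = M5.HH e3 i j
        simp
        linear_combination (-Complex.I / 2) * (hmp i j) + (Complex.I / 2) * hmp' i j - M5.HH e3 i j * Complex.I_sq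
      · simp only [M5.HH00, M5.HH01, M5.HH10, M5.HH11]
        show _ = M5.HH e1 i j
        simp
        linear_combination (hcm i j) - hcp i j
    ext i j
    have h1 := congrFun (hgcol j) i
    rw [Matrix.mulVec_single_one] at h1
    exact h1

end Bellows
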