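import Pool.Agent.Bellows.Final2
import Pool.Agent.Bellows.M5
import Pool.Agent.Bellows.M9c

/-!
# Constancy of the volume in dimension three
-/

namespace Bellows

open Matrix MeasureTheory Topology

variable {N : ℕ}

section gOf

variable {R R' : Type*} [CommRing R] [Algebra ℂ R] [CommRing R'] [Algebra ℂ R']

theorem herm_map_hom (φ : R →ₐ[ℂ] R') (x : Fin 4 → R) : (herm x).map φ = herm (fun i => φ (x i)) := by
  ext i j
  fin_cases i <;> fin_cases j <;> simp [herm]

theorem gOf_map (φ : R →ₐ[ℂ] R') (A B : Matrix (Fin 2) (Fin 2) R) :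
    (gOf A B).map φ = gOf (A.map φ) (B.map φ) := by
  ext i j
  have h1 : ∀ k : Fin 4, (fun l => φ ((Pi.single k 1 : Fin 4 → R) l)) = Pi.single k 1 := by
    intro k
    funext l
    by_cases h : l = k
    · subst h; simp
    · simp [Pi.single_eq_of_ne h]
  have h2 : ∀ k : Fin 4, (herm (Pi.single k 1 : Fin 4 → R)).map φ = herm (Pi.single k 1) := by
    intro k
    rw [herm_map_hom, h1]
  have h3 : ∀ k a b, φ (herm (Pi.single k 1 : Fin 4 → R) a b) =
      herm (Pi.single k 1 : Fin 4 → R') a b := by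
    intro k a b
    rw [← h2 k, Matrix.map_apply]
  simp only [gOf, Matrix.map_apply, Matrix.of_apply, map_mul, AlgHom.commutes, Matrix.trace_fin_two,
    Matrix.mul_apply, Fin.sum_univ_two, Matrix.transpose_apply, map_add, h3]

end gOf

theorem herm_smul' {R : Type*} [CommRing R] [Algebra ℂ R] (c : R) (x : Fin 4 → R) :
    herm (c • x) = c • herm x := by
  ext i j
  fin_cases i <;> fin_cases j <;> simp [herm] <;> ring

section analytic

variable {E' : Type} [NormedAddCommGroup E'] [NormedSpace ℝ E']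

theorem analytic_gR (M : E' → Matrix (Fin 2) (Fin 2) ℂ)
    (hM : ∀ i j, AnalyticOnNhd ℝ (fun A => M A i j) Set.univ) (i j : Fin 4) :
    AnalyticOnNhd ℝ (fun A => gR (M A) i j) Set.univ := by
  intro x _
  have hM' : ∀ i j, AnalyticAt ℝ (fun A => M A i j) x := fun i j => hM i j x trivial
  have hMc : ∀ i j, AnalyticAt ℝ (fun A => (starRingEnd ℂ) (M A i j)) x := fun i j =>
    (Complex.conjCLE.toContinuousLinearMap.analyticAt _).comp (hM' i j)
  have h1 : AnalyticAt ℝ (fun A => gOf (M A) ((M A).map (starRingEnd ℂ)) i j) x := by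
    simp only [gOf, Matrix.of_apply, Matrix.trace_fin_two, Matrix.mul_apply, Fin.sum_univ_two,
      Matrix.transpose_apply, Matrix.map_apply]
    refine AnalyticAt.mul analyticAt_const ?_
    have key : ∀ a b c d e f : Fin 2, ∀ z w : ℂ, AnalyticAt ℝ
      (fun A => z * (M A a b * w * (starRingEnd ℂ) (M A c d))) x := fun a b c d e f z w =>
        analyticAt_const.mul (((hM' a b).mul analyticAt_const).mul (hMc c d))
    have key2 : ∀ a b c : Fin 2, ∀ z : ℂ, ∀ H : Matrix (Fin 2) (Fin 2) ℂ, AnalyticAt ℝ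
      (fun A => z * ((M A a 0 * H 0 0 + M A a 1 * H 1 0) * (starRingEnd ℂ) (M A b 0) +
        (M A a 0 * H 0 1 + M A a 1 * H 1 1) * (starRingEnd ℂ) (M A b 1))) x := fun a b c z H =>
        analyticAt_const.mul (((((hM' a 0).mul analyticAt_const).add
          ((hM' a 1).mul analyticAt_const)).mul (hMc b 0)).add
          ((((hM' a 0).mul analyticAt_const).add
          ((hM' a 1).mul analyticAt_const)).mul (hMc b 1)))
    exact ((key2 0 0 0 _ _).add (key2 1 0 0 _ _)).add ((key2 0 1 0 _ _).add (key2 1 1 0 _ _))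
  exact (Complex.reCLM.analyticAt _).comp h1

end analytic

theorem volume_const_three (K : Cycle (0 + 2) N) (P : ℝ → Fin N → E (0 + 3))
    (hP : IsFlexion K P) : ∀ t ∈ Set.Icc (0 : ℝ) 1, vol K (P t) = vol K (P 0) := by
  classical
  have h01 : (0 : ℝ) ∈ Set.Icc (0 : ℝ) 1 := ⟨le_rfl, zero_le_one⟩
  set ξ : Fin N → Fin (0 + 4) → ℝ := fun v => nv (P 0 v) with hξd
  have hξ : ∀ v, FC (d := 0 + 3) (ξ v) := fun v => nv_FC _ (hP.mem 0 h01 v)
  have hpar : ∀ v w, (ξ w) 0 • ξ v = (ξ v) 0 • ξ w → ξ v = ξ w := fun v w h =>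
    nv_par _ _ (hP.mem 0 h01 v) (hP.mem 0 h01 w) h
  have Fr : ∀ F : Fin (0 + 2) ↪o Fin N, LinearIndependent ℝ (fun k => ξ (F k)) →
      AFrame (show 0 + 2 ≤ 0 + 3 + 1 by omega) (fun k => ξ (F k)) := fun F h =>
    (exists_aframe (by omega) (by omega) (fun k => ξ (F k)) (fun k => hξ _) h).some
  -- the parameter space
  set M : {a // a ∈ K.facets} → ({a // a ∈ K.facets} → Fin 2 → Fin 2 → ℂ) →
      Matrix (Fin 2) (Fin 2) ℂ := fun a A => Matrix.of (A a) with hM
  set G : {a // a ∈ K.facets} → ({a // a ∈ K.facets} → Fin 2 → Fin 2 → ℂ) →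
      Matrix (Fin (0 + 4)) (Fin (0 + 4)) ℝ := fun a A => gR (M a A) with hG
  set L : {a // a ∈ K.facets} → Fin 2 → Fin 2 →
      ({a // a ∈ K.facets} → Fin 2 → Fin 2 → ℂ) →L[ℝ] ℂ := fun a i j =>
    (ContinuousLinearMap.proj (R := ℝ) (φ := fun _ : Fin 2 => ℂ) j).comp
      ((ContinuousLinearMap.proj (R := ℝ) (φ := fun _ : Fin 2 => Fin 2 → ℂ) i).comp
      (ContinuousLinearMap.proj (R := ℝ)
        (φ := fun _ : {a // a ∈ K.facets} => Fin 2 → Fin 2 → ℂ) a)) with hL
  have hLa : ∀ a i j A, L a i j A = A a i j := fun _ _ _ _ => rfl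
  have hMan : ∀ a i j, AnalyticOnNhd ℝ (fun A => M a A i j) Set.univ := fun a i j =>
    (L a i j).analyticOnNhd _
  have hGan : ∀ a, AnMat (G a) := fun a i j => analytic_gR _ (hMan a) i j
  have hdan : ∀ a, AnalyticOnNhd ℝ (fun A => (M a A).det) Set.univ := by
    intro a
    simp only [Matrix.det_fin_two]
    exact ((hMan a _ _).mul (hMan a _ _)).sub ((hMan a _ _).mul (hMan a _ _))
  set f : ({a // a ∈ K.facets} ⊕ ({a // a ∈ K.facets} ⊕
      (({a // a ∈ K.facets} × {a // a ∈ K.facets}) × (Fin (0 + 3) × Fin (0 + 3)) ×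
        Fin (0 + 2) × Fin (0 + 4)))) →
      ({a // a ∈ K.facets} → Fin 2 → Fin 2 → ℂ) → ℝ :=
    Sum.elim (fun a A => ((M a A).det - 1).re)
      (Sum.elim (fun a A => ((M a A).det - 1).im)
        (fun x A => if face x.1.1.1 x.2.1.1 = face x.1.2.1 x.2.1.2 ∧
            LinearIndependent ℝ (fun k => ξ (face x.1.1.1 x.2.1.1 k)) then
          (G x.1.1 A).mulVec (ξ (face x.1.1.1 x.2.1.1 x.2.2.1)) x.2.2.2 -
          (G x.1.2 A).mulVec (ξ (face x.1.1.1 x.2.1.1 x.2.2.1)) x.2.2.2 else 0)) with hf
  have hfan : ∀ i, AnalyticOnNhd ℝ (f i) Set.univ := by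
    rintro (a | a | x)
    · exact fun x hx => (Complex.reCLM.analyticAt _).comp (((hdan a).sub analyticOnNhd_const) x hx)
    · exact fun x hx => (Complex.imCLM.analyticAt _).comp (((hdan a).sub analyticOnNhd_const) x hx)
    · simp only [hf, Sum.elim_inr]
      by_cases hc : face x.1.1.1 x.2.1.1 = face x.1.2.1 x.2.1.2 ∧
            LinearIndependent ℝ (fun k => ξ (face x.1.1.1 x.2.1.1 k))
      · simp only [if_pos hc]
        exact ((hGan _).mulVec _ _).sub ((hGan _).mulVec _ _)
      · simp only [if_neg hc]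
        exact analyticOnNhd_const
  -- meaning of the constraints
  have hfdet : ∀ A, (∀ i, f i A = 0) → ∀ a, (M a A).det = 1 := by
    intro A hA a
    have h1 := hA (Sum.inl a)
    have h2 := hA (Sum.inr (Sum.inl a))
    simp only [hf, Sum.elim_inl, Sum.elim_inr] at h1 h2
    rw [← sub_eq_zero]
    exact Complex.ext h1 h2
  have hfag : ∀ A, (∀ i, f i A = 0) → ∀ a b : {a // a ∈ K.facets}, ∀ i j,
      face a.1 i = face b.1 j → LinearIndependent ℝ (fun k => ξ (face a.1 i k)) →
      ∀ k, (G a A).mulVec (ξ (face a.1 i k)) = (G b A).mulVec (ξ (face a.1 i k)) := by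
    intro A hA a b i j hij hli k
    funext l
    have := hA (Sum.inr (Sum.inr ((a, b), (i, j), k, l)))
    simp only [hf, Sum.elim_inr] at this
    rw [if_pos ⟨hij, hli⟩] at this
    linarith
  refine final_core K P hP f hfan G (fun a i j => (fun A => ((hGan a i j) A trivial).differentiableAt))
    (fun A hA a => (gR_isLor _ (hfdet A hA a)).1) ?_ ?_
  · -- curves
    intro γ hγ hev
    have hγa : ∀ a i j, AnalyticAt ℝ (fun t => γ t a i j) 0 := fun a i j =>
      ((L a i j).analyticAt (γ 0)).comp hγ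
    set u : ({a // a ∈ K.facets} × Fin 2 × Fin 2 × Bool) → ℝ → ℂ := fun i t =>
      if i.2.2.2 then (starRingEnd ℂ) (γ t i.1 i.2.1 i.2.2.1) else γ t i.1 i.2.1 i.2.2.1 with hu
    set X : Bool → {a // a ∈ K.facets} → Matrix (Fin 2) (Fin 2)
        (MvPolynomial ({a // a ∈ K.facets} × Fin 2 × Fin 2 × Bool) ℂ) := fun b a =>
      Matrix.of fun i j => MvPolynomial.X (a, i, j, b) with hX
    have hX0 : ∀ a t, (X false a).map (MvPolynomial.aeval (fun i => u i t)) = M a (γ t) := by
      intro a t
      ext i j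
      simp [hX, hu, hM]
    have hX1 : ∀ a t, (X true a).map (MvPolynomial.aeval (fun i => u i t)) =
        (M a (γ t)).map (starRingEnd ℂ) := by
      intro a t
      ext i j
      simp [hX, hu, hM]
    have hXd : ∀ a b, ∀ᶠ t in 𝓝 (0 : ℝ), MvPolynomial.aeval (fun i => u i t) ((X b a).det - 1) = 0 := by
      intro a b
      filter_upwards [hev] with t ht
      have h1 := hfdet _ ht.1 a
      rw [map_sub, AlgHom.map_det, map_one, AlgHom.mapMatrix_apply, sub_eq_zero]
      cases b
      · rw [hX0, h1]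
      · rw [hX1, ← RingHom.mapMatrix_apply, ← RingHom.map_det, h1, map_one]
    have h1 := curve_core K ξ hξ hpar (Pi.single 0 1) FT.single Fr
      (fun a t => if h : a ∈ K.facets then G ⟨a, h⟩ (γ t) else 1)
      u
      (by
        intro i
        simp only [hu]
        split_ifs
        · exact (Complex.conjCLE.toContinuousLinearMap.analyticAt _).comp (hγa i.1 i.2.1 i.2.2.1)
        · exact hγa i.1 i.2.1 i.2.2.1)
      (fun a => if h : a ∈ K.facets then gOf (X false ⟨a, h⟩) (X true ⟨a, h⟩) else 1)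
      (by
        intro a ha
        refine Filter.Eventually.of_forall fun t i j => ?_
        simp only [dif_pos ha]
        have h1 := gOf_map (MvPolynomial.aeval (fun i => u i t)) (X false ⟨a, ha⟩) (X true ⟨a, ha⟩)
        rw [hX0, hX1, ← gR_map] at h1
        exact (congrFun (congrFun h1 i) j).symm)
      (by
        filter_upwards [hev] with t ht a ha
        simp only [dif_pos ha]
        exact gR_isLor _ (hfdet _ ht.1 ⟨a, ha⟩))
      (by
        filter_upwards [hev] with t ht a ha b hb i j hij hli k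
        simp only [dif_pos ha, dif_pos hb]
        exact hfag _ ht.1 ⟨a, ha⟩ ⟨b, hb⟩ i j hij hli k)
      (by
        intro 𝕂 _ _ ev hevq v I f h1 h2 h3
        have key : ∀ (a) (ha : a ∈ K.facets), ((if h : a ∈ K.facets then gOf (X false ⟨a, h⟩)
            (X true ⟨a, h⟩) else 1 : Matrix (Fin (0 + 4)) (Fin (0 + 4)) _)).map ev =
            gOf ((X false ⟨a, ha⟩).map ev) ((X true ⟨a, ha⟩).map ev) := by
          intro a ha
          rw [dif_pos ha, gOf_map]
        refine AT_three K v ξ hξ (fun v => nv_norm _ (hP.mem 0 h01 v)) Fr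
          (fun a => if h : a ∈ K.facets then (X false ⟨a, h⟩).map ev else 1)
          (fun a => if h : a ∈ K.facets then (X true ⟨a, h⟩).map ev else 1) ?_ ?_
          (fun F => herm (I F)) f ?_
        · intro a ha
          simp only [dif_pos ha]
          have h4 : ∀ b, ((X b ⟨a, ha⟩).map ev).det = 1 := by
            intro b
            have h5 := (hevq ((X b ⟨a, ha⟩).det - 1)).mpr (hXd _ b)
            rw [map_sub, AlgHom.map_det, map_one, AlgHom.mapMatrix_apply, sub_eq_zero] at h5
            exact h5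
          exact ⟨h4 _, h4 _⟩
        · intro a ha b hb i j hij hli k
          have h5 := h2 a ha b hb i j hij hli k
          rw [key a ha, key b hb] at h5
          simp only [dif_pos ha, dif_pos hb]
          have h6 := congrArg herm h5
          rw [herm_gOf, herm_gOf] at h6
          exact h6
        · intro a ha j hli
          have h5 := h3 a ha j hli
          rw [key a ha] at h5
          simp only [dif_pos ha]
          refine ⟨h5.1, ?_⟩
          have h6 := congrArg herm h5.2
          rw [herm_gOf] at h6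
          refine h6.trans ?_
          exact herm_smul' _ _)
    have h2 : (fun t => ∑ a : {a // a ∈ K.facets}, (K.coeff a : ℝ) *
        S (d := 0 + 3) (Fin.cons ((G a (γ t))⁻¹.mulVec (Pi.single 0 1))
          (fun i => nv (P 0 (a.1 i))))) = fun t => ∑ a ∈ K.facets, (K.coeff a : ℝ) *
        S (d := 0 + 3) (Fin.cons
          ((if h : a ∈ K.facets then G ⟨a, h⟩ (γ t) else 1)⁻¹.mulVec (Pi.single 0 1))
          (fun i => ξ (a i))) := by
      funext t
      rw [← Finset.sum_coe_sort K.facets]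
      refine Finset.sum_congr rfl fun a _ => ?_
      simp only [dif_pos a.2]
      rfl
    rw [h2]
    exact h1
  · -- surjectivity
    intro t ht
    obtain ⟨g, hg, hag⟩ := exists_config K P hP t ht
    have hA : ∀ a : {a // a ∈ K.facets}, ∃ A : Matrix (Fin 2) (Fin 2) ℂ, A.det = 1 ∧ gR A = g a.1 :=
      fun a => exists_gR _ (hg a.1 a.2).1 (hg a.1 a.2).2.1 (hg a.1 a.2).2.2.1
    choose A hA1 hA2 using hA
    have hGA : ∀ a, G a (fun a i j => A a i j) = g a.1 := fun a => hA2 a
    refine ⟨fun a i j => A a i j, ?_, fun a => ?_⟩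
    · rintro (a | a | x)
      · have h : (M a (fun a i j => A a i j)).det = 1 := hA1 a
        simp only [hf, Sum.elim_inl, h, sub_self, Complex.zero_re]
      · have h : (M a (fun a i j => A a i j)).det = 1 := hA1 a
        simp only [hf, Sum.elim_inl, Sum.elim_inr, h, sub_self, Complex.zero_im]
      · simp only [hf, Sum.elim_inr]
        split_ifs with hc
        · rw [sub_eq_zero, hGA, hGA]
          exact congrFun (hag _ x.1.1.2 _ x.1.2.2 _ _ hc.1 hc.2 x.2.2.1) x.2.2.2
        · rfl
    · rw [hGA]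
      exact ⟨(hg a.1 a.2).2.1, (hg a.1 a.2).2.2.1, (hg a.1 a.2).2.2.2⟩

end Bellows
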