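import Pool.Agent.Bellows.Core

/-!
# Minkowski space `R^4` as the space of 2x2 matrices
-/

namespace Bellows

open Matrix

/-- The 2x2 matrix of a vector of Minkowski space `R^4` over a `ℂ`-algebra. -/
def herm {R : Type*} [CommRing R] [Algebra ℂ R] (x : Fin 4 → R) : Matrix (Fin 2) (Fin 2) R :=
  !![x 0 + x 3, x 1 - algebraMap ℂ R Complex.I * x 2; x 1 + algebraMap ℂ R Complex.I * x 2, x 0 - x 3]

/-- A real vector as a vector over a `ℂ`-algebra. -/
def toR {R : Type*} [CommRing R] [Algebra ℂ R] {n : ℕ} (x : Fin n → ℝ) : Fin n → R :=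
  fun i => algebraMap ℂ R (x i : ℂ)

/-- The matrix of `X ↦ A X Bᵀ` in the coordinates given by `herm`. -/
noncomputable def gOf {R : Type*} [CommRing R] [Algebra ℂ R] (A B : Matrix (Fin 2) (Fin 2) R) :
    Matrix (Fin 4) (Fin 4) R :=
  Matrix.of fun i j =>
    algebraMap ℂ R (1 / 2) * Matrix.trace (herm (Pi.single i 1) * (A * herm (Pi.single j 1) * Bᵀ))

/-- The real Lorentz matrix of `A ∈ SL₂(ℂ)`. -/
noncomputable def gR (A : Matrix (Fin 2) (Fin 2) ℂ) : Matrix (Fin 4) (Fin 4) ℝ :=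
  (gOf A (A.map (starRingEnd ℂ))).map Complex.re

end Bellows
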