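import Pool.Agent.Bellows.Val
import Pool.Agent.Bellows.Causal

/-!
# Lattices attached to hyperbolic frames
-/

namespace Bellows

open Matrix DOrd

/-- Signs of the Lorentz form. -/
def sgn (R : Type*) [CommRing R] {n : ℕ} (k : Fin (n + 1)) : R := if k = 0 then -1 else 1

theorem sgn_mul_sgn {R : Type*} [CommRing R] {n : ℕ} (k : Fin (n + 1)) : sgn R k * sgn R k = 1 := by
  unfold sgn; split_ifs <;> ring

/-- A hyperbolic frame: a Lorentz frame with the last two vectors replaced by isotropic ones. -/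
structure HFrame (K : Type*) [Field K] (m : ℕ) where
  e : Fin (m + 1 + 1) → Fin (m + 3 + 1) → K
  P : Fin (m + 3 + 1) → K
  Q : Fin (m + 3 + 1) → K
  ee : ∀ k l, lf (e k) (e l) = if k = l then sgn K k else 0
  eP : ∀ k, lf (e k) P = 0
  eQ : ∀ k, lf (e k) Q = 0
  PP : lf P P = 0
  QQ : lf Q Q = 0
  PQ : lf P Q = 2
  exp : ∀ x, x = ∑ k, (sgn K k * lf x (e k)) • e k + (2⁻¹ * lf x Q) • P + (2⁻¹ * lf x P) • Q

variable {K : Type*} [Field K] [Algebra ℂ K] {v : DOrd K} {m : ℕ}

theorem two_ne (K : Type*) [Field K] [Algebra ℂ K] : (2 : K) ≠ 0 := by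
  have h : algebraMap ℂ K 2 = 2 := map_ofNat (algebraMap ℂ K) 2
  rw [← h]
  exact (map_ne_zero (algebraMap ℂ K)).mpr two_ne_zero

theorem ge_half : v.Ge 0 (2⁻¹ : K) := by
  have h : algebraMap ℂ K 2⁻¹ = 2⁻¹ := by
    rw [map_inv₀, map_ofNat (algebraMap ℂ K) 2]
  rw [← h]; exact Ge.const _

theorem ge_sgn {n : ℕ} (k : Fin (n + 1)) : v.Ge 0 (sgn K k) := by
  unfold sgn; split_ifs
  · exact Ge.one.neg
  · exact Ge.one

theorem ord_two : v.ord (2 : K) = 0 := by
  have h : algebraMap ℂ K 2 = 2 := map_ofNat (algebraMap ℂ K) 2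
  rw [← h]; exact v.const 2 two_ne_zero

namespace HFrame

omit [Algebra ℂ K] in
theorem parseval (B : HFrame K m) (x y : Fin (m + 3 + 1) → K) :
    lf x y = ∑ k, sgn K k * lf x (B.e k) * lf y (B.e k) +
      2⁻¹ * (lf x B.Q * lf y B.P + lf x B.P * lf y B.Q) := by
  conv_lhs => rw [B.exp x]
  rw [lf_add_left, lf_add_left, lf_sum_left, lf_smul_left, lf_smul_left]
  simp only [lf_smul_left]
  rw [lf_comm B.P y, lf_comm B.Q y]
  rw [Finset.sum_congr rfl fun k _ => by rw [lf_comm (B.e k) y]]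
  ring

/-- Rescaling of the two isotropic vectors. -/
noncomputable def shift (v : DOrd K) (B : HFrame K m) (j : ℤ) : HFrame K m where
  e := B.e
  P := v.tau ^ j • B.P
  Q := v.tau ^ (-j) • B.Q
  ee := B.ee
  eP k := by rw [lf_smul_right, B.eP, mul_zero]
  eQ k := by rw [lf_smul_right, B.eQ, mul_zero]
  PP := by rw [lf_smul_right, lf_smul_left, B.PP, mul_zero, mul_zero]
  QQ := by rw [lf_smul_right, lf_smul_left, B.QQ, mul_zero, mul_zero]
  PQ := by
    rw [lf_smul_right, lf_smul_left, B.PQ, ← mul_assoc, ← zpow_add₀ v.tau_ne]; simp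
  exp x := by
    conv_lhs => rw [B.exp x]
    rw [lf_smul_right, lf_smul_right, smul_smul, smul_smul]
    congr 2
    · congr 1
      have : v.tau ^ (-j) * v.tau ^ j = 1 := by rw [← zpow_add₀ v.tau_ne]; simp
      linear_combination (-(2⁻¹ * lf x B.Q)) * this
    · have : v.tau ^ (-j) * v.tau ^ j = 1 := by rw [← zpow_add₀ v.tau_ne]; simp
      linear_combination (-(2⁻¹ * lf x B.P)) * this

/-- Exchange of the two isotropic vectors. -/
def swap (B : HFrame K m) : HFrame K m where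
  e := B.e
  P := B.Q
  Q := B.P
  ee := B.ee
  eP := B.eQ
  eQ := B.eP
  PP := B.QQ
  QQ := B.PP
  PQ := by rw [lf_comm, B.PQ]
  exp x := by
    conv_lhs => rw [B.exp x]
    exact add_right_comm _ _ _

/-- `x ∈ τ^t M_j`. -/
def In (v : DOrd K) (B : HFrame K m) (j t : ℤ) (x : Fin (m + 3 + 1) → K) : Prop :=
  (∀ k, v.Ge t (lf x (B.e k))) ∧ v.Ge (t - j) (lf x B.P) ∧ v.Ge (t + j) (lf x B.Q)

/-- The lattice `M_j`. -/
def L (v : DOrd K) (B : HFrame K m) (j : ℤ) : Set (Fin (m + 3 + 1) → K) := {x | B.In v j 0 x}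

variable (B B' : HFrame K m)

theorem In.add {j t : ℤ} {x y : Fin (m + 3 + 1) → K} (hx : B.In v j t x) (hy : B.In v j t y) :
    B.In v j t (x + y) := by
  refine ⟨fun k => ?_, ?_, ?_⟩
  · rw [lf_add_left]; exact (hx.1 k).add (hy.1 k)
  · rw [lf_add_left]; exact hx.2.1.add hy.2.1
  · rw [lf_add_left]; exact hx.2.2.add hy.2.2

theorem In.smul {j s t : ℤ} {c : K} {x : Fin (m + 3 + 1) → K} (hc : v.Ge s c) (hx : B.In v j t x) :
    B.In v j (s + t) (c • x) := by
  refine ⟨fun k => ?_, ?_, ?_⟩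
  · rw [lf_smul_left]; exact hc.mul (hx.1 k)
  · rw [lf_smul_left]; exact (hc.mul hx.2.1).mono (by omega)
  · rw [lf_smul_left]; exact (hc.mul hx.2.2).mono (by omega)

theorem In.mono {j s t : ℤ} (h : s ≤ t) {x : Fin (m + 3 + 1) → K} (hx : B.In v j t x) :
    B.In v j s x :=
  ⟨fun k => (hx.1 k).mono h, hx.2.1.mono (by omega), hx.2.2.mono (by omega)⟩

theorem In.sum {j t : ℤ} {ι : Type*} {s : Finset ι} {f : ι → Fin (m + 3 + 1) → K}
    (hf : ∀ i ∈ s, B.In v j t (f i)) : B.In v j t (∑ i ∈ s, f i) := by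
  classical
  induction s using Finset.induction_on with
  | empty =>
    refine ⟨fun k => ?_, ?_, ?_⟩ <;> (simp only [Finset.sum_empty, lf_zero_left]; exact Ge.zero _)
  | insert a s ha ih =>
    rw [Finset.sum_insert ha]
    exact In.add B (hf a (Finset.mem_insert_self _ _))
      (ih fun i hi => hf i (Finset.mem_insert_of_mem hi))

theorem in_tau_smul {j s t : ℤ} {x : Fin (m + 3 + 1) → K} :
    B.In v j t (v.tau ^ s • x) ↔ B.In v j (t - s) x := by
  constructor
  · intro h
    have h2 := In.smul B (Ge.tau_zpow (v := v) (-s)) h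
    rw [smul_smul, ← zpow_add₀ v.tau_ne] at h2
    simp only [neg_add_cancel, zpow_zero, one_smul] at h2
    exact In.mono B (by omega) h2
  · intro h
    exact In.mono B (by omega) (In.smul B (Ge.tau_zpow (v := v) s) h)

theorem in_shift {i j t : ℤ} {x : Fin (m + 3 + 1) → K} :
    (B.shift v i).In v j t x ↔ B.In v (j + i) t x := by
  unfold In shift
  simp only [lf_smul_right, ge_tau_mul_iff]
  have h1 : t - j - i = t - (j + i) := by ring
  have h2 : t + j - -i = t + (j + i) := by ring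
  rw [h1, h2]

theorem L_shift (i j : ℤ) : (B.shift v i).L v j = B.L v (j + i) := by
  ext x; exact in_shift B

theorem in_swap {j t : ℤ} {x : Fin (m + 3 + 1) → K} :
    B.swap.In v j t x ↔ B.In v (-j) t x := by
  unfold In swap
  simp only [sub_neg_eq_add, ← sub_eq_add_neg]
  tauto

theorem L_swap (j : ℤ) : B.swap.L v j = B.L v (-j) := by
  ext x; exact in_swap B

/-- Integrality. -/
theorem In.lf {j s t : ℤ} {x y : Fin (m + 3 + 1) → K} (hx : B.In v j s x) (hy : B.In v j t y) :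
    v.Ge (s + t) (lf x y) := by
  rw [B.parseval]
  refine Ge.add (Ge.sum fun k _ => ?_) ?_
  · rw [mul_assoc]
    exact (ge_sgn k).mul0 ((hx.1 k).mul (hy.1 k))
  · refine ge_half.mul0 (Ge.add ?_ ?_)
    · exact (hx.2.2.mul hy.2.1).mono (by omega)
    · exact (hx.2.1.mul hy.2.2).mono (by omega)

theorem in_e (k : Fin (m + 1 + 1)) (j : ℤ) : B.In v j 0 (B.e k) := by
  refine ⟨fun l => ?_, ?_, ?_⟩
  · rw [B.ee]; split_ifs
    · exact ge_sgn k
    · exact Ge.zero _
  · rw [B.eP]; exact Ge.zero _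
  · rw [B.eQ]; exact Ge.zero _

theorem in_P_iff (j t : ℤ) : B.In v j t B.P ↔ t ≤ -j := by
  unfold In
  simp only [lf_comm B.P (B.e _), B.eP, B.PP, B.PQ]
  constructor
  · rintro ⟨-, -, h | h⟩
    · exact absurd h (two_ne K)
    · rw [ord_two] at h; omega
  · intro h
    refine ⟨fun _ => Ge.zero _, Ge.zero _, Or.inr ?_⟩
    rw [ord_two]; omega

theorem in_Q_iff (j t : ℤ) : B.In v j t B.Q ↔ t ≤ j := by
  have h := in_P_iff (v := v) B.swap (-j) t
  rw [in_swap] at h
  simpa [swap] using h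

/-- Vectors are divisible by a bounded power of `τ`. -/
theorem exists_order {x : Fin (m + 3 + 1) → K} (hx : x ≠ 0) (j : ℤ) :
    ∃ p, B.In v j p x ∧ ¬ B.In v j (p + 1) x := by
  classical
  have h1 : ∃ p, B.In v j p x := by
    by_contra hc
    push Not at hc
    -- lower bounds for all coordinates
    have h : ∀ y : K, ∃ p : ℤ, v.Ge p y := fun y => ⟨v.ord y, Or.inr le_rfl⟩
    choose f hf using h
    obtain ⟨p, hp⟩ : ∃ p : ℤ, (∀ k, p ≤ f (lf x (B.e k))) ∧ p - j ≤ f (lf x B.P) ∧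
        p + j ≤ f (lf x B.Q) := by
      refine ⟨min (Finset.univ.inf' Finset.univ_nonempty fun k => f (lf x (B.e k)))
        (min (f (lf x B.P) + j) (f (lf x B.Q) - j)), fun k => ?_, ?_, ?_⟩
      · exact (min_le_left _ _).trans (Finset.inf'_le _ (Finset.mem_univ k))
      · have := (min_le_right (Finset.univ.inf' Finset.univ_nonempty fun k => f (lf x (B.e k)))
          (min (f (lf x B.P) + j) (f (lf x B.Q) - j))).trans (min_le_left _ _)
        omega
      · have := (min_le_right (Finset.univ.inf' Finset.univ_nonempty fun k => f (lf x (B.e k)))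
          (min (f (lf x B.P) + j) (f (lf x B.Q) - j))).trans (min_le_right _ _)
        omega
    exact hc p ⟨fun k => (hf _).mono (hp.1 k), (hf _).mono hp.2.1, (hf _).mono hp.2.2⟩
  by_contra hc
  push Not at hc
  obtain ⟨p, hp⟩ := h1
  have h2 : ∀ n : ℕ, B.In v j (p + n) x := by
    intro n
    induction n with
    | zero => simpa using hp
    | succ n ih =>
      have := hc _ ih
      push_cast
      rw [← add_assoc]; exact this
  -- all coordinates vanish
  have h3 : ∀ y : K, (∀ n : ℕ, ∃ q : ℤ, (n : ℤ) ≤ q ∧ v.Ge q y) → y = 0 := by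
    intro y hy
    by_contra hy0
    obtain ⟨q, hq1, hq2⟩ := hy (v.ord y + 1).toNat
    rcases hq2 with h | h
    · exact hy0 h
    · have := Int.self_le_toNat (v.ord y + 1)
      omega
  apply hx
  rw [B.exp x]
  have e1 : ∀ k, lf x (B.e k) = 0 := fun k => h3 _ fun n => by
    refine ⟨p + (n + p.natAbs : ℕ), ?_, (h2 (n + p.natAbs)).1 k⟩
    push_cast; have := neg_abs_le p; omega
  have e2 : lf x B.P = 0 := h3 _ fun n => by
    refine ⟨p + (n + p.natAbs + j.natAbs : ℕ) - j, ?_, (h2 _).2.1⟩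
    push_cast; have := neg_abs_le p; have := le_abs_self j
    omega
  have e3 : lf x B.Q = 0 := h3 _ fun n => by
    refine ⟨p + (n + p.natAbs + j.natAbs : ℕ) + j, ?_, (h2 _).2.2⟩
    push_cast; have := neg_abs_le p; have := neg_abs_le j
    omega
  simp [e1, e2, e3]

theorem le_of_in {j p t : ℤ} {x : Fin (m + 3 + 1) → K} (h : ¬ B.In v j (p + 1) x)
    (ht : B.In v j t x) : t ≤ p := by
  by_contra hc
  exact h (In.mono B (by omega) ht)

end HFrame

end Bellows
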