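import Mathlib

/-!
# Bellows: the Lorentz form
-/

namespace Bellows

/-- The Lorentz form on `R^{d+1}`. -/
def lf {R : Type*} [CommRing R] {d : ℕ} (x y : Fin (d + 1) → R) : R :=
  - (x 0 * y 0) + ∑ i : Fin d, x i.succ * y i.succ

end Bellows
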