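import Pool.Agent.Bellows.Core

/-!
# Bellows M4a: integrability of Gaussian type integrands over orthants
-/

open MeasureTheory Set

namespace Bellows

theorem measurableSet_orth' (r : ℕ) : MeasurableSet (orth r) := by
  have : orth r = Set.pi Set.univ (fun _ : Fin r => Ioi (0 : ℝ)) := by
    ext y; simp [orth]
  rw [this]
  exact MeasurableSet.univ_pi fun _ => measurableSet_Ioi

theorem restrict_orth (r : ℕ) : (volume : Measure (Fin r → ℝ)).restrict (orth r)
    = Measure.pi (fun _ : Fin r => (volume : Measure ℝ).restrict (Ioi 0)) := by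
  have : orth r = Set.pi Set.univ (fun _ : Fin r => Ioi (0 : ℝ)) := by
    ext y; simp [orth]
  rw [this, volume_pi, Measure.restrict_pi_pi]

/-- Splitting off a coordinate of the orthant. -/
theorem integrableOn_split {n : ℕ} (k : Fin (n + 1)) (f : ℝ × (Fin n → ℝ) → ℝ)
    (s : Set ℝ) (t : Set (Fin n → ℝ)) :
    IntegrableOn (fun y : Fin (n + 1) → ℝ => f (y k, fun j => y (k.succAbove j)))
      {y | y k ∈ s ∧ (fun j => y (k.succAbove j)) ∈ t} ↔
    Integrable f ((volume.restrict s).prod (volume.restrict t)) := by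
  rw [Measure.prod_restrict]
  have h := (volume_preserving_piFinSuccAbove (fun _ : Fin (n + 1) => ℝ) k)
  have h2 := h.integrableOn_comp_preimage
    (MeasurableEquiv.piFinSuccAbove (fun _ : Fin (n + 1) => ℝ) k).measurableEmbedding
    (f := f) (s := s ×ˢ t)
  exact h2

theorem integral_split {n : ℕ} (k : Fin (n + 1)) (f : ℝ × (Fin n → ℝ) → ℝ)
    (s : Set ℝ) (t : Set (Fin n → ℝ)) :
    ∫ y in {y : Fin (n + 1) → ℝ | y k ∈ s ∧ (fun j => y (k.succAbove j)) ∈ t},
      f (y k, fun j => y (k.succAbove j)) =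
    ∫ p, f p ∂((volume.restrict s).prod (volume.restrict t)) := by
  rw [Measure.prod_restrict]
  have h := (volume_preserving_piFinSuccAbove (fun _ : Fin (n + 1) => ℝ) k)
  have h2 := h.setIntegral_preimage_emb
    (MeasurableEquiv.piFinSuccAbove (fun _ : Fin (n + 1) => ℝ) k).measurableEmbedding
    f (s ×ˢ t)
  exact h2

theorem orth_split {n : ℕ} (k : Fin (n + 1)) :
    orth (n + 1) = {y | y k ∈ Ioi (0:ℝ) ∧ (fun j => y (k.succAbove j)) ∈ orth n} := by
  ext y
  simp only [orth, mem_ofPred_eq, mem_Ioi]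
  constructor
  · intro h
    exact ⟨h k, fun j => h _⟩
  · rintro ⟨h1, h2⟩ i
    rcases Fin.eq_self_or_eq_succAbove k i with h | ⟨j, h⟩
    · rw [h]; exact h1
    · rw [h]; exact h2 j

/-- The dominating function in the region where `y k` is large. -/
theorem integrableOn_region {n p : ℕ} (hp : p + 2 ≤ n) (k : Fin (n + 1)) (c : ℝ) (hc : 0 < c) :
    IntegrableOn (fun y : Fin (n + 1) → ℝ => (y k) ^ p *
      Real.exp (-c * (y k * ∑ j, y (k.succAbove j))))
      {y | y k ∈ Ici (1:ℝ) ∧ (fun j => y (k.succAbove j)) ∈ orth n} := by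
  rw [integrableOn_split k (fun q : ℝ × (Fin n → ℝ) => q.1 ^ p *
      Real.exp (-c * (q.1 * ∑ j, q.2 j))) (Ici 1) (orth n)]
  have hexp : ∀ t : ℝ, 0 < t → IntegrableOn (fun z : ℝ => Real.exp (-(c * t) * z)) (Ioi 0) :=
    fun t ht => integrableOn_exp_mul_Ioi (by nlinarith [mul_pos hc ht]) 0
  have hint : ∀ t : ℝ, 0 < t → ∫ z in Ioi (0:ℝ), Real.exp (-(c * t) * z) = (c * t)⁻¹ := by
    intro t ht
    have := integral_exp_mul_Ioi (a := -(c * t)) (by nlinarith [mul_pos hc ht]) 0
    rw [this]; simp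
  have hprod : ∀ (t : ℝ) (z : Fin n → ℝ), Real.exp (-c * (t * ∑ j, z j)) =
      ∏ j, Real.exp (-(c * t) * z j) := by
    intro t z
    rw [← Real.exp_sum, ← Finset.mul_sum]; congr 1; ring
  rw [integrable_prod_iff]
  · constructor
    · refine (ae_restrict_iff' measurableSet_Ici).2 (Filter.Eventually.of_forall fun t ht => ?_)
      have ht' : (0:ℝ) < t := lt_of_lt_of_le one_pos ht
      simp only [hprod]
      apply Integrable.const_mul
      rw [restrict_orth]
      exact Integrable.fintype_prod (f := fun (_ : Fin n) (z : ℝ) => Real.exp (-(c * t) * z))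
        (fun _ => hexp t ht')
    · have : ∀ t ∈ Ici (1:ℝ), (∫ z in orth n, ‖t ^ p * Real.exp (-c * (t * ∑ j, z j))‖) =
          t ^ p * (c * t)⁻¹ ^ n := by
        intro t ht
        have ht' : (0:ℝ) < t := lt_of_lt_of_le one_pos ht
        simp only [hprod]
        have h1 : ∀ z : Fin n → ℝ, ‖t ^ p * ∏ j, Real.exp (-(c * t) * z j)‖ =
            t ^ p * ∏ j, Real.exp (-(c * t) * z j) := by
          intro z
          rw [Real.norm_of_nonneg]
          exact mul_nonneg (pow_nonneg ht'.le _) (Finset.prod_nonneg fun _ _ => (Real.exp_pos _).le)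
        simp only [h1]
        rw [integral_const_mul, restrict_orth,
          integral_fintype_prod_eq_prod (f := fun (_ : Fin n) (z : ℝ) => Real.exp (-(c * t) * z))]
        simp only [hint t ht', Finset.prod_const, Finset.card_univ, Fintype.card_fin]
      refine (IntegrableOn.congr_fun (f := fun t : ℝ => t ^ p * (c * t)⁻¹ ^ n) ?_
        (fun t ht => (this t ht).symm) measurableSet_Ici)
      have hb : IntegrableOn (fun t : ℝ => (c⁻¹) ^ n * t ^ (-2 : ℝ)) (Ici 1) := by
        rw [integrableOn_Ici_iff_integrableOn_Ioi]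
        exact (integrableOn_Ioi_rpow_of_lt (by norm_num) one_pos).const_mul _
      refine Integrable.mono' hb ?_ ?_
      · apply Measurable.aestronglyMeasurable
        fun_prop
      · refine (ae_restrict_iff' measurableSet_Ici).2 (Filter.Eventually.of_forall fun t ht => ?_)
        have ht' : (0:ℝ) < t := lt_of_lt_of_le one_pos ht
        have ht1 : (1:ℝ) ≤ t := ht
        rw [Real.norm_of_nonneg (by positivity), mul_inv, mul_pow, mul_left_comm]
        apply mul_le_mul_of_nonneg_left _ (by positivity)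
        rw [Real.rpow_neg ht'.le, inv_pow, ← div_eq_mul_inv, div_le_iff₀ (by positivity)]
        rw [show ((2:ℝ)) = ((2:ℕ):ℝ) by norm_num, Real.rpow_natCast, inv_mul_eq_div,
          le_div_iff₀ (by positivity), ← pow_add]
        exact pow_le_pow_right₀ ht1 (by omega)
  · apply Continuous.aestronglyMeasurable
    fun_prop

/-- Half of the sum over ordered pairs is the sum over unordered pairs. -/
theorem pairs_eq {r : ℕ} (y : Fin r → ℝ) :
    ∑ i, ∑ j, (if i ≠ j then y i * y j else 0) = 2 * ∑ i, ∑ j, if i < j then y i * y j else 0 := by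
  have h1 : ∑ i, ∑ j, (if i < j then y i * y j else 0) =
      ∑ i, ∑ j, (if j < i then y i * y j else 0) := by
    rw [Finset.sum_comm]
    refine Finset.sum_congr rfl fun i _ => Finset.sum_congr rfl fun j _ => ?_
    rw [mul_comm]
  have h2 : ∀ i j : Fin r, (if i ≠ j then y i * y j else 0) =
      (if i < j then y i * y j else 0) + (if j < i then y i * y j else 0) := by
    intro i j
    rcases lt_trichotomy i j with h | h | h
    · simp [h, h.ne, h.not_gt]
    · simp [h]
    · simp [h, h.ne', h.not_gt]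
  simp only [h2, Finset.sum_add_distrib]
  rw [← h1]; ring

theorem sum_ne_eq {n : ℕ} (k : Fin (n + 1)) (y : Fin (n + 1) → ℝ) :
    ∑ j, (if k ≠ j then y k * y j else 0) = y k * ∑ j, y (k.succAbove j) := by
  rw [Fin.sum_univ_succAbove _ k]
  simp [Finset.mul_sum]

theorem pairs_ge {n : ℕ} (k : Fin (n + 1)) (y : Fin (n + 1) → ℝ) (hy : y ∈ orth (n + 1)) :
    (1 / 2) * (y k * ∑ j, y (k.succAbove j)) ≤ ∑ i, ∑ j, if i < j then y i * y j else 0 := by
  have h := pairs_eq y
  have h2 : ∑ j, (if k ≠ j then y k * y j else 0) ≤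
      ∑ i, ∑ j, (if i ≠ j then y i * y j else 0) := by
    refine Finset.single_le_sum (f := fun i => ∑ j, (if i ≠ j then y i * y j else 0)) ?_
      (Finset.mem_univ k)
    intro i _
    refine Finset.sum_nonneg fun j _ => ?_
    split_ifs
    · exact mul_nonneg (hy i).le (hy j).le
    · exact le_rfl
  rw [sum_ne_eq] at h2
  linarith

theorem pairs_nonneg {r : ℕ} (y : Fin r → ℝ) (hy : y ∈ orth r) :
    0 ≤ ∑ i, ∑ j, if i < j then y i * y j else 0 := by
  refine Finset.sum_nonneg fun i _ => Finset.sum_nonneg fun j _ => ?_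
  split_ifs
  · exact mul_nonneg (hy i).le (hy j).le
  · exact le_rfl

/-- The master integrability statement: a weight `y l ^ p` is allowed if `p + 3 ≤ r`. -/
theorem integrableOn_pow_pairs {r p : ℕ} (hr : p + 3 ≤ r) (l : Fin r) (c : ℝ) (hc : 0 < c) :
    IntegrableOn (fun y : Fin r → ℝ => (y l) ^ p *
      Real.exp (-c * ∑ i, ∑ j, if i < j then y i * y j else 0)) (orth r) := by
  obtain ⟨n, rfl⟩ : ∃ n, r = n + 1 := ⟨r - 1, by omega⟩
  have hn : p + 2 ≤ n := by omega
  set S : Fin (n + 1) → Set (Fin (n + 1) → ℝ) := fun k =>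
    {y | y k ∈ Ici (1:ℝ) ∧ (fun j => y (k.succAbove j)) ∈ orth n} with hS
  have hSm : ∀ k, MeasurableSet (S k) := by
    intro k
    have h1 : MeasurableSet {y : Fin (n + 1) → ℝ | y k ∈ Ici (1:ℝ)} :=
      measurableSet_Ici.preimage (measurable_pi_apply k)
    have h2 : MeasurableSet {y : Fin (n + 1) → ℝ | (fun j => y (k.succAbove j)) ∈ orth n} :=
      (measurableSet_orth' n).preimage (by fun_prop)
    exact h1.inter h2
  set Q : Set (Fin (n + 1) → ℝ) := Icc 0 1 with hQ
  set Φ : Fin (n + 1) → (Fin (n + 1) → ℝ) → ℝ := fun k y => (y k) ^ p *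
      Real.exp (-(c / 2) * (y k * ∑ j, y (k.succAbove j))) with hΦ
  have hΦi : ∀ k, Integrable ((S k).indicator (Φ k)) volume := fun k =>
    (integrable_indicator_iff (hSm k)).2 (integrableOn_region hn k (c / 2) (by positivity))
  have hQi : Integrable (Q.indicator (fun _ => (1:ℝ))) volume := by
    refine (integrable_indicator_iff measurableSet_Icc).2 ?_
    exact integrableOn_const (isCompact_Icc.measure_lt_top.ne)
  have hB : Integrable (fun y => Q.indicator (fun _ => (1:ℝ)) y + ∑ k, (S k).indicator (Φ k) y)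
      volume := hQi.add (integrable_finsetSum _ fun k _ => hΦi k)
  refine Integrable.mono' hB.integrableOn ?_ ?_
  · apply Measurable.aestronglyMeasurable
    apply Measurable.mul (by fun_prop)
    apply Real.measurable_exp.comp
    apply Measurable.const_mul
    refine Finset.measurable_sum _ fun i _ => Finset.measurable_sum _ fun j _ => ?_
    split_ifs <;> fun_prop
  · refine (ae_restrict_iff' (measurableSet_orth' _)).2 (Filter.Eventually.of_forall fun y hy => ?_)
    have hnn : 0 ≤ (y l) ^ p * Real.exp (-c * ∑ i, ∑ j, if i < j then y i * y j else 0) :=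
      mul_nonneg (pow_nonneg (hy l).le _) (Real.exp_pos _).le
    rw [Real.norm_of_nonneg hnn]
    have hΦnn : ∀ k, 0 ≤ (S k).indicator (Φ k) y := fun k =>
      Set.indicator_apply_nonneg
        (fun _ => mul_nonneg (pow_nonneg (hy k).le _) (Real.exp_pos _).le)
    have hQnn : 0 ≤ Q.indicator (fun _ => (1:ℝ)) y := Set.indicator_nonneg (fun _ _ => zero_le_one) _
    obtain ⟨k, hk⟩ := Finite.exists_max y
    rcases le_total (y k) 1 with h1 | h1
    · have hyQ : y ∈ Q := ⟨fun i => (hy i).le, fun i => (hk i).trans h1⟩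
      have : (y l) ^ p * Real.exp (-c * ∑ i, ∑ j, if i < j then y i * y j else 0) ≤ 1 := by
        apply mul_le_one₀ (pow_le_one₀ (hy l).le ((hk l).trans h1)) (Real.exp_pos _).le
        rw [Real.exp_le_one_iff]
        have := pairs_nonneg y hy
        nlinarith
      rw [Set.indicator_of_mem hyQ]
      have : 0 ≤ ∑ k, (S k).indicator (Φ k) y := Finset.sum_nonneg fun k _ => hΦnn k
      linarith
    · have hyS : y ∈ S k := ⟨h1, fun j => hy _⟩
      have h3 : (y l) ^ p * Real.exp (-c * ∑ i, ∑ j, if i < j then y i * y j else 0) ≤ Φ k y := by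
        simp only [hΦ]
        apply mul_le_mul (pow_le_pow_left₀ (hy l).le (hk l) _) _ (Real.exp_pos _).le
          (pow_nonneg (hy k).le _)
        apply Real.exp_le_exp.2
        have := pairs_ge k y hy
        nlinarith
      have h4 : Φ k y ≤ ∑ k, (S k).indicator (Φ k) y := by
        refine le_trans (le_of_eq ?_) (Finset.single_le_sum (f := fun k => (S k).indicator (Φ k) y)
          (fun k _ => hΦnn k) (Finset.mem_univ k))
        rw [Set.indicator_of_mem hyS]
      linarith

/-- M4a: the basic integrable majorant. -/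
theorem integrableOn_pairs {r : ℕ} (hr : 3 ≤ r) (c : ℝ) (hc : 0 < c) :
    IntegrableOn (fun y : Fin r → ℝ =>
      Real.exp (-c * ∑ i, ∑ j, if i < j then y i * y j else 0)) (orth r) := by
  have := integrableOn_pow_pairs (p := 0) (r := r) (by omega) ⟨0, by omega⟩ c hc
  simpa using this

/-! ### Quadratic forms -/

theorem continuous_qf {r : ℕ} (G : Matrix (Fin r) (Fin r) ℝ) : Continuous (qf G) := by
  unfold qf; fun_prop

theorem qf_split {n : ℕ} (G : Matrix (Fin (n + 1)) (Fin (n + 1)) ℝ) (hs : ∀ i j, G i j = G j i)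
    (k : Fin (n + 1)) (y : Fin (n + 1) → ℝ) :
    qf G y = G k k * (y k) ^ 2 + 2 * (y k * ∑ j, G k (k.succAbove j) * y (k.succAbove j)) +
      qf (G.submatrix k.succAbove k.succAbove) (fun j => y (k.succAbove j)) := by
  unfold qf
  rw [Fin.sum_univ_succAbove _ k, Fin.sum_univ_succAbove _ k]
  have h1 : ∑ i, ∑ j, y (k.succAbove i) * G (k.succAbove i) j * y j =
      ∑ i, (y k * (G k (k.succAbove i) * y (k.succAbove i)) +
        ∑ j, y (k.succAbove i) * G.submatrix k.succAbove k.succAbove i j * y (k.succAbove j)) := by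
    refine Finset.sum_congr rfl fun i _ => ?_
    rw [Fin.sum_univ_succAbove _ k, hs (k.succAbove i) k]
    simp only [Matrix.submatrix_apply]
    ring
  rw [h1, Finset.sum_add_distrib, ← Finset.mul_sum]
  have h2 : ∑ i, y k * G k (k.succAbove i) * y (k.succAbove i) =
      y k * ∑ i, G k (k.succAbove i) * y (k.succAbove i) := by
    rw [Finset.mul_sum]
    exact Finset.sum_congr rfl fun i _ => by ring
  rw [h2]
  ring

theorem Adm.submatrix {r s : ℕ} {G : Matrix (Fin r) (Fin r) ℝ} (hG : Adm G) (f : Fin s → Fin r)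
    (hf : Function.Injective f) : Adm (G.submatrix f f) where
  symm i j := hG.symm _ _
  diag i := hG.diag _
  off i j h := hG.off _ _ (fun e => h (hf e))

/-- A uniform bound for the off-diagonal entries. -/
theorem Adm.exists_bound {r : ℕ} {G : Matrix (Fin r) (Fin r) ℝ} (hG : Adm G) :
    ∃ c : ℝ, 0 < c ∧ ∀ i j, i ≠ j → G i j ≤ -c := by
  classical
  have : ∃ c : ℝ, 0 < c ∧ ∀ q : Fin r × Fin r, q.1 ≠ q.2 → G q.1 q.2 ≤ -c := by
    let f : Fin r × Fin r → ℝ := fun q => if q.1 ≠ q.2 then -G q.1 q.2 else 1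
    rcases isEmpty_or_nonempty (Fin r × Fin r) with h | h
    · exact ⟨1, one_pos, fun q => (h.false q).elim⟩
    · obtain ⟨q0, hq0⟩ := Finite.exists_min f
      have hpos : ∀ q, 0 < f q := by
        intro q
        simp only [f]
        split_ifs with hq
        · have := hG.off _ _ hq; linarith
        · exact one_pos
      refine ⟨f q0, hpos q0, fun q hq => ?_⟩
      have h1 := hq0 q
      have h2 : f q = -G q.1 q.2 := by simp only [f]; rw [if_pos hq]
      rw [h2] at h1
      linarith
  obtain ⟨c, hc, h⟩ := this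
  exact ⟨c, hc, fun i j hij => h (i, j) hij⟩

theorem qf_le {r : ℕ} {G : Matrix (Fin r) (Fin r) ℝ} {c : ℝ}
    (hb : ∀ i j, i ≠ j → G i j ≤ -c) {y : Fin r → ℝ} (hy : y ∈ orth r) :
    qf G y ≤ ∑ i, G i i * (y i) ^ 2 - 2 * c * ∑ i, ∑ j, if i < j then y i * y j else 0 := by
  classical
  have h := pairs_eq y
  have h1 : 2 * c * ∑ i, ∑ j, (if i < j then y i * y j else 0) =
      ∑ i, ∑ j, (if i ≠ j then c * (y i * y j) else 0) := by
    rw [show 2 * c * ∑ i, ∑ j, (if i < j then y i * y j else 0) =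
      c * (2 * ∑ i, ∑ j, (if i < j then y i * y j else 0)) by ring, ← h, Finset.mul_sum]
    refine Finset.sum_congr rfl fun i _ => ?_
    rw [Finset.mul_sum]
    refine Finset.sum_congr rfl fun j _ => ?_
    split_ifs <;> ring
  rw [h1, ← Finset.sum_sub_distrib]
  unfold qf
  refine Finset.sum_le_sum fun i _ => ?_
  have h2 : G i i * (y i) ^ 2 = ∑ j, (if i = j then G i i * (y i) ^ 2 else 0) := by simp
  rw [h2, ← Finset.sum_sub_distrib]
  refine Finset.sum_le_sum fun j _ => ?_
  by_cases hij : i = j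
  · subst hij
    simp only [ne_eq, not_true_eq_false, if_false, if_true]
    apply le_of_eq; ring
  · simp only [hij, ne_eq, not_false_eq_true, if_true, if_false]
    have := hb i j hij
    have h3 : 0 < y i * y j := mul_pos (hy i) (hy j)
    nlinarith

theorem diag_sum_le {r : ℕ} {G : Matrix (Fin r) (Fin r) ℝ} (hG : Adm G) (k : Fin r)
    (y : Fin r → ℝ) : ∑ i, G i i * (y i) ^ 2 ≤ G k k * (y k) ^ 2 := by
  classical
  rw [← Finset.add_sum_erase _ _ (Finset.mem_univ k)]
  have : ∑ x ∈ Finset.univ.erase k, G x x * y x ^ 2 ≤ 0 :=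
    Finset.sum_nonpos fun i _ => mul_nonpos_of_nonpos_of_nonneg (hG.diag i) (sq_nonneg _)
  linarith

/-- Elementary bound: powers are absorbed by a Gaussian. -/
theorem exists_pow_le_exp_sq (p : ℕ) (a : ℝ) (ha : 0 < a) :
    ∃ C : ℝ, 0 ≤ C ∧ ∀ x : ℝ, 0 ≤ x → x ^ p ≤ C * Real.exp (a * x ^ 2) := by
  refine ⟨1 + (p.factorial : ℝ) / a ^ p, by positivity, fun x hx => ?_⟩
  have h1 := Real.pow_div_factorial_le_exp (a * x ^ 2) (by positivity) p
  have h2 : (1:ℝ) ≤ Real.exp (a * x ^ 2) := Real.one_le_exp (by positivity)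
  have h3 : x ^ p ≤ 1 + (x ^ 2) ^ p := by
    rw [← pow_mul, mul_comm 2 p, pow_mul]
    nlinarith [sq_nonneg (x ^ p - 1), pow_nonneg hx p]
  have h4 : (x ^ 2) ^ p ≤ (p.factorial : ℝ) / a ^ p * Real.exp (a * x ^ 2) := by
    rw [mul_pow, div_le_iff₀ (by positivity)] at h1
    rw [div_mul_eq_mul_div, le_div_iff₀ (by positivity)]
    nlinarith
  nlinarith

theorem exists_pow_le_exp (p : ℕ) (a : ℝ) (ha : 0 < a) :
    ∃ C : ℝ, 0 ≤ C ∧ ∀ x : ℝ, 0 ≤ x → x ^ p ≤ C * Real.exp (a * x) := by
  refine ⟨(p.factorial : ℝ) / a ^ p, by positivity, fun x hx => ?_⟩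
  have h1 := Real.pow_div_factorial_le_exp (a * x) (by positivity) p
  rw [mul_pow, div_le_iff₀ (by positivity)] at h1
  rw [div_mul_eq_mul_div, le_div_iff₀ (by positivity)]
  nlinarith

/-- General domination principle for weights. -/
theorem integrableOn_weight {r p : ℕ} (hr : p + 3 ≤ r) (l : Fin r)
    {G : Matrix (Fin r) (Fin r) ℝ}
    {c C : ℝ} (hc : 0 < c) (w : (Fin r → ℝ) → ℝ) (hw : Continuous w)
    (hb : ∀ y ∈ orth r, |w y| * Real.exp ((1 / 2) * qf G y) ≤
      C * ((y l) ^ p * Real.exp (-c * ∑ i, ∑ j, if i < j then y i * y j else 0))) :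
    IntegrableOn (fun y => w y * Real.exp ((1 / 2) * qf G y)) (orth r) := by
  refine Integrable.mono' ((integrableOn_pow_pairs hr l c hc).const_mul C) ?_ ?_
  · apply Continuous.aestronglyMeasurable
    exact hw.mul (Real.continuous_exp.comp (continuous_const.mul (continuous_qf G)))
  · refine (ae_restrict_iff' (measurableSet_orth' _)).2 (Filter.Eventually.of_forall fun y hy => ?_)
    rw [norm_mul, Real.norm_eq_abs, Real.norm_of_nonneg (Real.exp_pos _).le]
    exact hb y hy

theorem integrableOn_exp_qf {r : ℕ} (hr : 3 ≤ r) {G : Matrix (Fin r) (Fin r) ℝ} (hG : Adm G) :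
    IntegrableOn (fun y => Real.exp ((1 / 2) * qf G y)) (orth r) := by
  obtain ⟨c, hc, hb⟩ := hG.exists_bound
  have := integrableOn_weight (p := 0) (G := G) (C := 1) (by omega) ⟨0, by omega⟩ hc (fun _ => 1)
    continuous_const (by
      intro y hy
      simp only [abs_one, one_mul, pow_zero]
      apply Real.exp_le_exp.2
      have h1 := qf_le hb hy
      have h2 := diag_sum_le hG ⟨0, by omega⟩ y
      have h3 := mul_nonpos_of_nonpos_of_nonneg (hG.diag ⟨0, by omega⟩) (sq_nonneg (y ⟨0, by omega⟩))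
      linarith)
  simpa using this

/-- For size at least four all first moments exist. -/
theorem integrableOn_mul_exp_qf {r : ℕ} (hr : 4 ≤ r) {G : Matrix (Fin r) (Fin r) ℝ} (hG : Adm G)
    (k : Fin r) : IntegrableOn (fun y => y k * Real.exp ((1 / 2) * qf G y)) (orth r) := by
  obtain ⟨c, hc, hb⟩ := hG.exists_bound
  refine integrableOn_weight (p := 1) (G := G) (C := 1) (by omega) k hc (fun y => y k)
    (continuous_apply k) (fun y hy => ?_)
  rw [abs_of_pos (hy k), pow_one, one_mul]
  apply mul_le_mul_of_nonneg_left _ (hy k).le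
  apply Real.exp_le_exp.2
  have h1 := qf_le hb hy
  have h2 := diag_sum_le hG k y
  have h3 := mul_nonpos_of_nonpos_of_nonneg (hG.diag k) (sq_nonneg (y k))
  linarith

/-- All moments of a variable with negative diagonal entry exist (size at least three). -/
theorem integrableOn_pow_exp_qf {r : ℕ} (hr : 3 ≤ r) {G : Matrix (Fin r) (Fin r) ℝ} (hG : Adm G)
    (k : Fin r) (hk : G k k < 0) (p : ℕ) :
    IntegrableOn (fun y => (y k) ^ p * Real.exp ((1 / 2) * qf G y)) (orth r) := by
  obtain ⟨c, hc, hb⟩ := hG.exists_bound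
  obtain ⟨C, hC, hCb⟩ := exists_pow_le_exp_sq p (-G k k / 2) (by linarith)
  refine integrableOn_weight (p := 0) (G := G) (C := C) (by omega) k hc (fun y => (y k) ^ p)
    (by fun_prop) (fun y hy => ?_)
  rw [abs_of_nonneg (pow_nonneg (hy k).le _), pow_zero, one_mul]
  have h1 := qf_le hb hy
  have h2 := diag_sum_le hG k y
  calc (y k) ^ p * Real.exp ((1 / 2) * qf G y)
      ≤ (C * Real.exp (-G k k / 2 * (y k) ^ 2)) * Real.exp ((1 / 2) * qf G y) :=
        mul_le_mul_of_nonneg_right (hCb _ (hy k).le) (Real.exp_pos _).le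
    _ = C * Real.exp (-G k k / 2 * (y k) ^ 2 + (1 / 2) * qf G y) := by
        rw [mul_assoc, ← Real.exp_add]
    _ ≤ _ := by
        apply mul_le_mul_of_nonneg_left _ hC
        apply Real.exp_le_exp.2
        linarith

theorem le_pairs {r : ℕ} {y : Fin r → ℝ} (hy : y ∈ orth r) {i j : Fin r} (hij : i ≠ j) :
    y i * y j ≤ ∑ i, ∑ j, if i < j then y i * y j else 0 := by
  wlog h : i < j generalizing i j
  · rw [mul_comm]
    exact this hij.symm (lt_of_le_of_ne (not_lt.1 h) hij.symm)
  have h1 : (if i < j then y i * y j else 0) ≤ ∑ j, (if i < j then y i * y j else 0) := by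
    refine Finset.single_le_sum (f := fun j => (if i < j then y i * y j else 0)) (fun b _ => ?_)
      (Finset.mem_univ j)
    split_ifs
    · exact mul_nonneg (hy i).le (hy b).le
    · exact le_rfl
  have h2 : ∑ j, (if i < j then y i * y j else 0) ≤
      ∑ i, ∑ j, (if i < j then y i * y j else 0) := by
    refine Finset.single_le_sum (f := fun i => ∑ j, (if i < j then y i * y j else 0))
      (fun a _ => Finset.sum_nonneg fun b _ => ?_) (Finset.mem_univ i)
    split_ifs
    · exact mul_nonneg (hy a).le (hy b).le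
    · exact le_rfl
  rw [if_pos h] at h1
  exact h1.trans h2

/-- Mixed moments exist (size at least three). -/
theorem integrableOn_mixed_exp_qf {r : ℕ} (hr : 3 ≤ r) {G : Matrix (Fin r) (Fin r) ℝ}
    (hG : Adm G) (i j : Fin r) (hij : i ≠ j) (p : ℕ) :
    IntegrableOn (fun y => (y i * y j) ^ p * Real.exp ((1 / 2) * qf G y)) (orth r) := by
  obtain ⟨c, hc, hb⟩ := hG.exists_bound
  obtain ⟨C, hC, hCb⟩ := exists_pow_le_exp p (c / 2) (by linarith)
  refine integrableOn_weight (p := 0) (G := G) (C := C) (by omega) i (half_pos hc)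
    (fun y => (y i * y j) ^ p) (by fun_prop) (fun y hy => ?_)
  have hnn : 0 ≤ y i * y j := mul_nonneg (hy i).le (hy j).le
  rw [abs_of_nonneg (pow_nonneg hnn _), pow_zero, one_mul]
  have h1 := qf_le hb hy
  have h2 := diag_sum_le hG i y
  have h3 := mul_nonpos_of_nonpos_of_nonneg (hG.diag i) (sq_nonneg (y i))
  have h4 := le_pairs hy hij
  calc (y i * y j) ^ p * Real.exp ((1 / 2) * qf G y)
      ≤ (C * Real.exp (c / 2 * (y i * y j))) * Real.exp ((1 / 2) * qf G y) :=
        mul_le_mul_of_nonneg_right (hCb _ hnn) (Real.exp_pos _).le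
    _ = C * Real.exp (c / 2 * (y i * y j) + (1 / 2) * qf G y) := by
        rw [mul_assoc, ← Real.exp_add]
    _ ≤ _ := by
        apply mul_le_mul_of_nonneg_left _ hC
        apply Real.exp_le_exp.2
        nlinarith

end Bellows
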