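import Pool.Agent.Bellows.M7b
import Pool.Agent.Bellows.M4a

/-!
# Bellows, M7: the volume as a sum of signed cone integrals
-/

open MeasureTheory

namespace Bellows

theorem sgi_mul_eq {r : ℕ} (w : Fin (r + 2) → Fin (r + 2) → ℝ) (x : E (r + 1)) :
    sgi w (lift x) * (1 - ‖x‖ ^ 2) ^ (-((r : ℝ) + 2) / 2) =
      (SignType.sign (Matrix.of w).det : ℝ) * hd w x := by
  classical
  unfold sgi hd
  rw [mem_cone]
  split_ifs with h <;> simp

/-- One plate: integrability and value of the integral. -/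
theorem plate_integral {r : ℕ} (hr : 1 ≤ r) (w : Fin (r + 2) → Fin (r + 2) → ℝ)
    (h0 : FT (w 0)) (hwF : ∀ i, FC (w i)) :
    Integrable (fun x : E (r + 1) => sgi w (lift x) * (1 - ‖x‖ ^ 2) ^ (-((r : ℝ) + 2) / 2)) ∧
    Cn r * ∫ x : E (r + 1), sgi w (lift x) * (1 - ‖x‖ ^ 2) ^ (-((r : ℝ) + 2) / 2) = S w := by
  by_cases hw : (Matrix.of w).det = 0
  · have h1 : (fun x : E (r + 1) => sgi w (lift x) * (1 - ‖x‖ ^ 2) ^ (-((r : ℝ) + 2) / 2)) = fun _ => 0 := by
      funext x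
      rw [sgi_mul_eq, hw]
      simp
    rw [h1]
    refine ⟨integrable_zero _ _ _, ?_⟩
    unfold S
    rw [hw]
    simp
  · have hli : LinearIndependent ℝ w := Matrix.linearIndependent_rows_of_det_ne_zero hw
    have hint := integrableOn_exp_qf (r := r + 2) (by omega) (gram_adm hwF hli)
    obtain ⟨h1, h2⟩ := integral_hd w hw h0 hwF hint
    simp only [sgi_mul_eq]
    refine ⟨h1.const_mul _, ?_⟩
    rw [integral_const_mul, mul_left_comm, h2, ← mul_assoc, sign_mul_abs]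
    rfl

/-- M7 for every dimension `r + 1 ≥ 2`. -/
theorem vol_eq' {r N : ℕ} (hr : 1 ≤ r) (K : Cycle r N) (P : Fin N → E (r + 1))
    (hP : ∀ v, ‖P v‖ ≤ 1) (o : Fin (r + 2) → ℝ) (ho : FT o) :
    IntegrableOn (fun x => (lam K P x : ℝ) * (1 - ‖x‖ ^ 2) ^ (-((r : ℝ) + 2) / 2))
      (Metric.ball (0 : E (r + 1)) 1) ∧
    Cn r * vol K P =
      ∑ a ∈ K.facets, (K.coeff a : ℝ) * S (Fin.cons o (fun i => lift (P (a i)))) := by
  set w : (Fin (r + 1) ↪o Fin N) → Fin (r + 2) → Fin (r + 2) → ℝ := fun a =>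
    Fin.cons o (fun i => lift (P (a i))) with hw
  have hwF : ∀ a i, FC (w a i) := by
    intro a i
    refine Fin.cases ?_ (fun i => ?_) i
    · exact ho.fc
    · exact fc_lift (hP _)
  have hw0 : ∀ a, FT (w a 0) := fun a => ho
  have hae : (fun x => (lam K P x : ℝ) * (1 - ‖x‖ ^ 2) ^ (-((r : ℝ) + 2) / 2)) =ᵐ[volume]
      fun x => ∑ a ∈ K.facets, (K.coeff a : ℝ) *
        (sgi (w a) (lift x) * (1 - ‖x‖ ^ 2) ^ (-((r : ℝ) + 2) / 2)) := by
    filter_upwards [lam_eq K P hP o ho] with x hx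
    rw [hx, Finset.sum_mul]
    refine Finset.sum_congr rfl fun a _ => ?_
    rw [mul_assoc]
  have hI : ∀ a ∈ K.facets, Integrable fun x : E (r + 1) => (K.coeff a : ℝ) *
        (sgi (w a) (lift x) * (1 - ‖x‖ ^ 2) ^ (-((r : ℝ) + 2) / 2)) := fun a _ =>
    (plate_integral hr (w a) (hw0 a) (hwF a)).1.const_mul _
  have hInt : Integrable (fun x => (lam K P x : ℝ) * (1 - ‖x‖ ^ 2) ^ (-((r : ℝ) + 2) / 2)) :=
    (integrable_finsetSum _ hI).congr hae.symm
  refine ⟨hInt.integrableOn, ?_⟩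
  unfold vol
  rw [integral_congr_ae (ae_restrict_of_ae hae)]
  rw [setIntegral_eq_integral_of_forall_compl_eq_zero]
  · rw [integral_finsetSum _ hI, Finset.mul_sum]
    refine Finset.sum_congr rfl fun a _ => ?_
    rw [integral_const_mul, mul_left_comm, (plate_integral hr (w a) (hw0 a) (hwF a)).2]
  · intro x hx
    refine Finset.sum_eq_zero fun a _ => ?_
    rw [sgi_mul_eq]
    have : hd (w a) x = 0 := by
      classical
      unfold hd
      rw [if_neg]
      intro hmem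
      apply hx
      have h1 := (cone_ft (w a) (hw0 a) (hwF a) hmem).1
      rw [lf_lift] at h1
      rw [mem_ball_zero_iff]
      nlinarith [norm_nonneg x]
    rw [this]
    simp

/-- M7: volume through signed cone integrals; `r = m + 2`, so the dimension is `n = m + 3`. -/
theorem vol_eq {m N : ℕ} (K : Cycle (m + 2) N) (P : Fin N → E (m + 3))
    (hP : ∀ v, ‖P v‖ ≤ 1) (o : Fin (m + 4) → ℝ) (ho : lf o o < 0) (ho0 : 0 < o 0) :
    IntegrableOn (fun x => (lam K P x : ℝ) * (1 - ‖x‖ ^ 2) ^ (-(((m + 2 : ℕ) : ℝ) + 2) / 2))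
      (Metric.ball (0 : E (m + 3)) 1) ∧
    Cn (m + 2) * vol K P =
      ∑ a ∈ K.facets, (K.coeff a : ℝ) * S (Fin.cons o (fun i => lift (P (a i)))) :=
  vol_eq' (by omega) K P hP o ⟨ho, ho0⟩

end Bellows
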