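import Pool.Agent.Bellows.Core
import Pool.Agent.Bellows.Causal
import Pool.Agent.Bellows.M7
import Pool.Agent.Bellows.M9a

/-!
# M11a,b,c: normalised vectors, the isometries of the facets, invariance of `S`
-/

open Matrix MeasureTheory Topology

namespace Bellows

/-! ### M11a -/

/-- `nv p` is a positive multiple of `lift p` -/
theorem nv_eq_smul {n : ℕ} (p : E n) : ∃ s : ℝ, 0 < s ∧ nv p = s • lift p := by
  unfold nv
  split_ifs with h
  · refine ⟨_, inv_pos.mpr (Real.sqrt_pos.mpr ?_), rfl⟩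
    have h0 := norm_nonneg p
    nlinarith
  · exact ⟨1, one_pos, (one_smul _ _).symm⟩

theorem nv_FC {n : ℕ} (p : E n) (hp : ‖p‖ ≤ 1) : FC (nv p) := by
  obtain ⟨s, hs, h⟩ := nv_eq_smul p
  rw [h]
  exact (fc_lift hp).smul hs

theorem nv_norm {n : ℕ} (p : E n) (hp : ‖p‖ ≤ 1) :
    lf (nv p) (nv p) = -1 ∨ (lf (nv p) (nv p) = 0 ∧ nv p 0 = 1) := by
  unfold nv
  split_ifs with h
  · left
    have h0 := norm_nonneg p
    have h1 : 0 < 1 - ‖p‖ ^ 2 := by nlinarith
    rw [lf_smul_left, lf_smul_right, lf_lift]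
    have h2 : Real.sqrt (1 - ‖p‖ ^ 2) ≠ 0 := (Real.sqrt_pos.mpr h1).ne'
    have h3 : Real.sqrt (1 - ‖p‖ ^ 2) ^ 2 = 1 - ‖p‖ ^ 2 := Real.sq_sqrt h1.le
    generalize Real.sqrt (1 - ‖p‖ ^ 2) = s at h2 h3
    rw [← h3]
    field_simp
  · right
    have h1 : ‖p‖ = 1 := le_antisymm hp (not_lt.mp h)
    refine ⟨?_, rfl⟩
    rw [lf_lift, h1]
    norm_num

/-! ### M11b -/

/-- a Lorentz matrix in the sense of `IsLorentz` -/
theorem IsLorentz.isLor {n : ℕ} {g : Matrix (Fin (n + 1)) (Fin (n + 1)) ℝ} (hg : IsLorentz g) :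
    IsLor g := hg.form

/-- the image of a point of the closed ball, with the positive factor -/
theorem MapsPt.exists_pos {n : ℕ} {g : Matrix (Fin (n + 1)) (Fin (n + 1)) ℝ} (hg : IsLorentz g)
    {p q : E n} (hp : ‖p‖ ≤ 1) (h : MapsPt g p q) :
    ∃ c : ℝ, 0 < c ∧ g.mulVec (lift p) = c • lift q := by
  obtain ⟨c, hc⟩ := h
  refine ⟨c, ?_, hc⟩
  have h1 := (hg.isLor.fc hg.future (fc_lift hp)).2
  rw [hc] at h1
  simpa [lift_zero_coord] using h1

/-- every point of the closed ball has an image -/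
theorem exists_mapsPt {n : ℕ} {g : Matrix (Fin (n + 1)) (Fin (n + 1)) ℝ} (hg : IsLorentz g)
    {p : E n} (hp : ‖p‖ ≤ 1) : ∃ q : E n, MapsPt g p q := by
  have h1 := (hg.isLor.fc hg.future (fc_lift hp)).2
  refine ⟨WithLp.toLp 2 fun i => g.mulVec (lift p) i.succ / g.mulVec (lift p) 0,
    g.mulVec (lift p) 0, ?_⟩
  funext i
  refine Fin.cases ?_ (fun i => ?_) i
  · simp [lift_zero_coord]
  · simp only [Pi.smul_apply, lift_succ, smul_eq_mul]
    field_simp

/-- two Lorentz matrices which agree as maps on a segment agree on the vectors of its ends -/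
theorem eq_on_segment {n : ℕ} {g h : Matrix (Fin (n + 1)) (Fin (n + 1)) ℝ} (hg : IsLorentz g)
    (hh : IsLorentz h) {v w : E n} (hv : ‖v‖ ≤ 1) (hw : ‖w‖ ≤ 1)
    (hvw : lf (lift v) (lift w) < 0)
    (hli : LinearIndependent ℝ ![lift v, lift w])
    (hmaps : ∀ x ∈ segment ℝ v w, ∀ y, MapsPt g x y ↔ MapsPt h x y) :
    h.mulVec (lift v) = g.mulVec (lift v) := by
  -- on every point of the segment the two images are proportional
  have key : ∀ x ∈ segment ℝ v w, ∃ α : ℝ, 0 < α ∧ h.mulVec (lift x) = α • g.mulVec (lift x) := by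
    intro x hx
    have hx1 : ‖x‖ ≤ 1 := by
      have hc : Convex ℝ (Metric.closedBall (0 : E n) 1) := convex_closedBall _ _
      have := hc.segment_subset (by simpa using hv) (by simpa using hw) hx
      simpa using this
    obtain ⟨y, hy⟩ := exists_mapsPt hg hx1
    obtain ⟨c, hc, h1⟩ := hy.exists_pos hg hx1
    obtain ⟨c', hc', h2⟩ := ((hmaps x hx y).mp hy).exists_pos hh hx1
    refine ⟨c' / c, div_pos hc' hc, ?_⟩
    rw [h1, h2, smul_smul, div_mul_cancel₀ _ hc.ne']
  obtain ⟨α, hα, h1⟩ := key v (left_mem_segment ℝ v w)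
  obtain ⟨β, hβ, h2⟩ := key w (right_mem_segment ℝ v w)
  have hmid : midpoint ℝ v w ∈ segment ℝ v w := midpoint_mem_segment v w
  obtain ⟨γ, hγ, h3⟩ := key _ hmid
  have hlm : lift (midpoint ℝ v w) = (1 / 2 : ℝ) • (lift v + lift w) := by
    funext i
    refine Fin.cases ?_ (fun i => ?_) i
    · simp [lift_zero_coord]
      norm_num
    · simp only [lift_succ, midpoint_eq_smul_add, PiLp.smul_apply, PiLp.add_apply, Pi.smul_apply,
        Pi.add_apply, smul_eq_mul, invOf_eq_inv]
      ring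
  have hli' : LinearIndependent ℝ ![g.mulVec (lift v), g.mulVec (lift w)] := by
    rw [LinearIndependent.pair_iff] at hli ⊢
    intro s t hst
    apply hli s t
    have : g.mulVec (s • lift v + t • lift w) = 0 := by
      rw [Matrix.mulVec_add, Matrix.mulVec_smul, Matrix.mulVec_smul]; exact hst
    have h4 := hg.isLor.inv_mulVec (s • lift v + t • lift w)
    rw [this, Matrix.mulVec_zero] at h4
    exact h4.symm
  -- comparison of the coefficients
  have h4 : (α - γ) • g.mulVec (lift v) + (β - γ) • g.mulVec (lift w) = 0 := by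
    have h5 : h.mulVec (lift (midpoint ℝ v w)) =
        (1 / 2 : ℝ) • (α • g.mulVec (lift v) + β • g.mulVec (lift w)) := by
      rw [hlm, Matrix.mulVec_smul, Matrix.mulVec_add, h1, h2]
    have h6 : g.mulVec (lift (midpoint ℝ v w)) =
        (1 / 2 : ℝ) • (g.mulVec (lift v) + g.mulVec (lift w)) := by
      rw [hlm, Matrix.mulVec_smul, Matrix.mulVec_add]
    rw [h5, h6] at h3
    funext i
    have h7 := congrFun h3 i
    simp only [Pi.smul_apply, Pi.add_apply, smul_eq_mul, Pi.zero_apply] at h7 ⊢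
    linarith
  obtain ⟨h5, h6⟩ := (LinearIndependent.pair_iff.mp hli') _ _ h4
  have hαβ : α = β := by linarith
  -- the common factor is one
  have h7 : lf (h.mulVec (lift v)) (h.mulVec (lift w)) = lf (lift v) (lift w) := hh.form _ _
  rw [h1, h2, lf_smul_left, lf_smul_right, hg.form, ← hαβ] at h7
  have h8 : α * α = 1 := by
    have : (α * α - 1) * lf (lift v) (lift w) = 0 := by linarith
    rcases mul_eq_zero.mp this with h | h
    · linarith
    · exact absurd h hvw.ne
  have h9 : α = 1 := by nlinarith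
  rw [h1, h9, one_smul]

/-- Two Lorentz matrices which map at least three independent causal vectors to positive multiples
of the same vectors agree on these vectors. -/
theorem agree_of_three {d m : ℕ} {g h : Matrix (Fin (d + 1)) (Fin (d + 1)) ℝ} (hg : IsLor g)
    (hh : IsLor h) (hm : 0 < m) {x : Fin (m + 2) → Fin (d + 1) → ℝ} (hx : ∀ k, FC (x k))
    (hli : LinearIndependent ℝ x) (z : Fin (m + 2) → Fin (d + 1) → ℝ)
    (h1 : ∀ k, ∃ c : ℝ, 0 < c ∧ g.mulVec (x k) = c • z k)
    (h2 : ∀ k, ∃ c : ℝ, 0 < c ∧ h.mulVec (x k) = c • z k) (k : Fin (m + 2)) :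
    g.mulVec (x k) = h.mulVec (x k) := by
  choose c hc0 hc using h1
  choose e he0 he using h2
  have key : ∀ k l, k ≠ l → c k * c l = e k * e l := by
    intro k l hkl
    have hneg := indep_lf_neg hx hli k l hkl
    have h3 := hg (x k) (x l)
    have h4 := hh (x k) (x l)
    rw [hc, hc, lf_smul_left, lf_smul_right] at h3
    rw [he, he, lf_smul_left, lf_smul_right] at h4
    have hz : lf (z k) (z l) ≠ 0 := by
      intro h0
      rw [h0] at h3
      simp at h3
      rw [← h3] at hneg
      exact absurd hneg (lt_irrefl _)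
    have h5 : (c k * c l) * lf (z k) (z l) = (e k * e l) * lf (z k) (z l) := by
      rw [mul_assoc, h3, mul_assoc, h4]
    exact mul_right_cancel₀ hz h5
  obtain ⟨l, p, hkl, hkp, hlp⟩ : ∃ l p : Fin (m + 2), k ≠ l ∧ k ≠ p ∧ l ≠ p := by
    have ne : ∀ (a b : ℕ) (ha : a < m + 2) (hb : b < m + 2), a ≠ b →
        (⟨a, ha⟩ : Fin (m + 2)) ≠ ⟨b, hb⟩ := fun a b ha hb hab h => hab (congrArg Fin.val h)
    obtain ⟨k, hk⟩ := k
    by_cases h0 : k = 0
    · exact ⟨⟨1, by omega⟩, ⟨2, by omega⟩, ne _ _ _ _ (by omega), ne _ _ _ _ (by omega),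
        ne _ _ _ _ (by omega)⟩
    · by_cases h1 : k = 1
      · exact ⟨⟨0, by omega⟩, ⟨2, by omega⟩, ne _ _ _ _ (by omega), ne _ _ _ _ (by omega),
          ne _ _ _ _ (by omega)⟩
      · exact ⟨⟨0, by omega⟩, ⟨1, by omega⟩, ne _ _ _ _ (by omega), ne _ _ _ _ (by omega),
          ne _ _ _ _ (by omega)⟩
  have h3 := key k l hkl
  have h4 := key k p hkp
  have h5 := key l p hlp
  have h6 : c k ^ 2 = e k ^ 2 := by
    have h7 : (c k) ^ 2 * (c l * c p) = (e k) ^ 2 * (c l * c p) := by
      calc (c k) ^ 2 * (c l * c p) = (c k * c l) * (c k * c p) := by ring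
        _ = (e k * e l) * (e k * e p) := by rw [h3, h4]
        _ = (e k) ^ 2 * (e l * e p) := by ring
        _ = (e k) ^ 2 * (c l * c p) := by rw [h5]
    exact mul_right_cancel₀ (mul_pos (hc0 l) (hc0 p)).ne' h7
  have h7 : c k = e k := by
    rcases sq_eq_sq_iff_eq_or_eq_neg.mp h6 with h | h
    · exact h
    · have := hc0 k
      have := he0 k
      linarith
  rw [hc, he, h7]

/-- Two Lorentz matrices which map a timelike vector `x0` and a causal vector `x` to positive
multiples of the same vectors agree on `x`. -/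
theorem agree_of_finite {d : ℕ} {g h : Matrix (Fin (d + 1)) (Fin (d + 1)) ℝ} (hg : IsLor g)
    (hh : IsLor h) {x0 x z0 z : Fin (d + 1) → ℝ} (h0 : lf x0 x0 < 0) (hx : lf x0 x < 0)
    (h1 : ∃ c : ℝ, 0 < c ∧ g.mulVec x0 = c • z0) (h2 : ∃ c : ℝ, 0 < c ∧ h.mulVec x0 = c • z0)
    (h3 : ∃ c : ℝ, 0 < c ∧ g.mulVec x = c • z) (h4 : ∃ c : ℝ, 0 < c ∧ h.mulVec x = c • z) :
    g.mulVec x = h.mulVec x := by
  obtain ⟨c0, hc0, h1⟩ := h1
  obtain ⟨e0, he0, h2⟩ := h2
  obtain ⟨c, hc, h3⟩ := h3
  obtain ⟨e, he, h4⟩ := h4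
  have a1 := hg x0 x0
  have a2 := hh x0 x0
  have a3 := hg x0 x
  have a4 := hh x0 x
  rw [h1, lf_smul_left, lf_smul_right] at a1
  rw [h2, lf_smul_left, lf_smul_right] at a2
  rw [h1, h3, lf_smul_left, lf_smul_right] at a3
  rw [h2, h4, lf_smul_left, lf_smul_right] at a4
  have hz0 : lf z0 z0 ≠ 0 := by
    intro h
    rw [h] at a1
    simp only [mul_zero] at a1
    linarith
  have hz : lf z0 z ≠ 0 := by
    intro h
    rw [h] at a3
    simp only [mul_zero] at a3
    linarith
  have b1 : c0 ^ 2 = e0 ^ 2 := by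
    apply mul_right_cancel₀ hz0
    linarith
  have b2 : c0 = e0 := by
    rcases sq_eq_sq_iff_eq_or_eq_neg.mp b1 with h | h
    · exact h
    · linarith
  have b3 : c = e := by
    apply mul_left_cancel₀ hc0.ne'
    apply mul_right_cancel₀ hz
    rw [b2] at a3 ⊢
    linarith
  rw [h3, h4, b3]

/-- M11b: the isometries of the facets with determinant one. -/
theorem exists_config {m N : ℕ} (K : Cycle (m + 2) N) (P : ℝ → Fin N → E (m + 3))
    (hP : IsFlexion K P) (t : ℝ) (ht : t ∈ Set.Icc (0 : ℝ) 1) :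
    ∃ g : (Fin (m + 3) ↪o Fin N) → Matrix (Fin (m + 4)) (Fin (m + 4)) ℝ,
      (∀ a ∈ K.facets, IsLor (d := m + 3) (g a) ∧ (g a).det = 1 ∧ 0 < g a 0 0 ∧
        ∀ i, ∃ c : ℝ, 0 < c ∧ (g a).mulVec (nv (P 0 (a i))) = c • lift (P t (a i))) ∧
      (∀ a ∈ K.facets, ∀ b ∈ K.facets, ∀ i j, face a i = face b j →
        LinearIndependent ℝ (fun k => nv (P 0 (face a i k))) →
        ∀ k, (g a).mulVec (nv (P 0 (face a i k))) = (g b).mulVec (nv (P 0 (face a i k)))) := by
  obtain ⟨g, hg, hagree⟩ := hP.rigid t ht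
  have h0 : (0 : ℝ) ∈ Set.Icc (0 : ℝ) 1 := ⟨le_refl _, zero_le_one⟩
  have hP0 : ∀ v, ‖P 0 v‖ ≤ 1 := hP.mem 0 h0
  -- reflections fixing the facets
  have href : ∀ a : Fin (m + 3) ↪o Fin N, ∃ ρ : Matrix (Fin (m + 4)) (Fin (m + 4)) ℝ,
      IsLor (d := m + 3) ρ ∧ ρ.det = -1 ∧ 0 < ρ 0 0 ∧ ∀ i, ρ.mulVec (nv (P 0 (a i))) = nv (P 0 (a i)) :=
    fun a => exists_reflection (by omega) (fun i => nv (P 0 (a i))) fun i => nv_FC _ (hP0 _)
  choose ρ hρ hρd hρ0 hρx using href
  classical
  let G : (Fin (m + 3) ↪o Fin N) → Matrix (Fin (m + 4)) (Fin (m + 4)) ℝ :=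
    fun a => if (g a).det = 1 then g a else g a * ρ a
  have hGx : ∀ a i, (G a).mulVec (nv (P 0 (a i))) = (g a).mulVec (nv (P 0 (a i))) := by
    intro a i
    simp only [G]
    split_ifs
    · rfl
    · rw [← Matrix.mulVec_mulVec, hρx]
  refine ⟨G, fun a ha => ?_, fun a ha b hb i j hij hli k => ?_⟩
  · have hL : IsLor (d := m + 3) (g a) := (hg a ha).1.isLor
    have hGL : IsLor (d := m + 3) (G a) := by
      simp only [G]
      split_ifs
      · exact hL
      · exact hL.mul (hρ a)
    have hc : ∀ i, ∃ c : ℝ, 0 < c ∧ (G a).mulVec (nv (P 0 (a i))) = c • lift (P t (a i)) := by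
      intro i
      rw [hGx]
      obtain ⟨s, hs, h1⟩ := nv_eq_smul (P 0 (a i))
      obtain ⟨c, hc, h2⟩ := ((hg a ha).2 i).exists_pos (hg a ha).1 (hP0 _)
      refine ⟨s * c, mul_pos hs hc, ?_⟩
      rw [h1, Matrix.mulVec_smul, h2, smul_smul]
    refine ⟨hGL, ?_, ?_, hc⟩
    · have hsq := hL.det_sq
      simp only [G]
      split_ifs with h
      · exact h
      · rw [Matrix.det_mul, hρd]
        have : ((g a).det - 1) * ((g a).det + 1) = 0 := by
          have := hsq
          linear_combination this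
        rcases mul_eq_zero.mp this with h' | h'
        · exact absurd (by linarith) h
        · linarith
    · refine hGL.fut_of_ft (nv_FC _ (hP0 (a 0))) ?_
      obtain ⟨c, hc, h1⟩ := hc 0
      rw [h1]
      exact (fc_lift (hP.mem t ht _)).smul hc
  · -- agreement on the face
    have hface : ∀ (a : Fin (m + 3) ↪o Fin N) (i : Fin (m + 3)) (k : Fin (m + 2)),
        face a i k = a (i.succAbove k) := fun _ _ _ => rfl
    have e1 : (G a).mulVec (nv (P 0 (face a i k))) = (g a).mulVec (nv (P 0 (face a i k))) := by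
      rw [hface]; exact hGx a _
    have e2 : (G b).mulVec (nv (P 0 (face a i k))) = (g b).mulVec (nv (P 0 (face a i k))) := by
      rw [hij, hface]; exact hGx b _
    rw [e1, e2]
    rcases Nat.eq_zero_or_pos m with hm | hm
    swap
    · -- in dimension at least four the agreement is automatic
      exact agree_of_three (hg a ha).1.isLor (hg b hb).1.isLor hm
        (fun k => nv_FC _ (hP0 (face a i k))) hli (fun k => lift (P t (face a i k)))
        (fun k => by
          obtain ⟨s, hs, h1⟩ := nv_eq_smul (P 0 (face a i k))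
          obtain ⟨c, hc, h2⟩ := ((hg a ha).2 (i.succAbove k)).exists_pos (hg a ha).1 (hP0 _)
          refine ⟨s * c, mul_pos hs hc, ?_⟩
          rw [h1, Matrix.mulVec_smul, hface, h2, smul_smul])
        (fun k => by
          rw [hij]
          obtain ⟨s, hs, h1⟩ := nv_eq_smul (P 0 (face b j k))
          obtain ⟨c, hc, h2⟩ := ((hg b hb).2 (j.succAbove k)).exists_pos (hg b hb).1 (hP0 _)
          refine ⟨s * c, mul_pos hs hc, ?_⟩
          rw [h1, Matrix.mulVec_smul, hface, h2, smul_smul]) k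
    have hA : ∀ k, ∃ c : ℝ, 0 < c ∧ (g a).mulVec (nv (P 0 (face a i k))) =
        c • lift (P t (face a i k)) := fun k => by
      obtain ⟨s, hs, h1⟩ := nv_eq_smul (P 0 (face a i k))
      obtain ⟨c, hc, h2⟩ := ((hg a ha).2 (i.succAbove k)).exists_pos (hg a ha).1 (hP0 _)
      refine ⟨s * c, mul_pos hs hc, ?_⟩
      rw [h1, Matrix.mulVec_smul, hface, h2, smul_smul]
    have hB : ∀ k, ∃ c : ℝ, 0 < c ∧ (g b).mulVec (nv (P 0 (face a i k))) =
        c • lift (P t (face a i k)) := fun k => by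
      rw [hij]
      obtain ⟨s, hs, h1⟩ := nv_eq_smul (P 0 (face b j k))
      obtain ⟨c, hc, h2⟩ := ((hg b hb).2 (j.succAbove k)).exists_pos (hg b hb).1 (hP0 _)
      refine ⟨s * c, mul_pos hs hc, ?_⟩
      rw [h1, Matrix.mulVec_smul, hface, h2, smul_smul]
    by_cases hid : ∀ k, ‖P 0 (face a i k)‖ = 1
    swap
    · -- an edge with a finite end
      push Not at hid
      obtain ⟨k0, hk0⟩ := hid
      have hlt : ‖P 0 (face a i k0)‖ < 1 := lt_of_le_of_ne (hP0 _) hk0
      have h0' : lf (nv (P 0 (face a i k0))) (nv (P 0 (face a i k0))) < 0 := by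
        obtain ⟨s, hs, h1⟩ := nv_eq_smul (P 0 (face a i k0))
        rw [h1, lf_smul_left, lf_smul_right, lf_lift]
        have h2 : -1 + ‖P 0 (face a i k0)‖ ^ 2 < 0 := by
          nlinarith [norm_nonneg (P 0 (face a i k0))]
        have h3 := mul_neg_of_pos_of_neg hs (mul_neg_of_pos_of_neg hs h2)
        rw [neg_sub, sub_eq_neg_add]
        exact h3
      refine agree_of_finite (hg a ha).1.isLor (hg b hb).1.isLor h0' ?_ (hA k0) (hB k0)
        (hA k) (hB k)
      by_cases hk : k0 = k
      · rw [← hk]; exact h0'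
      · exact indep_lf_neg (fun k => nv_FC _ (hP0 (face a i k))) hli _ _ hk
    obtain ⟨l, hl⟩ : ∃ l : Fin (m + 2), l ≠ k := exists_ne k
    obtain ⟨s, hs, h1⟩ := nv_eq_smul (P 0 (face a i k))
    obtain ⟨s', hs', h2⟩ := nv_eq_smul (P 0 (face a i l))
    have hneg : lf (nv (P 0 (face a i k))) (nv (P 0 (face a i l))) < 0 :=
      indep_lf_neg (fun k => nv_FC _ (hP0 (face a i k))) hli _ _ hl.symm
    have hneg' : lf (lift (P 0 (face a i k))) (lift (P 0 (face a i l))) < 0 := by
      rw [h1, h2, lf_smul_left, lf_smul_right] at hneg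
      have := mul_pos hs hs'
      by_contra hc
      push Not at hc
      have h3 := mul_nonneg this.le hc
      rw [mul_assoc] at h3
      exact absurd hneg (not_lt.mpr h3)
    have hpair : LinearIndependent ℝ ![lift (P 0 (face a i k)), lift (P 0 (face a i l))] := by
      have h3 : LinearIndependent ℝ ![nv (P 0 (face a i k)), nv (P 0 (face a i l))] := by
        have := hli.comp ![k, l] (by
          intro x y hxy
          fin_cases x <;> fin_cases y <;> simp_all)
        convert this using 1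
        funext x
        fin_cases x <;> rfl
      rw [LinearIndependent.pair_iff] at h3 ⊢
      intro x y hxy
      have := h3 (x / s) (y / s') (by
        rw [h1, h2, smul_smul, smul_smul, div_mul_cancel₀ _ hs.ne', div_mul_cancel₀ _ hs'.ne', hxy])
      constructor
      · have h4 := this.1
        rcases div_eq_zero_iff.mp h4 with h | h
        · exact h
        · exact absurd h hs.ne'
      · have h4 := this.2
        rcases div_eq_zero_iff.mp h4 with h | h
        · exact h
        · exact absurd h hs'.ne'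
    have h5 : (g b).mulVec (lift (P 0 (face a i k))) = (g a).mulVec (lift (P 0 (face a i k))) := by
      refine eq_on_segment (hg a ha).1 (hg b hb).1 (hP0 _) (hP0 _) hneg' hpair ?_
      intro x hx y
      refine hagree (by omega) a ha b hb i j hij hid x ?_ y
      have hsub : segment ℝ (P 0 (face a i k)) (P 0 (face a i l)) ⊆
          convexHull ℝ (Set.range fun k => P 0 (face a i k)) :=
        (convex_convexHull ℝ _).segment_subset (subset_convexHull ℝ _ ⟨k, rfl⟩)
          (subset_convexHull ℝ _ ⟨l, rfl⟩)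
      exact hsub hx
    rw [h1, Matrix.mulVec_smul, Matrix.mulVec_smul, h5]

/-! ### M11c -/

/-- scaling of orthant integrals -/
theorem J_scale {r : ℕ} (G : Matrix (Fin r) (Fin r) ℝ) (c : Fin r → ℝ) (hc : ∀ i, 0 < c i) :
    J (Matrix.of fun i j => c i * c j * G i j) = (∏ i, c i)⁻¹ * J G := by
  have hprod : 0 < ∏ i, c i := Finset.prod_pos fun i _ => hc i
  let L : (Fin r → ℝ) →L[ℝ] (Fin r → ℝ) :=
    LinearMap.toContinuousLinearMap (Matrix.toLin' (Matrix.diagonal c))
  have hL : ∀ y i, L y i = c i * y i := by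
    intro y i
    simp [L, Matrix.mulVec_diagonal]
  have hLdet : L.det = ∏ i, c i := by
    simp [L, ContinuousLinearMap.det]
  have himg : L '' orth r = orth r := by
    ext z
    constructor
    · rintro ⟨y, hy, rfl⟩ i
      rw [hL]
      exact mul_pos (hc i) (hy i)
    · intro hz
      refine ⟨fun i => (c i)⁻¹ * z i, fun i => mul_pos (inv_pos.mpr (hc i)) (hz i), ?_⟩
      funext i
      rw [hL, mul_inv_cancel_left₀ (hc i).ne']
  have hinj : Set.InjOn L (orth r) := by
    intro x _ y _ hxy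
    funext i
    have := congrFun hxy i
    rw [hL, hL] at this
    exact mul_left_cancel₀ (hc i).ne' this
  have hchange := integral_image_eq_integral_abs_det_fderiv_smul volume (measurableSet_orth r)
    (fun x _ => L.hasFDerivWithinAt (s := orth r) (x := x)) hinj
    (fun y => Real.exp ((1 / 2) * qf G y))
  rw [himg] at hchange
  unfold J
  rw [hchange]
  simp only [hLdet, abs_of_pos hprod, smul_eq_mul]
  rw [integral_const_mul, ← mul_assoc, inv_mul_cancel₀ hprod.ne', one_mul]
  refine setIntegral_congr_fun (measurableSet_orth r) fun y _ => ?_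
  congr 2
  unfold qf
  refine Finset.sum_congr rfl fun i _ => Finset.sum_congr rfl fun j _ => ?_
  rw [hL, hL]
  simp only [Matrix.of_apply]
  ring

theorem gram_smul {d r : ℕ} (x : Fin r → Fin (d + 1) → ℝ) (c : Fin r → ℝ) :
    gram (fun i => c i • x i) = Matrix.of fun i j => c i * c j * gram x i j := by
  ext i j
  simp only [gram, Matrix.of_apply, lf_smul_left, lf_smul_right]
  ring

/-- M11c: scaling invariance of `S`. -/
theorem S_scale {d : ℕ} (x : Fin (d + 1) → Fin (d + 1) → ℝ) (c : Fin (d + 1) → ℝ)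
    (hc : ∀ i, 0 < c i) : S (fun i => c i • x i) = S x := by
  have hprod : 0 < ∏ i, c i := Finset.prod_pos fun i _ => hc i
  unfold S
  rw [gram_smul, J_scale _ _ hc]
  have hdet : (Matrix.of fun i => c i • x i).det = (∏ i, c i) * (Matrix.of x).det := by
    have : (Matrix.of fun i => c i • x i) = Matrix.of fun i j => c i * (Matrix.of x) i j := by
      ext i j; simp
    rw [this, Matrix.det_mul_column]
  rw [hdet]
  field_simp

theorem gram_lor {d r : ℕ} (g : Matrix (Fin (d + 1)) (Fin (d + 1)) ℝ) (hg : IsLor g)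
    (x : Fin r → Fin (d + 1) → ℝ) : gram (fun i => g.mulVec (x i)) = gram x := by
  ext i j
  simp only [gram, Matrix.of_apply, hg (x i) (x j)]

theorem S_lor {d : ℕ} (g : Matrix (Fin (d + 1)) (Fin (d + 1)) ℝ) (hg : IsLor g)
    (x : Fin (d + 1) → Fin (d + 1) → ℝ) : S (fun i => g.mulVec (x i)) = g.det * S x := by
  unfold S
  rw [gram_lor g hg]
  have hdet : (Matrix.of fun i => g.mulVec (x i)).det = g.det * (Matrix.of x).det := by
    have : (Matrix.of fun i => g.mulVec (x i)) = Matrix.of x * g.transpose := by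
      ext i j
      simp [Matrix.mul_apply, Matrix.mulVec, dotProduct, mul_comm]
    rw [this, Matrix.det_mul, Matrix.det_transpose, mul_comm]
  rw [hdet, mul_assoc]

end Bellows
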