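import Pool.Agent.Bellows.M11a
import Pool.Agent.Bellows.M7
import Pool.Agent.Bellows.M9a
import Pool.Agent.Bellows.M4a

/-!
# Bellows, M11d,e: the volume in terms of the isometries of the facets, and its continuity
-/

open Matrix MeasureTheory Topology Set

namespace Bellows

/-- M11d: the volume in terms of the isometries. -/
theorem vol_config {m N : ℕ} (K : Cycle (m + 2) N) (P : ℝ → Fin N → E (m + 3))
    (hP : IsFlexion K P) (t : ℝ) (ht : t ∈ Set.Icc (0 : ℝ) 1)
    (o : Fin (m + 4) → ℝ) (ho : FT (d := m + 3) o)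
    (g : (Fin (m + 3) ↪o Fin N) → Matrix (Fin (m + 4)) (Fin (m + 4)) ℝ)
    (hg : ∀ a ∈ K.facets, IsLor (d := m + 3) (g a) ∧ (g a).det = 1 ∧ 0 < g a 0 0 ∧
        ∀ i, ∃ c : ℝ, 0 < c ∧ (g a).mulVec (nv (P 0 (a i))) = c • lift (P t (a i))) :
    Cn (m + 2) * vol K (P t) = ∑ a ∈ K.facets, (K.coeff a : ℝ) *
      S (d := m + 3) (Fin.cons ((g a)⁻¹.mulVec o) (fun i => nv (P 0 (a i)))) := by
  rw [(vol_eq K (P t) (hP.mem t ht) o ho.1 ho.2).2]
  refine Finset.sum_congr rfl fun a ha => ?_
  congr 1
  obtain ⟨hL, hdet, h0, hc⟩ := hg a ha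
  choose c hc0 hc using hc
  have h1 := S_scale (d := m + 3) (Fin.cons o (fun i => lift (P t (a i))))
    (Fin.cons 1 c) (by
      intro i
      refine Fin.cases ?_ (fun i => ?_) i
      · simp
      · simpa using hc0 i)
  have h2 := S_lor (d := m + 3) (g a) hL (Fin.cons ((g a)⁻¹.mulVec o) (fun i => nv (P 0 (a i))))
  rw [hdet, one_mul] at h2
  rw [← h1, ← h2]
  congr 1
  funext i
  refine Fin.cases ?_ (fun i => ?_) i
  · simp only [Fin.cons_zero, one_smul]
    rw [hL.mulVec_inv]
  · simp only [Fin.cons_succ]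
    rw [hc i]

theorem continuousOn_qf {r : ℕ} {G : ℝ → Matrix (Fin r) (Fin r) ℝ} {s : Set ℝ}
    (hG : ∀ i j, ContinuousOn (fun t => G t i j) s) (y : Fin r → ℝ) :
    ContinuousOn (fun t => qf (G t) y) s := by
  unfold qf
  refine continuousOn_finsetSum _ fun i _ => continuousOn_finsetSum _ fun j _ => ?_
  exact (continuousOn_const.mul (hG i j)).mul continuousOn_const

/-- Continuity of the orthant integral along a compact family of admissible matrices. -/
theorem continuousOn_J {r : ℕ} (hr : 3 ≤ r) {G : ℝ → Matrix (Fin r) (Fin r) ℝ} {s : Set ℝ}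
    (hs : IsCompact s) (hG : ∀ i j, ContinuousOn (fun t => G t i j) s)
    (hA : ∀ t ∈ s, Adm (G t)) : ContinuousOn (fun t => J (G t)) s := by
  classical
  -- a uniform bound for the off-diagonal entries
  obtain ⟨c, hc, hb⟩ : ∃ c : ℝ, 0 < c ∧ ∀ t ∈ s, ∀ i j, i ≠ j → G t i j ≤ -c := by
    have h1 : ∀ q : Fin r × Fin r, ∃ c : ℝ, 0 < c ∧ ∀ t ∈ s, q.1 ≠ q.2 → G t q.1 q.2 ≤ -c := by
      intro q
      by_cases hq : q.1 = q.2
      · exact ⟨1, one_pos, fun t _ h => absurd hq h⟩
      rcases s.eq_empty_or_nonempty with hse | hse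
      · exact ⟨1, one_pos, fun t h => by rw [hse] at h; exact absurd h (Set.notMem_empty _)⟩
      obtain ⟨t0, ht0, hmax⟩ := hs.exists_isMaxOn hse (hG q.1 q.2)
      refine ⟨- G t0 q.1 q.2, by linarith [(hA t0 ht0).off _ _ hq], fun t ht _ => ?_⟩
      have := hmax ht
      simp only [Set.mem_ofPred_eq] at this
      linarith
    choose c hc0 hcb using h1
    rcases isEmpty_or_nonempty (Fin r × Fin r) with h | h
    · exact ⟨1, one_pos, fun t _ i j _ => (h.false (i, j)).elim⟩
    · obtain ⟨q0, hq0⟩ := Finite.exists_min c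
      refine ⟨c q0, hc0 q0, fun t ht i j hij => ?_⟩
      have h2 := hcb (i, j) t ht hij
      have h3 := hq0 (i, j)
      simp only at h2
      linarith
  unfold J
  refine continuousOn_of_dominated
    (bound := fun y => Real.exp (-c * ∑ i, ∑ j, if i < j then y i * y j else 0)) ?_ ?_ ?_ ?_
  · intro t _
    exact (Real.continuous_exp.comp (continuous_const.mul (continuous_qf _))).aestronglyMeasurable
  · intro t ht
    refine (ae_restrict_iff' (measurableSet_orth' _)).2 (Filter.Eventually.of_forall fun y hy => ?_)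
    rw [Real.norm_of_nonneg (Real.exp_pos _).le]
    apply Real.exp_le_exp.2
    have h1 := qf_le (hb t ht) hy
    have h2 : ∑ i, G t i i * (y i) ^ 2 ≤ 0 :=
      Finset.sum_nonpos fun i _ => mul_nonpos_of_nonpos_of_nonneg ((hA t ht).diag i) (sq_nonneg _)
    linarith
  · exact integrableOn_pairs hr c hc
  · refine Filter.Eventually.of_forall fun y => ?_
    exact Real.continuous_exp.comp_continuousOn
      (continuousOn_const.mul (continuousOn_qf hG y))

theorem continuousOn_lf {d : ℕ} {u v : ℝ → Fin (d + 1) → ℝ} {s : Set ℝ}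
    (hu : ContinuousOn u s) (hv : ContinuousOn v s) : ContinuousOn (fun t => lf (u t) (v t)) s := by
  have hu' : ∀ i, ContinuousOn (fun t => u t i) s := fun i => continuousOn_pi.mp hu i
  have hv' : ∀ i, ContinuousOn (fun t => v t i) s := fun i => continuousOn_pi.mp hv i
  unfold lf
  refine ContinuousOn.add ((hu' 0).mul (hv' 0)).neg ?_
  exact continuousOn_finsetSum _ fun i _ => (hu' _).mul (hv' _)

theorem continuous_lift {n : ℕ} : Continuous (lift : E n → Fin (n + 1) → ℝ) := by
  refine continuous_pi fun i => ?_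
  refine Fin.cases ?_ (fun i => ?_) i
  · exact continuous_const
  · simp only [lift, Fin.cons_succ]
    fun_prop

/-- Continuity of `S` along a path of tuples which starts with a timelike vector. -/
theorem continuousOn_S {d : ℕ} (hd : 2 ≤ d) {s : Set ℝ} (hs : IsCompact s) (o : Fin (d + 1) → ℝ)
    (ho : FT o) (x : ℝ → Fin d → Fin (d + 1) → ℝ) (hx : ∀ i, ContinuousOn (fun t => x t i) s)
    (hF : ∀ t ∈ s, ∀ i, FC (x t i))
    (hdeg : (∀ t ∈ s, LinearIndependent ℝ (x t)) ∨ ∀ t ∈ s, ¬ LinearIndependent ℝ (x t)) :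
    ContinuousOn (fun t => S (d := d) (Fin.cons o (x t))) s := by
  rcases hdeg with hdeg | hdeg
  · have hc : ∀ i, ContinuousOn (fun t => (Fin.cons o (x t) : Fin (d + 1) → Fin (d + 1) → ℝ) i) s := by
      intro i
      refine Fin.cases ?_ (fun i => ?_) i
      · simpa using continuousOn_const
      · simpa using hx i
    unfold S
    refine ContinuousOn.mul ?_ ?_
    · have h1 : ContinuousOn (fun t => (Matrix.of (Fin.cons o (x t) : Fin (d + 1) → Fin (d + 1) → ℝ) :
          Matrix (Fin (d + 1)) (Fin (d + 1)) ℝ)) s :=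
        continuousOn_pi.mpr fun i => hc i
      exact (Continuous.matrix_det continuous_id).comp_continuousOn h1
    · refine continuousOn_J (by omega) hs ?_ ?_
      · intro i j
        exact continuousOn_lf (hc i) (hc j)
      · intro t ht
        exact gram_cons_adm ho (hF t ht) (hdeg t ht)
  · refine (continuousOn_const (c := (0 : ℝ))).congr fun t ht => ?_
    simp only
    unfold S
    have h1 : (Matrix.of (Fin.cons o (x t) : Fin (d + 1) → Fin (d + 1) → ℝ)).det = 0 := by
      by_contra hne
      apply hdeg t ht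
      have h2 : LinearIndependent ℝ (Fin.cons o (x t) : Fin (d + 1) → Fin (d + 1) → ℝ) :=
        Matrix.linearIndependent_rows_of_det_ne_zero hne
      have h3 := h2.comp Fin.succ (Fin.succ_injective _)
      exact h3
    rw [h1, zero_mul]

/-- M11e: continuity of the volume. -/
theorem continuousOn_vol_aux {m N : ℕ} (K : Cycle (m + 2) N) (P : ℝ → Fin N → E (m + 3))
    (hP : IsFlexion K P)
    (hconf : ∀ t ∈ Set.Icc (0 : ℝ) 1,
      ∃ g : (Fin (m + 3) ↪o Fin N) → Matrix (Fin (m + 4)) (Fin (m + 4)) ℝ,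
      ∀ a ∈ K.facets, IsLor (d := m + 3) (g a) ∧
        ∀ i, ∃ c : ℝ, 0 < c ∧ (g a).mulVec (nv (P 0 (a i))) = c • lift (P t (a i))) :
    ContinuousOn (fun t => vol K (P t)) (Set.Icc 0 1) := by
  have hC := Cn_pos (m + 2)
  have h1 : ∀ t ∈ Set.Icc (0 : ℝ) 1, vol K (P t) = (Cn (m + 2))⁻¹ * ∑ a ∈ K.facets, (K.coeff a : ℝ) *
      S (d := m + 3) (Fin.cons (Pi.single 0 1) (fun i => lift (P t (a i)))) := by
    intro t ht
    have := (vol_eq K (P t) (hP.mem t ht) (Pi.single 0 1) (FT.single (d := m + 3)).1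
      (FT.single (d := m + 3)).2).2
    rw [← this, inv_mul_cancel_left₀ hC.ne']
  refine ContinuousOn.congr ?_ h1
  refine continuousOn_const.mul (continuousOn_finsetSum _ fun a ha => continuousOn_const.mul ?_)
  refine continuousOn_S (by omega) isCompact_Icc _ FT.single (fun t i => lift (P t (a i))) ?_ ?_ ?_
  · intro i
    exact continuous_lift.comp_continuousOn (hP.cont (a i))
  · intro t ht i
    exact fc_lift (hP.mem t ht _)
  · -- independence does not depend on `t`
    have h2 : ∀ t ∈ Set.Icc (0 : ℝ) 1, (LinearIndependent ℝ (fun i => lift (P t (a i))) ↔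
        LinearIndependent ℝ (fun i => nv (P 0 (a i)))) := by
      intro t ht
      obtain ⟨g, hg⟩ := hconf t ht
      obtain ⟨hL, hc⟩ := hg a ha
      choose c hc0 hc using hc
      have h3 : LinearIndependent ℝ (fun i => lift (P t (a i))) ↔
          LinearIndependent ℝ (fun i => c i • lift (P t (a i))) := by
        have := LinearIndependent.units_smul_iff (R := ℝ) (v := fun i => lift (P t (a i)))
          (fun i => Units.mk0 (c i) (hc0 i).ne')
        rw [← this]
        exact Iff.rfl
      rw [h3]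
      have h4 : (fun i => c i • lift (P t (a i))) =
          (g a).mulVecLin ∘ (fun i => nv (P 0 (a i))) := by
        funext i
        simp only [Function.comp, Matrix.mulVecLin_apply]
        rw [hc i]
      rw [h4]
      refine LinearMap.linearIndependent_iff _ ?_
      rw [LinearMap.ker_eq_bot]
      intro u v huv
      simp only [Matrix.mulVecLin_apply] at huv
      rw [← hL.inv_mulVec u, huv, hL.inv_mulVec]
    by_cases h : LinearIndependent ℝ (fun i => nv (P 0 (a i)))
    · exact Or.inl fun t ht => (h2 t ht).mpr h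
    · exact Or.inr fun t ht hc => h ((h2 t ht).mp hc)

/-- M11e: the volume is continuous along a flexion. -/
theorem continuousOn_vol {m N : ℕ} (K : Cycle (m + 2) N) (P : ℝ → Fin N → E (m + 3))
    (hP : IsFlexion K P) : ContinuousOn (fun t => vol K (P t)) (Set.Icc 0 1) := by
  refine continuousOn_vol_aux K P hP fun t ht => ?_
  obtain ⟨g, hg, -⟩ := exists_config K P hP t ht
  exact ⟨g, fun a ha => ⟨(hg a ha).1, (hg a ha).2.2.2⟩⟩

end Bellows
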