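import Pool.Agent.Bellows.Core

/-!
# Bellows, M2: existence of discrete valuations
-/

open Polynomial
open scoped IntermediateField.algebraAdjoinAdjoin

namespace Bellows.Ord

/-- the function `ord` of a height one prime of a Dedekind domain containing the constants -/
noncomputable def ofPrime {K : Type*} [Field K] [Algebra ℂ K] {B : Type*} [CommRing B]
    [IsDedekindDomain B] [Algebra B K] [IsFractionRing B K] (v : IsDedekindDomain.HeightOneSpectrum B)
    (hC : ∀ c : ℂ, ∃ b : B, algebraMap B K b = algebraMap ℂ K c) : DOrd K where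
  ord x := - WithZero.log (v.valuation K x)
  mul x y hx hy := by
    rw [map_mul, WithZero.log_mul ((Valuation.ne_zero_iff _).mpr hx) ((Valuation.ne_zero_iff _).mpr hy)]
    ring
  add x y hx hy hxy := by
    have h := (v.valuation K).map_add x y
    have h0 := (Valuation.ne_zero_iff (v.valuation K)).mpr hxy
    have hx0 := (Valuation.ne_zero_iff (v.valuation K)).mpr hx
    have hy0 := (Valuation.ne_zero_iff (v.valuation K)).mpr hy
    rcases le_max_iff.mp h with h | h
    · have := (WithZero.log_le_log h0 hx0).mpr h
      exact (min_le_left _ _).trans (by linarith)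
    · have := (WithZero.log_le_log h0 hy0).mpr h
      exact (min_le_right _ _).trans (by linarith)
  const c hc := by
    have h1 : v.valuation K (algebraMap ℂ K c) ≤ 1 := by
      obtain ⟨b, hb⟩ := hC c
      rw [← hb]; exact v.valuation_le_one b
    have h2 : v.valuation K (algebraMap ℂ K c⁻¹) ≤ 1 := by
      obtain ⟨b, hb⟩ := hC c⁻¹
      rw [← hb]; exact v.valuation_le_one b
    have h3 : v.valuation K (algebraMap ℂ K c) * v.valuation K (algebraMap ℂ K c⁻¹) = 1 := by
      rw [← map_mul, ← map_mul, mul_inv_cancel₀ hc, map_one, map_one]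
    have h4 : v.valuation K (algebraMap ℂ K c) = 1 := by
      refine le_antisymm h1 ?_
      calc (1 : WithZero (Multiplicative ℤ)) = _ := h3.symm
        _ ≤ v.valuation K (algebraMap ℂ K c) * 1 := by gcongr
        _ = _ := mul_one _
    rw [h4]
    simp
  unif := by
    obtain ⟨π, hπ⟩ := v.valuation_exists_uniformizer K
    refine ⟨π, ?_, ?_⟩
    · rintro rfl
      rw [map_zero] at hπ
      exact absurd hπ.symm (WithZero.exp_ne_zero)
    · rw [hπ]
      simp

theorem exists_dord_of_transcendental {E K : Type*} [Field E] [Field K] [Algebra ℂ K] [Algebra ℂ E]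
    [Algebra E K] [IsScalarTower ℂ E K] (g : K) (hg : Transcendental E g)
    [FiniteDimensional (IntermediateField.adjoin E {g}) K] : ∃ v : DOrd K, v.ord g ≠ 0 := by
  set A := Algebra.adjoin E {g} with hA
  set F := IntermediateField.adjoin E {g} with hF
  have hinj : Function.Injective (aeval g : E[X] →ₐ[E] K) := transcendental_iff_injective.mp hg
  have hrange : (aeval g : E[X] →ₐ[E] K).range = A := (Algebra.adjoin_singleton_eq_range_aeval E g).symm
  let e : E[X] ≃ₐ[E] A := (AlgEquiv.ofInjective _ hinj).trans (Subalgebra.equivOfEq _ _ hrange)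
  have heX : ((e X : A) : K) = g := by
    simp [e]
  have : IsPrincipalIdealRing A := IsPrincipalIdealRing.of_surjective e.toRingHom e.surjective
  have hAD : IsDedekindDomain A := inferInstance
  have hc0 : CharZero F := by
    have : CharZero ℂ := inferInstance
    exact charZero_of_injective_algebraMap (algebraMap ℂ F).injective
  have hsep : Algebra.IsSeparable F K := inferInstance
  have hBD : IsDedekindDomain (integralClosure A K) := integralClosure.isDedekindDomain A F K
  have hBF : IsFractionRing (integralClosure A K) K :=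
    integralClosure.isFractionRing_of_finite_extension F K
  -- `g` is not a unit of the integral closure
  set a : A := e X with ha
  have hau : ¬ IsUnit a := by
    intro h
    have h2 : IsUnit (X : E[X]) := by
      have := h.map e.symm
      simpa [ha] using this
    exact Polynomial.not_isUnit_X h2
  have hinjA : Function.Injective (algebraMap A (integralClosure A K)) := by
    intro x y hxy
    have h2 := congrArg (algebraMap (integralClosure A K) K) hxy
    rw [← IsScalarTower.algebraMap_apply, ← IsScalarTower.algebraMap_apply] at h2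
    exact Subtype.val_injective h2
  have hloc : IsLocalHom (algebraMap A (integralClosure A K)) :=
    (algebraMap_isIntegral_iff.mpr integralClosure.AlgebraIsIntegral).isLocalHom hinjA
  have hbu : ¬ IsUnit (algebraMap A (integralClosure A K) a) := fun h => hau (hloc.map_nonunit _ h)
  obtain ⟨M, hM, hbM⟩ := exists_max_ideal_of_mem_nonunits hbu
  have hb0 : algebraMap A (integralClosure A K) a ≠ 0 := by
    intro h
    have h2 : algebraMap (integralClosure A K) K (algebraMap A (integralClosure A K) a) = 0 := by
      rw [h, map_zero]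
    rw [← IsScalarTower.algebraMap_apply] at h2
    have h3 : g = 0 := by rw [← heX]; exact h2
    rw [h3] at hg
    exact hg isAlgebraic_zero
  have hMb : M ≠ ⊥ := by
    rintro rfl
    exact hb0 hbM
  let v : IsDedekindDomain.HeightOneSpectrum (integralClosure A K) := ⟨M, hM.isPrime, hMb⟩
  refine ⟨ofPrime v ?_, ?_⟩
  · intro c
    refine ⟨algebraMap A (integralClosure A K) (algebraMap E A (algebraMap ℂ E c)), ?_⟩
    rw [← IsScalarTower.algebraMap_apply, ← IsScalarTower.algebraMap_apply,
      ← IsScalarTower.algebraMap_apply]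
  · have h1 : v.valuation K (algebraMap (integralClosure A K) K (algebraMap A (integralClosure A K) a)) < 1 :=
      (v.valuation_lt_one_iff_mem _).mpr hbM
    rw [← IsScalarTower.algebraMap_apply] at h1
    have h2 : algebraMap A K a = g := heX
    rw [h2] at h1
    have hg0 : g ≠ 0 := by
      rintro rfl
      exact hg isAlgebraic_zero
    have h3 := (WithZero.log_lt_log ((Valuation.ne_zero_iff (v.valuation K)).mpr hg0) one_ne_zero).mpr h1
    rw [WithZero.log_one] at h3
    change - WithZero.log (v.valuation K g) ≠ 0
    linarith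

theorem transcendental_of_not_range {K : Type*} [Field K] [Algebra ℂ K] (g : K)
    (hg : g ∉ Set.range (algebraMap ℂ K)) : Transcendental ℂ g := by
  intro halg
  apply hg
  have hint : IsIntegral ℂ g := halg.isIntegral
  have h1 := IsAlgClosed.degree_eq_one_of_irreducible ℂ (minpoly.irreducible hint)
  exact minpoly.mem_range_of_degree_eq_one ℂ g h1

theorem transcendental_adjoin_field {K : Type*} [Field K] [Algebra ℂ K] (Y : Set K) (g : K)
    (h1 : Transcendental (Algebra.adjoin ℂ Y) g) : Transcendental (IntermediateField.adjoin ℂ Y) g :=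
  fun h => h1 ((IsFractionRing.isAlgebraic_iff (Algebra.adjoin ℂ Y) (IntermediateField.adjoin ℂ Y) K).mpr h)

theorem exists_Y {K : Type*} [Field K] [Algebra ℂ K] (g : K) (hg : Transcendental ℂ g) :
    ∃ Y : Set K, Transcendental (Algebra.adjoin ℂ Y) g ∧
      Algebra.IsAlgebraic (IntermediateField.adjoin ℂ (insert g Y)) K := by
  have hind : AlgebraicIndepOn ℂ id ({g} : Set K) := by
    rw [AlgebraicIndepOn, algebraicIndependent_singleton_iff ⟨g, rfl⟩]
    exact hg
  obtain ⟨t, hgt', ht⟩ := exists_isTranscendenceBasis_superset hind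
  have hgmem : g ∈ t := hgt' rfl
  refine ⟨t \ {g}, ?_, ?_⟩
  · have := ht.1.transcendental_adjoin (s := {⟨g, hgmem⟩}ᶜ) (i := ⟨g, hgmem⟩) (by simp)
    have he : ((↑) : t → K) '' {⟨g, hgmem⟩}ᶜ = t \ {g} := by
      ext x
      constructor
      · rintro ⟨⟨y, hy⟩, h1, rfl⟩
        exact ⟨hy, fun h => h1 (by simpa using h)⟩
      · rintro ⟨h1, h2⟩
        exact ⟨⟨x, h1⟩, by simpa using h2, rfl⟩
    rw [he] at this
    exact this
  · have h3 := ht.isAlgebraic_field
    have he : Set.range ((↑) : t → K) = insert g (t \ {g}) := by
      rw [Subtype.range_coe, Set.insert_sdiff_singleton, Set.insert_eq_of_mem hgmem]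
    rw [he] at h3
    exact h3

theorem isAlgebraic_tower {K : Type*} [Field K] [Algebra ℂ K] (Y : Set K) (g : K)
    (h : Algebra.IsAlgebraic (IntermediateField.adjoin ℂ (insert g Y)) K) :
    Algebra.IsAlgebraic (IntermediateField.adjoin (IntermediateField.adjoin ℂ Y) {g}) K := by
  have h1 : insert g Y = Y ∪ {g} := by
    rw [Set.union_comm]; rfl
  rw [h1, ← IntermediateField.adjoin_adjoin_left] at h
  exact h

theorem finite_of_gen {F K : Type*} [Field F] [Field K] [Algebra ℂ F] [Algebra ℂ K] [Algebra F K]
    [IsScalarTower ℂ F K] (S : Finset K) (hS : IntermediateField.adjoin ℂ (S : Set K) = ⊤)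
    (h : Algebra.IsAlgebraic F K) : FiniteDimensional F K := by
  have h6 : IntermediateField.adjoin F (S : Set K) = ⊤ := by
    rw [eq_top_iff]
    intro z _
    have hle : IntermediateField.adjoin ℂ (S : Set K) ≤
        (IntermediateField.adjoin F (S : Set K)).restrictScalars ℂ := by
      rw [IntermediateField.adjoin_le_iff]
      exact IntermediateField.subset_adjoin F _
    rw [hS] at hle
    exact hle (IntermediateField.mem_top)
  have h7 : FiniteDimensional F (IntermediateField.adjoin F (S : Set K)) :=
    IntermediateField.finiteDimensional_adjoin fun x _ => (h.isAlgebraic x).isIntegral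
  rw [h6] at h7
  exact Module.Finite.equiv (IntermediateField.topEquiv (F := F) (E := K)).toLinearEquiv

end Bellows.Ord

open Bellows.Ord in
/-- M2 -/
theorem exists_dord {K : Type*} [Field K] [Algebra ℂ K] (S : Finset K)
    (hS : IntermediateField.adjoin ℂ (S : Set K) = ⊤) (g : K)
    (hg : g ∉ Set.range (algebraMap ℂ K)) : ∃ v : DOrd K, v.ord g ≠ 0 := by
  obtain ⟨Y, h1, h2⟩ := exists_Y g (transcendental_of_not_range g hg)
  have h3 := transcendental_adjoin_field Y g h1
  have h4 := isAlgebraic_tower Y g h2
  have hT : IsScalarTower ℂ (IntermediateField.adjoin (IntermediateField.adjoin ℂ Y) {g}) K :=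
    IsScalarTower.of_algebraMap_eq fun c => rfl
  have h5 : FiniteDimensional (IntermediateField.adjoin (IntermediateField.adjoin ℂ Y) {g}) K :=
    finite_of_gen S hS h4
  exact exists_dord_of_transcendental g h3

/-- M2': the form used: `K` any field extension of `ℂ` and a finite subset `S`; -/
theorem exists_dord' {K : Type*} [Field K] [Algebra ℂ K] (S : Finset K) (g : K)
    (hgS : g ∈ IntermediateField.adjoin ℂ (S : Set K))
    (hg : g ∉ Set.range (algebraMap ℂ K)) :
    ∃ v : DOrd (IntermediateField.adjoin ℂ (S : Set K)), v.ord ⟨g, hgS⟩ ≠ 0 := by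
  classical
  set L := IntermediateField.adjoin ℂ (S : Set K) with hL
  have hSL : ∀ s ∈ S, s ∈ L := fun s hs => IntermediateField.subset_adjoin ℂ _ hs
  refine exists_dord (K := L) (S.attach.image fun s => ⟨s.1, hSL s.1 s.2⟩) ?_ ⟨g, hgS⟩ ?_
  · rw [eq_top_iff]
    rintro ⟨z, hz⟩ _
    induction hz using IntermediateField.adjoin_induction with
    | mem x hx =>
      refine IntermediateField.subset_adjoin _ _ ?_
      rw [Finset.coe_image]
      exact ⟨⟨x, hx⟩, by simp, rfl⟩
    | algebraMap x => exact IntermediateField.algebraMap_mem _ x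
    | add x y hx hy h1 h2 => exact add_mem (h1 trivial) (h2 trivial)
    | inv x hx h1 => exact inv_mem (h1 trivial)
    | mul x y hx hy h1 h2 => exact mul_mem (h1 trivial) (h2 trivial)
  · rintro ⟨c, hc⟩
    exact hg ⟨c, congrArg Subtype.val hc⟩
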