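import Pool.Agent.Bellows.Basic

/-!
# Bellows: the cocycle identity for cones
-/

open MeasureTheory

namespace Bellows

/-- Cramer's relation between `r + 1` vectors of `ℝʳ`. -/
theorem cramer_rel {r : ℕ} (v : Fin (r + 1) → Fin r → ℝ) :
    ∑ i : Fin (r + 1), ((-1 : ℝ) ^ (i : ℕ) * (Matrix.of fun j => v (i.succAbove j)).det) • v i = 0 := by
  funext c
  have h := Matrix.det_succ_column_zero
    (Matrix.of fun i : Fin (r + 1) => (Fin.cons (v i c) (v i) : Fin (r + 1) → ℝ))
  have h0 : (Matrix.of fun i : Fin (r + 1) => (Fin.cons (v i c) (v i) : Fin (r + 1) → ℝ)).det = 0 := by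
    apply Matrix.det_zero_of_column_eq (i := 0) (j := c.succ) (Fin.succ_ne_zero c).symm
    intro k
    simp
  rw [h0] at h
  rw [Finset.sum_apply, Pi.zero_apply, h]
  refine Finset.sum_congr rfl fun i _ => ?_
  have : (Matrix.of fun i : Fin (r + 1) => (Fin.cons (v i c) (v i) : Fin (r + 1) → ℝ)).submatrix
      i.succAbove Fin.succ = Matrix.of fun j => v (i.succAbove j) := by
    ext a b
    simp
  rw [this]
  simp only [Pi.smul_apply, smul_eq_mul, Matrix.of_apply, Fin.cons_zero]
  ring

/-- Two linear relations are proportional if some `r` of the vectors are independent. -/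
theorem rel_unique {r : ℕ} (v : Fin (r + 1) → Fin r → ℝ) (k : Fin (r + 1))
    (hk : (Matrix.of fun j => v (k.succAbove j)).det ≠ 0) (lam mu : Fin (r + 1) → ℝ)
    (hlam : ∑ i, lam i • v i = 0) (hmu : ∑ i, mu i • v i = 0) (hlk : lam k ≠ 0) :
    ∃ s : ℝ, ∀ i, mu i = s * lam i := by
  refine ⟨mu k / lam k, ?_⟩
  have h1 : ∑ i, (mu i - mu k / lam k * lam i) • v i = 0 := by
    simp only [sub_smul, mul_smul, Finset.sum_sub_distrib, hmu, ← Finset.smul_sum, hlam]
    simp
  rw [Fin.sum_univ_succAbove _ k] at h1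
  have h2 : mu k - mu k / lam k * lam k = 0 := by
    field_simp
    simp
  rw [h2, zero_smul, zero_add] at h1
  have hli : LinearIndependent ℝ (fun j => v (k.succAbove j)) :=
    Matrix.linearIndependent_rows_of_det_ne_zero hk
  have h3 := Fintype.linearIndependent_iff.mp hli _ h1
  intro i
  rcases Fin.eq_self_or_eq_succAbove k i with h | ⟨j, rfl⟩
  · subst h
    linarith
  · have := h3 j
    linarith

/-- The one-sided exchange step. -/
theorem exchange {r : ℕ} (v : Fin (r + 1) → Fin r → ℝ) (ℓ : (Fin r → ℝ) →ₗ[ℝ] ℝ)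
    (hℓ : ∀ i, 0 < ℓ (v i)) (x : Fin r → ℝ)
    (hx : ∀ i j : Fin (r + 1), i ≠ j → x ∉ Submodule.span ℝ (v '' {k | k ≠ i ∧ k ≠ j}))
    (lam : Fin (r + 1) → ℝ) (hlam : ∑ i, lam i • v i = 0)
    (i : Fin (r + 1)) (hi : 0 < lam i) (y : Fin (r + 1) → ℝ) (hyi : y i = 0)
    (hy : ∀ j, j ≠ i → 0 < y j) (hyx : ∑ j, y j • v j = x) :
    ∃ i' : Fin (r + 1), lam i' < 0 ∧ ∃ y' : Fin (r + 1) → ℝ, y' i' = 0 ∧
      (∀ j, j ≠ i' → 0 < y' j) ∧ ∑ j, y' j • v j = x := by
  classical
  -- there is a negative coefficient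
  have hneg : ∃ j, lam j < 0 := by
    by_contra hcon
    push Not at hcon
    have h1 : ∑ j, lam j * ℓ (v j) = 0 := by
      have := congrArg ℓ hlam
      simpa [map_sum] using this
    have h2 : 0 < ∑ j, lam j * ℓ (v j) :=
      Finset.sum_pos' (fun j _ => mul_nonneg (hcon j) (hℓ j).le) ⟨i, Finset.mem_univ _, mul_pos hi (hℓ i)⟩
    linarith
  obtain ⟨j₀, hj₀⟩ := hneg
  obtain ⟨i', hi', hmin⟩ := Finset.exists_min_image (Finset.univ.filter fun j => lam j < 0)
    (fun j => -y j / lam j) ⟨j₀, by simp [hj₀]⟩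
  have hi'neg : lam i' < 0 := by simpa using hi'
  have hi'i : i' ≠ i := by
    rintro rfl
    linarith
  set s : ℝ := -y i' / lam i' with hs
  have hspos : 0 < s := by
    rw [hs]
    apply div_pos_of_neg_of_neg _ hi'neg
    have := hy i' hi'i
    linarith
  have hsy : ∀ j, 0 ≤ y j + s * lam j := by
    intro j
    rcases lt_or_ge (lam j) 0 with hj | hj
    · have h1 : s ≤ -y j / lam j := hmin j (by simp [hj])
      have h2 : s * lam j ≥ -y j / lam j * lam j := mul_le_mul_of_nonpos_right h1 hj.le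
      rw [div_mul_cancel₀ _ hj.ne] at h2
      linarith
    · have h0 : 0 ≤ y j := by
        rcases eq_or_ne j i with h | h
        · rw [h, hyi]
        · exact (hy j h).le
      have := mul_nonneg hspos.le hj
      linarith
  have hsi' : y i' + s * lam i' = 0 := by
    rw [hs, div_mul_cancel₀ _ hi'neg.ne]
    ring
  have hsum : ∑ j, (y j + s * lam j) • v j = x := by
    simp only [add_smul, mul_smul, Finset.sum_add_distrib, ← Finset.smul_sum, hlam, hyx]
    simp
  refine ⟨i', hi'neg, fun j => y j + s * lam j, hsi', fun j hj => ?_, hsum⟩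
  refine lt_of_le_of_ne (hsy j) fun h0 => ?_
  apply hx i' j (Ne.symm hj)
  rw [← hsum]
  refine Submodule.sum_mem _ fun k _ => ?_
  rcases eq_or_ne k i' with h | h
  · subst h
    simp only [hsi', zero_smul]
    exact Submodule.zero_mem _
  · rcases eq_or_ne k j with h' | h'
    · subst h'
      have h0' : y k + s * lam k = 0 := h0.symm
      rw [h0', zero_smul]
      exact Submodule.zero_mem _
    · exact Submodule.smul_mem _ _ (Submodule.subset_span ⟨k, ⟨h, h'⟩, rfl⟩)

/-- Uniqueness of the good index with positive coefficient. -/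
theorem good_unique {r : ℕ} (v : Fin (r + 1) → Fin r → ℝ) (x : Fin r → ℝ)
    (k : Fin (r + 1)) (hk : (Matrix.of fun j => v (k.succAbove j)).det ≠ 0)
    (lam : Fin (r + 1) → ℝ) (hlam : ∑ i, lam i • v i = 0) (hlk : lam k ≠ 0)
    (i i' : Fin (r + 1)) (hi : 0 < lam i) (hi' : 0 < lam i')
    (y : Fin (r + 1) → ℝ) (hyi : y i = 0)
    (hy : ∀ j, j ≠ i → 0 < y j) (hyx : ∑ j, y j • v j = x)
    (y' : Fin (r + 1) → ℝ) (hyi' : y' i' = 0)
    (hy' : ∀ j, j ≠ i' → 0 < y' j) (hyx' : ∑ j, y' j • v j = x) : i = i' := by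
  by_contra hne
  obtain ⟨s, hs⟩ := rel_unique v k hk lam (fun j => y' j - y j) hlam
    (by simp only [sub_smul, Finset.sum_sub_distrib, hyx, hyx', sub_self]) hlk
  have h1 := hs i
  have h2 := hs i'
  have h3 := hy' i hne
  have h4 := hy i' (Ne.symm hne)
  simp only [hyi, hyi'] at h1 h2
  have h5 : 0 < s := by
    by_contra hcon
    push Not at hcon
    have := mul_nonpos_of_nonpos_of_nonneg hcon hi.le
    linarith
  have := mul_pos h5 hi'
  linarith

theorem good_iff {r : ℕ} (v : Fin (r + 1) → Fin r → ℝ) (x : Fin r → ℝ) (i : Fin (r + 1)) :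
    (∃ y ∈ orth r, x = ∑ j, y j • v (i.succAbove j)) ↔
      ∃ y : Fin (r + 1) → ℝ, y i = 0 ∧ (∀ j, j ≠ i → 0 < y j) ∧ ∑ j, y j • v j = x := by
  constructor
  · rintro ⟨y, hy, rfl⟩
    refine ⟨i.insertNth 0 y, by simp, ?_, ?_⟩
    · intro j hj
      obtain ⟨k, rfl⟩ := Fin.exists_succAbove_eq hj
      simpa using hy k
    · rw [Fin.sum_univ_succAbove _ i]
      simp
  · rintro ⟨y, hyi, hy, rfl⟩
    refine ⟨fun j => y (i.succAbove j), fun j => hy _ (Fin.succAbove_ne i j), ?_⟩
    rw [Fin.sum_univ_succAbove _ i, hyi]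
    simp

open Classical in
/-- M3: cocycle identity for cones, pointwise. -/
theorem cone_cocycle_pt {r : ℕ} (v : Fin (r + 1) → Fin r → ℝ) (ℓ : (Fin r → ℝ) →ₗ[ℝ] ℝ)
    (hℓ : ∀ i, 0 < ℓ (v i)) (x : Fin r → ℝ)
    (hx : ∀ i j : Fin (r + 1), i ≠ j → x ∉ Submodule.span ℝ (v '' {k | k ≠ i ∧ k ≠ j})) :
    ∑ i : Fin (r + 1), (-1 : ℝ) ^ (i : ℕ) *
      (SignType.sign (Matrix.of fun j => v (i.succAbove j)).det : ℝ) *
      (if ∃ y ∈ orth r, x = ∑ j, y j • v (i.succAbove j) then 1 else 0) = 0 := by
  set lam : Fin (r + 1) → ℝ := fun i =>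
    (-1 : ℝ) ^ (i : ℕ) * (Matrix.of fun j => v (i.succAbove j)).det with hlamdef
  have hlam : ∑ i, lam i • v i = 0 := cramer_rel v
  have hsign : ∀ i : Fin (r + 1), (-1 : ℝ) ^ (i : ℕ) *
      (SignType.sign (Matrix.of fun j => v (i.succAbove j)).det : ℝ) =
      (SignType.sign (lam i) : ℝ) := by
    intro i
    simp only [hlamdef]
    rcases Nat.even_or_odd (i : ℕ) with h | h
    · simp [h.neg_one_pow]
    · simp [h.neg_one_pow, Left.sign_neg]
  simp only [hsign, good_iff]
  set good : Fin (r + 1) → Prop := fun i =>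
    ∃ y : Fin (r + 1) → ℝ, y i = 0 ∧ (∀ j, j ≠ i → 0 < y j) ∧ ∑ j, y j • v j = x with hgood
  change ∑ i, (SignType.sign (lam i) : ℝ) * (if good i then 1 else 0) = 0
  by_cases hall : ∀ i, good i → lam i = 0
  · refine Finset.sum_eq_zero fun i _ => ?_
    by_cases hg : good i
    · simp [hall i hg]
    · simp [hg]
  push Not at hall
  obtain ⟨k, hgk, hk⟩ := hall
  have hkdet : (Matrix.of fun j => v (k.succAbove j)).det ≠ 0 := by
    intro h0
    apply hk
    simp [hlamdef, h0]
  have hnlam : ∑ i, (-lam i) • v i = 0 := by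
    simp only [neg_smul, Finset.sum_neg_distrib, hlam, neg_zero]
  -- a good positive index and a good negative index
  have hpos : (∃ i, good i ∧ 0 < lam i) ∧ ∃ i, good i ∧ lam i < 0 := by
    rcases lt_or_gt_of_ne hk with h | h
    · refine ⟨?_, k, hgk, h⟩
      obtain ⟨y, h1, h2, h3⟩ := hgk
      obtain ⟨i', hi', hg'⟩ := exchange v ℓ hℓ x hx (fun i => -lam i) hnlam k
        (by simpa using h) y h1 h2 h3
      exact ⟨i', hg', by simpa using hi'⟩
    · refine ⟨⟨k, hgk, h⟩, ?_⟩
      obtain ⟨y, h1, h2, h3⟩ := hgk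
      obtain ⟨i', hi', hg'⟩ := exchange v ℓ hℓ x hx lam hlam k h y h1 h2 h3
      exact ⟨i', hg', hi'⟩
  obtain ⟨⟨a, hga, ha⟩, b, hgb, hb⟩ := hpos
  have hab : a ≠ b := by
    rintro rfl
    linarith
  have hother : ∀ i, i ≠ a → i ≠ b → (SignType.sign (lam i) : ℝ) * (if good i then 1 else 0) = 0 := by
    intro i hia hib
    by_cases hg : good i
    · rcases lt_trichotomy (lam i) 0 with h | h | h
      · exfalso
        apply hib
        obtain ⟨y, h1, h2, h3⟩ := hg
        obtain ⟨y', h1', h2', h3'⟩ := hgb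
        exact good_unique v x k hkdet (fun i => -lam i) hnlam (by simpa using hk) i b
          (by simpa using h) (by simpa using hb) y h1 h2 h3 y' h1' h2' h3'
      · simp [h]
      · exfalso
        apply hia
        obtain ⟨y, h1, h2, h3⟩ := hg
        obtain ⟨y', h1', h2', h3'⟩ := hga
        exact good_unique v x k hkdet lam hlam hk i a h ha y h1 h2 h3 y' h1' h2' h3'
    · simp [hg]
  rw [Finset.sum_eq_add a b hab (fun i _ hi => hother i hi.1 hi.2) (by simp) (by simp)]
  simp [hga, hgb, sign_pos ha, sign_neg hb]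

/-- The linear map `y ↦ ∑ yⱼ wⱼ`. -/
noncomputable def comb {r : ℕ} {V : Type*} [AddCommGroup V] [Module ℝ V] (w : Fin r → V) :
    (Fin r → ℝ) →ₗ[ℝ] V :=
  Fintype.linearCombination ℝ w

theorem comb_apply {r : ℕ} {V : Type*} [AddCommGroup V] [Module ℝ V] (w : Fin r → V)
    (y : Fin r → ℝ) : comb w y = ∑ j, y j • w j := by
  simp [comb, Fintype.linearCombination_apply]

theorem comb_det {r : ℕ} (w : Fin r → Fin r → ℝ) :
    LinearMap.det (comb w) = (Matrix.of w).det := by
  have : comb w = Matrix.toLin' (Matrix.of w).transpose := by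
    apply LinearMap.ext
    intro y
    funext c
    rw [comb_apply, Matrix.toLin'_apply]
    simp [Matrix.mulVec, dotProduct, Finset.sum_apply, mul_comm]
  rw [this, LinearMap.det_toLin', Matrix.det_transpose]

theorem measurableSet_orth (r : ℕ) : MeasurableSet (orth r) := by
  have : orth r = ⋂ i, {y : Fin r → ℝ | 0 < y i} := by
    ext y
    simp [orth]
  rw [this]
  exact MeasurableSet.iInter fun i => measurableSet_lt measurable_const (measurable_pi_apply i)

/-- The open simplicial cone spanned by `w`. -/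
def cone {r : ℕ} (w : Fin r → Fin r → ℝ) : Set (Fin r → ℝ) := (comb w) '' orth r

theorem mem_cone {r : ℕ} (w : Fin r → Fin r → ℝ) (x : Fin r → ℝ) :
    x ∈ cone w ↔ ∃ y ∈ orth r, x = ∑ j, y j • w j := by
  simp only [cone, Set.mem_image, comb_apply]
  exact ⟨fun ⟨y, h1, h2⟩ => ⟨y, h1, h2.symm⟩, fun ⟨y, h1, h2⟩ => ⟨y, h1, h2.symm⟩⟩

theorem comb_injective {r : ℕ} (w : Fin r → Fin r → ℝ) (hw : (Matrix.of w).det ≠ 0) :
    Function.Injective (comb w) := by
  have hli : LinearIndependent ℝ w := Matrix.linearIndependent_rows_of_det_ne_zero hw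
  exact hli.fintypeLinearCombination_injective

theorem measurableSet_cone {r : ℕ} (w : Fin r → Fin r → ℝ) (hw : (Matrix.of w).det ≠ 0) :
    MeasurableSet (cone w) := by
  have hc : Continuous (comb w) := LinearMap.continuous_of_finiteDimensional _
  exact (measurableSet_orth r).image_of_continuousOn_injOn hc.continuousOn
    (comb_injective w hw).injOn

theorem hasFDeriv_comb {r : ℕ} (w : Fin r → Fin r → ℝ) (s : Set (Fin r → ℝ)) (y : Fin r → ℝ) :
    HasFDerivWithinAt (comb w) (LinearMap.toContinuousLinearMap (comb w)) s y :=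
  ((LinearMap.toContinuousLinearMap (comb w)).hasFDerivAt (x := y)).hasFDerivWithinAt

theorem integrableOn_cone {r : ℕ} (w : Fin r → Fin r → ℝ) (hw : (Matrix.of w).det ≠ 0)
    (H : (Fin r → ℝ) → ℝ) (hint : IntegrableOn (fun y => H (∑ j, y j • w j)) (orth r)) :
    IntegrableOn H (cone w) := by
  rw [cone, integrableOn_image_iff_integrableOn_abs_det_fderiv_smul volume (measurableSet_orth r)
    (fun y _ => hasFDeriv_comb w _ y) (comb_injective w hw).injOn]
  have h1 : IntegrableOn (fun y => |(Matrix.of w).det| * H (∑ j, y j • w j)) (orth r) :=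
    Integrable.const_mul hint _
  refine h1.congr (Filter.Eventually.of_forall fun y => ?_)
  simp [comb_apply, comb_det, ContinuousLinearMap.det]

theorem integral_cone {r : ℕ} (w : Fin r → Fin r → ℝ) (hw : (Matrix.of w).det ≠ 0)
    (H : (Fin r → ℝ) → ℝ) :
    ∫ x in cone w, H x = |(Matrix.of w).det| * ∫ y in orth r, H (∑ j, y j • w j) := by
  rw [cone, integral_image_eq_integral_abs_det_fderiv_smul volume (measurableSet_orth r)
    (fun y _ => hasFDeriv_comb w _ y) (comb_injective w hw).injOn]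
  rw [← integral_const_mul]
  refine setIntegral_congr_fun (measurableSet_orth r) fun y _ => ?_
  simp [comb_apply, comb_det, ContinuousLinearMap.det]

/-- Almost every point is generic with respect to finitely many vectors. -/
theorem ae_generic {r : ℕ} (v : Fin (r + 1) → Fin r → ℝ) :
    ∀ᵐ x : Fin r → ℝ, ∀ i j : Fin (r + 1), i ≠ j →
      x ∉ Submodule.span ℝ (v '' {k | k ≠ i ∧ k ≠ j}) := by
  rw [ae_all_iff]
  intro i
  rw [ae_all_iff]
  intro j
  by_cases hij : i = j
  · simp [hij]
  simp only [ne_eq, hij, not_false_eq_true, forall_const]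
  have hne : Submodule.span ℝ (v '' {k | k ≠ i ∧ k ≠ j}) ≠ ⊤ := by
    intro htop
    have h1 : Module.finrank ℝ (Submodule.span ℝ (v '' {k | k ≠ i ∧ k ≠ j})) = r := by
      rw [htop, finrank_top]
      simp
    classical
    have hset : v '' {k | k ≠ i ∧ k ≠ j} =
        ((((Finset.univ.erase i).erase j).image v : Finset (Fin r → ℝ)) : Set (Fin r → ℝ)) := by
      ext z
      simp only [Set.mem_image, Set.mem_ofPred_eq, Finset.coe_image, Finset.coe_erase,
        Finset.coe_univ, Set.mem_sdiff, Set.mem_univ, true_and, Set.mem_singleton_iff]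
    have h2 := finrank_span_finset_le_card (R := ℝ) (((Finset.univ.erase i).erase j).image v)
    have h3 : (((Finset.univ.erase i).erase j).image v).card ≤ r - 1 := by
      refine Finset.card_image_le.trans ?_
      rw [Finset.card_erase_of_mem (by simp [Ne.symm hij]), Finset.card_erase_of_mem (by simp)]
      simp
    rw [hset] at h1
    rw [Set.finrank] at h2
    rw [h1] at h2
    have hr : 0 < r := by
      by_contra hr0
      apply hij
      apply Fin.ext
      have h4 := i.isLt
      have h5 := j.isLt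
      omega
    omega
  have := Measure.addHaar_submodule (volume : Measure (Fin r → ℝ)) _ hne
  rw [ae_iff]
  simpa using this

/-- Cocycle identity in full dimension, integrated. -/
theorem cone_cocycle_full {r : ℕ} (w : Fin (r + 1) → Fin r → ℝ) (ℓ : (Fin r → ℝ) →ₗ[ℝ] ℝ)
    (hℓ : ∀ i, 0 < ℓ (w i)) (H : (Fin r → ℝ) → ℝ)
    (hint : ∀ i : Fin (r + 1), (Matrix.of fun j => w (i.succAbove j)).det ≠ 0 →
      IntegrableOn (fun y : Fin r → ℝ => H (∑ j, y j • w (i.succAbove j))) (orth r)) :
    ∑ i : Fin (r + 1), (-1 : ℝ) ^ (i : ℕ) * (Matrix.of fun j => w (i.succAbove j)).det *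
      ∫ y in orth r, H (∑ j, y j • w (i.succAbove j)) = 0 := by
  classical
  set D : Fin (r + 1) → ℝ := fun i => (Matrix.of fun j => w (i.succAbove j)).det with hD
  set T : Fin (r + 1) → (Fin r → ℝ) → ℝ := fun i x =>
    (-1 : ℝ) ^ (i : ℕ) * (SignType.sign (D i) : ℝ) *
      (if ∃ y ∈ orth r, x = ∑ j, y j • w (i.succAbove j) then 1 else 0) * H x with hT
  have hTind : ∀ i, D i ≠ 0 → T i = fun x => ((-1 : ℝ) ^ (i : ℕ) * (SignType.sign (D i) : ℝ)) *
      (cone fun j => w (i.succAbove j)).indicator H x := by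
    intro i _
    funext x
    simp only [hT, Set.indicator_apply, mem_cone]
    split_ifs <;> simp
  have hTint : ∀ i, Integrable (T i) := by
    intro i
    by_cases hi : D i = 0
    · have : T i = 0 := by
        funext x
        simp [hT, hi]
      rw [this]
      exact integrable_zero _ _ _
    · rw [hTind i hi]
      apply Integrable.const_mul
      rw [integrable_indicator_iff (measurableSet_cone _ hi)]
      exact integrableOn_cone _ hi H (hint i hi)
  have hTval : ∀ i : Fin (r + 1), (-1 : ℝ) ^ (i : ℕ) * D i * ∫ y in orth r, H (∑ j, y j • w (i.succAbove j)) =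
      ∫ x, T i x := by
    intro i
    by_cases hi : D i = 0
    · have : T i = 0 := by
        funext x
        simp [hT, hi]
      rw [this, hi]
      simp
    · rw [hTind i hi, integral_const_mul, integral_indicator (measurableSet_cone _ hi),
        integral_cone _ hi]
      change (-1 : ℝ) ^ (i : ℕ) * D i * _ = _ * (|D i| * _)
      have h7 : (SignType.sign (D i) : ℝ) * |D i| = D i := sign_mul_abs (D i)
      rw [mul_assoc, mul_assoc, ← mul_assoc (SignType.sign (D i) : ℝ), h7]
  rw [Finset.sum_congr rfl fun i _ => hTval i, ← integral_finsetSum _ fun i _ => hTint i]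
  rw [integral_eq_zero_of_ae]
  filter_upwards [ae_generic w] with x hx
  have := cone_cocycle_pt w ℓ hℓ x hx
  simp only [hT, ← Finset.sum_mul, Pi.zero_apply]
  convert zero_mul (H x)

/-- M3': cocycle identity for cones, integrated, in an ambient space of any dimension. -/
theorem cone_cocycle {r N : ℕ} (v : Fin (r + 1) → Fin N → ℝ) (hdep : ¬ LinearIndependent ℝ v)
    (ℓ : (Fin N → ℝ) →ₗ[ℝ] ℝ) (hℓ : ∀ i, 0 < ℓ (v i))
    (β : (Fin N → ℝ) [⋀^Fin r]→ₗ[ℝ] ℝ) (h : (Fin N → ℝ) → ℝ)
    (hint : ∀ i : Fin (r + 1), LinearIndependent ℝ (fun j => v (i.succAbove j)) →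
      IntegrableOn (fun y : Fin r → ℝ => h (∑ j, y j • v (i.succAbove j))) (orth r)) :
    ∑ i : Fin (r + 1), (-1 : ℝ) ^ (i : ℕ) * β (fun j => v (i.succAbove j)) *
      ∫ y in orth r, h (∑ j, y j • v (i.succAbove j)) = 0 := by
  classical
  by_cases hall : ∀ i : Fin (r + 1), ¬ LinearIndependent ℝ (fun j => v (i.succAbove j))
  · refine Finset.sum_eq_zero fun i _ => ?_
    rw [β.map_linearDependent _ (hall i)]
    simp
  push Not at hall
  obtain ⟨i₀, hi₀⟩ := hall
  -- coordinates of the span
  have hspan : ∀ i, v i ∈ Submodule.span ℝ (Set.range fun j => v (i₀.succAbove j)) := by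
    intro i
    rcases Fin.eq_self_or_eq_succAbove i₀ i with h1 | ⟨j, rfl⟩
    · subst h1
      by_contra hcon
      apply hdep
      have h2 : LinearIndependent ℝ (Fin.cons (v i) (fun j => v (i.succAbove j)) :
          Fin (r + 1) → Fin N → ℝ) := by
        rw [linearIndependent_finCons]
        exact ⟨hi₀, hcon⟩
      rw [← linearIndependent_equiv (Fin.cycleRange i).symm]
      convert h2 using 1
      funext k
      refine Fin.cases ?_ (fun j => ?_) k
      · simp
      · simp
    · exact Submodule.subset_span ⟨j, rfl⟩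
  have hcoord : ∀ i, ∃ z : Fin r → ℝ, comb (fun j => v (i₀.succAbove j)) z = v i := by
    intro i
    have := hspan i
    rw [Submodule.mem_span_range_iff_exists_fun] at this
    obtain ⟨z, hz⟩ := this
    exact ⟨z, by rw [comb_apply, hz]⟩
  choose w hw using hcoord
  set L := comb (fun j => v (i₀.succAbove j)) with hL
  have hLinj : Function.Injective L := hi₀.fintypeLinearCombination_injective
  have hsum : ∀ (i : Fin (r + 1)) (y : Fin r → ℝ),
      ∑ j, y j • v (i.succAbove j) = L (∑ j, y j • w (i.succAbove j)) := by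
    intro i y
    simp [map_sum, hw]
  have hβ : ∀ i : Fin (r + 1), β (fun j => v (i.succAbove j)) =
      β (fun j => L (Pi.single j 1)) * (Matrix.of fun j => w (i.succAbove j)).det := by
    intro i
    have h1 := AlternatingMap.eq_smul_basis_det (Pi.basisFun ℝ (Fin r)) (β.compLinearMap L)
    have h2 := congrArg (fun g : (Fin r → ℝ) [⋀^Fin r]→ₗ[ℝ] ℝ => g (fun j => w (i.succAbove j))) h1
    simp only [AlternatingMap.compLinearMap_apply, AlternatingMap.smul_apply, smul_eq_mul,
      Pi.basisFun_det] at h2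
    have h3 : (fun j => v (i.succAbove j)) = fun j => L (w (i.succAbove j)) := by
      funext j
      rw [hw]
    rw [h3]
    have h4 : (fun j => L ((Pi.basisFun ℝ (Fin r)) j)) = fun j => L (Pi.single j 1) := by
      funext j
      rw [Pi.basisFun_apply]
    rw [← h4]
    exact h2
  have key := cone_cocycle_full w (ℓ.comp L) (fun i => by simpa [hw] using hℓ i) (h ∘ L) (by
    intro i hi
    have hwi : LinearIndependent ℝ (fun j => w (i.succAbove j)) :=
      Matrix.linearIndependent_rows_of_det_ne_zero hi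
    have hvi : LinearIndependent ℝ (fun j => v (i.succAbove j)) := by
      have h5 := hwi.map' L (LinearMap.ker_eq_bot.mpr hLinj)
      have h6 : (L ∘ fun j => w (i.succAbove j)) = fun j => v (i.succAbove j) := by
        funext j
        simp [hw]
      rw [h6] at h5
      exact h5
    have := hint i hvi
    simpa only [hsum, Function.comp] using this)
  simp only [hβ, hsum]
  have : ∑ i : Fin (r + 1), (-1 : ℝ) ^ (i : ℕ) *
      (β (fun j => L (Pi.single j 1)) * (Matrix.of fun j => w (i.succAbove j)).det) *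
      ∫ y in orth r, h (L (∑ j, y j • w (i.succAbove j))) =
      β (fun j => L (Pi.single j 1)) * ∑ i : Fin (r + 1), (-1 : ℝ) ^ (i : ℕ) *
        (Matrix.of fun j => w (i.succAbove j)).det *
      ∫ y in orth r, (h ∘ L) (∑ j, y j • w (i.succAbove j)) := by
    rw [Finset.mul_sum]
    refine Finset.sum_congr rfl fun i _ => ?_
    simp only [Function.comp]
    ring
  rw [this, key, mul_zero]

end Bellows
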