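import Pool.Agent.Bellows.M4a

/-!
# Bellows M4: Gaussian orthant integrals, integration by parts
-/

open MeasureTheory Set Filter Topology

namespace Bellows

/-- One dimensional integration by parts. -/
theorem integral_one (A B C : ℝ) (hA : A ≤ 0) (hB : B < 0) :
    ∫ t in Ioi (0:ℝ), (A * t + B) * Real.exp ((1 / 2) * (A * t ^ 2 + 2 * (t * B) + C)) =
      - Real.exp ((1 / 2) * C) := by
  have hderiv : ∀ t ∈ Ici (0:ℝ), HasDerivAt
      (fun t : ℝ => Real.exp ((1 / 2) * (A * t ^ 2 + 2 * (t * B) + C)))
      ((A * t + B) * Real.exp ((1 / 2) * (A * t ^ 2 + 2 * (t * B) + C))) t := by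
    intro t _
    have h1 : HasDerivAt (fun t : ℝ => (1 / 2) * (A * t ^ 2 + 2 * (t * B) + C))
        ((1 / 2) * (A * (2 * t ^ 1) + 2 * (1 * B) + 0)) t := by
      have h2 : HasDerivAt (fun t : ℝ => A * t ^ 2) (A * (2 * t ^ 1)) t := by
        have := (hasDerivAt_pow 2 t).const_mul A
        simpa using this
      have h3 : HasDerivAt (fun t : ℝ => 2 * (t * B)) (2 * (1 * B)) t :=
        ((hasDerivAt_id t).mul_const B).const_mul 2
      exact ((h2.add h3).add (hasDerivAt_const t C)).const_mul (1 / 2)
    have := h1.exp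
    convert this using 1
    ring
  have hneg : ∀ t ∈ Ioi (0:ℝ), (A * t + B) * Real.exp ((1 / 2) * (A * t ^ 2 + 2 * (t * B) + C)) ≤ 0 := by
    intro t ht
    have ht' : (0:ℝ) < t := ht
    exact mul_nonpos_of_nonpos_of_nonneg (by nlinarith) (Real.exp_pos _).le
  have hlim : Tendsto (fun t : ℝ => Real.exp ((1 / 2) * (A * t ^ 2 + 2 * (t * B) + C))) atTop
      (𝓝 0) := by
    apply Real.tendsto_exp_atBot.comp
    have h1 : Tendsto (fun t : ℝ => B * t + (1 / 2) * C) atTop atBot := by
      apply tendsto_atBot_add_const_right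
      exact tendsto_id.const_mul_atTop_of_neg hB
    refine tendsto_atBot_mono' _ ?_ h1
    filter_upwards [eventually_ge_atTop (0:ℝ)] with t ht
    nlinarith [mul_nonneg ht ht]
  have := integral_Ioi_of_hasDerivAt_of_nonpos' hderiv hneg hlim
  rw [this]
  simp

/-- Integration by parts in the variable `k`, with a weight depending on the other variables. -/
theorem ibp_general {n : ℕ} (hn : 1 ≤ n) (G : Matrix (Fin (n + 1)) (Fin (n + 1)) ℝ) (hG : Adm G)
    (k : Fin (n + 1)) (w : (Fin n → ℝ) → ℝ)
    (hint : IntegrableOn (fun y : Fin (n + 1) → ℝ => w (fun j => y (k.succAbove j)) *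
      (∑ j, G k j * y j) * Real.exp ((1 / 2) * qf G y)) (orth (n + 1))) :
    ∫ y in orth (n + 1), w (fun j => y (k.succAbove j)) * (∑ j, G k j * y j) *
      Real.exp ((1 / 2) * qf G y) =
      - ∫ z in orth n, w z * Real.exp ((1 / 2) *
          qf (G.submatrix k.succAbove k.succAbove) z) := by
  set f : ℝ × (Fin n → ℝ) → ℝ := fun q => w q.2 * (G k k * q.1 + ∑ j, G k (k.succAbove j) * q.2 j) *
      Real.exp ((1 / 2) * (G k k * q.1 ^ 2 + 2 * (q.1 * ∑ j, G k (k.succAbove j) * q.2 j) +
        qf (G.submatrix k.succAbove k.succAbove) q.2)) with hf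
  have hfun : (fun y : Fin (n + 1) → ℝ => w (fun j => y (k.succAbove j)) *
      (∑ j, G k j * y j) * Real.exp ((1 / 2) * qf G y)) =
      fun y => f (y k, fun j => y (k.succAbove j)) := by
    ext y
    simp only [hf]
    rw [qf_split G hG.symm k y, Fin.sum_univ_succAbove _ k]
  have hfun' : ∀ y : Fin (n + 1) → ℝ, w (fun j => y (k.succAbove j)) *
      (∑ j, G k j * y j) * Real.exp ((1 / 2) * qf G y) =
      f (y k, fun j => y (k.succAbove j)) := fun y => congrFun hfun y
  rw [hfun, orth_split k, integrableOn_split k f] at hint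
  simp only [hfun']
  rw [orth_split k, integral_split k f, integral_prod_symm _ hint, ← integral_neg]
  refine setIntegral_congr_fun (measurableSet_orth' n) (fun z hz => ?_)
  simp only [hf]
  have hB : ∑ j, G k (k.succAbove j) * z j < 0 := by
    have : 0 < ∑ j, -(G k (k.succAbove j)) * z j := by
      apply Finset.sum_pos
      · intro j _
        have := hG.off k (k.succAbove j) (Fin.succAbove_ne k j).symm
        exact mul_pos (by linarith) (hz j)
      · exact ⟨⟨0, by omega⟩, Finset.mem_univ _⟩
    have h2 : ∑ j, -(G k (k.succAbove j)) * z j = -∑ j, G k (k.succAbove j) * z j := by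
      rw [← Finset.sum_neg_distrib]
      exact Finset.sum_congr rfl fun j _ => by ring
    rw [h2] at this
    linarith
  have h1 := integral_one (G k k) (∑ j, G k (k.succAbove j) * z j)
    (qf (G.submatrix k.succAbove k.succAbove) z) (hG.diag k) hB
  simp only [mul_assoc]
  rw [integral_const_mul, h1]
  ring

theorem integrableOn_ibp_M0 {r : ℕ} (hr : 2 ≤ r) (G : Matrix (Fin (r + 1)) (Fin (r + 1)) ℝ)
    (hG : Adm G) (h0 : G 0 0 < 0) (k : Fin (r + 1)) :
    IntegrableOn (fun y : Fin (r + 1) → ℝ => y 0 * (∑ j, G k j * y j) *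
      Real.exp ((1 / 2) * qf G y)) (orth (r + 1)) := by
  have h : ∀ j, IntegrableOn (fun y : Fin (r + 1) → ℝ => G k j *
      ((y 0 * y j) * Real.exp ((1 / 2) * qf G y))) (orth (r + 1)) := by
    intro j
    apply Integrable.const_mul
    by_cases hj : j = 0
    · subst hj
      have := integrableOn_pow_exp_qf (by omega) hG 0 h0 2
      refine this.congr_fun (fun y _ => ?_) (measurableSet_orth' _)
      simp only [pow_two]
    · have := integrableOn_mixed_exp_qf (by omega) hG 0 j (Ne.symm hj) 1
      refine this.congr_fun (fun y _ => ?_) (measurableSet_orth' _)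
      simp only [pow_one]
  have h2 := integrable_finsetSum Finset.univ fun j _ => h j
  refine h2.congr ?_
  refine Filter.Eventually.of_forall fun y => ?_
  simp only
  rw [Finset.mul_sum, Finset.sum_mul]
  exact Finset.sum_congr rfl fun j _ => by ring

/-- M4b: integration by parts in the variable `k ≠ 0`. -/
theorem ibp_M0 {r : ℕ} (hr : 3 ≤ r) (G : Matrix (Fin (r + 1)) (Fin (r + 1)) ℝ) (hG : Adm G)
    (h0 : G 0 0 < 0) (k : Fin r) :
    ∫ y in orth (r + 1), y 0 * (∑ j, G k.succ j * y j) * Real.exp ((1 / 2) * qf G y) =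
      - ∫ y in orth r, y ⟨0, by omega⟩ * Real.exp ((1 / 2) *
          qf (G.submatrix k.succ.succAbove k.succ.succAbove) y) := by
  have hk : k.succ.succAbove ⟨0, by omega⟩ = 0 := by
    rw [Fin.succAbove_of_castSucc_lt]
    · rfl
    · rw [Fin.lt_def]; simp
  have h := ibp_general (n := r) (by omega) G hG k.succ (fun z => z ⟨0, by omega⟩)
  simp only [hk] at h
  exact h (integrableOn_ibp_M0 (by omega) G hG h0 k.succ)

/-- The moment identity in each row. -/
theorem moment_row {n : ℕ} (hn : 1 ≤ n) (G : Matrix (Fin (n + 1)) (Fin (n + 1)) ℝ) (hG : Adm G)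
    (hint : ∀ j, IntegrableOn (fun y : Fin (n + 1) → ℝ => y j * Real.exp ((1 / 2) * qf G y))
      (orth (n + 1))) (k : Fin (n + 1)) :
    ∑ j, G k j * ∫ y in orth (n + 1), y j * Real.exp ((1 / 2) * qf G y) =
      - J (G.submatrix k.succAbove k.succAbove) := by
  have h : ∀ j, IntegrableOn (fun y : Fin (n + 1) → ℝ => G k j *
      (y j * Real.exp ((1 / 2) * qf G y))) (orth (n + 1)) := fun j => (hint j).const_mul _
  have h2 := integrable_finsetSum Finset.univ fun j _ => h j
  have h3 : (fun y : Fin (n + 1) → ℝ => ∑ j, G k j * (y j * Real.exp ((1 / 2) * qf G y))) =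
      fun y => 1 * (∑ j, G k j * y j) * Real.exp ((1 / 2) * qf G y) := by
    ext y
    rw [one_mul, Finset.sum_mul]
    exact Finset.sum_congr rfl fun j _ => by ring
  have h4 := ibp_general hn G hG k (fun _ => 1) (by rw [h3] at h2; exact h2)
  simp only [← integral_const_mul]
  rw [← integral_finsetSum _ fun j _ => h j, h3, h4]
  simp [J]

/-- First moment in terms of the integrals over the facets, when all moments exist. -/
theorem M0_eq_general {n : ℕ} (hn : 1 ≤ n) (G : Matrix (Fin (n + 1)) (Fin (n + 1)) ℝ) (hG : Adm G)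
    (hint : ∀ j, IntegrableOn (fun y : Fin (n + 1) → ℝ => y j * Real.exp ((1 / 2) * qf G y))
      (orth (n + 1))) :
    G.det * M0 G = - ∑ k, G.adjugate 0 k * J (G.submatrix k.succAbove k.succAbove) := by
  set m : Fin (n + 1) → ℝ := fun j => ∫ y in orth (n + 1), y j * Real.exp ((1 / 2) * qf G y)
    with hm
  have h1 : G.mulVec m = fun k => - J (G.submatrix k.succAbove k.succAbove) := by
    ext k
    exact moment_row hn G hG hint k
  have h2 : (G.adjugate * G).mulVec m = G.det • m := by
    rw [Matrix.adjugate_mul, Matrix.smul_mulVec, Matrix.one_mulVec]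
  rw [← Matrix.mulVec_mulVec, h1] at h2
  have h3 := congrFun h2 0
  simp only [Pi.smul_apply, smul_eq_mul] at h3
  have h4 : M0 G = m 0 := rfl
  rw [h4, ← h3]
  simp [Matrix.mulVec, dotProduct]

/-- M4c: the first moment in terms of the integrals over the facets, for matrices of size
at least four. -/
theorem M0_eq {r : ℕ} (hr : 3 ≤ r) (G : Matrix (Fin (r + 1)) (Fin (r + 1)) ℝ) (hG : Adm G)
    (h0 : G 0 0 < 0) :
    G.det * M0 G = - ∑ k, G.adjugate 0 k * J (G.submatrix k.succAbove k.succAbove) :=
  M0_eq_general (by omega) G hG fun j => integrableOn_mul_exp_qf (by omega) hG j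

end Bellows
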