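import Pool.Agent.Bellows.M4

/-!
# Bellows M4d: matrices of size three
-/

open MeasureTheory Set Filter Topology

namespace Bellows

/-- The integral of the reciprocal of a quadratic polynomial. -/
theorem integral_quad (A B D : ℝ) (hA : 0 < A) (hB : 0 < B) (hD : 0 < D) (h : A * D < B ^ 2) :
    IntegrableOn (fun u : ℝ => (A + 2 * (u * B) + D * u ^ 2)⁻¹) (Ioi 0) ∧
    ∫ u in Ioi (0:ℝ), (A + 2 * (u * B) + D * u ^ 2)⁻¹ =
      (Real.log (B + Real.sqrt (B ^ 2 - A * D)) - (1 / 2) * Real.log A - (1 / 2) * Real.log D) /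
        Real.sqrt (B ^ 2 - A * D) := by
  set s := Real.sqrt (B ^ 2 - A * D) with hs
  have hs0 : 0 < s := Real.sqrt_pos.2 (by linarith)
  have hss : s ^ 2 = B ^ 2 - A * D := Real.sq_sqrt (by linarith)
  have hsB : s < B := by
    have : 0 < A * D := mul_pos hA hD
    nlinarith
  have hderiv : ∀ u ∈ Ici (0:ℝ), HasDerivAt
      (fun u : ℝ => (1 / (2 * s)) * (Real.log (D * u + (B - s)) - Real.log (D * u + (B + s))))
      ((A + 2 * (u * B) + D * u ^ 2)⁻¹) u := by
    intro u hu
    have hu' : (0:ℝ) ≤ u := hu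
    have hDu : 0 ≤ D * u := mul_nonneg hD.le hu'
    have p1 : 0 < D * u + (B - s) := by linarith
    have p2 : 0 < D * u + (B + s) := by linarith
    have h1 : HasDerivAt (fun u : ℝ => D * u + (B - s)) D u := by
      simpa using ((hasDerivAt_id u).const_mul D).add_const (B - s)
    have h2 : HasDerivAt (fun u : ℝ => D * u + (B + s)) D u := by
      simpa using ((hasDerivAt_id u).const_mul D).add_const (B + s)
    have h3 : HasDerivAt (fun u : ℝ => (1 / (2 * s)) *
        (Real.log (D * u + (B - s)) - Real.log (D * u + (B + s))))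
        ((1 / (2 * s)) * (D / (D * u + (B - s)) - D / (D * u + (B + s)))) u :=
      ((h1.log p1.ne').sub (h2.log p2.ne')).const_mul (1 / (2 * s))
    refine h3.congr_deriv ?_
    have hq : A + 2 * (u * B) + D * u ^ 2 = (D * u + (B - s)) * (D * u + (B + s)) / D := by
      field_simp
      nlinarith
    rw [hq, inv_div]
    field_simp
    ring
  have hpos : ∀ u ∈ Ioi (0:ℝ), 0 ≤ (A + 2 * (u * B) + D * u ^ 2)⁻¹ := by
    intro u hu
    have hu' : (0:ℝ) < u := hu
    positivity
  have hlim : Tendsto (fun u : ℝ => (1 / (2 * s)) *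
      (Real.log (D * u + (B - s)) - Real.log (D * u + (B + s)))) atTop (𝓝 0) := by
    have h1 : Tendsto (fun u : ℝ => D * u + (B + s)) atTop atTop := by
      apply tendsto_atTop_add_const_right
      exact tendsto_id.const_mul_atTop hD
    have h2 : Tendsto (fun u : ℝ => 1 - 2 * s * (D * u + (B + s))⁻¹) atTop (𝓝 (1 - 2 * s * 0)) :=
      (h1.inv_tendsto_atTop.const_mul (2 * s)).const_sub 1
    have h3 : Tendsto (fun u : ℝ => (1 / (2 * s)) *
        Real.log (1 - 2 * s * (D * u + (B + s))⁻¹)) atTop (𝓝 ((1 / (2 * s)) * Real.log 1)) := by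
      apply Tendsto.const_mul
      have : Tendsto Real.log (𝓝 (1 - 2 * s * 0)) (𝓝 (Real.log 1)) := by
        rw [mul_zero, sub_zero]
        exact (Real.continuousAt_log one_ne_zero).tendsto
      exact this.comp h2
    rw [Real.log_one, mul_zero] at h3
    refine h3.congr' ?_
    filter_upwards [eventually_ge_atTop (0:ℝ)] with u hu
    have hDu : 0 ≤ D * u := mul_nonneg hD.le hu
    have p1 : 0 < D * u + (B - s) := by linarith
    have p2 : 0 < D * u + (B + s) := by linarith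
    rw [← Real.log_div p1.ne' p2.ne']
    congr 2
    field_simp
    ring
  refine ⟨integrableOn_Ioi_deriv_of_nonneg' hderiv hpos hlim, ?_⟩
  rw [integral_Ioi_of_hasDerivAt_of_nonneg' hderiv hpos hlim]
  have p1 : 0 < B - s := by linarith
  have p2 : 0 < B + s := by linarith
  have h5 : Real.log (B - s) = Real.log A + Real.log D - Real.log (B + s) := by
    rw [← Real.log_mul hA.ne' hD.ne', ← Real.log_div (mul_pos hA hD).ne' p2.ne']
    congr 1
    field_simp
    nlinarith
  rw [mul_zero, zero_add, zero_add, h5]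
  field_simp
  ring

theorem integral_gauss (q : ℝ) (hq : 0 < q) :
    IntegrableOn (fun x : ℝ => x * Real.exp (-(1 / 2) * (q * x ^ 2))) (Ioi 0) ∧
    ∫ x in Ioi (0:ℝ), x * Real.exp (-(1 / 2) * (q * x ^ 2)) = q⁻¹ := by
  have hderiv : ∀ x ∈ Ici (0:ℝ), HasDerivAt
      (fun x : ℝ => -(q⁻¹) * Real.exp (-(1 / 2) * (q * x ^ 2)))
      (x * Real.exp (-(1 / 2) * (q * x ^ 2))) x := by
    intro x _
    have h1 : HasDerivAt (fun x : ℝ => -(1 / 2) * (q * x ^ 2)) (-(1 / 2) * (q * (2 * x))) x := by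
      have := ((hasDerivAt_pow 2 x).const_mul q).const_mul (-(1 / 2))
      simpa using this
    have h2 : HasDerivAt (fun x : ℝ => -(q⁻¹) * Real.exp (-(1 / 2) * (q * x ^ 2)))
        (-(q⁻¹) * (Real.exp (-(1 / 2) * (q * x ^ 2)) * (-(1 / 2) * (q * (2 * x))))) x :=
      h1.exp.const_mul (-(q⁻¹))
    refine h2.congr_deriv ?_
    field_simp
  have hpos : ∀ x ∈ Ioi (0:ℝ), 0 ≤ x * Real.exp (-(1 / 2) * (q * x ^ 2)) := fun x hx =>
    mul_nonneg (le_of_lt hx) (Real.exp_pos _).le
  have hlim : Tendsto (fun x : ℝ => -(q⁻¹) * Real.exp (-(1 / 2) * (q * x ^ 2))) atTop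
      (𝓝 (-(q⁻¹) * 0)) := by
    apply Tendsto.const_mul
    apply Real.tendsto_exp_atBot.comp
    apply Tendsto.const_mul_atTop_of_neg (by norm_num)
    exact (tendsto_pow_atTop two_ne_zero).const_mul_atTop hq
  refine ⟨integrableOn_Ioi_deriv_of_nonneg' hderiv hpos hlim, ?_⟩
  rw [integral_Ioi_of_hasDerivAt_of_nonneg' hderiv hpos hlim]
  simp

/-- The two dimensional orthant integral. -/
theorem integral_two (a b d : ℝ) (ha : a < 0) (hb : b < 0) (hd : d < 0) (h : a * d < b ^ 2) :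
    ∫ x in Ioi (0:ℝ), ∫ y in Ioi (0:ℝ), Real.exp ((1 / 2) * (a * x ^ 2 + 2 * (x * y * b) +
      d * y ^ 2)) =
      (Real.log (-b + Real.sqrt (b ^ 2 - a * d)) - (1 / 2) * Real.log (-a)
        - (1 / 2) * Real.log (-d)) / Real.sqrt (b ^ 2 - a * d) := by
  obtain ⟨hi, hv⟩ := integral_quad (-a) (-b) (-d) (by linarith) (by linarith) (by linarith)
    (by nlinarith)
  rw [neg_sq, neg_mul_neg] at hv
  rw [← hv]
  have h1 : ∀ x ∈ Ioi (0:ℝ), ∫ y in Ioi (0:ℝ), Real.exp ((1 / 2) * (a * x ^ 2 +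
      2 * (x * y * b) + d * y ^ 2)) = ∫ u in Ioi (0:ℝ), x * Real.exp (-(1 / 2) *
        ((-a + 2 * (u * -b) + -d * u ^ 2) * x ^ 2)) := by
    intro x hx
    have hx' : (0:ℝ) < x := hx
    have := integral_comp_mul_left_Ioi (fun y => Real.exp ((1 / 2) * (a * x ^ 2 +
      2 * (x * y * b) + d * y ^ 2))) 0 hx'
    rw [mul_zero, smul_eq_mul] at this
    rw [integral_const_mul]
    have h2 : (fun u : ℝ => Real.exp (-(1 / 2) * ((-a + 2 * (u * -b) + -d * u ^ 2) * x ^ 2))) =
        fun u => Real.exp ((1 / 2) * (a * x ^ 2 + 2 * (x * (x * u) * b) + d * (x * u) ^ 2)) := by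
      ext u; congr 1; ring
    rw [h2, this, mul_inv_cancel_left₀ hx'.ne']
  rw [setIntegral_congr_fun measurableSet_Ioi h1]
  have hq : ∀ u ∈ Ioi (0:ℝ), 0 < -a + 2 * (u * -b) + -d * u ^ 2 := by
    intro u hu
    have hu' : (0:ℝ) < u := hu
    have : 0 < u * -b := mul_pos hu' (by linarith)
    have : 0 ≤ -d * u ^ 2 := mul_nonneg (by linarith) (sq_nonneg _)
    linarith
  have hint : Integrable (Function.uncurry fun (x u : ℝ) => x * Real.exp (-(1 / 2) *
        ((-a + 2 * (u * -b) + -d * u ^ 2) * x ^ 2)))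
        ((volume.restrict (Ioi (0:ℝ))).prod (volume.restrict (Ioi (0:ℝ)))) := by
    rw [integrable_prod_iff']
    · constructor
      · refine (ae_restrict_iff' measurableSet_Ioi).2 (Filter.Eventually.of_forall fun u hu => ?_)
        exact (integral_gauss _ (hq u hu)).1
      · refine IntegrableOn.congr_fun hi (fun u hu => ?_) measurableSet_Ioi
        rw [← (integral_gauss _ (hq u hu)).2]
        refine setIntegral_congr_fun measurableSet_Ioi (fun x hx => ?_)
        simp only [Function.uncurry]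
        rw [Real.norm_of_nonneg (mul_nonneg (le_of_lt hx) (Real.exp_pos _).le)]
    · apply Continuous.aestronglyMeasurable
      unfold Function.uncurry
      fun_prop
  rw [integral_integral_swap hint]
  exact setIntegral_congr_fun measurableSet_Ioi (fun u hu => (integral_gauss _ (hq u hu)).2)

theorem qf_two (G : Matrix (Fin 2) (Fin 2) ℝ) (hs : G 1 0 = G 0 1) (y : Fin 2 → ℝ) :
    qf G y = G 0 0 * (y 0) ^ 2 + 2 * (y 0 * y 1 * G 0 1) + G 1 1 * (y 1) ^ 2 := by
  simp only [qf, Fin.sum_univ_two, hs]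
  ring

theorem J_two (G : Matrix (Fin 2) (Fin 2) ℝ) (hG : Adm G) (h0 : G 0 0 < 0) (h1 : G 1 1 < 0)
    (h : G 0 0 * G 1 1 < G 0 1 ^ 2) : J G = Jreg G := by
  unfold J Jreg
  rw [← integral_two _ _ _ h0 (hG.off 0 1 (by decide)) h1 h]
  set f : ℝ × ℝ → ℝ := fun p => Real.exp ((1 / 2) * (G 0 0 * p.1 ^ 2 + 2 * (p.1 * p.2 * G 0 1) +
    G 1 1 * p.2 ^ 2)) with hf
  have e1 : ∫ y in orth 2, Real.exp ((1 / 2) * qf G y) = ∫ p in Ioi (0:ℝ) ×ˢ Ioi (0:ℝ), f p := by
    have hp := (volume_preserving_finTwoArrow ℝ).setIntegral_preimage_emb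
      (MeasurableEquiv.finTwoArrow (α := ℝ)).measurableEmbedding f (Ioi (0:ℝ) ×ˢ Ioi (0:ℝ))
    have hset : (MeasurableEquiv.finTwoArrow (α := ℝ)) ⁻¹' (Ioi (0:ℝ) ×ˢ Ioi (0:ℝ)) = orth 2 := by
      ext y
      simp [orth, Fin.forall_fin_two]
    rw [hset] at hp
    rw [← hp]
    refine setIntegral_congr_fun (measurableSet_orth' 2) (fun y _ => ?_)
    simp only [hf]
    rw [qf_two G (hG.symm 1 0)]
    simp
  rw [e1]
  have hint : Integrable f ((volume.restrict (Ioi (0:ℝ))).prod (volume.restrict (Ioi (0:ℝ)))) := by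
    have g1 : Integrable (fun x : ℝ => Real.exp (-(-G 0 0 / 2) * x ^ 2)) (volume.restrict (Ioi 0)) :=
      (integrable_exp_neg_mul_sq (by linarith)).integrableOn
    have g2 : Integrable (fun x : ℝ => Real.exp (-(-G 1 1 / 2) * x ^ 2)) (volume.restrict (Ioi 0)) :=
      (integrable_exp_neg_mul_sq (by linarith)).integrableOn
    refine Integrable.mono' (g1.mul_prod g2) ?_ ?_
    · apply Continuous.aestronglyMeasurable
      simp only [hf]
      fun_prop
    · rw [Measure.prod_restrict]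
      refine (ae_restrict_iff' (measurableSet_Ioi.prod measurableSet_Ioi)).2
        (Filter.Eventually.of_forall fun p hp => ?_)
      rw [Real.norm_of_nonneg (Real.exp_pos _).le, ← Real.exp_add]
      apply Real.exp_le_exp.2
      have hp1 : 0 < p.1 := hp.1
      have hp2 : 0 < p.2 := hp.2
      have := hG.off 0 1 (by decide)
      nlinarith [mul_pos hp1 hp2]
  rw [Measure.volume_eq_prod, ← Measure.prod_restrict, integral_prod _ hint]

/-! ### The regularisation `G - ε` -/

theorem qf_sub_smul {r : ℕ} (G : Matrix (Fin r) (Fin r) ℝ) (ε : ℝ) (y : Fin r → ℝ) :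
    qf (G - ε • (1 : Matrix (Fin r) (Fin r) ℝ)) y = qf G y - ε * ∑ i, (y i) ^ 2 := by
  unfold qf
  rw [Finset.mul_sum, ← Finset.sum_sub_distrib]
  refine Finset.sum_congr rfl fun i _ => ?_
  have : ε * (y i) ^ 2 = ∑ j, (if i = j then ε * (y i) ^ 2 else 0) := by simp
  rw [this, ← Finset.sum_sub_distrib]
  refine Finset.sum_congr rfl fun j _ => ?_
  rw [Matrix.sub_apply, Matrix.smul_apply, Matrix.one_apply, smul_eq_mul]
  split_ifs with h
  · subst h; ring
  · ring

theorem Adm.sub_smul {r : ℕ} {G : Matrix (Fin r) (Fin r) ℝ} (hG : Adm G) {ε : ℝ} (hε : 0 ≤ ε) :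
    Adm (G - ε • (1 : Matrix (Fin r) (Fin r) ℝ)) where
  symm i j := by
    rw [Matrix.sub_apply, Matrix.sub_apply, Matrix.smul_apply, Matrix.smul_apply, hG.symm i j,
      Matrix.one_apply, Matrix.one_apply]
    simp only [eq_comm]
  diag i := by
    have := hG.diag i
    simp
    linarith
  off i j h := by
    have := hG.off i j h
    simpa [Matrix.one_apply_ne h] using this

theorem tendsto_M0 {r : ℕ} (hr : 2 ≤ r) {G : Matrix (Fin (r + 1)) (Fin (r + 1)) ℝ} (hG : Adm G)
    (h0 : G 0 0 < 0) :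
    Tendsto (fun ε : ℝ => M0 (G - ε • (1 : Matrix (Fin (r + 1)) (Fin (r + 1)) ℝ))) (𝓝[>] 0)
      (𝓝 (M0 G)) := by
  unfold M0
  have hi := integrableOn_pow_exp_qf (by omega) hG 0 h0 1
  simp only [pow_one] at hi
  refine tendsto_integral_filter_of_dominated_convergence
    (fun y => y 0 * Real.exp ((1 / 2) * qf G y)) ?_ ?_ hi ?_
  · refine Filter.Eventually.of_forall fun ε => ?_
    apply Continuous.aestronglyMeasurable
    exact (continuous_apply 0).mul (Real.continuous_exp.comp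
      (continuous_const.mul (continuous_qf _)))
  · filter_upwards [self_mem_nhdsWithin] with ε hε
    refine (ae_restrict_iff' (measurableSet_orth' _)).2 (Filter.Eventually.of_forall fun y hy => ?_)
    rw [Real.norm_of_nonneg (mul_nonneg (hy 0).le (Real.exp_pos _).le), qf_sub_smul]
    apply mul_le_mul_of_nonneg_left _ (hy 0).le
    apply Real.exp_le_exp.2
    have h1 : 0 ≤ ε * ∑ i, (y i) ^ 2 :=
      mul_nonneg (le_of_lt hε) (Finset.sum_nonneg fun i _ => sq_nonneg _)
    linarith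
  · refine Filter.Eventually.of_forall fun y => ?_
    simp only [qf_sub_smul]
    have hc : Continuous fun ε : ℝ => y 0 * Real.exp ((1 / 2) * (qf G y - ε * ∑ i, (y i) ^ 2)) := by
      fun_prop
    have := (hc.tendsto 0).mono_left (nhdsWithin_le_nhds (s := Ioi 0))
    simpa using this

/-- The scalar form of `Jreg`. -/
noncomputable def jr (a b d : ℝ) : ℝ :=
  (Real.log (-b + Real.sqrt (b ^ 2 - a * d)) - (1 / 2) * Real.log (-a)
    - (1 / 2) * Real.log (-d)) / Real.sqrt (b ^ 2 - a * d)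

theorem Jreg_eq (G : Matrix (Fin 2) (Fin 2) ℝ) : Jreg G = jr (G 0 0) (G 0 1) (G 1 1) := rfl

/-- The right hand side for matrices of size three. -/
theorem rhs_three (G : Matrix (Fin 3) (Fin 3) ℝ) (hs : ∀ i j, G i j = G j i) :
    ∑ k : Fin 3, G.adjugate 0 k * Jreg (G.submatrix k.succAbove k.succAbove) =
      (G 1 1 * G 2 2 - G 1 2 ^ 2) * jr (G 1 1) (G 1 2) (G 2 2) +
      (G 0 2 * G 1 2 - G 0 1 * G 2 2) * jr (G 0 0) (G 0 2) (G 2 2) +
      (G 0 1 * G 1 2 - G 0 2 * G 1 1) * jr (G 0 0) (G 0 1) (G 1 1) := by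
  rw [Fin.sum_univ_three, Matrix.adjugate_fin_three]
  simp only [Jreg_eq, Matrix.submatrix_apply]
  have e00 : (0 : Fin 3).succAbove (0 : Fin 2) = 1 := by decide
  have e01 : (0 : Fin 3).succAbove (1 : Fin 2) = 2 := by decide
  have e10 : (1 : Fin 3).succAbove (0 : Fin 2) = 0 := by decide
  have e11 : (1 : Fin 3).succAbove (1 : Fin 2) = 2 := by decide
  have e20 : (2 : Fin 3).succAbove (0 : Fin 2) = 0 := by decide
  have e21 : (2 : Fin 3).succAbove (1 : Fin 2) = 1 := by decide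
  rw [e00, e01, e10, e11, e20, e21]
  simp only [Matrix.of_apply, Matrix.cons_val_zero, Matrix.cons_val_one, Matrix.cons_val]
  rw [hs 2 1]
  ring

theorem M0_eq_three_strict (G : Matrix (Fin 3) (Fin 3) ℝ) (hG : Adm G) (hd : ∀ i, G i i < 0)
    (h2 : ∀ i j, i ≠ j → G i i * G j j < G i j ^ 2) :
    G.det * M0 G = - ∑ k : Fin 3, G.adjugate 0 k * Jreg (G.submatrix k.succAbove k.succAbove) := by
  rw [M0_eq_general (n := 2) (by norm_num) G hG (fun j => by
    simpa using integrableOn_pow_exp_qf le_rfl hG j (hd j) 1)]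
  congr 1
  refine Finset.sum_congr rfl fun k _ => ?_
  rw [J_two]
  · exact hG.submatrix _ (Fin.succAbove_right_injective)
  · exact hd _
  · exact hd _
  · exact h2 _ _ (fun h => by simpa using Fin.succAbove_right_injective h)

theorem tendsto_mul_log (g : ℝ → ℝ) (b : ℝ) (hb : b ≤ 0) (hg : DifferentiableAt ℝ g 0)
    (h0 : b = 0 → g 0 = 0) :
    Tendsto (fun ε => g ε * Real.log (-(b - ε))) (𝓝[>] 0) (𝓝 (g 0 * Real.log (-b))) := by
  rcases hb.lt_or_eq with h | h
  · have h1 : ContinuousAt (fun ε => g ε * Real.log (-(b - ε))) 0 := by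
      apply ContinuousAt.mul hg.continuousAt
      apply ContinuousAt.log (by fun_prop)
      simp [h.ne]
    have := h1.tendsto.mono_left (nhdsWithin_le_nhds (s := Ioi 0))
    simpa using this
  · subst h
    rw [h0 rfl, zero_mul]
    have h1 : Tendsto (fun ε : ℝ => ε * Real.log ε) (𝓝[>] 0) (𝓝 0) := by
      have := (Real.continuous_mul_log.tendsto 0).mono_left (nhdsWithin_le_nhds (s := Ioi 0))
      simpa using this
    have h2 : Tendsto (fun ε : ℝ => ε⁻¹ * g ε) (𝓝[>] 0) (𝓝 (deriv g 0)) := by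
      have := hg.hasDerivAt.tendsto_slope_zero_right
      simpa [h0 rfl] using this
    have h3 := h2.mul h1
    rw [mul_zero] at h3
    refine h3.congr' ?_
    filter_upwards [self_mem_nhdsWithin] with ε hε
    have : (0:ℝ) < ε := hε
    field_simp
    simp

/-- The right hand side of the three dimensional identity, as a function of the entries. -/
noncomputable def rhs3 (a b d x y z : ℝ) : ℝ :=
  (b * d - z ^ 2) * jr b z d + (y * z - x * d) * jr a y d + (x * z - y * b) * jr a x b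

/-- The same expression with the logarithms collected. -/
theorem rhs3_eq (a b d x y z : ℝ) :
    rhs3 a b d x y z =
      (b * d - z ^ 2) / Real.sqrt (z ^ 2 - b * d) * Real.log (-z + Real.sqrt (z ^ 2 - b * d)) +
      (y * z - x * d) / Real.sqrt (y ^ 2 - a * d) * Real.log (-y + Real.sqrt (y ^ 2 - a * d)) +
      (x * z - y * b) / Real.sqrt (x ^ 2 - a * b) * Real.log (-x + Real.sqrt (x ^ 2 - a * b)) -
      (1 / 2) * (((y * z - x * d) / Real.sqrt (y ^ 2 - a * d) +
        (x * z - y * b) / Real.sqrt (x ^ 2 - a * b)) * Real.log (-a)) -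
      (1 / 2) * (((b * d - z ^ 2) / Real.sqrt (z ^ 2 - b * d) +
        (x * z - y * b) / Real.sqrt (x ^ 2 - a * b)) * Real.log (-b)) -
      (1 / 2) * (((b * d - z ^ 2) / Real.sqrt (z ^ 2 - b * d) +
        (y * z - x * d) / Real.sqrt (y ^ 2 - a * d)) * Real.log (-d)) := by
  unfold rhs3 jr
  ring

theorem tendsto_rhs3 (a b d x y z : ℝ) (ha : a < 0) (hb : b ≤ 0) (hd : d ≤ 0) (hx : x < 0)
    (hy : y < 0) (hz : z < 0) (hab : a * b < x ^ 2) (had : a * d < y ^ 2) (hbd : b * d < z ^ 2) :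
    Tendsto (fun ε => rhs3 (a - ε) (b - ε) (d - ε) x y z) (𝓝[>] 0) (𝓝 (rhs3 a b d x y z)) := by
  have nab : x ^ 2 - (a - 0) * (b - 0) ≠ 0 := by nlinarith
  have nad : y ^ 2 - (a - 0) * (d - 0) ≠ 0 := by nlinarith
  have nbd : z ^ 2 - (b - 0) * (d - 0) ≠ 0 := by nlinarith
  have sab : Real.sqrt (x ^ 2 - (a - 0) * (b - 0)) ≠ 0 :=
    (Real.sqrt_pos.2 (by nlinarith)).ne'
  have sad : Real.sqrt (y ^ 2 - (a - 0) * (d - 0)) ≠ 0 :=
    (Real.sqrt_pos.2 (by nlinarith)).ne'
  have sbd : Real.sqrt (z ^ 2 - (b - 0) * (d - 0)) ≠ 0 :=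
    (Real.sqrt_pos.2 (by nlinarith)).ne'
  -- the three quotients
  have q0 : DifferentiableAt ℝ (fun ε : ℝ => ((b - ε) * (d - ε) - z ^ 2) /
      Real.sqrt (z ^ 2 - (b - ε) * (d - ε))) 0 := by
    refine DifferentiableAt.div (by fun_prop) (DifferentiableAt.sqrt (by fun_prop) nbd) sbd
  have q1 : DifferentiableAt ℝ (fun ε : ℝ => (y * z - x * (d - ε)) /
      Real.sqrt (y ^ 2 - (a - ε) * (d - ε))) 0 := by
    refine DifferentiableAt.div (by fun_prop) (DifferentiableAt.sqrt (by fun_prop) nad) sad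
  have q2 : DifferentiableAt ℝ (fun ε : ℝ => (x * z - y * (b - ε)) /
      Real.sqrt (x ^ 2 - (a - ε) * (b - ε))) 0 := by
    refine DifferentiableAt.div (by fun_prop) (DifferentiableAt.sqrt (by fun_prop) nab) sab
  -- the three logarithms
  have l0 : ContinuousAt (fun ε : ℝ => Real.log (-z + Real.sqrt (z ^ 2 - (b - ε) * (d - ε)))) 0 :=
    ContinuousAt.log (by fun_prop) (by have := Real.sqrt_nonneg (z ^ 2 - (b - 0) * (d - 0)); linarith)
  have l1 : ContinuousAt (fun ε : ℝ => Real.log (-y + Real.sqrt (y ^ 2 - (a - ε) * (d - ε)))) 0 :=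
    ContinuousAt.log (by fun_prop) (by have := Real.sqrt_nonneg (y ^ 2 - (a - 0) * (d - 0)); linarith)
  have l2 : ContinuousAt (fun ε : ℝ => Real.log (-x + Real.sqrt (x ^ 2 - (a - ε) * (b - ε)))) 0 :=
    ContinuousAt.log (by fun_prop) (by have := Real.sqrt_nonneg (x ^ 2 - (a - 0) * (b - 0)); linarith)
  have t : ∀ {f : ℝ → ℝ}, ContinuousAt f 0 → Tendsto f (𝓝[>] 0) (𝓝 (f 0)) :=
    fun h => h.tendsto.mono_left nhdsWithin_le_nhds
  have t0 := t (q0.continuousAt.mul l0)
  have t1 := t (q1.continuousAt.mul l1)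
  have t2 := t (q2.continuousAt.mul l2)
  have ta := tendsto_mul_log _ a ha.le (q1.add q2) (fun h => absurd h ha.ne)
  have rz : Real.sqrt (z ^ 2) = -z := by rw [Real.sqrt_sq_eq_abs, abs_of_neg hz]
  have rx : Real.sqrt (x ^ 2) = -x := by rw [Real.sqrt_sq_eq_abs, abs_of_neg hx]
  have ry : Real.sqrt (y ^ 2) = -y := by rw [Real.sqrt_sq_eq_abs, abs_of_neg hy]
  have tb := tendsto_mul_log _ b hb (q0.add q2) (fun h => by
    subst h
    have e1 : Real.sqrt (z ^ 2 - (0 - 0) * (d - 0)) = -z := by rw [← rz]; congr 1; ring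
    have e2 : Real.sqrt (x ^ 2 - (a - 0) * (0 - 0)) = -x := by rw [← rx]; congr 1; ring
    simp only [Pi.add_apply]
    rw [e1, e2]
    have hx0 := hx.ne
    have hy0 := hy.ne
    have hz0 := hz.ne
    field_simp
    ring)
  have td := tendsto_mul_log _ d hd (q0.add q1) (fun h => by
    subst h
    have e1 : Real.sqrt (z ^ 2 - (b - 0) * (0 - 0)) = -z := by rw [← rz]; congr 1; ring
    have e2 : Real.sqrt (y ^ 2 - (a - 0) * (0 - 0)) = -y := by rw [← ry]; congr 1; ring
    simp only [Pi.add_apply]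
    rw [e1, e2]
    have hx0 := hx.ne
    have hy0 := hy.ne
    have hz0 := hz.ne
    field_simp
    ring)
  have h := ((((t0.add t1).add t2).sub (ta.const_mul (1 / 2))).sub (tb.const_mul (1 / 2))).sub
    (td.const_mul (1 / 2))
  have e0 : rhs3 a b d x y z = rhs3 (a - 0) (b - 0) (d - 0) x y z := by simp
  rw [e0]
  simp only [rhs3_eq]
  convert h using 2
  all_goals simp only [Pi.mul_apply, Pi.add_apply, sub_zero]

/-- M4d: the first moment in terms of the regularised integrals over the facets, for matrices of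
size three. -/
theorem M0_eq_three (G : Matrix (Fin 3) (Fin 3) ℝ) (hG : Adm G) (h0 : G 0 0 < 0)
    (h2 : ∀ i j, i ≠ j → G i i * G j j < G i j ^ 2) :
    G.det * M0 G = - ∑ k, G.adjugate 0 k * Jreg (G.submatrix k.succAbove k.succAbove) := by
  set Gε : ℝ → Matrix (Fin 3) (Fin 3) ℝ := fun ε => G - ε • (1 : Matrix (Fin 3) (Fin 3) ℝ) with hGε
  have hdet : Tendsto (fun ε => (Gε ε).det) (𝓝[>] 0) (𝓝 G.det) := by
    have hc : Continuous fun ε => (Gε ε).det := by
      apply Continuous.matrix_det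
      simp only [hGε]
      fun_prop
    have := (hc.tendsto 0).mono_left (nhdsWithin_le_nhds (s := Ioi 0))
    simpa [hGε] using this
  have hL := hdet.mul (tendsto_M0 (by norm_num) hG h0)
  have hR := (tendsto_rhs3 (G 0 0) (G 1 1) (G 2 2) (G 0 1) (G 0 2) (G 1 2) h0 (hG.diag 1)
    (hG.diag 2) (hG.off _ _ (by decide)) (hG.off _ _ (by decide)) (hG.off _ _ (by decide))
    (h2 _ _ (by decide)) (h2 _ _ (by decide)) (h2 _ _ (by decide))).neg
  have hev : ∀ᶠ ε in 𝓝[>] (0:ℝ), ∀ i j : Fin 3, i ≠ j →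
      (G i i - ε) * (G j j - ε) < G i j ^ 2 := by
    rw [Filter.eventually_all]
    intro i
    rw [Filter.eventually_all]
    intro j
    by_cases hij : i = j
    · exact Filter.Eventually.of_forall fun _ h => absurd hij h
    · have hc : Continuous fun ε : ℝ => (G i i - ε) * (G j j - ε) := by fun_prop
      have h3 : (G i i - 0) * (G j j - 0) < G i j ^ 2 := by simpa using h2 i j hij
      have := (hc.tendsto 0).eventually_lt_const h3
      filter_upwards [nhdsWithin_le_nhds this] with ε h4 _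
      exact h4
  have key : ∀ᶠ ε in 𝓝[>] (0:ℝ), (Gε ε).det * M0 (Gε ε) =
      -rhs3 (G 0 0 - ε) (G 1 1 - ε) (G 2 2 - ε) (G 0 1) (G 0 2) (G 1 2) := by
    filter_upwards [hev, self_mem_nhdsWithin] with ε h3 hε
    have hε' : (0:ℝ) < ε := hε
    have hA : Adm (Gε ε) := hG.sub_smul hε'.le
    have hdiag : ∀ i, (Gε ε) i i = G i i - ε := fun i => by simp [hGε]
    have hoff : ∀ i j, i ≠ j → (Gε ε) i j = G i j := fun i j h => by
      simp [hGε, Matrix.one_apply_ne h]
    rw [M0_eq_three_strict (Gε ε) hA (fun i => by rw [hdiag]; have := hG.diag i; linarith)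
      (fun i j h => by rw [hdiag, hdiag, hoff i j h]; exact h3 i j h), rhs_three _ hA.symm]
    rw [hdiag, hdiag, hdiag, hoff 1 2 (by decide), hoff 0 1 (by decide), hoff 0 2 (by decide)]
    rfl
  have := tendsto_nhds_unique (hL.congr' key) hR
  rw [this, rhs_three G hG.symm]
  rfl

end Bellows
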