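import Pool.Agent.Bellows.Val

/-!
# M5, part a: a logarithm on the residue field and the tame symbol
-/

namespace Bellows.M5

open DOrd

theorem exists_lam (k : Type*) [Field k] (ι : ℝ →+* k) :
    ∃ lam : k → ℝ, (∀ x y, x ≠ 0 → y ≠ 0 → lam (x * y) = lam x + lam y) ∧
      ∀ c : ℝ, 0 < c → lam (ι c) = Real.log c := by
  classical
  let f : ℝ →+ Additive kˣ :=
    { toFun := fun t => Additive.ofMul (Units.mk0 (ι (Real.exp t))
        (by simpa using (Real.exp_pos t).ne'))
      map_zero' := by
        rw [← ofMul_one]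
        congr 1
        ext
        simp
      map_add' := fun s t => by
        rw [← ofMul_mul]
        congr 1
        ext
        simp [Real.exp_add] }
  have hf : Function.Injective f := by
    intro s t h
    have h1 : (Units.mk0 (ι (Real.exp s)) _ : kˣ) = Units.mk0 (ι (Real.exp t)) _ :=
      Additive.ofMul.injective h
    have h2 : ι (Real.exp s) = ι (Real.exp t) := by
      simpa using congrArg Units.val h1
    exact Real.exp_injective (ι.injective h2)
  obtain ⟨g, hg⟩ := Module.Baer.extension_property_addMonoidHom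
    (Module.Baer.of_divisible ℝ) f hf (AddMonoidHom.id ℝ)
  refine ⟨fun x => if h : x = 0 then 0 else g (Additive.ofMul (Units.mk0 x h)), ?_, ?_⟩
  · intro x y hx hy
    simp only [dif_neg hx, dif_neg hy, dif_neg (mul_ne_zero hx hy)]
    rw [← map_add, ← ofMul_mul]
    congr 2
    ext
    simp
  · intro c hc
    have hc' : ι c ≠ 0 := by simpa using hc.ne'
    simp only [dif_neg hc']
    have h1 := DFunLike.congr_fun hg (Real.log c)
    simp only [AddMonoidHom.coe_comp, Function.comp_apply, AddMonoidHom.id_apply] at h1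
    rw [← h1]
    congr 1
    show _ = Additive.ofMul (Units.mk0 (ι (Real.exp (Real.log c))) _)
    congr 1
    ext
    simp [Real.exp_log hc]

variable {K : Type*} [Field K] [Algebra ℂ K] (v : DOrd K)

/-- the logarithm on the residue field -/
noncomputable def lam : v.k → ℝ :=
  (exists_lam v.k ((algebraMap ℂ v.k).comp Complex.ofRealHom)).choose

theorem lam_mul {x y : v.k} (hx : x ≠ 0) (hy : y ≠ 0) : lam v (x * y) = lam v x + lam v y :=
  (exists_lam v.k ((algebraMap ℂ v.k).comp Complex.ofRealHom)).choose_spec.1 x y hx hy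

theorem lam_real {c : ℝ} (hc : 0 < c) : lam v (algebraMap ℂ v.k (c : ℂ)) = Real.log c :=
  (exists_lam v.k ((algebraMap ℂ v.k).comp Complex.ofRealHom)).choose_spec.2 c hc

theorem lam_one : lam v 1 = 0 := by
  have := lam_real v (c := 1) one_pos
  simpa using this

theorem lam_neg {x : v.k} (hx : x ≠ 0) : lam v (-x) = lam v x := by
  have h1 : lam v (-1) = 0 := by
    have := lam_mul v (x := (-1 : v.k)) (y := -1) (by simp) (by simp)
    rw [neg_one_mul, neg_neg, lam_one] at this
    linarith
  have := lam_mul v (x := (-1 : v.k)) (y := x) (by simp) hx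
  rw [h1] at this
  simpa using this

/-- the logarithm of the leading coefficient -/
noncomputable def psi (x : K) : ℝ := lam v (v.red (x * v.tau ^ (-v.ord x)))

theorem unit_part {x : K} (hx : x ≠ 0) :
    x * v.tau ^ (-v.ord x) ≠ 0 ∧ v.ord (x * v.tau ^ (-v.ord x)) = 0 := by
  have h1 : v.tau ^ (-v.ord x) ≠ 0 := zpow_ne_zero _ v.tau_ne
  refine ⟨mul_ne_zero hx h1, ?_⟩
  rw [v.mul _ _ hx h1, v.ord_zpow _ v.tau_ne, v.ord_tau]
  ring

theorem psi_mul {x y : K} (hx : x ≠ 0) (hy : y ≠ 0) : psi v (x * y) = psi v x + psi v y := by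
  have h1 := unit_part v hx
  have h2 := unit_part v hy
  unfold psi
  rw [← lam_mul v (red_ne_zero h1.1 h1.2) (red_ne_zero h2.1 h2.2),
    ← red_mul (Or.inr h1.2.ge) (Or.inr h2.2.ge)]
  congr 2
  rw [v.mul _ _ hx hy, neg_add, zpow_add₀ v.tau_ne]
  ring

theorem psi_of_unit {x : K} (h : v.ord x = 0) : psi v x = lam v (v.red x) := by
  unfold psi
  rw [h]
  simp

theorem psi_real {c : ℝ} (hc : 0 < c) : psi v (algebraMap ℂ K (c : ℂ)) = Real.log c := by
  have hc' : (c : ℂ) ≠ 0 := by exact_mod_cast hc.ne'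
  rw [psi_of_unit v (v.const _ hc'), red_const, lam_real v hc]

theorem psi_one : psi v 1 = 0 := by
  have := psi_real v (c := 1) one_pos
  simpa using this

theorem psi_neg {x : K} (hx : x ≠ 0) : psi v (-x) = psi v x := by
  have h1 : psi v (-1) = 0 := by
    have := psi_mul v (x := (-1 : K)) (y := -1) (by simp) (by simp)
    rw [neg_one_mul, neg_neg, psi_one] at this
    linarith
  have := psi_mul v (x := (-1 : K)) (y := x) (by simp) hx
  rw [h1] at this
  simpa using this

theorem psi_congr {x y : K} (hx : x ≠ 0) (h : v.Ge (v.ord x + 1) (x - y)) :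
    y ≠ 0 ∧ v.ord y = v.ord x ∧ psi v y = psi v x := by
  have h1 := ord_add_eq (v := v) (x := x) (y := -(x - y)) (j := v.ord x + 1) hx (by omega) h.neg
  have h2 : x + -(x - y) = y := by ring
  rw [h2] at h1
  refine ⟨h1.1, h1.2, ?_⟩
  unfold psi
  rw [h1.2]
  congr 1
  symm
  apply red_eq_red_of_sub
  · exact Or.inr (unit_part v hx).2.ge
  · have h3 := h.mul (Ge.tau_zpow (v := v) (-v.ord x))
    have h4 : x * v.tau ^ (-v.ord x) - y * v.tau ^ (-v.ord x) =
        (x - y) * v.tau ^ (-v.ord x) := by ring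
    rw [h4]
    exact h3.mono (by omega)

/-- the tame symbol, composed with the logarithm -/
noncomputable def sy (x y : K) : ℝ := v.ord x * psi v y - v.ord y * psi v x

theorem sy_comm (x y : K) : sy v x y = - sy v y x := by unfold sy; ring

theorem sy_mul_left {x y : K} (hx : x ≠ 0) (hy : y ≠ 0) (z : K) :
    sy v (x * y) z = sy v x z + sy v y z := by
  unfold sy
  rw [v.mul _ _ hx hy, psi_mul v hx hy]
  push_cast
  ring

theorem sy_mul_right {x y : K} (hx : x ≠ 0) (hy : y ≠ 0) (z : K) :
    sy v z (x * y) = sy v z x + sy v z y := by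
  rw [sy_comm, sy_mul_left v hx hy, sy_comm v x, sy_comm v y]
  ring

theorem sy_neg_left {x : K} (hx : x ≠ 0) (y : K) : sy v (-x) y = sy v x y := by
  unfold sy
  rw [v.ord_neg, psi_neg v hx]

theorem sy_neg_right {x : K} (hx : x ≠ 0) (y : K) : sy v y (-x) = sy v y x := by
  unfold sy
  rw [v.ord_neg, psi_neg v hx]

/-- the sum of three symbols -/
noncomputable def tri (x y z : K) : ℝ := sy v x y + sy v y z + sy v z x

theorem tri_rot (x y z : K) : tri v x y z = tri v y z x := by unfold tri; ring

theorem tri_swap (x y z : K) : tri v x y z = - tri v y x z := by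
  unfold tri
  rw [sy_comm v y x, sy_comm v x z, sy_comm v z y]
  ring

theorem tri_smul {t x y z : K} (ht : t ≠ 0) (hx : x ≠ 0) (hy : y ≠ 0) (hz : z ≠ 0) :
    tri v (t * x) (t * y) (t * z) = tri v x y z := by
  unfold tri sy
  rw [v.mul _ _ ht hx, v.mul _ _ ht hy, v.mul _ _ ht hz, psi_mul v ht hx, psi_mul v ht hy,
    psi_mul v ht hz]
  push_cast
  ring

/-- Steinberg relation, the case of a term of larger order -/
theorem steinberg_aux {x y z : K} (hx : x ≠ 0) (hy : y ≠ 0) (_hz : z ≠ 0) (h : x + y + z = 0)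
    (hxz : v.ord x < v.ord z) : tri v x y z = 0 := by
  have h1 : v.Ge (v.ord x + 1) (x - (-y)) := by
    right
    have : x - -y = -z := by linear_combination h
    rw [this, v.ord_neg]
    omega
  obtain ⟨-, h2, h3⟩ := psi_congr v hx h1
  rw [v.ord_neg] at h2
  rw [psi_neg v hy] at h3
  unfold tri sy
  rw [h2, h3]
  ring

theorem tri_of_ord_eq {x y z : K} (h1 : v.ord x = v.ord y) (h2 : v.ord y = v.ord z) :
    tri v x y z = 0 := by
  unfold tri sy
  rw [h1, h2]
  ring

/-- Steinberg relation -/
theorem steinberg {x y z : K} (hx : x ≠ 0) (hy : y ≠ 0) (hz : z ≠ 0) (h : x + y + z = 0) :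
    tri v x y z = 0 := by
  rcases lt_trichotomy (v.ord x) (v.ord z) with hxz | hxz | hxz
  · exact steinberg_aux v hx hy hz h hxz
  · rcases lt_trichotomy (v.ord y) (v.ord z) with hyz | hyz | hyz
    · -- ord y < ord z = ord x
      rw [tri_rot]
      exact steinberg_aux v hy hz hx (by linear_combination h) (by omega)
    · exact tri_of_ord_eq v (by omega) hyz
    · -- ord z < ord y
      rw [tri_rot, tri_rot]
      exact steinberg_aux v hz hx hy (by linear_combination h) hyz
  · rcases lt_trichotomy (v.ord y) (v.ord x) with hyz | hyz | hyz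
    · rw [tri_rot]
      exact steinberg_aux v hy hz hx (by linear_combination h) hyz
    · -- ord z < ord x = ord y
      rw [tri_rot, tri_rot]
      exact steinberg_aux v hz hx hy (by linear_combination h) (by omega)
    · rw [tri_rot, tri_rot]
      exact steinberg_aux v hz hx hy (by linear_combination h) (by omega)

/-- the determinant of two row vectors -/
def dd {R : Type*} [CommRing R] (r s : Fin 2 → R) : R := r 0 * s 1 - r 1 * s 0

theorem dd_swap {R : Type*} [CommRing R] (r s : Fin 2 → R) : dd r s = - dd s r := by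
  unfold dd; ring

theorem dd_self {R : Type*} [CommRing R] (r : Fin 2 → R) : dd r r = 0 := by
  unfold dd; ring

/-- the cocycle of three row vectors -/
noncomputable def cyc (r s t : Fin 2 → K) : ℝ := tri v (dd r s) (dd s t) (dd t r)

theorem cyc_rot (r s t : Fin 2 → K) : cyc v r s t = cyc v s t r := tri_rot v _ _ _

theorem cyc_swap {r s t : Fin 2 → K} (h1 : dd r s ≠ 0) (h2 : dd s t ≠ 0) (h3 : dd t r ≠ 0) :
    cyc v r t s = - cyc v r s t := by
  unfold cyc tri
  rw [dd_swap r t, dd_swap t s, dd_swap s r, sy_neg_left v h3, sy_neg_left v h2, sy_neg_left v h1,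
    sy_neg_right v h1, sy_neg_right v h2, sy_neg_right v h3]
  have c4 := sy_comm v (dd r s) (dd s t)
  have c5 := sy_comm v (dd s t) (dd t r)
  have c6 := sy_comm v (dd t r) (dd r s)
  linarith

theorem cyc_cocycle {q r s t : Fin 2 → K} (hqr : dd q r ≠ 0) (hqs : dd q s ≠ 0) (hqt : dd q t ≠ 0)
    (hrs : dd r s ≠ 0) (hst : dd s t ≠ 0) (htr : dd t r ≠ 0) :
    cyc v q r s + cyc v q s t + cyc v q t r = cyc v r s t := by
  have h := steinberg v (x := dd q r * dd s t) (y := dd q s * dd t r) (z := dd q t * dd r s)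
    (mul_ne_zero hqr hst) (mul_ne_zero hqs htr) (mul_ne_zero hqt hrs) (by unfold dd; ring)
  unfold tri at h
  rw [sy_mul_left v hqr hst, sy_mul_left v hqs htr, sy_mul_left v hqt hrs,
    sy_mul_right v hqs htr, sy_mul_right v hqs htr, sy_mul_right v hqt hrs, sy_mul_right v hqt hrs,
    sy_mul_right v hqr hst, sy_mul_right v hqr hst] at h
  unfold cyc tri
  rw [dd_swap s q, dd_swap t q, dd_swap r q, sy_neg_right v hqs, sy_neg_right v hqt,
    sy_neg_right v hqr, sy_neg_left v hqs, sy_neg_left v hqt, sy_neg_left v hqr]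
  have c1 := sy_comm v (dd q r) (dd q s)
  have c2 := sy_comm v (dd q s) (dd q t)
  have c3 := sy_comm v (dd q t) (dd q r)
  have c4 := sy_comm v (dd r s) (dd s t)
  have c5 := sy_comm v (dd s t) (dd t r)
  have c6 := sy_comm v (dd t r) (dd r s)
  have c7 := sy_comm v (dd q r) (dd r s)
  have c8 := sy_comm v (dd q s) (dd s t)
  have c9 := sy_comm v (dd q t) (dd t r)
  have c10 := sy_comm v (dd s t) (dd q s)
  have c11 := sy_comm v (dd q r) (dd t r)
  have c12 := sy_comm v (dd q s) (dd r s)
  have c13 := sy_comm v (dd q t) (dd s t)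
  linarith

end Bellows.M5
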