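import Pool.Agent.Bellows.Causal
import Pool.Agent.Bellows.Herm
import Pool.Agent.Bellows.M5a

/-!
# M5, part b: spinors and line data
-/

namespace Bellows.M5

open Matrix ComplexConjugate

/-- the hermitian matrix of a real vector -/
noncomputable def HH (x : Fin 4 → ℝ) : Matrix (Fin 2) (Fin 2) ℂ := herm (fun i => (x i : ℂ))

theorem HH00 (x : Fin 4 → ℝ) : HH x 0 0 = (x 0 : ℂ) + x 3 := by simp [HH, herm]
theorem HH01 (x : Fin 4 → ℝ) : HH x 0 1 = (x 1 : ℂ) - Complex.I * x 2 := by simp [HH, herm]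
theorem HH10 (x : Fin 4 → ℝ) : HH x 1 0 = (x 1 : ℂ) + Complex.I * x 2 := by simp [HH, herm]
theorem HH11 (x : Fin 4 → ℝ) : HH x 1 1 = (x 0 : ℂ) - x 3 := by simp [HH, herm]

theorem HH_conj (x : Fin 4 → ℝ) (i j : Fin 2) : conj (HH x i j) = HH x j i := by
  fin_cases i <;> fin_cases j <;>
    simp [HH00, HH01, HH10, HH11, -Complex.ofReal_add, -Complex.ofReal_sub] <;> ring

theorem herm_toR {K : Type*} [Field K] [Algebra ℂ K] (x : Fin 4 → ℝ) (i j : Fin 2) :
    (herm (toR x : Fin 4 → K)) i j = algebraMap ℂ K (HH x i j) := by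
  fin_cases i <;> fin_cases j <;> simp [HH, herm, toR]

theorem lf4 (x y : Fin 4 → ℝ) :
    lf x y = - (x 0 * y 0) + (x 1 * y 1 + x 2 * y 2 + x 3 * y 3) := by
  unfold lf
  simp only [Fin.sum_univ_three]
  rfl

/-- Spinors of future light-like vectors. -/
theorem exists_spinor (x : Fin 4 → ℝ) (h0 : lf x x = 0) (hx : 0 < x 0) :
    ∃ p : Fin 2 → ℂ, ∀ i j, HH x i j = p i * conj (p j) := by
  rw [lf4] at h0
  have hs : (x 0 + x 3) * (x 0 - x 3) = x 1 ^ 2 + x 2 ^ 2 := by linarith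
  by_cases ha : x 0 + x 3 = 0
  · have h3 : x 3 = - x 0 := by linarith
    rw [ha, zero_mul] at hs
    have h1 : x 1 = 0 := by nlinarith [sq_nonneg (x 1), sq_nonneg (x 2)]
    have h2 : x 2 = 0 := by nlinarith [sq_nonneg (x 1), sq_nonneg (x 2)]
    refine ⟨![0, (Real.sqrt (2 * x 0) : ℂ)], ?_⟩
    have hsq : (Real.sqrt (2 * x 0) : ℂ) * (Real.sqrt (2 * x 0) : ℂ) = ((2 * x 0 : ℝ) : ℂ) := by
      rw [← Complex.ofReal_mul, Real.mul_self_sqrt (by positivity)]
    intro i j
    fin_cases i <;> fin_cases j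
    · simp [HH00, h3]
    · simp [HH01, h1, h2]
    · simp [HH10, h1, h2]
    · simp only [Fin.mk_one, HH11, h3]
      simp only [cons_val_one, cons_val_fin_one, Complex.conj_ofReal]
      rw [hsq]; push_cast; ring
  · have hpos : 0 < x 0 + x 3 := by
      rcases lt_or_gt_of_ne ha with h | h
      · exfalso
        have h1 : 0 < x 0 - x 3 := by linarith
        nlinarith [mul_pos (neg_pos.mpr h) h1, sq_nonneg (x 1), sq_nonneg (x 2)]
      · exact h
    set s : ℝ := Real.sqrt (x 0 + x 3) with hs'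
    have hspos : 0 < s := Real.sqrt_pos.mpr hpos
    have hss : s * s = x 0 + x 3 := Real.mul_self_sqrt hpos.le
    have hsC : (s : ℂ) * s = (x 0 : ℂ) + x 3 := by
      rw [← Complex.ofReal_mul, hss]; push_cast; rfl
    have hsne : (s : ℂ) ≠ 0 := by exact_mod_cast hspos.ne'
    refine ⟨![(s : ℂ), ((x 1 : ℂ) + Complex.I * x 2) / s], ?_⟩
    intro i j
    fin_cases i <;> fin_cases j
    · simp only [Fin.zero_eta, HH00, cons_val_zero, Complex.conj_ofReal]
      exact hsC.symm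
    · simp only [Fin.zero_eta, Fin.mk_one, HH01, cons_val_zero, cons_val_one, cons_val_fin_one,
        map_div₀, Complex.conj_ofReal, map_add, map_mul, Complex.conj_I]
      field_simp
      ring
    · simp only [Fin.zero_eta, Fin.mk_one, HH10, cons_val_zero, cons_val_one, cons_val_fin_one,
        Complex.conj_ofReal]
      field_simp
    · simp only [Fin.mk_one, HH11, cons_val_one, cons_val_fin_one,
        map_div₀, Complex.conj_ofReal, map_add, map_mul, Complex.conj_I]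
      have hs2 : ((x 0 : ℂ) + x 3) * (x 0 - x 3) = (x 1 : ℂ) ^ 2 + (x 2 : ℂ) ^ 2 := by
        exact_mod_cast hs
      field_simp
      rw [sq, hsC]
      linear_combination hs2 + (x 2 : ℂ) ^ 2 * Complex.I_sq

/-- value of a row vector `(p₁, -p₀)` and of the conjugate of `(-m₁, m₀)` on a matrix -/
def n01 (m p : Fin 2 → ℂ) (M : Matrix (Fin 2) (Fin 2) ℂ) : ℂ :=
  - (p 1 * M 0 0 * conj (m 1)) + p 1 * M 0 1 * conj (m 0) + p 0 * M 1 0 * conj (m 1)
    - p 0 * M 1 1 * conj (m 0)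

/-- `n01` with the arguments exchanged -/
def n10 (m p : Fin 2 → ℂ) (M : Matrix (Fin 2) (Fin 2) ℂ) : ℂ :=
  - (m 1 * M 0 0 * conj (p 1)) + m 1 * M 0 1 * conj (p 0) + m 0 * M 1 0 * conj (p 1)
    - m 0 * M 1 1 * conj (p 0)

/-- the polar form of the determinant on a rank one matrix -/
def npol (p : Fin 2 → ℂ) (M : Matrix (Fin 2) (Fin 2) ℂ) : ℂ :=
  p 1 * conj (p 1) * M 0 0 - p 1 * conj (p 0) * M 0 1 - p 0 * conj (p 1) * M 1 0 +
    p 0 * conj (p 0) * M 1 1

/-- the matrix in the basis of the spinors -/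
theorem expand (m p : Fin 2 → ℂ) (hq : dd m p * conj (dd m p) = 1) (M : Matrix (Fin 2) (Fin 2) ℂ)
    (i j : Fin 2) :
    M i j = npol p M * (m i * conj (m j)) + npol m M * (p i * conj (p j)) +
      n01 m p M * (m i * conj (p j)) + n10 m p M * (p i * conj (m j)) := by
  have h : (m 0 * p 1 - m 1 * p 0) * (conj (m 0) * conj (p 1) - conj (m 1) * conj (p 0)) = 1 := by
    rw [← hq]; simp [dd]
  unfold npol n01 n10
  fin_cases i <;> fin_cases j <;> simp only [Fin.zero_eta, Fin.mk_one]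
  · linear_combination (-(M 0 0)) * h
  · linear_combination (-(M 0 1)) * h
  · linear_combination (-(M 1 0)) * h
  · linear_combination (-(M 1 1)) * h

theorem det_expand (m p : Fin 2 → ℂ) (hq : dd m p * conj (dd m p) = 1)
    (M : Matrix (Fin 2) (Fin 2) ℂ) :
    M 0 0 * M 1 1 - M 0 1 * M 1 0 = npol p M * npol m M - n01 m p M * n10 m p M := by
  have h : (m 0 * p 1 - m 1 * p 0) * (conj (m 0) * conj (p 1) - conj (m 1) * conj (p 0)) = 1 := by
    rw [← hq]; simp [dd]
  unfold npol n01 n10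
  linear_combination (-(M 0 0 * M 1 1 - M 0 1 * M 1 0)) * h

theorem det4 {R : Type*} [CommRing R] (x y z w : Fin 4 → R) :
    (Matrix.of ![x, y, z, w]).det =
      x 0 * (y 1 * (z 2 * w 3 - z 3 * w 2) - y 2 * (z 1 * w 3 - z 3 * w 1)
        + y 3 * (z 1 * w 2 - z 2 * w 1))
      - x 1 * (y 0 * (z 2 * w 3 - z 3 * w 2) - y 2 * (z 0 * w 3 - z 3 * w 0)
        + y 3 * (z 0 * w 2 - z 2 * w 0))
      + x 2 * (y 0 * (z 1 * w 3 - z 3 * w 1) - y 1 * (z 0 * w 3 - z 3 * w 0)
        + y 3 * (z 0 * w 1 - z 1 * w 0))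
      - x 3 * (y 0 * (z 1 * w 2 - z 2 * w 1) - y 1 * (z 0 * w 2 - z 2 * w 0)
        + y 2 * (z 0 * w 1 - z 1 * w 0)) := by
  rw [Matrix.det_succ_row_zero]
  simp only [Fin.sum_univ_four, Matrix.det_fin_three, Matrix.submatrix_apply, Matrix.of_apply]
  simp [Fin.succAbove]
  ring

/-- the complex four by four determinant formula -/
theorem orient_poly (x y z w : Fin 4 → ℝ) (X Y Z V : Matrix (Fin 2) (Fin 2) ℂ)
    (hX : X = HH x) (hY : Y = HH y) (hZ : Z = HH z) (hV : V = HH w) :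
    2 * Complex.I *
      ((Y 1 1 * Z 0 0 * X 1 1 * V 0 0 - Y 1 0 * Z 0 0 * X 1 1 * V 0 1
        - Y 1 1 * Z 0 0 * X 0 1 * V 1 0 + Y 1 0 * Z 0 0 * X 0 1 * V 1 1) +
       (- Y 1 1 * Z 0 1 * X 1 0 * V 0 0 + Y 1 0 * Z 0 1 * X 1 0 * V 0 1
        + Y 1 1 * Z 0 1 * X 0 0 * V 1 0 - Y 1 0 * Z 0 1 * X 0 0 * V 1 1) +
       (- Y 0 1 * Z 1 0 * X 1 1 * V 0 0 + Y 0 0 * Z 1 0 * X 1 1 * V 0 1
        + Y 0 1 * Z 1 0 * X 0 1 * V 1 0 - Y 0 0 * Z 1 0 * X 0 1 * V 1 1) +
       (Y 0 1 * Z 1 1 * X 1 0 * V 0 0 - Y 0 0 * Z 1 1 * X 1 0 * V 0 1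
        - Y 0 1 * Z 1 1 * X 0 0 * V 1 0 + Y 0 0 * Z 1 1 * X 0 0 * V 1 1) -
      ((Y 1 1 * V 0 0 * X 1 1 * Z 0 0 - Y 1 0 * V 0 0 * X 1 1 * Z 0 1
        - Y 1 1 * V 0 0 * X 0 1 * Z 1 0 + Y 1 0 * V 0 0 * X 0 1 * Z 1 1) +
       (- Y 1 1 * V 0 1 * X 1 0 * Z 0 0 + Y 1 0 * V 0 1 * X 1 0 * Z 0 1
        + Y 1 1 * V 0 1 * X 0 0 * Z 1 0 - Y 1 0 * V 0 1 * X 0 0 * Z 1 1) +
       (- Y 0 1 * V 1 0 * X 1 1 * Z 0 0 + Y 0 0 * V 1 0 * X 1 1 * Z 0 1
        + Y 0 1 * V 1 0 * X 0 1 * Z 1 0 - Y 0 0 * V 1 0 * X 0 1 * Z 1 1) +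
       (Y 0 1 * V 1 1 * X 1 0 * Z 0 0 - Y 0 0 * V 1 1 * X 1 0 * Z 0 1
        - Y 0 1 * V 1 1 * X 0 0 * Z 1 0 + Y 0 0 * V 1 1 * X 0 0 * Z 1 1))) =
    8 * (((Matrix.of ![x, y, z, w]).det : ℝ) : ℂ) := by
  subst hX hY hZ hV
  rw [det4]
  simp only [HH00, HH01, HH10, HH11]
  push_cast
  apply Complex.ext
  · simp
    ring
  · simp
    ring

theorem orient (x y z w : Fin 4 → ℝ) (m p : Fin 2 → ℂ) (hX : ∀ i j, HH x i j = m i * conj (m j))
    (hY : ∀ i j, HH y i j = p i * conj (p j)) (M : Matrix (Fin 2) (Fin 2) ℂ)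
    (hM : ∀ i j, M i j = HH z i j - Complex.I * HH w i j) :
    n01 m p M * conj (n01 m p M) - n10 m p M * conj (n10 m p M) =
      8 * (((Matrix.of ![x, y, z, w]).det : ℝ) : ℂ) := by
  rw [← orient_poly x y z w _ _ _ _ rfl rfl rfl rfl]
  unfold n01 n10
  simp only [hM, hX, hY, map_add, map_sub, map_mul, map_neg, Complex.conj_conj, HH_conj,
    Complex.conj_I]
  ring

/-- Data of a line through two points. -/
structure LD (x y : Fin 4 → ℝ) where
  m : Fin 2 → ℂ
  p : Fin 2 → ℂ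
  norm : dd m p * conj (dd m p) = 1
  a0 : ℝ
  b0 : ℝ
  a1 : ℝ
  b1 : ℝ
  hx : ∀ i j, HH x i j = a0 * (m i * conj (m j)) + b0 * (p i * conj (p j))
  hy : ∀ i j, HH y i j = a1 * (m i * conj (m j)) + b1 * (p i * conj (p j))
  a0n : 0 ≤ a0
  b0n : 0 ≤ b0
  a1n : 0 ≤ a1
  b1n : 0 ≤ b1
  ori : b0 * a1 < a0 * b1
  n0 : a0 * b0 = 1 ∨ a0 * b0 = 0
  n1 : a1 * b1 = 1 ∨ a1 * b1 = 0

namespace LD

variable {x y : Fin 4 → ℝ}

/-- the truncated length -/
noncomputable def w (L : LD x y) : ℝ := Real.log L.a0 + Real.log L.b1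

/-- the line data with the points exchanged -/
def symm (L : LD x y) : LD y x where
  m := L.p
  p := L.m
  norm := by
    rw [← L.norm, dd_swap L.p L.m]; simp
  a0 := L.b1
  b0 := L.a1
  a1 := L.b0
  b1 := L.a0
  hx i j := by rw [L.hy]; ring
  hy i j := by rw [L.hx]; ring
  a0n := L.b1n
  b0n := L.a1n
  a1n := L.b0n
  b1n := L.a0n
  ori := by have := L.ori; linarith
  n0 := by rw [mul_comm]; exact L.n1
  n1 := by rw [mul_comm]; exact L.n0

theorem w_symm (L : LD x y) : L.symm.w = L.w := by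
  simp only [w, symm]; ring

theorem a0_pos (L : LD x y) : 0 < L.a0 := by
  rcases L.a0n.lt_or_eq with h | h
  · exact h
  · have := L.ori
    rw [← h, zero_mul] at this
    exact absurd this (not_lt.mpr (mul_nonneg L.b0n L.a1n))

theorem b1_pos (L : LD x y) : 0 < L.b1 := L.symm.a0_pos

theorem m_ne (L : LD x y) : L.m ≠ 0 := by
  intro h
  have := L.norm
  rw [h] at this
  simp [dd] at this

theorem p_ne (L : LD x y) : L.p ≠ 0 := L.symm.m_ne

end LD

/-- the columns of an adapted frame are orthonormal -/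
theorem col_lf {C : Matrix (Fin 4) (Fin 4) ℝ} (hC : IsLor (d := 3) C) (i j : Fin 4) :
    lf (d := 3) (fun k => C k i) (fun k => C k j) =
      lf (d := 3) (Pi.single i 1) (Pi.single j 1) := by
  have h := hC (Pi.single i 1) (Pi.single j 1)
  rw [← h]
  congr 1
  · funext k; simp
  · funext k; simp

theorem lightlike_future {c x : Fin 4 → ℝ} (hc : lf (d := 3) c c = -1) (hc0 : 0 < c 0)
    (hx : lf (d := 3) x x = 0) (hcx : lf (d := 3) c x < 0) : 0 < x 0 := by
  have hT : FT (d := 3) c := ⟨by rw [hc]; norm_num, hc0⟩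
  rcases lt_trichotomy (x 0) 0 with h | h | h
  · exfalso
    have hF : FC (d := 3) (-x) := by
      refine ⟨?_, by simpa using h⟩
      rw [lf_neg_left, lf_neg_right, neg_neg, hx]
    have := hT.lf_neg hF
    rw [lf_neg_right] at this
    linarith
  · exfalso
    rw [lf4, h] at hx
    have h1 : x 1 = 0 := by nlinarith [sq_nonneg (x 1), sq_nonneg (x 2), sq_nonneg (x 3)]
    have h2 : x 2 = 0 := by nlinarith [sq_nonneg (x 1), sq_nonneg (x 2), sq_nonneg (x 3)]
    have h3 : x 3 = 0 := by nlinarith [sq_nonneg (x 1), sq_nonneg (x 2), sq_nonneg (x 3)]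
    rw [lf4, h, h1, h2, h3] at hcx
    simp at hcx
  · exact h

theorem HH_lin {x y z : Fin 4 → ℝ} {a b : ℝ} (h : ∀ k, x k = a * y k + b * z k) (i j : Fin 2) :
    HH x i j = a * HH y i j + b * HH z i j := by
  fin_cases i <;> fin_cases j <;> simp only [Fin.zero_eta, Fin.mk_one, HH00, HH01, HH10, HH11, h] <;>
    push_cast <;> ring

theorem pol_lf (x y : Fin 4 → ℝ) :
    HH x 0 0 * HH y 1 1 + HH x 1 1 * HH y 0 0 - HH x 0 1 * HH y 1 0 - HH x 1 0 * HH y 0 1 =
      ((-2 * lf (d := 3) x y : ℝ) : ℂ) := by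
  rw [lf4]
  simp only [HH00, HH01, HH10, HH11]
  push_cast
  linear_combination (2 * (x 2 : ℂ) * y 2) * Complex.I_sq

theorem exists_LD (x : Fin (0 + 2) → Fin (0 + 3 + 1) → ℝ)
    (A : AFrame (show 0 + 2 ≤ 0 + 3 + 1 by omega) x)
    (hx : ∀ v, FC (x v)) (hn : ∀ v, lf (x v) (x v) = -1 ∨ lf (x v) (x v) = 0) :
    ∃ L : LD (x 0) (x 1), A.wt = L.w ∧ ∃ s : ℂ, s ≠ 0 ∧
      ∀ i j, herm (fun i => ((A.n1 i : ℂ) - Complex.I * A.n2 i)) i j =
        s * (L.m i * conj (L.p j)) := by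
  set e0 : Fin 4 → ℝ := fun k => A.C k 0 with he0
  set e1 : Fin 4 → ℝ := fun k => A.C k 1 with he1
  set e2 : Fin 4 → ℝ := fun k => A.C k 2 with he2
  set e3 : Fin 4 → ℝ := fun k => A.C k 3 with he3
  have hcol : ∀ i j : Fin 4, lf (d := 3) (fun k => A.C k i) (fun k => A.C k j) =
      (if i = 0 then -1 else 1) * (Pi.single j (1 : ℝ) : Fin 4 → ℝ) i := by
    intro i j
    rw [col_lf A.lor, lf_single_left]
  have h00 : lf (d := 3) e0 e0 = -1 := by rw [hcol]; simp
  have h01 : lf (d := 3) e0 e1 = 0 := by rw [hcol]; simp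
  have h02 : lf (d := 3) e0 e2 = 0 := by rw [hcol]; simp
  have h03 : lf (d := 3) e0 e3 = 0 := by rw [hcol]; simp
  have h11 : lf (d := 3) e1 e1 = 1 := by rw [hcol]; simp
  have h12 : lf (d := 3) e1 e2 = 0 := by rw [hcol]; simp
  have h13 : lf (d := 3) e1 e3 = 0 := by rw [hcol]; simp
  have h22 : lf (d := 3) e2 e2 = 1 := by rw [hcol]; simp
  have h23 : lf (d := 3) e2 e3 = 0 := by rw [hcol]; simp
  have h33 : lf (d := 3) e3 e3 = 1 := by rw [hcol]; simp
  set cm : Fin 4 → ℝ := (1 / 2 : ℝ) • (e0 - e1) with hcm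
  set cp : Fin 4 → ℝ := (1 / 2 : ℝ) • (e0 + e1) with hcp
  have h10 : lf (d := 3) e1 e0 = 0 := by rw [lf_comm, h01]
  have hmm : lf (d := 3) cm cm = 0 := by
    rw [hcm, lf_smul_left, lf_smul_right, lf_sub_left, lf_sub_right, lf_sub_right, h00, h01, h10,
      h11]; norm_num
  have hpp : lf (d := 3) cp cp = 0 := by
    rw [hcp, lf_smul_left, lf_smul_right, lf_add_left, lf_add_right, lf_add_right, h00, h01, h10,
      h11]; norm_num
  have hmp : lf (d := 3) cm cp = -1 / 2 := by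
    rw [hcm, hcp, lf_smul_left, lf_smul_right, lf_sub_left, lf_add_right, lf_add_right, h00, h01,
      h10, h11]; norm_num
  have h0m : lf (d := 3) e0 cm = -1 / 2 := by
    rw [hcm, lf_smul_right, lf_sub_right, h00, h01]; norm_num
  have h0p : lf (d := 3) e0 cp = -1 / 2 := by
    rw [hcp, lf_smul_right, lf_add_right, h00, h01]; norm_num
  have hcm0 : 0 < cm 0 := lightlike_future h00 A.fut hmm (by rw [h0m]; norm_num)
  have hcp0 : 0 < cp 0 := lightlike_future h00 A.fut hpp (by rw [h0p]; norm_num)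
  obtain ⟨m, hm⟩ := exists_spinor cm hmm hcm0
  obtain ⟨p, hp⟩ := exists_spinor cp hpp hcp0
  have hnorm : dd m p * conj (dd m p) = 1 := by
    have h1 := pol_lf cm cp
    rw [hmp] at h1
    simp only [hm, hp] at h1
    simp only [dd, map_sub, map_mul]
    push_cast at h1
    linear_combination h1
  -- coefficients
  have hxc : ∀ v k, x v k = (A.c v 0 - A.c v 1) * cm k + (A.c v 0 + A.c v 1) * cp k := by
    intro v k
    rw [A.hx v k, hcm, hcp]
    have hs : ∀ f : Fin (0 + 2) → ℝ, ∑ k, f k = f 0 + f 1 := fun f => Fin.sum_univ_two f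
    rw [hs]
    simp only [Pi.smul_apply, Pi.sub_apply, Pi.add_apply, smul_eq_mul, he0, he1]
    show A.c v 0 * A.C k 0 + A.c v 1 * A.C k 1 = _
    ring
  have hxv : ∀ v, x v = (A.c v 0 - A.c v 1) • cm + (A.c v 0 + A.c v 1) • cp := by
    intro v; funext k; rw [hxc v k]; simp
  have hpm : lf (d := 3) cp cm = -1 / 2 := by rw [lf_comm, hmp]
  have hFm : FC (d := 3) cm := ⟨hmm.le, hcm0⟩
  have hFp : FC (d := 3) cp := ⟨hpp.le, hcp0⟩
  have hcm2 : lf (d := 3) cm e2 = 0 := by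
    rw [hcm, lf_smul_left, lf_sub_left, h02, h12]; norm_num
  have hcm3 : lf (d := 3) cm e3 = 0 := by
    rw [hcm, lf_smul_left, lf_sub_left, h03, h13]; norm_num
  have hcp2 : lf (d := 3) cp e2 = 0 := by
    rw [hcp, lf_smul_left, lf_add_left, h02, h12]; norm_num
  have hcp3 : lf (d := 3) cp e3 = 0 := by
    rw [hcp, lf_smul_left, lf_add_left, h03, h13]; norm_num
  have hdetf : (Matrix.of ![cm, cp, e2, e3]).det = 1 / 2 := by
    have h1 : Matrix.of ![e0, e1, e2, e3] = A.Cᵀ := by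
      ext i j
      fin_cases i <;> rfl
    have h2 : (Matrix.of ![e0, e1, e2, e3]).det = 1 := by
      rw [h1, Matrix.det_transpose]; exact A.det
    rw [det4] at h2 ⊢
    simp only [hcm, hcp, Pi.smul_apply, Pi.sub_apply, Pi.add_apply, smul_eq_mul]
    linear_combination (1 / 2) * h2
  clear_value cm cp
  have han : ∀ v, 0 ≤ A.c v 0 - A.c v 1 := by
    intro v
    have h1 := (hx v).lf_nonpos hFp
    rw [hxv v, lf_add_left, lf_smul_left, lf_smul_left, hmp, hpp] at h1
    linarith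
  have hbn : ∀ v, 0 ≤ A.c v 0 + A.c v 1 := by
    intro v
    have h1 := (hx v).lf_nonpos hFm
    rw [hxv v, lf_add_left, lf_smul_left, lf_smul_left, hpm, hmm] at h1
    linarith
  have hlf : ∀ v w, lf (x v) (x w) = -(1 / 2) * ((A.c v 0 - A.c v 1) * (A.c w 0 + A.c w 1) +
      (A.c v 0 + A.c v 1) * (A.c w 0 - A.c w 1)) := by
    intro v w
    rw [hxv v, hxv w]
    rw [lf_add_left, lf_add_right, lf_add_right, lf_smul_left, lf_smul_left, lf_smul_left,
      lf_smul_left, lf_smul_right, lf_smul_right, lf_smul_right, lf_smul_right]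
    rw [show lf cm cm = 0 from hmm, show lf cm cp = -1 / 2 from hmp,
      show lf cp cm = -1 / 2 from hpm, show lf cp cp = 0 from hpp]
    ring
  have hdet := A.cdet
  rw [Matrix.det_fin_two] at hdet
  have hnn : ∀ v, (A.c v 0 - A.c v 1) * (A.c v 0 + A.c v 1) = 1 ∨
      (A.c v 0 - A.c v 1) * (A.c v 0 + A.c v 1) = 0 := by
    intro v
    rcases hn v with h | h
    · left; rw [hlf] at h; linarith
    · right; rw [hlf] at h; linarith
  let L : LD (x 0) (x 1) :=
    { m := m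
      p := p
      norm := hnorm
      a0 := A.c 0 0 - A.c 0 1
      b0 := A.c 0 0 + A.c 0 1
      a1 := A.c 1 0 - A.c 1 1
      b1 := A.c 1 0 + A.c 1 1
      hx := by
        intro i j
        rw [HH_lin (hxc 0) i j, hm, hp]
      hy := by
        intro i j
        rw [HH_lin (hxc 1) i j, hm, hp]
      a0n := han 0
      b0n := hbn 0
      a1n := han 1
      b1n := hbn 1
      ori := by nlinarith [hdet]
      n0 := hnn 0
      n1 := hnn 1 }
  refine ⟨L, ?_, ?_⟩
  · -- the weight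
    have hG : ∀ i j : Fin (0 + 2), gram x i j = lf (x i) (x j) := fun i j => rfl
    have hdc : A.c.det = ((A.c 0 0 - A.c 0 1) * (A.c 1 0 + A.c 1 1) -
        (A.c 0 0 + A.c 0 1) * (A.c 1 0 - A.c 1 1)) / 2 := by
      rw [Matrix.det_fin_two]; ring
    have hsq : gram x 0 1 ^ 2 - gram x 0 0 * gram x 1 1 = A.c.det ^ 2 := by
      rw [hG, hG, hG, hlf, hlf, hlf, hdc]; ring
    have hl : ∀ v, Real.log (-gram x v v) = 0 := by
      intro v
      rw [hG, hlf]
      rcases hnn v with h | h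
      · have : -(-(1 / 2) * ((A.c v 0 - A.c v 1) * (A.c v 0 + A.c v 1) +
          (A.c v 0 + A.c v 1) * (A.c v 0 - A.c v 1))) = 1 := by linarith
        rw [this, Real.log_one]
      · have : -(-(1 / 2) * ((A.c v 0 - A.c v 1) * (A.c v 0 + A.c v 1) +
          (A.c v 0 + A.c v 1) * (A.c v 0 - A.c v 1))) = 0 := by linarith
        rw [this, Real.log_zero]
    have h01' : -gram x 0 1 + A.c.det = L.a0 * L.b1 := by
      show _ = (A.c 0 0 - A.c 0 1) * (A.c 1 0 + A.c 1 1)
      rw [hG, hlf, hdc]; ring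
    have key : A.c.det *
      ((Real.log (-gram x 0 1 + Real.sqrt (gram x 0 1 ^ 2 - gram x 0 0 * gram x 1 1)) -
          1 / 2 * Real.log (-gram x 0 0) - 1 / 2 * Real.log (-gram x 1 1)) /
        Real.sqrt (gram x 0 1 ^ 2 - gram x 0 0 * gram x 1 1)) = L.w := by
      rw [hsq, Real.sqrt_sq A.cdet.le, hl 0, hl 1, h01', Real.log_mul L.a0_pos.ne' L.b1_pos.ne']
      have := A.cdet.ne'
      unfold LD.w
      field_simp
      ring
    unfold AFrame.wt Jr
    rw [if_pos rfl]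
    exact key
  · -- the normal vector
    set M : Matrix (Fin 2) (Fin 2) ℂ := herm (fun i => ((A.n1 i : ℂ) - Complex.I * A.n2 i)) with hM
    have hn1 : A.n1 = e2 := rfl
    have hn2 : A.n2 = e3 := rfl
    have hMe : ∀ i j, M i j = HH e2 i j - Complex.I * HH e3 i j := by
      intro i j
      rw [hM, hn1, hn2]
      fin_cases i <;> fin_cases j <;> simp [herm, HH] <;> ring
    have hpolp : npol p M = 0 := by
      have q2 := pol_lf cp e2
      have q3 := pol_lf cp e3
      rw [hcp2] at q2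
      rw [hcp3] at q3
      simp only [hp] at q2 q3
      unfold npol
      simp only [hMe]
      push_cast at q2 q3
      linear_combination q2 - Complex.I * q3
    have hpolm : npol m M = 0 := by
      have q2 := pol_lf cm e2
      have q3 := pol_lf cm e3
      rw [hcm2] at q2
      rw [hcm3] at q3
      simp only [hm] at q2 q3
      unfold npol
      simp only [hMe]
      push_cast at q2 q3
      linear_combination q2 - Complex.I * q3
    have hdM : M 0 0 * M 1 1 - M 0 1 * M 1 0 = 0 := by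
      have q2 := pol_lf e2 e2
      have q3 := pol_lf e3 e3
      have q4 := pol_lf e2 e3
      rw [h22] at q2
      rw [h33] at q3
      rw [h23] at q4
      simp only [hMe]
      push_cast at q2 q3 q4
      linear_combination (1 / 2) * q2 + (Complex.I ^ 2 / 2) * q3 - Complex.I * q4 +
        (-1) * Complex.I_sq
    have hprod : n01 m p M * n10 m p M = 0 := by
      have := det_expand m p hnorm M
      rw [hdM, hpolp, hpolm] at this
      linear_combination this
    have hor := orient cm cp e2 e3 m p hm hp M hMe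
    rw [hdetf] at hor
    have hn10 : n10 m p M = 0 := by
      rcases mul_eq_zero.mp hprod with h | h
      · exfalso
        rw [h, zero_mul, zero_sub, Complex.mul_conj] at hor
        have h1 : -(Complex.normSq (n10 m p M)) = 8 * (1 / 2 : ℝ) := by exact_mod_cast hor
        have h2 := Complex.normSq_nonneg (n10 m p M)
        linarith
      · exact h
    refine ⟨n01 m p M, ?_, ?_⟩
    · intro h
      rw [h, hn10] at hor
      norm_num at hor
    · intro i j
      have := expand m p hnorm M i j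
      rw [hpolp, hpolm, hn10] at this
      rw [this]
      show _ = n01 m p M * (m i * conj (p j))
      ring

end Bellows.M5
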