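import Pool.Agent.Bellows.M5b

/-!
# M5, part c: the local lemma
-/

namespace Bellows.M5

open Matrix ComplexConjugate DOrd

variable {K : Type*} [Field K] [Algebra ℂ K]

/-- pairing of a row vector with a constant column vector -/
def pr (η : Fin 2 → K) (P : Fin 2 → ℂ) : K :=
  η 0 * algebraMap ℂ K (P 0) + η 1 * algebraMap ℂ K (P 1)

/-- product of a row vector with a constant matrix -/
def rm (η : Fin 2 → K) (H : Matrix (Fin 2) (Fin 2) ℂ) : Fin 2 → K :=
  fun j => η 0 * algebraMap ℂ K (H 0 j) + η 1 * algebraMap ℂ K (H 1 j)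

/-- the form `ω` -/
noncomputable def om (η : Fin 2 → K) (x y : Fin 4 → ℝ) : K := dd (rm η (HH x)) (rm η (HH y))

theorem om_swap (η : Fin 2 → K) (x y : Fin 4 → ℝ) : om η x y = - om η y x := dd_swap _ _

theorem rm_x {x y : Fin 4 → ℝ} (L : LD x y) (η : Fin 2 → K) (j : Fin 2) :
    rm η (HH x) j = algebraMap ℂ K L.a0 * pr η L.m * algebraMap ℂ K (conj (L.m j)) +
      algebraMap ℂ K L.b0 * pr η L.p * algebraMap ℂ K (conj (L.p j)) := by
  unfold rm pr
  simp only [L.hx, map_add, map_mul]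
  ring

theorem rm_y {x y : Fin 4 → ℝ} (L : LD x y) (η : Fin 2 → K) (j : Fin 2) :
    rm η (HH y) j = algebraMap ℂ K L.a1 * pr η L.m * algebraMap ℂ K (conj (L.m j)) +
      algebraMap ℂ K L.b1 * pr η L.p * algebraMap ℂ K (conj (L.p j)) := by
  unfold rm pr
  simp only [L.hy, map_add, map_mul]
  ring

theorem om_eq {x y : Fin 4 → ℝ} (L : LD x y) (η : Fin 2 → K) :
    om η x y = algebraMap ℂ K ((L.a0 * L.b1 - L.b0 * L.a1 : ℝ) * conj (dd L.m L.p)) *
      (pr η L.m * pr η L.p) := by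
  unfold om
  rw [show dd (rm η (HH x)) (rm η (HH y)) = rm η (HH x) 0 * rm η (HH y) 1 -
    rm η (HH x) 1 * rm η (HH y) 0 from rfl, rm_x L, rm_x L, rm_y L, rm_y L]
  simp only [dd, map_mul, map_sub, Complex.ofReal_sub, Complex.ofReal_mul]
  ring

theorem LD.coef_ne {x y : Fin 4 → ℝ} (L : LD x y) :
    ((L.a0 * L.b1 - L.b0 * L.a1 : ℝ) : ℂ) * conj (dd L.m L.p) ≠ 0 := by
  apply mul_ne_zero
  · have := L.ori
    exact_mod_cast (by linarith : 0 < L.a0 * L.b1 - L.b0 * L.a1).ne'
  · intro h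
    have := L.norm
    rw [h, mul_zero] at this
    exact zero_ne_one this

/-- Nonvanishing of a row vector on the ends of a line. -/
def NV {x y : Fin 4 → ℝ} (η : Fin 2 → K) (L : LD x y) : Prop := pr η L.m ≠ 0 ∧ pr η L.p ≠ 0

theorem NV.symm {x y : Fin 4 → ℝ} {η : Fin 2 → K} {L : LD x y} (h : NV η L) : NV η L.symm :=
  ⟨h.2, h.1⟩

theorem om_ne {x y : Fin 4 → ℝ} {η : Fin 2 → K} {L : LD x y} (h : NV η L) : om η x y ≠ 0 := by
  rw [om_eq L]
  exact mul_ne_zero ((map_ne_zero (algebraMap ℂ K)).mpr L.coef_ne) (mul_ne_zero h.1 h.2)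

variable (v : DOrd K)

theorem ord_om {x y : Fin 4 → ℝ} {η : Fin 2 → K} {L : LD x y} (h : NV η L) :
    v.ord (om η x y) = v.ord (pr η L.m) + v.ord (pr η L.p) := by
  have h1 : algebraMap ℂ K ((L.a0 * L.b1 - L.b0 * L.a1 : ℝ) * conj (dd L.m L.p)) ≠ 0 :=
    (map_ne_zero (algebraMap ℂ K)).mpr L.coef_ne
  rw [om_eq L, v.mul _ _ h1 (mul_ne_zero h.1 h.2), v.const _ L.coef_ne, v.mul _ _ h.1 h.2]
  ring

/-- the contribution of a line -/
noncomputable def La {x y : Fin 4 → ℝ} (η : Fin 2 → K) (L : LD x y) : ℝ :=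
  L.w * ((v.ord (pr η L.m) : ℝ) - v.ord (pr η L.p))

theorem La_symm {x y : Fin 4 → ℝ} (η : Fin 2 → K) (L : LD x y) :
    La v η L.symm = - La v η L := by
  unfold La
  rw [L.w_symm]
  simp only [LD.symm]
  ring

/-! ### constant row vectors -/

/-- value of `(P₁, -P₀)` on a vector -/
def up (P Q : Fin 2 → ℂ) : ℂ := P 1 * Q 0 - P 0 * Q 1

/-- product of `(P₁, -P₀)` with a matrix -/
def um (P : Fin 2 → ℂ) (H : Matrix (Fin 2) (Fin 2) ℂ) : Fin 2 → ℂ :=
  fun j => P 1 * H 0 j - P 0 * H 1 j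

/-- the hermitian form of `(P₁, -P₀)` -/
noncomputable def bb (P : Fin 2 → ℂ) (x : Fin 4 → ℝ) : ℝ :=
  (um P (HH x) 0 * conj (P 1) - um P (HH x) 1 * conj (P 0)).re

theorem um_x {x y : Fin 4 → ℝ} (L : LD x y) (P : Fin 2 → ℂ) (j : Fin 2) :
    um P (HH x) j = L.a0 * up P L.m * conj (L.m j) + L.b0 * up P L.p * conj (L.p j) := by
  unfold um up
  simp only [L.hx]
  ring

theorem um_y {x y : Fin 4 → ℝ} (L : LD x y) (P : Fin 2 → ℂ) (j : Fin 2) :
    um P (HH y) j = L.a1 * up P L.m * conj (L.m j) + L.b1 * up P L.p * conj (L.p j) := by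
  unfold um up
  simp only [L.hy]
  ring

theorem bb_x' {x y : Fin 4 → ℝ} (L : LD x y) (P : Fin 2 → ℂ) :
    um P (HH x) 0 * conj (P 1) - um P (HH x) 1 * conj (P 0) =
      ((L.a0 * Complex.normSq (up P L.m) + L.b0 * Complex.normSq (up P L.p) : ℝ) : ℂ) := by
  rw [um_x L, um_x L]
  push_cast
  rw [← Complex.mul_conj, ← Complex.mul_conj]
  simp only [up, map_sub, map_mul]
  ring

theorem bb_x {x y : Fin 4 → ℝ} (L : LD x y) (P : Fin 2 → ℂ) :
    bb P x = L.a0 * Complex.normSq (up P L.m) + L.b0 * Complex.normSq (up P L.p) := by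
  unfold bb
  rw [bb_x' L, Complex.ofReal_re]

theorem bb_cast {x y : Fin 4 → ℝ} (L : LD x y) (P : Fin 2 → ℂ) :
    um P (HH x) 0 * conj (P 1) - um P (HH x) 1 * conj (P 0) = (bb P x : ℂ) := by
  rw [bb_x' L, bb_x L]

theorem bb_y {x y : Fin 4 → ℝ} (L : LD x y) (P : Fin 2 → ℂ) :
    bb P y = L.a1 * Complex.normSq (up P L.m) + L.b1 * Complex.normSq (up P L.p) := by
  rw [bb_x L.symm]
  simp only [LD.symm]
  ring

/-- the hermitian form is positive when the row vector is not killed -/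
theorem bb_pos {x y : Fin 4 → ℝ} (L : LD x y) (P : Fin 2 → ℂ) (h : um P (HH x) ≠ 0) :
    0 < bb P x := by
  rw [bb_x L]
  have h1 : 0 ≤ L.a0 * Complex.normSq (up P L.m) := mul_nonneg L.a0n (Complex.normSq_nonneg _)
  have h2 : 0 ≤ L.b0 * Complex.normSq (up P L.p) := mul_nonneg L.b0n (Complex.normSq_nonneg _)
  rcases (add_nonneg h1 h2).lt_or_eq with h3 | h3
  · exact h3
  · exfalso
    apply h
    have h4 : L.a0 * Complex.normSq (up P L.m) = 0 := by linarith
    have h5 : L.b0 * Complex.normSq (up P L.p) = 0 := by linarith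
    have h6 : (L.a0 : ℂ) * up P L.m = 0 := by
      rcases mul_eq_zero.mp h4 with h | h
      · rw [h]; simp
      · rw [Complex.normSq_eq_zero.mp h]; simp
    have h7 : (L.b0 : ℂ) * up P L.p = 0 := by
      rcases mul_eq_zero.mp h5 with h | h
      · rw [h]; simp
      · rw [Complex.normSq_eq_zero.mp h]; simp
    funext j
    rw [um_x L, h6, h7]
    simp

theorem dd_um {x y : Fin 4 → ℝ} (L : LD x y) (P : Fin 2 → ℂ) :
    dd (um P (HH x)) (um P (HH y)) =
      ((L.a0 * L.b1 - L.b0 * L.a1 : ℝ) * conj (dd L.m L.p)) * (up P L.m * up P L.p) := by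
  rw [show dd (um P (HH x)) (um P (HH y)) = um P (HH x) 0 * um P (HH y) 1 -
    um P (HH x) 1 * um P (HH y) 0 from rfl, um_x L, um_x L, um_y L, um_y L]
  simp only [dd, map_mul, map_sub, Complex.ofReal_sub, Complex.ofReal_mul]
  ring

theorem dd_um_eq_zero {x y : Fin 4 → ℝ} (L : LD x y) (P : Fin 2 → ℂ) :
    dd (um P (HH x)) (um P (HH y)) = 0 ↔ up P L.m = 0 ∨ up P L.p = 0 := by
  rw [dd_um L, mul_eq_zero, or_iff_right L.coef_ne, mul_eq_zero]

/-- the two ends of a line are not both killed -/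
theorem not_both {x y : Fin 4 → ℝ} (L : LD x y) {P : Fin 2 → ℂ} (hP : P ≠ 0)
    (h1 : up P L.m = 0) (h2 : up P L.p = 0) : False := by
  have h3 : P 1 * dd L.m L.p = 0 := by
    unfold up at h1 h2
    unfold dd
    linear_combination L.p 1 * h1 - L.m 1 * h2
  have h4 : P 0 * dd L.m L.p = 0 := by
    unfold up at h1 h2
    unfold dd
    linear_combination L.p 0 * h1 - L.m 0 * h2
  have h5 : dd L.m L.p ≠ 0 := by
    intro h
    have := L.norm
    rw [h, zero_mul] at this
    exact zero_ne_one this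
  apply hP
  funext i
  fin_cases i
  · exact (mul_eq_zero.mp h4).resolve_right h5
  · exact (mul_eq_zero.mp h3).resolve_right h5

theorem parallel_of_up {P Q : Fin 2 → ℂ} (hP : P ≠ 0) (h : up P Q = 0) :
    ∃ z : ℂ, Q = z • P := by
  unfold up at h
  by_cases h0 : P 0 = 0
  · have h1 : P 1 ≠ 0 := by
      intro h1
      apply hP
      funext i
      fin_cases i
      · exact h0
      · exact h1
    refine ⟨Q 1 / P 1, ?_⟩
    funext i
    fin_cases i
    · simp only [Fin.zero_eta, Pi.smul_apply, smul_eq_mul, h0, mul_zero]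
      rw [h0, zero_mul, sub_zero] at h
      exact (mul_eq_zero.mp h).resolve_left h1
    · simp only [Fin.mk_one, Pi.smul_apply, smul_eq_mul]
      field_simp
  · refine ⟨Q 0 / P 0, ?_⟩
    funext i
    fin_cases i
    · simp only [Fin.zero_eta, Pi.smul_apply, smul_eq_mul]
      field_simp
    · simp only [Fin.mk_one, Pi.smul_apply, smul_eq_mul]
      field_simp
      linear_combination -h

theorem HH_trace (x : Fin 4 → ℝ) : HH x 0 0 + HH x 1 1 = ((2 * x 0 : ℝ) : ℂ) := by
  rw [HH00, HH11]; push_cast; ring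

open Classical in
/-- horofunction at the point killed by `(P₁, -P₀)` -/
noncomputable def ell (P : Fin 2 → ℂ) (x : Fin 4 → ℝ) : ℝ :=
  if um P (HH x) = 0 then - Real.log (2 * x 0 / (Complex.normSq (P 0) + Complex.normSq (P 1)))
  else Real.log (bb P x)

/-- The contribution of a line one of whose ends is killed. -/
theorem ell_sub {x y : Fin 4 → ℝ} (L : LD x y) {P : Fin 2 → ℂ} (hP : P ≠ 0)
    (h : up P L.p = 0) : ell P y - ell P x = - L.w := by
  have hm : up P L.m ≠ 0 := fun h' => not_both L hP h' h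
  obtain ⟨z, hz⟩ := parallel_of_up hP h
  have hz0 : z ≠ 0 := by
    rintro rfl
    apply L.p_ne
    rw [hz, zero_smul]
  have hnz : 0 < Complex.normSq z := Complex.normSq_pos.mpr hz0
  have hnm : 0 < Complex.normSq (up P L.m) := Complex.normSq_pos.mpr hm
  have hzm : Complex.normSq z * Complex.normSq (up P L.m) = 1 := by
    have h1 : dd L.m L.p = z * up P L.m := by
      rw [hz]; simp only [dd, up, Pi.smul_apply, smul_eq_mul]; ring
    have h2 := L.norm
    rw [h1, Complex.mul_conj, map_mul] at h2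
    exact_mod_cast h2
  have hlog : Real.log (Complex.normSq z) + Real.log (Complex.normSq (up P L.m)) = 0 := by
    rw [← Real.log_mul hnz.ne' hnm.ne', hzm, Real.log_one]
  have ha0 := L.a0_pos
  have hb1 := L.b1_pos
  -- the first point
  have hmj : ∃ j, conj (L.m j) ≠ 0 := by
    by_contra hcon
    push Not at hcon
    apply L.m_ne
    funext j
    simpa using hcon j
  obtain ⟨j, hj⟩ := hmj
  have hx : um P (HH x) ≠ 0 := by
    intro h0
    have := congrFun h0 j
    rw [um_x L, h, mul_zero, zero_mul, add_zero] at this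
    exact mul_ne_zero (mul_ne_zero (by exact_mod_cast ha0.ne') hm) hj this
  have hex : ell P x = Real.log L.a0 + Real.log (Complex.normSq (up P L.m)) := by
    unfold ell
    rw [if_neg hx, bb_x L, h, map_zero, mul_zero, add_zero, Real.log_mul ha0.ne' hnm.ne']
  rw [hex]
  by_cases ha1 : L.a1 = 0
  · -- the second point is the end
    have hy : um P (HH y) = 0 := by
      funext j
      rw [um_y L, h, ha1]
      simp
    have hy0 : 2 * y 0 = L.b1 * (Complex.normSq z * (Complex.normSq (P 0) + Complex.normSq (P 1))) := by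
      have h1 := HH_trace y
      rw [L.hy, L.hy, ha1, hz] at h1
      simp only [Pi.smul_apply, smul_eq_mul, Complex.ofReal_zero, zero_mul, zero_add] at h1
      rw [Complex.mul_conj, Complex.mul_conj, map_mul, map_mul] at h1
      have h2 : L.b1 * (Complex.normSq z * Complex.normSq (P 0)) +
        L.b1 * (Complex.normSq z * Complex.normSq (P 1)) = 2 * y 0 := by
        exact_mod_cast h1
      linarith
    have hPn : 0 < Complex.normSq (P 0) + Complex.normSq (P 1) := by
      by_contra hcon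
      push Not at hcon
      have g0 := Complex.normSq_nonneg (P 0)
      have g1 := Complex.normSq_nonneg (P 1)
      have e0 : Complex.normSq (P 0) = 0 := by linarith
      have e1 : Complex.normSq (P 1) = 0 := by linarith
      apply hP
      funext i
      fin_cases i
      · exact Complex.normSq_eq_zero.mp e0
      · exact Complex.normSq_eq_zero.mp e1
    unfold ell
    rw [if_pos hy, hy0]
    have h3 : L.b1 * (Complex.normSq z * (Complex.normSq (P 0) + Complex.normSq (P 1))) /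
        (Complex.normSq (P 0) + Complex.normSq (P 1)) = L.b1 * Complex.normSq z := by
      field_simp
    rw [h3, Real.log_mul hb1.ne' hnz.ne']
    unfold LD.w
    linarith
  · have ha1p : 0 < L.a1 := lt_of_le_of_ne L.a1n (Ne.symm ha1)
    have hy : um P (HH y) ≠ 0 := by
      intro h0
      have := congrFun h0 j
      rw [um_y L, h, mul_zero, zero_mul, add_zero] at this
      exact mul_ne_zero (mul_ne_zero (by exact_mod_cast ha1p.ne') hm) hj this
    have hey : ell P y = Real.log L.a1 + Real.log (Complex.normSq (up P L.m)) := by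
      unfold ell
      rw [if_neg hy, bb_y L, h, map_zero, mul_zero, add_zero, Real.log_mul ha1 hnm.ne']
    rw [hey]
    have h1 : L.a1 * L.b1 = 1 := by
      rcases L.n1 with h | h
      · exact h
      · exact absurd h (mul_pos ha1p hb1).ne'
    have h2 : Real.log L.a1 + Real.log L.b1 = 0 := by
      rw [← Real.log_mul ha1 hb1.ne', h1, Real.log_one]
    unfold LD.w
    linarith

/-! ### primitive row vectors -/

/-- A row vector whose reduction is killed by `P` and not zero. -/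
structure Prim (η : Fin 2 → K) (P : Fin 2 → ℂ) (c : v.k) : Prop where
  ge0 : ∀ i, v.Ge 0 (η i)
  red0 : v.red (η 0) = c * algebraMap ℂ v.k (P 1)
  red1 : v.red (η 1) = - (c * algebraMap ℂ v.k (P 0))
  c0 : c ≠ 0
  P0 : P ≠ 0

variable {v}

theorem ge_pr {η : Fin 2 → K} (h : ∀ i, v.Ge 0 (η i)) (Q : Fin 2 → ℂ) : v.Ge 0 (pr η Q) := by
  have h1 := (h 0).mul0 (Ge.const (v := v) (Q 0))
  have h2 := (h 1).mul0 (Ge.const (v := v) (Q 1))
  exact h1.add h2

theorem red_pr {η : Fin 2 → K} (h : ∀ i, v.Ge 0 (η i)) (Q : Fin 2 → ℂ) :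
    v.red (pr η Q) = v.red (η 0) * algebraMap ℂ v.k (Q 0) +
      v.red (η 1) * algebraMap ℂ v.k (Q 1) := by
  unfold pr
  rw [red_add ((h 0).mul0 (Ge.const _)) ((h 1).mul0 (Ge.const _)), red_mul (h 0) (Ge.const _),
    red_mul (h 1) (Ge.const _), red_const, red_const]

theorem Prim.red_pr {η : Fin 2 → K} {P : Fin 2 → ℂ} {c : v.k} (h : Prim v η P c) (Q : Fin 2 → ℂ) :
    v.red (pr η Q) = c * algebraMap ℂ v.k (up P Q) := by
  rw [M5.red_pr h.ge0, h.red0, h.red1]
  unfold up
  simp only [map_sub, map_mul]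
  ring

theorem Prim.ord_pr {η : Fin 2 → K} {P : Fin 2 → ℂ} {c : v.k} (h : Prim v η P c) {Q : Fin 2 → ℂ}
    (hQ : up P Q ≠ 0) : v.ord (pr η Q) = 0 := by
  have : v.red (pr η Q) ≠ 0 := by
    rw [h.red_pr]
    exact mul_ne_zero h.c0 ((map_ne_zero (algebraMap ℂ v.k)).mpr hQ)
  exact (ord_eq_zero_of_red_ne_zero this).2

theorem Prim.ord_pr' {η : Fin 2 → K} {P : Fin 2 → ℂ} {c : v.k} (h : Prim v η P c) {Q : Fin 2 → ℂ}
    (hQ : up P Q = 0) (hne : pr η Q ≠ 0) : v.ord (pr η Q) = v.ord (pr η P) := by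
  obtain ⟨z, rfl⟩ := parallel_of_up h.P0 hQ
  have h1 : pr η (z • P) = algebraMap ℂ K z * pr η P := by
    unfold pr
    simp only [Pi.smul_apply, smul_eq_mul, map_mul]
    ring
  rw [h1] at hne ⊢
  have hz : algebraMap ℂ K z ≠ 0 := left_ne_zero_of_mul hne
  have hz' : z ≠ 0 := (map_ne_zero (algebraMap ℂ K)).mp hz
  rw [v.mul _ _ hz (right_ne_zero_of_mul hne), v.const _ hz', zero_add]

open Classical in
theorem Prim.La_eq {η : Fin 2 → K} {P : Fin 2 → ℂ} {c : v.k} (h : Prim v η P c)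
    {x y : Fin 4 → ℝ} {L : LD x y} (hL : NV η L) :
    La v η L = if dd (um P (HH x)) (um P (HH y)) = 0 then
      (v.ord (pr η P) : ℝ) * (ell P y - ell P x) else 0 := by
  split_ifs with h0
  · rcases (dd_um_eq_zero L P).mp h0 with h1 | h1
    · have h2 : up P L.p ≠ 0 := fun h' => not_both L h.P0 h1 h'
      have h3 := ell_sub L.symm h.P0 (show up P L.symm.p = 0 from h1)
      rw [L.w_symm] at h3
      unfold La
      rw [h.ord_pr' h1 hL.1, h.ord_pr h2]
      push_cast
      linear_combination (v.ord (pr η P) : ℝ) * h3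
    · have h2 : up P L.m ≠ 0 := fun h' => not_both L h.P0 h' h1
      have h3 := ell_sub L h.P0 h1
      unfold La
      rw [h.ord_pr' h1 hL.2, h.ord_pr h2]
      push_cast
      linear_combination -(v.ord (pr η P) : ℝ) * h3
  · rw [dd_um_eq_zero L P] at h0
    push Not at h0
    unfold La
    rw [h.ord_pr h0.1, h.ord_pr h0.2]
    simp

open Classical in
theorem Prim.ord_om {η : Fin 2 → K} {P : Fin 2 → ℂ} {c : v.k} (h : Prim v η P c)
    {x y : Fin 4 → ℝ} {L : LD x y} (hL : NV η L) :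
    v.ord (om η x y) = if dd (um P (HH x)) (um P (HH y)) = 0 then v.ord (pr η P) else 0 := by
  rw [M5.ord_om v hL]
  split_ifs with h0
  · rcases (dd_um_eq_zero L P).mp h0 with h1 | h1
    · have h2 : up P L.p ≠ 0 := fun h' => not_both L h.P0 h1 h'
      rw [h.ord_pr' h1 hL.1, h.ord_pr h2, add_zero]
    · have h2 : up P L.m ≠ 0 := fun h' => not_both L h.P0 h' h1
      rw [h.ord_pr' h1 hL.2, h.ord_pr h2, zero_add]
  · rw [dd_um_eq_zero L P] at h0
    push Not at h0
    rw [h.ord_pr h0.1, h.ord_pr h0.2, add_zero]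

theorem Prim.ge_rm {η : Fin 2 → K} {P : Fin 2 → ℂ} {c : v.k} (h : Prim v η P c)
    (H : Matrix (Fin 2) (Fin 2) ℂ) (j : Fin 2) : v.Ge 0 (rm η H j) :=
  ((h.ge0 0).mul0 (Ge.const _)).add ((h.ge0 1).mul0 (Ge.const _))

theorem Prim.red_rm {η : Fin 2 → K} {P : Fin 2 → ℂ} {c : v.k} (h : Prim v η P c)
    (H : Matrix (Fin 2) (Fin 2) ℂ) (j : Fin 2) :
    v.red (rm η H j) = c * algebraMap ℂ v.k (um P H j) := by
  unfold rm
  rw [red_add ((h.ge0 0).mul0 (Ge.const _)) ((h.ge0 1).mul0 (Ge.const _)),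
    red_mul (h.ge0 0) (Ge.const _), red_mul (h.ge0 1) (Ge.const _), red_const, red_const, h.red0,
    h.red1]
  unfold um
  simp only [map_sub, map_mul]
  ring

theorem ge_dd {r s : Fin 2 → K} (hr : ∀ j, v.Ge 0 (r j)) (hs : ∀ j, v.Ge 0 (s j)) :
    v.Ge 0 (dd r s) :=
  ((hr 0).mul0 (hs 1)).sub ((hr 1).mul0 (hs 0))

theorem red_dd {r s : Fin 2 → K} (hr : ∀ j, v.Ge 0 (r j)) (hs : ∀ j, v.Ge 0 (s j)) :
    v.red (dd r s) = dd (fun j => v.red (r j)) (fun j => v.red (s j)) := by
  unfold dd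
  rw [red_sub ((hr 0).mul0 (hs 1)) ((hr 1).mul0 (hs 0)), red_mul (hr 0) (hs 1),
    red_mul (hr 1) (hs 0)]

theorem Prim.red_om {η : Fin 2 → K} {P : Fin 2 → ℂ} {c : v.k} (h : Prim v η P c)
    (x y : Fin 4 → ℝ) :
    v.red (om η x y) = c ^ 2 * algebraMap ℂ v.k (dd (um P (HH x)) (um P (HH y))) := by
  unfold om
  rw [red_dd (h.ge_rm _) (h.ge_rm _)]
  simp only [h.red_rm]
  simp only [dd, map_sub, map_mul]
  ring

theorem Prim.psi_om {η : Fin 2 → K} {P : Fin 2 → ℂ} {c : v.k} (h : Prim v η P c)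
    {x y : Fin 4 → ℝ} {L : LD x y} (hL : NV η L)
    (h0 : dd (um P (HH x)) (um P (HH y)) ≠ 0) :
    psi v (om η x y) =
      lam v (c ^ 2) + lam v (algebraMap ℂ v.k (dd (um P (HH x)) (um P (HH y)))) := by
  have h1 := h.ord_om hL
  rw [if_neg h0] at h1
  rw [psi_of_unit v h1, h.red_om, lam_mul v (pow_ne_zero _ h.c0)
    ((map_ne_zero (algebraMap ℂ v.k)).mpr h0)]

/-- If exactly the line through the first two points has a killed end. -/
theorem Prim.one {η : Fin 2 → K} {P : Fin 2 → ℂ} {c : v.k} (h : Prim v η P c)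
    {x y z : Fin 4 → ℝ} {L1 : LD x y} {L2 : LD y z} {L3 : LD z x} (h1 : NV η L1) (h2 : NV η L2)
    (h3 : NV η L3) (e1 : dd (um P (HH x)) (um P (HH y)) = 0)
    (e2 : dd (um P (HH y)) (um P (HH z)) ≠ 0) (e3 : dd (um P (HH z)) (um P (HH x)) ≠ 0) :
    tri v (om η x y) (om η y z) (om η z x) = La v η L1 + La v η L2 + La v η L3 := by
  rw [h.La_eq h1, h.La_eq h2, h.La_eq h3, if_pos e1, if_neg e2, if_neg e3]
  have o1 := h.ord_om h1
  have o2 := h.ord_om h2
  have o3 := h.ord_om h3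
  rw [if_pos e1] at o1
  rw [if_neg e2] at o2
  rw [if_neg e3] at o3
  have rx : um P (HH x) ≠ 0 := by
    intro h'; apply e3; rw [h']; simp [dd]
  have ry : um P (HH y) ≠ 0 := by
    intro h'; apply e2; rw [h']; simp [dd]
  have bx := bb_pos L1 P rx
  have bY := bb_pos L2 P ry
  have hk : dd (um P (HH y)) (um P (HH z)) =
      -(((bb P y / bb P x : ℝ) : ℂ) * dd (um P (HH z)) (um P (HH x))) := by
    have c1 := bb_cast L1 P
    have c2 := bb_cast L2 P
    have hbx : (bb P x : ℂ) ≠ 0 := by exact_mod_cast bx.ne'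
    push_cast
    field_simp
    rw [← c1, ← c2]
    unfold dd at e1 ⊢
    linear_combination (-(conj (P 1) * um P (HH z) 0 - conj (P 0) * um P (HH z) 1)) * e1
  have hl : lam v (algebraMap ℂ v.k (dd (um P (HH y)) (um P (HH z)))) =
      Real.log (bb P y / bb P x) +
        lam v (algebraMap ℂ v.k (dd (um P (HH z)) (um P (HH x)))) := by
    have hpos : 0 < bb P y / bb P x := div_pos bY bx
    have n1 : algebraMap ℂ v.k ((bb P y / bb P x : ℝ) : ℂ) ≠ 0 :=
      (map_ne_zero (algebraMap ℂ v.k)).mpr (by exact_mod_cast hpos.ne')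
    have n2 : algebraMap ℂ v.k (dd (um P (HH z)) (um P (HH x))) ≠ 0 :=
      (map_ne_zero (algebraMap ℂ v.k)).mpr e3
    rw [hk, map_neg, map_mul, lam_neg v (mul_ne_zero n1 n2), lam_mul v n1 n2, lam_real v hpos]
  unfold tri sy
  rw [o1, o2, o3, h.psi_om h2 e2, h.psi_om h3 e3, hl, Real.log_div bY.ne' bx.ne']
  unfold ell
  rw [if_neg rx, if_neg ry]
  push_cast
  ring

/-- A killed point. -/
theorem killed_row {x y : Fin 4 → ℝ} (L : LD x y) {P : Fin 2 → ℂ} {η : Fin 2 → K} {c : v.k}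
    (h : Prim v η P c) (ry : ∀ j, um P (HH y) j = 0) :
    up P L.p = 0 ∧ L.a1 = 0 ∧ ∀ j, rm η (HH y) j = algebraMap ℂ K (L.b1 : ℂ) * pr η L.p *
      algebraMap ℂ K (conj (L.p j)) := by
  have g0 := ry 0
  have g1 := ry 1
  rw [um_y L] at g0 g1
  have hd : conj (dd L.m L.p) ≠ 0 := right_ne_zero_of_mul L.coef_ne
  have hb1 := L.b1_pos
  have e1 : (L.b1 : ℂ) * up P L.p * conj (dd L.m L.p) = 0 := by
    unfold dd
    simp only [map_sub, map_mul]
    linear_combination conj (L.m 0) * g1 - conj (L.m 1) * g0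
  have e2 : (L.a1 : ℂ) * up P L.m * conj (dd L.m L.p) = 0 := by
    unfold dd
    simp only [map_sub, map_mul]
    linear_combination conj (L.p 1) * g0 - conj (L.p 0) * g1
  have hp : up P L.p = 0 := by
    have := (mul_eq_zero.mp e1).resolve_right hd
    exact (mul_eq_zero.mp this).resolve_left (by exact_mod_cast hb1.ne')
  have hm : up P L.m ≠ 0 := fun h' => not_both L h.P0 h' hp
  have ha : L.a1 = 0 := by
    have := (mul_eq_zero.mp e2).resolve_right hd
    have := (mul_eq_zero.mp this).resolve_right hm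
    exact_mod_cast this
  refine ⟨hp, ha, fun j => ?_⟩
  rw [rm_y L, ha]
  simp

/-- If exactly the two lines through the second point have a killed end. -/
theorem Prim.two {η : Fin 2 → K} {P : Fin 2 → ℂ} {c : v.k} (h : Prim v η P c)
    {x y z : Fin 4 → ℝ} {L1 : LD x y} {L2 : LD y z} {L3 : LD z x} (h1 : NV η L1) (h2 : NV η L2)
    (h3 : NV η L3) (e1 : dd (um P (HH x)) (um P (HH y)) = 0)
    (e2 : dd (um P (HH y)) (um P (HH z)) = 0) (e3 : dd (um P (HH z)) (um P (HH x)) ≠ 0) :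
    tri v (om η x y) (om η y z) (om η z x) = La v η L1 + La v η L2 + La v η L3 := by
  rw [h.La_eq h1, h.La_eq h2, h.La_eq h3, if_pos e1, if_pos e2, if_neg e3]
  have o1 := h.ord_om h1
  have o2 := h.ord_om h2
  have o3 := h.ord_om h3
  rw [if_pos e1] at o1
  rw [if_pos e2] at o2
  rw [if_neg e3] at o3
  have rx : um P (HH x) ≠ 0 := by
    intro h'; apply e3; rw [h']; simp [dd]
  have rz : um P (HH z) ≠ 0 := by
    intro h'; apply e3; rw [h']; simp [dd]
  have bx := bb_pos L1 P rx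
  have bz := bb_pos L3 P rz
  -- the second point is the killed point
  have ry : ∀ j, um P (HH y) j = 0 := by
    intro j
    have e1' := e1
    have e2' := e2
    unfold dd at e1' e2'
    have hz : um P (HH y) j * dd (um P (HH z)) (um P (HH x)) = 0 := by
      unfold dd
      fin_cases j
      · simp only [Fin.zero_eta]
        linear_combination (-(um P (HH z) 0)) * e1' - um P (HH x) 0 * e2'
      · simp only [Fin.mk_one]
        linear_combination (-(um P (HH z) 1)) * e1' - um P (HH x) 1 * e2'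
    exact (mul_eq_zero.mp hz).resolve_right e3
  obtain ⟨hp, ha1, hrow⟩ := killed_row L1 h ry
  have hra : ∀ j, rm η (HH y) j = algebraMap ℂ K (L1.b1 : ℂ) * pr η L1.p *
      algebraMap ℂ K (conj (L1.p j)) := hrow
  obtain ⟨ζ, hζ⟩ := parallel_of_up h.P0 hp
  have hζ0 : ζ ≠ 0 := by
    rintro rfl
    apply L1.p_ne
    rw [hζ, zero_smul]
  have hP : pr η P ≠ 0 := by
    intro h0
    apply h1.2
    rw [hζ]
    have : pr η (ζ • P) = algebraMap ℂ K ζ * pr η P := by
      unfold pr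
      simp only [Pi.smul_apply, smul_eq_mul, map_mul]
      ring
    rw [this, h0, mul_zero]
  -- the common factor
  obtain ⟨θ, hθ⟩ : ∃ θ : K, θ = algebraMap ℂ K (L1.b1 : ℂ) * (algebraMap ℂ K ζ * pr η P) *
    algebraMap ℂ K (conj ζ) := ⟨_, rfl⟩
  have hrow' : ∀ j, rm η (HH y) j = θ * algebraMap ℂ K (conj (P j)) := by
    intro j
    rw [hra, hθ, hζ]
    unfold pr
    simp only [Pi.smul_apply, smul_eq_mul, map_mul]
    ring
  have hb1 := L1.b1_pos
  have hθ0 : θ ≠ 0 := by
    rw [hθ]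
    refine mul_ne_zero (mul_ne_zero ?_ (mul_ne_zero ?_ hP)) ?_
    · exact (map_ne_zero (algebraMap ℂ K)).mpr (by exact_mod_cast hb1.ne')
    · exact (map_ne_zero (algebraMap ℂ K)).mpr hζ0
    · exact (map_ne_zero (algebraMap ℂ K)).mpr ((map_ne_zero _).mpr hζ0)
  -- the two other factors
  have key : ∀ w : Fin 4 → ℝ, 0 < bb P w →
      ∀ hc : um P (HH w) 0 * conj (P 1) - um P (HH w) 1 * conj (P 0) = (bb P w : ℂ),
      dd (rm η (HH w)) (fun j => algebraMap ℂ K (conj (P j))) ≠ 0 ∧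
      psi v (dd (rm η (HH w)) (fun j => algebraMap ℂ K (conj (P j)))) =
        lam v c + Real.log (bb P w) := by
    intro w hw hc
    have g1 : v.red (dd (rm η (HH w)) (fun j => algebraMap ℂ K (conj (P j)))) =
        c * algebraMap ℂ v.k (bb P w : ℂ) := by
      rw [red_dd (h.ge_rm _) (fun j => Ge.const _), ← hc]
      simp only [h.red_rm, red_const, dd, map_sub, map_mul]
      ring
    have g2 : algebraMap ℂ v.k (bb P w : ℂ) ≠ 0 :=
      (map_ne_zero (algebraMap ℂ v.k)).mpr (by exact_mod_cast hw.ne')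
    have g3 : v.red (dd (rm η (HH w)) (fun j => algebraMap ℂ K (conj (P j)))) ≠ 0 := by
      rw [g1]
      exact mul_ne_zero h.c0 g2
    obtain ⟨g4, g5⟩ := ord_eq_zero_of_red_ne_zero g3
    refine ⟨g4, ?_⟩
    rw [psi_of_unit v g5, g1, lam_mul v h.c0 g2, lam_real v hw]
  obtain ⟨kx0, kx⟩ := key x bx (bb_cast L1 P)
  obtain ⟨kz0, kz⟩ := key z bz (bb_cast L3 P)
  have q1 : om η x y = θ * dd (rm η (HH x)) (fun j => algebraMap ℂ K (conj (P j))) := by
    unfold om dd
    rw [hrow', hrow']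
    ring
  have q2 : om η y z = -(θ * dd (rm η (HH z)) (fun j => algebraMap ℂ K (conj (P j)))) := by
    unfold om dd
    rw [hrow', hrow']
    ring
  have p1 : psi v (om η x y) = psi v θ + (lam v c + Real.log (bb P x)) := by
    rw [q1, psi_mul v hθ0 kx0, kx]
  have p2 : psi v (om η y z) = psi v θ + (lam v c + Real.log (bb P z)) := by
    rw [q2, psi_neg v (mul_ne_zero hθ0 kz0), psi_mul v hθ0 kz0, kz]
  unfold tri sy
  rw [o1, o2, o3, p1, p2]
  unfold ell
  rw [if_neg rx, if_neg rz]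
  push_cast
  ring

end Bellows.M5
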