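import Pool.Agent.Bellows.M5c

/-!
# M5, part d: the local lemma for arbitrary row vectors
-/

namespace Bellows.M5

open Matrix ComplexConjugate DOrd

variable {K : Type*} [Field K] [Algebra ℂ K] {v : DOrd K}

theorem Prim.loc {η : Fin 2 → K} {P : Fin 2 → ℂ} {c : v.k} (h : Prim v η P c)
    {x y z : Fin 4 → ℝ} {L1 : LD x y} {L2 : LD y z} {L3 : LD z x} (h1 : NV η L1) (h2 : NV η L2)
    (h3 : NV η L3) :
    tri v (om η x y) (om η y z) (om η z x) = La v η L1 + La v η L2 + La v η L3 := by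
  by_cases e1 : dd (um P (HH x)) (um P (HH y)) = 0
  · by_cases e2 : dd (um P (HH y)) (um P (HH z)) = 0
    · by_cases e3 : dd (um P (HH z)) (um P (HH x)) = 0
      · rw [tri_of_ord_eq v (by rw [h.ord_om h1, h.ord_om h2, if_pos e1, if_pos e2])
          (by rw [h.ord_om h2, h.ord_om h3, if_pos e2, if_pos e3]), h.La_eq h1, h.La_eq h2,
          h.La_eq h3, if_pos e1, if_pos e2, if_pos e3]
        ring
      · exact h.two h1 h2 h3 e1 e2 e3
    · by_cases e3 : dd (um P (HH z)) (um P (HH x)) = 0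
      · rw [tri_rot, tri_rot, h.two h3 h1 h2 e3 e1 e2]
        ring
      · exact h.one h1 h2 h3 e1 e2 e3
  · by_cases e2 : dd (um P (HH y)) (um P (HH z)) = 0
    · by_cases e3 : dd (um P (HH z)) (um P (HH x)) = 0
      · rw [tri_rot, h.two h2 h3 h1 e2 e3 e1]
        ring
      · rw [tri_rot, h.one h2 h3 h1 e2 e3 e1]
        ring
    · by_cases e3 : dd (um P (HH z)) (um P (HH x)) = 0
      · rw [tri_rot, tri_rot, h.one h3 h1 h2 e3 e1 e2]
        ring
      · rw [tri_of_ord_eq v (by rw [h.ord_om h1, h.ord_om h2, if_neg e1, if_neg e2])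
          (by rw [h.ord_om h2, h.ord_om h3, if_neg e2, if_neg e3]), h.La_eq h1, h.La_eq h2,
          h.La_eq h3, if_neg e1, if_neg e2, if_neg e3]
        ring

theorem prim_cases {η : Fin 2 → K} (h : ∀ i, v.Ge 0 (η i))
    (h' : v.red (η 0) ≠ 0 ∨ v.red (η 1) ≠ 0) :
    (∀ Q : Fin 2 → ℂ, Q ≠ 0 → v.red (pr η Q) ≠ 0) ∨ ∃ P c, Prim v η P c := by
  by_cases hex : ∀ Q : Fin 2 → ℂ, Q ≠ 0 → v.red (pr η Q) ≠ 0
  · exact Or.inl hex
  · right
    push Not at hex
    obtain ⟨P, hP, h0⟩ := hex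
    rw [M5.red_pr h] at h0
    by_cases hP0 : P 0 = 0
    · have hP1 : P 1 ≠ 0 := by
        intro hP1
        apply hP
        funext i
        fin_cases i
        · exact hP0
        · exact hP1
      have g : algebraMap ℂ v.k (P 1) ≠ 0 := (map_ne_zero (algebraMap ℂ v.k)).mpr hP1
      rw [hP0, map_zero, mul_zero, zero_add] at h0
      have e1 : v.red (η 1) = 0 := (mul_eq_zero.mp h0).resolve_right g
      have e0 : v.red (η 0) ≠ 0 := h'.resolve_right (fun h'' => h'' e1)
      refine ⟨P, v.red (η 0) / algebraMap ℂ v.k (P 1), h, ?_, ?_, ?_, hP⟩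
      · rw [div_mul_cancel₀ _ g]
      · rw [hP0, map_zero, mul_zero, neg_zero, e1]
      · exact div_ne_zero e0 g
    · have g : algebraMap ℂ v.k (P 0) ≠ 0 := (map_ne_zero (algebraMap ℂ v.k)).mpr hP0
      have e1 : v.red (η 0) = -(v.red (η 1)) / algebraMap ℂ v.k (P 0) * algebraMap ℂ v.k (P 1) := by
        field_simp
        linear_combination h0
      have e2 : v.red (η 1) ≠ 0 := by
        intro h2
        rw [h2, neg_zero, zero_div, zero_mul] at e1
        rcases h' with h' | h'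
        · exact h' e1
        · exact h' h2
      refine ⟨P, -(v.red (η 1)) / algebraMap ℂ v.k (P 0), h, e1, ?_, ?_, hP⟩
      · rw [div_mul_cancel₀ _ g, neg_neg]
      · exact div_ne_zero (neg_ne_zero.mpr e2) g

theorem exists_prim (v : DOrd K) {η : Fin 2 → K} (h : η ≠ 0) :
    ∃ (n : ℤ) (η' : Fin 2 → K), (∀ i, η i = v.tau ^ n * η' i) ∧ (∀ i, v.Ge 0 (η' i)) ∧
      (v.red (η' 0) ≠ 0 ∨ v.red (η' 1) ≠ 0) := by
  -- the index of the minimum
  obtain ⟨i, hi, hmin⟩ : ∃ i, η i ≠ 0 ∧ ∀ j, v.Ge (v.ord (η i)) (η j) := by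
    by_cases h0 : η 0 = 0
    · have h1 : η 1 ≠ 0 := by
        intro h1
        apply h
        funext i
        fin_cases i
        · exact h0
        · exact h1
      refine ⟨1, h1, fun j => ?_⟩
      fin_cases j
      · exact Or.inl h0
      · exact Or.inr le_rfl
    · by_cases h1 : η 1 = 0
      · refine ⟨0, h0, fun j => ?_⟩
        fin_cases j
        · exact Or.inr le_rfl
        · exact Or.inl h1
      · rcases le_total (v.ord (η 0)) (v.ord (η 1)) with hle | hle
        · refine ⟨0, h0, fun j => ?_⟩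
          fin_cases j
          · exact Or.inr le_rfl
          · exact Or.inr hle
        · refine ⟨1, h1, fun j => ?_⟩
          fin_cases j
          · exact Or.inr hle
          · exact Or.inr le_rfl
  have ht : ∀ n : ℤ, v.tau ^ n ≠ 0 := fun n => zpow_ne_zero _ v.tau_ne
  refine ⟨v.ord (η i), fun j => v.tau ^ (-v.ord (η i)) * η j, ?_, ?_, ?_⟩
  · intro j
    rw [← mul_assoc, ← zpow_add₀ v.tau_ne, add_neg_cancel, zpow_zero, one_mul]
  · intro j
    rw [ge_tau_mul_iff]
    exact (hmin j).mono (by omega)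
  · have hne : v.red (v.tau ^ (-v.ord (η i)) * η i) ≠ 0 := by
      apply red_ne_zero (mul_ne_zero (ht _) hi)
      rw [v.mul _ _ (ht _) hi, v.ord_zpow _ v.tau_ne, v.ord_tau]
      ring
    fin_cases i
    · exact Or.inl hne
    · exact Or.inr hne

theorem pr_smul {η η' : Fin 2 → K} {t : K} (h : ∀ i, η i = t * η' i) (Q : Fin 2 → ℂ) :
    pr η Q = t * pr η' Q := by
  unfold pr
  rw [h 0, h 1]
  ring

theorem om_smul {η η' : Fin 2 → K} {t : K} (h : ∀ i, η i = t * η' i) (x y : Fin 4 → ℝ) :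
    om η x y = t ^ 2 * om η' x y := by
  unfold om dd rm
  rw [h 0, h 1]
  ring

theorem NV.of_smul {x y : Fin 4 → ℝ} {η η' : Fin 2 → K} {t : K} (h : ∀ i, η i = t * η' i)
    {L : LD x y} (hL : NV η L) : NV η' L := by
  unfold NV at hL ⊢
  rw [pr_smul h, pr_smul h] at hL
  exact ⟨right_ne_zero_of_mul hL.1, right_ne_zero_of_mul hL.2⟩

theorem La_smul {x y : Fin 4 → ℝ} {η η' : Fin 2 → K} {t : K} (h : ∀ i, η i = t * η' i)
    {L : LD x y} (hL : NV η L) : La v η L = La v η' L := by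
  have h' := hL.of_smul h
  have ht : t ≠ 0 := by
    have := hL.1
    rw [pr_smul h] at this
    exact left_ne_zero_of_mul this
  unfold La
  rw [pr_smul h, pr_smul h, v.mul _ _ ht h'.1, v.mul _ _ ht h'.2]
  push_cast
  ring

theorem NV.ne {x y : Fin 4 → ℝ} {η : Fin 2 → K} {L : LD x y} (h : NV η L) : η ≠ 0 := by
  rintro rfl
  apply h.1
  simp [pr]

/-- The local lemma. -/
theorem loc (v : DOrd K) {η : Fin 2 → K}
    {x y z : Fin 4 → ℝ} {L1 : LD x y} {L2 : LD y z} {L3 : LD z x} (h1 : NV η L1) (h2 : NV η L2)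
    (h3 : NV η L3) :
    tri v (om η x y) (om η y z) (om η z x) = La v η L1 + La v η L2 + La v η L3 := by
  obtain ⟨n, η', hη, hge, hred⟩ := exists_prim v h1.ne
  have h1' := h1.of_smul hη
  have h2' := h2.of_smul hη
  have h3' := h3.of_smul hη
  rw [La_smul hη h1, La_smul hη h2, La_smul hη h3, om_smul hη, om_smul hη, om_smul hη,
    tri_smul v (pow_ne_zero 2 (zpow_ne_zero _ v.tau_ne)) (om_ne h1') (om_ne h2') (om_ne h3')]
  rcases prim_cases hge hred with h | ⟨P, c, h⟩
  · have ho : ∀ Q : Fin 2 → ℂ, Q ≠ 0 → v.ord (pr η' Q) = 0 := fun Q hQ =>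
      (ord_eq_zero_of_red_ne_zero (h Q hQ)).2
    rw [tri_of_ord_eq v]
    · unfold La
      rw [ho _ L1.m_ne, ho _ L1.p_ne, ho _ L2.m_ne, ho _ L2.p_ne, ho _ L3.m_ne, ho _ L3.p_ne]
      simp
    · rw [ord_om v h1', ord_om v h2', ho _ L1.m_ne, ho _ L1.p_ne, ho _ L2.m_ne, ho _ L2.p_ne]
    · rw [ord_om v h2', ord_om v h3', ho _ L2.m_ne, ho _ L2.p_ne, ho _ L3.m_ne, ho _ L3.p_ne]
  · exact h.loc h1' h2' h3'

theorem nv_iff {x y : Fin 4 → ℝ} (η : Fin 2 → K) (L : LD x y) : NV η L ↔ om η x y ≠ 0 := by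
  constructor
  · exact om_ne
  · intro h
    rw [om_eq L] at h
    have := right_ne_zero_of_mul h
    exact ⟨left_ne_zero_of_mul this, right_ne_zero_of_mul this⟩

/-- The contribution of a line does not depend on its presentation. -/
theorem La_unique (v : DOrd K) {η : Fin 2 → K} {x y : Fin 4 → ℝ} {L L' : LD x y} (h : NV η L) :
    La v η L = La v η L' := by
  have h' : NV η L' := (nv_iff η L').mpr ((nv_iff η L).mp h)
  obtain ⟨n, η', hη, hge, hred⟩ := exists_prim v h.ne
  have h1 := h.of_smul hη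
  have h2 := h'.of_smul hη
  rw [La_smul hη h, La_smul hη h']
  rcases prim_cases hge hred with h | ⟨P, c, h⟩
  · have ho : ∀ Q : Fin 2 → ℂ, Q ≠ 0 → v.ord (pr η' Q) = 0 := fun Q hQ =>
      (ord_eq_zero_of_red_ne_zero (h Q hQ)).2
    unfold La
    rw [ho _ L.m_ne, ho _ L.p_ne, ho _ L'.m_ne, ho _ L'.p_ne]
    simp
  · rw [h.La_eq h1, h.La_eq h2]

theorem LD.irrefl {x : Fin 4 → ℝ} (L : LD x x) : False := by
  have hd : dd L.m L.p ≠ 0 := by
    intro h
    have := L.norm
    rw [h, zero_mul] at this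
    exact zero_ne_one this
  have h1 := dd_um L (fun i => L.m i + L.p i)
  rw [dd_self] at h1
  have h2 := (mul_eq_zero.mp h1.symm).resolve_left L.coef_ne
  rcases mul_eq_zero.mp h2 with h | h
  · apply hd
    unfold up at h
    unfold dd
    linear_combination h
  · apply hd
    unfold up at h
    unfold dd
    linear_combination -h

/-- Generic linear forms. -/
theorem exists_generic {ι : Type*} [Finite ι] (w : ι → Fin 2 → K) :
    ∃ t : ℂ, ∀ i, w i ≠ 0 → w i 0 + algebraMap ℂ K t * w i 1 ≠ 0 := by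
  classical
  have := Fintype.ofFinite ι
  -- every vector excludes at most one value
  have h1 : ∀ i, ∃ t₀ : ℂ, ∀ t : ℂ, t ≠ t₀ → w i ≠ 0 → w i 0 + algebraMap ℂ K t * w i 1 ≠ 0 := by
    intro i
    by_cases h : ∃ t₀ : ℂ, w i 0 + algebraMap ℂ K t₀ * w i 1 = 0
    · obtain ⟨t₀, ht₀⟩ := h
      refine ⟨t₀, fun t ht hw h0 => ?_⟩
      have h2 : algebraMap ℂ K (t - t₀) * w i 1 = 0 := by
        rw [map_sub]
        linear_combination h0 - ht₀
      have h3 : w i 1 = 0 := (mul_eq_zero.mp h2).resolve_left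
        ((map_ne_zero (algebraMap ℂ K)).mpr (sub_ne_zero.mpr ht))
      have h4 : w i 0 = 0 := by rw [h3, mul_zero, add_zero] at h0; exact h0
      apply hw
      funext j
      fin_cases j
      · exact h4
      · exact h3
    · push Not at h
      exact ⟨0, fun t _ _ => h t⟩
  choose f hf using h1
  obtain ⟨t, ht⟩ := Infinite.exists_notMem_finset (Finset.univ.image f)
  refine ⟨t, fun i => hf i t ?_⟩
  rintro rfl
  exact ht (Finset.mem_image_of_mem f (Finset.mem_univ i))

end Bellows.M5
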