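import Pool.Agent.Bellows.M3
import Pool.Agent.Bellows.Boundary
import Pool.Agent.Bellows.Causal

/-!
# Bellows, M7, first part: the intersection number is a signed sum of indicators of cones
-/

open MeasureTheory

namespace Bellows

/-- The one-sided exchange step, with a weaker genericity hypothesis. -/
theorem exchange' {r : ℕ} (v : Fin (r + 1) → Fin r → ℝ) (ℓ : (Fin r → ℝ) →ₗ[ℝ] ℝ)
    (hℓ : ∀ i, 0 < ℓ (v i)) (x : Fin r → ℝ)
    (hx : ∀ i j : Fin (r + 1), i ≠ j → ∀ y : Fin (r + 1) → ℝ, (∀ k, 0 ≤ y k) → y i = 0 → y j = 0 →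
      ∑ k, y k • v k ≠ x)
    (lam : Fin (r + 1) → ℝ) (hlam : ∑ i, lam i • v i = 0)
    (i : Fin (r + 1)) (hi : 0 < lam i) (y : Fin (r + 1) → ℝ) (hyi : y i = 0)
    (hy : ∀ j, j ≠ i → 0 < y j) (hyx : ∑ j, y j • v j = x) :
    ∃ i' : Fin (r + 1), lam i' < 0 ∧ ∃ y' : Fin (r + 1) → ℝ, y' i' = 0 ∧
      (∀ j, j ≠ i' → 0 < y' j) ∧ ∑ j, y' j • v j = x := by
  classical
  have hneg : ∃ j, lam j < 0 := by
    by_contra hcon
    push Not at hcon
    have h1 : ∑ j, lam j * ℓ (v j) = 0 := by
      have := congrArg ℓ hlam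
      simpa [map_sum] using this
    have h2 : 0 < ∑ j, lam j * ℓ (v j) :=
      Finset.sum_pos' (fun j _ => mul_nonneg (hcon j) (hℓ j).le) ⟨i, Finset.mem_univ _, mul_pos hi (hℓ i)⟩
    linarith
  obtain ⟨j₀, hj₀⟩ := hneg
  obtain ⟨i', hi', hmin⟩ := Finset.exists_min_image (Finset.univ.filter fun j => lam j < 0)
    (fun j => -y j / lam j) ⟨j₀, by simp [hj₀]⟩
  have hi'neg : lam i' < 0 := by simpa using hi'
  have hi'i : i' ≠ i := by
    rintro rfl
    linarith
  set s : ℝ := -y i' / lam i' with hs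
  have hspos : 0 < s := by
    rw [hs]
    apply div_pos_of_neg_of_neg _ hi'neg
    have := hy i' hi'i
    linarith
  have hsy : ∀ j, 0 ≤ y j + s * lam j := by
    intro j
    rcases lt_or_ge (lam j) 0 with hj | hj
    · have h1 : s ≤ -y j / lam j := hmin j (by simp [hj])
      have h2 : s * lam j ≥ -y j / lam j * lam j := mul_le_mul_of_nonpos_right h1 hj.le
      rw [div_mul_cancel₀ _ hj.ne] at h2
      linarith
    · have h0 : 0 ≤ y j := by
        rcases eq_or_ne j i with h | h
        · rw [h, hyi]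
        · exact (hy j h).le
      have := mul_nonneg hspos.le hj
      linarith
  have hsi' : y i' + s * lam i' = 0 := by
    rw [hs, div_mul_cancel₀ _ hi'neg.ne]
    ring
  have hsum : ∑ j, (y j + s * lam j) • v j = x := by
    simp only [add_smul, mul_smul, Finset.sum_add_distrib, ← Finset.smul_sum, hlam, hyx]
    simp
  refine ⟨i', hi'neg, fun j => y j + s * lam j, hsi', fun j hj => ?_, hsum⟩
  refine lt_of_le_of_ne (hsy j) fun h0 => ?_
  exact hx i' j (Ne.symm hj) _ hsy hsi' h0.symm hsum

open Classical in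
/-- Cocycle identity for cones, pointwise, for points outside the closed cones of codimension one. -/
theorem cone_cocycle_pt' {r : ℕ} (v : Fin (r + 1) → Fin r → ℝ) (ℓ : (Fin r → ℝ) →ₗ[ℝ] ℝ)
    (hℓ : ∀ i, 0 < ℓ (v i)) (x : Fin r → ℝ)
    (hx : ∀ i j : Fin (r + 1), i ≠ j → ∀ y : Fin (r + 1) → ℝ, (∀ k, 0 ≤ y k) → y i = 0 → y j = 0 →
      ∑ k, y k • v k ≠ x) :
    ∑ i : Fin (r + 1), (-1 : ℝ) ^ (i : ℕ) *
      (SignType.sign (Matrix.of fun j => v (i.succAbove j)).det : ℝ) *
      (if ∃ y ∈ orth r, x = ∑ j, y j • v (i.succAbove j) then 1 else 0) = 0 := by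
  set lam : Fin (r + 1) → ℝ := fun i =>
    (-1 : ℝ) ^ (i : ℕ) * (Matrix.of fun j => v (i.succAbove j)).det with hlamdef
  have hlam : ∑ i, lam i • v i = 0 := cramer_rel v
  have hsign : ∀ i : Fin (r + 1), (-1 : ℝ) ^ (i : ℕ) *
      (SignType.sign (Matrix.of fun j => v (i.succAbove j)).det : ℝ) =
      (SignType.sign (lam i) : ℝ) := by
    intro i
    simp only [hlamdef]
    rcases Nat.even_or_odd (i : ℕ) with h | h
    · simp [h.neg_one_pow]
    · simp [h.neg_one_pow, Left.sign_neg]
  simp only [hsign, good_iff]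
  set good : Fin (r + 1) → Prop := fun i =>
    ∃ y : Fin (r + 1) → ℝ, y i = 0 ∧ (∀ j, j ≠ i → 0 < y j) ∧ ∑ j, y j • v j = x with hgood
  change ∑ i, (SignType.sign (lam i) : ℝ) * (if good i then 1 else 0) = 0
  by_cases hall : ∀ i, good i → lam i = 0
  · refine Finset.sum_eq_zero fun i _ => ?_
    by_cases hg : good i
    · simp [hall i hg]
    · simp [hg]
  push Not at hall
  obtain ⟨k, hgk, hk⟩ := hall
  have hkdet : (Matrix.of fun j => v (k.succAbove j)).det ≠ 0 := by
    intro h0
    apply hk
    simp [hlamdef, h0]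
  have hnlam : ∑ i, (-lam i) • v i = 0 := by
    simp only [neg_smul, Finset.sum_neg_distrib, hlam, neg_zero]
  have hpos : (∃ i, good i ∧ 0 < lam i) ∧ ∃ i, good i ∧ lam i < 0 := by
    rcases lt_or_gt_of_ne hk with h | h
    · refine ⟨?_, k, hgk, h⟩
      obtain ⟨y, h1, h2, h3⟩ := hgk
      obtain ⟨i', hi', hg'⟩ := exchange' v ℓ hℓ x hx (fun i => -lam i) hnlam k
        (by simpa using h) y h1 h2 h3
      exact ⟨i', hg', by simpa using hi'⟩
    · refine ⟨⟨k, hgk, h⟩, ?_⟩
      obtain ⟨y, h1, h2, h3⟩ := hgk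
      obtain ⟨i', hi', hg'⟩ := exchange' v ℓ hℓ x hx lam hlam k h y h1 h2 h3
      exact ⟨i', hg', hi'⟩
  obtain ⟨⟨a, hga, ha⟩, b, hgb, hb⟩ := hpos
  have hab : a ≠ b := by
    rintro rfl
    linarith
  have hother : ∀ i, i ≠ a → i ≠ b → (SignType.sign (lam i) : ℝ) * (if good i then 1 else 0) = 0 := by
    intro i hia hib
    by_cases hg : good i
    · rcases lt_trichotomy (lam i) 0 with h | h | h
      · exfalso
        apply hib
        obtain ⟨y, h1, h2, h3⟩ := hg
        obtain ⟨y', h1', h2', h3'⟩ := hgb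
        exact good_unique v x k hkdet (fun i => -lam i) hnlam (by simpa using hk) i b
          (by simpa using h) (by simpa using hb) y h1 h2 h3 y' h1' h2' h3'
      · simp [h]
      · exfalso
        apply hia
        obtain ⟨y, h1, h2, h3⟩ := hg
        obtain ⟨y', h1', h2', h3'⟩ := hga
        exact good_unique v x k hkdet lam hlam hk i a h ha y h1 h2 h3 y' h1' h2' h3'
    · simp [hg]
  rw [Finset.sum_eq_add a b hab (fun i _ hi => hother i hi.1 hi.2) (by simp) (by simp)]
  simp [hga, hgb, sign_pos ha, sign_neg hb]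

open Classical in
/-- signed indicator of the open simplicial cone spanned by `w`. -/
noncomputable def sgi {n : ℕ} (w : Fin n → Fin n → ℝ) (X : Fin n → ℝ) : ℝ :=
  (SignType.sign (Matrix.of w).det : ℝ) * (if ∃ y ∈ orth n, X = ∑ j, y j • w j then 1 else 0)

/-- `X` is not a nonnegative combination of the vectors `w`. -/
def Off {k n : ℕ} (w : Fin k → Fin n → ℝ) (X : Fin n → ℝ) : Prop :=
  ∀ y : Fin k → ℝ, (∀ i, 0 ≤ y i) → ∑ i, y i • w i ≠ X

/-- Moving the apex of the cones: one plate. -/
theorem sgi_cocycle {r : ℕ} (u o' : Fin (r + 2) → ℝ) (p : Fin (r + 1) → Fin (r + 2) → ℝ)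
    (ℓ : (Fin (r + 2) → ℝ) →ₗ[ℝ] ℝ) (hu : 0 < ℓ u) (ho : 0 < ℓ o') (hp : ∀ i, 0 < ℓ (p i))
    (X : Fin (r + 2) → ℝ) (hX1 : Off p X) (hX2 : ∀ k : Fin (r + 1), Off (Fin.cons u fun j => p (k.succAbove j) : Fin (r + 1) → _) X)
    (hgen : ∀ i j : Fin (r + 3), i ≠ j → i ≠ 1 → j ≠ 1 →
      o' ∉ Submodule.span ℝ (insert X ((Fin.cons u (Fin.cons o' p) : Fin (r + 3) → Fin (r + 2) → ℝ) ''
        {k | k ≠ 1 ∧ k ≠ i ∧ k ≠ j}))) :
    sgi (Fin.cons o' p) X - sgi (Fin.cons u p) X +
      ∑ k : Fin (r + 1), (-1 : ℝ) ^ (k : ℕ) *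
        sgi (Fin.cons u (Fin.cons o' fun j => p (k.succAbove j)) : Fin (r + 2) → _) X = 0 := by
  classical
  set v : Fin (r + 3) → Fin (r + 2) → ℝ := Fin.cons u (Fin.cons o' p) with hv
  have hℓ : ∀ i, 0 < ℓ (v i) := by
    intro i
    refine Fin.cases ?_ (fun i => Fin.cases ?_ (fun i => ?_) i) i
    · simpa [hv] using hu
    · simpa [hv] using ho
    · simpa [hv] using hp i
  have hv1 : v 1 = o' := by
    have : (1 : Fin (r + 3)) = Fin.succ 0 := rfl
    rw [this, hv, Fin.cons_succ, Fin.cons_zero]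
  have hx : ∀ i j : Fin (r + 3), i ≠ j → ∀ y : Fin (r + 3) → ℝ, (∀ k, 0 ≤ y k) → y i = 0 → y j = 0 →
      ∑ k, y k • v k ≠ X := by
    intro i j hij y hy0 hyi hyj hsum
    by_cases hy1 : y 1 = 0
    · -- another index with vanishing coefficient
      obtain ⟨l, hl1, hl⟩ : ∃ l : Fin (r + 3), l ≠ 1 ∧ y l = 0 := by
        by_cases hi1 : i = 1
        · exact ⟨j, fun h => hij (hi1.trans h.symm), hyj⟩
        · exact ⟨i, hi1, hyi⟩
      have hexp : X = y 0 • u + ∑ k : Fin (r + 1), y k.succ.succ • p k := by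
        rw [← hsum, Fin.sum_univ_succ, Fin.sum_univ_succ]
        have h1 : (Fin.succ 0 : Fin (r + 3)) = 1 := rfl
        rw [h1, hy1]
        simp [hv]
      refine Fin.cases (motive := fun l => l ≠ 1 → y l = 0 → False) ?_
        (fun l => Fin.cases (motive := fun l => l.succ ≠ 1 → y l.succ = 0 → False) ?_ (fun k => ?_) l) l hl1 hl
      · intro _ h0
        rw [h0, zero_smul, zero_add] at hexp
        exact hX1 _ (fun i => hy0 _) hexp.symm
      · intro h _
        exact h rfl
      · intro _ h0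
        refine hX2 k (Fin.cons (y 0) fun j => y (k.succAbove j).succ.succ) ?_ ?_
        · intro i
          refine Fin.cases ?_ (fun i => ?_) i
          · simpa using hy0 0
          · simpa using hy0 _
        · rw [hexp, Fin.sum_univ_succ, Fin.sum_univ_succAbove (fun k => y k.succ.succ • p k) k, h0]
          simp
    · have hi1 : i ≠ 1 := fun h => hy1 (h ▸ hyi)
      have hj1 : j ≠ 1 := fun h => hy1 (h ▸ hyj)
      apply hgen i j hij hi1 hj1
      set V := Submodule.span ℝ (insert X (v '' {k | k ≠ 1 ∧ k ≠ i ∧ k ≠ j})) with hV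
      have hXV : X ∈ V := Submodule.subset_span (Set.mem_insert _ _)
      have hkV : ∀ k, k ≠ 1 → y k • v k ∈ V := by
        intro k hk
        by_cases hki : k = i
        · rw [hki, hyi, zero_smul]; exact V.zero_mem
        by_cases hkj : k = j
        · rw [hkj, hyj, zero_smul]; exact V.zero_mem
        exact V.smul_mem _ (Submodule.subset_span (Set.mem_insert_of_mem _ ⟨k, ⟨hk, hki, hkj⟩, rfl⟩))
      have h1 : y 1 • o' = X - ∑ k ∈ Finset.univ.erase (1 : Fin (r + 3)), y k • v k := by
        rw [← hsum, ← Finset.add_sum_erase _ _ (Finset.mem_univ (1 : Fin (r + 3))), hv1]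
        simp
      have h2 : y 1 • o' ∈ V := by
        rw [h1]
        exact V.sub_mem hXV (V.sum_mem fun k hk => hkV k (Finset.ne_of_mem_erase hk))
      have h3 := V.smul_mem (y 1)⁻¹ h2
      rwa [smul_smul, inv_mul_cancel₀ hy1, one_smul] at h3
  have key := cone_cocycle_pt' v ℓ hℓ X hx
  have e0 : (fun j => v ((0 : Fin (r + 3)).succAbove j)) = Fin.cons o' p := by
    funext j
    simp [hv]
  have e1 : (fun j => v ((Fin.succ 0 : Fin (r + 3)).succAbove j)) = Fin.cons u p := by
    funext j
    refine Fin.cases ?_ (fun j => ?_) j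
    · simp [hv]
    · rw [Fin.succ_succAbove_succ]
      simp [hv]
  have e2 : ∀ k : Fin (r + 1), (fun j => v (k.succ.succ.succAbove j)) =
      Fin.cons u (Fin.cons o' fun j => p (k.succAbove j)) := by
    intro k
    funext j
    refine Fin.cases ?_ (fun j => Fin.cases ?_ (fun j => ?_) j) j
    · simp [hv]
    · rw [Fin.succ_succAbove_succ]
      simp [hv]
    · rw [Fin.succ_succAbove_succ, Fin.succ_succAbove_succ]
      simp [hv]
  rw [Fin.sum_univ_succ, Fin.sum_univ_succ] at key
  have hsgi : ∀ (w : Fin (r + 2) → Fin (r + 2) → ℝ) (c : ℝ), c * sgi w X =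
      c * (SignType.sign (Matrix.of w).det : ℝ) * (if ∃ y ∈ orth (r + 2), X = ∑ j, y j • w j then 1 else 0) := by
    intro w c
    rw [sgi, mul_assoc]
  have k0 := hsgi (fun j => v ((0 : Fin (r + 3)).succAbove j)) ((-1) ^ (((0 : Fin (r + 3)) : ℕ)))
  have k1 := hsgi (fun j => v ((Fin.succ 0 : Fin (r + 3)).succAbove j)) ((-1) ^ (((Fin.succ 0 : Fin (r + 3)) : ℕ)))
  have k2 := fun k : Fin (r + 1) => hsgi (fun j => v (k.succ.succ.succAbove j)) ((-1) ^ ((k.succ.succ : Fin (r + 3)) : ℕ))
  rw [← k0, ← k1, Finset.sum_congr rfl fun k _ => (k2 k).symm, e0, e1] at key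
  simp only [e2] at key
  simp only [Fin.val_zero, pow_zero, Fin.val_succ, zero_add, pow_one] at key
  have h5 : ∀ k : Fin (r + 1), (-1 : ℝ) ^ ((k : ℕ) + 1 + 1) = (-1) ^ (k : ℕ) := by
    intro k
    rw [pow_add, pow_add]
    ring
  simp only [h5] at key
  linarith

/-- General position with respect to a finite family of vectors. -/
def GP {ι : Type*} {r : ℕ} (W : ι → Fin (r + 2) → ℝ) (z : Fin (r + 2) → ℝ) : Prop :=
  ∀ T : Finset ι, T.card ≤ r + 1 → z ∉ Submodule.span ℝ (W '' (T : Set ι))

/-- Moving the apex of the cones, for a cycle. -/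
theorem sum_sgi_eq {r N : ℕ} (K : Cycle r N) (L : Fin N → Fin (r + 2) → ℝ) (u o' : Fin (r + 2) → ℝ)
    (ℓ : (Fin (r + 2) → ℝ) →ₗ[ℝ] ℝ) (hu : 0 < ℓ u) (ho : 0 < ℓ o') (hp : ∀ i, 0 < ℓ (L i))
    (X : Fin (r + 2) → ℝ) (hX1 : ∀ a ∈ K.facets, Off (fun i => L (a i)) X)
    (hX2 : ∀ a ∈ K.facets, ∀ k, Off (Fin.cons u fun j => L (face a k j) : Fin (r + 1) → _) X)
    {ι : Type*} (W : ι → Fin (r + 2) → ℝ) (iX iu : ι) (jL : Fin N → ι) (hWX : W iX = X)
    (hWu : W iu = u) (hWL : ∀ v, W (jL v) = L v) (hgp : GP W o') :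
    ∑ a ∈ K.facets, (K.coeff a : ℝ) * sgi (Fin.cons u fun i => L (a i)) X =
      ∑ a ∈ K.facets, (K.coeff a : ℝ) * sgi (Fin.cons o' fun i => L (a i)) X := by
  classical
  have h1 : ∀ a ∈ K.facets, sgi (Fin.cons u fun i => L (a i)) X =
      sgi (Fin.cons o' fun i => L (a i)) X + ∑ k : Fin (r + 1), (-1 : ℝ) ^ (k : ℕ) *
        sgi (Fin.cons u (Fin.cons o' fun j => L (face a k j)) : Fin (r + 2) → _) X := by
    intro a ha
    have := sgi_cocycle u o' (fun i => L (a i)) ℓ hu ho (fun i => hp _) X (hX1 a ha)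
      (fun k => hX2 a ha k) ?_
    · have h2 : ∀ k, (fun j => L (face a k j)) = fun j => L (a (k.succAbove j)) := fun k => rfl
      simp only [h2]
      linarith
    · intro i j hij hi hj hmem
      set e : Fin (r + 3) → ι := Fin.cons iu (Fin.cons iu fun k => jL (a k)) with he
      refine hgp (insert iX (((((Finset.univ.erase (1 : Fin (r + 3))).erase i).erase j)).image e)) ?_ ?_
      · refine (Finset.card_insert_le _ _).trans ?_
        refine (Nat.add_le_add_right Finset.card_image_le 1).trans ?_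
        rw [Finset.card_erase_of_mem, Finset.card_erase_of_mem, Finset.card_erase_of_mem]
        · simp
        · simp
        · simp [hi]
        · simp [hj, Ne.symm hij]
      · refine Submodule.span_mono ?_ hmem
        intro z hz
        rcases hz with hz | ⟨k, ⟨hk1, hki, hkj⟩, rfl⟩
        · subst hz
          exact ⟨iX, by simp, hWX⟩
        · refine ⟨e k, ?_, ?_⟩
          · simp only [Finset.coe_insert, Finset.coe_image, Set.mem_insert_iff]
            right
            exact ⟨k, by simp [hk1, hki, hkj], rfl⟩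
          · refine Fin.cases (motive := fun k => k ≠ 1 → W (e k) =
              (Fin.cons u (Fin.cons o' fun i => L (a i)) : Fin (r + 3) → Fin (r + 2) → ℝ) k) ?_
              (fun l => Fin.cases (motive := fun l => l.succ ≠ 1 → W (e l.succ) =
              (Fin.cons u (Fin.cons o' fun i => L (a i)) : Fin (r + 3) → Fin (r + 2) → ℝ) l.succ) ?_ (fun k => ?_) l) k hk1
            · intro _
              simp [he, hWu]
            · intro h
              exact absurd rfl h
            · intro _
              simp [he, hWL]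
  rw [Finset.sum_congr rfl fun a ha => by rw [h1 a ha]]
  simp only [mul_add, Finset.sum_add_distrib, Finset.mul_sum]
  have h3 := K.sum_eq_zero (R := ℝ) fun F =>
    sgi (Fin.cons u (Fin.cons o' fun j => L (F j)) : Fin (r + 2) → _) X
  simp only [mul_assoc] at h3
  rw [h3, add_zero]

theorem span_ne_top {ι : Type*} {r : ℕ} (W : ι → Fin (r + 2) → ℝ) (T : Finset ι)
    (hT : T.card ≤ r + 1) : Submodule.span ℝ (W '' (T : Set ι)) ≠ ⊤ := by
  classical
  intro htop
  have h1 : Module.finrank ℝ (Submodule.span ℝ (W '' (T : Set ι))) = r + 2 := by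
    rw [htop, finrank_top]
    simp
  have h2 := finrank_span_finset_le_card (R := ℝ) (T.image W)
  rw [Set.finrank, Finset.coe_image, h1] at h2
  have h3 : (T.image W).card ≤ T.card := Finset.card_image_le
  omega

theorem ae_gp {ι : Type*} [Finite ι] {r : ℕ} (W : ι → Fin (r + 2) → ℝ) :
    ∀ᵐ z : Fin (r + 2) → ℝ, GP W z := by
  have : Fintype ι := Fintype.ofFinite ι
  unfold GP
  rw [ae_all_iff]
  intro T
  by_cases hT : T.card ≤ r + 1
  · simp only [hT, true_imp_iff]
    have := Measure.addHaar_submodule (volume : Measure (Fin (r + 2) → ℝ)) _ (span_ne_top W T hT)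
    rw [ae_iff]
    simpa using this
  · simp [hT]

theorem continuous_lf {d : ℕ} : Continuous fun x : Fin (d + 1) → ℝ => lf x x := by
  unfold lf
  fun_prop

theorem isOpen_FT {d : ℕ} : IsOpen {x : Fin (d + 1) → ℝ | FT x} := by
  have : {x : Fin (d + 1) → ℝ | FT x} = {x | lf x x < 0} ∩ {x | 0 < x 0} := rfl
  rw [this]
  exact (isOpen_lt continuous_lf continuous_const).inter
    (isOpen_lt continuous_const (continuous_apply 0))

theorem exists_gp {ι : Type*} [Finite ι] {r : ℕ} (W : ι → Fin (r + 2) → ℝ) :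
    ∃ z : Fin (r + 2) → ℝ, FT z ∧ GP W z := by
  have h1 : 0 < volume {x : Fin (r + 2) → ℝ | FT x} :=
    isOpen_FT.measure_pos _ ⟨_, FT.single⟩
  have h2 := frequently_ae_mem_iff.mpr h1.ne'
  obtain ⟨z, hz1, hz2⟩ := (h2.and_eventually (ae_gp W)).exists
  exact ⟨z, hz1, hz2⟩

/-- `(0, d)` as a linear map. -/
noncomputable def zlift (n : ℕ) : E n →ₗ[ℝ] (Fin (n + 1) → ℝ) where
  toFun d := Fin.cons 0 fun i => d i
  map_add' x y := by
    funext i
    refine Fin.cases ?_ (fun i => ?_) i <;> simp
  map_smul' c x := by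
    funext i
    refine Fin.cases ?_ (fun i => ?_) i <;> simp

theorem zlift_apply {n : ℕ} (d : E n) : zlift n d = Fin.cons 0 fun i => d i := rfl

theorem lift_add {n : ℕ} (x d : E n) : lift (x + d) = lift x + zlift n d := by
  funext i
  refine Fin.cases ?_ (fun i => ?_) i <;> simp [lift, zlift]

theorem lift_zero_coord {n : ℕ} (x : E n) : lift x 0 = 1 := rfl

theorem lift_succ {n : ℕ} (x : E n) (i : Fin n) : lift x i.succ = x i := rfl

theorem lift_sub {n : ℕ} (x y : E n) : lift x - lift y = zlift n (x - y) := by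
  have := lift_add y (x - y)
  rw [add_sub_cancel] at this
  rw [this]; simp

theorem ae_lift_gp {ι : Type*} [Finite ι] {r : ℕ} (W : ι → Fin (r + 2) → ℝ) :
    ∀ᵐ x : E (r + 1), GP W (lift x) := by
  have : Fintype ι := Fintype.ofFinite ι
  unfold GP
  rw [ae_all_iff]
  intro T
  by_cases hT : T.card ≤ r + 1
  · simp only [hT, true_imp_iff]
    set V := Submodule.span ℝ (W '' (T : Set ι)) with hV
    have hVt : V ≠ ⊤ := span_ne_top W T hT
    -- the affine subspace of points whose lift is in V
    let A : AffineSubspace ℝ (E (r + 1)) :=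
      { carrier := {x | lift x ∈ V}
        smul_vsub_vadd_mem' := by
          intro c p q s hp hq hs
          simp only [Set.mem_ofPred_eq] at hp hq hs ⊢
          have h1 : lift (c • (p -ᵥ q) +ᵥ s) = lift s + c • (lift p - lift q) := by
            rw [lift_sub, ← map_smul, ← lift_add]
            congr 1
            simp [add_comm]
          rw [h1]
          exact V.add_mem hs (V.smul_mem _ (V.sub_mem hp hq)) }
    have hA : A ≠ ⊤ := by
      intro htop
      apply hVt
      have hall : ∀ x : E (r + 1), lift x ∈ V := by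
        intro x
        have : x ∈ A := by rw [htop]; exact AffineSubspace.mem_top ℝ _ _
        exact this
      rw [eq_top_iff]
      intro z _
      have hz : z = z 0 • lift (0 : E (r + 1)) + (lift (WithLp.toLp 2 fun i => z i.succ) - lift (0 : E (r + 1))) := by
        funext i
        refine Fin.cases ?_ (fun i => ?_) i
        · simp [lift]
        · simp [lift]
      rw [hz]
      exact V.add_mem (V.smul_mem _ (hall _)) (V.sub_mem (hall _) (hall _))
    have := Measure.addHaar_affineSubspace (volume : Measure (E (r + 1))) A hA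
    rw [ae_iff]
    have h2 : {a : E (r + 1) | ¬ lift a ∉ V} = (A : Set (E (r + 1))) := by
      ext x
      simp only [not_not]
      rfl
    rw [h2]
    exact this
  · simp [hT]

/-- Existence of a direction `d ≠ 0` with `(0,d)` outside given subspaces. -/
theorem exists_dir {ι : Type*} [Finite ι] {r : ℕ} (W : ι → Fin (r + 2) → ℝ) (i₀ : ι) (h₀ : W i₀ 0 = 1) :
    ∃ d : E (r + 1), d ≠ 0 ∧ ∀ T : Finset ι, i₀ ∈ T → T.card ≤ r + 1 →
      zlift (r + 1) d ∉ Submodule.span ℝ (W '' (T : Set ι)) := by
  have : Fintype ι := Fintype.ofFinite ι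
  have h1 : ∀ᵐ d : E (r + 1), ∀ T : Finset ι, i₀ ∈ T → T.card ≤ r + 1 →
      zlift (r + 1) d ∉ Submodule.span ℝ (W '' (T : Set ι)) := by
    rw [ae_all_iff]
    intro T
    by_cases hT0 : i₀ ∈ T
    · by_cases hT : T.card ≤ r + 1
      · simp only [hT0, hT, true_imp_iff]
        set V := Submodule.span ℝ (W '' (T : Set ι)) with hV
        have hVt : V ≠ ⊤ := span_ne_top W T hT
        have hU : V.comap (zlift (r + 1)) ≠ ⊤ := by
          intro htop
          apply hVt
          have hall : ∀ d : E (r + 1), zlift (r + 1) d ∈ V := by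
            intro d
            have : d ∈ V.comap (zlift (r + 1)) := by rw [htop]; exact Submodule.mem_top
            exact this
          have h0V : W i₀ ∈ V := Submodule.subset_span ⟨i₀, hT0, rfl⟩
          rw [eq_top_iff]
          intro z _
          have hz : z = z 0 • W i₀ + zlift (r + 1) (WithLp.toLp 2 fun i => z i.succ - z 0 * W i₀ i.succ) := by
            funext i
            refine Fin.cases ?_ (fun i => ?_) i
            · simp [zlift, h₀]
            · simp [zlift]
          rw [hz]
          exact V.add_mem (V.smul_mem _ h0V) (hall _)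
        have := Measure.addHaar_submodule (volume : Measure (E (r + 1))) _ hU
        rw [ae_iff]
        simp only [not_not]
        exact this
      · simp [hT]
    · simp [hT0]
  have h2 : ∀ᵐ d : E (r + 1), d ≠ 0 := by
    rw [ae_iff]
    simp
  exact (h2.and h1).exists

theorem meets_iff {r : ℕ} (x d : E (r + 1)) (p : Fin (r + 1) → E (r + 1)) :
    Meets x d p ↔ ∃ y ∈ orth (r + 2), lift x = ∑ j, y j •
      (Fin.cons (-(zlift (r + 1) d)) fun i => lift (p i) : Fin (r + 2) → Fin (r + 2) → ℝ) j := by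
  constructor
  · rintro ⟨s, hs, y, hy, hy1, hx⟩
    refine ⟨Fin.cons s y, ?_, ?_⟩
    · intro i
      refine Fin.cases ?_ (fun i => ?_) i
      · simpa using hs
      · simpa using hy i
    · rw [Fin.sum_univ_succ]
      simp only [Fin.cons_zero, Fin.cons_succ]
      funext k
      refine Fin.cases ?_ (fun k => ?_) k
      · simp only [Pi.add_apply, Pi.smul_apply, Pi.neg_apply, Finset.sum_apply, lift_zero_coord, smul_eq_mul, mul_one,
          zlift_apply, Fin.cons_zero, hy1]
        simp
      · have h1 := congrArg (fun z : E (r + 1) => z k) hx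
        simp only [PiLp.add_apply, PiLp.smul_apply, smul_eq_mul] at h1
        simp only [Pi.add_apply, Pi.smul_apply, Pi.neg_apply, Finset.sum_apply, lift_succ, smul_eq_mul,
          zlift_apply, Fin.cons_succ]
        have h2 : (∑ i, y i • p i : E (r + 1)) k = ∑ i, y i * p i k := by
          simp
        rw [h2] at h1
        linarith
  · rintro ⟨y, hy, hx⟩
    rw [Fin.sum_univ_succ] at hx
    simp only [Fin.cons_zero, Fin.cons_succ] at hx
    refine ⟨y 0, hy 0, fun i => y i.succ, fun i => hy _, ?_, ?_⟩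
    · have h1 := congrFun hx 0
      simp only [Pi.add_apply, Pi.smul_apply, Pi.neg_apply, Finset.sum_apply, lift_zero_coord, smul_eq_mul, mul_one,
          zlift_apply, Fin.cons_zero] at h1
      linarith
    · ext k
      have h1 := congrFun hx k.succ
      simp only [Pi.add_apply, Pi.smul_apply, Pi.neg_apply, Finset.sum_apply, lift_succ, smul_eq_mul,
          zlift_apply, Fin.cons_succ] at h1
      have h2 : (∑ i, y i.succ • p i : E (r + 1)) k = ∑ i, y i.succ * p i k := by
        simp
      rw [h2]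
      simp only [PiLp.add_apply, PiLp.smul_apply, smul_eq_mul]
      linarith

theorem det_cone {r : ℕ} (d : E (r + 1)) (p : Fin (r + 1) → E (r + 1)) :
    (Matrix.of (Fin.cons (-(zlift (r + 1) d)) fun i => lift (p i) :
      Fin (r + 2) → Fin (r + 2) → ℝ)).det =
    (Matrix.of (Fin.cons (fun k => d k)
      (fun i : Fin r => fun k => p i.succ k - p 0 k) : Fin (r + 1) → Fin (r + 1) → ℝ)).det := by
  set B : Fin (r + 2) → Fin (r + 2) → ℝ := Fin.cons (-(zlift (r + 1) d))
    (Fin.cons (lift (p 0)) fun i : Fin r => zlift (r + 1) (p i.succ - p 0)) with hB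
  have h1 : (Matrix.of (Fin.cons (-(zlift (r + 1) d)) fun i => lift (p i) :
      Fin (r + 2) → Fin (r + 2) → ℝ)).det = (Matrix.of B).det := by
    apply Matrix.det_eq_of_forall_row_eq_smul_add_const
      (Fin.cons 0 (Fin.cons 0 fun _ => 1) : Fin (r + 2) → ℝ) (Fin.succ 0)
    · simp
    · intro i j
      refine Fin.cases ?_ (fun i => Fin.cases ?_ (fun i => ?_) i) i
      · simp [hB]
      · simp [hB]
      · simp only [hB, Matrix.of_apply, Fin.cons_succ, Fin.cons_zero, one_mul]
        rw [← lift_sub]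
        simp
  rw [h1, Matrix.det_succ_column_zero, Fin.sum_univ_succ, Fin.sum_univ_succ]
  have h2 : ∀ i : Fin r, (Matrix.of B) i.succ.succ 0 = 0 := by
    intro i
    simp [hB, zlift_apply]
  have h3 : (Matrix.of B) 0 0 = 0 := by
    simp [hB, zlift_apply]
  have h4 : (Matrix.of B) (Fin.succ 0) 0 = 1 := by
    simp [hB, lift_zero_coord]
  rw [h3, h4]
  simp only [h2]
  simp only [Fin.val_zero, pow_zero, mul_zero, zero_mul, Finset.sum_const_zero, add_zero, zero_add,
    Fin.val_succ, pow_one, mul_one]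
  set C : Matrix (Fin (r + 1)) (Fin (r + 1)) ℝ := Matrix.of (Fin.cons (fun k => d k)
      (fun i : Fin r => fun k => p i.succ k - p 0 k) : Fin (r + 1) → Fin (r + 1) → ℝ) with hC
  have h5 : (Matrix.of B).submatrix (Fin.succ 0 : Fin (r + 2)).succAbove Fin.succ =
      C.updateRow 0 ((-1 : ℝ) • C 0) := by
    ext i j
    refine Fin.cases ?_ (fun i => ?_) i
    · simp [hB, hC, zlift_apply]
    · rw [Matrix.submatrix_apply, Fin.succ_succAbove_succ]
      rw [Matrix.updateRow_ne (Fin.succ_ne_zero i)]
      simp [hB, hC, zlift_apply]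
  rw [h5, Matrix.det_updateRow_smul, Matrix.updateRow_eq_self]
  ring

open Classical in
theorem index_eq_sgi {r : ℕ} (x d : E (r + 1)) (p : Fin (r + 1) → E (r + 1)) :
    (index x d p : ℝ) = sgi (Fin.cons (-(zlift (r + 1) d)) fun i => lift (p i)) (lift x) := by
  unfold index sgi
  rw [det_cone]
  by_cases h : Meets x d p
  · rw [if_pos h, if_pos ((meets_iff x d p).mp h)]
    simp
  · rw [if_neg h, if_neg (fun h' => h ((meets_iff x d p).mpr h'))]
    simp

theorem fc_lift {n : ℕ} {p : E n} (hp : ‖p‖ ≤ 1) : FC (lift p) := by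
  refine ⟨?_, by simp [lift_zero_coord]⟩
  unfold lf
  simp only [lift_zero_coord, lift_succ]
  have h1 : ‖p‖ ^ 2 = ∑ i, p i * p i := by
    rw [EuclideanSpace.norm_sq_eq]
    exact Finset.sum_congr rfl fun i _ => by rw [Real.norm_eq_abs, sq_abs, sq]
  rw [← h1]
  nlinarith [norm_nonneg p]

/-- `X` off the closed cone when it is off the span. -/
theorem off_of_not_mem_span {k n : ℕ} (w : Fin k → Fin n → ℝ) (X : Fin n → ℝ) (V : Submodule ℝ (Fin n → ℝ))
    (hw : ∀ i, w i ∈ V) (hX : X ∉ V) : Off w X := by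
  intro y _ h
  apply hX
  rw [← h]
  exact V.sum_mem fun i _ => V.smul_mem _ (hw i)

/-- The intersection number is almost everywhere a signed sum of indicators of cones. -/
theorem lam_eq {r N : ℕ} (K : Cycle r N) (P : Fin N → E (r + 1)) (hP : ∀ v, ‖P v‖ ≤ 1)
    (o : Fin (r + 2) → ℝ) (ho : FT o) :
    ∀ᵐ x : E (r + 1), (lam K P x : ℝ) =
      ∑ a ∈ K.facets, (K.coeff a : ℝ) * sgi (Fin.cons o fun i => lift (P (a i))) (lift x) := by
  classical
  filter_upwards [ae_lift_gp (Option.elim · o fun v => lift (P v) : Option (Fin N) → Fin (r + 2) → ℝ)] with x hx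
  set X := lift x with hX
  -- `X` is not in the span of a facet
  have hf : ∀ a : Fin (r + 1) ↪o Fin N, X ∉ Submodule.span ℝ (Set.range fun i => lift (P (a i))) := by
    intro a hmem
    refine hx (Finset.univ.image fun i => some (a i)) ?_ ?_
    · exact Finset.card_image_le.trans (by simp)
    · refine Submodule.span_mono ?_ hmem
      rintro _ ⟨i, rfl⟩
      exact ⟨some (a i), by simp, rfl⟩
  have hfo : ∀ F : Fin r ↪o Fin N, X ∉ Submodule.span ℝ (insert o (Set.range fun i => lift (P (F i)))) := by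
    intro F hmem
    refine hx (insert none (Finset.univ.image fun i => some (F i))) ?_ ?_
    · refine (Finset.card_insert_le _ _).trans ?_
      exact Nat.add_le_add_right (Finset.card_image_le.trans (by simp)) 1
    · refine Submodule.span_mono ?_ hmem
      rintro _ (rfl | ⟨i, rfl⟩)
      · exact ⟨none, by simp, rfl⟩
      · exact ⟨some (F i), by simp, rfl⟩
  -- existence of a generic direction
  have hex : ∃ d, Generic K P x d := by
    obtain ⟨d, hd0, hd⟩ := exists_dir (Option.elim · X fun v => lift (P v) : Option (Fin N) → Fin (r + 2) → ℝ)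
      none rfl
    refine ⟨d, hd0, ?_⟩
    intro a _ k s hs hmem
    set V := Submodule.span ℝ (Set.range fun i => lift (P (face a k i))) with hV
    have hconv : Convex ℝ {z : E (r + 1) | lift z ∈ V} := by
      intro z₁ h₁ z₂ h₂ a b ha hb hab
      have : lift (a • z₁ + b • z₂) = a • lift z₁ + b • lift z₂ := by
        funext i
        refine Fin.cases ?_ (fun i => ?_) i
        · simp [lift_zero_coord, hab]
        · simp [lift_succ]
      change lift (a • z₁ + b • z₂) ∈ V
      rw [this]
      exact V.add_mem (V.smul_mem _ h₁) (V.smul_mem _ h₂)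
    have h1 : lift (x + s • d) ∈ V := by
      refine (convexHull_min ?_ hconv) hmem
      rintro _ ⟨i, rfl⟩
      exact Submodule.subset_span ⟨i, rfl⟩
    rw [lift_add, map_smul] at h1
    rcases hs.eq_or_lt with hs | hs
    · rw [← hs, zero_smul, add_zero] at h1
      refine hf a (Submodule.span_mono ?_ h1)
      rintro _ ⟨i, rfl⟩
      exact ⟨_, rfl⟩
    · refine hd (insert none (Finset.univ.image fun i => some (face a k i))) (by simp) ?_ ?_
      · refine (Finset.card_insert_le _ _).trans ?_
        exact Nat.add_le_add_right (Finset.card_image_le.trans (by simp)) 1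
      · set U := Submodule.span ℝ ((Option.elim · X fun v => lift (P v) : Option (Fin N) → Fin (r + 2) → ℝ) ''
          ((insert none (Finset.univ.image fun i => some (face a k i)) : Finset (Option (Fin N))) : Set (Option (Fin N)))) with hU
        have hVU : V ≤ U := by
          refine Submodule.span_mono ?_
          rintro _ ⟨i, rfl⟩
          exact ⟨some (face a k i), by simp, rfl⟩
        have hXU : X ∈ U := Submodule.subset_span ⟨none, by simp, rfl⟩
        have h2 : s • zlift (r + 1) d ∈ U := by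
          have := U.sub_mem (hVU h1) hXU
          rwa [← hX, add_sub_cancel_left] at this
        have h3 := U.smul_mem s⁻¹ h2
        rwa [smul_smul, inv_mul_cancel₀ hs.ne', one_smul] at h3
  unfold lam
  rw [dif_pos hex]
  set d := hex.choose with hd
  have hgen : Generic K P x d := hex.choose_spec
  -- choose an auxiliary apex
  set W : Option (Option (Option (Fin N))) → Fin (r + 2) → ℝ := fun i => i.elim X fun i =>
    i.elim (-(zlift (r + 1) d)) fun i => i.elim o fun v => lift (P v) with hW
  obtain ⟨o', ho', hgp⟩ := exists_gp W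
  have hlift : ∀ v, FC (lift (P v)) := fun v => fc_lift (hP v)
  -- a functional which is positive on `-D`
  set q : Fin (r + 2) → ℝ := Fin.cons (‖d‖ + 1) fun i => d i with hq
  have hdd : ∑ i, d i * d i = ‖d‖ ^ 2 := by
    rw [EuclideanSpace.norm_sq_eq]
    exact Finset.sum_congr rfl fun i _ => by rw [Real.norm_eq_abs, sq_abs, sq]
  have hqFT : FT q := by
    refine ⟨?_, ?_⟩
    · unfold lf
      simp only [hq, Fin.cons_zero, Fin.cons_succ, hdd]
      nlinarith [norm_nonneg d]
    · simp only [hq, Fin.cons_zero]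
      positivity
  have hqd : 0 < posFun q (-(zlift (r + 1) d)) := by
    have h1 : lf q (-(zlift (r + 1) d)) = - ‖d‖ ^ 2 := by
      rw [lf_neg_right]
      unfold lf
      simp only [hq, zlift_apply, Fin.cons_zero, Fin.cons_succ, hdd]
      ring
    change 0 < - lf q (-(zlift (r + 1) d))
    rw [h1, neg_neg]
    exact pow_pos (norm_pos_iff.mpr hgen.1) 2
  have hoff : ∀ a ∈ K.facets, Off (fun i => lift (P (a i))) X := fun a _ =>
    off_of_not_mem_span _ _ _ (fun i => Submodule.subset_span (Set.mem_range_self i)) (hf a)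
  have hoffd : ∀ a ∈ K.facets, ∀ k, Off (Fin.cons (-(zlift (r + 1) d)) fun j => lift (P (face a k j)) :
      Fin (r + 1) → _) X := by
    intro a ha k y hy hsum
    refine hgen.2 a ha k (y 0) (hy 0) ?_
    rw [Fin.sum_univ_succ] at hsum
    simp only [Fin.cons_zero, Fin.cons_succ] at hsum
    have h1 : ∑ i : Fin r, y i.succ = 1 := by
      have h1 := congrFun hsum 0
      simp only [hX, Pi.add_apply, Pi.smul_apply, Pi.neg_apply, Finset.sum_apply, lift_zero_coord, smul_eq_mul, mul_one,
          zlift_apply, Fin.cons_zero] at h1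
      linarith
    have h2 : x + y 0 • d = ∑ i : Fin r, y i.succ • P (face a k i) := by
      ext l
      have h1 := congrFun hsum l.succ
      simp only [hX, Pi.add_apply, Pi.smul_apply, Pi.neg_apply, Finset.sum_apply, lift_succ, smul_eq_mul,
          zlift_apply, Fin.cons_succ] at h1
      have h2 : (∑ i, y i.succ • P (face a k i) : E (r + 1)) l = ∑ i, y i.succ * P (face a k i) l := by
        simp
      rw [h2]
      simp only [PiLp.add_apply, PiLp.smul_apply, smul_eq_mul]
      linarith
    rw [h2]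
    exact (convex_convexHull ℝ _).sum_mem (fun i _ => hy _) h1 fun i _ =>
      subset_convexHull ℝ _ (Set.mem_range_self (f := fun j => P (face a k j)) i)
  have hoffo : ∀ a ∈ K.facets, ∀ k, Off (Fin.cons o fun j => lift (P (face a k j)) :
      Fin (r + 1) → _) X := by
    intro a ha k
    refine off_of_not_mem_span _ _ _ (fun i => ?_) (hfo (face a k))
    refine Fin.cases ?_ (fun i => ?_) i
    · exact Submodule.subset_span (Set.mem_insert _ _)
    · exact Submodule.subset_span (Set.mem_insert_of_mem _ ⟨i, rfl⟩)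
  have e1 := sum_sgi_eq K (fun v => lift (P v)) (-(zlift (r + 1) d)) o' (posFun q) hqd
    (posFun_pos hqFT ho'.fc) (fun v => posFun_pos hqFT (hlift v)) X hoff hoffd W none (some none)
    (fun v => some (some (some v))) rfl rfl (fun v => rfl) hgp
  have e2 := sum_sgi_eq K (fun v => lift (P v)) o o' (posFun o) (posFun_pos ho ho.fc)
    (posFun_pos ho ho'.fc) (fun v => posFun_pos ho (hlift v)) X hoff hoffo W none (some (some none))
    (fun v => some (some (some v))) rfl rfl (fun v => rfl) hgp
  rw [e2, ← e1]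
  push_cast
  refine Finset.sum_congr rfl fun a _ => ?_
  rw [index_eq_sgi]

end Bellows
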