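import Pool.Agent.Bellows.M7a

/-!
# Bellows, M7, second part: integration along rays
-/

open MeasureTheory
open scoped ENNReal

namespace Bellows

theorem lintegral_scale {n : ℕ} (F : (Fin n → ℝ) → ℝ≥0∞) (hF : Measurable F) {s : ℝ} (hs : 0 < s) :
    ∫⁻ y, F y = ∫⁻ y, ENNReal.ofReal (s ^ n) * F (s • y) := by
  have hm : Measurable fun y : Fin n → ℝ => F (s • y) := hF.comp (measurable_const_smul s)
  rw [lintegral_const_mul _ hm]
  have h1 : ∫⁻ y, F (s • y) = ∫⁻ y, F y ∂(Measure.map (s • ·) (volume : Measure (Fin n → ℝ))) := by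
    rw [lintegral_map hF (measurable_const_smul s)]
  rw [h1, Measure.map_addHaar_smul _ hs.ne', lintegral_smul_measure, smul_eq_mul, ← mul_assoc,
    ← ENNReal.ofReal_mul (by positivity)]
  have h2 : s ^ n * |(s ^ Module.finrank ℝ (Fin n → ℝ))⁻¹| = 1 := by
    rw [abs_of_pos (by positivity)]
    simp only [Module.finrank_fintype_fun_eq_card, Fintype.card_fin]
    exact mul_inv_cancel₀ (by positivity)
  rw [h2]
  simp

theorem measurable_cons {n : ℕ} :
    Measurable fun p : ℝ × (Fin n → ℝ) => (Fin.cons p.1 p.2 : Fin (n + 1) → ℝ) := by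
  rw [measurable_pi_iff]
  intro i
  refine Fin.cases ?_ (fun i => ?_) i
  · simpa using measurable_fst
  · simp only [Fin.cons_succ]
    exact (measurable_pi_apply i).comp measurable_snd

theorem lintegral_polar {n : ℕ} (F : (Fin (n + 1) → ℝ) → ℝ≥0∞) (hF : Measurable F)
    (h0 : ∀ z, z 0 ≤ 0 → F z = 0) :
    ∫⁻ z, F z = ∫⁻ x : E n, ∫⁻ s in Set.Ioi (0 : ℝ), ENNReal.ofReal (s ^ n) * F (s • lift x) := by
  have h1 : ∫⁻ z, F z = ∫⁻ p : ℝ × (Fin n → ℝ), F (Fin.cons p.1 p.2) := by
    have := ((volume_preserving_piFinSuccAbove (fun _ : Fin (n + 1) => ℝ) 0).symm).lintegral_comp hF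
    rw [← this]
    refine lintegral_congr fun p => ?_
    simp [MeasurableEquiv.piFinSuccAbove_symm_apply, Fin.insertNthEquiv]
  have hm : Measurable fun p : ℝ × (Fin n → ℝ) => F (Fin.cons p.1 p.2) := hF.comp measurable_cons
  rw [h1, Measure.volume_eq_prod, lintegral_prod _ hm.aemeasurable]
  have h2 : ∫⁻ s : ℝ, ∫⁻ y : Fin n → ℝ, F (Fin.cons s y) =
      ∫⁻ s in Set.Ioi (0 : ℝ), ∫⁻ y : Fin n → ℝ, F (Fin.cons s y) := by
    rw [← lintegral_indicator measurableSet_Ioi]
    refine lintegral_congr fun s => ?_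
    rw [Set.indicator_apply]
    split_ifs with hs
    · rfl
    · rw [Set.mem_Ioi, not_lt] at hs
      have : ∀ y : Fin n → ℝ, F (Fin.cons s y) = 0 := fun y => h0 _ (by simpa using hs)
      simp [this]
  simp only at h2 ⊢
  rw [h2]
  have h3 : ∫⁻ s in Set.Ioi (0 : ℝ), ∫⁻ y : Fin n → ℝ, F (Fin.cons s y) =
      ∫⁻ s in Set.Ioi (0 : ℝ), ∫⁻ y : Fin n → ℝ, ENNReal.ofReal (s ^ n) * F (s • (Fin.cons 1 y)) := by
    refine setLIntegral_congr_fun measurableSet_Ioi fun s hs => ?_
    rw [lintegral_scale (fun y => F (Fin.cons s y)) (hm.comp measurable_prodMk_left) hs]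
    refine lintegral_congr fun y => ?_
    congr 2
    funext i
    refine Fin.cases ?_ (fun i => ?_) i <;> simp
  have hm2 : Measurable fun p : ℝ × (Fin n → ℝ) =>
      ENNReal.ofReal (p.1 ^ n) * F (p.1 • (Fin.cons 1 p.2 : Fin (n + 1) → ℝ)) := by
    refine Measurable.mul (by fun_prop) (hF.comp ?_)
    refine Measurable.smul measurable_fst ?_
    exact measurable_cons.comp (measurable_const.prodMk measurable_snd)
  rw [h3, lintegral_lintegral_swap hm2.aemeasurable]
  have hm3 : Measurable fun y : Fin n → ℝ => ∫⁻ s in Set.Ioi (0 : ℝ),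
      ENNReal.ofReal (s ^ n) * F (s • (Fin.cons 1 y)) := by
    exact Measurable.lintegral_prod_left hm2
  rw [← (PiLp.volume_preserving_ofLp (Fin n)).lintegral_comp hm3]
  rfl

/-- The constant `∫₀^∞ s^{n} exp(-s²/2) ds`, `n = r + 1`. -/
noncomputable def Cn (r : ℕ) : ℝ := ∫ s in Set.Ioi (0 : ℝ), s ^ (r + 1) * Real.exp (-(1 / 2) * s ^ 2)

theorem integrableOn_Cn (k : ℕ) {a : ℝ} (ha : 0 < a) :
    IntegrableOn (fun s : ℝ => s ^ k * Real.exp (-a * s ^ 2)) (Set.Ioi 0) := by
  have h := integrableOn_rpow_mul_exp_neg_mul_sq ha (s := (k : ℝ)) (by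
    have : (0 : ℝ) ≤ k := Nat.cast_nonneg k
    linarith)
  refine h.congr_fun (fun s _ => ?_) measurableSet_Ioi
  simp [Real.rpow_natCast]

theorem Cn_pos (r : ℕ) : 0 < Cn r := by
  unfold Cn
  rw [setIntegral_pos_iff_support_of_nonneg_ae]
  · have h1 : (Function.support fun s : ℝ => s ^ (r + 1) * Real.exp (-(1 / 2) * s ^ 2)) ∩ Set.Ioi 0 =
        Set.Ioi 0 := by
      rw [Set.inter_eq_right]
      intro s hs
      rw [Set.mem_Ioi] at hs
      rw [Function.mem_support]
      positivity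
    rw [h1]
    simp
  · filter_upwards [ae_restrict_mem measurableSet_Ioi] with s hs
    rw [Set.mem_Ioi] at hs
    simp only [Pi.zero_apply]
    positivity
  · exact integrableOn_Cn (r + 1) (by norm_num)

theorem ray_integral (r : ℕ) {a : ℝ} (ha : 0 < a) :
    ∫ s in Set.Ioi (0 : ℝ), s ^ (r + 1) * Real.exp ((1 / 2) * (s ^ 2 * (-a))) =
      Cn r * a ^ (-((r : ℝ) + 2) / 2) := by
  have h1 := integral_comp_mul_left_Ioi (fun s : ℝ => s ^ (r + 1) * Real.exp (-(1 / 2) * s ^ 2)) 0
    (b := Real.sqrt a) (Real.sqrt_pos.mpr ha)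
  rw [mul_zero, smul_eq_mul] at h1
  have h2 : ∀ s : ℝ, (Real.sqrt a * s) ^ (r + 1) * Real.exp (-(1 / 2) * (Real.sqrt a * s) ^ 2) =
      Real.sqrt a ^ (r + 1) * (s ^ (r + 1) * Real.exp ((1 / 2) * (s ^ 2 * (-a)))) := by
    intro s
    rw [mul_pow, mul_pow, Real.sq_sqrt ha.le, mul_assoc]
    congr 3
    ring
  simp only [h2] at h1
  rw [integral_const_mul] at h1
  change _ = _ * Cn r at h1
  have h3 : 0 < Real.sqrt a := Real.sqrt_pos.mpr ha
  have h4 : a ^ (-((r : ℝ) + 2) / 2) = (Real.sqrt a ^ (r + 2))⁻¹ := by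
    rw [Real.sqrt_eq_rpow, ← Real.rpow_natCast, ← Real.rpow_mul ha.le, ← Real.rpow_neg ha.le]
    congr 1
    push_cast
    ring
  rw [h4]
  set I := ∫ s in Set.Ioi (0 : ℝ), s ^ (r + 1) * Real.exp ((1 / 2) * (s ^ 2 * (-a))) with hI
  rw [eq_comm, mul_inv_eq_iff_eq_mul₀ (by positivity)]
  have h5 : Cn r = Real.sqrt a * (Real.sqrt a ^ (r + 1) * I) := by
    rw [h1, ← mul_assoc, mul_inv_cancel₀ h3.ne', one_mul]
  rw [h5, pow_succ (Real.sqrt a) (r + 1)]
  ring

theorem cone_ft {r : ℕ} (w : Fin (r + 2) → Fin (r + 2) → ℝ) (h0 : FT (w 0)) (hw : ∀ i, FC (w i))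
    {z : Fin (r + 2) → ℝ} (hz : z ∈ cone w) : FT z := by
  rw [mem_cone] at hz
  obtain ⟨y, hy, rfl⟩ := hz
  rw [Fin.sum_univ_succ, add_comm (y 0 • w 0)]
  refine FC.add_ft ?_ (h0.smul (hy 0))
  refine FC.sum ⟨0, Finset.mem_univ _⟩ fun i _ => (hw _).smul (hy _)

theorem smul_mem_cone {n : ℕ} (w : Fin n → Fin n → ℝ) {s : ℝ} (hs : 0 < s) (z : Fin n → ℝ) :
    s • z ∈ cone w ↔ z ∈ cone w := by
  have key : ∀ (s : ℝ) (z : Fin n → ℝ), 0 < s → z ∈ cone w → s • z ∈ cone w := by
    intro s z hs hz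
    rw [mem_cone] at hz ⊢
    obtain ⟨y, hy, rfl⟩ := hz
    refine ⟨s • y, fun i => mul_pos hs (hy i), ?_⟩
    rw [Finset.smul_sum]
    refine Finset.sum_congr rfl fun i _ => ?_
    rw [smul_smul]
    rfl
  refine ⟨fun h => ?_, key s z hs⟩
  have := key s⁻¹ _ (inv_pos.mpr hs) h
  rwa [smul_smul, inv_mul_cancel₀ hs.ne', one_smul] at this

theorem lf_lift {n : ℕ} (x : E n) : lf (lift x) (lift x) = -(1 - ‖x‖ ^ 2) := by
  unfold lf
  simp only [lift_zero_coord, lift_succ]
  have h1 : ‖x‖ ^ 2 = ∑ i, x i * x i := by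
    rw [EuclideanSpace.norm_sq_eq]
    exact Finset.sum_congr rfl fun i _ => by rw [Real.norm_eq_abs, sq_abs, sq]
  rw [← h1]
  ring

open Classical in
/-- the hyperbolic density on the simplex cut out by the cone. -/
noncomputable def hd {r : ℕ} (w : Fin (r + 2) → Fin (r + 2) → ℝ) (x : E (r + 1)) : ℝ :=
  if lift x ∈ cone w then (1 - ‖x‖ ^ 2) ^ (-((r : ℝ) + 2) / 2) else 0

theorem measurable_lift {n : ℕ} : Measurable (lift : E n → Fin (n + 1) → ℝ) := by
  rw [measurable_pi_iff]
  intro i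
  refine Fin.cases ?_ (fun i => ?_) i
  · simp only [lift_zero_coord]
    exact measurable_const
  · simp only [lift_succ]
    fun_prop

theorem measurable_hd {r : ℕ} (w : Fin (r + 2) → Fin (r + 2) → ℝ) (hw : (Matrix.of w).det ≠ 0) :
    Measurable (hd w) := by
  unfold hd
  refine Measurable.ite (measurable_lift (measurableSet_cone w hw)) ?_ measurable_const
  fun_prop

theorem hd_nonneg {r : ℕ} (w : Fin (r + 2) → Fin (r + 2) → ℝ) (h0 : FT (w 0)) (hwF : ∀ i, FC (w i))
    (x : E (r + 1)) : 0 ≤ hd w x := by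
  unfold hd
  split_ifs with h
  · have := (cone_ft w h0 hwF h).1
    rw [lf_lift] at this
    exact Real.rpow_nonneg (by linarith) _
  · exact le_rfl

theorem lintegral_cone_eq {r : ℕ} (w : Fin (r + 2) → Fin (r + 2) → ℝ) (hw : (Matrix.of w).det ≠ 0)
    (h0 : FT (w 0)) (hwF : ∀ i, FC (w i)) :
    ∫⁻ z in cone w, ENNReal.ofReal (Real.exp ((1 / 2) * lf z z)) =
      ∫⁻ x : E (r + 1), ENNReal.ofReal (Cn r * hd w x) := by
  classical
  have hmc := measurableSet_cone w hw
  have hme : Measurable fun z : Fin (r + 2) → ℝ => ENNReal.ofReal (Real.exp ((1 / 2) * lf z z)) := by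
    have := (continuous_lf (d := r + 1)).measurable
    fun_prop
  rw [← lintegral_indicator hmc, lintegral_polar _ (hme.indicator hmc)]
  · refine lintegral_congr fun x => ?_
    by_cases hx : lift x ∈ cone w
    · have ha : 0 < 1 - ‖x‖ ^ 2 := by
        have := (cone_ft w h0 hwF hx).1
        rw [lf_lift] at this
        linarith
      have h1 : ∀ s ∈ Set.Ioi (0 : ℝ), ENNReal.ofReal (s ^ (r + 1)) *
          (cone w).indicator (fun z => ENNReal.ofReal (Real.exp ((1 / 2) * lf z z))) (s • lift x) =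
          ENNReal.ofReal (s ^ (r + 1) * Real.exp ((1 / 2) * (s ^ 2 * (-(1 - ‖x‖ ^ 2))))) := by
        intro s hs
        rw [Set.mem_Ioi] at hs
        rw [Set.indicator_of_mem ((smul_mem_cone w hs _).mpr hx), ← ENNReal.ofReal_mul (by positivity)]
        rw [lf_smul_left, lf_smul_right, lf_lift]
        congr 4
        ring
      rw [setLIntegral_congr_fun measurableSet_Ioi h1, ← ofReal_integral_eq_lintegral_ofReal]
      · rw [ray_integral r ha]
        simp [hd, hx]
      · have := integrableOn_Cn (r + 1) (a := (1 - ‖x‖ ^ 2) / 2) (by positivity)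
        refine this.congr_fun (fun s _ => ?_) measurableSet_Ioi
        simp only
        congr 2
        ring
      · filter_upwards [ae_restrict_mem measurableSet_Ioi] with s hs
        rw [Set.mem_Ioi] at hs
        simp only [Pi.zero_apply]
        positivity
    · have h1 : ∀ s ∈ Set.Ioi (0 : ℝ), ENNReal.ofReal (s ^ (r + 1)) *
          (cone w).indicator (fun z => ENNReal.ofReal (Real.exp ((1 / 2) * lf z z))) (s • lift x) = 0 := by
        intro s hs
        rw [Set.mem_Ioi] at hs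
        rw [Set.indicator_of_notMem (fun h => hx ((smul_mem_cone w hs _).mp h)), mul_zero]
      rw [setLIntegral_congr_fun measurableSet_Ioi h1]
      simp [hd, hx]
  · intro z hz
    apply Set.indicator_of_notMem
    intro hmem
    have := (cone_ft w h0 hwF hmem).2
    linarith

/-- Volume of the simplex through the cone integral. -/
theorem integral_hd {r : ℕ} (w : Fin (r + 2) → Fin (r + 2) → ℝ) (hw : (Matrix.of w).det ≠ 0)
    (h0 : FT (w 0)) (hwF : ∀ i, FC (w i))
    (hint : IntegrableOn (fun y => Real.exp ((1 / 2) * qf (gram w) y)) (orth (r + 2))) :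
    Integrable (hd w) ∧ Cn r * ∫ x, hd w x = |(Matrix.of w).det| * J (gram w) := by
  have h1 : IntegrableOn (fun z : Fin (r + 2) → ℝ => Real.exp ((1 / 2) * lf z z)) (cone w) := by
    apply integrableOn_cone w hw
    simpa only [qf_gram] using hint
  have h2 := integral_cone w hw (fun z : Fin (r + 2) → ℝ => Real.exp ((1 / 2) * lf z z))
  rw [← J_gram_eq] at h2
  have hC := Cn_pos r
  have hnn : ∀ x, 0 ≤ Cn r * hd w x := fun x => mul_nonneg hC.le (hd_nonneg w h0 hwF x)
  have hmeas : Measurable fun x => Cn r * hd w x := (measurable_hd w hw).const_mul _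
  have h3 : ∫⁻ x : E (r + 1), ENNReal.ofReal (Cn r * hd w x) < ∞ := by
    rw [← lintegral_cone_eq w hw h0 hwF]
    have := h1.2
    rw [hasFiniteIntegral_iff_ofReal] at this
    · exact this
    · exact Filter.Eventually.of_forall fun z => (Real.exp_pos _).le
  have h4 : Integrable fun x => Cn r * hd w x := by
    refine ⟨hmeas.aestronglyMeasurable, ?_⟩
    rw [hasFiniteIntegral_iff_ofReal (Filter.Eventually.of_forall hnn)]
    exact h3
  refine ⟨?_, ?_⟩
  · have := h4.const_mul (Cn r)⁻¹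
    refine this.congr (Filter.Eventually.of_forall fun x => ?_)
    simp only
    rw [← mul_assoc, inv_mul_cancel₀ hC.ne', one_mul]
  · rw [← h2, ← integral_const_mul, integral_eq_lintegral_of_nonneg_ae (Filter.Eventually.of_forall hnn)
      hmeas.aestronglyMeasurable, integral_eq_lintegral_of_nonneg_ae
      (Filter.Eventually.of_forall fun z => (Real.exp_pos _).le) h1.1, lintegral_cone_eq w hw h0 hwF]

end Bellows
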