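import Pool.Agent.Bellows.Theta

/-!
# Bellows M8a: derivative of the function `S`
-/

open MeasureTheory Matrix Topology Filter
open scoped ENNReal

namespace Bellows

/-! ### Fubini in the first coordinate -/

theorem lintegral_orth_succ {n : ℕ} (f : ℝ × (Fin n → ℝ) → ℝ≥0∞) (hf : Measurable f) :
    ∫⁻ y in orth (n + 1), f (y 0, fun j => y j.succ) =
      ∫⁻ s in Set.Ioi (0 : ℝ), ∫⁻ t in orth n, f (s, t) := by
  have h := (volume_preserving_piFinSuccAbove (fun _ : Fin (n + 1) => ℝ) 0)
  have h1 := h.setLIntegral_comp_preimage (s := Set.Ioi (0 : ℝ) ×ˢ orth n)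
    (measurableSet_Ioi.prod (measurableSet_orth n)) hf
  have h2 : orth (n + 1) = (MeasurableEquiv.piFinSuccAbove (fun _ : Fin (n + 1) => ℝ) 0) ⁻¹'
      (Set.Ioi (0 : ℝ) ×ˢ orth n) := by
    rw [orth_split 0]
    rfl
  have h3 : ∀ y : Fin (n + 1) → ℝ, f (y 0, fun j => y j.succ) =
      f (MeasurableEquiv.piFinSuccAbove (fun _ : Fin (n + 1) => ℝ) 0 y) := by
    intro y
    rfl
  simp only [h3]
  rw [h2, h1, Measure.volume_eq_prod, ← Measure.prod_restrict, lintegral_prod _ hf.aemeasurable]

theorem lintegral_add_Ioi (H : ℝ → ℝ≥0∞) (hH : Measurable H) :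
    ∫⁻ a in Set.Ioi (0 : ℝ), ∫⁻ b in Set.Ioi (0 : ℝ), H (a + b) =
      ∫⁻ s in Set.Ioi (0 : ℝ), ENNReal.ofReal s * H s := by
  have h1 : ∀ a : ℝ, ∫⁻ b in Set.Ioi (0 : ℝ), H (a + b) =
      ∫⁻ s, (Set.Ioi a).indicator H s := by
    intro a
    rw [← lintegral_indicator measurableSet_Ioi,
      ← lintegral_add_left_eq_self (fun s => (Set.Ioi a).indicator H s) a]
    refine lintegral_congr fun b => ?_
    by_cases hb : 0 < b
    · rw [Set.indicator_of_mem (show b ∈ Set.Ioi (0 : ℝ) from hb),
        Set.indicator_of_mem (show a + b ∈ Set.Ioi a from by simpa using hb)]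
    · rw [Set.indicator_of_notMem (show b ∉ Set.Ioi (0 : ℝ) from hb),
        Set.indicator_of_notMem (show a + b ∉ Set.Ioi a from by simpa using hb)]
  simp only [h1]
  rw [lintegral_lintegral_swap]
  · rw [← lintegral_indicator measurableSet_Ioi]
    refine lintegral_congr fun s => ?_
    have h2 : ∀ a : ℝ, (Set.Ioi a).indicator H s = (Set.Iio s).indicator (fun _ => H s) a := by
      intro a
      by_cases ha : a < s
      · rw [Set.indicator_of_mem (show s ∈ Set.Ioi a from ha),
          Set.indicator_of_mem (show a ∈ Set.Iio s from ha)]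
      · rw [Set.indicator_of_notMem (show s ∉ Set.Ioi a from ha),
          Set.indicator_of_notMem (show a ∉ Set.Iio s from ha)]
    simp only [h2]
    rw [lintegral_indicator measurableSet_Iio, lintegral_const, Measure.restrict_restrict
      measurableSet_Iio, Measure.restrict_apply MeasurableSet.univ, Set.univ_inter,
      Set.inter_comm, Set.Ioi_inter_Iio, Real.volume_Ioo, sub_zero]
    by_cases hs : 0 < s
    · rw [Set.indicator_of_mem (show s ∈ Set.Ioi (0 : ℝ) from hs), mul_comm]
    · rw [Set.indicator_of_notMem (show s ∉ Set.Ioi (0 : ℝ) from hs),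
        ENNReal.ofReal_of_nonpos (not_lt.mp hs), mul_zero]
  · apply Measurable.aemeasurable
    have : (Function.uncurry fun a s => (Set.Ioi a).indicator H s) =
        Set.indicator {p : ℝ × ℝ | p.1 < p.2} (fun p => H p.2) := by
      funext p
      simp only [Function.uncurry, Set.indicator_apply, Set.mem_Ioi, Set.mem_ofPred_eq]
    rw [this]
    exact (hH.comp measurable_snd).indicator (measurableSet_lt measurable_fst measurable_snd)

theorem lintegral_double {n : ℕ} (h : ℝ × (Fin n → ℝ) → ℝ≥0∞) (hh : Measurable h) :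
    ∫⁻ y in orth (n + 2), h (y 0 + y 1, fun j => y j.succ.succ) =
      ∫⁻ y in orth (n + 1), ENNReal.ofReal (y 0) * h (y 0, fun j => y j.succ) := by
  have h1 := lintegral_orth_succ (n := n + 1)
    (fun p : ℝ × (Fin (n + 1) → ℝ) => h (p.1 + p.2 0, fun j => p.2 j.succ)) (by fun_prop)
  have h2 := lintegral_orth_succ (n := n)
    (fun p : ℝ × (Fin n → ℝ) => ENNReal.ofReal p.1 * h p) (by fun_prop)
  simp only at h1 h2
  have e1 : ∀ y : Fin (n + 2) → ℝ, y (Fin.succ 0) = y 1 := fun y => rfl
  simp only [e1] at h1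
  rw [h1, h2]
  have h3 : ∀ s : ℝ, ∫⁻ t in orth (n + 1), h (s + t 0, fun j => t j.succ) =
      ∫⁻ b in Set.Ioi (0 : ℝ), ∫⁻ t in orth n, h (s + b, t) := by
    intro s
    exact lintegral_orth_succ (n := n) (fun p : ℝ × (Fin n → ℝ) => h (s + p.1, p.2)) (by fun_prop)
  simp only [h3]
  have h4 : ∀ s : ℝ, ∫⁻ t in orth n, ENNReal.ofReal s * h (s, t) =
      ENNReal.ofReal s * ∫⁻ t in orth n, h (s, t) := by
    intro s
    rw [lintegral_const_mul _ (by fun_prop)]
  simp only [h4]
  exact lintegral_add_Ioi (fun s => ∫⁻ t in orth n, h (s, t)) (Measurable.lintegral_prod_right' hh)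

/-- `J` of a Gram matrix with a doubled vector is the first moment. -/
theorem J_double {d n : ℕ} (z : Fin (d + 1) → ℝ) (x : Fin n → Fin (d + 1) → ℝ) :
    J (gram (Fin.cons z (Fin.cons z x : Fin (n + 1) → Fin (d + 1) → ℝ) :
      Fin (n + 2) → Fin (d + 1) → ℝ)) =
    M0 (gram (Fin.cons z x : Fin (n + 1) → Fin (d + 1) → ℝ)) := by
  unfold J M0
  simp only [qf_gram, Fin.sum_univ_succ, Fin.cons_zero, Fin.cons_succ]
  set h : ℝ × (Fin n → ℝ) → ℝ := fun p => Real.exp (1 / 2 *
    lf (p.1 • z + ∑ i, p.2 i • x i) (p.1 • z + ∑ i, p.2 i • x i)) with hh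
  have hcont : Continuous h := by
    rw [hh]
    unfold lf
    fun_prop
  have e1 : ∀ y : Fin (n + 2) → ℝ, Real.exp (1 / 2 *
      lf (y 0 • z + (y (Fin.succ 0) • z + ∑ i : Fin n, y i.succ.succ • x i))
        (y 0 • z + (y (Fin.succ 0) • z + ∑ i : Fin n, y i.succ.succ • x i))) =
      h (y 0 + y 1, fun j => y j.succ.succ) := by
    intro y
    simp only [hh, add_smul, add_assoc]
    rfl
  have e2 : ∀ y : Fin (n + 1) → ℝ, y 0 * Real.exp (1 / 2 *
      lf (y 0 • z + ∑ i : Fin n, y i.succ • x i) (y 0 • z + ∑ i : Fin n, y i.succ • x i)) =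
      y 0 * h (y 0, fun j => y j.succ) := by
    intro y
    rfl
  simp only [e1, e2]
  rw [integral_eq_lintegral_of_nonneg_ae, integral_eq_lintegral_of_nonneg_ae]
  · congr 1
    rw [lintegral_double (fun p => ENNReal.ofReal (h p)) (by fun_prop)]
    refine setLIntegral_congr_fun (measurableSet_orth _) fun y hy => ?_
    rw [ENNReal.ofReal_mul (hy 0).le]
  · rw [EventuallyLE, ae_restrict_iff' (measurableSet_orth _)]
    exact Eventually.of_forall fun y hy => mul_nonneg (hy 0).le (Real.exp_pos _).le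
  · apply Continuous.aestronglyMeasurable
    fun_prop
  · exact Eventually.of_forall fun y => (Real.exp_pos _).le
  · apply Continuous.aestronglyMeasurable
    fun_prop

/-! ### Continuity of `J` -/

theorem tendsto_J {ι : Type*} {l : Filter ι} [l.IsCountablyGenerated] {r : ℕ} (hr : 3 ≤ r)
    {G : ι → Matrix (Fin r) (Fin r) ℝ} {G0 : Matrix (Fin r) (Fin r) ℝ} (hG0 : Adm G0)
    (hlim : ∀ i j, Tendsto (fun t => G t i j) l (𝓝 (G0 i j)))
    (hdiag : ∀ᶠ t in l, ∀ i, G t i i ≤ 0) :
    Tendsto (fun t => J (G t)) l (𝓝 (J G0)) := by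
  obtain ⟨c, hc, hb⟩ := hG0.exists_bound
  have hoff : ∀ᶠ t in l, ∀ i j, i ≠ j → G t i j ≤ -(c / 2) := by
    rw [eventually_all]
    intro i
    rw [eventually_all]
    intro j
    by_cases hij : i = j
    · simp [hij]
    · have h1 : G0 i j < -(c / 2) := by
        have := hb i j hij
        linarith
      filter_upwards [(hlim i j).eventually_lt_const h1] with t ht _
      exact ht.le
  unfold J
  refine tendsto_integral_filter_of_dominated_convergence
    (fun y => Real.exp (-(c / 2) * ∑ i, ∑ j, if i < j then y i * y j else 0)) ?_ ?_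
    (integrableOn_pairs hr (c / 2) (half_pos hc)) ?_
  · refine Eventually.of_forall fun t => ?_
    apply Continuous.aestronglyMeasurable
    exact Real.continuous_exp.comp (continuous_const.mul (continuous_qf _))
  · filter_upwards [hoff, hdiag] with t h1 h2
    refine (ae_restrict_iff' (measurableSet_orth' _)).2 (Eventually.of_forall fun y hy => ?_)
    rw [Real.norm_of_nonneg (Real.exp_pos _).le]
    apply Real.exp_le_exp.2
    have h3 := qf_le h1 hy
    have h4 : ∑ i, G t i i * (y i) ^ 2 ≤ 0 :=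
      Finset.sum_nonpos fun i _ => mul_nonpos_of_nonpos_of_nonneg (h2 i) (sq_nonneg _)
    linarith
  · refine Eventually.of_forall fun y => ?_
    apply (Real.continuous_exp.tendsto _).comp
    apply Tendsto.const_mul
    unfold qf
    refine tendsto_finsetSum _ fun i _ => tendsto_finsetSum _ fun j _ => ?_
    exact ((hlim i j).const_mul _).mul_const _

/-! ### The determinant as a function of its first row -/

/-- The determinant as a linear form in the first row. -/
noncomputable def detL {n : ℕ} (A : Fin n → Fin (n + 1) → ℝ) : (Fin (n + 1) → ℝ) →ₗ[ℝ] ℝ where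
  toFun w := (Matrix.of (Fin.cons w A : Fin (n + 1) → Fin (n + 1) → ℝ)).det
  map_add' x y := by
    rw [det_succ_row_zero, det_succ_row_zero, det_succ_row_zero, ← Finset.sum_add_distrib]
    refine Finset.sum_congr rfl fun i _ => ?_
    have h : ∀ w : Fin (n + 1) → ℝ,
        (Matrix.of (Fin.cons w A : Fin (n + 1) → Fin (n + 1) → ℝ)).submatrix Fin.succ i.succAbove =
        Matrix.of fun a b => A a (i.succAbove b) := by
      intro w
      ext a b
      simp
    rw [h, h, h]
    simp only [of_apply, Fin.cons_zero, Pi.add_apply]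
    ring
  map_smul' c x := by
    rw [det_succ_row_zero, det_succ_row_zero, RingHom.id_apply, smul_eq_mul, Finset.mul_sum]
    refine Finset.sum_congr rfl fun i _ => ?_
    have h : ∀ w : Fin (n + 1) → ℝ,
        (Matrix.of (Fin.cons w A : Fin (n + 1) → Fin (n + 1) → ℝ)).submatrix Fin.succ i.succAbove =
        Matrix.of fun a b => A a (i.succAbove b) := by
      intro w
      ext a b
      simp
    rw [h, h]
    simp only [of_apply, Fin.cons_zero, Pi.smul_apply, smul_eq_mul]
    ring

theorem detL_apply {n : ℕ} (A : Fin n → Fin (n + 1) → ℝ) (w : Fin (n + 1) → ℝ) :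
    detL A w = (Matrix.of (Fin.cons w A : Fin (n + 1) → Fin (n + 1) → ℝ)).det := rfl

/-- repeated first vector -/
theorem detL_self {n : ℕ} (z : Fin (n + 2) → ℝ) (A : Fin n → Fin (n + 2) → ℝ) :
    detL (Fin.cons z A : Fin (n + 1) → Fin (n + 2) → ℝ) z = 0 := by
  rw [detL_apply]
  apply Matrix.det_zero_of_row_eq (i := 0) (j := 1) (by simp)
  rfl

/-! ### The derivative of `S` -/

theorem isOpen_FT8 {d : ℕ} : IsOpen {z : Fin (d + 1) → ℝ | FT z} := by
  have : {z : Fin (d + 1) → ℝ | FT z} = {z | lf z z < 0} ∩ {z | 0 < z 0} := rfl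
  rw [this]
  apply IsOpen.inter
  · apply isOpen_lt _ continuous_const
    unfold lf
    fun_prop
  · exact isOpen_lt continuous_const (continuous_apply 0)

/-- The increments of `S`. -/
theorem S_increment {m : ℕ} (x : Fin (m + 3) → Fin (m + 4) → ℝ)
    (hFC : ∀ i, FC (x i)) (z z' : Fin (m + 4) → ℝ) (hz : FT z) (hz' : FT z') :
    S (d := m + 3) (Fin.cons z' x) - S (d := m + 3) (Fin.cons z x) =
      ∑ j : Fin (m + 3), (-1) ^ (j : ℕ) *
        (detL (Fin.cons z (fun k : Fin (m + 2) => x (j.succAbove k)) :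
          Fin (m + 3) → Fin (m + 4) → ℝ) (z' - z) *
        J (gram (Fin.cons z' (Fin.cons z (fun k : Fin (m + 2) => x (j.succAbove k)) :
          Fin (m + 3) → Fin (m + 4) → ℝ) : Fin (m + 4) → Fin (m + 4) → ℝ))) := by
  have h := real_cocycle (m := m + 2) (by omega) hz'
    (Fin.cons z x : Fin (m + 4) → Fin (m + 4) → ℝ) (by
      intro i
      refine Fin.cases ?_ (fun i => ?_) i
      · exact hz.fc
      · exact hFC i)
  rw [Fin.sum_univ_succ] at h
  simp only [cons_succAbove, Fin.zero_succAbove, Fin.cons_succ, Fin.val_zero, pow_zero, one_mul,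
    Fin.val_succ] at h
  have e1 : S (d := m + 3) (Fin.cons z' x) = (Matrix.of (Fin.cons z' x : Fin (m + 4) →
      Fin (m + 4) → ℝ)).det * J (gram (Fin.cons z' x : Fin (m + 4) → Fin (m + 4) → ℝ)) := rfl
  have e2 : S (d := m + 3) (Fin.cons z x) = (Matrix.of (Fin.cons z x : Fin (m + 4) →
      Fin (m + 4) → ℝ)).det * J (gram (Fin.cons z x : Fin (m + 4) → Fin (m + 4) → ℝ)) := rfl
  have e3 : ∀ j : Fin (m + 3),
      detL (Fin.cons z (fun k : Fin (m + 2) => x (j.succAbove k)) :
          Fin (m + 3) → Fin (m + 4) → ℝ) (z' - z) =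
      (Matrix.of (Fin.cons z' (Fin.cons z (fun k : Fin (m + 2) => x (j.succAbove k)) :
          Fin (m + 3) → Fin (m + 4) → ℝ) : Fin (m + 4) → Fin (m + 4) → ℝ)).det := by
    intro j
    rw [map_sub, detL_self, sub_zero, detL_apply]
  simp only [e3]
  have e4 : ∑ j : Fin (m + 3), (-1 : ℝ) ^ ((j : ℕ) + 1) *
        ((Matrix.of (Fin.cons z' (Fin.cons z (fun k : Fin (m + 2) => x (j.succAbove k)) :
          Fin (m + 3) → Fin (m + 4) → ℝ) : Fin (m + 4) → Fin (m + 4) → ℝ)).det *
        J (gram (Fin.cons z' (Fin.cons z (fun k : Fin (m + 2) => x (j.succAbove k)) :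
          Fin (m + 3) → Fin (m + 4) → ℝ) : Fin (m + 4) → Fin (m + 4) → ℝ))) =
      - ∑ j : Fin (m + 3), (-1 : ℝ) ^ (j : ℕ) *
        ((Matrix.of (Fin.cons z' (Fin.cons z (fun k : Fin (m + 2) => x (j.succAbove k)) :
          Fin (m + 3) → Fin (m + 4) → ℝ) : Fin (m + 4) → Fin (m + 4) → ℝ)).det *
        J (gram (Fin.cons z' (Fin.cons z (fun k : Fin (m + 2) => x (j.succAbove k)) :
          Fin (m + 3) → Fin (m + 4) → ℝ) : Fin (m + 4) → Fin (m + 4) → ℝ))) := by
    rw [← Finset.sum_neg_distrib]
    refine Finset.sum_congr rfl fun j _ => ?_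
    rw [pow_succ]
    ring
  have h' : S (d := m + 3) (Fin.cons z' x) + ∑ j : Fin (m + 3), (-1 : ℝ) ^ ((j : ℕ) + 1) *
        ((Matrix.of (Fin.cons z' (Fin.cons z (fun k : Fin (m + 2) => x (j.succAbove k)) :
          Fin (m + 3) → Fin (m + 4) → ℝ) : Fin (m + 4) → Fin (m + 4) → ℝ)).det *
        J (gram (Fin.cons z' (Fin.cons z (fun k : Fin (m + 2) => x (j.succAbove k)) :
          Fin (m + 3) → Fin (m + 4) → ℝ) : Fin (m + 4) → Fin (m + 4) → ℝ))) =
      S (d := m + 3) (Fin.cons z x) := h
  rw [e4] at h'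
  linarith

/-- M8a: derivative of `S` in the first vector. -/
theorem hasFDerivAt_S {m : ℕ} (x : Fin (m + 3) → Fin (m + 4) → ℝ) (hx : LinearIndependent ℝ x)
    (hFC : ∀ i, FC (x i)) (z : Fin (m + 4) → ℝ) (hz : FT z) :
    ∃ L : (Fin (m + 4) → ℝ) →L[ℝ] ℝ,
      HasFDerivAt (fun z : Fin (m + 4) → ℝ => S (d := m + 3) (Fin.cons z x)) L z ∧
      ∀ w, L w = ∑ j : Fin (m + 3), (-1) ^ (j : ℕ) *
        M0 (gram (r := m + 3) (d := m + 3) (Fin.cons z (fun k => x (j.succAbove k)))) *
        (Matrix.of (Fin.cons w (Fin.cons z (fun k : Fin (m + 2) => x (j.succAbove k)) :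
          Fin (m + 3) → Fin (m + 4) → ℝ) : Fin (m + 4) → Fin (m + 4) → ℝ)).det := by
  set y : Fin (m + 3) → Fin (m + 3) → Fin (m + 4) → ℝ := fun j =>
    (Fin.cons z (fun k : Fin (m + 2) => x (j.succAbove k))) with hy
  set MM : Fin (m + 3) → ℝ := fun j => M0 (gram (r := m + 3) (d := m + 3) (y j)) with hMM
  have hlim : ∀ j, Tendsto (fun z' => J (gram (Fin.cons z' (y j) :
      Fin (m + 4) → Fin (m + 4) → ℝ))) (𝓝 z) (𝓝 (MM j)) := by
    intro j
    have h1 : MM j = J (gram (Fin.cons z (y j) : Fin (m + 4) → Fin (m + 4) → ℝ)) := by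
      rw [hMM, hy]
      exact (J_double z _).symm
    rw [h1]
    have hli : LinearIndependent ℝ (fun k : Fin (m + 2) => x (j.succAbove k)) :=
      hx.comp _ (Fin.succAbove_right_injective)
    have hadm := gram_cons_adm hz (fun k => hFC (j.succAbove k)) hli
    apply tendsto_J (by omega)
    · -- admissibility of the limit
      have hs : ∀ i, lf z (y j i) < 0 := by
        intro i
        refine Fin.cases ?_ (fun i => ?_) i
        · exact hz.1
        · exact hz.lf_neg (hFC _)
      refine ⟨fun i k => lf_comm _ _, ?_, ?_⟩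
      · intro i
        refine Fin.cases ?_ (fun i => ?_) i
        · exact hz.1.le
        · exact hadm.diag i
      · intro i k
        refine Fin.cases ?_ (fun i => ?_) i
        · refine Fin.cases ?_ (fun k => ?_) k
          · intro h
            exact absurd rfl h
          · intro _
            exact hs k
        · refine Fin.cases ?_ (fun k => ?_) k
          · intro _
            change lf (y j i) z < 0
            rw [lf_comm]
            exact hs i
          · intro h
            exact hadm.off i k fun h' => h (by rw [h'])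
    · intro i k
      change Tendsto (fun z' => lf ((Fin.cons z' (y j) : Fin (m + 4) → Fin (m + 4) → ℝ) i)
        ((Fin.cons z' (y j) : Fin (m + 4) → Fin (m + 4) → ℝ) k)) (𝓝 z)
        (𝓝 (lf ((Fin.cons z (y j) : Fin (m + 4) → Fin (m + 4) → ℝ) i)
        ((Fin.cons z (y j) : Fin (m + 4) → Fin (m + 4) → ℝ) k)))
      have hc : ∀ i : Fin (m + 4), Continuous fun z' : Fin (m + 4) → ℝ =>
          (Fin.cons z' (y j) : Fin (m + 4) → Fin (m + 4) → ℝ) i := by
        intro i
        refine Fin.cases ?_ (fun i => ?_) i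
        · exact continuous_id
        · exact continuous_const
      have hc2 : Continuous fun z' : Fin (m + 4) → ℝ =>
          lf ((Fin.cons z' (y j) : Fin (m + 4) → Fin (m + 4) → ℝ) i)
            ((Fin.cons z' (y j) : Fin (m + 4) → Fin (m + 4) → ℝ) k) := by
        have h2 := hc i
        have h3 := hc k
        unfold lf
        have h4 : ∀ a : Fin (m + 4), Continuous fun z' : Fin (m + 4) → ℝ =>
            (Fin.cons z' (y j) : Fin (m + 4) → Fin (m + 4) → ℝ) i a :=
          fun a => (continuous_apply a).comp h2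
        have h5 : ∀ a : Fin (m + 4), Continuous fun z' : Fin (m + 4) → ℝ =>
            (Fin.cons z' (y j) : Fin (m + 4) → Fin (m + 4) → ℝ) k a :=
          fun a => (continuous_apply a).comp h3
        exact ((h4 0).mul (h5 0)).neg.add (continuous_finsetSum _ fun a _ =>
          (h4 a.succ).mul (h5 a.succ))
      exact hc2.tendsto z
    · filter_upwards [isOpen_FT8.mem_nhds hz] with z' hz' i
      refine Fin.cases ?_ (fun i => ?_) i
      · exact hz'.1.le
      · exact hadm.diag i
  set L0 : (Fin (m + 4) → ℝ) →ₗ[ℝ] ℝ := ∑ j : Fin (m + 3), ((-1) ^ (j : ℕ) * MM j) • detL (y j)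
    with hL0
  refine ⟨LinearMap.toContinuousLinearMap L0, ?_, ?_⟩
  · rw [hasFDerivAt_iff_isLittleO]
    have hsum : (fun z' => S (d := m + 3) (Fin.cons z' x) - S (d := m + 3) (Fin.cons z x) -
        (LinearMap.toContinuousLinearMap L0) (z' - z)) =ᶠ[𝓝 z]
        fun z' => ∑ j : Fin (m + 3), ((-1) ^ (j : ℕ) * (detL (y j) (z' - z) *
          (J (gram (Fin.cons z' (y j) : Fin (m + 4) → Fin (m + 4) → ℝ)) - MM j))) := by
      filter_upwards [isOpen_FT8.mem_nhds hz] with z' hz'
      rw [S_increment x hFC z z' hz hz']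
      simp only [LinearMap.coe_toContinuousLinearMap', hL0, LinearMap.sum_apply,
        LinearMap.smul_apply, smul_eq_mul]
      rw [← Finset.sum_sub_distrib]
      refine Finset.sum_congr rfl fun j _ => ?_
      rw [hy]
      ring
    refine (Asymptotics.isLittleO_congr hsum (EventuallyEq.refl _ _)).mpr ?_
    refine Asymptotics.IsLittleO.fun_sum (g' := fun z' : Fin (m + 4) → ℝ => z' - z)
      (A := fun (j : Fin (m + 3)) (z' : Fin (m + 4) → ℝ) =>
        ((-1 : ℝ) ^ (j : ℕ) * (detL (y j) (z' - z) *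
          (J (gram (Fin.cons z' (y j) : Fin (m + 4) → Fin (m + 4) → ℝ)) - MM j)))) fun j _ => ?_
    apply Asymptotics.IsLittleO.const_mul_left
    have h1 : (fun z' => detL (y j) (z' - z)) =O[𝓝 z] fun z' => z' - z := by
      have := (LinearMap.toContinuousLinearMap (detL (y j))).isBigO_sub (𝓝 z) z
      refine this.congr_left fun z' => ?_
      simp
    have h2 : (fun z' => J (gram (Fin.cons z' (y j) : Fin (m + 4) → Fin (m + 4) → ℝ)) - MM j)
        =o[𝓝 z] fun _ => (1 : ℝ) := by
      rw [Asymptotics.isLittleO_one_iff]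
      simpa using (hlim j).sub_const (MM j)
    have h1' : (fun z' => detL (y j) (z' - z)) =O[𝓝 z] fun z' => ‖z' - z‖ :=
      Asymptotics.isBigO_norm_right.mpr h1
    have h3 := h1'.mul_isLittleO h2
    simp only [mul_one] at h3
    exact Asymptotics.isLittleO_norm_right.mp h3
  · intro w
    simp only [LinearMap.coe_toContinuousLinearMap', hL0, LinearMap.sum_apply,
      LinearMap.smul_apply, smul_eq_mul, detL_apply]
    rfl

end Bellows
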