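import Pool.Agent.Bellows.M8a
import Pool.Agent.Bellows.M4d
import Pool.Agent.Bellows.Boundary

/-!
# Bellows M8b: the algebra of Schläfli's formula
-/

open MeasureTheory Matrix Topology Filter

namespace Bellows

/-! ### Determinants with two distinguished rows -/

/-- The determinant with first rows `u`, `v`. -/
noncomputable def dd {n : ℕ} (u v : Fin (n + 2) → ℝ) (A : Fin n → Fin (n + 2) → ℝ) : ℝ :=
  (Matrix.of (Fin.cons u (Fin.cons v A : Fin (n + 1) → Fin (n + 2) → ℝ) :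
    Fin (n + 2) → Fin (n + 2) → ℝ)).det

theorem dd_eq_detL {n : ℕ} (u v : Fin (n + 2) → ℝ) (A : Fin n → Fin (n + 2) → ℝ) :
    dd u v A = detL (Fin.cons v A : Fin (n + 1) → Fin (n + 2) → ℝ) u := rfl

theorem dd_self {n : ℕ} (u : Fin (n + 2) → ℝ) (A : Fin n → Fin (n + 2) → ℝ) : dd u u A = 0 :=
  detL_self u A

theorem dd_add_left {n : ℕ} (u u' v : Fin (n + 2) → ℝ) (A : Fin n → Fin (n + 2) → ℝ) :
    dd (u + u') v A = dd u v A + dd u' v A := by
  simp only [dd_eq_detL, map_add]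

theorem dd_smul_left {n : ℕ} (c : ℝ) (u v : Fin (n + 2) → ℝ) (A : Fin n → Fin (n + 2) → ℝ) :
    dd (c • u) v A = c * dd u v A := by
  simp only [dd_eq_detL, map_smul, smul_eq_mul]

/-- `dd` through the alternating map. -/
theorem dd_eq_curry {n : ℕ} (u v : Fin (n + 2) → ℝ) (A : Fin n → Fin (n + 2) → ℝ) :
    dd u v A = ((Matrix.detRowAlternating (n := Fin (n + 2)) (R := ℝ)).curryLeft u).curryLeft v A :=
  rfl

theorem dd_add_right {n : ℕ} (u v v' : Fin (n + 2) → ℝ) (A : Fin n → Fin (n + 2) → ℝ) :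
    dd u (v + v') A = dd u v A + dd u v' A := by
  simp only [dd_eq_curry, map_add, AlternatingMap.add_apply]

theorem dd_smul_right {n : ℕ} (c : ℝ) (u v : Fin (n + 2) → ℝ) (A : Fin n → Fin (n + 2) → ℝ) :
    dd u (c • v) A = c * dd u v A := by
  simp only [dd_eq_curry, map_smul, AlternatingMap.smul_apply, smul_eq_mul]

theorem dd_swap {n : ℕ} (u v : Fin (n + 2) → ℝ) (A : Fin n → Fin (n + 2) → ℝ) :
    dd u v A = - dd v u A := by
  have h := dd_self (u + v) A
  rw [dd_add_left, dd_add_right, dd_add_right, dd_self, dd_self] at h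
  linarith

theorem dd_neg_left {n : ℕ} (u v : Fin (n + 2) → ℝ) (A : Fin n → Fin (n + 2) → ℝ) :
    dd (-u) v A = - dd u v A := by
  have := dd_smul_left (-1) u v A
  simpa using this

theorem dd_sub_left {n : ℕ} (u u' v : Fin (n + 2) → ℝ) (A : Fin n → Fin (n + 2) → ℝ) :
    dd (u - u') v A = dd u v A - dd u' v A := by
  rw [sub_eq_add_neg, dd_add_left, dd_neg_left, sub_eq_add_neg]

theorem dd_sum_left {n : ℕ} {ι : Type*} (s : Finset ι) (f : ι → Fin (n + 2) → ℝ)
    (v : Fin (n + 2) → ℝ) (A : Fin n → Fin (n + 2) → ℝ) :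
    dd (∑ i ∈ s, f i) v A = ∑ i ∈ s, dd (f i) v A := by
  simp only [dd_eq_detL, map_sum]

theorem dd_mulVec {n : ℕ} (T : Matrix (Fin (n + 2)) (Fin (n + 2)) ℝ) (u v : Fin (n + 2) → ℝ)
    (A : Fin n → Fin (n + 2) → ℝ) :
    dd (T.mulVec u) (T.mulVec v) (fun k => T.mulVec (A k)) = T.det * dd u v A := by
  unfold dd
  rw [← det_of_mulVec]
  congr 1
  ext i j
  refine Fin.cases ?_ (fun i => ?_) i
  · rfl
  · refine Fin.cases ?_ (fun i => ?_) i
    · rfl
    · rfl

/-- Mixed Gram determinants. -/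
theorem det_mixed {d : ℕ} (A B : Fin (d + 1) → Fin (d + 1) → ℝ) :
    (Matrix.of fun i j => lf (A i) (B j)).det = -((Matrix.of A).det * (Matrix.of B).det) := by
  have h : (Matrix.of fun i j => lf (A i) (B j)) = Matrix.of A * eta ℝ d * (Matrix.of B)ᵀ := by
    ext i j
    rw [Matrix.of_apply, lf_eq_dotProduct, Matrix.mul_assoc, Matrix.mul_apply, dotProduct]
    refine Finset.sum_congr rfl fun k _ => ?_
    rw [Matrix.of_apply]
    congr 1
  rw [h, Matrix.det_mul, Matrix.det_mul, Matrix.det_transpose, det_eta]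
  ring

/-- a determinant with first row `(1, 0, …, 0)` -/
theorem det_first_row {n : ℕ} (M : Matrix (Fin (n + 1)) (Fin (n + 1)) ℝ) (h0 : M 0 0 = 1)
    (h : ∀ j : Fin n, M 0 j.succ = 0) : M.det = (M.submatrix Fin.succ Fin.succ).det := by
  rw [Matrix.det_succ_row_zero, Finset.sum_eq_single 0]
  · rw [h0]
    simp [Fin.succAbove_zero]
  · intro j _ hj
    obtain ⟨k, rfl⟩ := Fin.exists_succ_eq.mpr hj
    rw [h]
    ring
  · simp

/-- Mixed Gram determinants with two common unit normals. -/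
theorem det_mixed_normals {n : ℕ} (n1 n2 : Fin (n + 3) → ℝ) (A B : Fin (n + 1) → Fin (n + 3) → ℝ)
    (h11 : lf n1 n1 = 1) (h22 : lf n2 n2 = 1) (h12 : lf n1 n2 = 0)
    (hB1 : ∀ j, lf n1 (B j) = 0) (hB2 : ∀ j, lf n2 (B j) = 0) :
    (Matrix.of fun i j => lf (A i) (B j)).det = -(dd n1 n2 A * dd n1 n2 B) := by
  unfold dd
  rw [← det_mixed]
  have e1 : (Matrix.of fun (i j : Fin (n + 3)) =>
      lf ((Fin.cons n1 (Fin.cons n2 A : Fin (n + 2) → Fin (n + 3) → ℝ) :
        Fin (n + 3) → Fin (n + 3) → ℝ) i)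
      ((Fin.cons n1 (Fin.cons n2 B : Fin (n + 2) → Fin (n + 3) → ℝ) :
        Fin (n + 3) → Fin (n + 3) → ℝ) j)).det =
      (Matrix.of fun (i j : Fin (n + 2)) =>
      lf ((Fin.cons n2 A : Fin (n + 2) → Fin (n + 3) → ℝ) i)
      ((Fin.cons n2 B : Fin (n + 2) → Fin (n + 3) → ℝ) j)).det := by
    rw [det_first_row]
    · rfl
    · simpa using h11
    · intro j
      refine Fin.cases ?_ (fun j => ?_) j
      · simpa using h12
      · simpa using hB1 j
  have e2 : (Matrix.of fun (i j : Fin (n + 2)) =>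
      lf ((Fin.cons n2 A : Fin (n + 2) → Fin (n + 3) → ℝ) i)
      ((Fin.cons n2 B : Fin (n + 2) → Fin (n + 3) → ℝ) j)).det =
      (Matrix.of fun (i j : Fin (n + 1)) => lf (A i) (B j)).det := by
    rw [det_first_row]
    · rfl
    · simpa using h22
    · intro j
      simpa using hB2 j
  exact (e1.trans e2).symm

/-! ### Frames -/

section frame

variable {m : ℕ} {x : Fin (m + 2) → Fin (m + 3 + 1) → ℝ}

/-- the columns of a frame -/
def AFrame.col {r d : ℕ} {h : r ≤ d + 1} {x : Fin r → Fin (d + 1) → ℝ} (A : AFrame h x)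
    (k : Fin (d + 1)) : Fin (d + 1) → ℝ := fun i => A.C i k

theorem AFrame.col_eq {r d : ℕ} {h : r ≤ d + 1} {x : Fin r → Fin (d + 1) → ℝ} (A : AFrame h x)
    (k : Fin (d + 1)) : A.col k = A.C.mulVec (Pi.single k 1) := by
  funext i
  simp [AFrame.col]

theorem AFrame.lf_col {r d : ℕ} {h : r ≤ d + 1} {x : Fin r → Fin (d + 1) → ℝ} (A : AFrame h x)
    (k l : Fin (d + 1)) : lf (A.col k) (A.col l) = if k = l then sgn ℝ k else 0 := by
  rw [A.col_eq, A.col_eq, A.lor, lf_single_left]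
  by_cases hkl : k = l
  · subst hkl
    simp [sgn]
  · rw [if_neg hkl, Pi.single_eq_of_ne hkl, mul_zero]

theorem AFrame.expand {r d : ℕ} {h : r ≤ d + 1} {x : Fin r → Fin (d + 1) → ℝ} (A : AFrame h x)
    (y : Fin (d + 1) → ℝ) : y = ∑ k, (sgn ℝ k * lf y (A.col k)) • A.col k := by
  have := A.lor.expand y
  simpa only [← A.col_eq] using this

theorem AFrame.x_eq {r d : ℕ} {h : r ≤ d + 1} {x : Fin r → Fin (d + 1) → ℝ} (A : AFrame h x)
    (v : Fin r) : x v = ∑ k, A.c v k • A.col (Fin.castLE h k) := by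
  funext i
  rw [A.hx, Finset.sum_apply]
  rfl

variable {hr : m + 2 ≤ m + 3 + 1} (A : AFrame hr x)

theorem AFrame.n1_eq : A.n1 = A.col ⟨m + 2, by omega⟩ := rfl

theorem AFrame.n2_eq : A.n2 = A.col ⟨m + 3, by omega⟩ := rfl

theorem AFrame.n11 : lf A.n1 A.n1 = 1 := by
  rw [A.n1_eq, A.lf_col, if_pos rfl]
  simp [sgn, Fin.ext_iff]

theorem AFrame.n22 : lf A.n2 A.n2 = 1 := by
  rw [A.n2_eq, A.lf_col, if_pos rfl]
  simp [sgn, Fin.ext_iff]

theorem AFrame.n12 : lf A.n1 A.n2 = 0 := by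
  rw [A.n1_eq, A.n2_eq, A.lf_col, if_neg]
  simp [Fin.ext_iff]

theorem AFrame.n1_col (k : Fin (m + 2)) : lf A.n1 (A.col (Fin.castLE hr k)) = 0 := by
  rw [A.n1_eq, A.lf_col, if_neg]
  rw [Fin.ext_iff]
  have := k.isLt
  simp
  omega

theorem AFrame.n2_col (k : Fin (m + 2)) : lf A.n2 (A.col (Fin.castLE hr k)) = 0 := by
  rw [A.n2_eq, A.lf_col, if_neg]
  rw [Fin.ext_iff]
  have := k.isLt
  simp
  omega

theorem AFrame.n1x (v : Fin (m + 2)) : lf A.n1 (x v) = 0 := by
  rw [A.x_eq, lf_sum_right]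
  exact Finset.sum_eq_zero fun k _ => by rw [lf_smul_right, A.n1_col, mul_zero]

theorem AFrame.n2x (v : Fin (m + 2)) : lf A.n2 (x v) = 0 := by
  rw [A.x_eq, lf_sum_right]
  exact Finset.sum_eq_zero fun k _ => by rw [lf_smul_right, A.n2_col, mul_zero]

/-- The columns as combinations of the vectors. -/
theorem AFrame.col_eq_sum (k : Fin (m + 2)) :
    A.col (Fin.castLE hr k) = ∑ v, (A.c⁻¹) k v • x v := by
  have hu : IsUnit A.c.det := isUnit_iff_ne_zero.mpr A.cdet.ne'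
  have h1 : ∀ v, (A.c⁻¹) k v • x v = ∑ l, ((A.c⁻¹) k v * A.c v l) • A.col (Fin.castLE hr l) := by
    intro v
    rw [A.x_eq, Finset.smul_sum]
    exact Finset.sum_congr rfl fun l _ => by rw [smul_smul]
  rw [Finset.sum_congr rfl fun v _ => h1 v, Finset.sum_comm]
  have h2 : ∀ l, ∑ v, ((A.c⁻¹) k v * A.c v l) • A.col (Fin.castLE hr l) =
      (if k = l then (1 : ℝ) else 0) • A.col (Fin.castLE hr l) := by
    intro l
    rw [← Finset.sum_smul, ← Matrix.mul_apply, Matrix.nonsing_inv_mul _ hu, Matrix.one_apply]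
  rw [Finset.sum_congr rfl fun l _ => h2 l]
  simp

/-- Vectors orthogonal to the `x v` are combinations of the normals. -/
theorem AFrame.expand_orth {y : Fin (m + 3 + 1) → ℝ} (hy : ∀ v, lf y (x v) = 0) :
    y = lf y A.n1 • A.n1 + lf y A.n2 • A.n2 := by
  have h1 : ∀ k : Fin (m + 2), lf y (A.col (Fin.castLE hr k)) = 0 := by
    intro k
    rw [A.col_eq_sum, lf_sum_right]
    exact Finset.sum_eq_zero fun v _ => by rw [lf_smul_right, hy, mul_zero]
  conv_lhs => rw [A.expand y]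
  rw [Finset.sum_eq_add (⟨m + 2, by omega⟩ : Fin (m + 3 + 1)) ⟨m + 3, by omega⟩
    (by simp [Fin.ext_iff])]
  · rw [← A.n1_eq, ← A.n2_eq]
    simp [sgn, Fin.ext_iff]
  · intro k _ hk
    have hk2 : (k : ℕ) < m + 2 := by
      have := k.isLt
      simp only [ne_eq, Fin.ext_iff] at hk
      omega
    have : k = Fin.castLE hr ⟨k, hk2⟩ := rfl
    rw [this, h1]
    simp
  · simp
  · simp

/-- The orientation of the two normals. -/
theorem AFrame.dd_normals : dd A.n1 A.n2 x = A.c.det := by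
  -- the frame itself
  have h1 : dd A.n1 A.n2 (fun k => A.col (Fin.castLE hr k)) = 1 := by
    have e1 : (Matrix.of (Fin.snoc (Fin.snoc (fun k : Fin (m + 2) => A.col (Fin.castLE hr k)) A.n1 :
        Fin (m + 2 + 1) → Fin (m + 2 + 2) → ℝ) A.n2 : Fin (m + 2 + 2) → Fin (m + 2 + 2) → ℝ)) =
        A.Cᵀ := by
      ext i j
      refine Fin.lastCases ?_ (fun i => ?_) i
      · simp only [Matrix.of_apply, Fin.snoc_last]
        rfl
      · refine Fin.lastCases ?_ (fun i => ?_) i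
        · simp only [Matrix.of_apply, Fin.snoc_last, Fin.snoc_castSucc]
          rfl
        · simp only [Matrix.of_apply, Fin.snoc_castSucc]
          rfl
    have e2 : ∀ (n : ℕ) (v : Fin n → Fin (n + 1) → ℝ) (y : Fin (n + 1) → ℝ),
        (Matrix.of (Fin.snoc v y : Fin (n + 1) → Fin (n + 1) → ℝ)).det =
        (-1) ^ n * (Matrix.of (Fin.cons y v : Fin (n + 1) → Fin (n + 1) → ℝ)).det := by
      intro n v y
      have e3 : (Matrix.of (Fin.snoc v y : Fin (n + 1) → Fin (n + 1) → ℝ)) =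
          (Matrix.of (Fin.cons y v : Fin (n + 1) → Fin (n + 1) → ℝ)).submatrix
            (finRotate (n + 1)) id := by
        ext i j
        rw [Matrix.submatrix_apply, Matrix.of_apply, Matrix.of_apply, Fin.snoc_eq_cons_rotate]
        rfl
      rw [e3, Matrix.det_permute, sign_finRotate]
      simp
    have e4 := congrArg Matrix.det e1
    rw [Matrix.det_transpose, A.det, e2, Fin.cons_snoc_eq_snoc_cons, e2] at e4
    have e5 : ((-1 : ℝ) ^ (m + 2 + 1)) * ((-1) ^ (m + 2 + 1)) = 1 := by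
      rw [← mul_pow]
      simp
    rw [← mul_assoc, e5, one_mul] at e4
    exact e4
  have h2 := det_mixed_normals (n := m + 1) A.n1 A.n2 x (fun k => A.col (Fin.castLE hr k))
    A.n11 A.n22 A.n12 A.n1_col A.n2_col
  rw [h1, mul_one] at h2
  have h3 : (Matrix.of fun (i j : Fin (m + 1 + 1)) => lf (x i) (A.col (Fin.castLE hr j))) =
      A.c * Matrix.diagonal (fun j : Fin (m + 1 + 1) => sgn ℝ j) := by
    ext i j
    rw [Matrix.mul_diagonal, Matrix.of_apply, A.x_eq, lf_sum_left, Finset.sum_eq_single j]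
    · rw [lf_smul_left, A.lf_col, if_pos rfl]
      have h6 : (Fin.castLE hr j = 0) ↔ (j = 0) := by
        constructor
        · intro h
          have h7 := congrArg (fun k : Fin (m + 3 + 1) => (k : ℕ)) h
          exact Fin.ext (by simpa using h7)
        · rintro rfl
          rfl
      unfold sgn
      simp only [h6]
    · intro k _ hk
      rw [lf_smul_left, A.lf_col, if_neg, mul_zero]
      intro h
      exact hk (Fin.castLE_injective _ h)
    · simp
  rw [h3, Matrix.det_mul, Matrix.det_diagonal, Fin.prod_univ_succ] at h2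
  have h4 : sgn ℝ (0 : Fin (m + 1 + 1)) = -1 := by simp [sgn]
  have h5 : ∀ i : Fin (m + 1), sgn ℝ (i.succ : Fin (m + 1 + 1)) = 1 := by
    intro i
    simp [sgn, Fin.succ_ne_zero]
  simp only [h4, h5, Finset.prod_const_one, mul_one] at h2
  linarith

/-- The infinitesimal rotation around the span of the frame. -/
noncomputable def AFrame.rot (A : AFrame hr x) (y : Fin (m + 3 + 1) → ℝ) : Fin (m + 3 + 1) → ℝ :=
  lf A.n1 y • A.n2 - lf A.n2 y • A.n1

/-- Antisymmetric matrices. -/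
def Anti {d : ℕ} (Z : Matrix (Fin (d + 1)) (Fin (d + 1)) ℝ) : Prop :=
  ∀ u v, lf (Z.mulVec u) v = - lf u (Z.mulVec v)

theorem Anti.self {d : ℕ} {Z : Matrix (Fin (d + 1)) (Fin (d + 1)) ℝ} (hZ : Anti Z)
    (u : Fin (d + 1) → ℝ) : lf (Z.mulVec u) u = 0 := by
  have := hZ u u
  rw [lf_comm u] at this
  linarith

/-- Two frames of the same vectors with the same orientation. -/
theorem AFrame.transition (A B : AFrame hr x) (h : A.c.det = B.c.det) :
    ∃ p q r s : ℝ, B.n1 = p • A.n1 + q • A.n2 ∧ B.n2 = r • A.n1 + s • A.n2 ∧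
      p * s - q * r = 1 := by
  have h1 := A.expand_orth (y := B.n1) B.n1x
  have h2 := A.expand_orth (y := B.n2) B.n2x
  refine ⟨_, _, _, _, h1, h2, ?_⟩
  have h3 := B.dd_normals
  rw [h1, h2] at h3
  simp only [dd_add_left, dd_add_right, dd_smul_left, dd_smul_right, dd_self] at h3
  rw [dd_swap A.n2 A.n1, A.dd_normals, ← h] at h3
  have h4 := A.cdet
  have h5 : (lf B.n1 A.n1 * lf B.n2 A.n2 - lf B.n1 A.n2 * lf B.n2 A.n1) * A.c.det = 1 * A.c.det := by
    linarith
  exact mul_right_cancel₀ h4.ne' h5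

theorem AFrame.rot_eq (A B : AFrame hr x) (h : A.c.det = B.c.det) (y : Fin (m + 3 + 1) → ℝ) :
    B.rot y = A.rot y := by
  obtain ⟨p, q, r, s, h1, h2, h3⟩ := A.transition B h
  unfold AFrame.rot
  rw [h1, h2]
  funext i
  simp only [Pi.sub_apply, Pi.smul_apply, Pi.add_apply, smul_eq_mul, lf_add_left, lf_smul_left]
  linear_combination (lf A.n1 y * A.n2 i - lf A.n2 y * A.n1 i) * h3

theorem AFrame.angle_eq (A B : AFrame hr x) (h : A.c.det = B.c.det)
    {Z : Matrix (Fin (m + 3 + 1)) (Fin (m + 3 + 1)) ℝ} (hZ : Anti Z) :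
    lf (Z.mulVec B.n1) B.n2 = lf (Z.mulVec A.n1) A.n2 := by
  obtain ⟨p, q, r, s, h1, h2, h3⟩ := A.transition B h
  rw [h1, h2]
  simp only [Matrix.mulVec_add, Matrix.mulVec_smul, lf_add_left, lf_smul_left, lf_add_right,
    lf_smul_right, hZ.self]
  have h4 : lf (Z.mulVec A.n2) A.n1 = - lf (Z.mulVec A.n1) A.n2 := by
    rw [hZ, lf_comm]
  rw [h4]
  linear_combination lf (Z.mulVec A.n1) A.n2 * h3

/-- An antisymmetric matrix which kills the vectors is a multiple of the rotation. -/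
theorem AFrame.anti_eq {Z : Matrix (Fin (m + 3 + 1)) (Fin (m + 3 + 1)) ℝ} (hZ : Anti Z)
    (h0 : ∀ v, Z.mulVec (x v) = 0) (y : Fin (m + 3 + 1) → ℝ) :
    Z.mulVec y = lf (Z.mulVec A.n1) A.n2 • A.rot y := by
  have h1 : ∀ y v, lf (Z.mulVec y) (x v) = 0 := by
    intro y v
    rw [hZ, h0, lf_zero_right, neg_zero]
  have h2 := A.expand_orth (y := Z.mulVec y) (h1 y)
  have h3 := A.expand_orth (y := Z.mulVec A.n1) (h1 A.n1)
  have h4 := A.expand_orth (y := Z.mulVec A.n2) (h1 A.n2)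
  rw [hZ.self, zero_smul, zero_add] at h3
  rw [hZ.self, zero_smul, add_zero] at h4
  have h5 : lf (Z.mulVec A.n2) A.n1 = - lf (Z.mulVec A.n1) A.n2 := by
    rw [hZ, lf_comm]
  rw [h5] at h4
  rw [h2, hZ y A.n1, hZ y A.n2]
  set ω := lf (Z.mulVec A.n1) A.n2 with hω
  rw [h3, h4]
  unfold AFrame.rot
  funext i
  simp only [Pi.sub_apply, Pi.smul_apply, Pi.add_apply, smul_eq_mul, lf_smul_right]
  rw [lf_comm y A.n1, lf_comm y A.n2]
  ring

theorem AFrame.fc_col {r d : ℕ} {h : r ≤ d + 1} {x : Fin r → Fin (d + 1) → ℝ} (A : AFrame h x) :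
    FC (A.col 0) := by
  refine ⟨?_, A.fut⟩
  rw [A.lf_col, if_pos rfl]
  simp [sgn]

/-- A frame moved by a Lorentz transformation. -/
noncomputable def AFrame.move {r d : ℕ} {h : r ≤ d + 1} {x : Fin r → Fin (d + 1) → ℝ}
    (A : AFrame h x) (g : Matrix (Fin (d + 1)) (Fin (d + 1)) ℝ) (hg : IsLor g) (hdet : g.det = 1)
    (hfut : 0 < g 0 0) : AFrame h (fun v => g.mulVec (x v)) where
  C := g * A.C
  lor := hg.mul A.lor
  fut := by
    have := (hg.fc hfut A.fc_col).2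
    exact this
  det := by rw [Matrix.det_mul, hdet, A.det, one_mul]
  c := A.c
  hx := by
    intro v i
    have h1 : x v = ∑ k, A.c v k • A.col (Fin.castLE h k) := A.x_eq v
    rw [h1, Matrix.mulVec_sum, Finset.sum_apply]
    refine Finset.sum_congr rfl fun k _ => ?_
    rw [Matrix.mulVec_smul]
    rfl
  cdet := A.cdet

theorem AFrame.move_n1 (g : Matrix (Fin (m + 3 + 1)) (Fin (m + 3 + 1)) ℝ) (hg : IsLor g)
    (hdet : g.det = 1) (hfut : 0 < g 0 0) : (A.move g hg hdet hfut).n1 = g.mulVec A.n1 := rfl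

theorem AFrame.move_n2 (g : Matrix (Fin (m + 3 + 1)) (Fin (m + 3 + 1)) ℝ) (hg : IsLor g)
    (hdet : g.det = 1) (hfut : 0 < g 0 0) : (A.move g hg hdet hfut).n2 = g.mulVec A.n2 := rfl

end frame

/-! ### The identity at a face -/

section face

variable {m : ℕ} {x : Fin (m + 2) → Fin (m + 3 + 1) → ℝ} {hr : m + 2 ≤ m + 3 + 1}

theorem AFrame.det_gram (A : AFrame hr x) : (gram x).det = - A.c.det ^ 2 := by
  have := det_mixed_normals (n := m + 1) A.n1 A.n2 x x A.n11 A.n22 A.n12 A.n1x A.n2x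
  rw [A.dd_normals] at this
  have h2 : (gram x) = (Matrix.of fun (i j : Fin (m + 1 + 1)) => lf (x i) (x j)) := rfl
  rw [h2, this]
  ring

/-- The relation between `o`, the `x k` and the normals. -/
theorem AFrame.cramer (A : AFrame hr x) (o : Fin (m + 3 + 1) → ℝ) :
    dd A.n2 o x = - (A.c.det * lf A.n1 o) ∧ dd A.n1 o x = A.c.det * lf A.n2 o ∧
    ∑ k : Fin (m + 2), (-1) ^ (k : ℕ) *
      dd A.n1 A.n2 (Fin.cons o (fun l : Fin (m + 1) => x (k.succAbove l)) :
        Fin (m + 2) → Fin (m + 3 + 1) → ℝ) * lf (x k) o =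
      dd A.n2 o x * lf A.n1 o - dd A.n1 o x * lf A.n2 o + A.c.det * lf o o := by
  have h := cramer_rel (r := m + 3 + 1) (Fin.cons A.n1 (Fin.cons A.n2 (Fin.cons o x :
    Fin (m + 3) → Fin (m + 3 + 1) → ℝ) : Fin (m + 4) → Fin (m + 3 + 1) → ℝ) :
    Fin (m + 5) → Fin (m + 3 + 1) → ℝ)
  rw [Fin.sum_univ_succ, Fin.sum_univ_succ, Fin.sum_univ_succ] at h
  have e0 : (Matrix.of fun j => (Fin.cons A.n1 (Fin.cons A.n2 (Fin.cons o x :
      Fin (m + 3) → Fin (m + 3 + 1) → ℝ) : Fin (m + 4) → Fin (m + 3 + 1) → ℝ) :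
      Fin (m + 5) → Fin (m + 3 + 1) → ℝ) ((0 : Fin (m + 5)).succAbove j)).det =
      dd A.n2 o x := by
    simp only [Fin.zero_succAbove, Fin.cons_succ]
    rfl
  have e1 : (Matrix.of fun j => (Fin.cons A.n1 (Fin.cons A.n2 (Fin.cons o x :
      Fin (m + 3) → Fin (m + 3 + 1) → ℝ) : Fin (m + 4) → Fin (m + 3 + 1) → ℝ) :
      Fin (m + 5) → Fin (m + 3 + 1) → ℝ) (((0 : Fin (m + 4)).succ).succAbove j)).det =
      dd A.n1 o x := by
    rw [cons_succAbove]
    simp only [Fin.zero_succAbove, Fin.cons_succ]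
    rfl
  have e2 : (Matrix.of fun j => (Fin.cons A.n1 (Fin.cons A.n2 (Fin.cons o x :
      Fin (m + 3) → Fin (m + 3 + 1) → ℝ) : Fin (m + 4) → Fin (m + 3 + 1) → ℝ) :
      Fin (m + 5) → Fin (m + 3 + 1) → ℝ) (((0 : Fin (m + 3)).succ.succ).succAbove j)).det =
      A.c.det := by
    rw [cons_succAbove, cons_succAbove, ← A.dd_normals]
    simp only [Fin.zero_succAbove, Fin.cons_succ]
    rfl
  have e3 : ∀ k : Fin (m + 2), (Matrix.of fun j => (Fin.cons A.n1 (Fin.cons A.n2 (Fin.cons o x :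
      Fin (m + 3) → Fin (m + 3 + 1) → ℝ) : Fin (m + 4) → Fin (m + 3 + 1) → ℝ) :
      Fin (m + 5) → Fin (m + 3 + 1) → ℝ) (((k.succ).succ.succ).succAbove j)).det =
      dd A.n1 A.n2 (Fin.cons o (fun l : Fin (m + 1) => x (k.succAbove l)) :
        Fin (m + 2) → Fin (m + 3 + 1) → ℝ) := by
    intro k
    rw [cons_succAbove, cons_succAbove, cons_succAbove]
    rfl
  simp only [e0, e1, e2, e3, Fin.cons_zero, Fin.cons_succ, Fin.val_zero, Fin.val_succ, pow_zero,
    zero_add, one_mul, pow_succ] at h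
  have key : ∀ y : Fin (m + 3 + 1) → ℝ, dd A.n2 o x * lf A.n1 y - dd A.n1 o x * lf A.n2 y +
      A.c.det * lf o y - ∑ k : Fin (m + 2), (-1) ^ (k : ℕ) *
      dd A.n1 A.n2 (Fin.cons o (fun l : Fin (m + 1) => x (k.succAbove l)) :
        Fin (m + 2) → Fin (m + 3 + 1) → ℝ) * lf (x k) y = 0 := by
    intro y
    have h2 := congrArg (fun u => lf u y) h
    simp only [lf_add_left, lf_smul_left, lf_sum_left, lf_zero_left] at h2
    rw [← h2, sub_eq_add_neg, ← Finset.sum_neg_distrib]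
    have h3 : ∑ k : Fin (m + 2), -((-1) ^ (k : ℕ) *
        dd A.n1 A.n2 (Fin.cons o (fun l : Fin (m + 1) => x (k.succAbove l)) :
        Fin (m + 2) → Fin (m + 3 + 1) → ℝ) * lf (x k) y) =
        ∑ k : Fin (m + 2), (-1) ^ (k : ℕ) * -1 * -1 * -1 *
        dd A.n1 A.n2 (Fin.cons o (fun l : Fin (m + 1) => x (k.succAbove l)) :
        Fin (m + 2) → Fin (m + 3 + 1) → ℝ) * lf (x k) y :=
      Finset.sum_congr rfl fun k _ => by ring
    rw [h3]
    ring
  have k1 := key A.n1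
  have k2 := key A.n2
  have k3 := key o
  have hx1 : ∀ k, lf (x k) A.n1 = 0 := fun k => by rw [lf_comm, A.n1x]
  have hx2 : ∀ k, lf (x k) A.n2 = 0 := fun k => by rw [lf_comm, A.n2x]
  have h21 : lf A.n2 A.n1 = 0 := by rw [lf_comm, A.n12]
  simp only [hx1, hx2, A.n11, A.n22, A.n12, h21, mul_zero, mul_one, Finset.sum_const_zero,
    sub_zero, zero_sub] at k1 k2
  rw [lf_comm o] at k1 k2
  refine ⟨by linarith, by linarith, by linarith⟩

/-- Gram matrix with a vector in front: the cofactors. -/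
theorem AFrame.adjugate_zero (A : AFrame hr x) (o : Fin (m + 3 + 1) → ℝ) :
    (gram (Fin.cons o x : Fin (m + 2 + 1) → Fin (m + 3 + 1) → ℝ)).adjugate 0 0 =
      - A.c.det ^ 2 := by
  rw [Matrix.adjugate_fin_succ_eq_det_submatrix, ← A.det_gram]
  have : (gram (Fin.cons o x : Fin (m + 2 + 1) → Fin (m + 3 + 1) → ℝ)).submatrix
      (0 : Fin (m + 2 + 1)).succAbove (0 : Fin (m + 2 + 1)).succAbove = gram x := by
    ext i j
    simp [gram]
  rw [this]
  simp

theorem AFrame.adjugate_succ (A : AFrame hr x) (o : Fin (m + 3 + 1) → ℝ) (k : Fin (m + 2)) :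
    (gram (Fin.cons o x : Fin (m + 2 + 1) → Fin (m + 3 + 1) → ℝ)).adjugate 0 k.succ =
      (-1) ^ (k : ℕ) * A.c.det *
      dd A.n1 A.n2 (Fin.cons o (fun l : Fin (m + 1) => x (k.succAbove l)) :
        Fin (m + 2) → Fin (m + 3 + 1) → ℝ) := by
  rw [Matrix.adjugate_fin_succ_eq_det_submatrix]
  have h1 := det_mixed_normals (n := m + 1) A.n1 A.n2
    (Fin.cons o (fun l : Fin (m + 1) => x (k.succAbove l)) : Fin (m + 2) → Fin (m + 3 + 1) → ℝ)
    x A.n11 A.n22 A.n12 A.n1x A.n2x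
  rw [A.dd_normals] at h1
  have h2 : (gram (Fin.cons o x : Fin (m + 2 + 1) → Fin (m + 3 + 1) → ℝ)).submatrix
      (k.succ).succAbove (0 : Fin (m + 2 + 1)).succAbove =
      (Matrix.of fun (i j : Fin (m + 1 + 1)) => lf ((Fin.cons o (fun l : Fin (m + 1) =>
        x (k.succAbove l)) : Fin (m + 2) → Fin (m + 3 + 1) → ℝ) i) (x j)) := by
    ext i j
    rw [Matrix.submatrix_apply, gram, Matrix.of_apply, Matrix.of_apply, Fin.zero_succAbove,
      Fin.cons_succ]
    have := congrFun (cons_succAbove o x k) i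
    rw [this]
  rw [h2, h1, Fin.val_succ, Fin.val_zero]
  ring

/-- The determinant of the Gram matrix and the rotation. -/
theorem AFrame.det_gram_cons (A : AFrame hr x) (o : Fin (m + 3 + 1) → ℝ) :
    (gram (Fin.cons o x : Fin (m + 2 + 1) → Fin (m + 3 + 1) → ℝ)).det =
      A.c.det * dd (A.rot o) o x := by
  have hsymm : (gram (Fin.cons o x : Fin (m + 2 + 1) → Fin (m + 3 + 1) → ℝ))ᵀ =
      gram (Fin.cons o x : Fin (m + 2 + 1) → Fin (m + 3 + 1) → ℝ) := by
    ext i j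
    exact lf_comm _ _
  have hadj : ∀ j, (gram (Fin.cons o x : Fin (m + 2 + 1) → Fin (m + 3 + 1) → ℝ)).adjugate j 0 =
      (gram (Fin.cons o x : Fin (m + 2 + 1) → Fin (m + 3 + 1) → ℝ)).adjugate 0 j := by
    intro j
    have := Matrix.adjugate_transpose (gram (Fin.cons o x : Fin (m + 2 + 1) → Fin (m + 3 + 1) → ℝ))
    rw [hsymm] at this
    have h2 := congrFun (congrFun this 0) j
    rw [Matrix.transpose_apply] at h2
    exact h2
  rw [Matrix.det_eq_sum_mul_adjugate_row _ 0, Fin.sum_univ_succ]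
  simp only [hadj, A.adjugate_zero, A.adjugate_succ]
  have h1 : gram (Fin.cons o x : Fin (m + 2 + 1) → Fin (m + 3 + 1) → ℝ) 0 0 = lf o o := rfl
  have h2 : ∀ k : Fin (m + 2), gram (Fin.cons o x : Fin (m + 2 + 1) → Fin (m + 3 + 1) → ℝ) 0 k.succ =
      lf (x k) o := fun k => lf_comm _ _
  simp only [h1, h2]
  obtain ⟨c1, c2, c3⟩ := A.cramer o
  have h3 : ∑ k : Fin (m + 2), lf (x k) o * ((-1) ^ (k : ℕ) * A.c.det *
      dd A.n1 A.n2 (Fin.cons o (fun l : Fin (m + 1) => x (k.succAbove l)) :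
        Fin (m + 2) → Fin (m + 3 + 1) → ℝ)) = A.c.det * ∑ k : Fin (m + 2), (-1) ^ (k : ℕ) *
      dd A.n1 A.n2 (Fin.cons o (fun l : Fin (m + 1) => x (k.succAbove l)) :
        Fin (m + 2) → Fin (m + 3 + 1) → ℝ) * lf (x k) o := by
    rw [Finset.mul_sum]
    exact Finset.sum_congr rfl fun k _ => by ring
  rw [h3, c3]
  unfold AFrame.rot
  rw [dd_sub_left, dd_smul_left, dd_smul_left]
  ring

end face

end Bellows
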