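import Pool.Agent.Bellows.M8b
import Pool.Agent.Bellows.M4

/-!
# Bellows M8c: the face identity and the cocycle lemma
-/

open MeasureTheory Matrix Topology Filter

namespace Bellows

/-! ### Weighted cocycle identity -/

theorem weighted_cocycle {d n : ℕ} (hn : 2 ≤ n) (p : ℕ) (x : Fin (n + 1) → Fin (d + 1) → ℝ)
    (hx : ∀ i, FC (x i)) (hdep : ¬ LinearIndependent ℝ x) (o : Fin (d + 1) → ℝ) (ho : FT o)
    (β : (Fin (d + 1) → ℝ) [⋀^Fin n]→ₗ[ℝ] ℝ) :
    ∑ j : Fin (n + 1), (-1 : ℝ) ^ (j : ℕ) * β (fun k => x (j.succAbove k)) *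
      ∫ y in orth (n + 1), (y 0) ^ p * Real.exp ((1 / 2) *
        qf (gram (Fin.cons o (fun k => x (j.succAbove k)) : Fin (n + 1) → Fin (d + 1) → ℝ)) y) =
      0 := by
  set h : (Fin (d + 1) → ℝ) → ℝ := fun u => ∫ s in Set.Ioi (0 : ℝ), s ^ p *
    Real.exp ((1 / 2) * lf (s • o + u) (s • o + u)) with hh
  have key : ∀ j : Fin (n + 1), LinearIndependent ℝ (fun k => x (j.succAbove k)) →
      IntegrableOn (fun y : Fin n → ℝ => h (∑ k, y k • x (j.succAbove k))) (orth n) ∧
      ∫ y in orth (n + 1), (y 0) ^ p * Real.exp ((1 / 2) *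
        qf (gram (Fin.cons o (fun k => x (j.succAbove k)) : Fin (n + 1) → Fin (d + 1) → ℝ)) y) =
      ∫ y in orth n, h (∑ k, y k • x (j.succAbove k)) := by
    intro j hj
    set f : ℝ × (Fin n → ℝ) → ℝ := fun q => q.1 ^ p * Real.exp ((1 / 2) *
      lf (q.1 • o + ∑ k, q.2 k • x (j.succAbove k))
        (q.1 • o + ∑ k, q.2 k • x (j.succAbove k))) with hf
    have e1 : (fun y : Fin (n + 1) → ℝ => (y 0) ^ p * Real.exp ((1 / 2) *
        qf (gram (Fin.cons o (fun k => x (j.succAbove k)) : Fin (n + 1) → Fin (d + 1) → ℝ)) y)) =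
        fun y => f (y 0, fun k => y ((0 : Fin (n + 1)).succAbove k)) := by
      funext y
      simp only [hf, qf_gram, Fin.sum_univ_succ, Fin.cons_zero, Fin.cons_succ, Fin.zero_succAbove]
    have hA := gram_cons_adm ho (fun k => hx (j.succAbove k)) hj
    have hint := integrableOn_pow_exp_qf (by omega) hA 0 ho.1 p
    rw [e1, orth_split 0, integrableOn_split] at hint
    constructor
    · have := hint.integral_prod_right
      exact this
    · rw [e1, orth_split 0, integral_split, integral_prod_symm _ hint]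
  rw [← cone_cocycle x hdep (posFun o) (fun i => posFun_pos ho (hx i)) β h fun j hj => (key j hj).1]
  refine Finset.sum_congr rfl fun j _ => ?_
  by_cases hj : LinearIndependent ℝ (fun k => x (j.succAbove k))
  · rw [(key j hj).2]
  · rw [β.map_linearDependent _ hj]
    simp

/-! ### The reversed Cauchy-Schwarz inequality -/

theorem FT.orth_pos {d : ℕ} {x w : Fin (d + 1) → ℝ} (hx : FT x) (h : lf w x = 0) (hw : w ≠ 0) :
    0 < lf w w := by
  have h1 := key_nonneg w x
  rw [h, mul_zero, sub_zero] at h1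
  have hx0 : 0 < x 0 ^ 2 := pow_pos hx.2 2
  have h2 : 0 ≤ ∑ i : Fin d, (x 0 * w i.succ - w 0 * x i.succ) ^ 2 :=
    Finset.sum_nonneg fun i _ => sq_nonneg _
  by_cases h0 : w 0 = 0
  · have h3 : ∃ i : Fin d, w i.succ ≠ 0 := by
      by_contra hc
      push Not at hc
      apply hw
      funext i
      exact Fin.cases h0 (fun i => hc i) i
    obtain ⟨i, hi⟩ := h3
    have h4 : 0 < (x 0 * w i.succ - w 0 * x i.succ) ^ 2 := by
      rw [h0, zero_mul, sub_zero]
      have : x 0 * w i.succ ≠ 0 := mul_ne_zero hx.2.ne' hi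
      positivity
    have h5 : 0 < ∑ i : Fin d, (x 0 * w i.succ - w 0 * x i.succ) ^ 2 :=
      Finset.sum_pos' (fun i _ => sq_nonneg _) ⟨i, Finset.mem_univ _, h4⟩
    rw [← h1, h0] at h5
    by_contra hc
    push Not at hc
    nlinarith
  · have h3 : w 0 ^ 2 * lf x x < 0 := mul_neg_of_pos_of_neg (by positivity) hx.1
    by_contra hc
    push Not at hc
    nlinarith

theorem FC.cs_strict {d : ℕ} {x y : Fin (d + 1) → ℝ} (hx : FC x) (hy : FC y)
    (h : y 0 • x ≠ x 0 • y) : lf x x * lf y y < lf x y ^ 2 := by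
  have h1 : lf x y < 0 := lt_of_le_of_ne (hx.lf_nonpos hy) fun h0 => h (hx.parallel hy h0)
  rcases hx.1.lt_or_eq with hx1 | hx1
  · set w : Fin (d + 1) → ℝ := lf x x • y - lf x y • x with hw
    have h2 : lf w x = 0 := by
      rw [hw, lf_sub_left, lf_smul_left, lf_smul_left, lf_comm y x]
      ring
    have h3 : w ≠ 0 := by
      intro h0
      apply h
      rw [hw, sub_eq_zero] at h0
      have h4 : lf x x * y 0 = lf x y * x 0 := by
        have := congrFun h0 0
        simpa using this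
      funext i
      have h5 : lf x x * y i = lf x y * x i := by
        have := congrFun h0 i
        simpa using this
      simp only [Pi.smul_apply, smul_eq_mul]
      have h6 : lf x y * (y 0 * x i) = lf x y * (x 0 * y i) := by
        linear_combination (- y 0) * h5 + y i * h4
      exact mul_left_cancel₀ h1.ne h6
    have h4 := FT.orth_pos (x := x) ⟨hx1, hx.2⟩ h2 h3
    have h5 : lf w w = lf x x * (lf x x * lf y y - lf x y ^ 2) := by
      conv_lhs => rw [hw, lf_sub_right, lf_smul_right, lf_smul_right, ← hw, h2]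
      rw [hw, lf_sub_left, lf_smul_left, lf_smul_left]
      ring
    rw [h5] at h4
    by_contra hc
    push Not at hc
    nlinarith
  · rw [hx1, zero_mul]
    exact pow_pos (neg_pos.mpr h1) 2 |>.trans_eq (by ring)

/-! ### The identity at a face -/

theorem Jr_succ {m : ℕ} (G : Matrix (Fin (m + 1 + 2)) (Fin (m + 1 + 2)) ℝ) :
    Jr (m := m + 1) G = J G := by
  unfold Jr
  rw [if_neg (Nat.succ_ne_zero m)]

theorem Jr_zero (G : Matrix (Fin (0 + 2)) (Fin (0 + 2)) ℝ) : Jr (m := 0) G = Jreg G := by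
  unfold Jr
  rw [if_pos rfl]
  congr 1
  ext i j
  fin_cases i <;> fin_cases j <;> rfl

section face

variable {m : ℕ} {x : Fin (m + 2) → Fin (m + 3 + 1) → ℝ} {hr : m + 2 ≤ m + 3 + 1}

theorem AFrame.identity_of (A : AFrame hr x) (o : Fin (m + 3 + 1) → ℝ)
    (H : (gram (Fin.cons o x : Fin (m + 2 + 1) → Fin (m + 3 + 1) → ℝ)).det *
      M0 (gram (Fin.cons o x : Fin (m + 2 + 1) → Fin (m + 3 + 1) → ℝ)) =
      - ∑ k : Fin (m + 2 + 1),
        (gram (Fin.cons o x : Fin (m + 2 + 1) → Fin (m + 3 + 1) → ℝ)).adjugate 0 k *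
        Jr (m := m) ((gram (Fin.cons o x : Fin (m + 2 + 1) → Fin (m + 3 + 1) → ℝ)).submatrix
          k.succAbove k.succAbove)) :
    M0 (gram (Fin.cons o x : Fin (m + 2 + 1) → Fin (m + 3 + 1) → ℝ)) * dd (A.rot o) o x =
      A.wt - ∑ k : Fin (m + 2), (-1) ^ (k : ℕ) * Jr (m := m)
        (gram (Fin.cons o (fun l : Fin (m + 1) => x (k.succAbove l)) :
          Fin (m + 2) → Fin (m + 3 + 1) → ℝ)) *
        dd A.n1 A.n2 (Fin.cons o (fun l : Fin (m + 1) => x (k.succAbove l)) :
          Fin (m + 2) → Fin (m + 3 + 1) → ℝ) := by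
  rw [Fin.sum_univ_succ, A.adjugate_zero, A.det_gram_cons] at H
  simp only [A.adjugate_succ] at H
  have e0 : (gram (Fin.cons o x : Fin (m + 2 + 1) → Fin (m + 3 + 1) → ℝ)).submatrix
      (0 : Fin (m + 2 + 1)).succAbove (0 : Fin (m + 2 + 1)).succAbove = gram x := by
    ext i j
    simp [gram]
  have e1 : ∀ k : Fin (m + 2), (gram (Fin.cons o x :
      Fin (m + 2 + 1) → Fin (m + 3 + 1) → ℝ)).submatrix (k.succ).succAbove (k.succ).succAbove =
      gram (Fin.cons o (fun l : Fin (m + 1) => x (k.succAbove l)) :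
          Fin (m + 2) → Fin (m + 3 + 1) → ℝ) := by
    intro k
    ext i j
    have h := fun i => congrFun (cons_succAbove o x k) i
    simp only [Matrix.submatrix_apply, gram, Matrix.of_apply]
    rw [h, h]
  simp only [e0, e1] at H
  have hc := A.cdet.ne'
  unfold AFrame.wt
  apply mul_left_cancel₀ hc
  rw [← mul_assoc, mul_comm A.c.det, mul_assoc (M0 _), mul_comm (M0 _), H, neg_add, mul_sub,
    Finset.mul_sum]
  have h2 : ∀ k : Fin (m + 2), (-1) ^ (k : ℕ) * A.c.det *
      dd A.n1 A.n2 (Fin.cons o (fun l : Fin (m + 1) => x (k.succAbove l)) :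
        Fin (m + 2) → Fin (m + 3 + 1) → ℝ) * Jr (m := m)
        (gram (Fin.cons o (fun l : Fin (m + 1) => x (k.succAbove l)) :
          Fin (m + 2) → Fin (m + 3 + 1) → ℝ)) =
      A.c.det * ((-1) ^ (k : ℕ) * Jr (m := m)
        (gram (Fin.cons o (fun l : Fin (m + 1) => x (k.succAbove l)) :
          Fin (m + 2) → Fin (m + 3 + 1) → ℝ)) *
        dd A.n1 A.n2 (Fin.cons o (fun l : Fin (m + 1) => x (k.succAbove l)) :
          Fin (m + 2) → Fin (m + 3 + 1) → ℝ)) := fun k => by ring
  simp only [h2]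
  ring

end face

theorem AFrame.identity_succ {m : ℕ} {x : Fin (m + 1 + 2) → Fin (m + 1 + 3 + 1) → ℝ}
    {hr : m + 1 + 2 ≤ m + 1 + 3 + 1} (A : AFrame hr x) (hx : ∀ i, FC (x i))
    (hli : LinearIndependent ℝ x) (o : Fin (m + 1 + 3 + 1) → ℝ) (ho : FT o) :
    M0 (gram (Fin.cons o x : Fin (m + 1 + 2 + 1) → Fin (m + 1 + 3 + 1) → ℝ)) * dd (A.rot o) o x =
      A.wt - ∑ k : Fin (m + 1 + 2), (-1) ^ (k : ℕ) * Jr (m := m + 1)
        (gram (Fin.cons o (fun l : Fin (m + 1 + 1) => x (k.succAbove l)) :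
          Fin (m + 1 + 2) → Fin (m + 1 + 3 + 1) → ℝ)) *
        dd A.n1 A.n2 (Fin.cons o (fun l : Fin (m + 1 + 1) => x (k.succAbove l)) :
          Fin (m + 1 + 2) → Fin (m + 1 + 3 + 1) → ℝ) := by
  apply A.identity_of
  simp only [Jr_succ]
  exact M0_eq (by omega) _ (gram_cons_adm ho hx hli) ho.1

theorem jr_scale {t p q r : ℝ} (ht : 0 < t) (hp : p < 0) (h : q < 0) :
    jr (t ^ 2 * p) (t * q) r = jr p q r / t := by
  unfold jr
  have e1 : (t * q) ^ 2 - t ^ 2 * p * r = t ^ 2 * (q ^ 2 - p * r) := by ring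
  have e2 : Real.sqrt (t ^ 2 * (q ^ 2 - p * r)) = t * Real.sqrt (q ^ 2 - p * r) := by
    rw [Real.sqrt_mul (by positivity), Real.sqrt_sq ht.le]
  have hpos : 0 < -q + Real.sqrt (q ^ 2 - p * r) := by
    have := Real.sqrt_nonneg (q ^ 2 - p * r)
    linarith
  have e3 : Real.log (-(t * q) + t * Real.sqrt (q ^ 2 - p * r)) =
      Real.log t + Real.log (-q + Real.sqrt (q ^ 2 - p * r)) := by
    rw [← Real.log_mul ht.ne' hpos.ne']
    congr 1
    ring
  have e4 : Real.log (-(t ^ 2 * p)) = 2 * Real.log t + Real.log (-p) := by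
    rw [show -(t ^ 2 * p) = t ^ 2 * (-p) by ring, Real.log_mul (by positivity) (by linarith),
      Real.log_pow]
    norm_num
  rw [e1, e2, e3, e4, div_div, mul_comm (Real.sqrt _) t]
  congr 1
  ring

theorem jr_comm (p q r : ℝ) : jr p q r = jr r q p := by
  unfold jr
  rw [mul_comm p r]
  ring

theorem AFrame.identity_zero {x : Fin (0 + 2) → Fin (0 + 3 + 1) → ℝ}
    {hr : 0 + 2 ≤ 0 + 3 + 1} (A : AFrame hr x) (hx : ∀ i, FC (x i))
    (hli : LinearIndependent ℝ x) (o : Fin (0 + 3 + 1) → ℝ) (ho : FT o) :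
    M0 (gram (Fin.cons o x : Fin (0 + 2 + 1) → Fin (0 + 3 + 1) → ℝ)) * dd (A.rot o) o x =
      A.wt - ∑ k : Fin (0 + 2), (-1) ^ (k : ℕ) * Jr (m := 0)
        (gram (Fin.cons o (fun l : Fin (0 + 1) => x (k.succAbove l)) :
          Fin (0 + 2) → Fin (0 + 3 + 1) → ℝ)) *
        dd A.n1 A.n2 (Fin.cons o (fun l : Fin (0 + 1) => x (k.succAbove l)) :
          Fin (0 + 2) → Fin (0 + 3 + 1) → ℝ) := by
  apply A.identity_of
  simp only [Jr_zero]
  set G : Matrix (Fin 3) (Fin 3) ℝ :=
    gram (Fin.cons o x : Fin (0 + 2 + 1) → Fin (0 + 3 + 1) → ℝ) with hG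
  have hadm : Adm G := gram_cons_adm ho hx hli
  have hind : ∀ i j : Fin 2, i ≠ j → (x j) 0 • x i ≠ (x i) 0 • x j := by
    intro i j hij h
    have h2 := Fintype.linearIndependent_iff.mp hli
      (fun k => if k = i then x j 0 else if k = j then - x i 0 else 0) ?_ i
    · simp at h2; exact absurd h2 (hx j).2.ne'
    · rw [Finset.sum_eq_add i j hij]
      · simp [hij.symm, h]
      · rintro k _ ⟨h1, h2⟩; simp [h1, h2]
      · simp
      · simp
  by_cases hcase : ∃ j : Fin 2, (x j) 0 • o = o 0 • x j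
  · obtain ⟨j, hj⟩ := hcase
    obtain ⟨t, ht, hot⟩ : ∃ t : ℝ, 0 < t ∧ o = t • x j := by
      refine ⟨o 0 / (x j) 0, div_pos ho.2 (hx j).2, ?_⟩
      funext i
      have h := congrFun hj i
      simp only [Pi.smul_apply, smul_eq_mul] at h ⊢
      have := (hx j).2.ne'
      field_simp
      linarith
    have hdet : G.det = 0 := by
      have h1 : A.rot o = 0 := by
        unfold AFrame.rot
        rw [hot, lf_smul_right, lf_smul_right, A.n1x, A.n2x]
        simp
      have h2 := A.det_gram_cons o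
      rw [h1] at h2
      rw [hG, h2]
      have : dd 0 o x = 0 := by
        have := dd_smul_left 0 0 o x
        simpa using this
      rw [this, mul_zero]
    rw [hdet, zero_mul, rhs_three G hadm.symm]
    have g00 : G 0 0 = lf o o := rfl
    have g01 : G 0 1 = lf o (x 0) := rfl
    have g02 : G 0 2 = lf o (x 1) := rfl
    have g11 : G 1 1 = lf (x 0) (x 0) := rfl
    have g12 : G 1 2 = lf (x 0) (x 1) := rfl
    have g22 : G 2 2 = lf (x 1) (x 1) := rfl
    have hz : G 1 2 < 0 := hadm.off 1 2 (by decide)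
    have hxj : lf (x j) (x j) < 0 := by
      have h3 := ho.1
      rw [hot, lf_smul_left, lf_smul_right] at h3
      by_contra hc
      push Not at hc
      have := mul_nonneg ht.le (mul_nonneg ht.le hc)
      linarith
    rw [g12] at hz
    rw [g00, g01, g02, g11, g12, g22]
    fin_cases j
    · simp only [Fin.zero_eta] at hot hxj
      have hot' : o = t • x 0 := hot
      have hxj' : lf (x 0) (x 0) < 0 := hxj
      rw [hot']
      simp only [lf_smul_left, lf_smul_right]
      have h4 := jr_scale (r := lf (x 1) (x 1)) ht hxj' hz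
      rw [show t * (t * lf (x 0) (x 0)) = t ^ 2 * lf (x 0) (x 0) by ring, h4]
      field_simp
      ring
    · have hot' : o = t • x 1 := hot
      have hxj' : lf (x 1) (x 1) < 0 := hxj
      rw [hot']
      simp only [lf_smul_left, lf_smul_right]
      have h4 := jr_scale (r := lf (x 0) (x 0)) ht hxj' hz
      rw [show t * (t * lf (x 1) (x 1)) = t ^ 2 * lf (x 1) (x 1) by ring, lf_comm (x 1) (x 0), h4,
        jr_comm (lf (x 1) (x 1)) _ (lf (x 0) (x 0))]
      field_simp
      ring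
  · push Not at hcase
    refine M0_eq_three G hadm ho.1 ?_
    intro i j
    refine Fin.cases ?_ (fun i => ?_) i
    · refine Fin.cases ?_ (fun j => ?_) j
      · intro h; exact absurd rfl h
      · intro _; exact ho.fc.cs_strict (hx j) (hcase j)
    · refine Fin.cases ?_ (fun j => ?_) j
      · intro _
        have h5 := ho.fc.cs_strict (hx i) (hcase i)
        have e1 : G i.succ 0 = lf (x i) o := rfl
        have e2 : G i.succ i.succ = lf (x i) (x i) := rfl
        have e3 : G 0 0 = lf o o := rfl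
        rw [e1, e2, e3, lf_comm (x i) o, mul_comm]
        exact h5
      · intro h
        exact (hx i).cs_strict (hx j) (hind i j fun h' => h (by rw [h']))

/-- The identity at a face. -/
theorem AFrame.identity {m : ℕ} {x : Fin (m + 2) → Fin (m + 3 + 1) → ℝ}
    {hr : m + 2 ≤ m + 3 + 1} (A : AFrame hr x) (hx : ∀ i, FC (x i))
    (hli : LinearIndependent ℝ x) (o : Fin (m + 3 + 1) → ℝ) (ho : FT o) :
    M0 (gram (Fin.cons o x : Fin (m + 2 + 1) → Fin (m + 3 + 1) → ℝ)) * dd (A.rot o) o x =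
      A.wt - ∑ k : Fin (m + 2), (-1) ^ (k : ℕ) * Jr (m := m)
        (gram (Fin.cons o (fun l : Fin (m + 1) => x (k.succAbove l)) :
          Fin (m + 2) → Fin (m + 3 + 1) → ℝ)) *
        dd A.n1 A.n2 (Fin.cons o (fun l : Fin (m + 1) => x (k.succAbove l)) :
          Fin (m + 2) → Fin (m + 3 + 1) → ℝ) := by
  cases m with
  | zero => exact A.identity_zero hx hli o ho
  | succ m => exact A.identity_succ hx hli o ho

end Bellows
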