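import Pool.Agent.Bellows.M8c

/-!
# Bellows M8d: Schläfli's formula, one facet
-/

open MeasureTheory Matrix Topology Filter

namespace Bellows

/-! ### The trace form -/

section lam

variable {m : ℕ}

/-- The alternating form `Λ(Z) = ½ ∑ ± det(e, Z e, o, …)`. -/
noncomputable def LamA (Z : (Fin (m + 3 + 1) → ℝ) → (Fin (m + 3 + 1) → ℝ))
    (o : Fin (m + 3 + 1) → ℝ) : (Fin (m + 3 + 1) → ℝ) [⋀^Fin (m + 1)]→ₗ[ℝ] ℝ :=
  (1 / 2 : ℝ) • ∑ μ : Fin (m + 3 + 1), sgn ℝ μ •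
    (((Matrix.detRowAlternating (n := Fin (m + 3 + 1)) (R := ℝ)).curryLeft
      (Pi.single μ 1)).curryLeft (Z (Pi.single μ 1))).curryLeft o

theorem alt_sum_apply {ι M : Type*} [AddCommGroup M] [Module ℝ M] {n : ℕ} (s : Finset ι)
    (f : ι → M [⋀^Fin n]→ₗ[ℝ] ℝ) (v : Fin n → M) : (∑ i ∈ s, f i) v = ∑ i ∈ s, f i v := by
  classical
  induction s using Finset.induction_on with
  | empty => simp
  | insert a s ha ih => rw [Finset.sum_insert ha, Finset.sum_insert ha,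
      AlternatingMap.add_apply, ih]

theorem LamA_apply (Z : (Fin (m + 3 + 1) → ℝ) → (Fin (m + 3 + 1) → ℝ))
    (o : Fin (m + 3 + 1) → ℝ) (H : Fin (m + 1) → Fin (m + 3 + 1) → ℝ) :
    LamA Z o H = (1 / 2) * ∑ μ : Fin (m + 3 + 1), sgn ℝ μ *
      dd (n := m + 2) (Pi.single μ 1) (Z (Pi.single μ 1)) (Fin.cons o H) := by
  unfold LamA
  rw [AlternatingMap.smul_apply, alt_sum_apply, smul_eq_mul]
  rfl

theorem LamA_sub (Z W V : (Fin (m + 3 + 1) → ℝ) → (Fin (m + 3 + 1) → ℝ)) (c : ℝ)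
    (h : ∀ y, Z y - W y = c • V y)
    (o : Fin (m + 3 + 1) → ℝ) (H : Fin (m + 1) → Fin (m + 3 + 1) → ℝ) :
    LamA Z o H - LamA W o H = c * LamA V o H := by
  rw [LamA_apply, LamA_apply, LamA_apply, ← mul_sub, ← Finset.sum_sub_distrib]
  have h1 : ∀ μ : Fin (m + 3 + 1), sgn ℝ μ *
      dd (n := m + 2) (Pi.single μ 1) (Z (Pi.single μ 1)) (Fin.cons o H) -
      sgn ℝ μ * dd (n := m + 2) (Pi.single μ 1) (W (Pi.single μ 1)) (Fin.cons o H) =
      c * (sgn ℝ μ * dd (n := m + 2) (Pi.single μ 1) (V (Pi.single μ 1)) (Fin.cons o H)) := by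
    intro μ
    have h2 : Z (Pi.single μ 1) = W (Pi.single μ 1) + c • V (Pi.single μ 1) := by
      rw [← h]
      abel
    rw [h2, dd_add_right, dd_smul_right]
    ring
  rw [Finset.sum_congr rfl fun μ _ => h1 μ, ← Finset.mul_sum]
  ring

theorem sum_sgn_single (n : Fin (m + 3 + 1) → ℝ) :
    ∑ μ : Fin (m + 3 + 1), (sgn ℝ μ * lf n (Pi.single μ 1)) • (Pi.single μ 1 :
      Fin (m + 3 + 1) → ℝ) = n := by
  have h1 : ∀ μ : Fin (m + 3 + 1), sgn ℝ μ * lf n (Pi.single μ 1) = n μ := by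
    intro μ
    rw [lf_comm, lf_single_left]
    unfold sgn
    split_ifs <;> ring
  simp only [h1]
  funext i
  rw [Finset.sum_apply, Finset.sum_eq_single i]
  · simp
  · intro j _ hj
    simp [hj.symm]
  · simp

theorem LamA_rot {x : Fin (m + 2) → Fin (m + 3 + 1) → ℝ} {hr : m + 2 ≤ m + 3 + 1}
    (A : AFrame hr x) (o : Fin (m + 3 + 1) → ℝ) (H : Fin (m + 1) → Fin (m + 3 + 1) → ℝ) :
    LamA A.rot o H = dd (n := m + 2) A.n1 A.n2 (Fin.cons o H) := by
  rw [LamA_apply]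
  have h1 : ∀ μ : Fin (m + 3 + 1), sgn ℝ μ *
      dd (n := m + 2) (Pi.single μ 1) (A.rot (Pi.single μ 1)) (Fin.cons o H) =
      dd (n := m + 2) ((sgn ℝ μ * lf A.n1 (Pi.single μ 1)) • Pi.single μ 1) A.n2 (Fin.cons o H) -
      dd (n := m + 2) ((sgn ℝ μ * lf A.n2 (Pi.single μ 1)) • Pi.single μ 1) A.n1
        (Fin.cons o H) := by
    intro μ
    have h2 : A.rot (Pi.single μ 1) = lf A.n1 (Pi.single μ 1) • A.n2 +
        (- lf A.n2 (Pi.single μ 1)) • A.n1 := by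
      unfold AFrame.rot
      rw [neg_smul, sub_eq_add_neg]
    rw [h2, dd_add_right, dd_smul_right, dd_smul_right, dd_smul_left, dd_smul_left]
    ring
  rw [Finset.sum_congr rfl fun μ _ => h1 μ, Finset.sum_sub_distrib, ← dd_sum_left, ← dd_sum_left,
    sum_sgn_single, sum_sgn_single, dd_swap A.n2 A.n1]
  ring

end lam

/-! ### The local term -/

/-- The term of a face of a facet. -/
noncomputable def TT {m : ℕ} (Z : (Fin (m + 3 + 1) → ℝ) → (Fin (m + 3 + 1) → ℝ))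
    (o : Fin (m + 3 + 1) → ℝ) (X : Fin (m + 2) → Fin (m + 3 + 1) → ℝ) : ℝ :=
  M0 (gram (Fin.cons o X : Fin (m + 2 + 1) → Fin (m + 3 + 1) → ℝ)) * dd (Z o) o X +
    ∑ k : Fin (m + 2), (-1) ^ (k : ℕ) * (Jr (m := m)
      (gram (Fin.cons o (fun l : Fin (m + 1) => X (k.succAbove l)) :
        Fin (m + 2) → Fin (m + 3 + 1) → ℝ)) * LamA Z o (fun l : Fin (m + 1) => X (k.succAbove l)))

theorem TT_sub {m : ℕ} (Z W V : (Fin (m + 3 + 1) → ℝ) → (Fin (m + 3 + 1) → ℝ)) (c : ℝ)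
    (h : ∀ y, Z y - W y = c • V y)
    (o : Fin (m + 3 + 1) → ℝ) (X : Fin (m + 2) → Fin (m + 3 + 1) → ℝ) :
    TT Z o X - TT W o X = c * TT V o X := by
  unfold TT
  have h2 : Z o = W o + c • V o := by
    rw [← h]
    abel
  rw [h2, dd_add_left, dd_smul_left, mul_add c, Finset.mul_sum]
  have h3 : ∀ k : Fin (m + 2), c * ((-1) ^ (k : ℕ) * (Jr (m := m)
      (gram (Fin.cons o (fun l : Fin (m + 1) => X (k.succAbove l)) :
        Fin (m + 2) → Fin (m + 3 + 1) → ℝ)) * LamA V o (fun l : Fin (m + 1) => X (k.succAbove l)))) =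
      (-1) ^ (k : ℕ) * (Jr (m := m)
      (gram (Fin.cons o (fun l : Fin (m + 1) => X (k.succAbove l)) :
        Fin (m + 2) → Fin (m + 3 + 1) → ℝ)) * LamA Z o (fun l : Fin (m + 1) => X (k.succAbove l))) -
      (-1) ^ (k : ℕ) * (Jr (m := m)
      (gram (Fin.cons o (fun l : Fin (m + 1) => X (k.succAbove l)) :
        Fin (m + 2) → Fin (m + 3 + 1) → ℝ)) * LamA W o (fun l : Fin (m + 1) => X (k.succAbove l))) := by
    intro k
    have := LamA_sub Z W V c h o (fun l : Fin (m + 1) => X (k.succAbove l))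
    rw [← mul_sub, ← mul_sub, this]
    ring
  rw [Finset.sum_congr rfl fun k _ => h3 k, Finset.sum_sub_distrib]
  ring

theorem TT_rot {m : ℕ} {x : Fin (m + 2) → Fin (m + 3 + 1) → ℝ}
    {hr : m + 2 ≤ m + 3 + 1} (A : AFrame hr x) (hx : ∀ i, FC (x i))
    (hli : LinearIndependent ℝ x) (o : Fin (m + 3 + 1) → ℝ) (ho : FT o) :
    TT A.rot o x = A.wt := by
  unfold TT
  rw [A.identity hx hli o ho]
  simp only [LamA_rot]
  have : ∀ k : Fin (m + 2), (-1 : ℝ) ^ (k : ℕ) * (Jr (m := m)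
      (gram (Fin.cons o (fun l : Fin (m + 1) => x (k.succAbove l)) :
        Fin (m + 2) → Fin (m + 3 + 1) → ℝ)) * dd (n := m + 2) A.n1 A.n2
        (Fin.cons o (fun l : Fin (m + 1) => x (k.succAbove l)))) =
      (-1) ^ (k : ℕ) * Jr (m := m)
      (gram (Fin.cons o (fun l : Fin (m + 1) => x (k.succAbove l)) :
        Fin (m + 2) → Fin (m + 3 + 1) → ℝ)) * dd (n := m + 2) A.n1 A.n2
        (Fin.cons o (fun l : Fin (m + 1) => x (k.succAbove l))) := fun k => by ring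
  simp only [this]
  ring

/-! ### The derivative at one facet -/

theorem gram_mulVec {r d : ℕ} {g : Matrix (Fin (d + 1)) (Fin (d + 1)) ℝ} (hg : IsLor g)
    (x : Fin r → Fin (d + 1) → ℝ) : gram (fun i => g.mulVec (x i)) = gram x := by
  ext i j
  exact hg _ _

theorem cons_mulVec {r d : ℕ} (g : Matrix (Fin (d + 1)) (Fin (d + 1)) ℝ)
    (z : Fin (d + 1) → ℝ) (x : Fin r → Fin (d + 1) → ℝ) :
    (Fin.cons (g.mulVec z) (fun i => g.mulVec (x i)) : Fin (r + 1) → Fin (d + 1) → ℝ) =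
      fun i => g.mulVec ((Fin.cons z x : Fin (r + 1) → Fin (d + 1) → ℝ) i) := by
  funext i
  refine Fin.cases ?_ (fun i => ?_) i
  · rfl
  · rfl

theorem hasDerivAt_lin {a b : ℕ} {E : Type*} [NormedAddCommGroup E] [NormedSpace ℝ E]
    (φ : Matrix (Fin a) (Fin b) ℝ →ₗ[ℝ] E) {g : ℝ → Matrix (Fin a) (Fin b) ℝ}
    {g' : Matrix (Fin a) (Fin b) ℝ} {t : ℝ} (h : HasDerivAt g g' t) :
    HasDerivAt (fun t => φ (g t)) (φ g') t := by
  have h2 : HasDerivAt (F := Fin a → Fin b → ℝ) g g' t := h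
  exact ((LinearMap.toContinuousLinearMap
    (show (Fin a → Fin b → ℝ) →ₗ[ℝ] E from φ)).hasFDerivAt.comp_hasDerivAt t h2)

theorem hasDerivAt_mulVec {a b : ℕ} {g : ℝ → Matrix (Fin a) (Fin b) ℝ}
    {g' : Matrix (Fin a) (Fin b) ℝ} {t : ℝ} (h : HasDerivAt g g' t) (y : Fin b → ℝ) :
    HasDerivAt (fun t => (g t).mulVec y) (g'.mulVec y) t := by
  have := hasDerivAt_lin
    { toFun := fun M => M.mulVec y
      map_add' := fun M N => Matrix.add_mulVec M N y
      map_smul' := fun c M => Matrix.smul_mulVec c M y : Matrix (Fin a) (Fin b) ℝ →ₗ[ℝ] _ } h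
  exact this

/-- The moving base point. -/
theorem hasDerivAt_inv {d : ℕ} (o : Fin (d + 1) → ℝ)
    {g : ℝ → Matrix (Fin (d + 1)) (Fin (d + 1)) ℝ} {g' : Matrix (Fin (d + 1)) (Fin (d + 1)) ℝ}
    (hg' : HasDerivAt g g' 0) (hg : ∀ᶠ t in 𝓝 (0 : ℝ), IsLor (g t)) :
    ∃ z' : Fin (d + 1) → ℝ, HasDerivAt (fun t => (g t)⁻¹.mulVec o) z' 0 ∧
      (g 0).mulVec z' = - g'.mulVec ((g 0)⁻¹.mulVec o) := by
  have h1 := hasDerivAt_lin
    { toFun := fun M => (eta ℝ d * Mᵀ * eta ℝ d).mulVec o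
      map_add' := fun M N => by
        rw [Matrix.transpose_add, Matrix.mul_add, Matrix.add_mul, Matrix.add_mulVec]
      map_smul' := fun c M => by
        rw [Matrix.transpose_smul, Matrix.mul_smul, Matrix.smul_mul, Matrix.smul_mulVec]
        rfl : Matrix (Fin (d + 1)) (Fin (d + 1)) ℝ →ₗ[ℝ] _ } hg'
  have h2 : HasDerivAt (fun t => (g t)⁻¹.mulVec o) ((eta ℝ d * g'ᵀ * eta ℝ d).mulVec o) 0 := by
    refine HasDerivAt.congr_of_eventuallyEq h1 ?_
    filter_upwards [hg] with t ht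
    rw [ht.inv_eq]
    rfl
  refine ⟨_, h2, ?_⟩
  have h3 : ∀ i, HasDerivAt (fun t => (g t).mulVec ((g t)⁻¹.mulVec o) i)
      (∑ j, (g' i j * ((g 0)⁻¹.mulVec o) j +
        g 0 i j * ((eta ℝ d * g'ᵀ * eta ℝ d).mulVec o) j)) 0 := by
    intro i
    have h4 : ∀ j, HasDerivAt (fun t => g t i j) (g' i j) 0 := by
      intro j
      have h5 : HasDerivAt (F := Fin (d + 1) → Fin (d + 1) → ℝ) g g' 0 := hg'
      exact hasDerivAt_pi.mp (hasDerivAt_pi.mp h5 i) j
    have h5 := hasDerivAt_pi.mp h2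
    have h6 := HasDerivAt.fun_sum (u := Finset.univ) fun j (_ : j ∈ Finset.univ) =>
      (h4 j).mul (h5 j)
    exact h6
  funext i
  have h6 : HasDerivAt (fun t => (g t).mulVec ((g t)⁻¹.mulVec o) i) 0 0 := by
    refine HasDerivAt.congr_of_eventuallyEq (hasDerivAt_const (0 : ℝ) (o i)) ?_
    filter_upwards [hg] with t ht
    rw [ht.mulVec_inv]
  have h7 := (h3 i).unique h6
  rw [Finset.sum_add_distrib] at h7
  change ∑ j, g 0 i j * ((eta ℝ d * g'ᵀ * eta ℝ d).mulVec o) j =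
    - ∑ j, g' i j * ((g 0)⁻¹.mulVec o) j
  linarith

/-- The derivative at one facet. -/
theorem facet_deriv {m : ℕ} (x : Fin (m + 3) → Fin (m + 4) → ℝ) (hx : ∀ i, FC (x i))
    (o : Fin (m + 4) → ℝ) (ho : FT o) {g : ℝ → Matrix (Fin (m + 4)) (Fin (m + 4)) ℝ}
    {g' : Matrix (Fin (m + 4)) (Fin (m + 4)) ℝ} (hg' : HasDerivAt g g' 0)
    (hg : ∀ᶠ t in 𝓝 (0 : ℝ), IsLor (g t) ∧ (g t).det = 1 ∧ 0 < g t 0 0) :
    HasDerivAt (fun t => S (d := m + 3) (Fin.cons ((g t)⁻¹.mulVec o) x))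
      (- ∑ j : Fin (m + 3), (-1) ^ (j : ℕ) *
        (M0 (gram (Fin.cons o (fun k : Fin (m + 2) => (g 0).mulVec (x (j.succAbove k))) :
          Fin (m + 2 + 1) → Fin (m + 3 + 1) → ℝ)) *
        dd (g'.mulVec ((g 0)⁻¹.mulVec o)) o
          (fun k : Fin (m + 2) => (g 0).mulVec (x (j.succAbove k))))) 0 := by
  obtain ⟨hl0, hd0, hf0⟩ := hg.self_of_nhds
  have hinv : ∀ u : Fin (m + 4) → ℝ, (g 0).mulVec ((g 0)⁻¹.mulVec u) = u := hl0.mulVec_inv
  by_cases hli : LinearIndependent ℝ x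
  · obtain ⟨z', hz', hgz⟩ := hasDerivAt_inv o hg' (hg.mono fun t ht => ht.1)
    have hz0 : FT ((g 0)⁻¹.mulVec o) := by
      apply hl0.inv.ft _ ho
      apply hl0.inv.fut_of_ft (x := (g 0).mulVec o) ((hl0.ft hf0 ho).fc)
      rw [hl0.inv_mulVec]
      exact ho.fc
    obtain ⟨L, hL, hLw⟩ := hasFDerivAt_S x hli hx ((g 0)⁻¹.mulVec o) hz0
    have h1 := hL.comp_hasDerivAt 0 hz'
    have h2 : L z' = - ∑ j : Fin (m + 3), (-1) ^ (j : ℕ) *
        (M0 (gram (Fin.cons o (fun k : Fin (m + 2) => (g 0).mulVec (x (j.succAbove k))) :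
          Fin (m + 2 + 1) → Fin (m + 3 + 1) → ℝ)) *
        dd (g'.mulVec ((g 0)⁻¹.mulVec o)) o
          (fun k : Fin (m + 2) => (g 0).mulVec (x (j.succAbove k)))) := by
      rw [hLw, ← Finset.sum_neg_distrib]
      refine Finset.sum_congr rfl fun j _ => ?_
      have e1 : gram (r := m + 3) (d := m + 3) (Fin.cons ((g 0)⁻¹.mulVec o)
          (fun k => x (j.succAbove k))) =
          gram (Fin.cons o (fun k : Fin (m + 2) => (g 0).mulVec (x (j.succAbove k))) :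
          Fin (m + 2 + 1) → Fin (m + 3 + 1) → ℝ) := by
        rw [← gram_mulVec hl0, ← cons_mulVec, hinv]
      have e2 : (Matrix.of (Fin.cons z' (Fin.cons ((g 0)⁻¹.mulVec o)
          (fun k : Fin (m + 2) => x (j.succAbove k)) :
          Fin (m + 3) → Fin (m + 4) → ℝ) : Fin (m + 4) → Fin (m + 4) → ℝ)).det =
          - dd (g'.mulVec ((g 0)⁻¹.mulVec o)) o
          (fun k : Fin (m + 2) => (g 0).mulVec (x (j.succAbove k))) := by
        have h3 := dd_mulVec (g 0) z' ((g 0)⁻¹.mulVec o) (fun k : Fin (m + 2) =>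
          x (j.succAbove k))
        rw [hd0, one_mul, hinv, hgz, dd_neg_left] at h3
        rw [h3]
        rfl
      rw [e1, e2]
      ring
    rw [h2] at h1
    exact h1
  · have h1 : ∀ z : Fin (m + 4) → ℝ, S (d := m + 3) (Fin.cons z x) = 0 := by
      intro z
      unfold S
      have h2 : (Matrix.of (Fin.cons z x : Fin (m + 4) → Fin (m + 4) → ℝ)).det = 0 := by
        have := (Matrix.detRowAlternating (n := Fin (m + 4)) (R := ℝ)).map_linearDependent
          (Fin.cons z x : Fin (m + 4) → Fin (m + 4) → ℝ) (fun h => hli (by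
            have h3 := h.comp Fin.succ (Fin.succ_injective _)
            exact h3))
        exact this
      rw [h2, zero_mul]
    simp only [h1]
    have h2 : ∑ j : Fin (m + 3), (-1 : ℝ) ^ (j : ℕ) *
        (M0 (gram (Fin.cons o (fun k : Fin (m + 2) => (g 0).mulVec (x (j.succAbove k))) :
          Fin (m + 2 + 1) → Fin (m + 3 + 1) → ℝ)) *
        dd (g'.mulVec ((g 0)⁻¹.mulVec o)) o
          (fun k : Fin (m + 2) => (g 0).mulVec (x (j.succAbove k)))) = 0 := by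
      have h3 := weighted_cocycle (d := m + 3) (n := m + 2) (by omega) 1
        (fun i => (g 0).mulVec (x i)) (fun i => hl0.fc hf0 (hx i))
        (fun h => hli (LinearIndependent.of_comp (Matrix.mulVecLin (g 0)) h)) o ho
        (((Matrix.detRowAlternating (n := Fin (m + 3 + 1)) (R := ℝ)).curryLeft
          (g'.mulVec ((g 0)⁻¹.mulVec o))).curryLeft o)
      refine Eq.trans ?_ h3
      refine Finset.sum_congr rfl fun j _ => ?_
      rw [dd_eq_curry, mul_assoc, mul_comm (M0 _)]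
      congr 2
      unfold M0
      simp only [pow_one]
    rw [h2, neg_zero]
    exact hasDerivAt_const _ _

/-! ### Degenerate faces -/

theorem degenerate_zero (x : Fin (0 + 2) → Fin (0 + 3 + 1) → ℝ) (hx : ∀ i, FC (x i))
    (hpar : ∀ i j, (x j) 0 • x i = (x i) 0 • x j → x i = x j)
    (hli : ¬ LinearIndependent ℝ x) (f : (Fin (0 + 1) → Fin (0 + 3 + 1) → ℝ) → ℝ) :
    ∑ k : Fin (0 + 2), (-1) ^ (k : ℕ) * f (fun l : Fin (0 + 1) => x (k.succAbove l)) = 0 := by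
  have h1 : x 0 = x 1 := by
    apply hpar
    rw [show LinearIndependent ℝ x ↔ x 1 ≠ 0 ∧ ∀ a : ℝ, a • x 1 ≠ x 0 from
      linearIndependent_fin2] at hli
    push Not at hli
    obtain ⟨a, ha⟩ := hli (fun h => by
      have := (hx 1).2
      rw [h] at this
      simp at this)
    rw [← ha, Pi.smul_apply, smul_eq_mul, smul_smul, mul_comm]
  have h2 : ∀ k : Fin (0 + 2), (fun l : Fin (0 + 1) => x (k.succAbove l)) = fun _ => x 0 := by
    intro k
    funext l
    have h3 : ∀ i : Fin (0 + 2), i = 0 ∨ i = 1 := by decide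
    rcases h3 (k.succAbove l) with h | h
    · rw [h]
    · rw [h, ← h1]
  simp only [h2]
  rw [Fin.sum_univ_two]
  simp

theorem degenerate_face {m : ℕ} (x : Fin (m + 2) → Fin (m + 3 + 1) → ℝ) (hx : ∀ i, FC (x i))
    (hpar : ∀ i j, (x j) 0 • x i = (x i) 0 • x j → x i = x j)
    (hli : ¬ LinearIndependent ℝ x) (o : Fin (m + 3 + 1) → ℝ) (ho : FT o)
    (β : (Fin (m + 3 + 1) → ℝ) [⋀^Fin (m + 1)]→ₗ[ℝ] ℝ) :
    ∑ k : Fin (m + 2), (-1) ^ (k : ℕ) * (Jr (m := m)
      (gram (Fin.cons o (fun l : Fin (m + 1) => x (k.succAbove l)) :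
        Fin (m + 2) → Fin (m + 3 + 1) → ℝ)) * β (fun l : Fin (m + 1) => x (k.succAbove l))) =
      0 := by
  cases m with
  | zero =>
    exact degenerate_zero x hx hpar hli (fun y => Jr (m := 0)
      (gram (Fin.cons o y : Fin (0 + 2) → Fin (0 + 3 + 1) → ℝ)) * β y)
  | succ m =>
    have h := weighted_cocycle (d := m + 1 + 3) (n := m + 1 + 1) (by omega) 0 x hx hli o ho β
    refine Eq.trans ?_ h
    refine Finset.sum_congr rfl fun k _ => ?_
    rw [Jr_succ, mul_assoc, mul_comm (J _)]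
    congr 2
    unfold J
    simp only [pow_zero, one_mul]

/-- The sum over the faces of one facet. -/
theorem facet_sum {m N : ℕ} (X : Fin N → Fin (m + 4) → ℝ) (hX : ∀ v, FC (X v))
    (hpar : ∀ v w, (X w) 0 • X v = (X v) 0 • X w → X v = X w)
    (o : Fin (m + 4) → ℝ) (ho : FT o) (Z : (Fin (m + 3 + 1) → ℝ) → (Fin (m + 3 + 1) → ℝ))
    (a : Fin (m + 3) ↪o Fin N)
    [∀ j : Fin (m + 3), Decidable (LinearIndependent ℝ (fun k => X (face a j k)))] :
    ∑ j : Fin (m + 3), (-1) ^ (j : ℕ) *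
        (M0 (gram (Fin.cons o (fun k : Fin (m + 2) => X (face a j k)) :
          Fin (m + 2 + 1) → Fin (m + 3 + 1) → ℝ)) *
        dd (Z o) o (fun k : Fin (m + 2) => X (face a j k))) =
    ∑ j : Fin (m + 3), (-1) ^ (j : ℕ) *
      (if LinearIndependent ℝ (fun k => X (face a j k)) then
        TT Z o (fun k => X (face a j k)) else 0) := by
  set Ψ : (Fin (m + 1) ↪o Fin N) → ℝ := fun H => Jr (m := m)
      (gram (Fin.cons o (fun l : Fin (m + 1) => X (H l)) :
        Fin (m + 2) → Fin (m + 3 + 1) → ℝ)) * LamA Z o (fun l : Fin (m + 1) => X (H l)) with hΨ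
  have h1 : ∀ j : Fin (m + 3), (-1 : ℝ) ^ (j : ℕ) *
        (M0 (gram (Fin.cons o (fun k : Fin (m + 2) => X (face a j k)) :
          Fin (m + 2 + 1) → Fin (m + 3 + 1) → ℝ)) *
        dd (Z o) o (fun k : Fin (m + 2) => X (face a j k))) =
      (-1) ^ (j : ℕ) * (if LinearIndependent ℝ (fun k => X (face a j k)) then
        TT Z o (fun k => X (face a j k)) else 0) -
      ∑ k : Fin (m + 2), (-1) ^ (j : ℕ) * (-1) ^ (k : ℕ) * Ψ (face (face a j) k) := by
    intro j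
    have h2 : ∑ k : Fin (m + 2), (-1 : ℝ) ^ (j : ℕ) * (-1) ^ (k : ℕ) * Ψ (face (face a j) k) =
        (-1) ^ (j : ℕ) * ∑ k : Fin (m + 2), (-1) ^ (k : ℕ) * (Jr (m := m)
      (gram (Fin.cons o (fun l : Fin (m + 1) => (fun k => X (face a j k)) (k.succAbove l)) :
        Fin (m + 2) → Fin (m + 3 + 1) → ℝ)) * LamA Z o
          (fun l : Fin (m + 1) => (fun k => X (face a j k)) (k.succAbove l))) := by
      rw [Finset.mul_sum]
      refine Finset.sum_congr rfl fun k _ => ?_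
      rw [mul_assoc]
      rfl
    rw [h2, ← mul_sub]
    congr 1
    split_ifs with hli
    · unfold TT
      ring
    · rw [degenerate_face (fun k => X (face a j k)) (fun i => hX _) (fun i k => hpar _ _) hli o ho,
        dd_eq_curry, AlternatingMap.map_linearDependent _ _ hli]
      ring
  rw [Finset.sum_congr rfl fun j _ => h1 j, Finset.sum_sub_distrib, double_boundary, sub_zero]

end Bellows
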