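import Pool.Agent.Bellows.Tree

/-!
# Orientation of frames
-/

namespace Bellows

open Matrix DOrd

section phi

variable {R : Type*} [CommRing R] {n : ℕ}

/-- The determinant as a function of the last two rows. -/
def Phi (e : Fin n → Fin (n + 2) → R) (x y : Fin (n + 2) → R) : R :=
  (Matrix.of (Fin.snoc (Fin.snoc e x : Fin (n + 1) → Fin (n + 2) → R) y :
    Fin (n + 2) → Fin (n + 2) → R)).det

theorem Phi_right (e : Fin n → Fin (n + 2) → R) (x y : Fin (n + 2) → R) :
    Phi e x y = (updateRow (Matrix.of (Fin.snoc (Fin.snoc e x : Fin (n + 1) → Fin (n + 2) → R) 0 :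
    Fin (n + 2) → Fin (n + 2) → R)) (Fin.last _) y).det := by
  unfold Phi
  congr 1
  ext i j
  refine Fin.lastCases ?_ (fun i => ?_) i
  · simp
  · rw [updateRow_ne (Fin.castSucc_lt_last i).ne]; simp

theorem Phi_left (e : Fin n → Fin (n + 2) → R) (x y : Fin (n + 2) → R) :
    Phi e x y = (updateRow (Matrix.of (Fin.snoc (Fin.snoc e 0 : Fin (n + 1) → Fin (n + 2) → R) y :
    Fin (n + 2) → Fin (n + 2) → R)) (Fin.castSucc (Fin.last _)) x).det := by
  unfold Phi
  congr 1
  ext i j
  refine Fin.lastCases ?_ (fun i => ?_) i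
  · rw [updateRow_ne (Fin.castSucc_lt_last _).ne']; simp
  · refine Fin.lastCases ?_ (fun i => ?_) i
    · simp
    · rw [updateRow_ne (fun h => (Fin.castSucc_lt_last i).ne (Fin.castSucc_injective _ h))]; simp

theorem Phi_add_right (e : Fin n → Fin (n + 2) → R) (x y z : Fin (n + 2) → R) :
    Phi e x (y + z) = Phi e x y + Phi e x z := by
  simp only [Phi_right, det_updateRow_add]

theorem Phi_add_left (e : Fin n → Fin (n + 2) → R) (x y z : Fin (n + 2) → R) :
    Phi e (x + y) z = Phi e x z + Phi e y z := by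
  simp only [Phi_left, det_updateRow_add]

theorem Phi_smul_right (e : Fin n → Fin (n + 2) → R) (c : R) (x y : Fin (n + 2) → R) :
    Phi e x (c • y) = c * Phi e x y := by
  simp only [Phi_right, det_updateRow_smul]

theorem Phi_smul_left (e : Fin n → Fin (n + 2) → R) (c : R) (x y : Fin (n + 2) → R) :
    Phi e (c • x) y = c * Phi e x y := by
  simp only [Phi_left, det_updateRow_smul]

theorem Phi_self (e : Fin n → Fin (n + 2) → R) (x : Fin (n + 2) → R) : Phi e x x = 0 := by
  unfold Phi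
  refine Matrix.det_zero_of_row_eq (i := Fin.castSucc (Fin.last _)) (j := Fin.last _)
    (Fin.castSucc_lt_last _).ne ?_
  funext j
  simp

theorem Phi_swap (e : Fin n → Fin (n + 2) → R) (x y : Fin (n + 2) → R) :
    Phi e y x = - Phi e x y := by
  have h := Phi_self e (x + y)
  rw [Phi_add_left, Phi_add_right, Phi_add_right, Phi_self, Phi_self] at h
  linear_combination h

end phi

/-- A determinant with a last column which vanishes except for its last entry. -/
theorem det_last_column {R : Type*} [CommRing R] {n : ℕ} (A : Matrix (Fin (n + 1)) (Fin (n + 1)) R)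
    (h : ∀ i : Fin n, A i.castSucc (Fin.last n) = 0) :
    A.det = A (Fin.last n) (Fin.last n) * (A.submatrix Fin.castSucc Fin.castSucc).det := by
  rw [Matrix.det_succ_column A (Fin.last n), Finset.sum_eq_single (Fin.last n)]
  · rw [Fin.succAbove_last, ← two_mul, pow_mul]; simp
  · intro i _ hi
    obtain ⟨j, rfl⟩ := Fin.exists_castSucc_eq.mpr hi
    rw [h]; ring
  · simp

theorem det_last_row {R : Type*} [CommRing R] {n : ℕ} (A : Matrix (Fin (n + 1)) (Fin (n + 1)) R)
    (h : ∀ i : Fin n, A (Fin.last n) i.castSucc = 0) :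
    A.det = A (Fin.last n) (Fin.last n) * (A.submatrix Fin.castSucc Fin.castSucc).det := by
  rw [← Matrix.det_transpose, det_last_column Aᵀ (by simpa using h), ← Matrix.det_transpose]
  rfl

namespace HFrame

variable {K : Type*} [Field K] {m : ℕ}

/-- The vectors of a frame. -/
def vec (B : HFrame K m) : Fin (m + 3 + 1) → Fin (m + 3 + 1) → K :=
  (Fin.snoc (Fin.snoc B.e B.P : Fin (m + 1 + 1 + 1) → Fin (m + 3 + 1) → K) B.Q :
    Fin (m + 1 + 1 + 1 + 1) → Fin (m + 3 + 1) → K)

/-- The determinant of a frame. -/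
def D (B : HFrame K m) : K := (Matrix.of B.vec).det

theorem D_eq (B : HFrame K m) : B.D = Phi (n := m + 1 + 1) B.e B.P B.Q := rfl

/-- Coordinates with respect to a frame. -/
def co (B : HFrame K m) (x : Fin (m + 3 + 1) → K) : Fin (m + 1 + 1 + 1 + 1) → K :=
  Fin.snoc (Fin.snoc (fun k => sgn K k * lf x (B.e k)) (2⁻¹ * lf x B.Q) : Fin (m + 1 + 1 + 1) → K)
    (2⁻¹ * lf x B.P)

theorem exp_vec (B : HFrame K m) (x : Fin (m + 3 + 1) → K) :
    x = ∑ i : Fin (m + 1 + 1 + 1 + 1), B.co x i • B.vec i := by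
  rw [Fin.sum_univ_castSucc, Fin.sum_univ_castSucc]
  unfold co vec
  simp only [Fin.snoc_castSucc, Fin.snoc_last]
  exact B.exp x

theorem D_change (B B' : HFrame K m) :
    B'.D = (Matrix.of fun i : Fin (m + 1 + 1 + 1 + 1) => B.co (B'.vec i)).det * B.D := by
  unfold D
  rw [← Matrix.det_mul]
  congr 1
  ext i j
  rw [Matrix.mul_apply, Matrix.of_apply]
  conv_lhs => rw [B.exp_vec (B'.vec i)]
  rw [Finset.sum_apply]
  rfl

theorem D_swap (B : HFrame K m) : B.swap.D = - B.D := by
  rw [D_eq, D_eq, ← Phi_swap]; rfl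

variable [Algebra ℂ K] {v : DOrd K}

theorem D_shift (B : HFrame K m) (j : ℤ) : (B.shift v j).D = B.D := by
  rw [D_eq, D_eq]
  change Phi (n := m + 1 + 1) B.e (v.tau ^ j • B.P) (v.tau ^ (-j) • B.Q) = _
  rw [Phi_smul_left, Phi_smul_right, ← mul_assoc, ← zpow_add₀ v.tau_ne]
  simp

/-- Reduction of the change of frames at a common edge. -/
theorem orient (B B' : HFrame K m) (hDint : v.Ge 0 B.D) (h0 : B.L v 0 = B'.L v 0) (h1 : B.L v (-1) = B'.L v (-1)) :
    v.red B'.D = (Matrix.of fun k : Fin (m + 1 + 1) => B.ub v (B'.e k)).det * v.red B.D := by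
  -- positions of the vectors of `B'`
  have hs0 : ∀ t x, B'.In v 0 t x → B.In v 0 t x := by
    intro t x hx
    have : v.tau ^ (-t) • x ∈ B.L v 0 := by
      rw [h0]; change B'.In v 0 0 _
      rw [in_tau_smul]; simpa using hx
    change B.In v 0 0 _ at this
    rw [in_tau_smul] at this; simpa using this
  have hs1 : ∀ t x, B'.In v (-1) t x → B.In v (-1) t x := by
    intro t x hx
    have : v.tau ^ (-t) • x ∈ B.L v (-1) := by
      rw [h1]; change B'.In v (-1) 0 _
      rw [in_tau_smul]; simpa using hx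
    change B.In v (-1) 0 _ at this
    rw [in_tau_smul] at this; simpa using this
  have he0 : ∀ k, B.In v 0 0 (B'.e k) := fun k => hs0 _ _ (in_e B' k 0)
  have he1 : ∀ k, B.In v (-1) 0 (B'.e k) := fun k => hs1 _ _ (in_e B' k (-1))
  have hP0 : B.In v 0 0 B'.P := hs0 _ _ ((in_P_iff B' 0 0).mpr (by omega))
  have hP1 : B.In v (-1) 1 B'.P := hs1 _ _ ((in_P_iff B' (-1) 1).mpr (by omega))
  have hQ0 : B.In v 0 0 B'.Q := hs0 _ _ ((in_Q_iff B' 0 0).mpr (by omega))
  -- everything is integral
  have hco : ∀ x, B.In v 0 0 x → ∀ i, v.Ge 0 (B.co x i) := by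
    intro x hx i
    unfold co
    refine Fin.lastCases ?_ (fun i => ?_) i
    · rw [Fin.snoc_last]; exact ge_half.mul0 (ge0 B hx).1
    · rw [Fin.snoc_castSucc]
      refine Fin.lastCases ?_ (fun i => ?_) i
      · rw [Fin.snoc_last]; exact ge_half.mul0 (ge0 B hx).2
      · rw [Fin.snoc_castSucc]; exact (ge_sgn i).mul0 (hx.1 i)
  have hvec : ∀ i : Fin (m + 1 + 1 + 1 + 1), B.In v 0 0 (B'.vec i) := by
    intro i
    unfold vec
    refine Fin.lastCases ?_ (fun i => ?_) i
    · rw [Fin.snoc_last]; exact hQ0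
    · rw [Fin.snoc_castSucc]
      refine Fin.lastCases ?_ (fun i => ?_) i
      · rw [Fin.snoc_last]; exact hP0
      · rw [Fin.snoc_castSucc]; exact he0 i
  set N : Matrix (Fin (m + 1 + 1 + 1 + 1)) (Fin (m + 1 + 1 + 1 + 1)) K :=
    Matrix.of fun i : Fin (m + 1 + 1 + 1 + 1) => B.co (B'.vec i) with hN
  have hNint : ∀ i j, v.Ge 0 (N i j) := fun i j => hco _ (hvec i) j
  obtain ⟨hd0, hd⟩ := red_det N hNint
  -- the entries of the last column, reduced
  have c1 : ∀ i : Fin (m + 1 + 1 + 1), (N.map v.red) i.castSucc (Fin.last _) = 0 := by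
    intro i
    rw [Matrix.map_apply, hN, Matrix.of_apply]
    unfold co vec
    rw [Fin.snoc_last, Fin.snoc_castSucc]
    refine Fin.lastCases ?_ (fun i => ?_) i
    · rw [Fin.snoc_last, red_eq_zero (ge_half.mul0 (ge0 B hP0).1)]
      exact ge_half.mul0 (hP1.2.1.mono (by norm_num))
    · rw [Fin.snoc_castSucc, red_eq_zero (ge_half.mul0 (ge0 B (he0 i)).1)]
      exact ge_half.mul0 ((he1 i).2.1.mono (by norm_num))
  have c2 : ∀ i : Fin (m + 1 + 1), ((N.map v.red).submatrix Fin.castSucc Fin.castSucc)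
      (Fin.last _) i.castSucc = 0 := by
    intro i
    rw [Matrix.submatrix_apply, Matrix.map_apply, hN, Matrix.of_apply]
    unfold co vec
    rw [Fin.snoc_castSucc, Fin.snoc_castSucc, Fin.snoc_castSucc, Fin.snoc_last,
      red_eq_zero ((ge_sgn i).mul0 (hP0.1 i))]
    exact (ge_sgn i).mul0 (hP1.1 i)
  have hdet : v.red N.det = v.red (2⁻¹ * lf B'.Q B.P) * (v.red (2⁻¹ * lf B'.P B.Q) *
      (Matrix.of fun k : Fin (m + 1 + 1) => B.ub v (B'.e k)).det) := by
    rw [hd, det_last_column _ c1, det_last_row _ c2]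
    congr 1
    · rw [Matrix.map_apply, hN, Matrix.of_apply]
      unfold co vec
      rw [Fin.snoc_last, Fin.snoc_last]
    · congr 1
      · rw [Matrix.submatrix_apply, Matrix.map_apply, hN, Matrix.of_apply]
        unfold co vec
        rw [Fin.snoc_castSucc, Fin.snoc_last, Fin.snoc_castSucc, Fin.snoc_last]
      · congr 1
        ext i j
        rw [Matrix.submatrix_apply, Matrix.submatrix_apply, Matrix.map_apply, hN, Matrix.of_apply,
          Matrix.of_apply]
        unfold co vec ub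
        rw [Fin.snoc_castSucc, Fin.snoc_castSucc, Fin.snoc_castSucc, Fin.snoc_castSucc,
          red_mul (ge_sgn j) ((he0 i).1 j), red_sgn]
  -- the product of the two scalar factors is one
  have hprod : v.red (2⁻¹ * lf B'.Q B.P) * v.red (2⁻¹ * lf B'.P B.Q) = 1 := by
    rw [← red_mul (ge_half.mul0 (ge0 B hQ0).1) (ge_half.mul0 (ge0 B hP0).2), ← red_one (v := v)]
    apply red_eq_red_of_sub
    · exact (ge_half.mul0 (ge0 B hQ0).1).mul0 (ge_half.mul0 (ge0 B hP0).2)
    · have h := B.parseval B'.P B'.Q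
      rw [B'.PQ] at h
      have h2 := mul_inv_cancel₀ (two_ne K)
      have e : 2⁻¹ * lf B'.Q B.P * (2⁻¹ * lf B'.P B.Q) - 1 =
          -(2⁻¹ * (∑ k, sgn K k * lf B'.P (B.e k) * lf B'.Q (B.e k) +
            2⁻¹ * (lf B'.P B.P * lf B'.Q B.Q))) := by
        linear_combination (-2⁻¹) * h + h2
      rw [e]
      refine (ge_half.mul0 ((Ge.sum fun k _ => ?_).add ?_)).neg
      · have := ((ge_sgn (v := v) k).mul0 (hP1.1 k)).mul (hQ0.1 k)
        simpa using this
      · refine ge_half.mul0 ?_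
        have := (hP1.2.1.mul (ge0 B hQ0).2)
        exact this.mono (by norm_num)
  rw [D_change B B', red_mul hd0 hDint, hdet]
  linear_combination ((Matrix.of fun k : Fin (m + 1 + 1) => B.ub v (B'.e k)).det * v.red B.D) * hprod

end HFrame

end Bellows
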