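import Pool.Agent.Bellows.Rot

/-!
# The lattice of a plate lies on the line of each of its faces
-/

namespace Bellows

open Matrix DOrd HFrame

attribute [local irreducible] DOrd.instFieldK

variable {K : Type*} [Field K] [Algebra ℂ K] {v : DOrd K} {m : ℕ}

/-- The lattice of a plate. -/
def Lat (v : DOrd K) (g : Matrix (Fin (m + 3 + 1)) (Fin (m + 3 + 1)) K) :
    Set (Fin (m + 3 + 1) → K) :=
  {x | ∀ i, v.Ge 0 (lf x (g.mulVec (Pi.single i 1)))}

theorem Lat_real (g : Matrix (Fin (m + 3 + 1)) (Fin (m + 3 + 1)) K) (x : Fin (m + 3 + 1) → K)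
    (hx : x ∈ Lat v g) (y : Fin (m + 3 + 1) → K) (hy : ∀ i, v.Ge 0 (y i)) :
    v.Ge 0 (lf x (g.mulVec y)) := by
  have h : y = ∑ i, y i • (Pi.single i 1 : Fin (m + 3 + 1) → K) := by
    funext j; simp [Finset.sum_apply, Pi.single_apply]
  rw [h, Matrix.mulVec_sum, lf_sum_right]
  refine Ge.sum fun i _ => ?_
  rw [Matrix.mulVec_smul, lf_smul_right]
  exact (hy i).mul0 (hx i)

theorem Lat_mul_real (g : Matrix (Fin (m + 3 + 1)) (Fin (m + 3 + 1)) K)
    (C : Matrix (Fin (m + 3 + 1)) (Fin (m + 3 + 1)) ℝ) (hC : IsLor C) :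
    Lat v (g * C.map (rc K)) = Lat v g := by
  ext x
  constructor
  · intro hx i
    have h1 := Lat_real _ x hx (toR (C⁻¹.mulVec (Pi.single i 1))) (fun i => ge_rc _)
    rw [← Matrix.mulVec_mulVec, ← toR_mulVec, hC.mulVec_inv] at h1
    have h2 : (toR (Pi.single i 1 : Fin (m + 3 + 1) → ℝ) : Fin (m + 3 + 1) → K) = Pi.single i 1 := by
      funext j
      rw [toR_apply, Pi.single_apply, Pi.single_apply]; split_ifs <;> simp
    rw [h2] at h1; exact h1
  · intro hx i
    rw [← Matrix.mulVec_mulVec]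
    refine Lat_real g x hx _ fun j => ?_
    simp only [Matrix.mulVec_single_one, Matrix.col_apply, Matrix.map_apply]
    exact ge_rc _

theorem ge_ii : v.Ge 0 (ii K) := Ge.const _

theorem Lat_eq_L (g : Matrix (Fin (m + 3 + 1)) (Fin (m + 3 + 1)) K) (hg : IsLor g) :
    Lat v g = ((std K m).map g hg).L v 0 := by
  ext x
  have e1 : ((std K m).map g hg).P = g.mulVec (b1 K m) - ii K • g.mulVec (b2 K m) := by
    change g.mulVec (b1 K m - ii K • b2 K m) = _
    rw [Matrix.mulVec_sub, Matrix.mulVec_smul]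
  have e2 : ((std K m).map g hg).Q = g.mulVec (b1 K m) + ii K • g.mulVec (b2 K m) := by
    change g.mulVec (b1 K m + ii K • b2 K m) = _
    rw [Matrix.mulVec_add, Matrix.mulVec_smul]
  constructor
  · intro hx
    refine ⟨fun k => hx _, ?_, ?_⟩
    · rw [e1, lf_sub_right, lf_smul_right, sub_zero]
      exact (hx _).sub (ge_ii.mul0 (hx _))
    · rw [e2, lf_add_right, lf_smul_right, add_zero]
      exact (hx _).add (ge_ii.mul0 (hx _))
  · rintro ⟨h1, h2, h3⟩
    rw [e1, lf_sub_right, lf_smul_right, sub_zero] at h2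
    rw [e2, lf_add_right, lf_smul_right, add_zero] at h3
    have h4 : v.Ge 0 (lf x (g.mulVec (b1 K m))) := by
      have h5 := ge_half.mul0 (h2.add h3)
      have h6 := mul_inv_cancel₀ (two_ne K)
      have h7 : lf x (g.mulVec (b1 K m)) = 2⁻¹ * (lf x (g.mulVec (b1 K m)) -
          ii K * lf x (g.mulVec (b2 K m)) + (lf x (g.mulVec (b1 K m)) +
          ii K * lf x (g.mulVec (b2 K m)))) := by
        linear_combination (-(lf x (g.mulVec (b1 K m)))) * h6
      rw [h7]; exact h5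
    have h4' : v.Ge 0 (lf x (g.mulVec (b2 K m))) := by
      have h5 := (ge_ii (v := v)).mul0 (ge_half.mul0 (h2.sub h3))
      have h6 := mul_inv_cancel₀ (two_ne K)
      have h7 : lf x (g.mulVec (b2 K m)) = ii K * (2⁻¹ * (lf x (g.mulVec (b1 K m)) -
          ii K * lf x (g.mulVec (b2 K m)) - (lf x (g.mulVec (b1 K m)) +
          ii K * lf x (g.mulVec (b2 K m))))) := by
        linear_combination (-(lf x (g.mulVec (b2 K m)))) * h6 +
          2 * 2⁻¹ * lf x (g.mulVec (b2 K m)) * ii_sq (K := K)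
      rw [h7]; exact h5
    intro i
    have hi := i.2
    rcases lt_trichotomy (i : ℕ) (m + 2) with h | h | h
    · have : i = Fin.castLE (by omega) (⟨i, h⟩ : Fin (m + 1 + 1)) := by ext; simp
      rw [this]; exact h1 _
    · have : i = ⟨m + 2, by omega⟩ := by ext; exact h
      rw [this]; exact h4
    · have : i = ⟨m + 3, by omega⟩ := by ext; simp; omega
      rw [this]; exact h4'

theorem ge_mul_iff {r y : K} (hr : r ≠ 0) (t : ℤ) : v.Ge t (r * y) ↔ v.Ge (t - v.ord r) y := by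
  constructor
  · intro h
    have h1 : v.Ge (-v.ord r) r⁻¹ := Or.inr (by rw [v.ord_inv _ hr])
    have h2 := h1.mul h
    rw [← mul_assoc, inv_mul_cancel₀ hr, one_mul] at h2
    exact h2.mono (by omega)
  · intro h
    have h1 : v.Ge (v.ord r) r := Or.inr le_rfl
    exact (h1.mul h).mono (by omega)

/-- Two Lorentz matrices which agree on the first vectors of the standard frame and map its first
isotropic vector to proportional ones. -/
theorem Lat_on_line (g0 g : Matrix (Fin (m + 3 + 1)) (Fin (m + 3 + 1)) K) (hg0 : IsLor g0)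
    (hg : IsLor g) (he : ∀ k, g.mulVec ((std K m).e k) = g0.mulVec ((std K m).e k)) {r : K}
    (hr : r ≠ 0) (hP : g.mulVec (std K m).P = r • g0.mulVec (std K m).P) :
    Lat v g = ((std K m).map g0 hg0).L v (v.ord r) := by
  set B0 := (std K m).map g0 hg0 with hB0
  set B1 := (std K m).map g hg with hB1
  have he' : ∀ k, B1.e k = B0.e k := he
  have hP' : B1.P = r • B0.P := hP
  -- the second isotropic vector
  have hQ' : B1.Q = r⁻¹ • B0.Q := by
    have h1 := B0.exp B1.Q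
    have h2 : ∀ k, lf B1.Q (B0.e k) = 0 := fun k => by rw [← he', lf_comm, B1.eQ]
    have h3 : lf B1.Q B0.P = 2 * r⁻¹ := by
      have : B0.P = r⁻¹ • B1.P := by rw [hP', smul_smul, inv_mul_cancel₀ hr, one_smul]
      rw [this, lf_smul_right, lf_comm, B1.PQ]; ring
    rw [Finset.sum_eq_zero fun k _ => by rw [h2, mul_zero, zero_smul], zero_add, h3] at h1
    have h6 := mul_inv_cancel₀ (two_ne K)
    have h4 : (2⁻¹ * (2 * r⁻¹)) = r⁻¹ := by linear_combination r⁻¹ * h6
    rw [h4] at h1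
    have h5 := B1.QQ
    have h7 : lf B1.Q B1.Q = 2 * r⁻¹ * lf B1.Q B0.Q := by
      conv_lhs => rw [h1]
      rw [lf_add_left, lf_smul_left, lf_smul_left]
      have h9 : lf B0.P ((2⁻¹ * lf B1.Q B0.Q) • B0.P + r⁻¹ • B0.Q) = lf B0.P B1.Q := by rw [← h1]
      have h10 : lf B0.Q ((2⁻¹ * lf B1.Q B0.Q) • B0.P + r⁻¹ • B0.Q) = lf B0.Q B1.Q := by rw [← h1]
      rw [h9, h10, lf_comm B0.P B1.Q, h3, lf_comm B0.Q B1.Q]
      linear_combination r⁻¹ * lf B1.Q B0.Q * h6
    rw [h7] at h5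
    have h8 : lf B1.Q B0.Q = 0 := by
      rcases mul_eq_zero.mp h5 with h | h
      · exact absurd h (mul_ne_zero (two_ne K) (inv_ne_zero hr))
      · exact h
    rw [h8] at h1
    simpa using h1
  rw [Lat_eq_L g hg, ← hB1]
  ext x
  change (∀ k, v.Ge 0 (lf x (B1.e k))) ∧ v.Ge (0 - 0) (lf x B1.P) ∧ v.Ge (0 + 0) (lf x B1.Q) ↔
    (∀ k, v.Ge 0 (lf x (B0.e k))) ∧ v.Ge (0 - v.ord r) (lf x B0.P) ∧
      v.Ge (0 + v.ord r) (lf x B0.Q)
  rw [hP', hQ', lf_smul_right, lf_smul_right, ge_mul_iff hr, ge_mul_iff (inv_ne_zero hr),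
    v.ord_inv r hr]
  simp only [he', sub_zero, add_zero, sub_neg_eq_add]

/-- The isotropic vector of a frame, over the field `K`. -/
noncomputable def AFrame.iK (K : Type*) [Field K] [Algebra ℂ K] {m : ℕ} {h : m + 2 ≤ m + 3 + 1}
    {x : Fin (m + 2) → Fin (m + 3 + 1) → ℝ} (A : AFrame h x) : Fin (m + 3 + 1) → K :=
  fun i => algebraMap ℂ K (A.n1 i - Complex.I * A.n2 i)

/-- The first vectors of a frame, over the field `K`. -/
noncomputable def AFrame.eK (K : Type*) [Field K] [Algebra ℂ K] {m : ℕ} {h : m + 2 ≤ m + 3 + 1}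
    {x : Fin (m + 2) → Fin (m + 3 + 1) → ℝ} (A : AFrame h x) (k : Fin (m + 1 + 1)) :
    Fin (m + 3 + 1) → K :=
  fun i => rc K (A.C i (Fin.castLE h k))

theorem AFrame.toR_x_eq {m : ℕ} {h : m + 2 ≤ m + 3 + 1}
    {x : Fin (m + 2) → Fin (m + 3 + 1) → ℝ} (A : AFrame h x) (w : Fin (m + 2)) :
    (toR (x w) : Fin (m + 3 + 1) → K) = ∑ k : Fin (m + 1 + 1), rc K (A.c w k) • A.eK K k := by
  funext i
  rw [toR_apply, A.hx w i, map_sum, Finset.sum_apply]
  refine Finset.sum_congr rfl fun k _ => ?_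
  rw [map_mul]; rfl

theorem AFrame.toR_e_eq {m : ℕ} {h : m + 2 ≤ m + 3 + 1}
    {x : Fin (m + 2) → Fin (m + 3 + 1) → ℝ} (A : AFrame h x) (k : Fin (m + 1 + 1)) :
    A.eK K k = ∑ w : Fin (m + 1 + 1), rc K (A.c⁻¹ k w) • (toR (x w) : Fin (m + 3 + 1) → K) := by
  have hcu : IsUnit A.c.det := isUnit_iff_ne_zero.mpr A.cdet.ne'
  simp only [A.toR_x_eq, Finset.smul_sum, smul_smul]
  rw [Finset.sum_comm]
  simp only [← Finset.sum_smul, ← map_mul, ← map_sum]
  rw [Finset.sum_eq_single k]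
  · have : ∑ w, A.c⁻¹ k w * A.c w k = (A.c⁻¹ * A.c) k k := by rw [Matrix.mul_apply]
    rw [this, Matrix.nonsing_inv_mul _ hcu, Matrix.one_apply_eq, map_one, one_smul]
  · intro l _ hl
    have : ∑ w, A.c⁻¹ k w * A.c w l = (A.c⁻¹ * A.c) k l := by rw [Matrix.mul_apply]
    rw [this, Matrix.nonsing_inv_mul _ hcu, Matrix.one_apply_ne hl.symm, map_zero, zero_smul]
  · simp

theorem AFrame.map_e {m : ℕ} {h : m + 2 ≤ m + 3 + 1}
    {x : Fin (m + 2) → Fin (m + 3 + 1) → ℝ} (A : AFrame h x) (k : Fin (m + 1 + 1)) :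
    (A.C.map (rc K)).mulVec ((std K m).e k) = A.eK K k := by
  change (A.C.map (rc K)).mulVec (Pi.single _ 1) = _
  rw [Matrix.mulVec_single_one]; rfl

theorem AFrame.map_P {m : ℕ} {h : m + 2 ≤ m + 3 + 1}
    {x : Fin (m + 2) → Fin (m + 3 + 1) → ℝ} (A : AFrame h x) :
    (A.C.map (rc K)).mulVec (std K m).P = A.iK K := by
  change (A.C.map (rc K)).mulVec (b1 K m - ii K • b2 K m) = _
  rw [Matrix.mulVec_sub, Matrix.mulVec_smul]
  unfold b1 b2
  rw [Matrix.mulVec_single_one, Matrix.mulVec_single_one]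
  funext i
  unfold AFrame.iK AFrame.n1 AFrame.n2 ii
  rw [map_sub, map_mul]
  rfl

/-- Frames attached to the faces of a moving polyhedron. -/
theorem exists_BF {N : ℕ} (Kc : Cycle (m + 2) N) (ξ : Fin N → Fin (m + 4) → ℝ)
    (Fr : ∀ F : Fin (m + 2) ↪o Fin N, LinearIndependent ℝ (fun k => ξ (F k)) →
      AFrame (show m + 2 ≤ m + 3 + 1 by omega) (fun k => ξ (F k)))
    (g : (Fin (m + 3) ↪o Fin N) → Matrix (Fin (m + 4)) (Fin (m + 4)) K)
    (hg : ∀ a ∈ Kc.facets, IsLor (d := m + 3) (g a) ∧ (g a).det = 1)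
    (hag : ∀ a ∈ Kc.facets, ∀ b ∈ Kc.facets, ∀ i j, face a i = face b j →
      LinearIndependent ℝ (fun k => ξ (face a i k)) →
      ∀ k, (g a).mulVec (toR (ξ (face a i k))) = (g b).mulVec (toR (ξ (face a i k))))
    (I : (Fin (m + 2) ↪o Fin N) → Fin (m + 4) → K)
    (f : (Fin (m + 3) ↪o Fin N) → Fin (m + 3) → K)
    (hf : ∀ a ∈ Kc.facets, ∀ j, ∀ h : LinearIndependent ℝ (fun k => ξ (face a j k)),
      f a j ≠ 0 ∧ (g a).mulVec ((Fr _ h).iK K) = f a j • I (face a j)) :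
    ∃ (BF : (Fin (m + 2) ↪o Fin N) → HFrame K m) (c : (Fin (m + 2) ↪o Fin N) → ℤ),
      ∀ a ∈ Kc.facets, ∀ j, ∀ h : LinearIndependent ℝ (fun k => ξ (face a j k)),
        (∀ k, (BF (face a j)).e k = (g a).mulVec ((Fr _ h).eK K k)) ∧
        (BF (face a j)).D = 2 * ii K ∧
        Lat v (g a) = (BF (face a j)).L v (v.ord (f a j) - c (face a j)) := by
  classical
  -- reference plates
  set Ex : (Fin (m + 2) ↪o Fin N) → Prop := fun F =>
    (∃ p : (Fin (m + 3) ↪o Fin N) × Fin (m + 3), p.1 ∈ Kc.facets ∧ face p.1 p.2 = F) ∧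
    LinearIndependent ℝ (fun k => ξ (F k)) with hEx
  refine ⟨fun F => if h : Ex F then (std K m).map (g h.1.choose.1 * (Fr F h.2).C.map (rc K))
      ((hg _ h.1.choose_spec.1).1.mul (isLor_map.mpr (Fr F h.2).lor)) else std K m,
    fun F => if h : Ex F then v.ord (f h.1.choose.1 h.1.choose.2) else 0, ?_⟩
  intro a ha j hli
  have hE : Ex (face a j) := ⟨⟨(a, j), ha, rfl⟩, hli⟩
  simp only [dif_pos hE]
  obtain ⟨ha0, hF⟩ := hE.1.choose_spec
  set a0 := hE.1.choose.1 with ha0def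
  set j0 := hE.1.choose.2 with hj0def
  have hga0 := hg a0 ha0
  have hga := hg a ha
  -- agreement on the frame vectors
  have hee : ∀ k, (g a).mulVec ((Fr (face a j) hli).eK K k) =
      (g a0).mulVec ((Fr (face a j) hli).eK K k) := by
    intro k
    rw [AFrame.toR_e_eq, Matrix.mulVec_sum, Matrix.mulVec_sum]
    refine Finset.sum_congr rfl fun w _ => ?_
    rw [Matrix.mulVec_smul, Matrix.mulVec_smul, hag a ha a0 ha0 j j0 hF.symm hli w]
  have hPP : f a0 j0 ≠ 0 ∧ (g a0).mulVec ((Fr (face a j) hli).iK K) = f a0 j0 • I (face a j) := by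
    have key : ∀ F, face a0 j0 = F → ∀ h : LinearIndependent ℝ (fun k => ξ (F k)),
        f a0 j0 ≠ 0 ∧ (g a0).mulVec ((Fr F h).iK K) = f a0 j0 • I F := by
      rintro F rfl h
      exact hf a0 ha0 j0 h
    exact key _ hF hli
  have hPa := hf a ha j hli
  refine ⟨fun k => ?_, ?_, ?_⟩
  · change (g a0 * (Fr (face a j) hli).C.map (rc K)).mulVec ((std K m).e k) = _
    rw [← Matrix.mulVec_mulVec, AFrame.map_e, hee]
  · rw [D_map, Matrix.det_mul, hga0.2, one_mul]
    have : ((Fr (face a j) hli).C.map (rc K)).det = 1 := by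
      have h1 := (rc K).map_det (Fr (face a j) hli).C
      rw [(Fr (face a j) hli).det, map_one] at h1
      exact h1.symm
    rw [this, one_mul, D_std]
  · have hrne : f a j / f a0 j0 ≠ 0 := div_ne_zero hPa.1 hPP.1
    have h1 := Lat_on_line (v := v) (g a0 * (Fr (face a j) hli).C.map (rc K))
      (g a * (Fr (face a j) hli).C.map (rc K))
      (hga0.1.mul (isLor_map.mpr (Fr (face a j) hli).lor))
      (hga.1.mul (isLor_map.mpr (Fr (face a j) hli).lor))
      (fun k => by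
        rw [← Matrix.mulVec_mulVec, ← Matrix.mulVec_mulVec, AFrame.map_e, hee])
      (r := f a j / f a0 j0) hrne
      (by
        rw [← Matrix.mulVec_mulVec, ← Matrix.mulVec_mulVec, AFrame.map_P, hPP.2, hPa.2, smul_smul,
          div_mul_cancel₀ _ hPP.1])
    rw [Lat_mul_real _ _ (Fr (face a j) hli).lor] at h1
    rw [h1]
    congr 1
    rw [div_eq_mul_inv, v.mul _ _ hPa.1 (inv_ne_zero hPP.1), v.ord_inv _ hPP.1]
    ring

end Bellows
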