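import Pool.Agent.Bellows.Defs

/-!
# Oriented closed pseudomanifolds give cycles
-/

namespace Bellows

/-- A finite oriented closed simplicial pseudomanifold of dimension `r` with vertices `Fin N`:
a finite set of `r`-simplices (written as increasing tuples `a` of `r + 1` vertices), each with an
orientation `sign a = ±1` relative to the increasing order of its vertices, such that

* (closed pseudomanifold) every face of codimension one of a facet is a face of exactly one
  further facet;
* (orientation) two different facets induce opposite orientations on a common face of codimension
  one. The orientation induced by `a` on its `i`-th face is `(-1) ^ i * sign a`, relative to the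
  increasing order of the vertices of the face. -/
structure OrientedPseudomanifold (r N : ℕ) where
  /-- The facets, i.e. the simplices of the maximal dimension `r`. -/
  facets : Finset (Fin (r + 1) ↪o Fin N)
  /-- The orientations of the facets. -/
  sign : (Fin (r + 1) ↪o Fin N) → ℤ
  /-- Orientations are signs. -/
  sign_eq : ∀ a ∈ facets, sign a = 1 ∨ sign a = -1
  /-- Every face of codimension one of a facet lies in exactly one further facet. -/
  two : ∀ a ∈ facets, ∀ i, ∃! b, b ∈ facets ∧ b ≠ a ∧ ∃ j, face b j = face a i
  /-- The orientations induced on a common face of codimension one are opposite. -/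
  opp : ∀ a ∈ facets, ∀ b ∈ facets, a ≠ b → ∀ i j, face a i = face b j →
    (-1) ^ (i : ℕ) * sign a = -((-1) ^ (j : ℕ) * sign b)

/-- Different faces of codimension one of a simplex are different. -/
theorem face_injective {r N : ℕ} (a : Fin (r + 1) ↪o Fin N) : Function.Injective (face a) := by
  intro i j h
  apply Fin.succAbove_left_injective
  funext k
  have h1 : face a i k = face a j k := by rw [h]
  exact a.injective h1

/-- The contribution of a facet to the boundary coefficient at one of its faces. -/
theorem boundary_term {r N : ℕ} (a : Fin (r + 1) ↪o Fin N) (i : Fin (r + 1)) (c : ℤ) :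
    ∑ k : Fin (r + 1), (if face a k = face a i then (-1) ^ (k : ℕ) * c else 0) =
      (-1) ^ (i : ℕ) * c := by
  rw [Finset.sum_eq_single i]
  · rw [if_pos rfl]
  · intro k _ hk
    rw [if_neg fun h => hk (face_injective a h)]
  · intro h
    exact absurd (Finset.mem_univ i) h

/-- The fundamental cycle of a finite oriented closed pseudomanifold. -/
def OrientedPseudomanifold.toCycle {r N : ℕ} (K : OrientedPseudomanifold r N) : Cycle r N where
  facets := K.facets
  coeff := K.sign
  closed := by
    intro F
    by_cases hF : ∃ a ∈ K.facets, ∃ i, face a i = F
    · obtain ⟨a, ha, i, rfl⟩ := hF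
      obtain ⟨b, ⟨hb, hba, j, hj⟩, huniq⟩ := K.two a ha i
      have hsub : ({a, b} : Finset (Fin (r + 1) ↪o Fin N)) ⊆ K.facets := by
        intro x hx
        rcases Finset.mem_insert.1 hx with rfl | hx
        · exact ha
        · rw [Finset.mem_singleton.1 hx]; exact hb
      rw [← Finset.sum_subset hsub]
      · rw [Finset.sum_pair (Ne.symm hba), boundary_term, ← hj, boundary_term,
          K.opp a ha b hb (Ne.symm hba) i j hj.symm]
        exact neg_add_cancel _
      · intro x hx hxab
        refine Finset.sum_eq_zero fun k _ => ?_
        rw [if_neg]
        intro hk
        apply hxab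
        by_cases hxa : x = a
        · rw [hxa]; exact Finset.mem_insert_self _ _
        · have := huniq x ⟨hx, hxa, k, hk⟩
          rw [this]
          exact Finset.mem_insert_of_mem (Finset.mem_singleton_self _)
    · refine Finset.sum_eq_zero fun a ha => Finset.sum_eq_zero fun i _ => ?_
      rw [if_neg]
      intro h
      exact hF ⟨a, ha, i, h⟩

end Bellows
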