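import Pool.Agent.Bellows.Ext
import Pool.Agent.Bellows.Herm

/-!
# Real forms over the residue field
-/

namespace Bellows

open Matrix

section toR

variable {k : Type*} [Field k] [Algebra ℂ k] {n : ℕ}

/-- The embedding of the real numbers. -/
noncomputable def rc (k : Type*) [Field k] [Algebra ℂ k] : ℝ →+* k :=
  (algebraMap ℂ k).comp Complex.ofRealHom

theorem toR_eq (x : Fin n → ℝ) : (toR x : Fin n → k) = fun i => rc k (x i) := rfl

theorem toR_apply (x : Fin n → ℝ) (i : Fin n) : (toR x : Fin n → k) i = rc k (x i) := rfl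

theorem rc_injective : Function.Injective (rc k) := (rc k).injective

theorem toR_add (x y : Fin n → ℝ) : (toR (x + y) : Fin n → k) = toR x + toR y := by
  funext i; simp [toR_apply]

theorem toR_smul (c : ℝ) (x : Fin n → ℝ) : (toR (c • x) : Fin n → k) = rc k c • toR x := by
  funext i; simp [toR_apply]

theorem toR_zero : (toR (0 : Fin n → ℝ) : Fin n → k) = 0 := by
  funext i; simp [toR_apply]

theorem toR_neg (x : Fin n → ℝ) : (toR (-x) : Fin n → k) = - toR x := by
  funext i; simp [toR_apply]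

theorem toR_sum {ι : Type*} (s : Finset ι) (f : ι → Fin n → ℝ) :
    (toR (∑ i ∈ s, f i) : Fin n → k) = ∑ i ∈ s, toR (f i) := by
  funext i; simp [toR_apply, Finset.sum_apply]

theorem toR_injective : Function.Injective (toR : (Fin n → ℝ) → (Fin n → k)) := by
  intro x y h
  funext i
  exact rc_injective (congrFun h i)

theorem lf_toR {d : ℕ} (x y : Fin (d + 1) → ℝ) :
    lf (toR x : Fin (d + 1) → k) (toR y) = rc k (lf x y) := by
  unfold lf; simp [toR_apply]

theorem toR_mulVec (A : Matrix (Fin n) (Fin n) ℝ) (x : Fin n → ℝ) :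
    (toR (A.mulVec x) : Fin n → k) = (A.map (rc k)).mulVec (toR x) := by
  funext i; simp [toR_apply, Matrix.mulVec, dotProduct]

theorem isLor_map {d : ℕ} {g : Matrix (Fin (d + 1)) (Fin (d + 1)) ℝ} :
    IsLor (g.map (rc k)) ↔ IsLor g := by
  rw [isLor_iff, isLor_iff]
  have h1 : (eta ℝ d).map (rc k) = eta k d := by
    ext i j
    rw [Matrix.map_apply, eta, eta, Matrix.diagonal_apply, Matrix.diagonal_apply]
    split_ifs <;> simp
  rw [← h1, ← Matrix.transpose_map, ← Matrix.map_mul, ← Matrix.map_mul]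
  constructor
  · intro h
    ext i j
    have := congrFun (congrFun h i) j
    simp only [Matrix.map_apply] at this
    exact rc_injective this
  · intro h; rw [h]

end toR

/-- the columns of a Lorentz matrix form a basis, with explicit coordinates -/
theorem IsLor.expand {R : Type*} [CommRing R] {d : ℕ} {T : Matrix (Fin (d + 1)) (Fin (d + 1)) R}
    (hT : IsLor T) (y : Fin (d + 1) → R) :
    y = ∑ i, (sgn R i * lf y (T.mulVec (Pi.single i 1))) • T.mulVec (Pi.single i 1) := by
  have h1 : ∀ i, lf y (T.mulVec (Pi.single i 1)) = lf (Pi.single i 1) (T⁻¹.mulVec y) := by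
    intro i
    rw [lf_comm, ← hT (Pi.single i 1) (T⁻¹.mulVec y), hT.mulVec_inv]
  have h2 : ∀ i, sgn R i * lf y (T.mulVec (Pi.single i 1)) = (T⁻¹.mulVec y) i := by
    intro i
    rw [h1, lf_single_left, ← mul_assoc]
    have : (if i = 0 then (-1 : R) else 1) = sgn R i := rfl
    rw [this, sgn_mul_sgn, one_mul]
  simp only [h2]
  conv_lhs => rw [← hT.mulVec_inv y]
  funext j
  rw [Finset.sum_apply, Matrix.mulVec, dotProduct]
  refine Finset.sum_congr rfl fun i _ => ?_
  simp [mul_comm]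

variable {k : Type*} [Field k] [Algebra ℂ k] {m : ℕ}

/-- Two real forms which share `m + 1` independent causal vectors coincide. -/
theorem real_transition
    (haf : ∀ c : Fin (m + 1) → Fin (m + 1 + 1) → ℝ, (∀ i, FC (c i)) → LinearIndependent ℝ c →
      Nonempty (AFrame (show m + 1 ≤ m + 1 + 1 by omega) c))
    {T T' : Matrix (Fin (m + 1 + 1)) (Fin (m + 1 + 1)) k} (hT : IsLor T) (hT' : IsLor T')
    {c c' : Fin (m + 1) → Fin (m + 1 + 1) → ℝ} (hc : ∀ i, FC (c i)) (hc' : ∀ i, FC (c' i))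
    (hli : LinearIndependent ℝ c')
    (h : ∀ i, T.mulVec (toR (c i)) = T'.mulVec (toR (c' i))) :
    ∃ g : Matrix (Fin (m + 1 + 1)) (Fin (m + 1 + 1)) ℝ, IsLor g ∧ 0 < g 0 0 ∧
      ∀ y : Fin (m + 1 + 1) → ℝ, T'.mulVec (toR y) = T.mulVec (toR (g.mulVec y)) := by
  obtain ⟨A⟩ := haf c' hc' hli
  -- the transition matrix
  set R : Matrix (Fin (m + 1 + 1)) (Fin (m + 1 + 1)) k := T⁻¹ * T' with hR
  have hRL : IsLor R := hT.inv.mul hT'
  have hRc : ∀ i, R.mulVec (toR (c' i)) = toR (c i) := by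
    intro i
    rw [hR, ← Matrix.mulVec_mulVec, ← h, hT.inv_mulVec]
  -- the columns of the frame
  set C := A.C with hC
  have hcol : ∀ v, c' v = ∑ j : Fin (m + 1), A.c v j • C.mulVec (Pi.single j.castSucc 1) := by
    intro v; funext i
    rw [A.hx v i, Finset.sum_apply]
    refine Finset.sum_congr rfl fun j _ => ?_
    simp only [Pi.smul_apply, smul_eq_mul, Matrix.mulVec_single_one, Matrix.col_apply]
    rfl
  have hcu : IsUnit A.c.det := isUnit_iff_ne_zero.mpr A.cdet.ne'
  have hcol' : ∀ j : Fin (m + 1), C.mulVec (Pi.single j.castSucc 1) = ∑ v, A.c⁻¹ j v • c' v := by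
    intro j
    simp only [hcol, Finset.smul_sum, smul_smul]
    rw [Finset.sum_comm]
    simp only [← Finset.sum_smul]
    rw [Finset.sum_eq_single j]
    · have : ∑ v, A.c⁻¹ j v * A.c v j = (A.c⁻¹ * A.c) j j := by rw [Matrix.mul_apply]
      rw [this, Matrix.nonsing_inv_mul _ hcu, Matrix.one_apply_eq, one_smul]
    · intro l _ hl
      have : ∑ v, A.c⁻¹ j v * A.c v l = (A.c⁻¹ * A.c) j l := by rw [Matrix.mul_apply]
      rw [this, Matrix.nonsing_inv_mul _ hcu, Matrix.one_apply_ne hl.symm, zero_smul]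
    · simp
  -- images of the first columns are real
  set β : Fin (m + 1) → Fin (m + 1 + 1) → ℝ := fun j => ∑ v, A.c⁻¹ j v • c v with hβ
  have hRβ : ∀ j : Fin (m + 1), R.mulVec (toR (C.mulVec (Pi.single j.castSucc 1))) = toR (β j) := by
    intro j
    rw [hcol', hβ, toR_sum, toR_sum, Matrix.mulVec_sum]
    refine Finset.sum_congr rfl fun v _ => ?_
    rw [toR_smul, toR_smul, Matrix.mulVec_smul, hRc]
  have hON : ON β := by
    intro i j
    have h1 : rc k (lf (β i) (β j)) = rc k (lf (C.mulVec (Pi.single i.castSucc 1))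
        (C.mulVec (Pi.single j.castSucc 1))) := by
      rw [← lf_toR, ← lf_toR, ← hRβ, ← hRβ, hRL]
    rw [rc_injective h1, A.lor, lf_single_left]
    by_cases hij : i = j
    · subst hij
      simp [sgn]
    · rw [if_neg hij, Pi.single_apply, if_neg (fun h => hij (Fin.castSucc_injective _ h)), mul_zero]
  obtain ⟨S, hS, hSβ⟩ := hON.exists_lor
  -- the image of the last column
  set n' : Fin (m + 1 + 1) → ℝ := C.mulVec (Pi.single (Fin.last _) 1) with hn'
  set ν : Fin (m + 1 + 1) → ℝ := S.mulVec (Pi.single (Fin.last _) 1) with hν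
  have hSk : IsLor (S.map (rc k)) := isLor_map.mpr hS
  have hsingle : ∀ i : Fin (m + 1 + 1), (toR (Pi.single i 1 : Fin (m + 1 + 1) → ℝ) :
      Fin (m + 1 + 1) → k) = Pi.single i 1 := by
    intro i; funext j
    rw [toR_apply, Pi.single_apply, Pi.single_apply]; split_ifs <;> simp
  set w : Fin (m + 1 + 1) → k := R.mulVec (toR n') with hw
  have hwβ : ∀ j, lf w (toR (β j)) = 0 := by
    intro j
    rw [← hRβ, hw, hRL, lf_toR, hn', A.lor, lf_single_left, Pi.single_apply,
      if_neg (Fin.castSucc_lt_last j).ne', mul_zero, map_zero]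
  have hww : lf w w = 1 := by
    rw [hw, hRL, lf_toR, hn', A.lor, lf_single_left]
    simp [Fin.last_pos.ne']
  have hexp := hSk.expand w
  rw [Fin.sum_univ_castSucc, Finset.sum_eq_zero, zero_add] at hexp
  swap
  · intro j _
    rw [← hsingle, ← toR_mulVec, hSβ, hwβ, mul_zero, zero_smul]
  rw [← hsingle, ← toR_mulVec, ← hν] at hexp
  have hslast : sgn k (Fin.last (m + 1)) = 1 := by unfold sgn; rw [if_neg (Fin.last_pos.ne')]
  rw [hslast, one_mul] at hexp
  have hνν : lf ν ν = 1 := by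
    rw [hν, hS, lf_single_left]; simp [Fin.last_pos.ne']
  have hl : lf w (toR ν) * lf w (toR ν) = 1 := by
    have h1 := hww
    rw [hexp, lf_smul_left, lf_smul_right, lf_toR, hνν, map_one, mul_one] at h1
    exact h1
  obtain ⟨ε, hε, hwε⟩ : ∃ ε : ℝ, ε * ε = 1 ∧ w = toR (ε • ν) := by
    rcases mul_self_eq_one_iff.mp hl with h1 | h1
    · refine ⟨1, by norm_num, ?_⟩
      rw [hexp, h1, one_smul, one_smul]
    · refine ⟨-1, by norm_num, ?_⟩
      rw [hexp, h1, neg_smul, neg_smul, one_smul, one_smul, toR_neg]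
  -- the real matrix
  set G : Matrix (Fin (m + 1 + 1)) (Fin (m + 1 + 1)) ℝ :=
    (Matrix.of (Fin.snoc β (ε • ν) : Fin (m + 1 + 1) → Fin (m + 1 + 1) → ℝ))ᵀ with hG
  have hRG : ∀ i, R.mulVec (toR (C.mulVec (Pi.single i 1))) = toR (G.mulVec (Pi.single i 1)) := by
    intro i
    have hGi : G.mulVec (Pi.single i 1) =
        (Fin.snoc β (ε • ν) : Fin (m + 1 + 1) → Fin (m + 1 + 1) → ℝ) i := by
      funext j; simp [hG]
    rw [hGi]
    refine Fin.lastCases ?_ (fun i => ?_) i
    · rw [Fin.snoc_last]; exact hwε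
    · rw [Fin.snoc_castSucc]; exact hRβ i
  have hRG2 : ∀ y, R.mulVec (toR (C.mulVec y)) = toR (G.mulVec y) := by
    intro y
    have hy : y = ∑ i, y i • (Pi.single i 1 : Fin (m + 1 + 1) → ℝ) := by
      funext j; simp [Finset.sum_apply, Pi.single_apply]
    rw [hy, Matrix.mulVec_sum, Matrix.mulVec_sum, toR_sum, toR_sum, Matrix.mulVec_sum]
    refine Finset.sum_congr rfl fun i _ => ?_
    rw [Matrix.mulVec_smul, Matrix.mulVec_smul, toR_smul, toR_smul, Matrix.mulVec_smul, hRG]
  set g := G * C⁻¹ with hg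
  have hRg : ∀ y, R.mulVec (toR y) = toR (g.mulVec y) := by
    intro y
    have := hRG2 (C⁻¹.mulVec y)
    rw [A.lor.mulVec_inv] at this
    rw [this, hg, Matrix.mulVec_mulVec]
  have hgL : IsLor g := by
    intro x y
    apply rc_injective (k := k)
    rw [← lf_toR, ← lf_toR, ← hRg, ← hRg, hRL]
  have hgc : ∀ i, g.mulVec (c' i) = c i := by
    intro i
    apply toR_injective (k := k)
    rw [← hRg, hRc]
  refine ⟨g, hgL, hgL.fut_of_ft (hc' 0) (by rw [hgc]; exact hc 0), fun y => ?_⟩
  rw [← hRg, hR, ← Matrix.mulVec_mulVec, hT.mulVec_inv]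

end Bellows
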