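import Pool.Agent.Bellows.Real
import Pool.Agent.Bellows.M3
import Pool.Agent.Bellows.M4a
import Pool.Agent.Bellows.M9a

/-!
# The cochain `Θ` over the residue field
-/

namespace Bellows

open Matrix MeasureTheory

variable {k : Type*} [Field k] [Algebra ℂ k] {m : ℕ}

/-- The future cone of the real form which contains `h`. -/
def Cone (h : Fin (m + 1) → Fin (m + 1 + 1) → k) : Set (Fin (m + 1 + 1) → k) :=
  {o | ∃ (T : Matrix (Fin (m + 1 + 1)) (Fin (m + 1 + 1)) k) (c : Fin (m + 1) → Fin (m + 1 + 1) → ℝ)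
    (z : Fin (m + 1 + 1) → ℝ), IsLor T ∧ (∀ i, FC (c i)) ∧ LinearIndependent ℝ c ∧ FT z ∧
      (∀ i, h i = T.mulVec (toR (c i))) ∧ o = T.mulVec (toR z)}

theorem cone_eq (hm : 1 ≤ m) {T : Matrix (Fin (m + 1 + 1)) (Fin (m + 1 + 1)) k} (hT : IsLor T)
    {c : Fin (m + 1) → Fin (m + 1 + 1) → ℝ} (hc : ∀ i, FC (c i)) (hli : LinearIndependent ℝ c) :
    Cone (fun i => T.mulVec (toR (c i))) = {o | ∃ z, FT z ∧ o = T.mulVec (toR z)} := by
  ext o
  constructor
  · rintro ⟨T', c', z', hT', hc', hli', hz', h, rfl⟩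
    obtain ⟨g, hg, hg0, hgy⟩ := real_transition
      (fun c hc hli => exists_aframe (by omega) (by omega) c hc hli) hT hT' hc hc' hli' h
    exact ⟨g.mulVec z', hg.ft hg0 hz', hgy z'⟩
  · rintro ⟨z, hz, rfl⟩
    exact ⟨T, c, z, hT, hc, hli, hz, fun _ => rfl, rfl⟩

theorem cone_empty {T : Matrix (Fin (m + 1 + 1)) (Fin (m + 1 + 1)) k}
    {c : Fin (m + 1) → Fin (m + 1 + 1) → ℝ} (hli : ¬ LinearIndependent ℝ c) :
    ¬ (Cone (fun i => T.mulVec (toR (c i)))).Nonempty := by
  rintro ⟨o, T', c', z', hT', hc', hli', hz', h, rfl⟩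
  apply hli
  rw [Fintype.linearIndependent_iff] at hli' ⊢
  intro g hg
  apply hli'
  apply toR_injective (k := k)
  rw [toR_zero, toR_sum]
  have h1 : T'.mulVec (∑ i, toR (g i • c' i)) = 0 := by
    rw [Matrix.mulVec_sum]
    have : ∀ i, T'.mulVec (toR (g i • c' i)) = T.mulVec (toR (g i • c i)) := by
      intro i
      rw [toR_smul, toR_smul, Matrix.mulVec_smul, Matrix.mulVec_smul, ← h]
    simp only [this]
    rw [← Matrix.mulVec_sum, ← toR_sum, hg, toR_zero, Matrix.mulVec_zero]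
  have h2 := congrArg (fun y => T'⁻¹.mulVec y) h1
  simp only [hT'.inv_mulVec, Matrix.mulVec_zero] at h2
  exact h2

open Classical in
/-- The cochain `Θ`. -/
noncomputable def Theta (ρ : k → ℝ) (ε : k) (h : Fin (m + 1) → Fin (m + 1 + 1) → k) : ℝ :=
  if (Cone h).Nonempty then
    ρ (ε * (Matrix.of (Fin.cons (Classical.epsilon (fun o => o ∈ Cone h)) h :
      Fin (m + 1 + 1) → Fin (m + 1 + 1) → k)).det) *
    J ((gram (Fin.cons (Classical.epsilon (fun o => o ∈ Cone h)) h :
      Fin (m + 1 + 1) → Fin (m + 1 + 1) → k)).map ρ)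
  else 0

theorem det_of_mulVec {n : ℕ} {R : Type*} [CommRing R] (T : Matrix (Fin n) (Fin n) R)
    (x : Fin n → Fin n → R) :
    (Matrix.of fun i => T.mulVec (x i)).det = T.det * (Matrix.of x).det := by
  rw [mul_comm, ← Matrix.det_transpose T, ← Matrix.det_mul]
  congr 1
  ext i j
  rw [Matrix.of_apply, Matrix.mul_apply, Matrix.mulVec, dotProduct]
  exact Finset.sum_congr rfl fun k _ => mul_comm _ _

theorem det_of_toR {n : ℕ} (x : Fin n → Fin n → ℝ) :
    (Matrix.of fun i => (toR (x i) : Fin n → k)).det = rc k (Matrix.of x).det := by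
  rw [RingHom.map_det]; rfl

theorem cons_succAbove {α : Type*} {n : ℕ} (z : α) (c : Fin (n + 1) → α) (j : Fin (n + 1)) :
    (fun i : Fin (n + 1) => (Fin.cons z c : Fin (n + 1 + 1) → α) (j.succ.succAbove i)) =
      (Fin.cons z (fun i : Fin n => c (j.succAbove i)) : Fin (n + 1) → α) := by
  funext i
  refine Fin.cases ?_ (fun i => ?_) i
  · rw [Fin.succ_succAbove_zero]; rfl
  · rw [Fin.succ_succAbove_succ]; rfl

/-- The cocycle identity for real vectors. -/
theorem real_cocycle (hm : 1 ≤ m) {z : Fin (m + 1 + 1) → ℝ} (hz : FT z)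
    (c : Fin (m + 1 + 1) → Fin (m + 1 + 1) → ℝ) (hc : ∀ i, FC (c i)) :
    ∑ j : Fin (m + 1 + 1), (-1) ^ (j : ℕ) *
      ((Matrix.of (Fin.cons z (fun i => c (j.succAbove i)) : Fin (m + 1 + 1) →
        Fin (m + 1 + 1) → ℝ)).det *
      J (gram (Fin.cons z (fun i => c (j.succAbove i)) : Fin (m + 1 + 1) → Fin (m + 1 + 1) → ℝ))) =
    (Matrix.of c).det * J (gram c) := by
  have hall : ∀ i, FC ((Fin.cons z c : Fin (m + 1 + 1 + 1) → Fin (m + 1 + 1) → ℝ) i) := by
    intro i
    refine Fin.cases ?_ (fun i => ?_) i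
    · exact hz.fc
    · exact hc i
  have h := cone_cocycle (r := m + 1 + 1) (N := m + 1 + 1)
    (Fin.cons z c : Fin (m + 1 + 1 + 1) → Fin (m + 1 + 1) → ℝ)
    (fun hli => by
      have := hli.fintype_card_le_finrank
      simp at this)
    (posFun z) (fun i => posFun_pos hz (hall i)) Matrix.detRowAlternating
    (fun u => Real.exp ((1 / 2) * lf u u)) (by
      intro i hli
      have h1 := integrableOn_exp_qf (by omega) (gram_adm (fun j => hall (i.succAbove j)) hli)
      refine h1.congr_fun (fun y _ => ?_) (measurableSet_orth _)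
      simp only [qf_gram])
  rw [Fin.sum_univ_succ] at h
  have h0 : ∀ (x : Fin (m + 1 + 1) → Fin (m + 1 + 1) → ℝ),
      ∫ y in orth (m + 1 + 1), Real.exp ((1 / 2) * lf (∑ i, y i • x i) (∑ i, y i • x i)) =
        J (gram x) := fun x => (J_gram_eq x).symm
  simp only [Fin.zero_succAbove, Fin.cons_succ, Fin.val_zero, pow_zero, one_mul, Fin.val_succ,
    pow_succ] at h
  have h1 : ∀ j : Fin (m + 1 + 1),
      Matrix.detRowAlternating (fun i : Fin (m + 1 + 1) =>
        (Fin.cons z c : Fin (m + 1 + 1 + 1) → Fin (m + 1 + 1) → ℝ) (j.succ.succAbove i)) =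
      (Matrix.of (Fin.cons z (fun i => c (j.succAbove i)) : Fin (m + 1 + 1) →
        Fin (m + 1 + 1) → ℝ)).det := by
    intro j
    rw [cons_succAbove]; rfl
  have h2 : ∀ j : Fin (m + 1 + 1),
      ∫ y in orth (m + 1 + 1), Real.exp ((1 / 2) *
        lf (∑ i, y i • (Fin.cons z c : Fin (m + 1 + 1 + 1) → Fin (m + 1 + 1) → ℝ)
          (j.succ.succAbove i))
        (∑ i, y i • (Fin.cons z c : Fin (m + 1 + 1 + 1) → Fin (m + 1 + 1) → ℝ)
          (j.succ.succAbove i))) =
      J (gram (Fin.cons z (fun i => c (j.succAbove i)) : Fin (m + 1 + 1) →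
        Fin (m + 1 + 1) → ℝ)) := by
    intro j
    rw [← h0, ← cons_succAbove]
  simp only [h1, h2, h0] at h
  have h3 : Matrix.detRowAlternating (fun i => c i) = (Matrix.of c).det := rfl
  rw [h3] at h
  have h4 : ∀ j : Fin (m + 1 + 1), (-1 : ℝ) ^ (j : ℕ) * -1 * (Matrix.of (Fin.cons z
      (fun i => c (j.succAbove i)) : Fin (m + 1 + 1) → Fin (m + 1 + 1) → ℝ)).det *
      J (gram (Fin.cons z (fun i => c (j.succAbove i)) : Fin (m + 1 + 1) →
        Fin (m + 1 + 1) → ℝ)) = - ((-1) ^ (j : ℕ) *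
      ((Matrix.of (Fin.cons z (fun i => c (j.succAbove i)) : Fin (m + 1 + 1) →
        Fin (m + 1 + 1) → ℝ)).det *
      J (gram (Fin.cons z (fun i => c (j.succAbove i)) : Fin (m + 1 + 1) →
        Fin (m + 1 + 1) → ℝ)))) := fun j => by ring
  rw [Finset.sum_congr rfl fun j _ => h4 j, Finset.sum_neg_distrib] at h
  linarith

/-- The coboundary of `Θ` on a simplex of a real form. -/
theorem theta_cocycle (hm : 1 ≤ m) (ρ : k →+ ℝ) (hρ : ∀ x y, ρ (rc k x * y) = x * ρ y)
    (hρ1 : ρ 1 = 1) (ε : k) {T : Matrix (Fin (m + 1 + 1)) (Fin (m + 1 + 1)) k} (hT : IsLor T)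
    (c : Fin (m + 1 + 1) → Fin (m + 1 + 1) → ℝ) (hc : ∀ i, FC (c i)) :
    ∑ j : Fin (m + 1 + 1), (-1) ^ (j : ℕ) *
      Theta ρ ε (fun i => T.mulVec (toR (c (j.succAbove i)))) =
    ρ (ε * (Matrix.of fun i => T.mulVec (toR (c i))).det) * J (gram c) := by
  -- the chosen point
  set CT : Set (Fin (m + 1 + 1) → k) := {o | ∃ z, FT z ∧ o = T.mulVec (toR z)} with hCT
  have hne : ∃ o, o ∈ CT := ⟨_, Pi.single 0 1, FT.single, rfl⟩
  obtain ⟨z, hz, ho⟩ := Classical.epsilon_spec hne
  have hρr : ∀ x, ρ (rc k x) = x := by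
    intro x
    have := hρ x 1
    rw [mul_one, hρ1, mul_one] at this; exact this
  have key : ∀ j : Fin (m + 1 + 1), Theta ρ ε (fun i => T.mulVec (toR (c (j.succAbove i)))) =
      ρ (ε * T.det) * ((Matrix.of (Fin.cons z (fun i => c (j.succAbove i)) : Fin (m + 1 + 1) →
        Fin (m + 1 + 1) → ℝ)).det *
      J (gram (Fin.cons z (fun i => c (j.succAbove i)) : Fin (m + 1 + 1) →
        Fin (m + 1 + 1) → ℝ))) := by
    intro j
    by_cases hj : LinearIndependent ℝ (fun i => c (j.succAbove i))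
    · have hC := cone_eq (k := k) hm hT (fun i => hc (j.succAbove i)) hj
      rw [← hCT] at hC
      unfold Theta
      rw [hC, if_pos ⟨_, hne.choose_spec⟩, ho]
      have h1 : (Fin.cons (T.mulVec (toR z)) (fun i => T.mulVec (toR (c (j.succAbove i)))) :
          Fin (m + 1 + 1) → Fin (m + 1 + 1) → k) =
          fun i => T.mulVec (toR ((Fin.cons z (fun i => c (j.succAbove i)) : Fin (m + 1 + 1) →
            Fin (m + 1 + 1) → ℝ) i)) := by
        funext i
        refine Fin.cases ?_ (fun i => ?_) i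
        · rfl
        · rfl
      rw [h1, det_of_mulVec, det_of_toR]
      have h2 : ε * (T.det * rc k (Matrix.of (Fin.cons z (fun i => c (j.succAbove i)) :
          Fin (m + 1 + 1) → Fin (m + 1 + 1) → ℝ)).det) =
          rc k (Matrix.of (Fin.cons z (fun i => c (j.succAbove i)) :
          Fin (m + 1 + 1) → Fin (m + 1 + 1) → ℝ)).det * (ε * T.det) := by ring
      rw [h2, hρ]
      have h3 : (gram fun i => T.mulVec (toR ((Fin.cons z (fun i => c (j.succAbove i)) :
          Fin (m + 1 + 1) → Fin (m + 1 + 1) → ℝ) i) : Fin (m + 1 + 1) → k)).map ρ =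
          gram (Fin.cons z (fun i => c (j.succAbove i)) :
          Fin (m + 1 + 1) → Fin (m + 1 + 1) → ℝ) := by
        ext a b
        rw [Matrix.map_apply, gram, Matrix.of_apply, hT, lf_toR, hρr]; rfl
      rw [h3]; ring
    · have h1 : (Matrix.of (Fin.cons z (fun i => c (j.succAbove i)) : Fin (m + 1 + 1) →
          Fin (m + 1 + 1) → ℝ)).det = 0 := by
        by_contra hd
        apply hj
        have h2 := Matrix.linearIndependent_rows_of_det_ne_zero hd
        have h3 := h2.comp Fin.succ (Fin.succ_injective _)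
        exact h3
      rw [h1, zero_mul, mul_zero]
      unfold Theta
      rw [if_neg (cone_empty hj)]
  simp only [key]
  have h5 := real_cocycle hm hz c hc
  have h6 : ∀ j : Fin (m + 1 + 1), (-1 : ℝ) ^ (j : ℕ) * (ρ (ε * T.det) * ((Matrix.of (Fin.cons z
      (fun i => c (j.succAbove i)) : Fin (m + 1 + 1) → Fin (m + 1 + 1) → ℝ)).det *
      J (gram (Fin.cons z (fun i => c (j.succAbove i)) : Fin (m + 1 + 1) →
        Fin (m + 1 + 1) → ℝ)))) = ρ (ε * T.det) * ((-1 : ℝ) ^ (j : ℕ) * ((Matrix.of (Fin.cons z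
      (fun i => c (j.succAbove i)) : Fin (m + 1 + 1) → Fin (m + 1 + 1) → ℝ)).det *
      J (gram (Fin.cons z (fun i => c (j.succAbove i)) : Fin (m + 1 + 1) →
        Fin (m + 1 + 1) → ℝ)))) := fun j => by ring
  rw [Finset.sum_congr rfl fun j _ => h6 j, ← Finset.mul_sum, h5, det_of_mulVec, det_of_toR]
  have h7 : ε * (T.det * rc k (Matrix.of c).det) = rc k (Matrix.of c).det * (ε * T.det) := by ring
  rw [h7, hρ]; ring

/-- A real-linear projection onto the real numbers. -/
theorem exists_rho (k : Type*) [Field k] [Algebra ℂ k] :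
    ∃ ρ : k →+ ℝ, (∀ x y, ρ (rc k x * y) = x * ρ y) ∧ ρ 1 = 1 := by
  obtain ⟨g, hg⟩ := LinearMap.exists_leftInverse_of_injective (Algebra.linearMap ℝ k)
    (LinearMap.ker_eq_bot.mpr (FaithfulSMul.algebraMap_injective ℝ k))
  refine ⟨g.toAddMonoidHom, fun x y => ?_, ?_⟩
  · have : rc k x * y = x • y := by
      rw [Algebra.smul_def]; rfl
    change g (rc k x * y) = x * g y
    rw [this, map_smul]; rfl
  · have := congrArg (fun f => f 1) hg
    simpa using this

end Bellows
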