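import Pool.Agent.Bellows.Std
import Pool.Agent.Bellows.Theta

/-!
# Rotated frames, lattices of plates, reduction of real vectors
-/

namespace Bellows

open Matrix DOrd

attribute [local irreducible] DOrd.instFieldK

section columns

variable {R : Type*} [CommRing R] {d : ℕ}

theorem IsLor.columns {A : Matrix (Fin (d + 1)) (Fin (d + 1)) R} (hA : IsLor A)
    (k l : Fin (d + 1)) : ∑ i, sgn R i * (A i k * A i l) = if k = l then sgn R k else 0 := by
  have h := hA (Pi.single k 1) (Pi.single l 1)
  rw [lf_single_single, lf_eq_sum_sgn] at h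
  simpa using h

theorem IsLor.rows {A : Matrix (Fin (d + 1)) (Fin (d + 1)) R} (hA : IsLor A)
    (i j : Fin (d + 1)) : ∑ k, sgn R k * (A i k * A j k) = if i = j then sgn R i else 0 := by
  have h := hA.expand (Pi.single j 1)
  have h2 := congrFun h i
  rw [Finset.sum_apply] at h2
  simp only [Pi.smul_apply, smul_eq_mul, Matrix.mulVec_single_one, Matrix.col_apply] at h2
  have h3 : ∀ k, lf (Pi.single j 1) (fun i => A i k) = sgn R j * A j k := by
    intro k; rw [lf_single_left]; rfl
  have h4 : ∀ k, sgn R k * lf (Pi.single j 1) (A.col k) * A i k = sgn R j * (sgn R k * (A i k * A j k)) := by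
    intro k
    have : lf (Pi.single j 1) (A.col k) = sgn R j * A j k := h3 k
    rw [this]; ring
  rw [Finset.sum_congr rfl fun k _ => h4 k, ← Finset.mul_sum] at h2
  have h5 := congrArg (fun z => sgn R j * z) h2
  simp only [← mul_assoc, sgn_mul_sgn, one_mul] at h5
  have h6 : ∑ k, sgn R k * (A i k * A j k) = ∑ k, sgn R k * A i k * A j k :=
    Finset.sum_congr rfl fun k _ => by ring
  rw [h6, ← h5, Pi.single_apply]
  by_cases hij : i = j
  · subst hij; simp
  · rw [if_neg hij, if_neg hij, mul_zero]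

end columns

variable {K : Type*} [Field K] [Algebra ℂ K] {v : DOrd K} {m : ℕ}

theorem ge_rc (x : ℝ) : v.Ge 0 (rc K x) := Ge.const _

theorem red_rc (x : ℝ) : v.red (rc K x) = rc v.k x := red_const _

theorem rc_sgn {n : ℕ} (k : Fin (n + 1)) : rc K (sgn ℝ k) = sgn K k := by
  unfold sgn; split_ifs <;> simp

namespace HFrame

/-- Rotation of the first vectors of a frame by a real Lorentz matrix. -/
noncomputable def rot (B : HFrame K m) (A : Matrix (Fin (m + 1 + 1)) (Fin (m + 1 + 1)) ℝ)
    (hA : IsLor A) : HFrame K m where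
  e k := ∑ l, rc K (A l k) • B.e l
  P := B.P
  Q := B.Q
  ee k l := by
    rw [lf_sum_left]
    have h1 : ∀ i, lf (rc K (A i k) • B.e i) (∑ j, rc K (A j l) • B.e j) =
        rc K (sgn ℝ i * (A i k * A i l)) := by
      intro i
      rw [lf_sum_right, Finset.sum_eq_single i]
      · rw [lf_smul_left, lf_smul_right, B.ee, if_pos rfl, map_mul, map_mul, rc_sgn]; ring
      · intro j _ hj
        rw [lf_smul_left, lf_smul_right, B.ee, if_neg hj.symm]; ring
      · simp
    rw [Finset.sum_congr rfl fun i _ => h1 i, ← map_sum, hA.columns]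
    split_ifs
    · rw [rc_sgn]
    · simp
  eP k := by
    rw [lf_sum_left]
    exact Finset.sum_eq_zero fun i _ => by rw [lf_smul_left, B.eP, mul_zero]
  eQ k := by
    rw [lf_sum_left]
    exact Finset.sum_eq_zero fun i _ => by rw [lf_smul_left, B.eQ, mul_zero]
  PP := B.PP
  QQ := B.QQ
  PQ := B.PQ
  exp x := by
    conv_lhs => rw [B.exp x]
    congr 2
    have h1 : ∀ k, (sgn K k * lf x (∑ l, rc K (A l k) • B.e l)) • (∑ l, rc K (A l k) • B.e l) =
        ∑ i, ∑ j, (rc K (sgn ℝ k * (A i k * A j k)) * lf x (B.e i)) • B.e j := by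
      intro k
      rw [lf_sum_right, Finset.mul_sum, Finset.sum_smul]
      refine Finset.sum_congr rfl fun i _ => ?_
      rw [Finset.smul_sum]
      refine Finset.sum_congr rfl fun j _ => ?_
      rw [smul_smul, lf_smul_right, map_mul, map_mul, rc_sgn]
      congr 1; ring
    rw [Finset.sum_congr rfl fun k _ => h1 k, Finset.sum_comm]
    refine Finset.sum_congr rfl fun i _ => ?_
    rw [Finset.sum_comm, Finset.sum_eq_single i]
    · rw [← Finset.sum_smul, ← Finset.sum_mul, ← map_sum, hA.rows, if_pos rfl, rc_sgn]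
    · intro j _ hj
      rw [← Finset.sum_smul, ← Finset.sum_mul, ← map_sum, hA.rows, if_neg hj.symm]
      simp
    · simp

theorem L_rot (B : HFrame K m) (A : Matrix (Fin (m + 1 + 1)) (Fin (m + 1 + 1)) ℝ)
    (hA : IsLor A) (i : ℤ) : (B.rot A hA).L v i = B.L v i := by
  ext x
  have hPQ : ∀ a b c d : Prop, (a ↔ b) → ((a ∧ c ∧ d) ↔ (b ∧ c ∧ d)) := by tauto
  apply hPQ
  constructor
  · intro h k
    -- express `e k` through the rotated vectors
    have h1 : B.e k = ∑ l, (rc K (sgn ℝ k * (sgn ℝ l * A k l))) • (B.rot A hA).e l := by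
      change _ = ∑ l, (rc K (sgn ℝ k * (sgn ℝ l * A k l))) • ∑ j, rc K (A j l) • B.e j
      simp only [Finset.smul_sum, smul_smul]
      rw [Finset.sum_comm, Finset.sum_eq_single k]
      · rw [← Finset.sum_smul]
        have : ∑ i, rc K (sgn ℝ k * (sgn ℝ i * A k i)) * rc K (A k i) = 1 := by
          have h2 : ∀ i, rc K (sgn ℝ k * (sgn ℝ i * A k i)) * rc K (A k i) =
              rc K (sgn ℝ k * (sgn ℝ i * (A k i * A k i))) := by
            intro i; rw [← map_mul]; congr 1; ring
          rw [Finset.sum_congr rfl fun i _ => h2 i, ← map_sum, ← Finset.mul_sum, hA.rows,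
            if_pos rfl, sgn_mul_sgn, map_one]
        rw [this, one_smul]
      · intro j _ hj
        rw [← Finset.sum_smul]
        have : ∑ i, rc K (sgn ℝ k * (sgn ℝ i * A k i)) * rc K (A j i) = 0 := by
          have h2 : ∀ i, rc K (sgn ℝ k * (sgn ℝ i * A k i)) * rc K (A j i) =
              rc K (sgn ℝ k * (sgn ℝ i * (A k i * A j i))) := by
            intro i; rw [← map_mul]; congr 1; ring
          rw [Finset.sum_congr rfl fun i _ => h2 i, ← map_sum, ← Finset.mul_sum, hA.rows,
            if_neg hj.symm, mul_zero, map_zero]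
        rw [this, zero_smul]
      · simp
    rw [h1, lf_sum_right]
    refine Ge.sum fun l _ => ?_
    rw [lf_smul_right]
    exact (ge_rc _).mul0 (h l)
  · intro h k
    change v.Ge 0 (lf x (∑ l, rc K (A l k) • B.e l))
    rw [lf_sum_right]
    refine Ge.sum fun l _ => ?_
    rw [lf_smul_right]
    exact (ge_rc _).mul0 (h l)

/-- Additivity of the reduced coordinates. -/
theorem ub_real_comb (B : HFrame K m) {ι : Type*} (s : Finset ι) (c : ι → ℝ)
    (x : ι → Fin (m + 3 + 1) → K) (hx : ∀ i ∈ s, B.In v 0 0 (x i)) :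
    B.ub v (∑ i ∈ s, rc K (c i) • x i) = ∑ i ∈ s, rc v.k (c i) • B.ub v (x i) := by
  funext k
  unfold ub
  rw [lf_sum_left, red_sum, Finset.mul_sum, Finset.sum_apply]
  · refine Finset.sum_congr rfl fun i hi => ?_
    rw [lf_smul_left, red_mul (ge_rc _) ((hx i hi).1 k), red_rc]
    simp only [Pi.smul_apply, smul_eq_mul]; ring
  · intro i hi
    rw [lf_smul_left]
    exact (ge_rc _).mul0 ((hx i hi).1 k)

theorem In.real_comb (B : HFrame K m) {j : ℤ} {ι : Type*} (s : Finset ι) (c : ι → ℝ)
    (x : ι → Fin (m + 3 + 1) → K) (hx : ∀ i ∈ s, B.In v j 0 (x i)) :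
    B.In v j 0 (∑ i ∈ s, rc K (c i) • x i) := by
  refine In.sum B fun i hi => ?_
  have := In.smul B (ge_rc (v := v) (c i)) (hx i hi)
  simpa using this

/-- The reduced form on vectors of the intersection of the two lattices of an edge. -/
theorem lf_ub_of_mem (B : HFrame K m) {x y : Fin (m + 3 + 1) → K} (hx : B.In v 0 0 x)
    (hy : B.In v 0 0 y) (hx' : B.In v (-1) 0 x) (hy' : B.In v (-1) 0 y) :
    lf (B.ub v x) (B.ub v y) = v.red (lf x y) := by
  have h := lf_ub B hx hy
  have h1 : v.red (lf x B.P) = 0 := (red_eq_zero (ge0 B hx).1).mpr hx'.2.1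
  have h2 : v.red (lf y B.P) = 0 := (red_eq_zero (ge0 B hy).1).mpr hy'.2.1
  rw [h1, h2, mul_zero, zero_mul, add_zero, mul_zero, add_zero] at h
  exact h

end HFrame

end Bellows
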