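import Pool.Agent.Bellows.Orient
import Pool.Agent.Bellows.Herm

/-!
# The standard hyperbolic frame and its images under Lorentz matrices
-/

namespace Bellows

open Matrix DOrd

theorem lf_single_single {R : Type*} [CommRing R] {d : ℕ} (i j : Fin (d + 1)) :
    lf (Pi.single i 1 : Fin (d + 1) → R) (Pi.single j 1) = if i = j then sgn R i else 0 := by
  rw [lf_single_left]
  by_cases h : i = j
  · subst h; simp [sgn]
  · rw [if_neg h, Pi.single_apply, if_neg h, mul_zero]

variable {K : Type*} [Field K] {m : ℕ}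

namespace HFrame

/-- The image of a frame under a Lorentz matrix. -/
noncomputable def map (B : HFrame K m) (g : Matrix (Fin (m + 3 + 1)) (Fin (m + 3 + 1)) K) (hg : IsLor g) :
    HFrame K m where
  e k := g.mulVec (B.e k)
  P := g.mulVec B.P
  Q := g.mulVec B.Q
  ee k l := by rw [hg, B.ee]
  eP k := by rw [hg, B.eP]
  eQ k := by rw [hg, B.eQ]
  PP := by rw [hg, B.PP]
  QQ := by rw [hg, B.QQ]
  PQ := by rw [hg, B.PQ]
  exp x := by
    conv_lhs => rw [← hg.mulVec_inv x, B.exp (g⁻¹.mulVec x)]
    rw [Matrix.mulVec_add, Matrix.mulVec_add, Matrix.mulVec_sum]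
    simp only [Matrix.mulVec_smul]
    have h : ∀ y, lf (g⁻¹.mulVec x) y = lf x (g.mulVec y) := by
      intro y
      rw [← hg, hg.mulVec_inv]
    simp only [h]

theorem D_map (B : HFrame K m) (g : Matrix (Fin (m + 3 + 1)) (Fin (m + 3 + 1)) K) (hg : IsLor g) :
    (B.map g hg).D = g.det * B.D := by
  unfold D
  rw [mul_comm, ← Matrix.det_transpose g, ← Matrix.det_mul]
  congr 1
  ext i j
  have h : (B.map g hg).vec i = g.mulVec (B.vec i) := by
    unfold vec
    refine Fin.lastCases (n := m + 1 + 1 + 1) ?_ (fun i => ?_) i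
    · rw [Fin.snoc_last, Fin.snoc_last]; rfl
    · rw [Fin.snoc_castSucc, Fin.snoc_castSucc]
      refine Fin.lastCases ?_ (fun i => ?_) i
      · rw [Fin.snoc_last, Fin.snoc_last]; rfl
      · rw [Fin.snoc_castSucc, Fin.snoc_castSucc]; rfl
  rw [Matrix.of_apply, h, Matrix.mul_apply, Matrix.mulVec, dotProduct]
  refine Finset.sum_congr rfl fun k _ => ?_
  rw [Matrix.of_apply, Matrix.transpose_apply, mul_comm]

variable [Algebra ℂ K]

/-- The imaginary unit in `K`. -/
noncomputable def ii (K : Type*) [Field K] [Algebra ℂ K] : K := algebraMap ℂ K Complex.I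

theorem ii_sq : ii K * ii K = -1 := by
  unfold ii; rw [← map_mul, Complex.I_mul_I]; simp

/-- the basis vector number `m + 2` -/
def b1 (K : Type*) [Field K] (m : ℕ) : Fin (m + 3 + 1) → K := Pi.single ⟨m + 2, by omega⟩ 1

/-- the basis vector number `m + 3` -/
def b2 (K : Type*) [Field K] (m : ℕ) : Fin (m + 3 + 1) → K := Pi.single ⟨m + 3, by omega⟩ 1

omit [Algebra ℂ K] in
theorem b11 : lf (b1 K m) (b1 K m) = 1 := by
  unfold b1; rw [lf_single_single, if_pos rfl]; unfold sgn; rw [if_neg]; simp [Fin.ext_iff]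
omit [Algebra ℂ K] in
theorem b22 : lf (b2 K m) (b2 K m) = 1 := by
  unfold b2; rw [lf_single_single, if_pos rfl]; unfold sgn; rw [if_neg]; simp [Fin.ext_iff]
omit [Algebra ℂ K] in
theorem b12 : lf (b1 K m) (b2 K m) = 0 := by
  unfold b1 b2; rw [lf_single_single, if_neg]; simp [Fin.ext_iff]
omit [Algebra ℂ K] in
theorem b21 : lf (b2 K m) (b1 K m) = 0 := by rw [lf_comm, b12]

/-- The standard frame. -/
noncomputable def std (K : Type*) [Field K] [Algebra ℂ K] (m : ℕ) : HFrame K m where
  e k := Pi.single (Fin.castLE (by omega) k) 1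
  P := b1 K m - ii K • b2 K m
  Q := b1 K m + ii K • b2 K m
  ee k l := by
    rw [lf_single_single]
    by_cases h : k = l
    · subst h; rw [if_pos rfl, if_pos rfl]; unfold sgn; simp only [Fin.ext_iff]; rfl
    · rw [if_neg h, if_neg (fun h' => h (Fin.castLE_injective _ h'))]
  eP k := by
    have h1 : lf (Pi.single (Fin.castLE (by omega) k) 1) (b1 K m) = 0 := by
      unfold b1; rw [lf_single_single, if_neg]; simp only [Fin.ext_iff, Fin.val_castLE]; have := k.2; omega
    have h2 : lf (Pi.single (Fin.castLE (by omega) k) 1) (b2 K m) = 0 := by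
      unfold b2; rw [lf_single_single, if_neg]; simp only [Fin.ext_iff, Fin.val_castLE]; have := k.2; omega
    rw [lf_sub_right, lf_smul_right, h1, h2]; ring
  eQ k := by
    have h1 : lf (Pi.single (Fin.castLE (by omega) k) 1) (b1 K m) = 0 := by
      unfold b1; rw [lf_single_single, if_neg]; simp only [Fin.ext_iff, Fin.val_castLE]; have := k.2; omega
    have h2 : lf (Pi.single (Fin.castLE (by omega) k) 1) (b2 K m) = 0 := by
      unfold b2; rw [lf_single_single, if_neg]; simp only [Fin.ext_iff, Fin.val_castLE]; have := k.2; omega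
    rw [lf_add_right, lf_smul_right, h1, h2]; ring
  PP := by
    rw [lf_sub_left, lf_sub_right, lf_sub_right, lf_smul_left, lf_smul_left, lf_smul_right,
      lf_smul_right, b11, b12, b21, b22]
    linear_combination ii_sq (K := K)
  QQ := by
    rw [lf_add_left, lf_add_right, lf_add_right, lf_smul_left, lf_smul_left, lf_smul_right,
      lf_smul_right, b11, b12, b21, b22]
    linear_combination ii_sq (K := K)
  PQ := by
    rw [lf_sub_left, lf_add_right, lf_add_right, lf_smul_left, lf_smul_left, lf_smul_right,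
      lf_smul_right, b11, b12, b21, b22]
    linear_combination -ii_sq (K := K)
  exp x := by
    have hx : x = ∑ i : Fin (m + 1 + 1 + 1 + 1), (sgn K i * lf x (Pi.single i 1)) •
        (Pi.single i 1 : Fin (m + 3 + 1) → K) := by
      funext j
      rw [Finset.sum_apply, Finset.sum_eq_single j]
      · rw [lf_comm, lf_single_left]
        simp only [Pi.smul_apply, Pi.single_eq_same, smul_eq_mul, mul_one]
        rw [← mul_assoc]
        have : (if j = 0 then (-1 : K) else 1) = sgn K j := rfl
        rw [this, sgn_mul_sgn, one_mul]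
      · intro i _ hi
        simp [hi.symm]
      · simp
    rw [Fin.sum_univ_castSucc, Fin.sum_univ_castSucc] at hx
    have e1 : (Pi.single (Fin.last (m + 1 + 1 + 1)) 1 : Fin (m + 3 + 1) → K) = b2 K m := rfl
    have e2 : (Pi.single (Fin.castSucc (Fin.last (m + 1 + 1))) 1 : Fin (m + 3 + 1) → K) = b1 K m := rfl
    have e3 : sgn K (Fin.last (m + 1 + 1 + 1)) = 1 := by
      unfold sgn; rw [if_neg (Fin.last_pos.ne')]
    have e4 : sgn K (Fin.castSucc (Fin.last (m + 1 + 1))) = 1 := by
      unfold sgn; rw [if_neg]; simp [Fin.ext_iff]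
    rw [e1, e2, e3, e4, one_mul, one_mul] at hx
    conv_lhs => rw [hx]
    refine Eq.trans (add_assoc _ _ _) (Eq.trans ?_ (add_assoc _ _ _).symm)
    congr 1
    · refine Finset.sum_congr rfl fun k _ => ?_
      have h1 : sgn K k.castSucc.castSucc = sgn K k := by
        unfold sgn; simp only [Fin.ext_iff]; rfl
      rw [h1]; rfl
    · rw [lf_add_right, lf_sub_right, lf_smul_right]
      have h2 := mul_inv_cancel₀ (two_ne K)
      funext j
      simp only [Pi.add_apply, Pi.smul_apply, Pi.sub_apply, smul_eq_mul]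
      linear_combination (-(lf x (b1 K m) * b1 K m j + lf x (b2 K m) * b2 K m j)) * h2 +
        2 * 2⁻¹ * lf x (b2 K m) * b2 K m j * ii_sq (K := K)

theorem D_std : (std K m).D = 2 * ii K := by
  rw [D_eq]
  change Phi (n := m + 1 + 1) (std K m).e (b1 K m - ii K • b2 K m) (b1 K m + ii K • b2 K m) = _
  rw [sub_eq_add_neg, ← neg_smul, Phi_add_left, Phi_add_right, Phi_add_right, Phi_smul_left, Phi_smul_left,
    Phi_smul_right, Phi_smul_right, Phi_self, Phi_self, Phi_swap _ (b1 K m) (b2 K m)]
  have h : Phi (n := m + 1 + 1) (std K m).e (b1 K m) (b2 K m) = 1 := by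
    unfold Phi
    rw [← Matrix.det_one (n := Fin (m + 1 + 1 + 1 + 1))]
    congr 1
    ext i j
    rw [Matrix.of_apply]
    refine Fin.lastCases ?_ (fun i => ?_) i
    · rw [Fin.snoc_last, Matrix.one_apply]
      unfold b2; rw [Pi.single_apply]
      simp only [Fin.ext_iff, Fin.val_last, eq_comm]
    · rw [Fin.snoc_castSucc]
      refine Fin.lastCases ?_ (fun i => ?_) i
      · rw [Fin.snoc_last, Matrix.one_apply]
        unfold b1; rw [Pi.single_apply]
        simp only [Fin.ext_iff, Fin.val_last, Fin.val_castSucc, eq_comm]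
      · rw [Fin.snoc_castSucc, Matrix.one_apply]
        unfold std
        simp only [Pi.single_apply, Fin.ext_iff, Fin.val_castLE, Fin.val_castSucc, eq_comm]
  rw [h]; ring

end HFrame

end Bellows
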