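import Pool.Agent.Bellows.Ext

/-!
# The tree lemma
-/

namespace Bellows

open Matrix DOrd

variable {K : Type*} [Field K] [Algebra ℂ K] {v : DOrd K} {m : ℕ}

theorem red_sgn {n : ℕ} (k : Fin (n + 1)) : v.red (sgn K k) = sgn v.k k := by
  unfold sgn; split_ifs
  · rw [red_neg Ge.one, red_one]
  · exact red_one

theorem red_half : v.red (2⁻¹ : K) = 2⁻¹ := by
  have h : algebraMap ℂ K 2⁻¹ = 2⁻¹ := by rw [map_inv₀, map_ofNat (algebraMap ℂ K) 2]
  have h' : algebraMap ℂ v.k 2⁻¹ = 2⁻¹ := by rw [map_inv₀, map_ofNat (algebraMap ℂ v.k) 2]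
  rw [← h, red_const, h']

/-- `M` is closer to `L'` than to `L`. -/
def sig (v : DOrd K) {V : Type*} [SMul K V] (L L' M : Set V) : Prop :=
  ∃ t : ℤ, (∀ x ∈ M, v.tau ^ t • x ∈ L') ∧ ¬ (∀ x ∈ M, v.tau ^ t • x ∈ L)

namespace HFrame

variable (B B' : HFrame K m)

/-- Reduced coordinates. -/
noncomputable def ub (v : DOrd K) (B : HFrame K m) (x : Fin (m + 3 + 1) → K) :
    Fin (m + 1 + 1) → v.k :=
  fun k => sgn v.k k * v.red (lf x (B.e k))

theorem ge0 {x : Fin (m + 3 + 1) → K} (hx : B.In v 0 0 x) :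
    v.Ge 0 (lf x B.P) ∧ v.Ge 0 (lf x B.Q) := by
  have h1 := hx.2.1
  have h2 := hx.2.2
  simp only [sub_zero, add_zero] at h1 h2
  exact ⟨h1, h2⟩

theorem lf_ub {x y : Fin (m + 3 + 1) → K} (hx : B.In v 0 0 x) (hy : B.In v 0 0 y) :
    lf (B.ub v x) (B.ub v y) + 2⁻¹ * (v.red (lf x B.Q) * v.red (lf y B.P) +
      v.red (lf x B.P) * v.red (lf y B.Q)) = v.red (lf x y) := by
  obtain ⟨hx2, hx3⟩ := ge0 B hx
  obtain ⟨hy2, hy3⟩ := ge0 B hy
  have h1 : ∀ k ∈ Finset.univ, v.Ge 0 (sgn K k * lf x (B.e k) * lf y (B.e k)) := fun k _ =>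
    ((ge_sgn k).mul0 (hx.1 k)).mul0 (hy.1 k)
  have h2 : v.Ge 0 (lf x B.Q * lf y B.P + lf x B.P * lf y B.Q) :=
    (hx3.mul0 hy2).add (hx2.mul0 hy3)
  rw [B.parseval x y, red_add (Ge.sum h1) (ge_half.mul0 h2), red_sum h1, red_mul ge_half h2,
    red_add (hx3.mul0 hy2) (hx2.mul0 hy3), red_mul hx3 hy2, red_mul hx2 hy3, red_half,
    lf_eq_sum_sgn]
  congr 1
  refine Finset.sum_congr rfl fun k _ => ?_
  rw [red_mul ((ge_sgn k).mul0 (hx.1 k)) (hy.1 k), red_mul (ge_sgn k) (hx.1 k), red_sgn]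
  unfold ub
  linear_combination (sgn v.k k * v.red (lf x (B.e k)) * v.red (lf y (B.e k))) *
    sgn_mul_sgn (R := v.k) k

/-- The order of the last vector of a frame whose other vectors lie in the lattice. -/
theorem order_last (hb : ∀ i : Fin (m + 1), B.In v 0 0 (B'.e i.castSucc)) {p q a : ℤ}
    (hp : B.In v 0 p B'.P) (hq : B.In v 0 q B'.Q)
    (ha' : ¬ B.In v 0 (a + 1) (B'.e (Fin.last _))) :
    0 ≤ a ∨ p + q ≤ 2 * a := by
  by_contra hc
  push Not at hc
  obtain ⟨ha0, hpq⟩ := hc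
  set z := B'.e (Fin.last _) with hz
  -- a vector of the lattice which pairs with `z` to an element of order `a`
  obtain ⟨w0, hw0, hwz⟩ : ∃ w0, B.In v 0 0 w0 ∧ ¬ v.Ge (a + 1) (lf w0 z) := by
    by_contra hc
    push Not at hc
    apply ha'
    refine ⟨fun k => ?_, ?_, ?_⟩
    · rw [lf_comm]; exact hc _ (in_e B k 0)
    · rw [lf_comm, sub_zero]; exact hc _ ((in_P_iff B 0 0).mpr (by omega))
    · rw [lf_comm, add_zero]; exact hc _ ((in_Q_iff B 0 0).mpr (by omega))
  set w : Fin (m + 3 + 1) → K := w0 - ∑ i : Fin (m + 1), (sgn K i.castSucc * lf w0 (B'.e i.castSucc)) •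
    B'.e i.castSucc with hw
  have hwL : B.In v 0 0 w := by
    rw [hw, sub_eq_add_neg, ← Finset.sum_neg_distrib]
    refine In.add B hw0 (In.sum B fun i _ => ?_)
    rw [← neg_smul]
    have h := In.smul B (s := 0) (t := 0) (v := v) (j := 0)
      (c := -(sgn K i.castSucc * lf w0 (B'.e i.castSucc))) (x := B'.e i.castSucc)
      ((ge_sgn _).mul0 (by simpa using In.lf B hw0 (hb i))).neg (hb i)
    simpa using h
  have hwe : ∀ i : Fin (m + 1), lf w (B'.e i.castSucc) = 0 := by
    intro i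
    rw [hw, lf_sub_left, lf_sum_left, Finset.sum_eq_single i]
    · rw [lf_smul_left, B'.ee, if_pos rfl]
      linear_combination (-(lf w0 (B'.e i.castSucc))) * sgn_mul_sgn (R := K) i.castSucc
    · intro j _ hj
      rw [lf_smul_left, B'.ee, if_neg (fun h => hj (Fin.castSucc_injective _ h)), mul_zero]
    · simp
  have hwz2 : lf w z = lf w0 z := by
    rw [hw, lf_sub_left, lf_sum_left, Finset.sum_eq_zero, sub_zero]
    intro i _
    rw [lf_smul_left, hz, B'.ee, if_neg (Fin.castSucc_lt_last i).ne, mul_zero]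
  have h1 := B'.parseval w w
  rw [Fin.sum_univ_castSucc, Finset.sum_eq_zero (fun i _ => by rw [hwe]; ring), zero_add, ← hz,
    hwz2] at h1
  have hs : sgn K (Fin.last (m + 1)) = 1 := by
    unfold sgn; rw [if_neg (Fin.last_pos.ne')]
  rw [hs] at h1
  -- orders
  have h2 : v.Ge (2 * a + 1) (lf w w) := by
    refine Ge.mono (by omega) (In.lf B hwL hwL)
  have h3 : v.Ge (2 * a + 1) (2⁻¹ * (lf w B'.Q * lf w B'.P + lf w B'.P * lf w B'.Q)) := by
    refine ge_half.mul0 (Ge.add ?_ ?_)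
    · exact ((In.lf B hwL hq).mul (In.lf B hwL hp)).mono (by omega)
    · exact ((In.lf B hwL hp).mul (In.lf B hwL hq)).mono (by omega)
  have h4 : v.Ge (2 * a + 1) (lf w0 z * lf w0 z) := by
    have : lf w0 z * lf w0 z = lf w w -
      2⁻¹ * (lf w B'.Q * lf w B'.P + lf w B'.P * lf w B'.Q) := by linear_combination -h1
    rw [this]; exact h2.sub h3
  rw [not_ge_iff] at hwz
  rcases h4 with h4 | h4
  · exact hwz.1 (by simpa using h4)
  · rw [v.mul _ _ hwz.1 hwz.1] at h4
    omega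

theorem sum_orders_le {p q : ℤ} (hp : B.In v 0 p B'.P) (hq : B.In v 0 q B'.Q) : p + q ≤ 0 := by
  have h := In.lf B hp hq
  rw [B'.PQ] at h
  rcases h with h | h
  · exact absurd h (two_ne K)
  · rw [ord_two] at h; exact h

/-- When is `τ^t M_i` contained in the lattice. -/
theorem sub_iff (hb : ∀ i : Fin (m + 1), B.In v 0 0 (B'.e i.castSucc)) {p q : ℤ}
    (hp : B.In v 0 p B'.P) (hp' : ¬ B.In v 0 (p + 1) B'.P)
    (hq : B.In v 0 q B'.Q) (hq' : ¬ B.In v 0 (q + 1) B'.Q) (i t : ℤ) :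
    (∀ x ∈ B'.L v i, v.tau ^ t • x ∈ B.L v 0) ↔ (-p - i ≤ t ∧ -q + i ≤ t) := by
  have hmem : ∀ x, v.tau ^ t • x ∈ B.L v 0 ↔ B.In v 0 (-t) x := by
    intro x
    change B.In v 0 0 _ ↔ _
    rw [in_tau_smul, zero_sub]
  simp only [hmem]
  constructor
  · intro h
    constructor
    · have h1 := h (v.tau ^ i • B'.P) (by
        change B'.In v i 0 _
        rw [in_tau_smul, in_P_iff]; omega)
      rw [in_tau_smul] at h1
      have := le_of_in B hp' h1
      omega
    · have h1 := h (v.tau ^ (-i) • B'.Q) (by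
        change B'.In v i 0 _
        rw [in_tau_smul, in_Q_iff]; omega)
      rw [in_tau_smul] at h1
      have := le_of_in B hq' h1
      omega
  · rintro ⟨h1, h2⟩ x hx
    have h3 := sum_orders_le B B' hp hq
    have hx1 := hx.1
    have hx2 := hx.2.1
    have hx3 := hx.2.2
    rw [B'.exp x]
    refine In.add B (In.add B (In.sum B fun k _ => ?_) ?_) ?_
    · have h4 : B.In v 0 (-t) (B'.e k) := by
        refine Fin.lastCases ?_ (fun k => ?_) k
        · obtain ⟨a, ha, ha'⟩ := exists_order (v := v) B (x := B'.e (Fin.last _)) (by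
            intro h
            have := B'.ee (Fin.last _) (Fin.last _)
            rw [h, lf_zero_left, if_pos rfl] at this
            unfold sgn at this
            rw [if_neg (Fin.last_pos.ne')] at this
            exact zero_ne_one this) 0
          rcases order_last B B' hb hp hq ha' with h | h
          · exact In.mono B (by omega) ha
          · exact In.mono B (by omega) ha
        · exact In.mono B (by omega) (hb k)
      have := In.smul B ((ge_sgn k).mul0 (hx1 k)) h4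
      simpa using this
    · have h5 := In.smul B (ge_half.mul0 hx3) hp
      exact In.mono B (by omega) h5
    · have h5 := In.smul B (ge_half.mul0 hx2) hq
      exact In.mono B (by omega) h5

/-- If the orders of the two isotropic vectors add up to zero, the lattice is on the line. -/
theorem eq_of_sum_zero (hb : ∀ i : Fin (m + 1), B.In v 0 0 (B'.e i.castSucc)) {p q : ℤ}
    (hp : B.In v 0 p B'.P) (hp' : ¬ B.In v 0 (p + 1) B'.P)
    (hq : B.In v 0 q B'.Q) (hq' : ¬ B.In v 0 (q + 1) B'.Q) (hpq : p + q = 0) :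
    B.L v 0 = B'.L v q := by
  have h1 := (sub_iff B B' hb hp hp' hq hq' q 0).mpr ⟨by omega, by omega⟩
  simp only [zpow_zero, one_smul] at h1
  apply Set.Subset.antisymm _ h1
  intro x hx
  refine ⟨fun k => ?_, ?_, ?_⟩
  · have h2 := h1 _ (in_e B' k q)
    simpa using In.lf B hx h2
  · have h2 : v.tau ^ q • B'.P ∈ B.L v 0 := h1 _ (by
      change B'.In v q 0 _
      rw [in_tau_smul, in_P_iff]; omega)
    have h3 := In.lf B hx h2
    rw [lf_smul_right, ge_tau_mul_iff] at h3
    simpa using h3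
  · have h2 : v.tau ^ (-q) • B'.Q ∈ B.L v 0 := h1 _ (by
      change B'.In v q 0 _
      rw [in_tau_smul, in_Q_iff]; omega)
    have h3 := In.lf B hx h2
    rw [lf_smul_right, ge_tau_mul_iff] at h3
    simpa using h3

/-- A vector of type one: primitive in the lattice, with reduction on the isotropic line of
the edge. -/
theorem type_one (hb : ∀ i : Fin (m + 1), B.In v 0 0 (B'.e i.castSucc))
    (hb' : ∀ i : Fin (m + 1), B.In v (-1) 0 (B'.e i.castSucc))
    {x : Fin (m + 3 + 1) → K} (hx : B.In v 0 0 x) (hx' : ¬ B.In v 0 1 x)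
    (hxx : lf x x = 0) (hxe : ∀ i : Fin (m + 1), lf x (B'.e i.castSucc) = 0)
    (h1 : v.Ge 1 (lf x B.P)) :
    (∀ k, v.Ge 1 (lf x (B.e k))) ∧ ¬ v.Ge 1 (lf x B.Q) ∧ v.Ge 2 (lf x B.P) := by
  have hP := (red_eq_zero (v := v) (ge0 B hx).1).mpr h1
  have hbP : ∀ i : Fin (m + 1), v.red (lf (B'.e i.castSucc) B.P) = 0 := by
    intro i
    rw [red_eq_zero (ge0 B (hb i)).1]
    exact (hb' i).2.1
  have hon : ON (fun i : Fin (m + 1) => B.ub v (B'.e i.castSucc)) := by
    intro i j
    have h := lf_ub B (hb i) (hb j)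
    rw [hbP, hbP, mul_zero, zero_mul, add_zero, mul_zero, add_zero] at h
    rw [h, B'.ee]
    by_cases hij : i = j
    · subst hij
      rw [if_pos rfl, if_pos rfl, red_sgn]
      unfold sgn; simp only [Fin.castSucc_eq_zero_iff]
    · rw [if_neg hij, if_neg (fun h => hij (Fin.castSucc_injective _ h)), red_zero]
  have hz : B.ub v x = 0 := by
    apply hon.eq_zero
    · intro i
      have h := lf_ub B (hb i) hx
      rw [hbP, hP, mul_zero, zero_mul, add_zero, mul_zero, add_zero] at h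
      rw [h, lf_comm, hxe, red_zero]
    · have h := lf_ub B hx hx
      rw [hP, mul_zero, zero_mul, add_zero, mul_zero, add_zero, hxx, red_zero] at h
      exact h
  have he : ∀ k, v.Ge 1 (lf x (B.e k)) := by
    intro k
    rw [← red_eq_zero (hx.1 k)]
    have h := congrFun hz k
    unfold ub at h
    simp only [Pi.zero_apply] at h
    have h2 := congrArg (fun z => sgn v.k k * z) h
    simp only [mul_zero, ← mul_assoc, sgn_mul_sgn, one_mul] at h2
    exact h2
  have hQ : ¬ v.Ge 1 (lf x B.Q) := by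
    intro h
    exact hx' ⟨he, by simpa using h1, by simpa using h⟩
  refine ⟨he, hQ, ?_⟩
  have h3 := B.parseval x x
  rw [hxx] at h3
  have h4 : v.Ge 2 (∑ k, sgn K k * lf x (B.e k) * lf x (B.e k)) := by
    refine Ge.sum fun k _ => ?_
    rw [mul_assoc]
    exact (ge_sgn k).mul0 (((he k).mul (he k)).mono (by norm_num))
  have h5 : v.Ge 2 (lf x B.P * lf x B.Q) := by
    have : lf x B.P * lf x B.Q = - ∑ k, sgn K k * lf x (B.e k) * lf x (B.e k) := by
      have h2 := mul_inv_cancel₀ (two_ne K)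
      linear_combination -h3 - lf x B.P * lf x B.Q * h2
    rw [this]; exact h4.neg
  rw [not_ge_iff] at hQ
  have h6 := (ge0 B hx).2
  rcases h6 with h6 | h6
  · exact absurd h6 hQ.1
  rcases h5 with h5 | h5
  · rcases mul_eq_zero.mp h5 with h7 | h7
    · exact Or.inl h7
    · exact absurd h7 hQ.1
  · by_cases h8 : lf x B.P = 0
    · exact Or.inl h8
    · rw [v.mul _ _ h8 hQ.1] at h5
      exact Or.inr (by omega)

/-- How the order of an isotropic vector changes along an edge. -/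
theorem order_change (hb : ∀ i : Fin (m + 1), B.In v 0 0 (B'.e i.castSucc))
    (hb' : ∀ i : Fin (m + 1), B.In v (-1) 0 (B'.e i.castSucc))
    {x : Fin (m + 3 + 1) → K} {p : ℤ} (hx : B.In v 0 p x) (hx' : ¬ B.In v 0 (p + 1) x)
    (hxx : lf x x = 0) (hxe : ∀ i : Fin (m + 1), lf x (B'.e i.castSucc) = 0) :
    (v.Ge (p + 1) (lf x B.P) ∧ B.In v (-1) (p + 1) x ∧ ¬ B.In v (-1) (p + 2) x) ∨
    (¬ v.Ge (p + 1) (lf x B.P) ∧ B.In v (-1) (p - 1) x ∧ ¬ B.In v (-1) p x) := by
  set x0 : Fin (m + 3 + 1) → K := v.tau ^ (-p) • x with hx0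
  have e1 : ∀ j s, B.In v j s x0 ↔ B.In v j (s + p) x := by
    intro j s
    rw [hx0, in_tau_smul, sub_neg_eq_add]
  have e2 : ∀ s, v.Ge s (lf x0 B.P) ↔ v.Ge (s + p) (lf x B.P) := by
    intro s
    rw [hx0, lf_smul_left, ge_tau_mul_iff, sub_neg_eq_add]
  by_cases h : v.Ge 1 (lf x0 B.P)
  · left
    have h2 := type_one B B' hb hb' (x := x0) (by rw [e1, zero_add]; exact hx)
      (by rw [e1, add_comm]; exact hx') (by rw [hx0, lf_smul_left, lf_smul_right, hxx]; ring)
      (fun i => by rw [hx0, lf_smul_left, hxe, mul_zero]) h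
    refine ⟨?_, ?_, ?_⟩
    · rw [e2, add_comm] at h; exact h
    · have h3 : B.In v (-1) 1 x0 := by
        refine ⟨h2.1, ?_, ?_⟩
        · exact h2.2.2.mono (by norm_num)
        · have h4 := ((e1 0 0).mpr (by simpa using hx)).2.2
          exact h4.mono (by norm_num)
      rw [e1, add_comm] at h3; exact h3
    · intro h3
      have h4 : B.In v (-1) 2 x0 := by rw [e1, add_comm]; exact h3
      exact h2.2.1 (h4.2.2.mono (by norm_num))
  · right
    have h5 : B.In v 0 0 x0 := by rw [e1, zero_add]; exact hx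
    refine ⟨?_, ?_, ?_⟩
    · rw [e2, add_comm] at h; exact h
    · have h3 : B.In v (-1) (-1) x0 := by
        refine ⟨fun k => (h5.1 k).mono (by norm_num), h5.2.1.mono (by norm_num),
          h5.2.2.mono (by norm_num)⟩
      rw [e1] at h3
      exact In.mono B (by omega) h3
    · intro h3
      have h4 : B.In v (-1) 0 x0 := by rw [e1, zero_add]; exact h3
      exact h (h4.2.1.mono (by norm_num))

/-- If the two isotropic vectors have negative total order, their types agree. -/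
theorem same_type (hb : ∀ i : Fin (m + 1), B.In v 0 0 (B'.e i.castSucc))
    (hb' : ∀ i : Fin (m + 1), B.In v (-1) 0 (B'.e i.castSucc))
    {x y : Fin (m + 3 + 1) → K} {p q : ℤ} (hx : B.In v 0 p x) (hx' : ¬ B.In v 0 (p + 1) x)
    (hy : B.In v 0 q y)
    (hxx : lf x x = 0) (hxe : ∀ i : Fin (m + 1), lf x (B'.e i.castSucc) = 0)
    (hxy : lf x y = 2) (hpq : p + q < 0) (h1 : v.Ge (p + 1) (lf x B.P)) :
    v.Ge (q + 1) (lf y B.P) := by
  set x0 : Fin (m + 3 + 1) → K := v.tau ^ (-p) • x with hx0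
  set y0 : Fin (m + 3 + 1) → K := v.tau ^ (-q) • y with hy0
  have hx0L : B.In v 0 0 x0 := by rw [hx0, in_tau_smul]; simpa using hx
  have hy0L : B.In v 0 0 y0 := by rw [hy0, in_tau_smul]; simpa using hy
  have hx0P : v.Ge 1 (lf x0 B.P) := by
    rw [hx0, lf_smul_left, ge_tau_mul_iff, sub_neg_eq_add, add_comm]; exact h1
  have h2 := type_one B B' hb hb' hx0L (by rw [hx0, in_tau_smul, sub_neg_eq_add, add_comm]; exact hx')
    (by rw [hx0, lf_smul_left, lf_smul_right, hxx]; ring)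
      (fun i => by rw [hx0, lf_smul_left, hxe, mul_zero]) hx0P
  have h3 : v.Ge 1 (lf x0 y0) := by
    rw [hx0, hy0, lf_smul_left, lf_smul_right, hxy, ge_tau_mul_iff, ge_tau_mul_iff]
    right; rw [ord_two]; omega
  have h4 := B.parseval x0 y0
  have h5 : v.Ge 1 (∑ k, sgn K k * lf x0 (B.e k) * lf y0 (B.e k)) := by
    refine Ge.sum fun k _ => ?_
    have := ((ge_sgn (v := v) k).mul0 (h2.1 k)).mul (hy0L.1 k)
    simpa using this
  have h6 : v.Ge 1 (lf x0 B.P * lf y0 B.Q) := by
    have := hx0P.mul (ge0 B hy0L).2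
    simpa using this
  have h7 : v.Ge 1 (lf x0 B.Q * lf y0 B.P) := by
    have e : lf x0 B.Q * lf y0 B.P = 2 * (lf x0 y0 -
        ∑ k, sgn K k * lf x0 (B.e k) * lf y0 (B.e k)) - lf x0 B.P * lf y0 B.Q := by
      have h2 := mul_inv_cancel₀ (two_ne K)
      linear_combination (-2) * h4 -
        (lf x0 B.Q * lf y0 B.P + lf x0 B.P * lf y0 B.Q) * h2
    rw [e]
    have h22 : v.Ge 0 (2 : K) := Or.inr (by rw [ord_two])
    exact (h22.mul0 (h3.sub h5)).sub h6
  have h8 := h2.2.1
  rw [not_ge_iff] at h8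
  have h9 : v.Ge 1 (lf y0 B.P) := by
    rcases h7 with h7 | h7
    · rcases mul_eq_zero.mp h7 with h | h
      · exact absurd h h8.1
      · exact Or.inl h
    · by_cases h : lf y0 B.P = 0
      · exact Or.inl h
      · rw [v.mul _ _ h8.1 h] at h7
        exact Or.inr (by omega)
  rw [hy0, lf_smul_left, ge_tau_mul_iff, sub_neg_eq_add, add_comm] at h9
  exact h9

/-- The tree lemma. -/
theorem tree (hb : ∀ i : Fin (m + 1), B.In v 0 0 (B'.e i.castSucc))
    (hb' : ∀ i : Fin (m + 1), B.In v (-1) 0 (B'.e i.castSucc)) :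
    (∀ i j, sig v (B.L v 0) (B.L v (-1)) (B'.L v i) ↔ sig v (B.L v 0) (B.L v (-1)) (B'.L v j)) ∨
    (∃ j, B.L v 0 = B'.L v j ∧ B.L v (-1) = B'.L v (j - 1)) ∨
    (∃ j, B.L v 0 = B'.L v j ∧ B.L v (-1) = B'.L v (j + 1)) := by
  have hP0 : B'.P ≠ 0 := by
    intro h; have := B'.PQ; rw [h, lf_zero_left] at this; exact two_ne K this.symm
  have hQ0 : B'.Q ≠ 0 := by
    intro h; have := B'.PQ; rw [h, lf_zero_right] at this; exact two_ne K this.symm
  obtain ⟨p, hp, hp'⟩ := exists_order (v := v) B hP0 0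
  obtain ⟨q, hq, hq'⟩ := exists_order (v := v) B hQ0 0
  have hPe : ∀ i : Fin (m + 1), lf B'.P (B'.e i.castSucc) = 0 := fun i => by
    rw [lf_comm, B'.eP]
  have hQe : ∀ i : Fin (m + 1), lf B'.Q (B'.e i.castSucc) = 0 := fun i => by
    rw [lf_comm, B'.eQ]
  have cP := order_change B B' hb hb' hp hp' B'.PP hPe
  have cQ := order_change B B' hb hb' hq hq' B'.QQ hQe
  -- the lattice `M_{-1}` as a lattice of level zero
  set B1 := B.shift v (-1) with hB1
  have hL1 : B.L v (-1) = B1.L v 0 := by rw [hB1, L_shift]; simp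
  have hI1 : ∀ t x, B.In v (-1) t x ↔ B1.In v 0 t x := by
    intro t x; rw [hB1, in_shift]; simp
  have hb1 : ∀ i : Fin (m + 1), B1.In v 0 0 (B'.e i.castSucc) := fun i => (hI1 _ _).mp (hb' i)
  have hs := sub_iff B B' hb hp hp' hq hq'
  rw [hL1]
  simp only [hI1] at cP cQ
  rcases cP with ⟨tP, hp1, hp1'⟩ | ⟨tP, hp1, hp1'⟩
  · rcases cQ with ⟨tQ, hq1, hq1'⟩ | ⟨tQ, hq1, hq1'⟩
    · -- both orders go up
      left
      have hs1 := sub_iff B1 B' hb1 hp1 (by rw [add_assoc]; exact hp1') hq1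
        (by rw [add_assoc]; exact hq1')
      have : ∀ i, sig v (B.L v 0) (B1.L v 0) (B'.L v i) := by
        intro i
        refine ⟨max (-(p + 1) - i) (-(q + 1) + i), (hs1 i _).mpr ⟨le_max_left _ _, le_max_right _ _⟩, ?_⟩
        rw [hs]
        rintro ⟨h1, h2⟩
        rcases max_cases (-(p + 1) - i) (-(q + 1) + i) with ⟨h, _⟩ | ⟨h, _⟩ <;> omega
      intro i j
      exact ⟨fun _ => this j, fun _ => this i⟩
    · right
      have hpq : p + q = 0 := by
        by_contra hne
        have := sum_orders_le B B' hp hq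
        exact tQ (same_type B B' hb hb' hp hp' hq B'.PP hPe B'.PQ (by omega) tP)
      left
      refine ⟨q, eq_of_sum_zero B B' hb hp hp' hq hq' hpq, ?_⟩
      exact eq_of_sum_zero B1 B' hb1 hp1 (by rw [add_assoc]; exact hp1') hq1
        (by simpa using hq1') (by omega)
  · rcases cQ with ⟨tQ, hq1, hq1'⟩ | ⟨tQ, hq1, hq1'⟩
    · right
      have hpq : p + q = 0 := by
        by_contra hne
        have := sum_orders_le B B' hp hq
        exact tP (same_type B B' hb hb' hq hq' hp B'.QQ hQe (by rw [lf_comm, B'.PQ]) (by omega) tQ)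
      right
      refine ⟨q, eq_of_sum_zero B B' hb hp hp' hq hq' hpq, ?_⟩
      exact eq_of_sum_zero B1 B' hb1 hp1 (by simpa using hp1') hq1
        (by rw [add_assoc]; exact hq1') (by omega)
    · left
      have hs1 := sub_iff B1 B' hb1 hp1 (by simpa using hp1') hq1 (by simpa using hq1')
      have : ∀ i, ¬ sig v (B.L v 0) (B1.L v 0) (B'.L v i) := by
        rintro i ⟨t, h1, h2⟩
        rw [hs1] at h1
        apply h2
        rw [hs]
        omega
      intro i j
      exact ⟨fun h => absurd h (this i), fun h => absurd h (this j)⟩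

/-- Inclusions between the lattices of one line. -/
theorem sub_iff_self (i j t : ℤ) :
    (∀ x ∈ B.L v i, v.tau ^ t • x ∈ B.L v j) ↔ (j - i ≤ t ∧ i - j ≤ t) := by
  set B1 := B.shift v j with hB1
  have hL1 : B.L v j = B1.L v 0 := by rw [hB1, L_shift]; simp
  have hI1 : ∀ t x, B.In v j t x ↔ B1.In v 0 t x := by
    intro t x; rw [hB1, in_shift]; simp
  rw [hL1, sub_iff B1 B (fun i => (hI1 _ _).mp (in_e B _ _)) (p := -j) (q := j)
    ((hI1 _ _).mp ((in_P_iff B _ _).mpr (by omega)))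
    (fun h => by have := (in_P_iff B _ _).mp ((hI1 _ _).mpr h); omega)
    ((hI1 _ _).mp ((in_Q_iff B _ _).mpr (by omega)))
    (fun h => by have := (in_Q_iff B _ _).mp ((hI1 _ _).mpr h); omega)]
  omega

theorem sig_down (j i : ℤ) : sig v (B.L v j) (B.L v (j - 1)) (B.L v i) ↔ i ≤ j - 1 := by
  unfold sig
  simp only [sub_iff_self]
  constructor
  · rintro ⟨t, h1, h2⟩; omega
  · intro h
    exact ⟨j - 1 - i, by omega, by omega⟩

theorem sig_up (j i : ℤ) : sig v (B.L v j) (B.L v (j + 1)) (B.L v i) ↔ j + 1 ≤ i := by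
  unfold sig
  simp only [sub_iff_self]
  constructor
  · rintro ⟨t, h1, h2⟩; omega
  · intro h
    exact ⟨i - (j + 1), by omega, by omega⟩

theorem L_injective {i j : ℤ} (h : B.L v i = B.L v j) : i = j := by
  have h1 := (sub_iff_self (v := v) B i j 0).mp (by
    intro x hx; rw [zpow_zero, one_smul, ← h]; exact hx)
  omega

end HFrame

end Bellows
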