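import Pool.Agent.Bellows.Core

/-!
# Discrete valuations of field extensions of `ℂ`, with residue fields
-/

namespace DOrd

variable {K : Type*} [Field K] [Algebra ℂ K] (v : DOrd K)

theorem ord_one : v.ord 1 = 0 := by
  have := v.const 1 one_ne_zero
  simpa using this

theorem ord_neg_one : v.ord (-1) = 0 := by
  have := v.const (-1) (by norm_num)
  simpa using this

theorem ord_neg (x : K) : v.ord (-x) = v.ord x := by
  by_cases hx : x = 0
  · simp [hx]
  · have := v.mul (-1) x (by norm_num) hx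
    rw [ord_neg_one] at this
    simpa using this

theorem ord_inv (x : K) (hx : x ≠ 0) : v.ord x⁻¹ = - v.ord x := by
  have := v.mul x x⁻¹ hx (inv_ne_zero hx)
  rw [mul_inv_cancel₀ hx, v.ord_one] at this
  omega

theorem ord_pow (x : K) (hx : x ≠ 0) (n : ℕ) : v.ord (x ^ n) = n * v.ord x := by
  induction n with
  | zero => simp [v.ord_one]
  | succ n ih =>
    rw [pow_succ, v.mul _ _ (pow_ne_zero _ hx) hx, ih]
    push_cast; ring

theorem ord_zpow (x : K) (hx : x ≠ 0) (n : ℤ) : v.ord (x ^ n) = n * v.ord x := by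
  cases n with
  | ofNat n => simpa using v.ord_pow x hx n
  | negSucc n =>
    rw [zpow_negSucc, v.ord_inv _ (pow_ne_zero _ hx), v.ord_pow x hx]
    push_cast [Int.negSucc_eq]; ring

theorem ord_prod {ι : Type*} (s : Finset ι) (f : ι → K) (hf : ∀ i ∈ s, f i ≠ 0) :
    v.ord (∏ i ∈ s, f i) = ∑ i ∈ s, v.ord (f i) := by
  classical
  induction s using Finset.induction_on with
  | empty => simp [v.ord_one]
  | insert a s ha ih =>
    rw [Finset.prod_insert ha, Finset.sum_insert ha, v.mul, ih]
    · intro i hi; exact hf i (Finset.mem_insert_of_mem hi)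
    · exact hf a (Finset.mem_insert_self _ _)
    · exact Finset.prod_ne_zero_iff.mpr fun i hi => hf i (Finset.mem_insert_of_mem hi)

/-- `x` has order at least `j`. -/
def Ge (j : ℤ) (x : K) : Prop := x = 0 ∨ j ≤ v.ord x

/-- the uniformiser -/
noncomputable def tau : K := v.unif.choose

theorem tau_ne : v.tau ≠ 0 := v.unif.choose_spec.1

theorem ord_tau : v.ord v.tau = 1 := v.unif.choose_spec.2

variable {v}

theorem Ge.zero (j : ℤ) : v.Ge j 0 := Or.inl rfl

theorem Ge.add {j : ℤ} {x y : K} (hx : v.Ge j x) (hy : v.Ge j y) : v.Ge j (x + y) := by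
  rcases hx with rfl | hx
  · simpa using hy
  rcases hy with rfl | hy
  · right; simpa using hx
  by_cases h : x + y = 0
  · left; exact h
  by_cases hx0 : x = 0
  · subst hx0; right; simpa using hy
  by_cases hy0 : y = 0
  · subst hy0; right; simpa using hx
  right
  exact le_trans (le_min hx hy) (v.add x y hx0 hy0 h)

theorem Ge.neg {j : ℤ} {x : K} (hx : v.Ge j x) : v.Ge j (-x) := by
  rcases hx with rfl | hx
  · left; simp
  · right; rwa [v.ord_neg]

theorem Ge.sub {j : ℤ} {x y : K} (hx : v.Ge j x) (hy : v.Ge j y) : v.Ge j (x - y) := by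
  rw [sub_eq_add_neg]; exact hx.add hy.neg

theorem Ge.mul {i j : ℤ} {x y : K} (hx : v.Ge i x) (hy : v.Ge j y) : v.Ge (i + j) (x * y) := by
  rcases hx with rfl | hx
  · left; simp
  rcases hy with rfl | hy
  · left; simp
  by_cases hx0 : x = 0
  · left; simp [hx0]
  by_cases hy0 : y = 0
  · left; simp [hy0]
  right
  rw [v.mul x y hx0 hy0]; omega

theorem Ge.mono {i j : ℤ} (h : i ≤ j) {x : K} (hx : v.Ge j x) : v.Ge i x := by
  rcases hx with rfl | hx
  · left; rfl
  · right; omega

theorem Ge.sum {j : ℤ} {ι : Type*} {s : Finset ι} {f : ι → K} (hf : ∀ i ∈ s, v.Ge j (f i)) :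
    v.Ge j (∑ i ∈ s, f i) := by
  classical
  induction s using Finset.induction_on with
  | empty => simpa using Ge.zero j
  | insert a s ha ih =>
    rw [Finset.sum_insert ha]
    exact (hf a (Finset.mem_insert_self _ _)).add
      (ih fun i hi => hf i (Finset.mem_insert_of_mem hi))

theorem Ge.const (c : ℂ) : v.Ge 0 (algebraMap ℂ K c) := by
  by_cases hc : c = 0
  · left; simp [hc]
  · right; rw [v.const c hc]

theorem Ge.real (c : ℝ) : v.Ge 0 (algebraMap ℂ K (c : ℂ)) := Ge.const _

theorem Ge.one : v.Ge 0 (1 : K) := by simpa using Ge.const (v := v) 1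

theorem Ge.tau_zpow (j : ℤ) : v.Ge j (v.tau ^ j) := by
  right; rw [v.ord_zpow _ v.tau_ne, v.ord_tau]; omega

theorem Ge.mul0 {j : ℤ} {x y : K} (hx : v.Ge 0 x) (hy : v.Ge j y) : v.Ge j (x * y) := by
  simpa using hx.mul hy

theorem ge_tau_mul_iff {i j : ℤ} {x : K} : v.Ge i (v.tau ^ j * x) ↔ v.Ge (i - j) x := by
  constructor
  · intro h
    have := (Ge.tau_zpow (v := v) (-j)).mul h
    rw [← mul_assoc, ← zpow_add₀ v.tau_ne] at this
    simp only [neg_add_cancel, zpow_zero, one_mul] at this
    exact this.mono (by omega)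
  · intro h
    exact ((Ge.tau_zpow j).mul h).mono (by omega)

theorem not_ge_iff {j : ℤ} {x : K} : ¬ v.Ge j x ↔ x ≠ 0 ∧ v.ord x < j := by
  unfold Ge; push Not; rfl

/-- Orders of sums with a dominating term. -/
theorem ord_add_eq {x y : K} {j : ℤ} (hx : x ≠ 0) (hxj : v.ord x < j) (hy : v.Ge j y) :
    x + y ≠ 0 ∧ v.ord (x + y) = v.ord x := by
  rcases hy with rfl | hy
  · simpa using hx
  by_cases hy0 : y = 0
  · subst hy0; simpa using hx
  have hne : x + y ≠ 0 := by
    intro h
    have : x = -y := by linear_combination h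
    rw [this, v.ord_neg] at hxj
    omega
  refine ⟨hne, ?_⟩
  have h1 := v.add x y hx hy0 hne
  have h2 := v.add (x + y) (-y) hne (neg_ne_zero.mpr hy0) (by simpa using hx)
  rw [v.ord_neg] at h2
  simp only [add_neg_cancel_right] at h2
  rw [min_eq_left (by omega)] at h1
  rcases min_le_iff.mp h2 with h | h <;> omega

/-! ### The residue field -/

variable (v) in
/-- The valuation ring. -/
def O : Subring K where
  carrier := {x | v.Ge 0 x}
  mul_mem' ha hb := by simpa using Ge.mul ha hb
  one_mem' := Ge.one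
  add_mem' ha hb := Ge.add ha hb
  zero_mem' := Ge.zero 0
  neg_mem' ha := Ge.neg ha

theorem mem_O {x : K} : x ∈ v.O ↔ v.Ge 0 x := Iff.rfl

variable (v) in
/-- The maximal ideal. -/
def M : Ideal v.O where
  carrier := {x | v.Ge 1 (x : K)}
  add_mem' ha hb := Ge.add ha hb
  zero_mem' := Ge.zero 1
  smul_mem' c x hx := by
    have := Ge.mul (v := v) c.2 hx
    simpa using this

theorem mem_M {x : v.O} : x ∈ v.M ↔ v.Ge 1 (x : K) := Iff.rfl

instance : v.M.IsMaximal := by
  rw [Ideal.isMaximal_iff]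
  constructor
  · intro h
    rw [mem_M] at h
    rcases h with h | h
    · exact one_ne_zero h
    · simp only [OneMemClass.coe_one] at h; rw [v.ord_one] at h; omega
  · intro J x hJ hx hxJ
    rw [mem_M, not_ge_iff] at hx
    have hx2 := x.2
    have h0 : v.ord (x : K) = 0 := by
      rcases hx2 with h | h
      · exact absurd h hx.1
      · omega
    have hinv : v.Ge 0 ((x : K)⁻¹) := by right; rw [v.ord_inv _ hx.1, h0]; simp
    have : (⟨(x : K)⁻¹, hinv⟩ : v.O) * x = 1 := by
      ext; exact inv_mul_cancel₀ hx.1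
    rw [← this]
    exact J.mul_mem_left _ hxJ

variable (v) in
/-- The residue field. -/
def k : Type _ := v.O ⧸ v.M

noncomputable instance : Field v.k := Ideal.Quotient.field v.M

variable (v) in
/-- The residue map. -/
noncomputable def res : v.O →+* v.k := Ideal.Quotient.mk v.M

theorem res_eq_zero {x : v.O} : v.res x = 0 ↔ x ∈ v.M := Ideal.Quotient.eq_zero_iff_mem

theorem mk_surjective : Function.Surjective v.res := Ideal.Quotient.mk_surjective

variable (v) in
/-- Constants in the valuation ring. -/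
noncomputable def constO : ℂ →+* v.O :=
  RingHom.codRestrict (algebraMap ℂ K) v.O fun c => Ge.const c

noncomputable instance : Algebra ℂ v.k := (v.res.comp v.constO).toAlgebra

open Classical in
variable (v) in
/-- Reduction, with value `0` outside of the valuation ring. -/
noncomputable def red (x : K) : v.k :=
  if h : v.Ge 0 x then v.res ⟨x, h⟩ else 0

theorem red_of {x : K} (h : v.Ge 0 x) : v.red x = v.res ⟨x, h⟩ := by
  unfold red; rw [dif_pos h]

theorem red_add {x y : K} (hx : v.Ge 0 x) (hy : v.Ge 0 y) :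
    v.red (x + y) = v.red x + v.red y := by
  rw [red_of hx, red_of hy, red_of (hx.add hy)]
  exact v.res.map_add ⟨x, hx⟩ ⟨y, hy⟩

theorem red_mul {x y : K} (hx : v.Ge 0 x) (hy : v.Ge 0 y) :
    v.red (x * y) = v.red x * v.red y := by
  rw [red_of hx, red_of hy, red_of (hx.mul0 hy)]
  exact v.res.map_mul ⟨x, hx⟩ ⟨y, hy⟩

theorem red_neg {x : K} (hx : v.Ge 0 x) : v.red (-x) = - v.red x := by
  rw [red_of hx, red_of hx.neg]
  exact v.res.map_neg ⟨x, hx⟩

theorem red_sub {x y : K} (hx : v.Ge 0 x) (hy : v.Ge 0 y) :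
    v.red (x - y) = v.red x - v.red y := by
  rw [sub_eq_add_neg, red_add hx hy.neg, red_neg hy, sub_eq_add_neg]

theorem red_const (c : ℂ) : v.red (algebraMap ℂ K c) = algebraMap ℂ v.k c := by
  rw [red_of (Ge.const c)]; rfl

theorem red_one : v.red 1 = 1 := by
  have := red_const (v := v) 1
  simpa using this

theorem red_zero : v.red 0 = 0 := by
  have := red_const (v := v) 0
  simpa using this

theorem red_eq_zero {x : K} (hx : v.Ge 0 x) : v.red x = 0 ↔ v.Ge 1 x := by
  rw [red_of hx]
  exact res_eq_zero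

theorem red_sum {ι : Type*} {s : Finset ι} {f : ι → K} (hf : ∀ i ∈ s, v.Ge 0 (f i)) :
    v.red (∑ i ∈ s, f i) = ∑ i ∈ s, v.red (f i) := by
  classical
  induction s using Finset.induction_on with
  | empty => simpa using red_zero
  | insert a s ha ih =>
    rw [Finset.sum_insert ha, Finset.sum_insert ha, red_add (hf a (Finset.mem_insert_self _ _))
      (Ge.sum fun i hi => hf i (Finset.mem_insert_of_mem hi)),
      ih fun i hi => hf i (Finset.mem_insert_of_mem hi)]

theorem red_prod {ι : Type*} {s : Finset ι} {f : ι → K} (hf : ∀ i ∈ s, v.Ge 0 (f i)) :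
    v.Ge 0 (∏ i ∈ s, f i) ∧ v.red (∏ i ∈ s, f i) = ∏ i ∈ s, v.red (f i) := by
  classical
  induction s using Finset.induction_on with
  | empty => exact ⟨by simpa using Ge.one, by simpa using red_one⟩
  | insert a s ha ih =>
    have h1 := ih fun i hi => hf i (Finset.mem_insert_of_mem hi)
    have h2 := hf a (Finset.mem_insert_self _ _)
    rw [Finset.prod_insert ha, Finset.prod_insert ha]
    exact ⟨h2.mul0 h1.1, by rw [red_mul h2 h1.1, h1.2]⟩

theorem red_det {n : ℕ} (A : Matrix (Fin n) (Fin n) K) (hA : ∀ i j, v.Ge 0 (A i j)) :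
    v.Ge 0 A.det ∧ v.red A.det = (A.map v.red).det := by
  rw [Matrix.det_apply, Matrix.det_apply]
  have h : ∀ σ ∈ (Finset.univ : Finset (Equiv.Perm (Fin n))),
      v.Ge 0 (Equiv.Perm.sign σ • ∏ i, A (σ i) i) ∧
      v.red (Equiv.Perm.sign σ • ∏ i, A (σ i) i) = Equiv.Perm.sign σ • ∏ i, v.red (A (σ i) i) := by
    intro σ _
    have h1 := red_prod (v := v) (s := Finset.univ) (f := fun i => A (σ i) i)
      (fun i _ => hA _ _)
    rcases Int.units_eq_one_or (Equiv.Perm.sign σ) with h | h
    · rw [h]; simpa using h1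
    · rw [h]
      simp only [Units.neg_smul, one_smul]
      exact ⟨h1.1.neg, by rw [red_neg h1.1, h1.2]⟩
  refine ⟨Ge.sum fun σ hσ => (h σ hσ).1, ?_⟩
  rw [red_sum fun σ hσ => (h σ hσ).1]
  refine Finset.sum_congr rfl fun σ hσ => ?_
  rw [(h σ hσ).2]; rfl

theorem red_ne_zero {x : K} (hx : x ≠ 0) (h : v.ord x = 0) : v.red x ≠ 0 := by
  intro h0
  rw [red_eq_zero (Or.inr h.ge)] at h0
  rcases h0 with h0 | h0
  · exact hx h0
  · omega

theorem ord_eq_zero_of_red_ne_zero {x : K} (h : v.red x ≠ 0) : x ≠ 0 ∧ v.ord x = 0 := by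
  by_cases hx : v.Ge 0 x
  · rw [Ne, red_eq_zero hx, not_ge_iff] at h
    refine ⟨h.1, ?_⟩
    rcases hx with hx | hx
    · exact absurd hx h.1
    · omega
  · unfold red at h; rw [dif_neg hx] at h; exact absurd rfl h

theorem red_eq_red_of_sub {x y : K} (hx : v.Ge 0 x) (h : v.Ge 1 (x - y)) : v.red x = v.red y := by
  have hy : v.Ge 0 y := by
    have := hx.sub (h.mono zero_le_one)
    simpa using this
  have := (red_eq_zero (hx.sub hy)).mpr h
  rw [red_sub hx hy] at this
  exact sub_eq_zero.mp this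

end DOrd
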